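import Mathlib

/-! # CFT (class field theory): divisors, ray condition, Frobenius elements, Artin symbol: DEFINITIONS

Divisors of a number field K: Dv K = finitely supported functions from the set Pr K of prime ideals to the integers (the group of fractional
ideals, written additively). od v x: order of x at v. dv x: the divisor of x. below K w: the prime of K below the prime w of L. Nd K L: the norm
of divisors. S: a finite set of primes, N a natural number. Ray S N x: x in K^*, the order of x - 1 at the primes of S is > N, and x is positive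
at all real embeddings. Pray S N: the divisors which outside S agree with dv x, Ray S N x; so the quotient of Dv K by Pray S N is the
(narrow) ray class group modulo the product of the v^(N+1), v in S. Unr K L v: v is unramified in L. frob K L v: the Frobenius element, for L/K abelian and v unramified (1 otherwise).
art S chi D: the Artin symbol: chi (the product of the Frobenius elements), primes in S are ignored. -/

open NumberField IsDedekindDomain

namespace CFT

/-- The prime ideals. -/
abbrev Pr (K : Type) [Field K] := HeightOneSpectrum (𝓞 K)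

/-- The group of divisors. -/
abbrev Dv (K : Type) [Field K] := HeightOneSpectrum (𝓞 K) →₀ ℤ

section one

variable {K : Type} [Field K] [NumberField K]

/-- The order of x at v (0 for x = 0). -/
noncomputable def od (v : Pr K) (x : K) : ℤ := -WithZero.log (v.valuation K x)

theorem od_zero (v : Pr K) : od v (0 : K) = 0 := by
  unfold od
  rw [map_zero, WithZero.log_zero, neg_zero]

theorem od_one (v : Pr K) : od v (1 : K) = 0 := by
  unfold od
  rw [map_one, WithZero.log_one, neg_zero]

theorem od_mul (v : Pr K) {x y : K} (hx : x ≠ 0) (hy : y ≠ 0) : od v (x * y) = od v x + od v y := by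
  unfold od
  rw [map_mul, WithZero.log_mul ((Valuation.ne_zero_iff _).2 hx) ((Valuation.ne_zero_iff _).2 hy), neg_add]

theorem od_inv (v : Pr K) (x : K) : od v x⁻¹ = -od v x := by
  unfold od
  rw [map_inv₀, WithZero.log_inv]

/-- The relation with the valuation. -/
theorem val_eq (v : Pr K) {x : K} (hx : x ≠ 0) : v.valuation K x = WithZero.exp (-od v x) := by
  unfold od
  rw [neg_neg, WithZero.exp_log ((Valuation.ne_zero_iff _).2 hx)]

/-- Elements of the ring of integers have finitely many zeros. -/
theorem fin_int {r : 𝓞 K} (hr : r ≠ 0) : {v : Pr K | v.valuation K (r : K) ≠ 1}.Finite := by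
  have h := Ideal.finite_factors (I := Ideal.span {r}) (fun h => hr (Ideal.span_singleton_eq_bot.1 h))
  refine h.subset fun v hv => ?_
  show v.asIdeal ∣ Ideal.span {r}
  have h1 : v.valuation K (algebraMap (𝓞 K) K r) < 1 := lt_of_le_of_ne (v.valuation_le_one r) hv
  rwa [HeightOneSpectrum.valuation_lt_one_iff_dvd] at h1

theorem od_fin (x : K) : {v : Pr K | od v x ≠ 0}.Finite := by
  by_cases hx : x = 0
  · subst hx
    refine Set.finite_empty.subset fun v hv => ?_
    exact hv (od_zero v)
  obtain ⟨a, b, hb, rfl⟩ := IsFractionRing.div_surjective (A := 𝓞 K) x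
  have hb0 : b ≠ 0 := nonZeroDivisors.ne_zero hb
  have ha0 : a ≠ 0 := by
    rintro rfl
    rw [map_zero, zero_div] at hx
    exact hx rfl
  refine ((fin_int ha0).union (fin_int hb0)).subset fun v hv => ?_
  by_contra hcon
  rw [Set.mem_union, not_or, Set.mem_ofPred_eq, Set.mem_ofPred_eq, not_not, not_not] at hcon
  apply hv
  unfold od
  rw [map_div₀]
  erw [hcon.1, hcon.2]
  rw [div_one, WithZero.log_one, neg_zero]

/-- The divisor of x (0 for x = 0). -/
noncomputable def dv (x : K) : Dv K := Finsupp.ofSupportFinite (fun v => od v x) (od_fin x)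

@[simp] theorem dv_apply (x : K) (v : Pr K) : dv x v = od v x := rfl

theorem dv_one : dv (1 : K) = 0 := by
  ext v
  rw [dv_apply, od_one]
  rfl

theorem dv_mul {x y : K} (hx : x ≠ 0) (hy : y ≠ 0) : dv (x * y) = dv x + dv y := by
  ext v
  rw [dv_apply, od_mul v hx hy]
  rfl

theorem dv_inv (x : K) : dv x⁻¹ = -dv x := by
  ext v
  rw [dv_apply, od_inv]
  rfl

/-- The absolute norm of a prime. -/
noncomputable def Nm (v : Pr K) : ℕ := Ideal.absNorm v.asIdeal

/-- The (narrow) ray modulo the product of the v^(N+1), v in S. -/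
structure Ray (S : Finset (Pr K)) (N : ℕ) (x : K) : Prop where
  ne : x ≠ 0
  cong : ∀ v ∈ S, v.valuation K (x - 1) < WithZero.exp (-(N : ℤ))
  pos : ∀ φ : K →+* ℝ, 0 < φ x

theorem ray_one (S : Finset (Pr K)) (N : ℕ) : Ray S N (1 : K) := by
  refine ⟨one_ne_zero, fun v _ => ?_, fun φ => ?_⟩
  · rw [sub_self, map_zero]
    exact WithZero.zero_lt_coe _
  · rw [map_one]
    exact one_pos

theorem exp_le_one (N : ℕ) : WithZero.exp (-(N : ℤ)) ≤ 1 := by
  rw [← WithZero.exp_zero, WithZero.exp_le_exp]
  omega

theorem Ray.unit {S : Finset (Pr K)} {N : ℕ} {x : K} (h : Ray S N x) {v : Pr K} (hv : v ∈ S) : v.valuation K x = 1 := by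
  have h1 : v.valuation K (x - 1) < 1 := (h.cong v hv).trans_le (exp_le_one N)
  have h2 : x = 1 + (x - 1) := by ring
  rw [h2]
  exact Valuation.map_one_add_of_lt _ h1

theorem Ray.mul {S : Finset (Pr K)} {N : ℕ} {x y : K} (hx : Ray S N x) (hy : Ray S N y) : Ray S N (x * y) := by
  refine ⟨mul_ne_zero hx.ne hy.ne, fun v hv => ?_, fun φ => ?_⟩
  · have e : x * y - 1 = (x - 1) * y + (y - 1) := by ring
    rw [e]
    refine Valuation.map_add_lt _ ?_ (hy.cong v hv)
    rw [map_mul, hy.unit hv, mul_one]
    exact hx.cong v hv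
  · rw [map_mul]
    exact mul_pos (hx.pos φ) (hy.pos φ)

theorem Ray.inv {S : Finset (Pr K)} {N : ℕ} {x : K} (hx : Ray S N x) : Ray S N x⁻¹ := by
  refine ⟨inv_ne_zero hx.ne, fun v hv => ?_, fun φ => ?_⟩
  · have e : x⁻¹ - 1 = -((x - 1) * x⁻¹) := by
      field_simp [hx.ne]
      ring
    rw [e, Valuation.map_neg, map_mul, map_inv₀, hx.unit hv, inv_one, mul_one]
    exact hx.cong v hv
  · rw [map_inv₀]
    exact inv_pos.2 (hx.pos φ)

/-- The divisors which outside S are the divisor of an element of the ray. -/
def Pray (S : Finset (Pr K)) (N : ℕ) : AddSubgroup (Dv K) where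
  carrier := {D | ∃ x : K, Ray S N x ∧ ∀ v ∉ S, D v = od v x}
  zero_mem' := ⟨1, ray_one S N, fun v _ => (od_one v).symm⟩
  add_mem' := by
    rintro D E ⟨x, hx, h1⟩ ⟨y, hy, h2⟩
    refine ⟨x * y, hx.mul hy, fun v hv => ?_⟩
    rw [Finsupp.add_apply, h1 v hv, h2 v hv, od_mul v hx.ne hy.ne]
  neg_mem' := by
    rintro D ⟨x, hx, h1⟩
    refine ⟨x⁻¹, hx.inv, fun v hv => ?_⟩
    rw [Finsupp.neg_apply, h1 v hv, od_inv]

end one

section two

variable (K : Type) [Field K] [NumberField K] (L : Type) [Field L] [NumberField L] [Algebra K L]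

variable {L} in
/-- The prime of K below a prime of L. -/
noncomputable def below (w : Pr L) : Pr K :=
  ⟨w.asIdeal.under (𝓞 K), inferInstance, mt Ideal.eq_bot_of_comap_eq_bot w.ne_bot⟩

/-- The norm of divisors. -/
noncomputable def Nd : Dv L →+ Dv K :=
  Finsupp.liftAddHom fun w => ((Finsupp.singleAddHom (below K w)).comp
    (AddMonoidHom.mulLeft ((w.asIdeal.inertiaDeg (𝓞 K) : ℕ) : ℤ)))

/-- v is unramified in L. -/
def Unr (v : Pr K) : Prop := ∀ w : Pr L, below K w = v → w.asIdeal.ramificationIdx (𝓞 K) = 1

/-- s is a Frobenius element at all primes above v. -/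
def IsFr (v : Pr K) (s : L ≃ₐ[K] L) : Prop := ∀ w : Pr L, below K w = v → ∀ x : 𝓞 L, s • x - x ^ Nm v ∈ w.asIdeal

open Classical in
/-- The Frobenius element. -/
noncomputable def frob (v : Pr K) : L ≃ₐ[K] L := if h : Unr K L v ∧ ∃ s, IsFr K L v s then h.2.choose else 1

variable {K L}

open Classical in
/-- The Artin symbol, composed with a homomorphism chi from the Galois group to an abelian group. -/
noncomputable def art (S : Finset (Pr K)) {A : Type} [CommGroup A] (χ : (L ≃ₐ[K] L) →* A) : Dv K →+ Additive A :=
  Finsupp.liftAddHom fun v => zmultiplesHom (Additive A) (if v ∈ S then 0 else Additive.ofMul (χ (frob K L v)))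

end two

end CFT
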