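import Mathlib
import Pool.Agent.Lib.CFT.D0

/-! # CFT: further definitions (primes above a set, restriction of automorphisms) -/

open NumberField IsDedekindDomain

namespace CFT

section

variable (K : Type) [Field K] [NumberField K] (L : Type) [Field L] [NumberField L] [Algebra K L]

theorem below_fin (v : Pr K) : {w : Pr L | below K w = v}.Finite := by
  have h := IsDedekindDomain.primesOver_finite v.asIdeal (𝓞 L)
  refine Set.Finite.of_finite_image (f := fun w : Pr L => w.asIdeal) (h.subset ?_) ?_
  · rintro _ ⟨w, hw, rfl⟩
    refine ⟨w.isPrime, ⟨?_⟩⟩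
    rw [← (show below K w = v from hw)]
    rfl
  · intro a _ b _ hab
    exact HeightOneSpectrum.ext hab

theorem up_fin (S : Finset (Pr K)) : {w : Pr L | below K w ∈ S}.Finite := by
  have h : {w : Pr L | below K w ∈ S} = ⋃ v ∈ S, {w : Pr L | below K w = v} := by
    ext w
    simp
  rw [h]
  exact Set.Finite.biUnion S.finite_toSet fun v _ => below_fin K L v

variable {K} in
/-- The primes of L above S. -/
noncomputable def up (S : Finset (Pr K)) : Finset (Pr L) := (up_fin K L S).toFinset

variable {K L} in
theorem mem_up (S : Finset (Pr K)) (w : Pr L) : w ∈ up L S ↔ below K w ∈ S := by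
  unfold up
  rw [Set.Finite.mem_toFinset]
  rfl

end

section

variable (K : Type) [Field K] (L : Type) [Field L] [Algebra K L] (E : Type) [Field E] [Algebra K E]
  (M : Type) [Field M] [Algebra K M] [Algebra L M] [Algebra E M] [IsScalarTower K L M] [IsScalarTower K E M]

/-- The restriction of the automorphisms of M over E to the normal extension L of K (E and L are subfields of M). -/
noncomputable def resE [Normal K L] : (M ≃ₐ[E] M) →* (L ≃ₐ[K] L) where
  toFun s := AlgEquiv.restrictNormalHom L (s.restrictScalars K)
  map_one' := by
    have h : (1 : M ≃ₐ[E] M).restrictScalars K = 1 := rfl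
    rw [h, map_one]
  map_mul' s t := by
    have h : (s * t).restrictScalars K = s.restrictScalars K * t.restrictScalars K := rfl
    rw [h, map_mul]

variable {K L E M} in
theorem resE_spec [Normal K L] (s : M ≃ₐ[E] M) (x : L) : algebraMap L M (resE K L E M s x) = s (algebraMap L M x) :=
  AlgEquiv.restrictNormal_commutes (s.restrictScalars K) L x

end

end CFT
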