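import Mathlib
import Pool.Agent.Lib.CFT.D1

/-! # CFT: ideal of a divisor, absolute norm of a divisor, conorm -/

open NumberField IsDedekindDomain

namespace CFT

section

variable {K : Type} [Field K] [NumberField K]

/-- The ideal of a divisor (negative coefficients are ignored). -/
noncomputable def idl (D : Dv K) : Ideal (𝓞 K) := D.prod fun v n => v.asIdeal ^ n.toNat

/-- The absolute norm of a divisor. -/
noncomputable def nD (D : Dv K) : ℚ := D.prod fun v n => (Nm v : ℚ) ^ n

theorem Nm_pos (v : Pr K) : 0 < Nm v := by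
  unfold Nm
  exact Nat.pos_of_ne_zero (fun h => v.ne_bot (Ideal.absNorm_eq_zero_iff.1 h))

theorem nD_zero : nD (0 : Dv K) = 1 := Finsupp.prod_zero_index

theorem nD_single (v : Pr K) (n : ℤ) : nD (Finsupp.single v n) = (Nm v : ℚ) ^ n := by
  unfold nD
  rw [Finsupp.prod_single_index]
  exact zpow_zero _

theorem nD_add (D E : Dv K) : nD (D + E) = nD D * nD E := by
  classical
  unfold nD
  rw [Finsupp.prod_add_index]
  · intro v _
    exact zpow_zero _
  · intro v _ a b
    exact zpow_add₀ (Nat.cast_ne_zero.2 (Nm_pos v).ne') a b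

end

section

variable (K : Type) [Field K] [NumberField K] (L : Type) [Field L] [NumberField L] [Algebra K L]

variable {K} in
/-- The primes of L above v. -/
noncomputable def abv (v : Pr K) : Finset (Pr L) := (below_fin K L v).toFinset

variable {K L} in
theorem mem_abv (v : Pr K) (w : Pr L) : w ∈ abv L v ↔ below K w = v := by
  unfold abv
  rw [Set.Finite.mem_toFinset]
  rfl

/-- The conorm (the divisor of K as a divisor of L). -/
noncomputable def Cn : Dv K →+ Dv L :=
  Finsupp.liftAddHom fun v => ∑ w ∈ abv L v, ((Finsupp.singleAddHom w).comp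
    (AddMonoidHom.mulLeft ((w.asIdeal.ramificationIdx (𝓞 K) : ℕ) : ℤ)))

theorem Nd_single (w : Pr L) (n : ℤ) :
    Nd K L (Finsupp.single w n) = Finsupp.single (below K w) ((w.asIdeal.inertiaDeg (𝓞 K) : ℕ) * n) := by
  unfold Nd
  rw [Finsupp.liftAddHom_apply_single]
  rfl

theorem Cn_single (v : Pr K) (n : ℤ) :
    Cn K L (Finsupp.single v n) = ∑ w ∈ abv L v, Finsupp.single w ((w.asIdeal.ramificationIdx (𝓞 K) : ℕ) * n) := by
  unfold Cn
  rw [Finsupp.liftAddHom_apply_single, AddMonoidHom.finsetSum_apply]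
  rfl

variable {K L}

open Classical in
theorem art_single (S : Finset (Pr K)) {A : Type} [CommGroup A] (χ : (L ≃ₐ[K] L) →* A) (v : Pr K) (n : ℤ) :
    art S χ (Finsupp.single v n) = n • (if v ∈ S then 0 else Additive.ofMul (χ (frob K L v))) := by
  unfold art
  rw [Finsupp.liftAddHom_apply_single]
  rfl

theorem art_single_of_notMem {S : Finset (Pr K)} {A : Type} [CommGroup A] (χ : (L ≃ₐ[K] L) →* A) {v : Pr K} (hv : v ∉ S) (n : ℤ) :
    art S χ (Finsupp.single v n) = n • Additive.ofMul (χ (frob K L v)) := by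
  classical
  rw [art_single, if_neg hv]

theorem art_single_of_mem {S : Finset (Pr K)} {A : Type} [CommGroup A] (χ : (L ≃ₐ[K] L) →* A) {v : Pr K} (hv : v ∈ S) (n : ℤ) :
    art S χ (Finsupp.single v n) = 0 := by
  classical
  rw [art_single, if_pos hv, smul_zero]

theorem art_comp (S : Finset (Pr K)) {A B : Type} [CommGroup A] [CommGroup B] (f : A →* B) (χ : (L ≃ₐ[K] L) →* A) (D : Dv K) :
    art S (f.comp χ) D = (MonoidHom.toAdditive f) (art S χ D) := by
  have h : art S (f.comp χ) = (MonoidHom.toAdditive f).comp (art S χ) := by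
    refine Finsupp.addHom_ext fun v n => ?_
    rw [AddMonoidHom.comp_apply]
    by_cases hv : v ∈ S
    · rw [art_single_of_mem _ hv, art_single_of_mem _ hv, map_zero]
    · rw [art_single_of_notMem _ hv, art_single_of_notMem _ hv, map_zsmul]
      rfl
  rw [h]
  rfl

/-- The Artin symbol depends only on the coefficients outside S. -/
theorem art_congr (S : Finset (Pr K)) {A : Type} [CommGroup A] (χ : (L ≃ₐ[K] L) →* A) {D E : Dv K} (h : ∀ v ∉ S, D v = E v) :
    art S χ D = art S χ E := by
  classical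
  have h0 : ∀ F : Dv K, (∀ v ∉ S, F v = 0) → art S χ F = 0 := by
    intro F hF
    have e : F = ∑ v ∈ F.support, Finsupp.single v (F v) := (Finsupp.sum_single F).symm
    rw [e, map_sum]
    refine Finset.sum_eq_zero fun v hv => ?_
    by_cases hS : v ∈ S
    · exact art_single_of_mem χ hS _
    · rw [hF v hS, Finsupp.single_zero, map_zero]
  have h1 := h0 (D - E) fun v hv => by rw [Finsupp.sub_apply, h v hv, sub_self]
  rw [map_sub, sub_eq_zero] at h1
  exact h1

/-- The modulus may be enlarged if the divisor is 0 at the new primes. -/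
theorem art_mono {S T : Finset (Pr K)} (hST : S ⊆ T) {A : Type} [CommGroup A] (χ : (L ≃ₐ[K] L) →* A) {D : Dv K}
    (h : ∀ v ∈ T, v ∉ S → D v = 0) : art S χ D = art T χ D := by
  classical
  have e : D = ∑ v ∈ D.support, Finsupp.single v (D v) := (Finsupp.sum_single D).symm
  rw [e, map_sum, map_sum]
  refine Finset.sum_congr rfl fun v _ => ?_
  by_cases hS : v ∈ S
  · rw [art_single_of_mem χ hS, art_single_of_mem χ (hST hS)]
  · by_cases hT : v ∈ T
    · rw [h v hT hS, Finsupp.single_zero, map_zero, map_zero]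
    · rw [art_single_of_notMem χ hS, art_single_of_notMem χ hT]

/-- The ray conditions. -/
theorem Ray.mono {S T : Finset (Pr K)} (hST : S ⊆ T) {N M : ℕ} (hNM : N ≤ M) {x : K} (h : Ray T M x) : Ray S N x := by
  refine ⟨h.ne, fun v hv => (h.cong v (hST hv)).trans_le ?_, h.pos⟩
  rw [WithZero.exp_le_exp]
  omega

theorem Ray.od_eq {S : Finset (Pr K)} {N : ℕ} {x : K} (h : Ray S N x) {v : Pr K} (hv : v ∈ S) : od v x = 0 := by
  unfold od
  rw [h.unit hv, WithZero.log_one, neg_zero]

theorem dv_mem_Pray {S : Finset (Pr K)} {N : ℕ} {x : K} (h : Ray S N x) : dv x ∈ Pray S N := ⟨x, h, fun _ _ => rfl⟩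

theorem mem_Pray {S : Finset (Pr K)} {N : ℕ} {D : Dv K} : D ∈ Pray S N ↔ ∃ x : K, Ray S N x ∧ ∀ v ∉ S, D v = od v x := Iff.rfl

/-- Divisors supported on S are in Pray S N. -/
theorem supp_mem_Pray {S : Finset (Pr K)} (N : ℕ) {D : Dv K} (h : ∀ v ∉ S, D v = 0) : D ∈ Pray S N :=
  ⟨1, ray_one S N, fun v hv => by rw [h v hv, od_one]⟩

/-- Comparison of two moduli, for divisors which are 0 at the new primes. -/
theorem Pray_sub {S T : Finset (Pr K)} (hST : S ⊆ T) {N M : ℕ} (hNM : N ≤ M) {D : Dv K} (h : D ∈ Pray T M)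
    (h0 : ∀ v ∈ T, v ∉ S → D v = 0) : D ∈ Pray S N := by
  obtain ⟨x, hx, h1⟩ := h
  refine ⟨x, hx.mono hST hNM, fun v hv => ?_⟩
  by_cases hT : v ∈ T
  · rw [h0 v hT hv, hx.od_eq hT]
  · exact h1 v hT

end

end CFT
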