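import Mathlib
import Pool.Agent.Lib.CFT.D2

/-! # CFT module B, chunk B01: orders of algebraic integers -/

open NumberField IsDedekindDomain

namespace CFT

variable {K : Type} [Field K] [NumberField K]


/-- PROOF. od v r = -log (v.valuation K r), v.valuation_le_one r; WithZero.log is monotone on nonzero elements (r = 0: od = 0). -/
theorem od_nonneg (v : Pr K) (r : 𝓞 K) : 0 ≤ od v (r : K) := by
  by_cases hr : r = 0
  · subst hr
    have e : ((0 : 𝓞 K) : K) = 0 := map_zero _
    rw [e, od_zero]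
  · have hr' : (r : K) ≠ 0 := fun h => hr (RingOfIntegers.coe_eq_zero_iff.1 h)
    have h1 : v.valuation K (r : K) ≤ 1 := v.valuation_le_one r
    rw [val_eq v hr', ← WithZero.exp_zero, WithZero.exp_le_exp] at h1
    omega

/-- PROOF. HeightOneSpectrum.valuation_lt_one_iff_dvd / valuation_le_pow_iff_dvd (or intValuation_le_pow_iff_mem) and valuation_of_algebraMap; val_eq in D0. -/
theorem od_le_iff (v : Pr K) {r : 𝓞 K} (hr : r ≠ 0) (n : ℕ) : (n : ℤ) ≤ od v (r : K) ↔ r ∈ v.asIdeal ^ n := by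
  have hr' : (r : K) ≠ 0 := fun h => hr (RingOfIntegers.coe_eq_zero_iff.1 h)
  rw [← v.intValuation_le_pow_iff_mem r n, ← v.valuation_of_algebraMap (K := K) r]
  have h1 : v.valuation K (algebraMap (𝓞 K) K r) = WithZero.exp (-od v (r : K)) := val_eq v hr'
  rw [h1, WithZero.exp_le_exp]
  omega

/-- PROOF. From od_le_iff with n = 1. -/
theorem od_pos_iff (v : Pr K) {r : 𝓞 K} (hr : r ≠ 0) : 0 < od v (r : K) ↔ r ∈ v.asIdeal := by
  have h := od_le_iff v hr 1
  rw [pow_one] at h
  rw [← h]
  norm_cast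

/-- PROOF. Valuation of a sum (Valuation.map_add); WithZero.log monotone. -/
theorem od_add_ge (v : Pr K) {x y : K} (hxy : x + y ≠ 0) (n : ℤ) (hx : x = 0 ∨ n ≤ od v x) (hy : y = 0 ∨ n ≤ od v y) : n ≤ od v (x + y) := by
  have h1 : ∀ z : K, (z = 0 ∨ n ≤ od v z) → v.valuation K z ≤ WithZero.exp (-n) := by
    intro z hz
    rcases hz with hz | hz
    · rw [hz, map_zero]
      exact zero_le
    · by_cases h0 : z = 0
      · rw [h0, map_zero]
        exact zero_le
      · rw [val_eq v h0, WithZero.exp_le_exp]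
        omega
  have h2 : v.valuation K (x + y) ≤ WithZero.exp (-n) :=
    (Valuation.map_add _ x y).trans (max_le (h1 x hx) (h1 y hy))
  rw [val_eq v hxy, WithZero.exp_le_exp] at h2
  omega

/-- PROOF. val_eq and WithZero.exp_lt_exp. -/
theorem val_lt_iff (v : Pr K) {x : K} (hx : x ≠ 0) (N : ℤ) : v.valuation K x < WithZero.exp (-N) ↔ N < od v x := by
  rw [val_eq v hx, WithZero.exp_lt_exp]
  omega

end CFT
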