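import Mathlib
import Pool.Agent.Lib.CFT.D2
import Pool.Agent.Lib.CFT.B01

/-! # CFT module B, chunk B02: elements with divisor >= 0 are integral, divisor 0 are units -/

open NumberField IsDedekindDomain

namespace CFT

variable {K : Type} [Field K] [NumberField K]


/-- PROOF. If x = 0 take r = 0. Otherwise v.valuation K x <= 1 for all v by val_eq (D0), and
HeightOneSpectrum.mem_integers_of_valuation_le_one. -/
theorem int_of_od {x : K} (h : ∀ v : Pr K, 0 ≤ od v x) : ∃ r : 𝓞 K, (r : K) = x := by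
  have h1 : ∀ v : Pr K, v.valuation K x ≤ 1 := by
    intro v
    by_cases hx : x = 0
    · rw [hx, map_zero]
      exact zero_le
    · rw [val_eq v hx, ← WithZero.exp_zero, WithZero.exp_le_exp]
      have := h v
      omega
  obtain ⟨r, hr⟩ := HeightOneSpectrum.mem_integers_of_valuation_le_one (R := 𝓞 K) K x h1
  exact ⟨r, hr⟩

/-- PROOF. int_of_od for x and for its inverse (od_inv). -/
theorem unit_of_dv {x : K} (hx : x ≠ 0) (h : dv x = 0) : ∃ u : (𝓞 K)ˣ, ((u : 𝓞 K) : K) = x := by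
  have h1 : ∀ v : Pr K, od v x = 0 := fun v => by
    rw [← dv_apply, h]
    rfl
  obtain ⟨r, hr⟩ := int_of_od (x := x) fun v => (h1 v).ge
  obtain ⟨t, ht⟩ := int_of_od (x := x⁻¹) fun v => by rw [od_inv, h1 v, neg_zero]
  have h2 : r * t = 1 := by
    apply RingOfIntegers.coe_injective
    rw [map_mul, map_one]
    have e1 : algebraMap (𝓞 K) K r = x := hr
    have e2 : algebraMap (𝓞 K) K t = x⁻¹ := ht
    rw [e1, e2, mul_inv_cancel₀ hx]
  exact ⟨Units.mkOfMulEqOne r t h2, hr⟩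

/-- PROOF. u and its inverse are algebraic integers: od_nonneg (B01) twice and od_inv. -/
theorem dv_unit (u : (𝓞 K)ˣ) : dv ((u : 𝓞 K) : K) = 0 := by
  ext v
  rw [dv_apply]
  have h1 := od_nonneg v (u : 𝓞 K)
  have h2 := od_nonneg v ((u⁻¹ : (𝓞 K)ˣ) : 𝓞 K)
  have h3 : (((u⁻¹ : (𝓞 K)ˣ) : 𝓞 K) : K) = ((u : 𝓞 K) : K)⁻¹ := by
    apply eq_inv_of_mul_eq_one_left
    have e : ((u⁻¹ : (𝓞 K)ˣ) : 𝓞 K) * (u : 𝓞 K) = 1 := u.inv_mul
    have e2 := congrArg (fun z : 𝓞 K => (z : K)) e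
    simpa using e2
  rw [h3, od_inv] at h2
  show od v ((u : 𝓞 K) : K) = 0
  omega

/-- PROOF. x / y has divisor 0; unit_of_dv. -/
theorem dv_eq_iff {x y : K} (hx : x ≠ 0) (hy : y ≠ 0) : dv x = dv y ↔ ∃ u : (𝓞 K)ˣ, x = ((u : 𝓞 K) : K) * y := by
  constructor
  · intro h
    obtain ⟨u, hu⟩ := unit_of_dv (x := x * y⁻¹) (mul_ne_zero hx (inv_ne_zero hy)) (by
      rw [dv_mul hx (inv_ne_zero hy), dv_inv, h, add_neg_cancel])
    refine ⟨u, ?_⟩
    rw [hu, inv_mul_cancel_right₀ hy]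
  · rintro ⟨u, hu⟩
    have h1 : ((u : 𝓞 K) : K) ≠ 0 := fun h => by
      rw [h, zero_mul] at hu
      exact hx hu
    rw [hu, dv_mul h1 hy, dv_unit, zero_add]

end CFT
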