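import Mathlib
import Pool.Agent.Lib.CFT.D2
import Pool.Agent.Lib.CFT.B01

/-! # CFT module B, chunk B03: fractions with denominator prime to S -/

open NumberField IsDedekindDomain

namespace CFT

variable {K : Type} [Field K] [NumberField K]


/-- PROOF. x = a0 / b0 with a0, b0 in O_K. Let I = {b in O_K : b x in O_K} (an ideal, contains b0). For every v in S there is an element of I outside v.asIdeal:
otherwise ... simplest way: the ideal I is not contained in v.asIdeal: let n = od v b0 and choose c in O_K with c in w^(od w b0) for all w other than v in the support of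
dv b0 and c not in v (Chinese remainder theorem IsDedekindDomain.exists_forall_sub_mem_ideal or Ideal.exists.. ) then od w (c x) >= 0 for all w (at v because od v x >= 0), so c x is
integral (HeightOneSpectrum.mem_integers_of_valuation_le_one; same as int_of_od of B02) and c in I, c not in v. Then prime avoidance
(Ideal.subset_union_prime) gives b in I outside all v in S. Alternative in one step: Chinese remainder theorem with the primes of the support of dv b0 outside S
(c = 0 mod w^(od w b0)) and the primes of S (c = 1 mod v): b = c. That is the shortest way: od w (c x) >= 0 for w outside S because od w c >= od w b0 and od w x >= -od w b0; for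
w in S because od w x >= 0. -/
theorem frac_prime {x : K} (S : Finset (Pr K)) (hS : ∀ v ∈ S, 0 ≤ od v x) :
    ∃ a b : 𝓞 K, b ≠ 0 ∧ x = (a : K) / (b : K) ∧ ∀ v ∈ S, b ∉ v.asIdeal := by
  classical
  by_cases hx : x = 0
  · refine ⟨0, 1, one_ne_zero, ?_, fun v _ h => v.isPrime.ne_top ((Ideal.eq_top_iff_one _).2 h)⟩
    rw [hx]
    simp
  obtain ⟨a, b, hb, hxab⟩ := IsFractionRing.div_surjective (A := 𝓞 K) x
  have hb0 : b ≠ 0 := nonZeroDivisors.ne_zero hb
  have hb' : (b : K) ≠ 0 := fun h => hb0 (RingOfIntegers.coe_eq_zero_iff.1 h)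
  have hxab' : x = (a : K) / (b : K) := hxab.symm
  by_cases hSe : S = ∅
  · refine ⟨a, b, hb0, hxab', ?_⟩
    rw [hSe]
    simp
  obtain ⟨v0, hv0⟩ := Finset.nonempty_iff_ne_empty.2 hSe
  obtain ⟨c, hc⟩ := IsDedekindDomain.exists_forall_sub_mem_ideal
    (s := (dv (b : K)).support ∪ S) (fun v : Pr K => v.asIdeal)
    (fun w => if w ∈ S then 1 else (od w (b : K)).toNat) (fun v _ => v.prime)
    (fun v _ w _ hvw h => hvw (HeightOneSpectrum.ext h)) (fun w => if (w : Pr K) ∈ S then 1 else 0)
  have hcS : ∀ v ∈ S, c ∉ v.asIdeal := by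
    intro v hv hcv
    have h1 := hc v (Finset.mem_union_right _ hv)
    simp only [hv, if_true, pow_one] at h1
    have h2 : (1 : 𝓞 K) ∈ v.asIdeal := by
      have e : (1 : 𝓞 K) = c - (c - 1) := by ring
      rw [e]
      exact v.asIdeal.sub_mem hcv h1
    exact v.isPrime.ne_top ((Ideal.eq_top_iff_one _).2 h2)
  have hc0 : c ≠ 0 := fun h => hcS v0 hv0 (h ▸ v0.asIdeal.zero_mem)
  have hc' : (c : K) ≠ 0 := fun h => hc0 (RingOfIntegers.coe_eq_zero_iff.1 h)
  have ha0 : a ≠ 0 := by
    rintro rfl
    apply hx
    rw [hxab']
    simp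
  have ha' : (a : K) ≠ 0 := fun h => ha0 (RingOfIntegers.coe_eq_zero_iff.1 h)
  have hod : ∀ w : Pr K, 0 ≤ od w ((c : K) * x) := by
    intro w
    rw [od_mul w hc' hx]
    by_cases hw : w ∈ S
    · have h1 := hS w hw
      have h2 := od_nonneg w c
      omega
    · have h1 : od w (b : K) ≤ od w (c : K) := by
        by_cases hw2 : w ∈ (dv (b : K)).support
        · have h2 := hc w (Finset.mem_union_left _ hw2)
          simp only [hw, if_false, sub_zero] at h2
          have h3 := (od_le_iff w hc0 _).2 h2
          have h4 := od_nonneg w b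
          omega
        · have h2 : od w (b : K) = 0 := by
            have := Finsupp.notMem_support_iff.1 hw2
            rwa [dv_apply] at this
          rw [h2]
          exact od_nonneg w c
      have h2 : od w x = od w (a : K) - od w (b : K) := by
        rw [hxab', div_eq_mul_inv, od_mul w ha' (inv_ne_zero hb'), od_inv]
        ring
      have h3 := od_nonneg w a
      omega
  have h1 : ∀ v : Pr K, v.valuation K ((c : K) * x) ≤ 1 := by
    intro v
    rw [val_eq v (mul_ne_zero hc' hx), ← WithZero.exp_zero, WithZero.exp_le_exp]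
    have := hod v
    omega
  obtain ⟨r, hr⟩ := HeightOneSpectrum.mem_integers_of_valuation_le_one (R := 𝓞 K) K ((c : K) * x) h1
  refine ⟨r, c, hc0, ?_, hcS⟩
  have hr' : (r : K) = (c : K) * x := hr
  rw [hr']
  field_simp

end CFT
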