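import Mathlib
import Pool.Agent.Lib.CFT.D2
import Pool.Agent.Lib.CFT.B01

/-! # CFT module B, chunk B04: divisors and ideals -/

open NumberField IsDedekindDomain

namespace CFT

variable {K : Type} [Field K] [NumberField K]


theorem b04_idl (D : Dv K) (T : Finset (Pr K)) (h : D.support ⊆ T) :
    idl D = ∏ v ∈ T, v.asIdeal ^ (D v).toNat := by
  unfold idl
  rw [Finsupp.prod_of_support_subset D h]
  intro v _
  simp

theorem b04_idl_single (v : Pr K) (k : ℤ) : idl (Finsupp.single v k) = v.asIdeal ^ k.toNat := by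
  unfold idl
  rw [Finsupp.prod_single_index]
  simp

theorem b04_single (v : Pr K) {k : ℤ} (hk : 0 ≤ k) (w : Pr K) : 0 ≤ (Finsupp.single v k : Dv K) w := by
  classical
  rw [Finsupp.single_apply]
  split_ifs
  · exact hk
  · exact le_rfl

/-- PROOF. Finsupp.prod_add_index' needs v^(a+b).toNat = v^a.toNat v^b.toNat, true for a, b >= 0; write both sides as products over the union of the supports
(Finsupp.prod_of_support_subset). -/
theorem idl_add {D E : Dv K} (hD : ∀ v, 0 ≤ D v) (hE : ∀ v, 0 ≤ E v) : idl (D + E) = idl D * idl E := by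
  classical
  rw [b04_idl (D + E) (D.support ∪ E.support) Finsupp.support_add,
    b04_idl D (D.support ∪ E.support) Finset.subset_union_left,
    b04_idl E (D.support ∪ E.support) Finset.subset_union_right, ← Finset.prod_mul_distrib]
  refine Finset.prod_congr rfl fun v _ => ?_
  rw [← pow_add, Finsupp.add_apply, Int.toNat_add (hD v) (hE v)]

/-- PROOF. Product of nonzero ideals. -/
theorem idl_ne_zero (D : Dv K) : idl D ≠ ⊥ := by
  unfold idl Finsupp.prod
  rw [← Ideal.zero_eq_bot, Finset.prod_ne_zero_iff]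
  intro v _
  exact pow_ne_zero _ v.ne_bot

/-- PROOF. Ideal.finprod_heightOneSpectrum_factorization: a nonzero ideal is the finite product of v^(count). Take D v = the count. -/
theorem exists_idl {I : Ideal (𝓞 K)} (hI : I ≠ ⊥) : ∃ D : Dv K, (∀ v, 0 ≤ D v) ∧ idl D = I := by
  revert hI
  refine UniqueFactorizationMonoid.induction_on_prime (P := fun I : Ideal (𝓞 K) => I ≠ ⊥ →
    ∃ D : Dv K, (∀ v, 0 ≤ D v) ∧ idl D = I) I ?_ ?_ ?_
  · intro h
    exact absurd rfl h
  · intro J hJ _
    refine ⟨0, fun v => le_rfl, ?_⟩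
    have h1 : J = 1 := (Ideal.isUnit_iff.1 hJ).trans Ideal.one_eq_top.symm
    rw [h1]
    exact Finsupp.prod_zero_index
  · intro J p hJ hp ih _
    obtain ⟨D, hD, hDJ⟩ := ih hJ
    have hp0 : p ≠ ⊥ := hp.ne_zero
    let v : Pr K := ⟨p, Ideal.isPrime_of_prime hp, hp0⟩
    refine ⟨Finsupp.single v 1 + D, fun w => ?_, ?_⟩
    · rw [Finsupp.add_apply]
      have h1 := hD w
      have h2 := b04_single v (k := 1) (by norm_num) w
      omega
    · rw [idl_add (b04_single v (by norm_num)) hD, hDJ, b04_idl_single]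
      show p ^ _ * J = p * J
      simp

/-- PROOF. The count of v in the factorization of idl D is (D v).toNat: the v are pairwise different primes. E.g. v^n divides idl D iff n <= (D v).toNat:
Associates.count / normalizedFactors of a product of prime powers, or Ideal.iInf / multiplicity. -/
theorem le_idl_iff {D : Dv K} (hD : ∀ v, 0 ≤ D v) (v : Pr K) (n : ℕ) : v.asIdeal ^ n ∣ idl D ↔ (n : ℤ) ≤ D v := by
  have h1 : D = D.erase v + Finsupp.single v (D v) := (Finsupp.erase_add_single v D).symm
  have h2 : ∀ w, 0 ≤ D.erase v w := by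
    intro w
    by_cases hw : w = v
    · rw [hw, Finsupp.erase_same]
    · rw [Finsupp.erase_ne hw]
      exact hD w
  have h3 : idl D = v.asIdeal ^ (D v).toNat * idl (D.erase v) := by
    conv_lhs => rw [h1]
    rw [idl_add h2 (b04_single v (hD v)), b04_idl_single, mul_comm]
  have h4 : ¬ v.asIdeal ∣ idl (D.erase v) := by
    classical
    intro h
    unfold idl Finsupp.prod at h
    obtain ⟨w, hw, hw2⟩ := v.prime.exists_mem_finset_dvd h
    have h5 : v.asIdeal ∣ w.asIdeal := v.prime.dvd_of_dvd_pow hw2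
    have h6 : w.asIdeal ≤ v.asIdeal := Ideal.dvd_iff_le.1 h5
    have h7 : w.asIdeal = v.asIdeal := w.isMaximal.eq_of_le v.isPrime.ne_top h6
    have h8 : w = v := HeightOneSpectrum.ext h7
    rw [h8, Finsupp.support_erase] at hw
    exact (Finset.notMem_erase v _) hw
  have hv0 : v.asIdeal ≠ 0 := v.ne_bot
  have h0 := hD v
  rw [h3]
  constructor
  · intro h
    by_contra hlt
    have h5 : (D v).toNat < n := by omega
    obtain ⟨k, hk⟩ := Nat.exists_eq_add_of_lt h5
    have h6 : v.asIdeal ^ n = v.asIdeal ^ (D v).toNat * (v.asIdeal * v.asIdeal ^ k) := by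
      rw [hk, ← pow_succ', ← pow_add, add_assoc]
    rw [h6] at h
    have h7 := (mul_dvd_mul_iff_left (pow_ne_zero _ hv0)).1 h
    exact h4 ((dvd_mul_right _ _).trans h7)
  · intro h
    have h5 : n ≤ (D v).toNat := by omega
    exact (pow_dvd_pow _ h5).trans (dvd_mul_right _ _)

/-- PROOF. From le_idl_iff. -/
theorem idl_inj {D E : Dv K} (hD : ∀ v, 0 ≤ D v) (hE : ∀ v, 0 ≤ E v) (h : idl D = idl E) : D = E := by
  ext v
  have h1 := hD v
  have h2 := hE v
  have h3 := (le_idl_iff hD v (D v).toNat).2 (by omega)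
  have h4 := (le_idl_iff hE v (E v).toNat).2 (by omega)
  rw [h] at h3
  rw [← h] at h4
  have h5 := (le_idl_iff hE v (D v).toNat).1 h3
  have h6 := (le_idl_iff hD v (E v).toNat).1 h4
  omega

/-- PROOF. Both sides are nonzero ideals and v^n divides span {r} iff r in v^n iff n <= od v r (od_le_iff, B01) iff v^n divides idl (dv r) (le_idl_iff). With exists_idl and
le_idl_iff they are equal. -/
theorem idl_dv {r : 𝓞 K} (hr : r ≠ 0) : idl (dv (r : K)) = Ideal.span {r} := by
  obtain ⟨E, hE, hE2⟩ := exists_idl (K := K) (I := Ideal.span {r}) (fun h => hr (Ideal.span_singleton_eq_bot.1 h))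
  have h1 : dv (r : K) = E := by
    ext v
    rw [dv_apply]
    have h2 := od_nonneg v r
    have h3 := hE v
    have h4 : ∀ n : ℕ, (n : ℤ) ≤ od v (r : K) ↔ (n : ℤ) ≤ E v := by
      intro n
      rw [od_le_iff v hr n, ← le_idl_iff hE v n, hE2, Ideal.dvd_span_singleton]
    have h5 := (h4 (od v (r : K)).toNat).1 (by omega)
    have h6 := (h4 (E v).toNat).2 (by omega)
    omega
  rw [h1, hE2]

/-- PROOF. absNorm is multiplicative (map_finsuppProd), Nm v = absNorm v.asIdeal. -/
theorem nD_idl {D : Dv K} (hD : ∀ v, 0 ≤ D v) : (Ideal.absNorm (idl D) : ℚ) = nD D := by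
  unfold idl nD Finsupp.prod
  rw [map_prod, Nat.cast_prod]
  refine Finset.prod_congr rfl fun v _ => ?_
  have h1 : D v = ((D v).toNat : ℤ) := (Int.toNat_of_nonneg (hD v)).symm
  rw [map_pow, Nat.cast_pow]
  conv_rhs => rw [h1]
  exact (zpow_natCast _ _).symm

end CFT
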