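import Mathlib
import Pool.Agent.Lib.CFT.D2
import Pool.Agent.Lib.CFT.B01
import Pool.Agent.Lib.CFT.B04

/-! # CFT module B, chunk B05: absolute norm of a principal divisor -/

open NumberField IsDedekindDomain

namespace CFT

variable {K : Type} [Field K] [NumberField K]


/-- PROOF. For x = r in O_K: nD (dv r) = absNorm (span {r}) (idl_dv, nD_idl, B04) = |Norm r| (Ideal.absNorm_span_singleton, Algebra.coe_norm_int). In general x = a / b,
dv x = dv a - dv b (dv_mul, dv_inv), nD_add, Algebra.norm is multiplicative. -/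
theorem nD_dv {x : K} (hx : x ≠ 0) : nD (dv x) = |Algebra.norm ℚ x| := by
  have key : ∀ r : 𝓞 K, r ≠ 0 → nD (dv (r : K)) = |Algebra.norm ℚ (r : K)| := by
    intro r hr
    have h1 : ∀ v, 0 ≤ dv (r : K) v := fun v => od_nonneg v r
    rw [← nD_idl h1, idl_dv hr, Ideal.absNorm_span_singleton, ← Algebra.coe_norm_int, Nat.cast_natAbs,
      Int.cast_abs]
  obtain ⟨a, b, hb, hxab⟩ := IsFractionRing.div_surjective (A := 𝓞 K) x
  have hb0 : b ≠ 0 := nonZeroDivisors.ne_zero hb
  have hb' : (b : K) ≠ 0 := fun h => hb0 (RingOfIntegers.coe_eq_zero_iff.1 h)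
  have hxab' : x * (b : K) = (a : K) := by
    have e : x = (a : K) / (b : K) := hxab.symm
    rw [e, div_mul_cancel₀ _ hb']
  have ha0 : a ≠ 0 := by
    rintro rfl
    have e : ((0 : 𝓞 K) : K) = 0 := map_zero _
    rw [e] at hxab'
    exact (mul_ne_zero hx hb') hxab'
  have h1 := key a ha0
  have h2 := key b hb0
  rw [← hxab', dv_mul hx hb', nD_add, map_mul, abs_mul, h2] at h1
  have h3 : |Algebra.norm ℚ (b : K)| ≠ 0 := abs_ne_zero.2 (Algebra.norm_ne_zero_iff.2 hb')
  exact mul_right_cancel₀ h3 h1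

end CFT
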