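import Mathlib
import Pool.Agent.Lib.CFT.D2
import Pool.Agent.Lib.CFT.B01

/-! # CFT module B, chunk B06: below: surjective, order of an element of K at a prime of L, norm of a prime -/

open NumberField IsDedekindDomain

namespace CFT

variable {K : Type} [Field K] [NumberField K] {L : Type} [Field L] [NumberField L] [Algebra K L]


/-- PROOF. There is a prime of O_L over v (Ideal.exists_ideal_over_prime_of_isIntegral or primesOver_nonempty), it is not 0. -/
theorem below_surj : Function.Surjective (below K : Pr L → Pr K) := by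
  intro v
  have hinj : Function.Injective (algebraMap (𝓞 K) (𝓞 L)) := FaithfulSMul.algebraMap_injective _ _
  obtain ⟨Q, hQ, hQv⟩ := Ideal.exists_ideal_over_prime_of_isIntegral_of_isDomain (S := 𝓞 L) v.asIdeal
    (by rw [(RingHom.injective_iff_ker_eq_bot _).1 hinj]; exact bot_le)
  have hne : Q ≠ ⊥ := by
    rintro rfl
    apply v.ne_bot
    rw [← hQv]
    exact Ideal.comap_bot_of_injective _ hinj
  refine ⟨⟨Q, hQ, hne⟩, ?_⟩
  apply HeightOneSpectrum.ext
  exact hQv

/-- PROOF. ramificationIdx (O_K) is positive: Ideal.ramificationIdx_ne_zero (or via ramificationIdx' and ramificationIdx'_ne_zero_of_liesOver). -/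
theorem e_pos (w : Pr L) : 0 < w.asIdeal.ramificationIdx (𝓞 K) := by
  haveI := w.isPrime
  exact w.asIdeal.ramificationIdx_pos (𝓞 K)

/-- PROOF. Finite residue field extension. -/
theorem f_pos (w : Pr L) : 0 < w.asIdeal.inertiaDeg (𝓞 K) := by
  haveI := w.isPrime
  exact w.asIdeal.inertiaDeg_pos (𝓞 K)

/-- PROOF. HeightOneSpectrum.valuation of the algebraMap: Mathlib NumberTheory/RamificationInertia/Valuation.lean (valuation_comap or similar: w.valuation (algebraMap x) = v.valuation x ^ e). -/
theorem od_alg (x : K) (w : Pr L) : od w (algebraMap K L x) = (w.asIdeal.ramificationIdx (𝓞 K) : ℤ) * od (below K w) x := by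
  haveI : w.asIdeal.LiesOver (below K w).asIdeal := ⟨rfl⟩
  haveI := w.isPrime
  have h1 := HeightOneSpectrum.valuation_liesOver L (below K w) w x
  rw [Ideal.ramificationIdx'_eq_ramificationIdx (below K w).asIdeal w.asIdeal (below K w).ne_bot] at h1
  unfold od
  rw [← h1, WithZero.log_pow, nsmul_eq_mul]
  ring

/-- PROOF. Nm w = card (O_L / w) = card (O_K / v)^f, Module.card_eq_pow_finrank (or Ideal.absNorm_eq_pow_inertiaDeg' for general base; relNorm_eq_pow_of_isMaximal with absNorm_relNorm). -/
theorem Nm_below (w : Pr L) : Nm w = Nm (below K w) ^ w.asIdeal.inertiaDeg (𝓞 K) := by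
  haveI : w.asIdeal.LiesOver (below K w).asIdeal := ⟨rfl⟩
  haveI := w.isPrime
  haveI : w.asIdeal.IsMaximal := w.isMaximal
  haveI : (below K w).asIdeal.IsMaximal := (below K w).isMaximal
  have h1 := Ideal.absNorm_eq_pow_inertiaDeg'_of_liesOver w.asIdeal (below K w).asIdeal
    (below K w).isPrime (below K w).ne_bot
  rw [Ideal.inertiaDeg'_eq_inertiaDeg] at h1
  exact h1

end CFT
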