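import Mathlib
import Pool.Agent.Lib.CFT.D2
import Pool.Agent.Lib.CFT.B01
import Pool.Agent.Lib.CFT.B04
import Pool.Agent.Lib.CFT.B06

/-! # CFT module B, chunk B07: norm of a principal divisor -/

open NumberField IsDedekindDomain

namespace CFT

variable {K : Type} [Field K] [NumberField K] {L : Type} [Field L] [NumberField L] [Algebra K L]


theorem b07_sum {ι : Type} (T : Finset ι) (g : ι → Dv K) (hg : ∀ i ∈ T, ∀ v, 0 ≤ g i v) :
    (∀ v, 0 ≤ (∑ i ∈ T, g i) v) ∧ idl (∑ i ∈ T, g i) = ∏ i ∈ T, idl (g i) := by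
  classical
  induction T using Finset.induction_on with
  | empty =>
    refine ⟨fun v => ?_, ?_⟩
    · rw [Finset.sum_empty]
      exact le_rfl
    · rw [Finset.sum_empty, Finset.prod_empty]
      exact Finsupp.prod_zero_index
  | insert i T hi ih =>
    obtain ⟨h1, h2⟩ := ih fun j hj => hg j (Finset.mem_insert_of_mem hj)
    have h3 := hg i (Finset.mem_insert_self i T)
    refine ⟨fun v => ?_, ?_⟩
    · rw [Finset.sum_insert hi, Finsupp.add_apply]
      exact add_nonneg (h3 v) (h1 v)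
    · rw [Finset.sum_insert hi, Finset.prod_insert hi, idl_add h3 h1, h2]

/-- PROOF. The relative norm of ideals (Ideal.relNorm): relNorm w = v^f (relNorm_eq_pow_of_isMaximal), multiplicative. -/
theorem relNorm_idl {D : Dv L} (hD : ∀ w, 0 ≤ D w) : Ideal.relNorm (𝓞 K) (idl D) = idl (Nd K L D) := by
  classical
  have e1 : idl (Nd K L D) = ∏ w ∈ D.support, (below K w).asIdeal ^ (w.asIdeal.inertiaDeg (𝓞 K) * (D w).toNat) := by
    have h1 : Nd K L D = ∑ w ∈ D.support, Finsupp.single (below K w) ((w.asIdeal.inertiaDeg (𝓞 K) : ℤ) * D w) := by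
      conv_lhs => rw [← Finsupp.sum_single D]
      unfold Finsupp.sum
      rw [map_sum]
      exact Finset.sum_congr rfl fun w _ => Nd_single K L w (D w)
    have h2 : ∀ w ∈ D.support, ∀ v, 0 ≤ (Finsupp.single (below K w) ((w.asIdeal.inertiaDeg (𝓞 K) : ℤ) * D w) : Dv K) v :=
      fun w _ => b04_single _ (mul_nonneg (Int.natCast_nonneg _) (hD w))
    rw [h1, (b07_sum D.support _ h2).2]
    refine Finset.prod_congr rfl fun w _ => ?_
    rw [b04_idl_single]
    congr 1
    have h3 := hD w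
    obtain ⟨k, hk⟩ := Int.eq_ofNat_of_zero_le h3
    rw [hk]
    have h4 : ((w.asIdeal.inertiaDeg (𝓞 K) : ℤ) * (k : ℤ)) = ((w.asIdeal.inertiaDeg (𝓞 K) * k : ℕ) : ℤ) := by
      push_cast
      ring
    rw [h4, Int.toNat_natCast, Int.toNat_natCast]
  rw [e1]
  unfold idl Finsupp.prod
  rw [map_prod]
  refine Finset.prod_congr rfl fun w _ => ?_
  haveI : w.asIdeal.LiesOver (below K w).asIdeal := ⟨rfl⟩
  haveI : w.asIdeal.IsMaximal := w.isMaximal
  haveI : (below K w).asIdeal.IsMaximal := (below K w).isMaximal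
  rw [map_pow, Ideal.relNorm_eq_pow_of_isMaximal w.asIdeal (below K w).asIdeal, pow_mul]

theorem b07_int {r : 𝓞 L} (hr : r ≠ 0) :
    Nd K L (dv (algebraMap (𝓞 L) L r)) = dv (Algebra.norm K (algebraMap (𝓞 L) L r)) := by
  have hr' : (algebraMap (𝓞 L) L r) ≠ 0 := fun h => hr (RingOfIntegers.coe_eq_zero_iff.1 h)
  have h1 : algebraMap (𝓞 K) K (Algebra.intNorm (𝓞 K) (𝓞 L) r) = Algebra.norm K (algebraMap (𝓞 L) L r) :=
    Algebra.algebraMap_intNorm r
  have h2 : Algebra.intNorm (𝓞 K) (𝓞 L) r ≠ 0 := by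
    intro h
    rw [h, map_zero] at h1
    exact Algebra.norm_ne_zero_iff.2 hr' h1.symm
  rw [← h1]
  have h3 : ∀ w, 0 ≤ dv (algebraMap (𝓞 L) L r) w := fun w => od_nonneg w r
  refine idl_inj ?_ (fun v => od_nonneg v _) ?_
  · intro v
    have e1 : Nd K L (dv (algebraMap (𝓞 L) L r)) = ∑ w ∈ (dv (algebraMap (𝓞 L) L r)).support,
        Finsupp.single (below K w) ((w.asIdeal.inertiaDeg (𝓞 K) : ℤ) * dv (algebraMap (𝓞 L) L r) w) := by
      conv_lhs => rw [← Finsupp.sum_single (dv (algebraMap (𝓞 L) L r))]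
      unfold Finsupp.sum
      rw [map_sum]
      exact Finset.sum_congr rfl fun w _ => Nd_single K L w _
    rw [e1]
    exact (b07_sum _ _ fun w _ => b04_single _ (mul_nonneg (Int.natCast_nonneg _) (h3 w))).1 v
  · rw [← relNorm_idl h3]
    have h4 : idl (dv (algebraMap (𝓞 L) L r)) = Ideal.span {r} := idl_dv hr
    have h5 : idl (dv (algebraMap (𝓞 K) K (Algebra.intNorm (𝓞 K) (𝓞 L) r))) =
        Ideal.span {Algebra.intNorm (𝓞 K) (𝓞 L) r} := idl_dv h2
    rw [h4, h5, Ideal.relNorm_singleton]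

/-- PROOF. For y = r in O_L, r <> 0: relNorm (span {r}) = span {intNorm r} (Ideal.relNorm_singleton), relNorm_idl, idl_dv and idl_inj (B04); the coefficients of Nd K L (dv r) are >= 0.
In general y = a / b. Algebra.algebraMap_intNorm relates intNorm and norm. -/
theorem Nd_dv {y : L} (hy : y ≠ 0) : Nd K L (dv y) = dv (Algebra.norm K y) := by
  obtain ⟨a, b, hb, rfl⟩ := IsFractionRing.div_surjective (A := 𝓞 L) y
  have hb0 : b ≠ 0 := nonZeroDivisors.ne_zero hb
  have ha0 : a ≠ 0 := by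
    rintro rfl
    rw [map_zero, zero_div] at hy
    exact hy rfl
  have ha' : (algebraMap (𝓞 L) L a) ≠ 0 := fun h => ha0 (RingOfIntegers.coe_eq_zero_iff.1 h)
  have hb' : (algebraMap (𝓞 L) L b) ≠ 0 := fun h => hb0 (RingOfIntegers.coe_eq_zero_iff.1 h)
  have ha2 : Algebra.norm K (algebraMap (𝓞 L) L a) ≠ 0 := Algebra.norm_ne_zero_iff.2 ha'
  have hb2 : Algebra.norm K (algebraMap (𝓞 L) L b) ≠ 0 := Algebra.norm_ne_zero_iff.2 hb'
  have hinv : Algebra.norm K (algebraMap (𝓞 L) L b)⁻¹ = (Algebra.norm K (algebraMap (𝓞 L) L b))⁻¹ := by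
    apply eq_inv_of_mul_eq_one_left
    rw [← map_mul, inv_mul_cancel₀ hb', map_one]
  rw [div_eq_mul_inv, dv_mul ha' (inv_ne_zero hb'), dv_inv, map_add, map_neg, map_mul, hinv,
    dv_mul ha2 (inv_ne_zero hb2), dv_inv, b07_int ha0, b07_int hb0]

end CFT
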