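import Mathlib
import Pool.Agent.Lib.CFT.D2
import Pool.Agent.Lib.CFT.B06

/-! # CFT module B, chunk B08: towers -/

open NumberField IsDedekindDomain

namespace CFT

variable (K : Type) [Field K] [NumberField K] (E : Type) [Field E] [NumberField E] [Algebra K E]
  (M : Type) [Field M] [NumberField M] [Algebra K M] [Algebra E M] [IsScalarTower K E M]


/-- PROOF. Ideal.under_under. -/
theorem below_below (w : Pr M) : below K (below E w) = below K w := by
  apply HeightOneSpectrum.ext
  show (w.asIdeal.under (𝓞 E)).under (𝓞 K) = w.asIdeal.under (𝓞 K)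
  exact Ideal.under_under w.asIdeal

/-- PROOF. Ideal.inertiaDeg_algebra_tower (the version for Ideal.inertiaDeg; there is inertiaDeg'_algebra_tower and a lemma comparing the two), with
(below E w).asIdeal = w.asIdeal.under (O_E). -/
theorem f_tower (w : Pr M) : w.asIdeal.inertiaDeg (𝓞 K) = (below E w).asIdeal.inertiaDeg (𝓞 K) * w.asIdeal.inertiaDeg (𝓞 E) := by
  haveI : w.asIdeal.LiesOver (below E w).asIdeal := ⟨rfl⟩
  exact Ideal.inertiaDeg_tower (R := 𝓞 K) (S := 𝓞 E) (T := 𝓞 M) (below E w).asIdeal w.asIdeal

/-- PROOF. Ideal.ramificationIdx_algebra_tower. -/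
theorem e_tower (w : Pr M) : w.asIdeal.ramificationIdx (𝓞 K) = (below E w).asIdeal.ramificationIdx (𝓞 K) * w.asIdeal.ramificationIdx (𝓞 E) := by
  haveI : w.asIdeal.LiesOver (below E w).asIdeal := ⟨rfl⟩
  exact Ideal.ramificationIdx_tower (R := 𝓞 K) (S := 𝓞 E) (T := 𝓞 M) (below E w).asIdeal w.asIdeal

/-- PROOF. Both sides are additive: Finsupp.addHom_ext, Nd_single (D2), below_below, f_tower. -/
theorem Nd_Nd (D : Dv M) : Nd K E (Nd E M D) = Nd K M D := by
  have h : (Nd K E).comp (Nd E M) = Nd K M := by
    refine Finsupp.addHom_ext fun w n => ?_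
    rw [AddMonoidHom.comp_apply, Nd_single, Nd_single, Nd_single, below_below, f_tower K E M w]
    congr 1
    push_cast
    ring
  exact DFunLike.congr_fun h D

/-- PROOF. e_tower and below_below; e >= 1, so the product is 1 iff both factors are 1; every prime of E is below some prime of M (below_surj, B06). -/
theorem unr_tower {v : Pr K} (h : Unr K M v) : Unr K E v ∧ ∀ w : Pr E, below K w = v → Unr E M w := by
  constructor
  · intro w hw
    obtain ⟨u, rfl⟩ := below_surj (K := E) (L := M) w
    have h1 := h u (by rw [← hw, below_below])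
    rw [e_tower K E M u] at h1
    exact Nat.eq_one_of_mul_eq_one_right h1
  · intro w hw u hu
    have h1 := h u (by rw [← hw, ← hu, below_below])
    rw [e_tower K E M u] at h1
    exact Nat.eq_one_of_mul_eq_one_left h1

/-- PROOF. e_tower. -/
theorem unr_of_tower {v : Pr K} (h : Unr K E v) (h2 : ∀ w : Pr E, below K w = v → Unr E M w) : Unr K M v := by
  intro u hu
  have h3 := h (below E u) (by rw [below_below, hu])
  have h4 := h2 (below E u) (by rw [below_below, hu]) u rfl
  rw [e_tower K E M u, h3, h4]

end CFT
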