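import Mathlib
import Pool.Agent.Lib.CFT.D2
import Pool.Agent.Lib.CFT.B01
import Pool.Agent.Lib.CFT.B06

/-! # CFT module B, chunk B09: norm of the conorm -/

open NumberField IsDedekindDomain

namespace CFT

variable {K : Type} [Field K] [NumberField K] {L : Type} [Field L] [NumberField L] [Algebra K L]


theorem b09_sum (v : Pr K) : ∑ w ∈ abv L v, w.asIdeal.ramificationIdx (𝓞 K) * w.asIdeal.inertiaDeg (𝓞 K) =
    Module.finrank K L := by
  classical
  have hfin : (v.asIdeal.primesOver (𝓞 L)).Finite := IsDedekindDomain.primesOver_finite v.asIdeal (𝓞 L)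
  haveI : Fintype (v.asIdeal.primesOver (𝓞 L)) := hfin.fintype
  haveI := v.isPrime
  have h1 := Ideal.sum_ramification_inertia_eq_finrank v.asIdeal (𝓞 L)
  have h2 : Module.finrank K L = Module.finrank (𝓞 K) (𝓞 L) := IsFractionRing.finrank_eq (𝓞 K) K (𝓞 L) L
  rw [h2, ← h1]
  refine Finset.sum_bij (fun w hw => ⟨w.asIdeal, w.isPrime, ⟨?_⟩⟩) ?_ ?_ ?_ ?_
  · have h3 : below K w = v := (mem_abv v w).1 hw
    rw [← h3]
    rfl
  · intro w hw
    exact Finset.mem_univ _
  · intro a ha b hb hab
    exact HeightOneSpectrum.ext (congrArg Subtype.val hab)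
  · rintro ⟨Q, hQ, hQv⟩ _
    have hne : Q ≠ ⊥ := Ideal.ne_bot_of_mem_primesOver v.ne_bot ⟨hQ, hQv⟩
    refine ⟨⟨Q, hQ, hne⟩, (mem_abv v _).2 ?_, rfl⟩
    apply HeightOneSpectrum.ext
    exact hQv.over.symm
  · intro w hw
    rfl

/-- PROOF. Finsupp.addHom_ext; Cn_single, Nd_single (D2): the coefficient is the sum over the primes w above v of f(w) e(w) = [L : K] (Ideal.sum_ramification_inertia, over
primesOverFinset: change the index set by the injection w to w.asIdeal). -/
theorem Nd_Cn (D : Dv K) : Nd K L (Cn K L D) = Module.finrank K L • D := by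
  have h : (Nd K L).comp (Cn K L) = Module.finrank K L • AddMonoidHom.id (Dv K) := by
    refine Finsupp.addHom_ext fun v n => ?_
    rw [AddMonoidHom.comp_apply, Cn_single, map_sum, AddMonoidHom.smul_apply, AddMonoidHom.id_apply,
      Finsupp.smul_single, ← b09_sum (L := L) v]
    have h1 : ∀ w ∈ abv L v, Nd K L (Finsupp.single w ((w.asIdeal.ramificationIdx (𝓞 K) : ℤ) * n)) =
        Finsupp.single v (((w.asIdeal.ramificationIdx (𝓞 K) * w.asIdeal.inertiaDeg (𝓞 K) : ℕ) : ℤ) * n) := by
      intro w hw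
      rw [Nd_single, (mem_abv v w).1 hw]
      congr 1
      push_cast
      ring
    rw [Finset.sum_congr rfl h1, ← Finsupp.single_finsetSum, ← Finset.sum_mul, ← Nat.cast_sum, nsmul_eq_mul]
  exact DFunLike.congr_fun h D

/-- PROOF. (Cn D) w = e(w) D (below w): linear in D, check for Finsupp.single with Cn_single. -/
theorem Cn_apply (D : Dv K) (w : Pr L) : Cn K L D w = (w.asIdeal.ramificationIdx (𝓞 K) : ℤ) * D (below K w) := by
  have h : (Finsupp.applyAddHom w).comp (Cn K L) =
      (AddMonoidHom.mulLeft (w.asIdeal.ramificationIdx (𝓞 K) : ℤ)).comp (Finsupp.applyAddHom (below K w)) := by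
    classical
    refine Finsupp.addHom_ext fun v n => ?_
    rw [AddMonoidHom.comp_apply, AddMonoidHom.comp_apply, Cn_single, map_sum]
    have h1 : ∀ u ∈ abv L v, Finsupp.applyAddHom w (Finsupp.single u ((u.asIdeal.ramificationIdx (𝓞 K) : ℤ) * n)) =
        if u = w then (w.asIdeal.ramificationIdx (𝓞 K) : ℤ) * n else 0 := by
      intro u _
      show (Finsupp.single u ((u.asIdeal.ramificationIdx (𝓞 K) : ℤ) * n) : Dv L) w = _
      rw [Finsupp.single_apply]
      by_cases huw : u = w
      · rw [if_pos huw, if_pos huw, huw]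
      · rw [if_neg huw, if_neg huw]
    rw [Finset.sum_congr rfl h1]
    show _ = (w.asIdeal.ramificationIdx (𝓞 K) : ℤ) * (Finsupp.single v n : Dv K) (below K w)
    classical
    rw [Finset.sum_ite_eq', Finsupp.single_apply]
    by_cases hv : v = below K w
    · rw [if_pos ((mem_abv v w).2 hv.symm), if_pos hv]
    · rw [if_neg (fun h2 => hv ((mem_abv v w).1 h2).symm), if_neg hv, mul_zero]
  exact DFunLike.congr_fun h D

/-- PROOF. Cn_apply and od_alg (B06). -/
theorem Cn_dv (x : K) : Cn K L (dv x) = dv (algebraMap K L x) := by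
  ext w
  rw [Cn_apply, dv_apply, dv_apply, od_alg]

/-- PROOF. Nd_Cn. -/
theorem n_mem_Nd (D : Dv K) : Module.finrank K L • D ∈ (Nd K L).range := by
 exact ⟨Cn K L D, Nd_Cn D⟩

/-- PROOF. Write D as the sum of D w single w and use Nd_single; the coefficient at v is the sum over the w above v. -/
theorem Nd_apply (D : Dv L) (v : Pr K) : Nd K L D v = ∑ w ∈ abv L v, (w.asIdeal.inertiaDeg (𝓞 K) : ℤ) * D w := by
  have h : (Finsupp.applyAddHom v).comp (Nd K L) =
      ∑ w ∈ abv L v, (AddMonoidHom.mulLeft (w.asIdeal.inertiaDeg (𝓞 K) : ℤ)).comp (Finsupp.applyAddHom w) := by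
    classical
    refine Finsupp.addHom_ext fun u n => ?_
    rw [AddMonoidHom.comp_apply, Nd_single, AddMonoidHom.finsetSum_apply]
    have h1 : ∀ w ∈ abv L v, ((AddMonoidHom.mulLeft (w.asIdeal.inertiaDeg (𝓞 K) : ℤ)).comp (Finsupp.applyAddHom w))
        (Finsupp.single u n) = if u = w then (u.asIdeal.inertiaDeg (𝓞 K) : ℤ) * n else 0 := by
      intro w _
      show (w.asIdeal.inertiaDeg (𝓞 K) : ℤ) * (Finsupp.single u n : Dv L) w = _
      rw [Finsupp.single_apply]
      by_cases huw : u = w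
      · rw [huw]
        simp
      · rw [if_neg huw, if_neg huw, mul_zero]
    rw [Finset.sum_congr rfl h1, Finset.sum_ite_eq]
    show (Finsupp.single (below K u) ((u.asIdeal.inertiaDeg (𝓞 K) : ℤ) * n) : Dv K) v = _
    rw [Finsupp.single_apply]
    by_cases hv : below K u = v
    · rw [if_pos hv, if_pos ((mem_abv v u).2 hv)]
    · rw [if_neg hv, if_neg (fun h2 => hv ((mem_abv v u).1 h2))]
  have h2 := DFunLike.congr_fun h D
  rw [AddMonoidHom.finsetSum_apply] at h2
  exact h2

end CFT
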