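import Mathlib
import Pool.Agent.Lib.CFT.D2
import Pool.Agent.Lib.CFT.B01
import Pool.Agent.Lib.CFT.B06

/-! # CFT module B, chunk B10: ray elements of K are ray elements of L -/

open NumberField IsDedekindDomain

namespace CFT

variable {K : Type} [Field K] [NumberField K] {L : Type} [Field L] [NumberField L] [Algebra K L]


/-- PROOF. algebraMap x - 1 = algebraMap (x - 1), od_alg with e >= 1 (B06), val_lt_iff (B01; the case x = 1 is trivial). A real embedding of L restricts to a real embedding of K:
phi.comp (algebraMap K L). -/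
theorem Ray.alg {S : Finset (Pr K)} {N : ℕ} {x : K} (h : Ray S N x) : Ray (up L S) N (algebraMap K L x) := by
  have hinj : Function.Injective (algebraMap K L) := (algebraMap K L).injective
  refine ⟨fun h0 => h.ne (hinj (by rw [h0, map_zero])), fun w hw => ?_, fun φ => ?_⟩
  · rw [mem_up] at hw
    have h1 := h.cong _ hw
    have e : algebraMap K L x - 1 = algebraMap K L (x - 1) := by rw [map_sub, map_one]
    rw [e]
    by_cases hx : x - 1 = 0
    · rw [hx, map_zero, map_zero]
      exact WithZero.zero_lt_coe _
    · have hx' : algebraMap K L (x - 1) ≠ 0 := fun h0 => hx (hinj (by rw [h0, map_zero]))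
      rw [val_lt_iff _ hx] at h1
      rw [val_lt_iff _ hx', od_alg]
      have h2 : (1 : ℤ) ≤ (w.asIdeal.ramificationIdx (𝓞 K) : ℤ) := by exact_mod_cast e_pos (K := K) w
      have h3 : (0 : ℤ) ≤ N := Int.natCast_nonneg N
      nlinarith
  · exact h.pos (φ.comp (algebraMap K L))

end CFT
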