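import Mathlib
import Pool.Agent.Lib.CFT.D2
import Pool.Agent.Lib.CFT.B01
import Pool.Agent.Lib.CFT.B03
import Pool.Agent.Lib.CFT.B06
import Pool.Agent.Lib.CFT.B08

/-! # CFT module B, chunk B11: the norm of a ray element (congruences) -/

open NumberField IsDedekindDomain

namespace CFT

variable {K : Type} [Field K] [NumberField K] {L : Type} [Field L] [NumberField L] [Algebra K L]


theorem b11_lt_iff {F : Type} [Field F] [NumberField F] (v : Pr F) {x : F} (hx : x ≠ 0) (N : ℕ) :
    v.valuation F x < WithZero.exp (-(N : ℤ)) ↔ (N : ℤ) < od v x := by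
  rw [val_eq v hx, WithZero.exp_lt_exp, neg_lt_neg_iff]

theorem b11_emb {M : Type} [Field M] [NumberField M] [Algebra K M] (σ : L →ₐ[K] M) (W : Pr M) (N : ℕ) (y : L)
    (hy : ∀ w : Pr L, below K w = below K W → w.valuation L (y - 1) < WithZero.exp (-(N : ℤ))) :
    W.valuation M (σ y - 1) < WithZero.exp (-(N : ℤ)) := by
  by_cases h0 : y - 1 = 0
  · have h1 : σ y - 1 = 0 := by rw [← map_one σ, ← map_sub, h0, map_zero]
    rw [h1, map_zero]
    exact WithZero.zero_lt_coe _
  let _ : Algebra L M := σ.toRingHom.toAlgebra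
  have : IsScalarTower K L M := IsScalarTower.of_algebraMap_eq fun x => (σ.commutes x).symm
  have h1 := hy (below L W) (below_below K L M W)
  have h2 : σ y - 1 = algebraMap L M (y - 1) := by
    rw [map_sub, map_one]
    rfl
  have h3 : algebraMap L M (y - 1) ≠ 0 := fun h => h0 ((map_eq_zero _).1 h)
  rw [b11_lt_iff _ h0] at h1
  rw [h2, b11_lt_iff _ h3, od_alg]
  have h4 : (1 : ℤ) ≤ (W.asIdeal.ramificationIdx (𝓞 L) : ℤ) := by
    have := e_pos (K := L) W
    omega
  nlinarith

theorem b11_prod {M : Type} [Field M] [NumberField M] (W : Pr M) (N : ℕ) {ι : Type} (s : Finset ι) (f : ι → M)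
    (h : ∀ i ∈ s, W.valuation M (f i - 1) < WithZero.exp (-(N : ℤ))) :
    W.valuation M (∏ i ∈ s, f i - 1) < WithZero.exp (-(N : ℤ)) := by
  classical
  have hlt : WithZero.exp (-(N : ℤ)) ≤ 1 := exp_le_one N
  induction s using Finset.induction_on with
  | empty =>
    rw [Finset.prod_empty, sub_self, map_zero]
    exact WithZero.zero_lt_coe _
  | insert i s hi ih =>
    rw [Finset.prod_insert hi]
    have h1 := h i (Finset.mem_insert_self i s)
    have h2 := ih fun j hj => h j (Finset.mem_insert_of_mem hj)
    have h3 : W.valuation M (f i) = 1 := by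
      have e : f i = 1 + (f i - 1) := by ring
      rw [e]
      exact Valuation.map_one_add_of_lt _ (h1.trans_le hlt)
    have e : f i * ∏ j ∈ s, f j - 1 = f i * (∏ j ∈ s, f j - 1) + (f i - 1) := by ring
    rw [e]
    refine Valuation.map_add_lt _ ?_ h1
    rw [map_mul, h3, one_mul]
    exact h2

/-- PROOF. Let v in S, pi in v.asIdeal with pi not in v^2 ... EASIEST: reduce to matrices over the local ring R = localization of O_K at v (a discrete valuation ring, so a principal ideal ring)
and R' = the localization of O_L at the complement of v: a finite torsion free, hence free R-module of rank n. If y - 1 has order > N' >= e_w N at all w above v then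
y - 1 in pi^N R' and N(y) = det (1 + pi^N A) with A a matrix over R, so N(y) = 1 mod pi^N; take N + 1 instead of N.
ALTERNATIVE without localization (recommended): M = a Galois closure of L / K (number field, normalClosure K L (AlgebraicClosure K)); norm y = product over the K-embeddings sigma of L in M of sigma y
(Algebra.norm_eq_prod_embeddings, into M: or into the algebraic closure); for every prime W of M above v and every sigma, sigma induces from W a prime w of L above v
(w = the comap), and od W (sigma y - 1) = e(W|w) od w (y - 1) > N' ; so all sigma y are = 1 modulo W to the order N', so is the product (Ray.mul argument), so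
od W (norm y - 1) > N' and od W (norm y - 1) = e(W|v) od v (norm y - 1), e(W|v) <= [M:K]; N' = [M:K] (N+1) is enough. -/
theorem norm_cong (S : Finset (Pr K)) (N : ℕ) : ∃ N' : ℕ, ∀ y : L, y ≠ 0 →
    (∀ w ∈ up L S, w.valuation L (y - 1) < WithZero.exp (-(N' : ℤ))) →
    ∀ v ∈ S, v.valuation K (Algebra.norm K y - 1) < WithZero.exp (-(N : ℤ)) := by
  classical
  let M := IntermediateField.normalClosure K L (AlgebraicClosure K)
  have : NumberField M := NumberField.of_module_finite K M
  have hprod : ∀ y : L, algebraMap K M (Algebra.norm K y) = ∏ σ : L →ₐ[K] M, σ y := by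
    intro y
    apply (algebraMap M (AlgebraicClosure K)).injective
    rw [← IsScalarTower.algebraMap_apply, Algebra.norm_eq_prod_embeddings K (AlgebraicClosure K) y, map_prod]
    exact (Fintype.prod_equiv (_root_.normalClosure.algHomEquiv K L (AlgebraicClosure K)) _ _ fun σ => rfl).symm
  have hs := below_surj (K := K) (L := M)
  choose W hW using hs
  refine ⟨N * ∑ v ∈ S, (W v).asIdeal.ramificationIdx (𝓞 K), fun y hy h v hv => ?_⟩
  by_cases h0 : Algebra.norm K y - 1 = 0
  · rw [h0, map_zero]
    exact WithZero.zero_lt_coe _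
  have h1 : (W v).valuation M (∏ σ : L →ₐ[K] M, σ y - 1) <
      WithZero.exp (-((N * ∑ v ∈ S, (W v).asIdeal.ramificationIdx (𝓞 K) : ℕ) : ℤ)) := by
    refine b11_prod (W v) _ _ _ fun σ _ => b11_emb σ (W v) _ y fun w hw => h w ?_
    rw [mem_up, hw, hW]
    exact hv
  rw [← hprod] at h1
  have h2 : algebraMap K M (Algebra.norm K y) - 1 = algebraMap K M (Algebra.norm K y - 1) := by
    rw [map_sub, map_one]
  have h3 : algebraMap K M (Algebra.norm K y - 1) ≠ 0 := fun h => h0 ((map_eq_zero _).1 h)
  rw [h2, b11_lt_iff _ h3, od_alg, hW] at h1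
  rw [b11_lt_iff _ h0]
  have h4 : (W v).asIdeal.ramificationIdx (𝓞 K) ≤ ∑ v ∈ S, (W v).asIdeal.ramificationIdx (𝓞 K) :=
    Finset.single_le_sum (f := fun v => (W v).asIdeal.ramificationIdx (𝓞 K)) (fun _ _ => Nat.zero_le _) hv
  have h5 : N * (W v).asIdeal.ramificationIdx (𝓞 K) ≤ N * ∑ v ∈ S, (W v).asIdeal.ramificationIdx (𝓞 K) :=
    Nat.mul_le_mul_left _ h4
  have h6 : ((N * (W v).asIdeal.ramificationIdx (𝓞 K) : ℕ) : ℤ) <
      ((W v).asIdeal.ramificationIdx (𝓞 K) : ℤ) * od v (Algebra.norm K y - 1) :=
    lt_of_le_of_lt (Int.ofNat_le.2 h5) h1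
  rw [Nat.cast_mul, mul_comm] at h6
  exact lt_of_mul_lt_mul_left h6 (Int.natCast_nonneg _)

end CFT
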