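import Mathlib
import Pool.Agent.Lib.CFT.D2

/-! # CFT module B, chunk B12: the norm of a totally positive element -/

open NumberField IsDedekindDomain

namespace CFT

variable {K : Type} [Field K] [NumberField K] {L : Type} [Field L] [NumberField L] [Algebra K L]


/-- PROOF. Extend phi to i : K -> C. phi (norm y) (in C) = product over the ring homomorphisms s : L -> C with s o algebraMap = i of s y
(Algebra.norm_eq_prod_embeddings with the algebra structure i.toAlgebra on C: L ->A[K] C). Complex conjugation is an involution on this set (i is real valued); the fixed points are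
real valued s, so s y > 0 (s factors through a real embedding: NumberField.ComplexEmbedding.IsReal.embedding), the other ones come in pairs with product |s y|^2 > 0.
(Alternative: the product is real, positive because Finset.prod_involution-like argument; or sort: prod over all = prod over fixed * prod over non fixed,
the second is a product of squares of absolute values; or connectedness: y_t ...). -/
theorem norm_pos {y : L} (hy : y ≠ 0) (hpos : ∀ ψ : L →+* ℝ, 0 < ψ y) (φ : K →+* ℝ) : 0 < φ (Algebra.norm K y) := by
  classical
  letI alg : Algebra K ℂ := (Complex.ofRealHom.comp φ).toAlgebra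
  have halg : ∀ r : K, algebraMap K ℂ r = ((φ r : ℝ) : ℂ) := fun r => rfl
  have h := Algebra.norm_eq_prod_embeddings K ℂ y
  rw [halg] at h
  -- the conjugate embedding
  let g : (L →ₐ[K] ℂ) → (L →ₐ[K] ℂ) := fun s =>
    { toRingHom := (starRingEnd ℂ).comp s.toRingHom
      commutes' := fun r => by
        show (starRingEnd ℂ) (s (algebraMap K L r)) = algebraMap K ℂ r
        rw [s.commutes, halg, Complex.conj_ofReal] }
  have hg : ∀ (s : L →ₐ[K] ℂ) (z : L), g s z = (starRingEnd ℂ) (s z) := fun s z => rfl
  have hne : ∀ s : L →ₐ[K] ℂ, s y ≠ 0 := fun s h0 => hy (s.toRingHom.injective (by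
    rw [map_zero]
    exact h0))
  have hfix : ∀ s : L →ₐ[K] ℂ, g s = s → s y = (‖s y‖ : ℂ) := by
    intro s hs
    have hreal : NumberField.ComplexEmbedding.IsReal (s : L →+* ℂ) := by
      rw [NumberField.ComplexEmbedding.isReal_iff]
      ext z
      have := congrArg (fun t : L →ₐ[K] ℂ => t z) hs
      exact this
    have h1 := NumberField.ComplexEmbedding.IsReal.coe_embedding_apply hreal y
    have h2 := hpos hreal.embedding
    have h3 : s y = ((hreal.embedding y : ℝ) : ℂ) := h1.symm
    rw [h3, Complex.norm_real, Real.norm_of_nonneg h2.le]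
  have hprod : ∏ s : L →ₐ[K] ℂ, (s y / (‖s y‖ : ℂ)) = 1 := by
    refine Finset.prod_involution (fun s _ => g s) ?_ ?_ (fun s _ => Finset.mem_univ _) ?_
    · intro s _
      have h1 : (‖s y‖ : ℂ) ≠ 0 := by
        rw [Complex.ofReal_ne_zero]
        exact norm_ne_zero_iff.2 (hne s)
      have h2 : s y * (starRingEnd ℂ) (s y) = (‖s y‖ : ℂ) * (‖s y‖ : ℂ) := by
        rw [Complex.mul_conj, Complex.normSq_eq_norm_sq]
        push_cast
        ring
      rw [hg, RCLike.norm_conj, div_mul_div_comm, h2]
      exact div_self (mul_ne_zero h1 h1)
    · intro s _ h1 h2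
      apply h1
      have h3 := hfix s h2
      have h4 : (‖s y‖ : ℂ) ≠ 0 := by
        rw [Complex.ofReal_ne_zero]
        exact norm_ne_zero_iff.2 (hne s)
      rw [h3]
      simp only [Complex.norm_real, norm_norm]
      exact div_self h4
    · intro s _
      ext z
      rw [hg, hg, Complex.conj_conj]
  rw [Finset.prod_div_distrib, div_eq_one_iff_eq] at hprod
  · rw [hprod, ← Complex.ofReal_prod, Complex.ofReal_inj] at h
    rw [h]
    exact Finset.prod_pos fun s _ => norm_pos_iff.2 (hne s)
  · rw [Finset.prod_ne_zero_iff]
    intro s _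
    rw [Complex.ofReal_ne_zero]
    exact norm_ne_zero_iff.2 (hne s)

end CFT
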