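import Mathlib
import Pool.Agent.Lib.CFT.D2
import Pool.Agent.Lib.CFT.B07
import Pool.Agent.Lib.CFT.B08
import Pool.Agent.Lib.CFT.B11
import Pool.Agent.Lib.CFT.B12

/-! # CFT module B, chunk B13: norms of rays -/

open NumberField IsDedekindDomain

namespace CFT

variable {K : Type} [Field K] [NumberField K] {L : Type} [Field L] [NumberField L] [Algebra K L]


/-- PROOF. B11 and B12 (take the N' of B11). -/
theorem ray_norm (S : Finset (Pr K)) (N : ℕ) : ∃ N' : ℕ, ∀ y : L, Ray (up L S) N' y → Ray S N (Algebra.norm K y) := by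
  obtain ⟨N', hN'⟩ := norm_cong (K := K) (L := L) S N
  refine ⟨N', fun y hy => ⟨Algebra.norm_ne_zero_iff.2 hy.ne, hN' y hy.ne hy.cong, fun φ => ?_⟩⟩
  exact norm_pos hy.ne hy.pos φ

theorem b13_supp (S : Finset (Pr K)) (E : Dv L) (hE : ∀ w ∉ up L S, E w = 0) (v : Pr K) (hv : v ∉ S) :
    Nd K L E v = 0 := by
  classical
  have e : E = ∑ w ∈ E.support, Finsupp.single w (E w) := (Finsupp.sum_single E).symm
  rw [e, map_sum, Finsupp.finset_sum_apply]
  refine Finset.sum_eq_zero fun w hw => ?_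
  rw [Nd_single]
  have h1 : w ∈ up L S := by
    by_contra h
    exact (Finsupp.mem_support_iff.1 hw) (hE w h)
  rw [mem_up] at h1
  rw [Finsupp.single_apply, if_neg]
  rintro rfl
  exact hv h1

/-- PROOF. D = dv y outside up L S; Nd K L D = Nd K L (dv y) + Nd K L (D - dv y), the first is dv (norm y) (B07), the second is supported on S (the coefficient of Nd at v is a sum
over the primes above v: Nd_single). -/
theorem pray_norm (S : Finset (Pr K)) (N : ℕ) : ∃ N' : ℕ, ∀ D : Dv L, D ∈ Pray (up L S) N' → Nd K L D ∈ Pray S N := by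
  obtain ⟨N', hN'⟩ := ray_norm (K := K) (L := L) S N
  refine ⟨N', ?_⟩
  rintro D ⟨y, hy, hD⟩
  refine ⟨Algebra.norm K y, hN' y hy, fun v hv => ?_⟩
  have h1 : Nd K L D = dv (Algebra.norm K y) + Nd K L (D - dv y) := by
    rw [← Nd_dv hy.ne, ← map_add, add_sub_cancel]
  have h2 : ∀ w ∉ up L S, (D - dv y) w = 0 := by
    intro w hw
    rw [Finsupp.sub_apply, hD w hw, dv_apply, sub_self]
  rw [h1, Finsupp.add_apply, b13_supp S _ h2 v hv, add_zero]
  rfl

end CFT
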