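import Mathlib
import Pool.Agent.Lib.CFT.D2
import Pool.Agent.Lib.CFT.B01
import Pool.Agent.Lib.CFT.B03

/-! # CFT module B, chunk B14: weak approximation with signs -/

open NumberField IsDedekindDomain

namespace CFT

variable {K : Type} [Field K] [NumberField K]

theorem b14_sep : ∀ φ : K →+* ℝ, ∃ a : K, 1 < |φ a| ∧ ∀ ψ : K →+* ℝ, ψ ≠ φ → |ψ a| < 1 := by
  have hfin : Finite (K →+* ℝ) := by
    refine Finite.of_injective (fun φ : K →+* ℝ => Complex.ofRealHom.comp φ) fun φ ψ h => ?_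
    ext x
    have := congrArg (fun f : K →+* ℂ => f x) h
    simpa using this
  have key := AbsoluteValue.exists_one_lt_lt_one_pi_of_not_isEquiv
    (v := fun φ : K →+* ℝ => (InfinitePlace.mk (Complex.ofRealHom.comp φ)).1)
    (fun φ => InfinitePlace.isNontrivial _) (fun φ ψ hne h => by
      have h1 := InfinitePlace.eq_iff_isEquiv.2 h
      rw [InfinitePlace.mk_eq_iff] at h1
      apply hne
      ext x
      rcases h1 with h1 | h1
      · have := congrArg (fun f : K →+* ℂ => f x) h1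
        simpa using this
      · have := congrArg (fun f : K →+* ℂ => f x) h1
        simpa using this)
  intro φ
  obtain ⟨a, h1, h2⟩ := key φ
  have e : ∀ ψ : K →+* ℝ, (InfinitePlace.mk (Complex.ofRealHom.comp ψ)).1 a = |ψ a| := by
    intro ψ
    have h3 : (InfinitePlace.mk (Complex.ofRealHom.comp ψ)) a = ‖(Complex.ofRealHom.comp ψ) a‖ := InfinitePlace.apply _ _
    have h4 : ‖(Complex.ofRealHom.comp ψ) a‖ = |ψ a| := by
      simp
    rw [← h4, ← h3]
    rfl
  refine ⟨a, ?_, fun ψ hψ => ?_⟩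
  · rw [← e]
    exact h1
  · rw [← e]
    exact h2 ψ hψ

theorem b14_sign (ε : (K →+* ℝ) → ℝ) (hε : ∀ φ, ε φ ≠ 0) : ∃ x : 𝓞 K, (x : K) ≠ 0 ∧ ∀ φ : K →+* ℝ, 0 < φ (x : K) * ε φ := by
  classical
  have hfin : Finite (K →+* ℝ) := by
    refine Finite.of_injective (fun φ : K →+* ℝ => Complex.ofRealHom.comp φ) fun φ ψ h => ?_
    ext x
    have := congrArg (fun f : K →+* ℂ => f x) h
    simpa using this
  have := Fintype.ofFinite (K →+* ℝ)
  choose a ha1 ha2 using b14_sep (K := K)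
  set y : K := ∏ φ ∈ Finset.univ.filter (fun φ : K →+* ℝ => ε φ < 0), (1 - a φ ^ 2) with hy
  have hne : ∀ ψ : K →+* ℝ, ∀ φ : K →+* ℝ, ψ ≠ φ → 0 < ψ (1 - a φ ^ 2) := by
    intro ψ φ h
    rw [map_sub, map_one, map_pow, sub_pos, sq_lt_one_iff_abs_lt_one]
    exact ha2 φ ψ h
  have heq : ∀ φ : K →+* ℝ, φ (1 - a φ ^ 2) < 0 := by
    intro φ
    rw [map_sub, map_one, map_pow, sub_neg, one_lt_sq_iff_one_lt_abs]
    exact ha1 φ
  have hya : ∀ ψ : K →+* ℝ, 0 < ψ y * ε ψ := by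
    intro ψ
    rw [hy, map_prod]
    by_cases h : ε ψ < 0
    · have hm : ψ ∈ Finset.univ.filter (fun φ : K →+* ℝ => ε φ < 0) := by simpa using h
      rw [← Finset.mul_prod_erase _ _ hm]
      have h1 : 0 < ∏ φ ∈ (Finset.univ.filter (fun φ : K →+* ℝ => ε φ < 0)).erase ψ, ψ (1 - a φ ^ 2) := by
        refine Finset.prod_pos fun φ hφ => hne ψ φ ?_
        exact fun h => (Finset.ne_of_mem_erase hφ) h.symm
      have h2 := heq ψ
      have h3 : 0 < ψ (1 - a ψ ^ 2) * ε ψ := mul_pos_of_neg_of_neg h2 h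
      calc 0 < (ψ (1 - a ψ ^ 2) * ε ψ) * ∏ φ ∈ (Finset.univ.filter (fun φ : K →+* ℝ => ε φ < 0)).erase ψ, ψ (1 - a φ ^ 2) := mul_pos h3 h1
        _ = _ := by ring
    · have h0 : 0 < ε ψ := lt_of_le_of_ne (not_lt.1 h) (hε ψ).symm
      refine mul_pos (Finset.prod_pos fun φ hφ => hne ψ φ ?_) h0
      rintro rfl
      exact h (by simpa using hφ)
  have hy0 : y ≠ 0 := by
    rw [hy, Finset.prod_ne_zero_iff]
    intro φ _ h0
    have := heq φ
    rw [h0, map_zero] at this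
    exact lt_irrefl _ this
  obtain ⟨p, q, hq, hpq⟩ := IsFractionRing.div_surjective (A := 𝓞 K) y
  have hq0 : (algebraMap (𝓞 K) K q) ≠ 0 := by
    intro h
    have := nonZeroDivisors.ne_zero hq
    exact this ((FaithfulSMul.algebraMap_eq_zero_iff (𝓞 K) K).1 h)
  have hpe : (algebraMap (𝓞 K) K p) = y * algebraMap (𝓞 K) K q := by
    rw [← hpq]
    field_simp
  refine ⟨p * q, ?_, fun φ => ?_⟩
  · have : ((p * q : 𝓞 K) : K) = y * (algebraMap (𝓞 K) K q) ^ 2 := by
      show algebraMap (𝓞 K) K (p * q) = _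
      rw [map_mul, hpe]
      ring
    rw [this]
    exact mul_ne_zero hy0 (pow_ne_zero 2 hq0)
  · have : ((p * q : 𝓞 K) : K) = y * (algebraMap (𝓞 K) K q) ^ 2 := by
      show algebraMap (𝓞 K) K (p * q) = _
      rw [map_mul, hpe]
      ring
    rw [this, map_mul, map_pow]
    have h1 : 0 < (φ (algebraMap (𝓞 K) K q)) ^ 2 :=
      lt_of_le_of_ne (sq_nonneg _) (Ne.symm (pow_ne_zero 2 ((map_ne_zero φ).2 hq0)))
    calc 0 < (φ y * ε φ) * (φ (algebraMap (𝓞 K) K q)) ^ 2 := mul_pos (hya φ) h1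
      _ = _ := by ring

theorem b14_cong (S : Finset (Pr K)) (N : ℕ) (a : Pr K → K) :
    ∃ x : K, ∀ v ∈ S, v.valuation K (x - a v) < WithZero.exp (-(N : ℤ)) := by
  classical
  obtain ⟨⟨b, hb⟩, hint⟩ := IsLocalization.exist_integer_multiples (nonZeroDivisors (𝓞 K)) S a
  have hb0 : b ≠ 0 := nonZeroDivisors.ne_zero hb
  have hbK : (algebraMap (𝓞 K) K b) ≠ 0 := fun h => hb0 ((FaithfulSMul.algebraMap_eq_zero_iff (𝓞 K) K).1 h)
  choose! c hc using hint
  have hc' : ∀ v ∈ S, algebraMap (𝓞 K) K (c v) = algebraMap (𝓞 K) K b * a v := by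
    intro v hv
    rw [hc v hv, Algebra.smul_def]
  obtain ⟨y, hy⟩ := IsDedekindDomain.exists_forall_sub_mem_ideal (s := S) (fun v : Pr K => v.asIdeal)
    (fun v => N + 1 + (od v (b : K)).toNat) (fun v _ => v.prime) (fun v _ w _ hvw h => hvw (HeightOneSpectrum.ext h))
    (fun v => c v.1)
  refine ⟨(algebraMap (𝓞 K) K y) / algebraMap (𝓞 K) K b, fun v hv => ?_⟩
  have e : (algebraMap (𝓞 K) K y) / algebraMap (𝓞 K) K b - a v = algebraMap (𝓞 K) K (y - c v) / algebraMap (𝓞 K) K b := by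
    rw [map_sub, hc' v hv]
    field_simp
  have h1 : v.valuation K (algebraMap (𝓞 K) K (y - c v)) ≤ WithZero.exp (-((N + 1 + (od v (b : K)).toNat : ℕ) : ℤ)) := by
    rw [HeightOneSpectrum.valuation_of_algebraMap, HeightOneSpectrum.intValuation_le_pow_iff_mem]
    exact hy v hv
  have h2 : v.valuation K (algebraMap (𝓞 K) K b) = WithZero.exp (-od v (algebraMap (𝓞 K) K b)) := val_eq v hbK
  have h3 : od v (algebraMap (𝓞 K) K b) ≤ (od v (b : K)).toNat := Int.self_le_toNat _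
  rw [e, map_div₀, h2]
  have h4 : v.valuation K (algebraMap (𝓞 K) K (y - c v)) / WithZero.exp (-od v (algebraMap (𝓞 K) K b)) ≤
      WithZero.exp (-((N + 1 + (od v (b : K)).toNat : ℕ) : ℤ)) / WithZero.exp (-od v (algebraMap (𝓞 K) K b)) := by
    gcongr
    exact (WithZero.exp_pos).le
  refine h4.trans_lt ?_
  rw [← WithZero.exp_sub, WithZero.exp_lt_exp]
  push_cast
  omega

theorem b14_t (S : Finset (Pr K)) (N : ℕ) : ∃ t : ℕ, 0 < t ∧ ∀ v ∈ S, v.valuation K (t : K) < WithZero.exp (-(N : ℤ)) := by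
  classical
  refine ⟨(∏ v ∈ S, Nm v) ^ (N + 1), ?_, fun v hv => ?_⟩
  · exact pow_pos (Finset.prod_pos fun v _ => Nm_pos v) _
  · have h1 : v.valuation K (((∏ v ∈ S, Nm v) : ℕ) : K) ≤ WithZero.exp (-1 : ℤ) := by
      have e : (((∏ v ∈ S, Nm v) : ℕ) : K) = algebraMap (𝓞 K) K ((((∏ v ∈ S, Nm v) : ℕ) : 𝓞 K)) := by
        rw [map_natCast]
      have h2 := HeightOneSpectrum.intValuation_le_pow_iff_mem v ((((∏ v ∈ S, Nm v) : ℕ) : 𝓞 K)) 1
      rw [e, HeightOneSpectrum.valuation_of_algebraMap]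
      refine h2.2 ?_
      rw [pow_one, Nat.cast_prod, ← Finset.mul_prod_erase _ _ hv]
      exact Ideal.mul_mem_right _ _ (Ideal.absNorm_mem _)
    rw [Nat.cast_pow, map_pow]
    calc (v.valuation K (((∏ v ∈ S, Nm v) : ℕ) : K)) ^ (N + 1) ≤ (WithZero.exp (-1 : ℤ)) ^ (N + 1) := pow_le_pow_left' h1 _
      _ = WithZero.exp (-((N + 1 : ℕ) : ℤ)) := by
          rw [← WithZero.exp_nsmul]
          congr 1
          simp
      _ < _ := by
          rw [WithZero.exp_lt_exp]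
          push_cast
          omega

/-- PROOF. See the docstring in PLAN: congruences by the Chinese remainder theorem, then signs by adding a large multiple. -/
theorem approx (S : Finset (Pr K)) (N : ℕ) (a : Pr K → K) (ε : (K →+* ℝ) → ℝ) (hε : ∀ φ, ε φ ≠ 0) :
    ∃ x : K, x ≠ 0 ∧ (∀ v ∈ S, v.valuation K (x - a v) < WithZero.exp (-(N : ℤ))) ∧ ∀ φ : K →+* ℝ, 0 < φ x * ε φ := by
  classical
  obtain ⟨x₁, hx₁⟩ := b14_cong S N a
  obtain ⟨t, ht0, ht⟩ := b14_t S N
  obtain ⟨y, hy0, hy⟩ := b14_sign ε hε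
  have hfin : Finite (K →+* ℝ) := by
    refine Finite.of_injective (fun φ : K →+* ℝ => Complex.ofRealHom.comp φ) fun φ ψ h => ?_
    ext x
    have := congrArg (fun f : K →+* ℂ => f x) h
    simpa using this
  have hev : ∀ φ : K →+* ℝ, ∀ᶠ m : ℕ in Filter.atTop, 0 < φ (x₁ + t * m * (y : K)) * ε φ := by
    intro φ
    have h1 : 0 < (t : ℝ) * (φ (y : K) * ε φ) := mul_pos (by exact_mod_cast ht0) (hy φ)
    have h2 : Filter.Tendsto (fun m : ℕ => (φ x₁ * ε φ) + (m : ℝ) * ((t : ℝ) * (φ (y : K) * ε φ))) Filter.atTop Filter.atTop := by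
      refine Filter.tendsto_atTop_add_const_left _ _ ?_
      exact Filter.Tendsto.atTop_mul_const h1 tendsto_natCast_atTop_atTop
    filter_upwards [h2.eventually_gt_atTop 0] with m hm
    have e : φ (x₁ + t * m * (y : K)) * ε φ = (φ x₁ * ε φ) + (m : ℝ) * ((t : ℝ) * (φ (y : K) * ε φ)) := by
      rw [map_add, map_mul, map_mul, map_natCast, map_natCast]
      ring
    rw [e]
    exact hm
  have hall : ∀ᶠ m : ℕ in Filter.atTop, ∀ φ : K →+* ℝ, 0 < φ (x₁ + t * m * (y : K)) * ε φ := Filter.eventually_all.2 hev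
  obtain ⟨M, hM⟩ := Filter.eventually_atTop.1 hall
  have hval : ∀ m : ℕ, ∀ v ∈ S, v.valuation K ((x₁ + t * m * (y : K)) - a v) < WithZero.exp (-(N : ℤ)) := by
    intro m v hv
    have e : (x₁ + t * m * (y : K)) - a v = (x₁ - a v) + t * (algebraMap (𝓞 K) K ((m : 𝓞 K) * y)) := by
      rw [map_mul, map_natCast]
      ring
    rw [e]
    refine Valuation.map_add_lt _ (hx₁ v hv) ?_
    rw [map_mul]
    calc v.valuation K (t : K) * v.valuation K (algebraMap (𝓞 K) K ((m : 𝓞 K) * y)) ≤ v.valuation K (t : K) * 1 :=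
          mul_le_mul_right (v.valuation_le_one _) _
      _ < _ := by
          rw [mul_one]
          exact ht v hv
  by_cases h0 : x₁ + t * M * (y : K) = 0
  · refine ⟨x₁ + t * (M + 1 : ℕ) * (y : K), ?_, hval (M + 1), hM (M + 1) (Nat.le_succ M)⟩
    have e : x₁ + t * (M + 1 : ℕ) * (y : K) = (x₁ + t * M * (y : K)) + t * (y : K) := by
      push_cast
      ring
    rw [e, h0, zero_add]
    exact mul_ne_zero (Nat.cast_ne_zero.2 ht0.ne') hy0
  · exact ⟨x₁ + t * M * (y : K), h0, hval M, hM M le_rfl⟩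

end CFT
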