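import Mathlib
import Pool.Agent.Lib.CFT.D2
import Pool.Agent.Lib.CFT.B01
import Pool.Agent.Lib.CFT.B14

/-! # CFT module B, chunk B15: moving lemma -/

open NumberField IsDedekindDomain

namespace CFT

variable {K : Type} [Field K] [NumberField K]


theorem b15_ex (v : Pr K) (k : ℤ) : ∃ a : K, a ≠ 0 ∧ od v a = k := by
  obtain ⟨π, hπ⟩ := v.valuation_exists_uniformizer K
  have h0 : π ≠ 0 := by
    rintro rfl
    rw [map_zero] at hπ
    exact WithZero.coe_ne_zero hπ.symm
  refine ⟨π ^ k, zpow_ne_zero _ h0, ?_⟩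
  unfold od
  rw [map_zpow₀, hπ, WithZero.log_zpow, WithZero.log_exp]
  simp

/-- PROOF. For v in T outside S choose a_v in K^* with od v a_v = -D v (a power of a uniformizer: HeightOneSpectrum.valuation_exists_uniformizer); for v in S take a_v = 1. approx (B14) on S u T with N' large
(N' > N and N' > |D v| + 1): od v (x - a_v) > od v a_v gives od v x = od v a_v. Signs: all positive. -/
theorem moving (S T : Finset (Pr K)) (N : ℕ) (D : Dv K) : ∃ x : K, Ray S N x ∧ ∀ v ∈ T, v ∉ S → (D + dv x) v = 0 := by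
  classical
  have ha : ∀ v : Pr K, ∃ a : K, a ≠ 0 ∧ od v a = -D v := fun v => b15_ex v _
  choose a ha1 ha2 using ha
  obtain ⟨M, hM⟩ : ∃ M : ℕ, ∀ v ∈ T, -(M : ℤ) ≤ D v := by
    refine ⟨∑ v ∈ T, (D v).natAbs, fun v hv => ?_⟩
    have h1 : (D v).natAbs ≤ ∑ v ∈ T, (D v).natAbs :=
      Finset.single_le_sum (f := fun v => (D v).natAbs) (fun _ _ => Nat.zero_le _) hv
    omega
  obtain ⟨x, hx0, hx1, hx2⟩ := approx (S ∪ T) (max N M) (fun v => if v ∈ S then 1 else a v) (fun _ => 1)
    (fun _ => one_ne_zero)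
  refine ⟨x, ⟨hx0, fun v hv => ?_, fun φ => ?_⟩, fun v hv hvS => ?_⟩
  · have h1 := hx1 v (Finset.mem_union_left _ hv)
    simp only [hv, if_true] at h1
    refine h1.trans_le ?_
    rw [WithZero.exp_le_exp]
    have := le_max_left N M
    omega
  · have h1 := hx2 φ
    rwa [mul_one] at h1
  · have h1 := hx1 v (Finset.mem_union_right _ hv)
    simp only [hvS, if_false] at h1
    have h2 : v.valuation K (x - a v) < v.valuation K (a v) := by
      refine h1.trans_le ?_
      rw [val_eq v (ha1 v), ha2 v, neg_neg, WithZero.exp_le_exp]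
      have h3 := le_max_right N M
      have h4 := hM v hv
      omega
    have h3 : v.valuation K x = v.valuation K (a v) := Valuation.map_eq_of_sub_lt _ h2
    have h4 : od v x = od v (a v) := by
      unfold od
      rw [h3]
    rw [Finsupp.add_apply, dv_apply, h4, ha2 v, add_neg_cancel]

end CFT
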