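import Mathlib
import Pool.Agent.Lib.CFT.D2
import Pool.Agent.Lib.CFT.B06

/-! # CFT module B, chunk B16: inertia is trivial at unramified primes -/

open NumberField IsDedekindDomain

namespace CFT

variable {K : Type} [Field K] [NumberField K] {L : Type} [Field L] [NumberField L] [Algebra K L]

theorem b16_gal [IsGalois K L] : IsGaloisGroup (L ≃ₐ[K] L) (𝓞 K) (𝓞 L) := inferInstance

theorem b16_card [IsGalois K L] (w : Pr L) : Nat.card (w.asIdeal.inertia (L ≃ₐ[K] L)) = w.asIdeal.ramificationIdx (𝓞 K) := by
  have hG : IsGaloisGroup (L ≃ₐ[K] L) (𝓞 K) (𝓞 L) := b16_gal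
  have hp := w.isPrime
  have hv := (below K w).isMaximal
  have hl : w.asIdeal.LiesOver (below K w).asIdeal := ⟨rfl⟩
  have hfin : Finite (𝓞 K ⧸ (below K w).asIdeal) := Ring.HasFiniteQuotients.finiteQuotient (below K w).ne_bot
  have hperf : PerfectField (below K w).asIdeal.ResidueField := by
    have : Finite (below K w).asIdeal.ResidueField :=
      Finite.of_surjective _ (Ideal.bijective_algebraMap_quotient_residueField (below K w).asIdeal).surjective
    infer_instance
  rw [Ideal.card_inertia_eq_ramificationIdxIn (G := L ≃ₐ[K] L) (below K w).asIdeal w.asIdeal,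
    Ideal.ramificationIdxIn_eq_ramificationIdx (below K w).asIdeal w.asIdeal (L ≃ₐ[K] L)]

/-- PROOF. L/K Galois, G = L equiv L acts on O_L with invariants O_K. The inertia group of w has order ramificationIdx (Mathlib: Ideal.card_inertia_eq_ramificationIdxIn in
NumberTheory/RamificationInertia/Galois.lean; ramificationIdxIn_eq_ramificationIdx), so it is trivial; s^-1 t is in the inertia group: for all x, s x - t x in w gives
t^-1 s x - x in t^-1 w ... Let a = s t^-1: a y - y in w for all y in O_L (y = t x). So a is in the inertia group of w (definition of Ideal.inertia: all y: a y - y in w), so a = 1. -/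
theorem eq_of_cong [IsGalois K L] (w : Pr L) (h : w.asIdeal.ramificationIdx (𝓞 K) = 1) {s t : L ≃ₐ[K] L}
    (hst : ∀ x : 𝓞 L, s • x - t • x ∈ w.asIdeal) : s = t := by
  have h1 : s * t⁻¹ ∈ w.asIdeal.inertia (L ≃ₐ[K] L) := by
    intro y
    have h2 := hst (t⁻¹ • y)
    rw [smul_inv_smul] at h2
    rw [mul_smul]
    exact h2
  have h3 := b16_card (K := K) w
  rw [h] at h3
  have h4 : w.asIdeal.inertia (L ≃ₐ[K] L) = ⊥ := Subgroup.eq_bot_of_card_eq _ h3
  rw [h4, Subgroup.mem_bot] at h1
  exact mul_inv_eq_one.1 h1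

/-- PROOF. Conversely: if the only s with s x - x in w for all x is 1 then the inertia group is trivial and e = 1 by the same formula. -/
theorem unr_of_inertia [IsGalois K L] (w : Pr L) (h : ∀ s : L ≃ₐ[K] L, (∀ x : 𝓞 L, s • x - x ∈ w.asIdeal) → s = 1) :
    w.asIdeal.ramificationIdx (𝓞 K) = 1 := by
  rw [← b16_card (K := K) w]
  have h4 : w.asIdeal.inertia (L ≃ₐ[K] L) = ⊥ := by
    rw [Subgroup.eq_bot_iff_forall]
    intro s hs
    exact h s hs
  rw [h4, Subgroup.card_bot]

end CFT
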