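import Mathlib
import Pool.Agent.Lib.CFT.D2
import Pool.Agent.Lib.CFT.B06
import Pool.Agent.Lib.CFT.B16

/-! # CFT module B, chunk B17: existence of the Frobenius element (abelian case) -/

open NumberField IsDedekindDomain

namespace CFT

variable {K : Type} [Field K] [NumberField K] {L : Type} [Field L] [NumberField L] [Algebra K L]


instance b17_comm : SMulCommClass (L ≃ₐ[K] L) (𝓞 K) (𝓞 L) := by
  refine ⟨fun s a x => ?_⟩
  apply RingOfIntegers.ext
  show s ((a • x : 𝓞 L) : L) = ((a • (s • x : 𝓞 L) : 𝓞 L) : L)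
  rw [Algebra.smul_def, Algebra.smul_def]
  show s (algebraMap K L (a : K) * (x : L)) = algebraMap K L (a : K) * s (x : L)
  rw [map_mul, AlgEquiv.commutes]

theorem b17_card (w : Pr L) : Nat.card (𝓞 K ⧸ w.asIdeal.under (𝓞 K)) = Nm (below K w) := by
  unfold Nm
  rw [Ideal.absNorm_apply, Submodule.cardQuot_apply]
  rfl

theorem b17_fin (w : Pr L) : Finite (𝓞 L ⧸ w.asIdeal) := Ideal.finiteQuotientOfFreeOfNeBot _ w.ne_bot

/-- PROOF. One prime: IsArithFrobAt.exists_of_isInvariant (Mathlib RingTheory/Frobenius.lean) for G = L equiv L acting on O_L (IsInvariant (O_K) (O_L) G; the instance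
SMulCommClass G (O_K) (O_L) may have to be supplied by hand: s (a x) = a s x); card (O_K / w.under) = Nm (below w) (Ideal.absNorm is the cardinality of the quotient, Submodule.cardQuot_apply / Nat.card). -/
theorem fr_one [IsGalois K L] (w : Pr L) : ∃ s : L ≃ₐ[K] L, ∀ x : 𝓞 L, s • x - x ^ Nm (below K w) ∈ w.asIdeal := by
  haveI := b17_fin w
  obtain ⟨s, hs⟩ := IsArithFrobAt.exists_of_isInvariant (𝓞 K) (L ≃ₐ[K] L) w.asIdeal
  refine ⟨s, fun x => ?_⟩
  have h := hs x
  rw [b17_card] at h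
  exact h

theorem b17_trans [IsGalois K L] (w w' : Pr L) (h : below K w = below K w') : ∃ g : L ≃ₐ[K] L, ∀ x : 𝓞 L, x ∈ w'.asIdeal ↔ g⁻¹ • x ∈ w.asIdeal := by
  have h1 : w.asIdeal.under (𝓞 K) = w'.asIdeal.under (𝓞 K) := congrArg HeightOneSpectrum.asIdeal h
  obtain ⟨g, hg⟩ := Algebra.IsInvariant.exists_smul_of_under_eq (𝓞 K) (𝓞 L) (L ≃ₐ[K] L) w.asIdeal w'.asIdeal h1
  refine ⟨g, fun x => ?_⟩
  rw [hg, Ideal.pointwise_smul_eq_comap, Ideal.mem_comap]
  rfl

/-- PROOF. G acts transitively on the primes above v (Ideal.exists_smul_eq_of_isGaloisGroup, or exists_comap_galRestrict_eq; primesOver). If w' = g w then g s g^-1 = s is a Frobenius element for w'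
(apply g to s x - x^q in w, with x = g^-1 y). -/
theorem fr_exists [IsGalois K L] (hab : ∀ a b : L ≃ₐ[K] L, a * b = b * a) (v : Pr K) : ∃ s, IsFr K L v s := by
  obtain ⟨w, rfl⟩ := below_surj (K := K) (L := L) v
  obtain ⟨s, hs⟩ := fr_one (K := K) w
  refine ⟨s, fun w' hw' x => ?_⟩
  obtain ⟨g, hg⟩ := b17_trans (K := K) w w' hw'.symm
  rw [hg]
  have h := hs (g⁻¹ • x)
  have e : g⁻¹ • (s • x - x ^ Nm (below K w)) = s • (g⁻¹ • x) - (g⁻¹ • x) ^ Nm (below K w) := by
    rw [smul_sub, smul_pow', ← mul_smul, ← mul_smul, hab]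
  rw [e]
  exact h

/-- PROOF. Take one prime w above v (below_surj, B06): s x - t x in w; eq_of_cong (B16). -/
theorem fr_unique [IsGalois K L] {v : Pr K} (hv : Unr K L v) {s t : L ≃ₐ[K] L} (hs : IsFr K L v s) (ht : IsFr K L v t) : s = t := by
  obtain ⟨w, rfl⟩ := below_surj (K := K) (L := L) v
  refine eq_of_cong w (hv w rfl) fun x => ?_
  have h := w.asIdeal.sub_mem (hs w rfl x) (ht w rfl x)
  rwa [sub_sub_sub_cancel_right] at h

/-- PROOF. Unfold frob: dif_pos, Exists.choose_spec. -/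
theorem frob_spec [IsGalois K L] (hab : ∀ a b : L ≃ₐ[K] L, a * b = b * a) {v : Pr K} (hv : Unr K L v) : IsFr K L v (frob K L v) := by
  have h : Unr K L v ∧ ∃ s, IsFr K L v s := ⟨hv, fr_exists hab v⟩
  unfold frob
  rw [dif_pos h]
  exact h.2.choose_spec

/-- PROOF. fr_unique and dif_pos. -/
theorem frob_eq [IsGalois K L] {v : Pr K} (hv : Unr K L v) {s : L ≃ₐ[K] L} (hs : IsFr K L v s) : frob K L v = s := by
  have h : Unr K L v ∧ ∃ s, IsFr K L v s := ⟨hv, s, hs⟩
  unfold frob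
  rw [dif_pos h]
  exact fr_unique hv h.2.choose_spec hs

/-- PROOF. One prime w is enough in the abelian case: fr_exists gives t with IsFr, s and t agree mod w, eq_of_cong, frob_eq. -/
theorem frob_eq_of_one [IsGalois K L] (hab : ∀ a b : L ≃ₐ[K] L, a * b = b * a) {v : Pr K} (hv : Unr K L v) (w : Pr L) (hw : below K w = v)
    {s : L ≃ₐ[K] L} (hs : ∀ x : 𝓞 L, s • x - x ^ Nm v ∈ w.asIdeal) : frob K L v = s := by
  refine eq_of_cong w (hv w hw) fun x => ?_
  have h := w.asIdeal.sub_mem (frob_spec hab hv w hw x) (hs x)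
  rwa [sub_sub_sub_cancel_right] at h

end CFT
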