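import Mathlib
import Pool.Agent.Lib.CFT.D2
import Pool.Agent.Lib.CFT.B06
import Pool.Agent.Lib.CFT.B16
import Pool.Agent.Lib.CFT.B17

/-! # CFT module B, chunk B18: order of the Frobenius element, Artin symbol of a norm -/

open NumberField IsDedekindDomain

namespace CFT

variable {K : Type} [Field K] [NumberField K] {L : Type} [Field L] [NumberField L] [Algebra K L]


/-- PROOF. Induction: s x = x^q mod w for all x gives s^k x = x^(q^k) mod w. -/
theorem fr_pow {v : Pr K} {s : L ≃ₐ[K] L} (hs : IsFr K L v s) (k : ℕ) (w : Pr L) (hw : below K w = v) (x : 𝓞 L) :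
    (s ^ k) • x - x ^ (Nm v ^ k) ∈ w.asIdeal := by
  induction k with
  | zero =>
    rw [pow_zero, pow_zero, one_smul, pow_one, sub_self]
    exact w.asIdeal.zero_mem
  | succ k ih =>
    have h1 := hs w hw ((s ^ k) • x)
    have h2 : ((s ^ k) • x) ^ Nm v - (x ^ (Nm v ^ k)) ^ Nm v ∈ w.asIdeal :=
      Ideal.mem_of_dvd _ (sub_dvd_pow_sub_pow _ _ _) ih
    have h3 := w.asIdeal.add_mem h1 h2
    rw [sub_add_sub_cancel, ← mul_smul, ← pow_succ', ← pow_mul, ← pow_succ] at h3
    exact h3

/-- PROOF. s^k = 1 iff x = x^(q^k) mod w for all x (fr_pow, eq_of_cong) iff every element of the finite field O_L/w (with q^f elements, Nm_below in B06) satisfies x = x^(q^k)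
iff f divides k (cyclic multiplicative group of order q^f - 1; or: only s^f = 1 and the order is at least f because a polynomial X^(q^k) - X has at most q^k roots). -/
theorem order_frob [IsGalois K L] (hab : ∀ a b : L ≃ₐ[K] L, a * b = b * a) {v : Pr K} (hv : Unr K L v) (w : Pr L) (hw : below K w = v) :
    orderOf (frob K L v) = w.asIdeal.inertiaDeg (𝓞 K) := by
  have hfr := frob_spec hab hv
  have hq : 2 ≤ Nm v := by
    have h1 := Nm_pos v
    have h2 : Nm v ≠ 1 := fun h => v.isPrime.ne_top (Ideal.absNorm_eq_one_iff.1 h)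
    omega
  haveI hfin : Finite (𝓞 L ⧸ w.asIdeal) := b17_fin w
  haveI : w.asIdeal.IsMaximal := w.isMaximal
  letI : Field (𝓞 L ⧸ w.asIdeal) := Ideal.Quotient.field w.asIdeal
  letI : Fintype (𝓞 L ⧸ w.asIdeal) := Fintype.ofFinite _
  have hcard : Fintype.card (𝓞 L ⧸ w.asIdeal) = Nm v ^ w.asIdeal.inertiaDeg (𝓞 K) := by
    rw [← hw, ← Nm_below w, ← Nat.card_eq_fintype_card]
    unfold Nm
    rw [Ideal.absNorm_apply, Submodule.cardQuot_apply]
  have h1 : (frob K L v) ^ w.asIdeal.inertiaDeg (𝓞 K) = 1 := by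
    refine eq_of_cong w (hv w hw) fun x => ?_
    have h2 := fr_pow hfr (w.asIdeal.inertiaDeg (𝓞 K)) w hw x
    have h3 : x ^ (Nm v ^ w.asIdeal.inertiaDeg (𝓞 K)) - x ∈ w.asIdeal := by
      rw [← Ideal.Quotient.eq_zero_iff_mem, map_sub, map_pow, ← hcard, FiniteField.pow_card, sub_self]
    have h4 := w.asIdeal.add_mem h2 h3
    rwa [sub_add_sub_cancel] at h4
  have h2 : 0 < orderOf (frob K L v) := orderOf_pos _
  have h3 : ∀ x : 𝓞 L ⧸ w.asIdeal, x ^ (Nm v ^ orderOf (frob K L v)) = x := by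
    intro x
    obtain ⟨x, rfl⟩ := Ideal.Quotient.mk_surjective x
    have h4 := fr_pow hfr (orderOf (frob K L v)) w hw x
    rw [pow_orderOf_eq_one, one_smul, ← Ideal.Quotient.eq_zero_iff_mem, map_sub, map_pow, sub_eq_zero] at h4
    exact h4.symm
  have h4 : 1 < Nm v ^ orderOf (frob K L v) := Nat.one_lt_pow h2.ne' (by omega)
  have h5 : Fintype.card (𝓞 L ⧸ w.asIdeal) - 1 ∣ Nm v ^ orderOf (frob K L v) - 1 := by
    rw [← FiniteField.forall_pow_eq_one_iff]
    intro x
    apply Units.ext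
    rw [Units.val_pow_eq_pow_val, Units.val_one]
    have h6 := h3 x.1
    have h7 : Nm v ^ orderOf (frob K L v) = (Nm v ^ orderOf (frob K L v) - 1) + 1 := by omega
    rw [h7, pow_succ] at h6
    exact mul_eq_right₀ x.ne_zero |>.1 h6
  have h6 := Nat.le_of_dvd (by omega) h5
  rw [hcard] at h6
  have h7 : Nm v ^ w.asIdeal.inertiaDeg (𝓞 K) ≤ Nm v ^ orderOf (frob K L v) := by omega
  have h8 := (Nat.pow_le_pow_iff_right (by omega)).1 h7
  have h9 := Nat.le_of_dvd (f_pos (K := K) w) (orderOf_dvd_of_pow_eq_one h1)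
  omega

/-- PROOF. Additive in D: Finsupp.addHom_ext / induction. For D = single w n: Nd_single, art_single_of_mem / _of_notMem (D2): f n times chi (frob) = chi (frob^f)^n = 1. -/
theorem art_Nd [IsGalois K L] (hab : ∀ a b : L ≃ₐ[K] L, a * b = b * a) (S : Finset (Pr K)) (hS : ∀ v : Pr K, ¬ Unr K L v → v ∈ S)
    {A : Type} [CommGroup A] (χ : (L ≃ₐ[K] L) →* A) (D : Dv L) : art S χ (Nd K L D) = 0 := by
  have h : (art S χ).comp (Nd K L) = 0 := by
    refine Finsupp.addHom_ext fun w n => ?_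
    rw [AddMonoidHom.comp_apply, Nd_single, AddMonoidHom.zero_apply]
    by_cases hw : below K w ∈ S
    · exact art_single_of_mem χ hw _
    · have hu : Unr K L (below K w) := by
        by_contra h
        exact hw (hS _ h)
      rw [art_single_of_notMem χ hw, mul_comm, mul_smul, natCast_zsmul]
      have h1 : w.asIdeal.inertiaDeg (𝓞 K) • Additive.ofMul (χ (frob K L (below K w))) = 0 := by
        rw [← ofMul_pow, ← map_pow, ← order_frob hab hu w rfl, pow_orderOf_eq_one, map_one, ofMul_one]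
      rw [h1, smul_zero]
  exact DFunLike.congr_fun h D

end CFT
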