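import Mathlib
import Pool.Agent.Lib.CFT.D2
import Pool.Agent.Lib.CFT.B06

/-! # CFT module B, chunk B19: finitely many ramified primes -/

open NumberField IsDedekindDomain

namespace CFT

variable {K : Type} [Field K] [NumberField K] {L : Type} [Field L] [NumberField L] [Algebra K L]


/-- PROOF. Mathlib: the different ideal is not 0 and a prime with ramification index > 1 divides it (differentIdeal, dvd_differentIdeal_iff / not_dvd_differentIdeal_iff with Algebra.IsUnramifiedAt and
Algebra.isUnramifiedAt_iff_ramificationIdx_eq_one or similar, see NumberTheory/RamificationInertia/Unramified.lean and NumberTheory/NumberField/Discriminant/Different.lean);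
finitely many primes of O_L divide a nonzero ideal (Ideal.finite_factors); map them to K by below. -/
theorem unr_fin : {v : Pr K | ¬ Unr K L v}.Finite := by
  have hd : differentIdeal (𝓞 K) (𝓞 L) ≠ ⊥ := differentIdeal_ne_bot
  have hfin := Ideal.finite_factors (I := differentIdeal (𝓞 K) (𝓞 L)) hd
  refine (hfin.image (below K)).subset ?_
  intro v hv
  have hv' : ¬ ∀ w : Pr L, below K w = v → w.asIdeal.ramificationIdx (𝓞 K) = 1 := hv
  push Not at hv'
  obtain ⟨w, hw, he⟩ := hv'
  refine ⟨w, ?_, hw⟩
  haveI : w.asIdeal.LiesOver (below K w).asIdeal := ⟨rfl⟩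
  haveI := w.isPrime
  haveI : (below K w).asIdeal.IsMaximal := (below K w).isMaximal
  have h1 := e_pos (K := K) w
  have h2 : w.asIdeal ^ (w.asIdeal.ramificationIdx (𝓞 K)) ∣ (below K w).asIdeal.map (algebraMap (𝓞 K) (𝓞 L)) := by
    rw [Ideal.dvd_iff_le, ← Ideal.ramificationIdx'_eq_ramificationIdx (below K w).asIdeal w.asIdeal (below K w).ne_bot]
    exact Ideal.le_pow_ramificationIdx'
  have h3 := pow_sub_one_dvd_differentIdeal (𝓞 K) w.asIdeal _ (below K w).ne_bot h2
  refine (dvd_pow_self _ ?_).trans h3
  omega

end CFT
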