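import Mathlib
import Pool.Agent.Lib.CFT.D2
import Pool.Agent.Lib.CFT.B06
import Pool.Agent.Lib.CFT.B08
import Pool.Agent.Lib.CFT.B16
import Pool.Agent.Lib.CFT.B17

/-! # CFT module B, chunk B20: restriction of the Frobenius element -/

open NumberField IsDedekindDomain

namespace CFT

variable (K : Type) [Field K] [NumberField K] (E : Type) [Field E] [NumberField E] [Algebra K E]
  (M : Type) [Field M] [NumberField M] [Algebra K M] [Algebra E M] [IsScalarTower K E M]


/-- PROOF. w a prime of M above v, u = below E w. t = restrictNormalHom E s satisfies algebraMap (t x) = s (algebraMap x) (AlgEquiv.restrictNormal_commutes). For x in O_E: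
t x - x^q in u because its image s x - x^q is in w (u = w.under (O_E): Ideal.mem_comap). Every prime of E above v is below a prime of M (below_surj, B06). -/
theorem fr_res [Normal K E] {v : Pr K} {s : M ≃ₐ[K] M} (hs : IsFr K M v s) : IsFr K E v (AlgEquiv.restrictNormalHom E s) := by
  intro w' hw' x
  obtain ⟨w, rfl⟩ := below_surj (K := E) (L := M) w'
  have hw : below K w = v := by rw [← below_below K E M w, hw']
  have h1 := hs w hw (algebraMap (𝓞 E) (𝓞 M) x)
  show (AlgEquiv.restrictNormalHom E s) • x - x ^ Nm v ∈ w.asIdeal.comap (algebraMap (𝓞 E) (𝓞 M))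
  rw [Ideal.mem_comap, map_sub, map_pow]
  have h2 : algebraMap (𝓞 E) (𝓞 M) ((AlgEquiv.restrictNormalHom E s) • x) = s • (algebraMap (𝓞 E) (𝓞 M) x) := by
    apply RingOfIntegers.ext
    exact AlgEquiv.restrictNormal_commutes s E (x : E)
  rw [h2]
  exact h1

/-- PROOF. unr_tower (B08), fr_res, frob_eq (B17). E/K is Galois abelian. -/
theorem frob_res [IsGalois K M] [IsGalois K E] (hab : ∀ a b : M ≃ₐ[K] M, a * b = b * a) {v : Pr K} (hv : Unr K M v) :
    AlgEquiv.restrictNormalHom E (frob K M v) = frob K E v := by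
  have h1 := frob_spec hab hv
  have h2 := fr_res K E M h1
  have h3 := (unr_tower K E M hv).1
  exact (frob_eq h3 h2).symm

/-- PROOF. Additive in D; frob_res for the primes outside S. -/
theorem art_res [IsGalois K M] [IsGalois K E] (hab : ∀ a b : M ≃ₐ[K] M, a * b = b * a) (S : Finset (Pr K)) (hS : ∀ v : Pr K, ¬ Unr K M v → v ∈ S)
    {A : Type} [CommGroup A] (χ : (E ≃ₐ[K] E) →* A) (D : Dv K) :
    art S (χ.comp (AlgEquiv.restrictNormalHom E : (M ≃ₐ[K] M) →* (E ≃ₐ[K] E))) D = art S χ D := by
  have h : art S (χ.comp (AlgEquiv.restrictNormalHom E : (M ≃ₐ[K] M) →* (E ≃ₐ[K] E))) = art S χ := by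
    refine Finsupp.addHom_ext fun v n => ?_
    by_cases hv : v ∈ S
    · rw [art_single_of_mem _ hv, art_single_of_mem _ hv]
    · have hu : Unr K M v := by
        by_contra h
        exact hv (hS _ h)
      rw [art_single_of_notMem _ hv, art_single_of_notMem _ hv, MonoidHom.comp_apply, frob_res K E M hab hu]
  rw [h]

end CFT
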