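import Mathlib
import Pool.Agent.Lib.CFT.D2
import Pool.Agent.Lib.CFT.B06
import Pool.Agent.Lib.CFT.B08
import Pool.Agent.Lib.CFT.B16
import Pool.Agent.Lib.CFT.B17
import Pool.Agent.Lib.CFT.B18

/-! # CFT module B, chunk B21: base change of the Frobenius element -/

open NumberField IsDedekindDomain

namespace CFT

variable (K : Type) [Field K] [NumberField K] (L : Type) [Field L] [NumberField L] [Algebra K L]
  (E : Type) [Field E] [NumberField E] [Algebra K E]
  (M : Type) [Field M] [NumberField M] [Algebra K M] [Algebra L M] [Algebra E M] [IsScalarTower K L M] [IsScalarTower K E M]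


theorem b21_mem_below {F : Type} [Field F] [NumberField F] [Algebra F M] (W : Pr M) (x : 𝓞 F) :
    x ∈ (below F W).asIdeal ↔ algebraMap (𝓞 F) (𝓞 M) x ∈ W.asIdeal := Iff.rfl

theorem b21_res [IsGalois K L] (s : M ≃ₐ[E] M) (x : 𝓞 L) :
    algebraMap (𝓞 L) (𝓞 M) (resE K L E M s • x) = s • algebraMap (𝓞 L) (𝓞 M) x := by
  apply RingOfIntegers.ext
  exact resE_spec s (x : L)

/-- PROOF. If resE is injective (M is generated by L and E) and v is unramified in L then w is unramified in M/E: let W be a prime of M above w, t in Gal(M/E) with t x - x in W for all x in O_M. Then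
resE t x - x in u = below L W for all x in O_L (resE_spec in D1), so resE t = 1 (eq_of_cong, B16; below K u = v by below_below), t = 1; unr_of_inertia (B16). -/
theorem unr_base [IsGalois K L] [IsGalois E M] (hinj : Function.Injective (resE K L E M)) (w : Pr E) (hv : Unr K L (below K w)) :
    Unr E M w := by
  intro W hW
  refine unr_of_inertia W fun t ht => ?_
  have h0 : below K (below L W) = below K w := by
    rw [← hW]
    exact (below_below K L M W).trans (below_below K E M W).symm
  have h1 : resE K L E M t = 1 := by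
    refine eq_of_cong (below L W) (hv _ h0) fun x => ?_
    rw [one_smul, b21_mem_below, map_sub, b21_res]
    exact ht _
  apply hinj
  rw [h1, map_one]

/-- PROOF. Let t be a Frobenius element of w in M/E, W above w, u = below L W. For x in O_L: resE t x = t x = x^(Nm w) mod W, so mod u; Nm w = Nm v^f (Nm_below, B06). On the other hand
(frob v)^f x = x^(Nm v^f) mod u (fr_pow, B18). eq_of_cong (B16) for the prime u. -/
theorem frob_base [IsGalois K L] [IsGalois E M] (habL : ∀ a b : L ≃ₐ[K] L, a * b = b * a) (habM : ∀ a b : M ≃ₐ[E] M, a * b = b * a)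
    (w : Pr E) (hv : Unr K L (below K w)) (hw : Unr E M w) :
    resE K L E M (frob E M w) = frob K L (below K w) ^ w.asIdeal.inertiaDeg (𝓞 K) := by
  obtain ⟨W, hW⟩ := below_surj (K := E) (L := M) w
  have h0 : below K (below L W) = below K w := by
    rw [← hW]
    exact (below_below K L M W).trans (below_below K E M W).symm
  refine eq_of_cong (below L W) (hv _ h0) fun x => ?_
  have h1 := frob_spec habM hw W hW (algebraMap (𝓞 L) (𝓞 M) x)
  have h2 := fr_pow (frob_spec habL hv) (w.asIdeal.inertiaDeg (𝓞 K)) (below L W) h0 x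
  rw [← Nm_below (K := K) w] at h2
  rw [b21_mem_below] at h2 ⊢
  rw [map_sub, b21_res]
  rw [map_sub, map_pow] at h2
  have h3 := W.asIdeal.sub_mem h1 h2
  rwa [sub_sub_sub_cancel_right] at h3

/-- PROOF. Additive in D (write D as the sum of its single parts; those with w in T have D w = 0): frob_base. For w outside T: below K w is outside S. -/
theorem art_base [IsGalois K L] [IsGalois E M] (habL : ∀ a b : L ≃ₐ[K] L, a * b = b * a) (habM : ∀ a b : M ≃ₐ[E] M, a * b = b * a)
    (S : Finset (Pr K)) (hS : ∀ v : Pr K, ¬ Unr K L v → v ∈ S) (T : Finset (Pr E)) (hT : ∀ w : Pr E, ¬ Unr E M w → w ∈ T) (hST : up E S ⊆ T)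
    {A : Type} [CommGroup A] (χ : (L ≃ₐ[K] L) →* A) (D : Dv E) (hD : ∀ w ∈ T, D w = 0) :
    art S χ (Nd K E D) = art T (χ.comp (resE K L E M)) D := by
  classical
  have e : D = ∑ w ∈ D.support, Finsupp.single w (D w) := (Finsupp.sum_single D).symm
  rw [e, map_sum, map_sum, map_sum]
  refine Finset.sum_congr rfl fun w hw => ?_
  have hwT : w ∉ T := fun h => Finsupp.mem_support_iff.1 hw (hD w h)
  have hvS : below K w ∉ S := fun h => hwT (hST ((mem_up S w).2 h))
  have hv : Unr K L (below K w) := by
    by_contra h
    exact hvS (hS _ h)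
  have hw' : Unr E M w := by
    by_contra h
    exact hwT (hT _ h)
  rw [Nd_single, art_single_of_notMem _ hvS, art_single_of_notMem _ hwT, MonoidHom.comp_apply,
    frob_base K L E M habL habM w hv hw', map_pow, ofMul_pow, mul_comm, mul_smul, natCast_zsmul]

end CFT
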