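import Mathlib
import Pool.Agent.Lib.CFT.D2
import Pool.Agent.Lib.CFT.B06
import Pool.Agent.Lib.CFT.B16
import Pool.Agent.Lib.CFT.B17

/-! # CFT module B, chunk B22: Frobenius elements and roots of unity -/

open NumberField IsDedekindDomain

namespace CFT

variable {K : Type} [Field K] [NumberField K] {L : Type} [Field L] [NumberField L] [Algebra K L]

omit [NumberField K] [NumberField L] in
theorem b22_smul (s : L ≃ₐ[K] L) (z : 𝓞 L) : ((s • z : 𝓞 L) : L) = s (z : L) := rfl

/-- The m-th roots of unity are distinct modulo w when m is not in w. -/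
theorem b22_distinct (w : Pr L) (m : ℕ) (hm : (m : 𝓞 L) ∉ w.asIdeal) {z z' : 𝓞 L} (hz : z ^ m = 1) (hz' : z' ^ m = 1)
    (h : z - z' ∈ w.asIdeal) : z = z' := by
  have hm0 : m ≠ 0 := by
    rintro rfl
    apply hm
    rw [Nat.cast_zero]
    exact zero_mem _
  obtain ⟨k, rfl⟩ := Nat.exists_eq_succ_of_ne_zero hm0
  have hinv : z' * z' ^ k = 1 := by rw [← pow_succ']; exact hz'
  set u : 𝓞 L := z * z' ^ k with hu
  have hum : u ^ (k + 1) = 1 := by
    rw [hu, mul_pow, hz, one_mul, ← pow_mul, mul_comm k (k + 1), pow_mul, hz', one_pow]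
  have hu1 : u - 1 ∈ w.asIdeal := by
    have e : u - 1 = (z - z') * z' ^ k := by
      rw [sub_mul, hinv]
    rw [e]
    exact Ideal.mul_mem_right _ _ h
  have hu2 : u = 1 := by
    by_contra hne
    have h1 : (∑ i ∈ Finset.range (k + 1), u ^ i) * (u - 1) = 0 := by
      rw [geom_sum_mul, hum, sub_self]
    have h2 : ∑ i ∈ Finset.range (k + 1), u ^ i = 0 := by
      rcases mul_eq_zero.1 h1 with h3 | h3
      · exact h3
      · exact absurd (sub_eq_zero.1 h3) hne
    apply hm
    have h4 : ((k + 1 : ℕ) : 𝓞 L) = -∑ i ∈ Finset.range (k + 1), (u ^ i - 1) := by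
      rw [Finset.sum_sub_distrib, h2]
      simp
    rw [h4]
    refine neg_mem (Ideal.sum_mem _ fun i _ => ?_)
    exact Ideal.mem_of_dvd _ (sub_one_dvd_pow_sub_one u i) hu1
  have h5 : z * (z' ^ k * z') = z' := by
    rw [← mul_assoc, ← hu, hu2, one_mul]
  rw [mul_comm (z' ^ k) z', hinv, mul_one] at h5
  exact h5

/-- PROOF. Work in O_L/w, w above v: m is not in w, so the m-th roots of unity are distinct mod w (X^m - 1 is separable; Mathlib: AlgHom.IsArithFrobAt.apply_of_pow_eq_one in RingTheory/Frobenius.lean does exactly this).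
zeta is an algebraic integer. -/
theorem fr_zeta (m : ℕ) (v : Pr K) (hm : (m : 𝓞 K) ∉ v.asIdeal) {s : L ≃ₐ[K] L} (hs : IsFr K L v s) {ζ : L} (hζ : ζ ^ m = 1) :
    s ζ = ζ ^ Nm v := by
  obtain ⟨w, hw⟩ := below_surj (L := L) v
  have hmw : (m : 𝓞 L) ∉ w.asIdeal := by
    intro h
    apply hm
    rw [← hw]
    show (m : 𝓞 K) ∈ w.asIdeal.under (𝓞 K)
    rw [Ideal.under_def, Ideal.mem_comap, map_natCast]
    exact h
  have hm0 : m ≠ 0 := by
    rintro rfl
    apply hm
    rw [Nat.cast_zero]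
    exact zero_mem _
  have hint : IsIntegral ℤ ζ := by
    refine IsIntegral.of_pow (Nat.pos_of_ne_zero hm0) ?_
    rw [hζ]
    exact isIntegral_one
  set z : 𝓞 L := ⟨ζ, hint⟩ with hz
  have hzm : z ^ m = 1 := by
    apply RingOfIntegers.ext
    exact hζ
  have h1 := hs w hw z
  have h2 : (s • z) ^ m = 1 := by
    rw [← smul_pow', hzm, smul_one]
  have h3 : (z ^ Nm v) ^ m = 1 := by
    rw [← pow_mul, mul_comm, pow_mul, hzm, one_pow]
  have h4 := b22_distinct w m hmw h2 h3 h1
  have h5 := congrArg (fun x : 𝓞 L => (x : L)) h4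
  exact h5

/-- PROOF. L/K is Galois (IsCyclotomicExtension.isGalois). Let w be above v, s with s x - x in w for all x in O_L, zeta a primitive m-th root of unity in L: s zeta is a root of unity congruent to
zeta mod w, so s zeta = zeta (distinct mod w as in fr_zeta), so s = 1 (L is generated by zeta). unr_of_inertia (B16). -/
theorem unr_cyc (m : ℕ) [NeZero m] [IsCyclotomicExtension {m} K L] (v : Pr K) (hm : (m : 𝓞 K) ∉ v.asIdeal) : Unr K L v := by
  have hG : IsGalois K L := IsCyclotomicExtension.isGalois {m} K L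
  intro w hw
  refine unr_of_inertia w fun s hs => ?_
  have hmw : (m : 𝓞 L) ∉ w.asIdeal := by
    intro h
    apply hm
    rw [← hw]
    show (m : 𝓞 K) ∈ w.asIdeal.under (𝓞 K)
    rw [Ideal.under_def, Ideal.mem_comap, map_natCast]
    exact h
  have hζ := IsCyclotomicExtension.zeta_spec m K L
  set ζ := IsCyclotomicExtension.zeta m K L with hζd
  have hint : IsIntegral ℤ ζ := by
    refine IsIntegral.of_pow (Nat.pos_of_ne_zero (NeZero.ne m)) ?_
    rw [hζ.pow_eq_one]
    exact isIntegral_one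
  set z : 𝓞 L := ⟨ζ, hint⟩ with hz
  have hzm : z ^ m = 1 := by
    apply RingOfIntegers.ext
    exact hζ.pow_eq_one
  have h2 : (s • z) ^ m = 1 := by
    rw [← smul_pow', hzm, smul_one]
  have h4 := b22_distinct w m hmw h2 hzm (hs z)
  have h5 : s ζ = ζ := congrArg (fun x : 𝓞 L => (x : L)) h4
  have h6 : (s : L →ₐ[K] L) = ((1 : L ≃ₐ[K] L) : L →ₐ[K] L) := by
    refine (hζ.powerBasis K).algHom_ext ?_
    rw [IsPrimitiveRoot.powerBasis_gen]
    exact h5
  ext x
  exact congrArg (fun f : L →ₐ[K] L => f x) h6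

/-- PROOF. Gal(L/K) embeds in (Z/m)^* (IsPrimitiveRoot.autToPow_injective), so it is abelian. -/
theorem cyc_comm (m : ℕ) [NeZero m] [IsCyclotomicExtension {m} K L] (a b : L ≃ₐ[K] L) : a * b = b * a := by
  have hζ := IsCyclotomicExtension.zeta_spec m K L
  apply IsPrimitiveRoot.autToPow_injective K hζ
  rw [map_mul, map_mul, mul_comm]

end CFT
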