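import Mathlib
import Pool.Agent.Lib.CFT.D2
import Pool.Agent.Lib.CFT.B01
import Pool.Agent.Lib.CFT.B03
import Pool.Agent.Lib.CFT.B05
import Pool.Agent.Lib.CFT.B12

/-! # CFT module B, chunk B23: norms and congruences: x = 1 mod high powers of the primes dividing m, totally positive -/

open NumberField IsDedekindDomain

namespace CFT

variable {K : Type} [Field K] [NumberField K]


theorem b23_norm_congr (m : ℕ) (a b r : 𝓞 K) (h : a - b = (m : 𝓞 K) * r) :
    Algebra.norm ℤ a ≡ Algebra.norm ℤ b [ZMOD m] := by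
  classical
  rw [← ZMod.intCast_eq_intCast_iff]
  rw [Algebra.norm_eq_matrix_det (RingOfIntegers.basis K), Algebra.norm_eq_matrix_det (RingOfIntegers.basis K)]
  have e1 : ∀ A : Matrix (Module.Free.ChooseBasisIndex ℤ (𝓞 K)) (Module.Free.ChooseBasisIndex ℤ (𝓞 K)) ℤ,
      ((A.det : ℤ) : ZMod m) = (A.map (Int.castRingHom (ZMod m))).det := by
    intro A
    have := RingHom.map_det (Int.castRingHom (ZMod m)) A
    simpa using this
  rw [e1, e1]
  congr 1
  have h2 : a = b + (m : ℤ) • r := by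
    have : a = b + (m : 𝓞 K) * r := by rw [← h]; ring
    rw [this]
    simp
  rw [h2, map_add, map_zsmul]
  ext i j
  simp only [Matrix.map_apply, Matrix.add_apply, Matrix.smul_apply, map_add, smul_eq_mul, map_mul]
  simp

/-- PROOF. Let N = the sum of the m-orders: choose N with: for all v, od v m <= N (e.g. the maximum of od v (m) over the finitely many v containing m). x is a unit at S, so
frac_prime (B03) gives x = a / b, b outside all v in S; then a also. a - b = b (x - 1) has order > N >= od v m at the primes v dividing m (they are in S), so a - b in m O_K. Hence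
norm a = norm b mod m (the norm of a mod m is the determinant of the multiplication by a on O_K/m: Algebra.norm_eq_matrix_det with the integral basis, the entries of the matrices of a and b are congruent mod m, det is a
polynomial: Matrix.map_det / RingHom.map_det to ZMod m). norm a and norm b have the same sign because norm x > 0 (B12 with K = Q: norm_pos; the only real embedding of Q). So
A = |norm a|, B = |norm b| are natural numbers, congruent mod m, B is prime to m (b is outside every prime containing m... b a unit mod m), and nD (dv x) = A / B (nD_dv, B05). -/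
theorem norm_mod (m : ℕ) [NeZero m] (S : Finset (Pr K)) (hS : ∀ v : Pr K, (m : 𝓞 K) ∈ v.asIdeal → v ∈ S) :
    ∃ N : ℕ, ∀ x : K, Ray S N x → ∃ a b : 𝓞 K, a ≠ 0 ∧ b ≠ 0 ∧ x = (a : K) / (b : K) ∧ (∀ v ∈ S, a ∉ v.asIdeal) ∧ (∀ v ∈ S, b ∉ v.asIdeal) ∧
      Ideal.absNorm (Ideal.span {a}) ≡ Ideal.absNorm (Ideal.span {b}) [MOD m] := by
  classical
  have hm0 : (m : 𝓞 K) ≠ 0 := by exact_mod_cast NeZero.ne m
  have hm' : ((m : 𝓞 K) : K) ≠ 0 := fun h => hm0 (RingOfIntegers.coe_eq_zero_iff.1 h)
  refine ⟨(dv ((m : 𝓞 K) : K)).support.sup fun v => (od v ((m : 𝓞 K) : K)).toNat, fun x hx => ?_⟩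
  set N := (dv ((m : 𝓞 K) : K)).support.sup fun v => (od v ((m : 𝓞 K) : K)).toNat with hN
  have hNm : ∀ v : Pr K, od v ((m : 𝓞 K) : K) ≤ N := by
    intro v
    by_cases hv : v ∈ (dv ((m : 𝓞 K) : K)).support
    · have h1 := Finset.le_sup (f := fun v => (od v ((m : 𝓞 K) : K)).toNat) hv
      rw [← hN] at h1
      have h2 := od_nonneg v (m : 𝓞 K)
      omega
    · have h2 : od v ((m : 𝓞 K) : K) = 0 := by
        have := Finsupp.notMem_support_iff.1 hv
        rwa [dv_apply] at this
      rw [h2]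
      positivity
  obtain ⟨a, b, hb0, hxab, hbS⟩ := frac_prime S (x := x) (fun v hv => by rw [hx.od_eq hv])
  have hb' : (b : K) ≠ 0 := fun h => hb0 (RingOfIntegers.coe_eq_zero_iff.1 h)
  have ha0 : a ≠ 0 := by
    rintro rfl
    apply hx.ne
    rw [hxab]
    simp
  have ha' : (a : K) ≠ 0 := fun h => ha0 (RingOfIntegers.coe_eq_zero_iff.1 h)
  have hab : (a : K) = x * (b : K) := by
    rw [hxab, div_mul_cancel₀ _ hb']
  have hod0 : ∀ v : Pr K, ∀ r : 𝓞 K, r ≠ 0 → (od v (r : K) = 0 ↔ r ∉ v.asIdeal) := by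
    intro v r hr
    have h1 := od_pos_iff v hr
    have h2 := od_nonneg v r
    rw [← h1]
    omega
  have hbod : ∀ v ∈ S, od v (b : K) = 0 := fun v hv => (hod0 v b hb0).2 (hbS v hv)
  have haS : ∀ v ∈ S, a ∉ v.asIdeal := by
    intro v hv
    rw [← hod0 v a ha0, hab, od_mul v hx.ne hb', hx.od_eq hv, hbod v hv, add_zero]
  refine ⟨a, b, ha0, hb0, hxab, haS, hbS, ?_⟩
  -- a - b is divisible by m
  have hdiv : ∃ r : 𝓞 K, a - b = (m : 𝓞 K) * r := by
    by_cases hab0 : a - b = 0
    · exact ⟨0, by rw [hab0, mul_zero]⟩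
    have habK : ((a - b : 𝓞 K) : K) ≠ 0 := fun h => hab0 (RingOfIntegers.coe_eq_zero_iff.1 h)
    have hcoe : ((a - b : 𝓞 K) : K) = (a : K) - (b : K) := rfl
    have hx1 : x - 1 = ((a - b : 𝓞 K) : K) * (b : K)⁻¹ := by
      rw [hcoe, hab]
      field_simp
    have hx1' : x - 1 ≠ 0 := by
      rw [hx1]
      exact mul_ne_zero habK (inv_ne_zero hb')
    have hodm : ∀ v : Pr K, od v ((m : 𝓞 K) : K) ≤ od v ((a - b : 𝓞 K) : K) := by
      intro v
      by_cases hv : (m : 𝓞 K) ∈ v.asIdeal
      · have hvS := hS v hv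
        have h1 := (val_lt_iff v hx1' N).1 (hx.cong v hvS)
        rw [hx1, od_mul v habK (inv_ne_zero hb'), od_inv, hbod v hvS] at h1
        have h2 := hNm v
        omega
      · rw [(hod0 v _ hm0).2 hv]
        exact od_nonneg v _
    have h1 : ∀ v : Pr K, v.valuation K (((a - b : 𝓞 K) : K) * ((m : 𝓞 K) : K)⁻¹) ≤ 1 := by
      intro v
      rw [val_eq v (mul_ne_zero habK (inv_ne_zero hm')), ← WithZero.exp_zero, WithZero.exp_le_exp,
        od_mul v habK (inv_ne_zero hm'), od_inv]
      have := hodm v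
      omega
    obtain ⟨r, hr⟩ := HeightOneSpectrum.mem_integers_of_valuation_le_one (R := 𝓞 K) K _ h1
    refine ⟨r, ?_⟩
    apply RingOfIntegers.coe_injective
    have hr' : (r : K) = ((a - b : 𝓞 K) : K) * ((m : 𝓞 K) : K)⁻¹ := hr
    rw [map_mul]
    change ((a - b : 𝓞 K) : K) = ((m : 𝓞 K) : K) * (r : K)
    rw [hr', mul_comm, mul_assoc, inv_mul_cancel₀ hm', mul_one]
  obtain ⟨r, hr⟩ := hdiv
  have hcong := b23_norm_congr m a b r hr
  -- signs
  have hpos : 0 < Algebra.norm ℚ x := by
    have := norm_pos (K := ℚ) hx.ne hx.pos (Rat.castHom ℝ)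
    simpa using this
  have hnb : Algebra.norm ℚ (b : K) ≠ 0 := Algebra.norm_ne_zero_iff.2 hb'
  have hsign : 0 < Algebra.norm ℤ a * Algebra.norm ℤ b := by
    have h1 : (0 : ℚ) < ((Algebra.norm ℤ a * Algebra.norm ℤ b : ℤ) : ℚ) := by
      rw [Int.cast_mul, Algebra.coe_norm_int, Algebra.coe_norm_int, hab, map_mul, mul_assoc]
      exact mul_pos hpos (mul_self_pos.2 hnb)
    exact_mod_cast h1
  rw [Ideal.absNorm_span_singleton, Ideal.absNorm_span_singleton]
  rw [← Int.natCast_modEq_iff]
  rcases lt_trichotomy (Algebra.norm ℤ b) 0 with hs | hs | hs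
  · have ha : Algebra.norm ℤ a < 0 := by nlinarith
    rw [Int.ofNat_natAbs_of_nonpos ha.le, Int.ofNat_natAbs_of_nonpos hs.le]
    exact hcong.neg
  · rw [hs, mul_zero] at hsign
    exact absurd hsign (lt_irrefl _)
  · have ha : 0 < Algebra.norm ℤ a := by nlinarith
    rw [Int.natAbs_of_nonneg ha.le, Int.natAbs_of_nonneg hs.le]
    exact hcong

end CFT
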