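import Mathlib
import Pool.Agent.Lib.CFT.D2
import Pool.Agent.Lib.CFT.B01
import Pool.Agent.Lib.CFT.B04
import Pool.Agent.Lib.CFT.B05
import Pool.Agent.Lib.CFT.B22
import Pool.Agent.Lib.CFT.B23

/-! # CFT module B, chunk B24: reciprocity for cyclotomic extensions -/

open NumberField IsDedekindDomain

namespace CFT

variable {K : Type} [Field K] [NumberField K] {L : Type} [Field L] [NumberField L] [Algebra K L]


theorem b24_pow {s : L ≃ₐ[K] L} {q : ℕ} {ζ : L} (h : s ζ = ζ ^ q) (n : ℕ) : (s ^ n) ζ = ζ ^ (q ^ n) := by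
  induction n with
  | zero => simp
  | succ n ih =>
    rw [pow_succ' s n, AlgEquiv.mul_apply, ih, map_pow, h, ← pow_mul, ← pow_succ']

theorem b24_prod (m : ℕ) [NeZero m] [IsCyclotomicExtension {m} K L] (S : Finset (Pr K))
    (hS : ∀ v : Pr K, (m : 𝓞 K) ∈ v.asIdeal → v ∈ S) {ζ : L} (hζ : ζ ^ m = 1) (n : Pr K → ℕ) (T : Finset (Pr K))
    (hT : ∀ v ∈ T, v ∉ S) :
    ∃ g : L ≃ₐ[K] L, g ζ = ζ ^ (∏ v ∈ T, Nm v ^ n v) ∧
      ∀ (A : Type) [CommGroup A] (χ : (L ≃ₐ[K] L) →* A),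
        art S χ (∑ v ∈ T, Finsupp.single v (n v : ℤ)) = Additive.ofMul (χ g) := by
  classical
  haveI : IsGalois K L := IsCyclotomicExtension.isGalois {m} K L
  induction T using Finset.induction_on with
  | empty =>
    refine ⟨1, by simp, fun A _ χ => ?_⟩
    rw [Finset.sum_empty, map_zero, map_one, ofMul_one]
  | insert v T hv ih =>
    obtain ⟨g, hg1, hg2⟩ := ih fun w hw => hT w (Finset.mem_insert_of_mem hw)
    have hvS : v ∉ S := hT v (Finset.mem_insert_self v T)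
    have hm : (m : 𝓞 K) ∉ v.asIdeal := fun h => hvS (hS v h)
    have hfr := frob_spec (K := K) (L := L) (cyc_comm m) (unr_cyc m v hm)
    have hz : frob K L v ζ = ζ ^ Nm v := fr_zeta m v hm hfr hζ
    refine ⟨g * frob K L v ^ n v, ?_, fun A _ χ => ?_⟩
    · rw [AlgEquiv.mul_apply, b24_pow hz, map_pow, hg1, ← pow_mul, Finset.prod_insert hv]
      congr 1
      ring
    · rw [Finset.sum_insert hv, map_add, hg2, art_single_of_notMem χ hvS, map_mul, map_pow, ofMul_mul, ofMul_pow,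
        natCast_zsmul, add_comm]

/-- PROOF. D >= 0 supported outside S: g(D) = the product of the frob v^(D v) satisfies g(D) zeta = zeta^(N D), N D = absNorm (idl D) (induction on D with fr_zeta, B22; idl_add, nD_idl in B04). Stated
with the abelian group A = Gal(L/K) itself and the identity. -/
theorem art_zeta (m : ℕ) [NeZero m] [IsCyclotomicExtension {m} K L] (S : Finset (Pr K))
    (hS : ∀ v : Pr K, (m : 𝓞 K) ∈ v.asIdeal → v ∈ S) {ζ : L} (hζ : ζ ^ m = 1) (a : 𝓞 K) (ha : a ≠ 0) (haS : ∀ v ∈ S, a ∉ v.asIdeal) :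
    ∃ g : L ≃ₐ[K] L, g ζ = ζ ^ Ideal.absNorm (Ideal.span {a}) ∧
      ∀ (A : Type) [CommGroup A] (χ : (L ≃ₐ[K] L) →* A), art S χ (dv (a : K)) = Additive.ofMul (χ g) := by
  classical
  have hT : ∀ v ∈ (dv (a : K)).support, v ∉ S := by
    intro v hv hvS
    have h1 : od v (a : K) ≠ 0 := by
      have := Finsupp.mem_support_iff.1 hv
      rwa [dv_apply] at this
    have h2 := od_nonneg v a
    exact haS v hvS ((od_pos_iff v ha).1 (lt_of_le_of_ne h2 h1.symm))
  obtain ⟨g, hg1, hg2⟩ := b24_prod (K := K) (L := L) m S hS hζ (fun v => (od v (a : K)).toNat) (dv (a : K)).support hT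
  refine ⟨g, ?_, fun A _ χ => ?_⟩
  · rw [hg1, ← idl_dv ha]
    congr 1
    unfold idl Finsupp.prod
    rw [map_prod]
    refine Finset.prod_congr rfl fun v _ => ?_
    rw [map_pow]
    rfl
  · rw [← hg2 A χ]
    congr 1
    have h1 : ∀ v : Pr K, ((od v (a : K)).toNat : ℤ) = dv (a : K) v := fun v => by
      rw [dv_apply]
      exact Int.toNat_of_nonneg (od_nonneg v a)
    simp only [h1]
    exact (Finsupp.sum_single (dv (a : K))).symm

/-- PROOF. N and a, b from norm_mod (B23); g_a, g_b from art_zeta with zeta primitive: g_a zeta = zeta^(Na) = zeta^(Nb) = g_b zeta, so g_a = g_b (L generated by zeta), art (dv x) = art (dv a) - art (dv b) = 0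
(dv_mul, dv_inv). -/
theorem cyc_rec' (m : ℕ) [NeZero m] [IsCyclotomicExtension {m} K L] (S : Finset (Pr K))
    (hS : ∀ v : Pr K, (m : 𝓞 K) ∈ v.asIdeal → v ∈ S) :
    ∃ N : ℕ, ∀ (A : Type) [CommGroup A] (χ : (L ≃ₐ[K] L) →* A) (x : K), Ray S N x → art S χ (dv x) = 0 := by
  classical
  obtain ⟨N, hN⟩ := norm_mod (K := K) m S hS
  refine ⟨N, fun A _ χ x hx => ?_⟩
  obtain ⟨a, b, ha, hb, hxab, haS, hbS, hmod⟩ := hN x hx
  have hζ := IsCyclotomicExtension.zeta_spec m K L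
  set ζ := IsCyclotomicExtension.zeta m K L with hζdef
  have hζ1 : ζ ^ m = 1 := hζ.pow_eq_one
  obtain ⟨g, hg1, hg2⟩ := art_zeta (K := K) (L := L) m S hS hζ1 a ha haS
  obtain ⟨g', hg1', hg2'⟩ := art_zeta (K := K) (L := L) m S hS hζ1 b hb hbS
  have hgg : g = g' := by
    have h1 : g ζ = g' ζ := by
      rw [hg1, hg1', pow_eq_pow_mod _ hζ1, pow_eq_pow_mod (Ideal.absNorm (Ideal.span {b})) hζ1]
      congr 1
    apply AlgEquiv.coe_toAlgHom_injective
    refine (hζ.powerBasis K).algHom_ext ?_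
    rw [IsPrimitiveRoot.powerBasis_gen]
    exact h1
  have hb' : (b : K) ≠ 0 := fun h => hb (RingOfIntegers.coe_eq_zero_iff.1 h)
  have ha' : (a : K) ≠ 0 := fun h => ha (RingOfIntegers.coe_eq_zero_iff.1 h)
  rw [hxab, div_eq_mul_inv, dv_mul ha' (inv_ne_zero hb'), dv_inv, map_add, map_neg, hg2 A χ, hg2' A χ, hgg]
  exact add_neg_cancel _

end CFT
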