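import Mathlib
import Pool.Agent.Lib.CFT.D2

/-! # CFT module B, chunk B25: group lemmas for the end -/

open NumberField IsDedekindDomain

namespace CFT

/-- PROOF. A cyclic group of order l^r, l prime: the subgroups form a chain; if r = 0 any element of T (nonempty) or ... (T is not empty is assumed). If no element of T generates G then all elements of T lie in the unique
subgroup of index l (the l-th powers), so the closure is not everything. -/
theorem gen_mem {G : Type} [Group G] [Finite G] (hc : IsCyclic G) (l r : ℕ) (hl : l.Prime) (hn : Nat.card G = l ^ r) (T : Set G) (hne : T.Nonempty)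
    (hT : Subgroup.closure T = ⊤) : ∃ g ∈ T, Subgroup.zpowers g = ⊤ := by
  classical
  by_contra hcon
  push Not at hcon
  obtain ⟨g0, hg0⟩ := hc.exists_generator
  have hord : orderOf g0 = l ^ r := by
    rw [← hn]
    exact orderOf_eq_card_of_forall_mem_zpowers hg0
  rcases r with _ | r
  · rw [pow_zero] at hn
    obtain ⟨t, ht⟩ := hne
    refine hcon t ht ?_
    have hs : Subsingleton G := (Nat.card_eq_one_iff_unique.1 hn).1
    exact Subsingleton.elim _ _
  · have hkey : ∀ t ∈ T, t ^ (l ^ r) = 1 := by
      intro t ht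
      have h1 : orderOf t ∣ l ^ (r + 1) := by
        rw [← hn]
        exact orderOf_dvd_natCard t
      obtain ⟨m, hm, hm2⟩ := (Nat.dvd_prime_pow hl).1 h1
      have h2 : m ≠ r + 1 := by
        rintro rfl
        refine hcon t ht ?_
        rw [← Subgroup.card_eq_iff_eq_top, Nat.card_zpowers, hm2, hn]
      have h3 : m ≤ r := by omega
      rw [← orderOf_dvd_iff_pow_eq_one, hm2]
      exact pow_dvd_pow l h3
    letI : CommGroup G := hc.commGroup
    have h4 : Subgroup.closure T ≤ (powMonoidHom (l ^ r) : G →* G).ker := by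
      rw [Subgroup.closure_le]
      intro t ht
      exact hkey t ht
    have h5 : g0 ∈ (powMonoidHom (l ^ r) : G →* G).ker := h4 (hT ▸ Subgroup.mem_top g0)
    have h6 : g0 ^ (l ^ r) = 1 := h5
    rw [← orderOf_dvd_iff_pow_eq_one, hord] at h6
    have h7 := Nat.le_of_dvd (pow_pos hl.pos r) h6
    have h8 : l ^ r < l ^ (r + 1) := Nat.pow_lt_pow_right hl.one_lt (Nat.lt_succ_self r)
    omega


/-- PROOF. Character chi : G -> C^* with chi g <> 1 (CommGroup.exists_apply_ne_one_of_hasEnoughRootsOfUnity); the image of chi is cyclic of order n; let d = order of chi g, l a prime divisor of d, n = l^r n', l not dividing n';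
chi' = chi^n' has image of order l^r (cyclic) and chi'(g) <> 1 since d does not divide n'. H = ker chi'. G/H is isomorphic to the image. (Or: H maximal among the subgroups not containing g.) -/
theorem ker_pp {G : Type} [Group G] [Finite G] (hab : ∀ a b : G, a * b = b * a) (g : G) (hg : g ≠ 1) :
    ∃ H : Subgroup G, ∃ _ : H.Normal, g ∉ H ∧ IsCyclic (G ⧸ H) ∧ ∃ l r : ℕ, l.Prime ∧ Nat.card (G ⧸ H) = l ^ r := by
  classical
  letI : CommGroup G := { (inferInstance : Group G) with mul_comm := hab }
  obtain ⟨χ, hχ⟩ := CommGroup.exists_apply_ne_one_of_hasEnoughRootsOfUnity G ℂ hg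
  have hcard : Nat.card G ≠ 0 := Nat.card_pos.ne'
  have hc1 : (χ g) ^ Nat.card G = 1 := by rw [← map_pow, pow_card_eq_one', map_one]
  have hd : orderOf (χ g) ≠ 1 := fun h => hχ (orderOf_eq_one_iff.1 h)
  obtain ⟨l, hl, hld⟩ := Nat.exists_prime_and_dvd hd
  obtain ⟨r, n', hn', hrn⟩ := Nat.exists_eq_pow_mul_and_not_dvd hcard l hl.ne_one
  have hker : ∀ x : G, ((χ ^ n') x) ^ (l ^ r) = 1 := by
    intro x
    rw [MonoidHom.pow_apply, ← pow_mul, mul_comm n', ← hrn, ← map_pow, pow_card_eq_one', map_one]
  have hrange : ∀ y : (χ ^ n').range, y ^ (l ^ r) = 1 := by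
    rintro ⟨y, x, rfl⟩
    exact Subtype.ext (hker x)
  haveI : Finite (χ ^ n').range := Set.finite_range _ |>.to_subtype
  have hp : IsPGroup l (χ ^ n').range := fun y => ⟨r, hrange y⟩
  haveI : Fact l.Prime := ⟨hl⟩
  obtain ⟨r', hr'⟩ := IsPGroup.iff_card.1 hp
  have e := QuotientGroup.quotientKerEquivRange (χ ^ n')
  refine ⟨(χ ^ n').ker, inferInstance, ?_, ?_, l, r', hl, ?_⟩
  · intro h
    have h1 : (χ g) ^ n' = 1 := h
    exact hn' (hld.trans (orderOf_dvd_iff_pow_eq_one.2 h1))
  · haveI : IsCyclic (χ ^ n').range := inferInstance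
    exact isCyclic_of_surjective e.symm e.symm.surjective
  · rw [Nat.card_congr e.toEquiv, hr']


end CFT
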