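import Mathlib
import Pool.Agent.Lib.H55R.Defs
import Pool.Agent.Lib.CFT.D0

/-! # CFT, module Z, part A: Dirichlet series over the ideals of a number field

A port of Lib/H55N/H3, H4 and Lib/H55R/DD, D1, D2, D3 without their other imports. Ls h s: the Dirichlet series of h at the real
number s. ideal_summable; euler (Euler product, logarithm of the absolute value); log_cmp (comparison of log |L| with the sum over the
primes); zeta_log, zeta_pole (the pole of the zeta function). -/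

open NumberField IsDedekindDomain

namespace CFTZ

open H55R

section base

variable {K : Type} [Field K] [NumberField K]

/-- The general term of a Dirichlet series over the ideals. -/
noncomputable def tm (h : Ideal (𝓞 K) → ℂ) (s : ℂ) (a : Ideal (𝓞 K)) : ℂ :=
  h a * (Ideal.absNorm a : ℂ) ^ (-s)

/-- The general term of a Dirichlet series with completely multiplicative coefficients. -/
noncomputable def tmH (h : Ideal (𝓞 K) →*₀ ℂ) (s : ℂ) : Ideal (𝓞 K) →*₀ ℂ where
  toFun := tm h s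
  map_zero' := by
    unfold tm
    rw [map_zero, zero_mul]
  map_one' := by
    unfold tm
    rw [map_one, map_one, Nat.cast_one, Complex.one_cpow, one_mul]
  map_mul' a b := by
    unfold tm
    rw [map_mul, map_mul, Nat.cast_mul, Complex.natCast_mul_natCast_cpow]
    ring

theorem H3_tendsto : Filter.Tendsto (fun n : ℕ => (∑ k ∈ Finset.Icc 1 n,
    (Nat.card {I : Ideal (𝓞 K) // Ideal.absNorm I = k} : ℝ)) / (n : ℝ)) Filter.atTop
    (nhds (NumberField.dedekindZeta_residue K)) := by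
  refine ((Ideal.tendsto_norm_le_div_atTop₀ K).comp tendsto_natCast_atTop_atTop).congr fun n ↦ ?_
  simp only [Function.comp_apply, Nat.cast_le, ← Nat.cast_sum]
  congr
  rw [← add_left_inj 1, ← Ideal.card_norm_le_eq_card_norm_le_add_one,
    show Finset.Icc 1 n = Finset.Ioc 0 n from Finset.Icc_succ_left_eq_Ioc _ _,
    show 1 = Nat.card {I : Ideal (𝓞 K) // Ideal.absNorm I = 0} by simp [Ideal.absNorm_eq_zero_iff],
    Finset.sum_Ioc_add_eq_sum_Icc (n.zero_le),
    ← Finset.card_preimage_eq_sum_card_image_eq (fun k _ ↦ Ideal.finite_setOfPred_absNorm_eq k)]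
  simp [Set.coe_eq_subtype]

theorem ideal_summable (σ : ℝ) (hσ : 1 < σ) :
    Summable (fun a : Ideal (𝓞 K) => (Ideal.absNorm a : ℝ) ^ (-σ)) := by
  have h0 : LSeriesSummable (fun n => (((Nat.card {I : Ideal (𝓞 K) // Ideal.absNorm I = n} : ℕ) : ℝ) : ℂ))
      (σ : ℂ) := by
    have h1 : 1 < (σ : ℂ).re := by simpa using hσ
    refine LSeriesSummable_of_sum_norm_bigO_and_nonneg (r := 1) ?_ (fun _ => Nat.cast_nonneg _)
      zero_le_one h1
    exact Asymptotics.isBigO_atTop_natCast_rpow_of_tendsto_div_rpow (𝕜 := ℝ) (a := NumberField.dedekindZeta_residue K)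
      (by simpa using (H3_tendsto (K := K)))
  have h2 : Summable (fun n : ℕ =>
      ((Nat.card {I : Ideal (𝓞 K) // Ideal.absNorm I = n} : ℕ) : ℝ) * (n : ℝ) ^ (-σ)) := by
    refine (summable_norm_iff.2 h0).congr fun n => ?_
    rcases Nat.eq_zero_or_pos n with rfl | hn
    · rw [LSeries.term_zero, norm_zero, Nat.cast_zero, Real.zero_rpow (by linarith), mul_zero]
    · rw [LSeries.term_of_ne_zero (by omega), norm_div, Complex.norm_natCast_cpow_of_pos hn,
        Complex.norm_real, Real.norm_of_nonneg (Nat.cast_nonneg _), Complex.ofReal_re,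
        Real.rpow_neg (Nat.cast_nonneg _), div_eq_mul_inv]
  rw [← (Equiv.sigmaFiberEquiv (fun a : Ideal (𝓞 K) => Ideal.absNorm a)).summable_iff]
  have h3 : ∀ n : ℕ, Finite {I : Ideal (𝓞 K) // Ideal.absNorm I = n} := fun n =>
    (Ideal.finite_setOfPred_absNorm_eq n).to_subtype
  rw [summable_sigma_of_nonneg]
  · refine ⟨fun n => Summable.of_finite, h2.congr fun n => ?_⟩
    have := Fintype.ofFinite {I : Ideal (𝓞 K) // Ideal.absNorm I = n}
    rw [tsum_fintype]
    rw [Finset.sum_congr rfl (g := fun _ => (n : ℝ) ^ (-σ))]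
    · rw [Finset.sum_const, Finset.card_univ, Nat.card_eq_fintype_card, nsmul_eq_mul]
    · rintro ⟨I, hI⟩ -
      simp only [Function.comp_apply, Equiv.sigmaFiberEquiv_apply]
      rw [hI]
  · rintro ⟨n, I⟩
    simp only [Function.comp_apply]
    positivity

end base

open Classical in
theorem H4_summable {K : Type} [Field K] [NumberField K] {ι : Type}
    (k : Ideal (𝓞 K) →*₀ ℂ) (hk : Summable fun a => ‖k a‖) (c : ι → Ideal (𝓞 K)) (p : ι → ℂ)
    (S : Finset ι) :
    Summable (fun a => k a * ∏ i ∈ S, (if a ≤ c i then 1 - p i else 1)) := by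
  refine Summable.of_norm_bounded (hk.mul_right (∏ i ∈ S, (1 + ‖p i‖))) fun a => ?_
  rw [norm_mul, norm_prod]
  refine mul_le_mul_of_nonneg_left ?_ (norm_nonneg _)
  refine Finset.prod_le_prod (fun _ _ => norm_nonneg _) fun i _ => ?_
  split_ifs
  · exact (norm_sub_le _ _).trans (by rw [NormOneClass.norm_one])
  · rw [NormOneClass.norm_one]
    linarith [norm_nonneg (p i)]

open Classical in
theorem H4_aux {K : Type} [Field K] [NumberField K] {ι : Type}
    (k : Ideal (𝓞 K) →*₀ ℂ) (hk : Summable fun a => ‖k a‖) (c : ι → Ideal (𝓞 K))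
    (hc : ∀ i, (c i).IsPrime) (hc0 : ∀ i, c i ≠ ⊥) (inj : Function.Injective c) (p : ι → ℂ)
    (S : Finset ι) :
    HasSum (fun a => k a * ∏ i ∈ S, (if a ≤ c i then 1 - p i else 1))
      ((∏ i ∈ S, (1 - p i * k (c i))) * ∑' a, k a) := by
  induction S using Finset.induction_on with
  | empty => simpa using hk.of_norm.hasSum
  | insert j S hj ih =>
    set f : Ideal (𝓞 K) → ℂ := fun a => k a * ∏ i ∈ S, (if a ≤ c i then 1 - p i else 1) with hf
    set g : Ideal (𝓞 K) → ℂ := fun a => if a ≤ c j then f a else 0 with hg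
    have hinj : Function.Injective (fun b : Ideal (𝓞 K) => c j * b) :=
      fun a b h => mul_left_cancel₀ (by simpa using hc0 j) h
    have h1 : ∀ b, g (c j * b) = k (c j) * f b := by
      intro b
      have h2 : c j * b ≤ c j := Ideal.mul_le_left
      simp only [hg, hf]
      rw [if_pos h2, map_mul, mul_assoc]
      congr 2
      refine Finset.prod_congr rfl fun i hi => ?_
      have hij : i ≠ j := fun h => hj (h ▸ hi)
      have h3 : c j * b ≤ c i ↔ b ≤ c i := by
        constructor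
        · intro h
          rcases (hc i).mul_le.1 h with h | h
          · exfalso
            have hmax : (c j).IsMaximal := (hc j).isMaximal (hc0 j)
            have := hmax.eq_of_le (hc i).ne_top h
            exact hij (inj this.symm)
          · exact h
        · intro h
          exact Ideal.mul_le_right.trans h
      simp only [h3]
    have h4 : HasSum g (k (c j) * ((∏ i ∈ S, (1 - p i * k (c i))) * ∑' a, k a)) := by
      rw [← hinj.hasSum_iff]
      · refine (ih.mul_left (k (c j))).congr_fun ?_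
        intro b
        exact h1 b
      · intro a ha
        simp only [hg]
        rw [if_neg]
        intro h
        obtain ⟨b, rfl⟩ := Ideal.dvd_iff_le.2 h
        exact ha ⟨b, rfl⟩
    have h5 := ih.sub (h4.mul_left (p j))
    rw [Finset.prod_insert hj]
    have h6 : (∏ i ∈ S, (1 - p i * k (c i))) * ∑' a, k a -
        p j * (k (c j) * ((∏ i ∈ S, (1 - p i * k (c i))) * ∑' a, k a)) =
        (1 - p j * k (c j)) * (∏ i ∈ S, (1 - p i * k (c i))) * ∑' a, k a := by ring
    rw [h6] at h5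
    refine h5.congr_fun ?_
    intro a
    rw [Finset.prod_insert hj]
    simp only [hg, hf]
    split_ifs <;> ring

section one

variable {K : Type} [Field K] [NumberField K]

/-- The value of the Dirichlet series of h at the real number s. -/
noncomputable def Ls (h : Ideal (𝓞 K) → ℂ) (s : ℝ) : ℂ := ∑' a, tm h s a

theorem dd_two_le (v : Pl K) : 2 ≤ Ideal.absNorm v.asIdeal := by
  have h0 : Ideal.absNorm v.asIdeal ≠ 0 := fun h => v.ne_bot (Ideal.absNorm_eq_zero_iff.1 h)
  have h1 : Ideal.absNorm v.asIdeal ≠ 1 := fun h => v.isPrime.ne_top (Ideal.absNorm_eq_one_iff.1 h)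
  omega

theorem dd_half (v : Pl K) (s : ℝ) (hs : 1 ≤ s) : (Ideal.absNorm v.asIdeal : ℝ) ^ (-s) ≤ 1 / 2 := by
  have h2 : (2 : ℝ) ≤ (Ideal.absNorm v.asIdeal : ℝ) := by exact_mod_cast dd_two_le v
  calc (Ideal.absNorm v.asIdeal : ℝ) ^ (-s) ≤ (Ideal.absNorm v.asIdeal : ℝ) ^ (-1 : ℝ) :=
        Real.rpow_le_rpow_of_exponent_le (by linarith) (by linarith)
    _ = (Ideal.absNorm v.asIdeal : ℝ)⁻¹ := Real.rpow_neg_one _
    _ ≤ 1 / 2 := by
        rw [one_div]
        exact inv_anti₀ (by norm_num) h2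

theorem dd_inj : Function.Injective fun v : Pl K => v.asIdeal := fun _ _ h =>
  HeightOneSpectrum.ext h

theorem dd_summable (s : ℝ) (hs : 1 < s) :
    Summable fun v : Pl K => (Ideal.absNorm v.asIdeal : ℝ) ^ (-s) :=
  (ideal_summable (K := K) s hs).comp_injective dd_inj

theorem dd_norm_tm (h : Ideal (𝓞 K) → ℂ) (s : ℝ) (hs : s ≠ 0) (a : Ideal (𝓞 K)) :
    ‖tm h s a‖ = ‖h a‖ * (Ideal.absNorm a : ℝ) ^ (-s) := by
  unfold tm
  rw [norm_mul, Complex.norm_natCast_cpow_of_re_ne_zero _ (by simpa using hs)]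
  simp

theorem dd_tm_summable (h : Ideal (𝓞 K) → ℂ) (hh : ∀ a, ‖h a‖ ≤ 1) (s : ℝ) (hs : 1 < s) :
    Summable fun a => ‖tm h s a‖ := by
  refine Summable.of_nonneg_of_le (fun _ => norm_nonneg _) (fun a => ?_)
    (ideal_summable (K := K) s hs)
  rw [dd_norm_tm h s (by linarith) a]
  exact mul_le_of_le_one_left (by positivity) (hh a)

theorem dd_norm_pv (φ : Pl K → ℂˣ) (h : ∀ v, ‖(φ v : ℂ)‖ = 1) (a : Ideal (𝓞 K)) :
    ‖(pv φ a : ℂ)‖ = 1 := by
  unfold pv
  have h1 : ∀ s : Multiset ℂˣ, (∀ x ∈ s, ‖(x : ℂ)‖ = 1) → ‖((s.prod : ℂˣ) : ℂ)‖ = 1 := by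
    intro s
    induction s using Multiset.induction_on with
    | empty => simp
    | cons x s ih =>
      intro hx
      rw [Multiset.prod_cons, Units.val_mul, norm_mul, hx x (Multiset.mem_cons_self x s),
        ih fun y hy => hx y (Multiset.mem_cons_of_mem hy), one_mul]
  apply h1
  intro x hx
  rw [Multiset.mem_map] at hx
  obtain ⟨P, -, rfl⟩ := hx
  split_ifs with h2
  · exact h _
  · simp

theorem dd_norm_tI (f : Ideal (𝓞 K)) (φ : Pl K → ℂˣ) (h : ∀ v, ‖(φ v : ℂ)‖ = 1)
    (a : Ideal (𝓞 K)) : ‖tI f φ a‖ ≤ 1 := by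
  by_cases h0 : a ≠ ⊥ ∧ IsCoprime a f
  · rw [tI_apply f φ h0.1 h0.2, dd_norm_pv φ h a]
  · have : tI f φ a = 0 := if_neg h0
    rw [this, norm_zero]
    exact zero_le_one

theorem dd_norm_Y (Y : Subgroup (Pl K → ℂˣ)) [Finite Y] (φ : Pl K → ℂˣ) (hφ : φ ∈ Y) (v : Pl K) :
    ‖(φ v : ℂ)‖ = 1 := by
  have h1 : (⟨φ, hφ⟩ : Y) ^ Nat.card Y = 1 := pow_card_eq_one'
  have h2 : φ ^ Nat.card Y = 1 := congrArg Subtype.val h1
  have h3 : (φ v : ℂ) ^ Nat.card Y = 1 := by
    have := congrFun h2 v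
    rw [Pi.pow_apply, Pi.one_apply] at this
    have h4 := congrArg (Units.val) this
    simpa using h4
  exact Complex.norm_eq_one_of_pow_eq_one h3 Nat.card_pos.ne'

/-- The value at an ideal all of whose primes have value 1. -/
theorem dd_pv_eq_one (φ : Pl K → ℂˣ) (a : Ideal (𝓞 K))
    (h : ∀ v : Pl K, a ≤ v.asIdeal → φ v = 1) : pv φ a = 1 := by
  unfold pv
  refine Multiset.prod_eq_one fun x hx => ?_
  rw [Multiset.mem_map] at hx
  obtain ⟨P, hP, rfl⟩ := hx
  split_ifs with h2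
  · exact h _ (Ideal.dvd_iff_le.1 (UniqueFactorizationMonoid.dvd_of_mem_normalizedFactors hP))
  · rfl

end one

theorem RD1_le {K : Type} [Field K] [NumberField K] (h : Ideal (𝓞 K) →*₀ ℂ)
    (hh : ∀ a, ‖h a‖ ≤ 1) (s : ℝ) (hs : 1 < s) (v : Pl K) : ‖tm h s v.asIdeal‖ ≤ 1 / 2 := by
  rw [dd_norm_tm h s (by linarith)]
  calc ‖h v.asIdeal‖ * (Ideal.absNorm v.asIdeal : ℝ) ^ (-s) ≤
      1 * (Ideal.absNorm v.asIdeal : ℝ) ^ (-s) := by
        gcongr
        exact hh _
    _ ≤ 1 / 2 := by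
        rw [one_mul]
        exact dd_half v s hs.le

theorem RD1_ne {K : Type} [Field K] [NumberField K] (h : Ideal (𝓞 K) →*₀ ℂ)
    (hh : ∀ a, ‖h a‖ ≤ 1) (s : ℝ) (hs : 1 < s) (v : Pl K) : 1 - tm h s v.asIdeal ≠ 0 := by
  intro h0
  have h1 := RD1_le h hh s hs v
  rw [← sub_eq_zero.1 h0, NormOneClass.norm_one] at h1
  norm_num at h1

open Filter Topology Classical in
theorem RD1_lim {K : Type} [Field K] [NumberField K] (h : Ideal (𝓞 K) →*₀ ℂ)
    (hh : ∀ a, ‖h a‖ ≤ 1) (s : ℝ) (hs : 1 < s) :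
    Tendsto (fun S : Finset (Pl K) => (∏ v ∈ S, (1 - tm h s v.asIdeal)) * Ls h s) atTop (𝓝 1) := by
  set k : Ideal (𝓞 K) →*₀ ℂ := tmH h s with hk
  have hkv : ∀ a, k a = tm h s a := fun _ => rfl
  have hsum : Summable fun a => ‖k a‖ := dd_tm_summable h hh s hs
  have h1 : ∀ S : Finset (Pl K), ∑' a, k a * ∏ v ∈ S, (if a ≤ v.asIdeal then (1 : ℂ) - 1 else 1) =
      (∏ v ∈ S, (1 - tm h s v.asIdeal)) * Ls h s := by
    intro S
    have h2 := H4_aux k hsum (fun v : Pl K => v.asIdeal) (fun v => v.isPrime) (fun v => v.ne_bot)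
      dd_inj (fun _ => 1) S
    rw [h2.tsum_eq]
    simp only [one_mul]
    rfl
  have h3 : Tendsto (fun S : Finset (Pl K) =>
      ∑' a, k a * ∏ v ∈ S, (if a ≤ v.asIdeal then (1 : ℂ) - 1 else 1)) atTop
      (𝓝 (∑' a : Ideal (𝓞 K), if a = 1 then (1 : ℂ) else 0)) := by
    refine tendsto_tsum_of_dominated_convergence hsum ?_ ?_
    · intro a
      by_cases ha : a = 1
      · subst ha
        rw [if_pos rfl]
        refine tendsto_const_nhds.congr fun S => ?_
        rw [map_one, one_mul]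
        refine (Finset.prod_eq_one fun v _ => ?_).symm
        rw [if_neg]
        intro h4
        rw [Ideal.one_eq_top, top_le_iff] at h4
        exact v.isPrime.ne_top h4
      · rw [if_neg ha]
        by_cases ha0 : a = ⊥
        · refine tendsto_const_nhds.congr fun S => ?_
          have h5 : k a = 0 := by
            rw [ha0]
            exact map_zero k
          rw [h5, zero_mul]
        · have h6 : a ≠ ⊤ := by
            rw [← Ideal.one_eq_top]
            exact ha
          obtain ⟨m, hm, ham⟩ := Ideal.exists_le_maximal a h6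
          have hm0 : m ≠ ⊥ := by
            rintro rfl
            exact ha0 (le_bot_iff.1 ham)
          refine tendsto_const_nhds.congr' ?_
          filter_upwards [eventually_ge_atTop {(⟨m, hm.isPrime, hm0⟩ : Pl K)}] with S hS
          have h7 : (⟨m, hm.isPrime, hm0⟩ : Pl K) ∈ S := hS (Finset.mem_singleton_self _)
          rw [Finset.prod_eq_zero h7, mul_zero]
          rw [if_pos ham, sub_self]
    · refine Eventually.of_forall fun S a => ?_
      rw [norm_mul, norm_prod]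
      refine mul_le_of_le_one_right (norm_nonneg _) ?_
      refine Finset.prod_le_one (fun _ _ => norm_nonneg _) fun v _ => ?_
      split_ifs
      · rw [sub_self, norm_zero]
        exact zero_le_one
      · rw [NormOneClass.norm_one]
  rw [tsum_ite_eq] at h3
  exact h3.congr h1

/-- Chunk RD1 (M), the Euler product. k = tmH h s (multiplicative, norm summable: dd_tm_summable). For a finset S of primes, H4_aux (or smooth_sum) with
index type Pl K, c v = v.asIdeal, p = 1 gives: the sum over a of k a * prod over v in S of (if a <= v then 0 else 1) is (prod over S of (1 - k v)) * L. When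
S runs over the finsets (atTop) the left side tends to k 1 = 1: tendsto_tsum_of_dominated_convergence with the bound |k a|; for a = 1 = top all factors are
1 (a prime is not top); for a = bot k a = 0; any other a is contained in a maximal ideal v (Ideal.exists_le_maximal), nonzero since a <> bot, so the term is 0 as soon
as v is in S (Filter.eventually_ge_atTop {v}). So (prod over S of (1 - k v)) * L tends to 1; hence L <> 0 and |prod over S of (1 - k v)| tends to 1 / |L| and
the sum over S of -log |1 - k v| = -log |prod| tends to log |L| (Real.log_prod needs 1 - k v <> 0: |k v| <= 1/2 by dd_norm_tm, dd_half; continuity of log at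
1/|L| > 0). HasSum is the convergence along the finsets. -/
theorem euler {K : Type} [Field K] [NumberField K] (h : Ideal (𝓞 K) →*₀ ℂ)
    (hh : ∀ a, ‖h a‖ ≤ 1) (s : ℝ) (hs : 1 < s) :
    Ls h s ≠ 0 ∧
      HasSum (fun v : Pl K => -Real.log ‖1 - tm h s v.asIdeal‖) (Real.log ‖Ls h s‖) := by
  have h1 := RD1_lim h hh s hs
  have hL : Ls h s ≠ 0 := by
    intro h0
    rw [h0] at h1
    simp only [mul_zero] at h1
    exact zero_ne_one (tendsto_nhds_unique tendsto_const_nhds h1)
  refine ⟨hL, ?_⟩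
  have h2 : Filter.Tendsto (fun S : Finset (Pl K) => ∏ v ∈ S, (1 - tm h s v.asIdeal))
      Filter.atTop (nhds (Ls h s)⁻¹) := by
    have h3 := h1.mul_const (Ls h s)⁻¹
    rw [one_mul] at h3
    refine h3.congr fun S => ?_
    rw [mul_assoc, mul_inv_cancel₀ hL, mul_one]
  have h4 := (h2.norm.log (norm_ne_zero_iff.2 (inv_ne_zero hL))).neg
  rw [norm_inv, Real.log_inv, neg_neg] at h4
  unfold HasSum
  rw [SummationFilter.unconditional_filter]
  refine h4.congr fun S => ?_
  rw [norm_prod, Real.log_prod fun v _ => norm_ne_zero_iff.2 (RD1_ne h hh s hs v),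
    Finset.sum_neg_distrib]

theorem RD2_re {K : Type} [Field K] [NumberField K] (h : Ideal (𝓞 K) →*₀ ℂ) (s : ℝ)
    (a : Ideal (𝓞 K)) : (tm h s a).re = (h a).re * (Ideal.absNorm a : ℝ) ^ (-s) := by
  unfold tm
  have h1 : ((Ideal.absNorm a : ℂ) ^ (-(s : ℂ))) = (((Ideal.absNorm a : ℝ) ^ (-s) : ℝ) : ℂ) := by
    rw [Complex.ofReal_cpow (Nat.cast_nonneg _)]
    push_cast
    rfl
  rw [h1, Complex.re_mul_ofReal]

theorem RD2_term {K : Type} [Field K] [NumberField K] (h : Ideal (𝓞 K) →*₀ ℂ)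
    (hh : ∀ a, ‖h a‖ ≤ 1) (s : ℝ) (hs : 1 < s) (v : Pl K) :
    |(h v.asIdeal).re * (Ideal.absNorm v.asIdeal : ℝ) ^ (-s) -
      (-Real.log ‖1 - tm h s v.asIdeal‖)| ≤ (Ideal.absNorm v.asIdeal : ℝ) ^ (-2 : ℝ) := by
  have h0 := RD1_le h hh s hs v
  set z := tm h s v.asIdeal with hz
  have h1 : ‖Complex.log (1 + -z) - -z‖ ≤ ‖z‖ ^ 2 := by
    have h2 := Complex.norm_log_one_add_sub_self_le (z := -z) (by rw [norm_neg]; linarith)
    rw [norm_neg] at h2
    refine h2.trans ?_
    have h3 : (1 - ‖z‖)⁻¹ ≤ 2 := by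
      rw [inv_le_comm₀ (by linarith) (by norm_num)]
      linarith
    have h4 : 0 ≤ ‖z‖ ^ 2 := sq_nonneg _
    nlinarith
  have h5 : (h v.asIdeal).re * (Ideal.absNorm v.asIdeal : ℝ) ^ (-s) -
      (-Real.log ‖1 - z‖) = (Complex.log (1 + -z) - -z).re := by
    rw [← RD2_re, Complex.sub_re, Complex.log_re, ← sub_eq_add_neg, Complex.neg_re]
    ring
  rw [h5]
  refine (Complex.abs_re_le_norm _).trans (h1.trans ?_)
  have h6 : (0 : ℝ) ≤ (Ideal.absNorm v.asIdeal : ℝ) := Nat.cast_nonneg _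
  have h2 : (2 : ℝ) ≤ (Ideal.absNorm v.asIdeal : ℝ) := by exact_mod_cast dd_two_le v
  have h7 : ‖z‖ ≤ (Ideal.absNorm v.asIdeal : ℝ) ^ (-s) := by
    rw [hz, dd_norm_tm h s (by linarith)]
    exact mul_le_of_le_one_left (by positivity) (hh _)
  calc ‖z‖ ^ 2 ≤ ((Ideal.absNorm v.asIdeal : ℝ) ^ (-s)) ^ 2 :=
        pow_le_pow_left₀ (norm_nonneg _) h7 2
    _ = (Ideal.absNorm v.asIdeal : ℝ) ^ (-s * 2) := by
        rw [Real.rpow_mul h6]
        norm_num
    _ ≤ (Ideal.absNorm v.asIdeal : ℝ) ^ (-2 : ℝ) :=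
        Real.rpow_le_rpow_of_exponent_le (by linarith) (by linarith)

/-- Chunk RD2 (S), logarithms. With z = tm h s v, |z| <= Nv^(-s) <= 1/2 (dd_norm_tm, dd_half): |-log |1 - z| - Re z| <= |log(1 - z) + z| <= |z|^2
(real part of the complex logarithm, Complex.log_re; Complex.norm_log_one_add_sub_self_le with z replaced by -z) and |z|^2 <= Nv^(-2s) <= Nv^(-2).
Re z = Re (h v) * Nv^(-s) (the power is a positive real number). Sum over v: euler, dd_summable; C is the sum of Nv^(-2) (tsum of a difference,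
norm of a tsum <= tsum of the bounds). Both series converge: Re (h v) Nv^(-s) is bounded by Nv^(-s). -/
theorem log_cmp (K : Type) [Field K] [NumberField K] : ∃ C : ℝ, ∀ h : Ideal (𝓞 K) →*₀ ℂ,
    (∀ a, ‖h a‖ ≤ 1) → ∀ s ∈ Set.Ioc (1 : ℝ) 2,
      |∑' v : Pl K, (h v.asIdeal).re * (Ideal.absNorm v.asIdeal : ℝ) ^ (-s) -
        Real.log ‖Ls h s‖| ≤ C := by
  refine ⟨∑' v : Pl K, (Ideal.absNorm v.asIdeal : ℝ) ^ (-2 : ℝ), fun h hh s hs => ?_⟩
  have h2 : Summable fun v : Pl K => (Ideal.absNorm v.asIdeal : ℝ) ^ (-2 : ℝ) :=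
    dd_summable 2 (by norm_num)
  have h3 := (euler h hh s hs.1).2
  have h4 : Summable fun v : Pl K => (h v.asIdeal).re * (Ideal.absNorm v.asIdeal : ℝ) ^ (-s) := by
    refine Summable.of_norm_bounded (dd_summable (K := K) s hs.1) fun v => ?_
    rw [norm_mul, Real.norm_eq_abs, Real.norm_of_nonneg (by positivity)]
    exact mul_le_of_le_one_left (by positivity) ((Complex.abs_re_le_norm _).trans (hh _))
  rw [← h3.tsum_eq, ← h4.tsum_sub h3.summable, ← Real.norm_eq_abs]
  exact tsum_of_norm_bounded h2.hasSum fun v => RD2_term h hh s hs.1 v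

theorem RD3_zeta {K : Type} [Field K] [NumberField K] (s : ℝ) (hs : 1 < s) :
    dedekindZeta K s = ((∑' a : Ideal (𝓞 K), (Ideal.absNorm a : ℝ) ^ (-s) : ℝ) : ℂ) := by
  have h0 := ideal_summable (K := K) s hs
  have h1 : HasSum (fun p : Σ n : ℕ, {a : Ideal (𝓞 K) // Ideal.absNorm a = n} =>
      (((Ideal.absNorm p.2.1 : ℝ) ^ (-s) : ℝ) : ℂ))
      ((∑' a : Ideal (𝓞 K), (Ideal.absNorm a : ℝ) ^ (-s) : ℝ) : ℂ) := by
    have h2 := (Equiv.sigmaFiberEquiv (fun a : Ideal (𝓞 K) => Ideal.absNorm a)).hasSum_iff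
      (f := fun a : Ideal (𝓞 K) => (((Ideal.absNorm a : ℝ) ^ (-s) : ℝ) : ℂ))
      (a := ((∑' a : Ideal (𝓞 K), (Ideal.absNorm a : ℝ) ^ (-s) : ℝ) : ℂ))
    exact h2.2 (Complex.hasSum_ofReal.2 h0.hasSum)
  have h2 : HasSum (LSeries.term (fun n => (Nat.card {I : Ideal (𝓞 K) // Ideal.absNorm I = n} : ℂ)) s)
      ((∑' a : Ideal (𝓞 K), (Ideal.absNorm a : ℝ) ^ (-s) : ℝ) : ℂ) := by
    refine h1.sigma fun n => ?_
    have hfin : Finite {a : Ideal (𝓞 K) // Ideal.absNorm a = n} :=
      Ideal.finite_setOfPred_absNorm_eq n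
    let _ : Fintype {a : Ideal (𝓞 K) // Ideal.absNorm a = n} := Fintype.ofFinite _
    have h3 : LSeries.term (fun n => (Nat.card {I : Ideal (𝓞 K) // Ideal.absNorm I = n} : ℂ)) s n =
        ∑ a : {a : Ideal (𝓞 K) // Ideal.absNorm a = n},
          (((Ideal.absNorm a.1 : ℝ) ^ (-s) : ℝ) : ℂ) := by
      rw [Finset.sum_congr rfl (g := fun _ => (((n : ℝ) ^ (-s) : ℝ) : ℂ))
        (fun a _ => by rw [a.2]), Finset.sum_const, Finset.card_univ, ← Nat.card_eq_fintype_card,
        nsmul_eq_mul]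
      rcases Nat.eq_zero_or_pos n with rfl | hn
      · rw [LSeries.term_zero, Nat.cast_zero, Real.zero_rpow (by linarith), Complex.ofReal_zero,
          mul_zero]
      · rw [LSeries.term_of_ne_zero (by omega), div_eq_mul_inv, ← Complex.cpow_neg,
          Complex.ofReal_cpow (Nat.cast_nonneg _)]
        push_cast
        rfl
    rw [h3]
    exact hasSum_fintype _
  exact h2.tsum_eq

theorem RD3_one {K : Type} [Field K] [NumberField K] (s : ℝ) (hs : 1 < s) :
    1 ≤ ∑' a : Ideal (𝓞 K), (Ideal.absNorm a : ℝ) ^ (-s) := by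
  have h1 := (ideal_summable (K := K) s hs).le_tsum (1 : Ideal (𝓞 K)) fun _ _ => by positivity
  rw [map_one, Nat.cast_one, Real.one_rpow] at h1
  exact h1

theorem RD3_anti {K : Type} [Field K] [NumberField K] {s t : ℝ} (hs : 1 < s) (hst : s ≤ t) :
    ∑' a : Ideal (𝓞 K), (Ideal.absNorm a : ℝ) ^ (-t) ≤
      ∑' a : Ideal (𝓞 K), (Ideal.absNorm a : ℝ) ^ (-s) := by
  refine Summable.tsum_le_tsum (fun a => ?_) (ideal_summable (K := K) t (by linarith))
    (ideal_summable (K := K) s hs)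
  rcases Nat.eq_zero_or_pos (Ideal.absNorm a) with h0 | h0
  · rw [h0, Nat.cast_zero, Real.zero_rpow (by linarith), Real.zero_rpow (by linarith)]
  · have h1 : (1 : ℝ) ≤ (Ideal.absNorm a : ℝ) := by exact_mod_cast h0
    exact Real.rpow_le_rpow_of_exponent_le h1 (by linarith)

open Filter Topology in
theorem RD3_bd (K : Type) [Field K] [NumberField K] : ∃ A B : ℝ, 0 < A ∧
    ∀ s ∈ Set.Ioc (1 : ℝ) 2,
      A ≤ (s - 1) * ∑' a : Ideal (𝓞 K), (Ideal.absNorm a : ℝ) ^ (-s) ∧
      (s - 1) * ∑' a : Ideal (𝓞 K), (Ideal.absNorm a : ℝ) ^ (-s) ≤ B := by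
  have hκ := dedekindZeta_residue_pos K
  set κ := dedekindZeta_residue K with hk
  have h1 : Tendsto (fun s : ℝ => (s - 1) * ∑' a : Ideal (𝓞 K), (Ideal.absNorm a : ℝ) ^ (-s))
      (𝓝[>] 1) (𝓝 κ) := by
    have h2 := (Complex.continuous_re.tendsto _).comp (tendsto_sub_one_mul_dedekindZeta_nhdsGT K)
    rw [Complex.ofReal_re] at h2
    refine h2.congr' ?_
    filter_upwards [self_mem_nhdsWithin] with s hs
    show ((s - 1 : ℂ) * dedekindZeta K s).re = _
    rw [RD3_zeta s hs]
    rw [show ((s : ℂ) - 1) = ((s - 1 : ℝ) : ℂ) by push_cast; rfl, ← Complex.ofReal_mul,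
      Complex.ofReal_re]
  have h3 : ∀ᶠ s in 𝓝[>] (1 : ℝ),
      (s - 1) * ∑' a : Ideal (𝓞 K), (Ideal.absNorm a : ℝ) ^ (-s) ∈ Set.Icc (κ / 2) (2 * κ) :=
    h1 (Icc_mem_nhds (by linarith) (by linarith))
  obtain ⟨u, hu, hu2⟩ := (mem_nhdsGT_iff_exists_Ioo_subset).1 h3
  have hu1 : (1 : ℝ) < u := hu
  obtain ⟨d, hd⟩ : ∃ d, d = min ((u - 1) / 2) 1 := ⟨_, rfl⟩
  have hd0 : 0 < d := by rw [hd]; exact lt_min (by linarith) one_pos
  have hdu : d < u - 1 := by rw [hd]; exact (min_le_left _ _).trans_lt (by linarith)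
  refine ⟨min (κ / 2) d, max (2 * κ)
    (∑' a : Ideal (𝓞 K), (Ideal.absNorm a : ℝ) ^ (-(1 + d))), lt_min (by linarith) hd0,
    fun s hs => ?_⟩
  have hs1 : 1 < s := hs.1
  have hs2 : s ≤ 2 := hs.2
  by_cases hsd : s < 1 + d
  · have h4 : s ∈ Set.Ioo 1 u := ⟨hs1, by linarith⟩
    have h5 := hu2 h4
    exact ⟨(min_le_left _ _).trans h5.1, h5.2.trans (le_max_left _ _)⟩
  · push Not at hsd
    have h6 := RD3_one (K := K) s hs1
    have h7 := RD3_anti (K := K) (s := 1 + d) (t := s) (by linarith) hsd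
    constructor
    · refine (min_le_right _ _).trans ?_
      nlinarith
    · refine le_trans ?_ (le_max_right _ _)
      nlinarith

/-- Chunk RD3 (M), the pole of the zeta function. Z s = sum over the ideals of Na^(-s) (the zero ideal contributes 0). For s > 1, Z s (as a complex number) is
dedekindZeta K s, the L-series of the numbers of ideals of norm n (sum over the fibres of the norm; see the proof of ideal_summable in H55N/H3.lean, or AI_LSeries
in H55N/H6.lean for the pattern), and (s - 1) * dedekindZeta K s tends to the residue, which is positive (NumberField.tendsto_sub_one_mul_dedekindZeta_nhdsGT,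
NumberField.dedekindZeta_residue_pos). Z is antitone on s > 1 (each term is, Na >= 1 or Na = 0; Summable.tsum_le_tsum) and Z s >= 1 (the term of the unit ideal). Near 1:
there is d in (0,1) with residue/2 <= (s-1) Z s <= 2 residue for s in (1, 1 + d); for s in [1 + d, 2]: d * 1 <= (s - 1) Z s <= Z (1 + d). So
(s - 1) Z s lies in a fixed interval [A, B], 0 < A, and log Z s - log (1/(s-1)) = log ((s - 1) Z s) lies in [log A, log B]. -/
theorem zeta_log (K : Type) [Field K] [NumberField K] : ∃ C : ℝ, ∀ s ∈ Set.Ioc (1 : ℝ) 2,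
    0 < ∑' a : Ideal (𝓞 K), (Ideal.absNorm a : ℝ) ^ (-s) ∧
    |Real.log (∑' a : Ideal (𝓞 K), (Ideal.absNorm a : ℝ) ^ (-s)) - Real.log (1 / (s - 1))| ≤ C := by
  obtain ⟨A, B, hA, hAB⟩ := RD3_bd K
  refine ⟨|Real.log A| + |Real.log B|, fun s hs => ?_⟩
  have h1 := RD3_one (K := K) s hs.1
  have hs1 : 0 < s - 1 := sub_pos.2 hs.1
  refine ⟨by linarith, ?_⟩
  obtain ⟨h2, h3⟩ := hAB s hs
  rw [one_div, Real.log_inv, sub_neg_eq_add, add_comm, ← Real.log_mul hs1.ne' (by linarith)]
  have h4 := Real.log_le_log hA h2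
  have h5 := Real.log_le_log (hA.trans_le h2) h3
  rw [abs_le]
  constructor
  · linarith [neg_abs_le (Real.log A), abs_nonneg (Real.log B)]
  · linarith [le_abs_self (Real.log B), abs_nonneg (Real.log A)]

/-- The pole of the zeta function. -/
theorem zeta_pole (K : Type) [Field K] [NumberField K] : ∃ B : ℝ, ∀ s ∈ Set.Ioc (1 : ℝ) 2,
    (s - 1) * ∑' a : Ideal (𝓞 K), (Ideal.absNorm a : ℝ) ^ (-s) ≤ B := by
  obtain ⟨A, B, hA, hAB⟩ := RD3_bd K
  exact ⟨B, fun s hs => (hAB s hs).2⟩

end CFTZ
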