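import Mathlib
import Pool.Agent.Lib.CFT.ZA

/-! # CFT, module Y: L-series of Hecke characters beyond the abscissa of convergence (definitions)

`dg K`: the degree. `house x`: the largest absolute value of a conjugate (Mathlib). `nm x`: the absolute value
of the norm. `Cl δ x y`: `y` is close to `x` in every embedding, with relative error `δ`. `LL G`: `G` is
Lipschitz for this relation. `Bd G`: `G` is bounded. `Rg A x`: `x ≠ 0` and the absolute values of all conjugates of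
`x` are comparable. `TP x`: `x ≠ 0` is positive at all real embeddings. `RU m`: the totally positive units
`≡ 1` modulo `m`. `Fs g s x = g x * nm x ^ (-s)`. `HCh m ψ χ`: `χ` is a (unitary) Hecke character modulo `m` with
values `ψ x` at the principal ideals `(x)`, `x ≡ 1` modulo `m` totally positive. `Lc χ s`: its L-series. -/

open NumberField

namespace CFTY

variable {K : Type} [Field K] [NumberField K]

variable (K) in
/-- the degree of K -/
noncomputable def dg : ℕ := Module.finrank ℚ K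

/-- the absolute value of the norm -/
noncomputable def nm (x : K) : ℝ := |((Algebra.norm ℚ x : ℚ) : ℝ)|

/-- relative closeness in all embeddings -/
def Cl (δ : ℝ) (x y : K) : Prop := ∀ σ : K →+* ℂ, ‖σ y - σ x‖ ≤ δ * ‖σ x‖

/-- Lipschitz with respect to relative closeness -/
def LL (G : K → ℂ) : Prop := ∃ L : ℝ, 0 ≤ L ∧ ∀ (δ : ℝ) (x y : K), 0 ≤ δ → δ ≤ 1 / 2 → x ≠ 0 →
  Cl δ x y → ‖G y - G x‖ ≤ L * δ

/-- bounded -/
def Bd (G : K → ℂ) : Prop := ∃ B : ℝ, 0 ≤ B ∧ ∀ x, ‖G x‖ ≤ B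

/-- the region where all conjugates are comparable -/
def Rg (A : ℝ) (x : K) : Prop := x ≠ 0 ∧ house x ^ dg K ≤ A * nm x

/-- nonzero and totally positive -/
def TP (x : K) : Prop := x ≠ 0 ∧ ∀ φ : K →+* ℝ, 0 < φ x

theorem TP.mul {x y : K} (hx : TP x) (hy : TP y) : TP (x * y) :=
  ⟨mul_ne_zero hx.1 hy.1, fun φ => by rw [map_mul]; exact mul_pos (hx.2 φ) (hy.2 φ)⟩

theorem TP.inv {x : K} (hx : TP x) : TP x⁻¹ :=
  ⟨inv_ne_zero hx.1, fun φ => by rw [map_inv₀]; exact inv_pos.2 (hx.2 φ)⟩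

theorem TP_one : TP (1 : K) := ⟨one_ne_zero, fun φ => by rw [map_one]; exact one_pos⟩

/-- the totally positive units which are 1 modulo m -/
def RU (m : Ideal (𝓞 K)) : Subgroup (𝓞 K)ˣ where
  carrier := {u | (u : 𝓞 K) - 1 ∈ m ∧ TP ((u : 𝓞 K) : K)}
  mul_mem' := by
    rintro u v ⟨h1, h2⟩ ⟨h3, h4⟩
    refine ⟨?_, ?_⟩
    · have e : ((u * v : (𝓞 K)ˣ) : 𝓞 K) - 1 = ((u : 𝓞 K) - 1) * v + ((v : 𝓞 K) - 1) := by
        rw [Units.val_mul]
        ring
      rw [e]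
      exact m.add_mem (m.mul_mem_right _ h1) h3
    · have e : (((u * v : (𝓞 K)ˣ) : 𝓞 K) : K) = ((u : 𝓞 K) : K) * ((v : 𝓞 K) : K) := rfl
      rw [e]
      exact h2.mul h4
  one_mem' := by
    refine ⟨?_, ?_⟩
    · rw [Units.val_one, sub_self]
      exact m.zero_mem
    · exact TP_one
  inv_mem' := by
    rintro u ⟨h1, h2⟩
    refine ⟨?_, ?_⟩
    · have e : ((u⁻¹ : (𝓞 K)ˣ) : 𝓞 K) - 1 = -(((u : 𝓞 K) - 1) * ((u⁻¹ : (𝓞 K)ˣ) : 𝓞 K)) := by
        have h : (u : 𝓞 K) * ((u⁻¹ : (𝓞 K)ˣ) : 𝓞 K) = 1 := Units.mul_inv u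
        linear_combination h
      rw [e]
      exact m.neg_mem (m.mul_mem_right _ h1)
    · have h : ((u : 𝓞 K) : K) * (((u⁻¹ : (𝓞 K)ˣ) : 𝓞 K) : K) = 1 :=
        congrArg (algebraMap (𝓞 K) K) (Units.mul_inv u)
      have e : (((u⁻¹ : (𝓞 K)ˣ) : 𝓞 K) : K) = ((u : 𝓞 K) : K)⁻¹ := (inv_eq_of_mul_eq_one_right h).symm
      rw [e]
      exact h2.inv

theorem mem_RU {m : Ideal (𝓞 K)} {u : (𝓞 K)ˣ} : u ∈ RU m ↔ (u : 𝓞 K) - 1 ∈ m ∧ TP ((u : 𝓞 K) : K) := Iff.rfl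

/-- the function which is summed over the lattice -/
noncomputable def Fs (g : K → ℂ) (s : ℂ) (x : K) : ℂ := g x * (nm x : ℂ) ^ (-s)

/-- the principal ideals (x), x = 1 mod m totally positive -/
def PrI (m a : Ideal (𝓞 K)) : Prop := ∃ x : 𝓞 K, x - 1 ∈ m ∧ TP (x : K) ∧ a = Ideal.span {x}

/-- unitary Hecke characters modulo m with infinity type ψ -/
structure HCh (m : Ideal (𝓞 K)) (ψ : K → ℂ) (χ : Ideal (𝓞 K) →*₀ ℂ) : Prop where
  zero : ∀ a, ¬ IsCoprime a m → χ a = 0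
  norm : ∀ a, a ≠ ⊥ → IsCoprime a m → ‖χ a‖ = 1
  ray : ∀ x : 𝓞 K, x - 1 ∈ m → TP (x : K) → χ (Ideal.span {x}) = ψ x

/-- the L-series -/
noncomputable def Lc (χ : Ideal (𝓞 K) →*₀ ℂ) (s : ℂ) : ℂ := ∑' a, CFTZ.tm χ s a

/-- a system of representatives of the ray classes: every ideal prime to m becomes PrI after multiplication with
exactly one member of T -/
def Reps (m : Ideal (𝓞 K)) (T : Finset (Ideal (𝓞 K))) : Prop :=
  (∀ c ∈ T, c ≠ ⊥ ∧ IsCoprime c m) ∧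
    ∀ a : Ideal (𝓞 K), a ≠ ⊥ → IsCoprime a m → ∃! c, c ∈ T ∧ PrI m (a * c)

variable (K) in
/-- the half plane of analyticity -/
def HP : Set ℂ := {s | 1 - 1 / (dg K : ℝ) < s.re}

/-- the infinity types -/
noncomputable def typ (n : (K →+* ℂ) → ℤ) (x : K) : ℂ := ∏ σ : K →+* ℂ, (σ x / (‖σ x‖ : ℂ)) ^ n σ

open Classical in
/-- the cut-off function -/
noncomputable def ph (C : ℝ) (x : K) : ℝ := if x = 0 then 0 else max 0 (2 * C - house x ^ dg K / nm x)

/-- the sum of the cut-off function over a group of units -/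
noncomputable def Wt (C : ℝ) (E : Subgroup (𝓞 K)ˣ) (x : K) : ℝ :=
  ∑' u : E, ph C (((u : (𝓞 K)ˣ) : 𝓞 K) * x)

end CFTY
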