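import Mathlib
import Pool.Agent.Lib.CFT.ZA

/-! # CFT, module Z: ray class characters and their Dirichlet series (definitions, first lemmas)

cphi χ v: the value of the character χ of Dv K at the prime v. chI S χ: the character on the ideals (0 at the ideals which are 0 or divisible by
a prime in S, otherwise the product of the values at the prime factors). Its Dirichlet series is Ls (chI S χ) s. -/

open NumberField IsDedekindDomain

namespace CFTZ

open H55R CFT

variable {K : Type} [Field K] [NumberField K]

/-- The product of the primes in S. -/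
noncomputable def SI (S : Finset (Pr K)) : Ideal (𝓞 K) := ∏ v ∈ S, v.asIdeal

/-- The values of a character of the group of divisors at the primes. -/
noncomputable def cphi (χ : Dv K →+ Additive ℂˣ) (v : Pr K) : ℂˣ := (χ (Finsupp.single v 1)).toMul

/-- The character on the ideals, 0 for the ideals divisible by a prime in S. -/
noncomputable def chI (S : Finset (Pr K)) (χ : Dv K →+ Additive ℂˣ) : Ideal (𝓞 K) →*₀ ℂ := tI (SI S) (cphi χ)

theorem SI_ne (S : Finset (Pr K)) : SI S ≠ ⊥ := by
  unfold SI
  exact Finset.prod_ne_zero_iff.2 fun v _ => v.ne_bot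

/-- The primes containing the product of the primes in S are the primes in S. -/
theorem SI_le (S : Finset (Pr K)) (v : Pr K) : SI S ≤ v.asIdeal ↔ v ∈ S := by
  have hp := v.isPrime
  unfold SI
  rw [hp.prod_le]
  constructor
  · rintro ⟨w, hw, h⟩
    have h1 := w.isMaximal.eq_of_le hp.ne_top h
    have h2 : w = v := HeightOneSpectrum.ext h1
    rwa [← h2]
  · intro h
    exact ⟨v, h, le_rfl⟩

/-- A prime is coprime to the product of the primes in S iff it is not in S. -/
theorem cop_iff (S : Finset (Pr K)) (v : Pr K) : IsCoprime v.asIdeal (SI S) ↔ v ∉ S := by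
  rw [Ideal.isCoprime_iff_sup_eq, ← SI_le]
  constructor
  · intro h hf
    rw [sup_eq_left.2 hf] at h
    exact v.isPrime.ne_top h
  · intro h
    by_contra hne
    apply h
    have h1 := v.isMaximal.eq_of_le hne le_sup_left
    rw [h1]
    exact le_sup_right

theorem chI_prime (S : Finset (Pr K)) (χ : Dv K →+ Additive ℂˣ) {v : Pr K} (h : v ∉ S) :
    chI S χ v.asIdeal = (cphi χ v : ℂ) := by
  unfold chI
  rw [tI_apply _ _ v.ne_bot ((cop_iff S v).2 h), pv_prime]

theorem chI_prime_mem (S : Finset (Pr K)) (χ : Dv K →+ Additive ℂˣ) {v : Pr K} (h : v ∈ S) :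
    chI S χ v.asIdeal = 0 := by
  unfold chI
  exact tI_zero _ _ fun h' => (cop_iff S v).1 h' h

/-- A character is the product of the values at the primes. -/
theorem chi_apply (χ : Dv K →+ Additive ℂˣ) (D : Dv K) : (χ D).toMul = D.prod fun v n => cphi χ v ^ n := by
  induction D using Finsupp.induction_linear with
  | zero => rw [map_zero, toMul_zero, Finsupp.prod_zero_index]
  | add D E hD hE =>
    rw [map_add, toMul_add, hD, hE, Finsupp.prod_add_index']
    · intro v
      exact zpow_zero _
    · intro v a b
      exact zpow_add _ _ _
  | single v n =>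
    rw [Finsupp.prod_single_index (zpow_zero _)]
    have h : (Finsupp.single v n : Dv K) = n • Finsupp.single v 1 := by
      rw [Finsupp.smul_single, smul_eq_mul, mul_one]
    rw [h, map_zsmul, toMul_zsmul]
    rfl

/-- Characters with the same values at the primes are equal. -/
theorem chi_ext {χ ψ : Dv K →+ Additive ℂˣ} (h : ∀ v, cphi χ v = cphi ψ v) : χ = ψ := by
  refine AddMonoidHom.ext fun D => ?_
  apply Additive.toMul.injective
  rw [chi_apply, chi_apply]
  exact Finsupp.prod_congr fun v _ => by rw [h]

end CFTZ
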