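import Mathlib
import Pool.Agent.Lib.CFT.YDefs
import Pool.Agent.Lib.CFT.D2
import Pool.Agent.Lib.CFT.ZD

/-! # CFT, module Y: the modulus of the ray Ray S N (definition) -/

open NumberField IsDedekindDomain

namespace CFTY

open CFT

variable {K : Type} [Field K] [NumberField K]

/-- the product of the v^(N+1), v in S -/
noncomputable def mI (S : Finset (Pr K)) (N : ℕ) : Ideal (𝓞 K) := ∏ v ∈ S, v.asIdeal ^ (N + 1)

theorem mI_ne (S : Finset (Pr K)) (N : ℕ) : mI S N ≠ ⊥ := by
  unfold mI
  exact Finset.prod_ne_zero_iff.2 fun v _ => pow_ne_zero _ v.ne_bot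

end CFTY
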