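import Mathlib
import Pool.Agent.Lib.CFT.YMod
import Pool.Agent.Lib.CFT.B01

/-! # CFT module Y, chunk Y25: the modulus -/

open NumberField IsDedekindDomain

namespace CFTY

open CFT

variable {K : Type} [Field K] [NumberField K]

theorem y25_max (v : Pr K) (a : Ideal (𝓞 K)) : IsCoprime a v.asIdeal ↔ ¬ a ≤ v.asIdeal := by
  have hv : v.asIdeal.IsMaximal := v.isMaximal
  rw [Ideal.isCoprime_iff_sup_eq]
  constructor
  · intro h h1
    rw [sup_eq_right.2 h1] at h
    exact hv.ne_top h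
  · intro h
    by_contra hcon
    exact h (le_sup_left.trans (hv.eq_of_le hcon le_sup_right).ge)

/-- PROOF. `IsCoprime.prod_right_iff`, `IsCoprime.pow_right_iff`; for a maximal ideal `v`: `IsCoprime a v ↔ ¬ a ≤ v`. -/
theorem cop_mI (S : Finset (Pr K)) (N : ℕ) (a : Ideal (𝓞 K)) : IsCoprime a (mI S N) ↔ ∀ v ∈ S, ¬ a ≤ v.asIdeal := by
  unfold mI
  rw [IsCoprime.prod_right_iff]
  refine forall₂_congr fun v _ => ?_
  rw [IsCoprime.pow_right_iff (Nat.succ_pos N), y25_max]

/-- the same for the product `SI S` -/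
theorem cop_SI (S : Finset (Pr K)) (a : Ideal (𝓞 K)) : IsCoprime a (CFTZ.SI S) ↔ ∀ v ∈ S, ¬ a ≤ v.asIdeal := by
  unfold CFTZ.SI
  rw [IsCoprime.prod_right_iff]
  exact forall₂_congr fun v _ => y25_max v a

/-- PROOF. The `v^(N+1)` are pairwise coprime, so their product is their intersection. -/
theorem mem_mI (S : Finset (Pr K)) (N : ℕ) (x : 𝓞 K) : x ∈ mI S N ↔ ∀ v ∈ S, x ∈ v.asIdeal ^ (N + 1) := by
  classical
  induction S using Finset.induction_on with
  | empty => simp [mI]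
  | insert v S hv ih =>
    have hcop : IsCoprime (v.asIdeal ^ (N + 1)) (mI S N) := by
      refine IsCoprime.pow_left ?_
      rw [cop_mI]
      intro w hw hle
      have hvm : v.asIdeal.IsMaximal := v.isMaximal
      have : v.asIdeal = w.asIdeal := hvm.eq_of_le w.isPrime.ne_top hle
      exact hv (HeightOneSpectrum.ext this ▸ hw)
    have e : mI (insert v S) N = v.asIdeal ^ (N + 1) * mI S N := by
      unfold mI
      rw [Finset.prod_insert hv]
    rw [e, Ideal.mul_eq_inf_of_coprime (Ideal.isCoprime_iff_sup_eq.1 hcop), Ideal.mem_inf, ih]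
    simp

/-- PROOF. `mem_mI`; `x ∈ v^(N+1)` iff `v.valuation K x ≤ exp (-(N+1))` (`HeightOneSpectrum.intValuation_le_pow_iff_mem`, `valuation_of_algebraMap`) iff `< exp (-N)`. -/
theorem ray_iff (S : Finset (Pr K)) (N : ℕ) (x : 𝓞 K) : (x - 1 ∈ mI S N ∧ TP (x : K)) ↔ Ray S N (x : K) := by
  have key : ∀ v : Pr K, x - 1 ∈ v.asIdeal ^ (N + 1) ↔
      v.valuation K ((x : K) - 1) < WithZero.exp (-(N : ℤ)) := by
    intro v
    have e : ((x : K) - 1) = ((x - 1 : 𝓞 K) : K) := rfl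
    rw [e]
    by_cases h0 : x - 1 = 0
    · rw [h0]
      refine ⟨fun _ => ?_, fun _ => Ideal.zero_mem _⟩
      have e0 : ((0 : 𝓞 K) : K) = 0 := map_zero _
      rw [e0, map_zero]
      exact WithZero.zero_lt_coe _
    · have h1 := od_le_iff v h0 (N + 1)
      rw [← h1, val_lt_iff v (fun h => h0 (RingOfIntegers.coe_eq_zero_iff.1 h))]
      push_cast
      omega
  rw [mem_mI]
  constructor
  · rintro ⟨h1, h2, h3⟩
    exact ⟨h2, fun v hv => (key v).1 (h1 v hv), h3⟩
  · rintro ⟨h1, h2, h3⟩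
    exact ⟨fun v hv => (key v).2 (h2 v hv), h1, h3⟩

end CFTY
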