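import Mathlib
import Pool.Agent.Lib.CFT.Y25
import Pool.Agent.Lib.CFT.B02
import Pool.Agent.Lib.CFT.B04

/-! # CFT module Y, chunk Y26: principal ideals of the ray and Pray -/

open NumberField IsDedekindDomain

namespace CFTY

open CFT

variable {K : Type} [Field K] [NumberField K]

/-- PROOF. `v ∣ idl D ↔ 1 ≤ D v` (`le_idl_iff` with `n = 1`), `cop_mI`, `Ideal.dvd_iff_le`. -/
theorem cop_idl {S : Finset (Pr K)} (N : ℕ) {D : Dv K} (hD : ∀ v, 0 ≤ D v) :
    IsCoprime (idl D) (mI S N) ↔ ∀ v ∈ S, D v = 0 := by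
  rw [cop_mI]
  refine forall₂_congr fun v _ => ?_
  have h1 := le_idl_iff hD v 1
  rw [pow_one, Ideal.dvd_iff_le] at h1
  rw [h1]
  have h2 := hD v
  constructor
  · intro h
    push_cast at h
    omega
  · intro h
    push_cast
    omega

/-- PROOF. Left to right: `idl D = span {x} = idl (dv x)` (`idl_dv`), so `D = dv x` (`idl_inj`, `od_nonneg`), `ray_iff`, `dv_mem_Pray`. Right to left: `x` with `Ray S N x`, `D v = od v x` outside
`S`; in `S`: `od v x = 0 = D v` (`Ray.od_eq`). So all `od v x ≥ 0`, `x` is integral (`int_of_od`), `D = dv x`, `idl D = span {x}` (`idl_dv`), `ray_iff`. -/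
theorem prI_idl {S : Finset (Pr K)} {N : ℕ} {D : Dv K} (hD : ∀ v, 0 ≤ D v) (hS : ∀ v ∈ S, D v = 0) :
    PrI (mI S N) (idl D) ↔ D ∈ Pray S N := by
  constructor
  · rintro ⟨x, hx, hpos, h⟩
    have hR := (ray_iff S N x).1 ⟨hx, hpos⟩
    have hx0 : x ≠ 0 := by
      rintro rfl
      exact hR.ne rfl
    have h1 : idl D = idl (dv (x : K)) := by rw [h, idl_dv hx0]
    have h2 : D = dv (x : K) := idl_inj hD (fun v => od_nonneg v x) h1
    rw [h2]
    exact dv_mem_Pray hR
  · rintro ⟨x, hx, h⟩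
    have h1 : D = dv x := by
      ext v
      by_cases hv : v ∈ S
      · rw [hS v hv, dv_apply, hx.od_eq hv]
      · rw [h v hv, dv_apply]
    obtain ⟨r, rfl⟩ := int_of_od (x := x) fun v => by
      rw [← dv_apply, ← h1]
      exact hD v
    have hr0 : r ≠ 0 := by
      rintro rfl
      exact hx.ne rfl
    obtain ⟨h2, h3⟩ := (ray_iff S N r).2 hx
    exact ⟨r, h2, h3, by rw [h1, idl_dv hr0]⟩

end CFTY
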