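import Mathlib
import Pool.Agent.Lib.CFT.Y26

/-! # CFT module Y, chunk Y28: characters of the group of divisors -/

open NumberField IsDedekindDomain

namespace CFTY

open CFT

variable {K : Type} [Field K] [NumberField K]

/-- PROOF. `chI S χ (idl D) = pv (cphi χ) (idl D)` (`H55R.tI_apply`, `cop_SI`); `pv` is multiplicative (`pv_mul`, `pv_prime`); `CFTZ.chi_apply`. (Induction on `D` or product over the support.) -/
theorem chI_idl {S : Finset (Pr K)} (χ : Dv K →+ Additive ℂˣ) {D : Dv K} (hD : ∀ v, 0 ≤ D v) (hS : ∀ v ∈ S, D v = 0) :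
    CFTZ.chI S χ (idl D) = (((χ D).toMul : ℂˣ) : ℂ) := by
  have h1 : CFTZ.chI S χ (idl D) = D.prod fun v n => CFTZ.chI S χ v.asIdeal ^ n.toNat := by
    unfold idl
    rw [map_finsuppProd]
    exact Finsupp.prod_congr fun v _ => map_pow _ _ _
  rw [h1, CFTZ.chi_apply, Finsupp.prod, Finsupp.prod, Units.coe_prod]
  refine Finset.prod_congr rfl fun v hv => ?_
  have hvS : v ∉ S := fun h => (Finsupp.mem_support_iff.1 hv) (hS v h)
  rw [CFTZ.chI_prime S χ hvS]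
  have h2 : (CFTZ.cphi χ v ^ D v : ℂˣ) = CFTZ.cphi χ v ^ (D v).toNat := by
    rw [← zpow_natCast, Int.toNat_of_nonneg (hD v)]
  rw [h2, Units.val_pow_eq_pow_val]

/-- PROOF. `zero`: `cop_mI`, `cop_SI`, `H55R.tI_zero`. `norm`: `CFTZ.dd_norm_pv`. `ray`: `ray_iff`, `chI_idl` with `D = dv x` (`idl_dv`, `Ray.od_eq`). -/
theorem hch_of {S : Finset (Pr K)} {N : ℕ} {ψ : K → ℂ} (χ : Dv K →+ Additive ℂˣ) (hn : ∀ v, ‖(CFTZ.cphi χ v : ℂ)‖ = 1)
    (hχ : ∀ x : K, Ray S N x → (((χ (dv x)).toMul : ℂˣ) : ℂ) = ψ x) : HCh (mI S N) ψ (CFTZ.chI S χ) := by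
  refine ⟨fun a ha => ?_, fun a ha hc => ?_, fun x hx hp => ?_⟩
  · unfold CFTZ.chI
    refine H55R.tI_zero _ _ fun h => ha ?_
    rw [cop_mI]
    exact (cop_SI S a).1 h
  · have hc' : IsCoprime a (CFTZ.SI S) := (cop_SI S a).2 ((cop_mI S N a).1 hc)
    unfold CFTZ.chI
    rw [H55R.tI_apply _ _ ha hc']
    exact CFTZ.dd_norm_pv _ hn a
  · have hr : Ray S N (x : K) := (ray_iff S N x).1 ⟨hx, hp⟩
    have hx0 : x ≠ 0 := by
      rintro rfl
      exact hr.ne (map_zero _)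
    rw [← idl_dv hx0, chI_idl χ (D := dv (x : K)) (fun v => od_nonneg v x) (fun v hv => ?_)]
    · exact hχ _ hr
    · rw [dv_apply]
      unfold od
      rw [hr.unit hv, WithZero.log_one, neg_zero]

end CFTY
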