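import Mathlib
import Pool.Agent.Lib.CFT.YDefs

/-! # CFT module Y, chunk Y01: norm and house -/

open NumberField

namespace CFTY

variable {K : Type} [Field K] [NumberField K]

/-- PROOF. `Algebra.norm_eq_prod_embeddings` (over `K →ₐ[ℚ] ℂ`; `RingHom.equivRatAlgHom`), `norm_prod`. -/
theorem nm_eq (x : K) : nm x = ∏ σ : K →+* ℂ, ‖σ x‖ := by
  classical
  unfold nm
  have h := congr_arg (‖·‖) (Algebra.norm_eq_prod_embeddings ℚ ℂ x)
  rw [norm_prod, ← Fintype.prod_equiv (RingHom.equivRatAlgHom K ℂ) (fun f => ‖f x‖)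
      (fun φ => ‖φ x‖) fun _ => by simp [RingHom.equivRatAlgHom_apply]] at h
  rw [← h, eq_ratCast, Complex.norm_ratCast]

theorem nm_mul (x y : K) : nm (x * y) = nm x * nm y := by
  unfold nm
  rw [map_mul, Rat.cast_mul, abs_mul]

theorem nm_nonneg (x : K) : 0 ≤ nm x := abs_nonneg _

theorem nm_pos {x : K} (hx : x ≠ 0) : 0 < nm x := by
  unfold nm
  rw [abs_pos]
  exact_mod_cast Algebra.norm_ne_zero_iff.2 hx

theorem nm_zero : nm (0 : K) = 0 := by
  unfold nm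
  rw [Algebra.norm_zero]
  simp

/-- Mathlib: `NumberField.norm_norm_le_norm_mul_house_pow`. -/
theorem nm_le (x : K) (σ : K →+* ℂ) : nm x ≤ ‖σ x‖ * house x ^ (dg K - 1) := by
  have h := NumberField.norm_norm_le_norm_mul_house_pow x σ
  rw [← Rat.norm_cast_real, Real.norm_eq_abs] at h
  exact h

theorem y01_dg_pos : 1 ≤ dg K := by
  unfold dg
  exact Module.finrank_pos

/-- From `nm_le` and `norm_embedding_le_house` (`1 ≤ dg K`). -/
theorem nm_le_house (x : K) : nm x ≤ house x ^ dg K := by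
  obtain ⟨σ⟩ : Nonempty (K →+* ℂ) := inferInstance
  have h1 := nm_le x σ
  have h2 := NumberField.norm_embedding_le_house x σ
  have h3 : (1 : ℕ) ≤ dg K := y01_dg_pos
  calc nm x ≤ ‖σ x‖ * house x ^ (dg K - 1) := h1
    _ ≤ house x * house x ^ (dg K - 1) :=
        mul_le_mul_of_nonneg_right h2 (pow_nonneg (NumberField.house_nonneg x) _)
    _ = house x ^ dg K := by
        rw [← pow_succ', Nat.sub_add_cancel h3]

/-- The norm of a unit is 1 or -1 (`NumberField.isUnit_iff_norm`). -/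
theorem nm_unit (u : (𝓞 K)ˣ) : nm (((u : (𝓞 K)ˣ) : 𝓞 K) : K) = 1 := by
  have h := NumberField.isUnit_iff_norm.1 u.isUnit
  unfold nm
  rw [RingOfIntegers.coe_norm] at h
  have h2 : |((Algebra.norm ℚ (((u : (𝓞 K)ˣ) : 𝓞 K) : K) : ℚ) : ℝ)| =
      ((|Algebra.norm ℚ (((u : (𝓞 K)ˣ) : 𝓞 K) : K)| : ℚ) : ℝ) := by
    rw [Rat.cast_abs]
  rw [h2, h, Rat.cast_one]

theorem y01_nm_int (x : 𝓞 K) : nm (x : K) = |((Algebra.norm ℤ x : ℤ) : ℝ)| := by
  unfold nm
  have h : (Algebra.norm ℚ (x : K) : ℚ) = ((Algebra.norm ℤ x : ℤ) : ℚ) :=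
    (Algebra.coe_norm_int x).symm
  rw [h, Rat.cast_intCast]

/-- The norm of an algebraic integer is an integer, not 0. -/
theorem one_le_nm {x : 𝓞 K} (hx : x ≠ 0) : 1 ≤ nm (x : K) := by
  rw [y01_nm_int]
  have h := Int.one_le_abs (Algebra.norm_ne_zero_iff.mpr hx : Algebra.norm ℤ x ≠ 0)
  exact_mod_cast h

/-- `Ideal.absNorm_span_singleton`. -/
theorem absNorm_span (x : 𝓞 K) : ((Ideal.absNorm (Ideal.span {x}) : ℕ) : ℝ) = nm (x : K) := by
  rw [Ideal.absNorm_span_singleton, y01_nm_int, Nat.cast_natAbs, Int.cast_abs]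

theorem dg_pos : 1 ≤ dg K := y01_dg_pos

theorem house_pos {x : K} (hx : x ≠ 0) : 0 < house x := by
  obtain ⟨σ⟩ : Nonempty (K →+* ℂ) := inferInstance
  have h1 : 0 < ‖σ x‖ := norm_pos_iff.2 ((map_ne_zero σ).2 hx)
  exact h1.trans_le (NumberField.norm_embedding_le_house x σ)

end CFTY
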