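import Mathlib
import Pool.Agent.Lib.CFT.Y01

/-! # CFT module Y, chunk Y02: closeness -/

open NumberField

namespace CFTY

variable {K : Type} [Field K] [NumberField K]

theorem cl_lower {δ : ℝ} {x y : K} (h : Cl δ x y) (σ : K →+* ℂ) : (1 - δ) * ‖σ x‖ ≤ ‖σ y‖ := by
  have h1 := h σ
  have h2 : ‖σ x‖ ≤ ‖σ y‖ + ‖σ y - σ x‖ := by
    have := norm_sub_le (σ y) (σ y - σ x)
    rwa [sub_sub_cancel] at this
  linarith

theorem cl_upper {δ : ℝ} {x y : K} (h : Cl δ x y) (σ : K →+* ℂ) : ‖σ y‖ ≤ (1 + δ) * ‖σ x‖ := by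
  have h1 := h σ
  have h2 : ‖σ y‖ ≤ ‖σ y - σ x‖ + ‖σ x‖ := by
    have := norm_add_le (σ y - σ x) (σ x)
    rwa [sub_add_cancel] at this
  linarith

theorem cl_ne {δ : ℝ} {x y : K} (hδ : δ ≤ 1 / 2) (hx : x ≠ 0) (h : Cl δ x y) : y ≠ 0 := by
  obtain ⟨σ⟩ : Nonempty (K →+* ℂ) := inferInstance
  have h1 : 0 < ‖σ x‖ := norm_pos_iff.2 ((map_ne_zero σ).2 hx)
  have h2 := cl_lower h σ
  intro hy
  rw [hy, map_zero, norm_zero] at h2
  have h3 : 0 < (1 - δ) * ‖σ x‖ := mul_pos (by linarith) h1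
  linarith

theorem cl_mul {δ : ℝ} {x y : K} (h : Cl δ x y) (a : K) : Cl δ (a * x) (a * y) := by
  intro σ
  rw [map_mul, map_mul, ← mul_sub, norm_mul, norm_mul]
  calc ‖σ a‖ * ‖σ y - σ x‖ ≤ ‖σ a‖ * (δ * ‖σ x‖) :=
        mul_le_mul_of_nonneg_left (h σ) (norm_nonneg _)
    _ = δ * (‖σ a‖ * ‖σ x‖) := by ring

theorem y02_house_le {x : K} {c : ℝ} (h : ∀ σ : K →+* ℂ, ‖σ x‖ ≤ c) : house x ≤ c := by
  rw [NumberField.house_eq_sup']
  have h1 : ∀ σ : K →+* ℂ, (‖σ x‖₊ : ℝ) ≤ c := h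
  have hc : 0 ≤ c := by
    obtain ⟨σ⟩ : Nonempty (K →+* ℂ) := inferInstance
    exact (norm_nonneg _).trans (h σ)
  have h2 : Finset.univ.sup' Finset.univ_nonempty (fun φ : K →+* ℂ => ‖φ x‖₊) ≤
      (⟨c, hc⟩ : NNReal) := by
    refine Finset.sup'_le _ _ (fun σ _ => ?_)
    exact h σ
  exact h2

/-- `‖σ x‖ ≤ ‖σ y‖ / (1 - δ) ≤ house y / (1 - δ)`. -/
theorem cl_house_lower {δ : ℝ} {x y : K} (hδ : δ ≤ 1 / 2) (h : Cl δ x y) :
    (1 - δ) * house x ≤ house y := by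
  have h0 : 0 < 1 - δ := by linarith
  have h1 : house x ≤ house y / (1 - δ) := by
    refine y02_house_le (fun σ => ?_)
    rw [le_div_iff₀ h0, mul_comm]
    exact (cl_lower h σ).trans (NumberField.norm_embedding_le_house y σ)
  rw [le_div_iff₀ h0] at h1
  linarith

theorem cl_house_upper {δ : ℝ} {x y : K} (h0 : 0 ≤ δ) (h : Cl δ x y) :
    house y ≤ (1 + δ) * house x := by
  refine y02_house_le (fun σ => ?_)
  exact (cl_upper h σ).trans (mul_le_mul_of_nonneg_left (NumberField.norm_embedding_le_house x σ)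
    (by linarith))

theorem y02_card : (Finset.univ : Finset (K →+* ℂ)).card = dg K := by
  rw [Finset.card_univ]
  exact NumberField.Embeddings.card K ℂ

/-- `nm_eq`, `Finset.prod_le_prod`; the number of embeddings is `dg K` (`Embeddings.card`). -/
theorem cl_nm_lower {δ : ℝ} {x y : K} (hδ : δ ≤ 1 / 2) (h : Cl δ x y) :
    (1 - δ) ^ dg K * nm x ≤ nm y := by
  rw [nm_eq, nm_eq, ← y02_card (K := K), ← Finset.prod_const, ← Finset.prod_mul_distrib]
  refine Finset.prod_le_prod (fun σ _ => mul_nonneg (by linarith) (norm_nonneg _))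
    (fun σ _ => cl_lower h σ)

theorem cl_nm_upper {δ : ℝ} {x y : K} (h0 : 0 ≤ δ) (h : Cl δ x y) :
    nm y ≤ (1 + δ) ^ dg K * nm x := by
  rw [nm_eq, nm_eq, ← y02_card (K := K), ← Finset.prod_const, ← Finset.prod_mul_distrib]
  refine Finset.prod_le_prod (fun σ _ => norm_nonneg _)
    (fun σ _ => cl_upper h σ)

/-- PROOF. `house x ^ d ≤ A nm x ≤ A ‖σ x‖ house x ^ (d - 1)` (`nm_le`), divide by `house x ^ (d - 1)`. -/
theorem rg_house {A : ℝ} {x : K} (hA : 0 ≤ A) (h : Rg A x) (σ : K →+* ℂ) : house x ≤ A * ‖σ x‖ := by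
  obtain ⟨hx, h1⟩ := h
  have hp := house_pos hx
  have h2 := nm_le x σ
  have h3 : (1 : ℕ) ≤ dg K := dg_pos
  have h4 : house x * house x ^ (dg K - 1) ≤ (A * ‖σ x‖) * house x ^ (dg K - 1) := by
    calc house x * house x ^ (dg K - 1) = house x ^ dg K := by
          rw [← pow_succ', Nat.sub_add_cancel h3]
      _ ≤ A * nm x := h1
      _ ≤ A * (‖σ x‖ * house x ^ (dg K - 1)) := mul_le_mul_of_nonneg_left h2 hA
      _ = (A * ‖σ x‖) * house x ^ (dg K - 1) := by ring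
  exact le_of_mul_le_mul_right h4 (pow_pos hp _)

/-- PROOF. `A > 0` (otherwise `house x ^ d ≤ 0`). `A ‖σ h‖ ≤ A house h ≤ δ house x ≤ δ A ‖σ x‖`. -/
theorem cl_add {A δ : ℝ} {x h : K} (hA : 0 ≤ A) (hδ : 0 ≤ δ) (hx : Rg A x) (hh : A * house h ≤ δ * house x) :
    Cl δ x (x + h) := by
  intro σ
  have hA0 : 0 < A := by
    rcases hA.lt_or_eq with h0 | h0
    · exact h0
    · exfalso
      have h1 := hx.2
      rw [← h0, zero_mul] at h1
      have h2 := pow_pos (house_pos hx.1) (dg K)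
      linarith
  rw [map_add, add_sub_cancel_left]
  have h1 := NumberField.norm_embedding_le_house h σ
  have h2 := rg_house hA hx σ
  have h3 : A * ‖σ h‖ ≤ A * (δ * ‖σ x‖) := by
    calc A * ‖σ h‖ ≤ A * house h := mul_le_mul_of_nonneg_left h1 hA
      _ ≤ δ * house x := hh
      _ ≤ δ * (A * ‖σ x‖) := mul_le_mul_of_nonneg_left h2 hδ
      _ = A * (δ * ‖σ x‖) := by ring
  exact le_of_mul_le_mul_left h3 hA0

end CFTY
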