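import Mathlib
import Pool.Agent.Lib.CFT.Y02

/-! # CFT module Y, chunk Y03: calculus of LL -/

open NumberField

namespace CFTY

variable {K : Type} [Field K] [NumberField K]

/-- `F y G y - F x G x = (F y - F x) G y + F x (G y - G x)`. -/
theorem LL.mul {F G : K → ℂ} (hF : LL F) (hG : LL G) (bF : Bd F) (bG : Bd G) : LL fun x => F x * G x := by
  obtain ⟨L1, hL1, h1⟩ := hF
  obtain ⟨L2, hL2, h2⟩ := hG
  obtain ⟨B1, hB1, h3⟩ := bF
  obtain ⟨B2, hB2, h4⟩ := bG
  refine ⟨L1 * B2 + B1 * L2, by positivity, ?_⟩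
  intro δ x y h0 h05 hx hxy
  have e : F y * G y - F x * G x = (F y - F x) * G y + F x * (G y - G x) := by ring
  rw [e]
  calc ‖(F y - F x) * G y + F x * (G y - G x)‖
      ≤ ‖(F y - F x) * G y‖ + ‖F x * (G y - G x)‖ := norm_add_le _ _
    _ = ‖F y - F x‖ * ‖G y‖ + ‖F x‖ * ‖G y - G x‖ := by rw [norm_mul, norm_mul]
    _ ≤ (L1 * δ) * B2 + B1 * (L2 * δ) :=
        add_le_add (mul_le_mul (h1 δ x y h0 h05 hx hxy) (h4 y) (norm_nonneg _) (by positivity))
          (mul_le_mul (h3 x) (h2 δ x y h0 h05 hx hxy) (norm_nonneg _) hB1)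
    _ = (L1 * B2 + B1 * L2) * δ := by ring

theorem Bd.mul {F G : K → ℂ} (bF : Bd F) (bG : Bd G) : Bd fun x => F x * G x := by
  obtain ⟨B1, hB1, h3⟩ := bF
  obtain ⟨B2, hB2, h4⟩ := bG
  refine ⟨B1 * B2, by positivity, fun x => ?_⟩
  rw [norm_mul]
  exact mul_le_mul (h3 x) (h4 x) (norm_nonneg _) hB1

theorem LL_const (c : ℂ) : LL (K := K) fun _ => c := by
  refine ⟨0, le_rfl, ?_⟩
  intro δ x y _ _ _ _
  simp

theorem y03_TP {δ : ℝ} {x y : K} (h05 : δ ≤ 1 / 2) (hx : x ≠ 0) (hxy : Cl δ x y) :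
    TP y ↔ TP x := by
  have key : ∀ φ : K →+* ℝ, |φ y - φ x| ≤ 1 / 2 * |φ x| := by
    intro φ
    have h := hxy (Complex.ofRealHom.comp φ)
    simp only [RingHom.comp_apply, Complex.ofRealHom_eq_coe] at h
    rw [← Complex.ofReal_sub, Complex.norm_real, Complex.norm_real, Real.norm_eq_abs,
      Real.norm_eq_abs] at h
    exact h.trans (mul_le_mul_of_nonneg_right h05 (abs_nonneg _))
  constructor
  · intro hy
    refine ⟨hx, fun φ => ?_⟩
    have h1 := key φ
    have h2 := hy.2 φ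
    by_contra h3
    push Not at h3
    rw [abs_of_nonpos h3, abs_le] at h1
    have h4 : φ x ≠ 0 := (map_ne_zero φ).2 hx
    have h5 : φ x < 0 := lt_of_le_of_ne h3 h4
    linarith [h1.2]
  · intro hx'
    refine ⟨cl_ne h05 hx hxy, fun φ => ?_⟩
    have h1 := key φ
    have h2 := hx'.2 φ
    rw [abs_of_pos h2, abs_le] at h1
    linarith [h1.1]

open Classical in
/-- PROOF. If `Cl δ x y`, `δ ≤ 1/2`, `x ≠ 0` and `φ : K →+* ℝ` then (apply `Cl` to the embedding `Complex.ofRealHom.comp φ`)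
`|φ y - φ x| ≤ |φ x| / 2`, so `φ y` and `φ x` have the same sign. So `TP y ↔ TP x` and the difference is 0. -/
theorem LL_TP : LL (K := K) fun x => if TP x then 1 else 0 := by
  refine ⟨0, le_rfl, ?_⟩
  intro δ x y _ h05 hx hxy
  have h := y03_TP h05 hx hxy
  simp only [h, sub_self, norm_zero, zero_mul, le_refl]

open Classical in
theorem Bd_TP : Bd (K := K) fun x => if TP x then 1 else 0 := by
  refine ⟨1, zero_le_one, fun x => ?_⟩
  simp only
  split_ifs
  · simp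
  · simp

end CFTY
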