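import Mathlib
import Pool.Agent.Lib.CFT.Y03

/-! # CFT module Y, chunk Y04: infinity types -/

open NumberField

namespace CFTY

variable {K : Type} [Field K] [NumberField K]

theorem y04_sgn {a b : ℂ} {δ : ℝ} (ha : a ≠ 0) (hb : b ≠ 0) (h : ‖b - a‖ ≤ δ * ‖a‖) :
    ‖b / (‖b‖ : ℂ) - a / (‖a‖ : ℂ)‖ ≤ 2 * δ := by
  have ha' : (0 : ℝ) < ‖a‖ := norm_pos_iff.2 ha
  have hb' : (0 : ℝ) < ‖b‖ := norm_pos_iff.2 hb
  have hac : ((‖a‖ : ℝ) : ℂ) ≠ 0 := by exact_mod_cast ha'.ne'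
  have hbc : ((‖b‖ : ℝ) : ℂ) ≠ 0 := by exact_mod_cast hb'.ne'
  have e : b / (‖b‖ : ℂ) - a / (‖a‖ : ℂ) =
      (b - a) / (‖a‖ : ℂ) + b * ((((‖a‖ - ‖b‖) : ℝ) : ℂ) / ((‖a‖ : ℂ) * (‖b‖ : ℂ))) := by
    push_cast
    field_simp
    ring
  rw [e]
  have h1 : ‖(b - a) / (‖a‖ : ℂ)‖ ≤ δ := by
    rw [norm_div, Complex.norm_real, Real.norm_of_nonneg ha'.le, div_le_iff₀ ha']
    exact h
  have h2 : ‖b * ((((‖a‖ - ‖b‖) : ℝ) : ℂ) / ((‖a‖ : ℂ) * (‖b‖ : ℂ)))‖ ≤ δ := by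
    rw [norm_mul, norm_div, norm_mul, Complex.norm_real, Complex.norm_real, Complex.norm_real,
      Real.norm_of_nonneg ha'.le, Real.norm_of_nonneg hb'.le, Real.norm_eq_abs]
    have h3 : |‖a‖ - ‖b‖| ≤ ‖b - a‖ := by
      rw [norm_sub_rev]
      exact abs_norm_sub_norm_le a b
    have h4 : ‖b‖ * (|‖a‖ - ‖b‖| / (‖a‖ * ‖b‖)) = |‖a‖ - ‖b‖| / ‖a‖ := by
      field_simp
    rw [h4, div_le_iff₀ ha']
    exact h3.trans h
  calc _ ≤ ‖(b - a) / (‖a‖ : ℂ)‖ +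
        ‖b * ((((‖a‖ - ‖b‖) : ℝ) : ℂ) / ((‖a‖ : ℂ) * (‖b‖ : ℂ)))‖ := norm_add_le _ _
    _ ≤ 2 * δ := by linarith

/-- PROOF. `σ y / |σ y| - σ x / |σ x| = (σ y - σ x) / |σ x| + σ y (1 / |σ y| - 1 / |σ x|)`, each term has norm `≤ δ`. -/
theorem LL_sgn (σ : K →+* ℂ) : LL (K := K) fun x => σ x / (‖σ x‖ : ℂ) := by
  refine ⟨2, by norm_num, ?_⟩
  intro δ x y _ h05 hx hxy
  exact y04_sgn ((map_ne_zero σ).2 hx) ((map_ne_zero σ).2 (cl_ne h05 hx hxy)) (hxy σ)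

theorem y04_norm {a : ℂ} (ha : a ≠ 0) : ‖a / (‖a‖ : ℂ)‖ = 1 := by
  have ha' : (0 : ℝ) < ‖a‖ := norm_pos_iff.2 ha
  rw [norm_div, Complex.norm_real, Real.norm_of_nonneg ha'.le, div_self ha'.ne']

/-- The complex conjugate of the previous function, for `x ≠ 0`; or as before. -/
theorem LL_sgn_inv (σ : K →+* ℂ) : LL (K := K) fun x => (σ x / (‖σ x‖ : ℂ))⁻¹ := by
  refine ⟨2, by norm_num, ?_⟩
  intro δ x y _ h05 hx hxy
  have ha : σ x ≠ 0 := (map_ne_zero σ).2 hx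
  have hb : σ y ≠ 0 := (map_ne_zero σ).2 (cl_ne h05 hx hxy)
  have h := y04_sgn ha hb (hxy σ)
  have hu := y04_norm ha
  have hv := y04_norm hb
  set u : ℂ := σ x / (‖σ x‖ : ℂ) with hud
  set v : ℂ := σ y / (‖σ y‖ : ℂ) with hvd
  have hu0 : u ≠ 0 := by
    intro h0
    rw [h0, norm_zero] at hu
    exact zero_ne_one hu
  have hv0 : v ≠ 0 := by
    intro h0
    rw [h0, norm_zero] at hv
    exact zero_ne_one hv
  have e : v⁻¹ - u⁻¹ = (u - v) / (v * u) := by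
    field_simp
  show ‖v⁻¹ - u⁻¹‖ ≤ 2 * δ
  rw [e, norm_div, norm_mul, hu, hv, mul_one, div_one, norm_sub_rev]
  exact h

theorem y04_bd (σ : K →+* ℂ) (x : K) : ‖σ x / (‖σ x‖ : ℂ)‖ ≤ 1 := by
  rcases eq_or_ne (σ x) 0 with h | h
  · rw [h]
    simp
  · exact (y04_norm h).le

theorem y04_bd_inv (σ : K →+* ℂ) (x : K) : ‖(σ x / (‖σ x‖ : ℂ))⁻¹‖ ≤ 1 := by
  rcases eq_or_ne (σ x) 0 with h | h
  · rw [h]
    simp
  · rw [norm_inv, y04_norm h, inv_one]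

theorem y04_pow {F : K → ℂ} (hF : LL F) (bF : Bd F) (k : ℕ) :
    (LL fun x => F x ^ k) ∧ (Bd fun x => F x ^ k) := by
  induction k with
  | zero =>
    simp only [pow_zero]
    exact ⟨LL_const 1, ⟨1, zero_le_one, fun x => by simp⟩⟩
  | succ k ih =>
    simp only [pow_succ]
    exact ⟨LL.mul ih.1 hF ih.2 bF, Bd.mul ih.2 bF⟩

theorem y04_zpow (σ : K →+* ℂ) (k : ℤ) :
    (LL fun x => (σ x / (‖σ x‖ : ℂ)) ^ k) ∧ (Bd fun x => (σ x / (‖σ x‖ : ℂ)) ^ k) := by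
  obtain ⟨m, rfl | rfl⟩ := k.eq_nat_or_neg
  · simp only [zpow_natCast]
    exact y04_pow (LL_sgn σ) ⟨1, zero_le_one, y04_bd σ⟩ m
  · simp only [zpow_neg, zpow_natCast, ← inv_pow]
    exact y04_pow (LL_sgn_inv σ) ⟨1, zero_le_one, y04_bd_inv σ⟩ m

open Classical in
theorem y04_prod (n : (K →+* ℂ) → ℤ) (s : Finset (K →+* ℂ)) :
    (LL fun x => ∏ σ ∈ s, (σ x / (‖σ x‖ : ℂ)) ^ n σ) ∧
      (Bd fun x => ∏ σ ∈ s, (σ x / (‖σ x‖ : ℂ)) ^ n σ) := by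
  induction s using Finset.induction_on with
  | empty =>
    simp only [Finset.prod_empty]
    exact ⟨LL_const 1, ⟨1, zero_le_one, fun x => by simp⟩⟩
  | insert σ s hs ih =>
    simp only [Finset.prod_insert hs]
    have h := y04_zpow σ (n σ)
    exact ⟨LL.mul h.1 ih.1 h.2 ih.2, Bd.mul h.2 ih.2⟩

/-- PROOF. Products and powers of the two functions above (`LL.mul`, all bounded by 1), induction. -/
theorem LL_typ (n : (K →+* ℂ) → ℤ) : LL (typ n) :=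
  (y04_prod n Finset.univ).1

/-- norm at most 1 (the factors have norm 1 or 0 or are 1) -/
theorem Bd_typ (n : (K →+* ℂ) → ℤ) : Bd (typ n) :=
  (y04_prod n Finset.univ).2

/-- the type of a positive integer is 1 -/
theorem typ_nat (n : (K →+* ℂ) → ℤ) (k : ℕ) (hk : 1 ≤ k) : typ n (k : K) = 1 := by
  unfold typ
  refine Finset.prod_eq_one (fun σ _ => ?_)
  have hk' : (k : ℂ) ≠ 0 := by
    have : k ≠ 0 := by omega
    exact_mod_cast this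
  rw [map_natCast, Complex.norm_natCast, Complex.ofReal_natCast, div_self hk', one_zpow]

end CFTY
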