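import Mathlib
import Pool.Agent.Lib.CFT.Y01

/-! # CFT module Y, chunk Y06: an application of Minkowski's theorem -/

open NumberField

namespace CFTY

variable {K : Type} [Field K] [NumberField K]

/-- PROOF. `NumberField.mixedEmbedding.exists_ne_zero_mem_ringOfIntegers_lt` with `f w = t * (w x)⁻¹ * (nm x)^(1/d)`, where `t` (independent of `x`) is so
large that `t ^ d > minkowskiBound K 1` (`minkowskiBound_lt_top`; `convexBodyLT_volume`, `convexBodyLTFactor ≥ 1`,
`InfinitePlace.prod_eq_abs_norm`: `∏ w, w x ^ mult w = |norm x|`, `∑ w, mult w = d`: `InfinitePlace.sum_mult_eq`; so `∏ w, f w ^ mult w = t ^ d`).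
We get `a ≠ 0` with `w a < f w`, so `w (a x) < t (nm x)^(1/d)` for all `w`, `house (a x) ≤ t (nm x)^(1/d)`. `c = t ^ d`. -/
theorem mink (K : Type) [Field K] [NumberField K] : ∃ c : ℝ, 0 < c ∧ ∀ x : K, x ≠ 0 →
    ∃ a : 𝓞 K, a ≠ 0 ∧ house ((a : K) * x) ^ dg K ≤ c * nm x := by
  classical
  obtain ⟨B, hB⟩ : ∃ B : NNReal, B = (NumberField.mixedEmbedding.minkowskiBound K ↑1).toNNReal + 1 := ⟨_, rfl⟩
  have hB0 : 0 < B := by rw [hB]; positivity
  have hB1 : NumberField.mixedEmbedding.minkowskiBound K ↑1 < (B : ENNReal) := by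
    have h1 := (NumberField.mixedEmbedding.minkowskiBound_lt_top K ↑1).ne
    rw [hB, ENNReal.coe_add, ENNReal.coe_toNNReal h1, ENNReal.coe_one]
    exact ENNReal.lt_add_right h1 one_ne_zero
  refine ⟨(B : ℝ), by exact_mod_cast hB0, fun x hx => ?_⟩
  have hN : 0 < nm x := nm_pos hx
  have hd : dg K ≠ 0 := by have := dg_pos (K := K); omega
  obtain ⟨r, hr⟩ : ∃ r : ℝ, r = ((B : ℝ) * nm x) ^ ((dg K : ℝ)⁻¹) := ⟨_, rfl⟩
  have hBN : 0 < (B : ℝ) * nm x := mul_pos (by exact_mod_cast hB0) hN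
  have hr0 : 0 < r := by
    rw [hr]
    exact Real.rpow_pos_of_pos hBN _
  have hrd : r ^ dg K = B * nm x := by
    rw [hr]
    exact Real.rpow_inv_natCast_pow hBN.le hd
  have hw : ∀ w : InfinitePlace K, 0 < w x := fun w => InfinitePlace.pos_iff.2 hx
  obtain ⟨f, hf⟩ : ∃ f : InfinitePlace K → NNReal, ∀ w, (f w : ℝ) = r / w x :=
    ⟨fun w => ⟨r / w x, (div_pos hr0 (hw w)).le⟩, fun w => rfl⟩
  have hprod : ∏ w, (f w) ^ w.mult = B := by
    apply NNReal.coe_injective
    rw [NNReal.coe_prod]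
    have h1 : ∀ w : InfinitePlace K, ((f w ^ w.mult : NNReal) : ℝ) = r ^ w.mult / (w x) ^ w.mult := fun w => by
      rw [NNReal.coe_pow, hf, div_pow]
    rw [Finset.prod_congr rfl fun w _ => h1 w, Finset.prod_div_distrib, InfinitePlace.prod_eq_abs_norm, Finset.prod_pow_eq_pow_sum,
      InfinitePlace.sum_mult_eq]
    have h2 : ((|Algebra.norm ℚ x| : ℚ) : ℝ) = nm x := by
      unfold nm
      rw [Rat.cast_abs]
    have h3 : r ^ Module.finrank ℚ K = B * nm x := hrd
    rw [h2, h3, mul_div_cancel_right₀ _ hN.ne']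
  have hvol : NumberField.mixedEmbedding.minkowskiBound K ↑1 < MeasureTheory.volume (NumberField.mixedEmbedding.convexBodyLT K f) := by
    rw [NumberField.mixedEmbedding.convexBodyLT_volume]
    refine hB1.trans_le ?_
    rw [hprod]
    have h2 : (1 : ENNReal) ≤ (NumberField.mixedEmbedding.convexBodyLTFactor K : ENNReal) := by
      exact_mod_cast NumberField.mixedEmbedding.one_le_convexBodyLTFactor K
    calc (B : ENNReal) = 1 * B := (one_mul _).symm
      _ ≤ _ := mul_le_mul_left h2 _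
  obtain ⟨a, ha, hlt⟩ := NumberField.mixedEmbedding.exists_ne_zero_mem_ringOfIntegers_lt K hvol
  refine ⟨a, ha, ?_⟩
  rw [← hrd]
  refine pow_le_pow_left₀ (norm_nonneg _) ?_ _
  show ‖canonicalEmbedding K ((a : K) * x)‖ ≤ r
  rw [pi_norm_le_iff_of_nonneg hr0.le]
  intro σ
  have h1 := hlt (InfinitePlace.mk σ)
  rw [hf, lt_div_iff₀ (hw _), ← map_mul, InfinitePlace.apply] at h1
  exact h1.le

end CFTY
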