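import Mathlib
import Pool.Agent.Lib.CFT.Y01

/-! # CFT module Y, chunk Y07: elements of bounded norm modulo the ray units -/

open NumberField

namespace CFTY

variable {K : Type} [Field K] [NumberField K]

/-- PROOF. We may assume `B ≥ 0`. Let `q = (⌊B⌋₊)!` (a natural number `≥ 1`); every `a ≠ 0` with `nm a ≤ B` divides `q` in `𝓞 K`
(`a` divides its norm: `(Ideal.absNorm (span {a}) : 𝓞 K) ∈ span {a}` is `Ideal.absNorm_mem`; and the norm divides `q`).
Consider the map `κ a = (Ideal.span {a}, a mod (q m), signs of φ a for φ : K →+* ℝ)`. Its range on `{a ≠ 0, nm a ≤ B}` is finite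
(`Ideal.finite_setOfPred_absNorm_le` or similar; `𝓞 K ⧸ (q m)` finite; finitely many real embeddings, each gives an embedding to ℂ).
If `κ a = κ r` then `a = u r` with a unit `u`; `a - r ∈ span {q} * m ≤ span {r} * m`, so `(u - 1) r = r t` with `t ∈ m`, `u - 1 ∈ m`;
equal signs: `φ u > 0`. `R`: one element for every value of `κ` (`Set.Finite`, e.g. `Set.Finite.exists_finset..`/ `Finite.exists..`, choose a section). -/
theorem fin_cls (m : Ideal (𝓞 K)) (hm : m ≠ ⊥) (B : ℝ) : ∃ R : Finset (𝓞 K), (∀ r ∈ R, r ≠ 0) ∧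
    ∀ a : 𝓞 K, a ≠ 0 → nm (a : K) ≤ B → ∃ r ∈ R, ∃ u ∈ RU m, a = ((u : (𝓞 K)ˣ) : 𝓞 K) * r := by
  classical
  set q : ℕ := (⌊B⌋₊).factorial with hq
  have hq0 : (q : 𝓞 K) ≠ 0 := by
    rw [Nat.cast_ne_zero]
    exact Nat.factorial_ne_zero _
  set I : Ideal (𝓞 K) := Ideal.span {(q : 𝓞 K)} * m with hI
  have hI0 : I ≠ ⊥ := by
    rw [hI]
    refine mul_ne_zero ?_ hm
    rw [Ne, Ideal.zero_eq_bot, Ideal.span_singleton_eq_bot]
    exact hq0
  have hfq : Finite (𝓞 K ⧸ I) := Ideal.finiteQuotientOfFreeOfNeBot I hI0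
  have hfe : Finite (K →+* ℝ) := by
    refine Finite.of_injective (fun φ : K →+* ℝ => (Complex.ofRealHom.comp φ : K →+* ℂ)) ?_
    intro φ ψ h
    ext x
    have h1 := congrArg (fun f : K →+* ℂ => f x) h
    exact Complex.ofReal_injective h1
  set S : Set (𝓞 K) := {a | a ≠ 0 ∧ nm (a : K) ≤ B} with hS
  set κ : 𝓞 K → (Ideal (𝓞 K) × (𝓞 K ⧸ I)) × ((K →+* ℝ) → Prop) :=
    fun a => ((Ideal.span {a}, Ideal.Quotient.mk I a), fun φ => 0 < φ (a : K)) with hκ
  have hfin : (κ '' S).Finite := by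
    have h1 : {J : Ideal (𝓞 K) | Ideal.absNorm J ≤ ⌊B⌋₊}.Finite := Ideal.finite_setOfPred_absNorm_le _
    refine Set.Finite.subset ((h1.prod (Set.finite_univ (α := 𝓞 K ⧸ I))).prod (Set.finite_univ (α := (K →+* ℝ) → Prop))) ?_
    rintro _ ⟨a, ha, rfl⟩
    refine ⟨⟨?_, Set.mem_univ _⟩, Set.mem_univ _⟩
    show Ideal.absNorm (Ideal.span {a}) ≤ ⌊B⌋₊
    apply Nat.le_floor
    rw [absNorm_span]
    exact ha.2
  obtain ⟨R, hRS, hbij⟩ := Set.exists_subset_bijOn S κ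
  have hRfin : R.Finite := by
    refine Set.Finite.of_finite_image ?_ hbij.injOn
    rw [hbij.image_eq]
    exact hfin
  refine ⟨hRfin.toFinset, fun r hr => (hRS (hRfin.mem_toFinset.1 hr)).1, ?_⟩
  intro a ha haB
  obtain ⟨r, hr, hκr⟩ := hbij.surjOn (Set.mem_image_of_mem κ (show a ∈ S from ⟨ha, haB⟩))
  refine ⟨r, hRfin.mem_toFinset.2 hr, ?_⟩
  obtain ⟨hr0, hrB⟩ := hRS hr
  have e1 : Ideal.span {r} = Ideal.span {a} := (Prod.ext_iff.1 (Prod.ext_iff.1 hκr).1).1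
  have e2 : Ideal.Quotient.mk I r = Ideal.Quotient.mk I a := (Prod.ext_iff.1 (Prod.ext_iff.1 hκr).1).2
  have e3 : (fun φ : K →+* ℝ => 0 < φ (r : K)) = fun φ : K →+* ℝ => 0 < φ (a : K) := (Prod.ext_iff.1 hκr).2
  obtain ⟨u, hu⟩ := Ideal.span_singleton_eq_span_singleton.1 e1
  have hua : a = (u : 𝓞 K) * r := by rw [← hu, mul_comm]
  have hrq : r ∣ (q : 𝓞 K) := by
    have h1 : ((Ideal.absNorm (Ideal.span {r}) : ℕ) : 𝓞 K) ∈ Ideal.span {r} := Ideal.absNorm_mem _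
    rw [Ideal.mem_span_singleton] at h1
    refine h1.trans ?_
    apply Nat.cast_dvd_cast
    rw [hq]
    refine Nat.dvd_factorial ?_ ?_
    · rw [Nat.pos_iff_ne_zero, Ne, Ideal.absNorm_eq_zero_iff, Ideal.span_singleton_eq_bot]
      exact hr0
    · apply Nat.le_floor
      rw [absNorm_span]
      exact hrB
  have hu1 : (u : 𝓞 K) - 1 ∈ m := by
    have h1 : r - a ∈ I := Ideal.Quotient.eq.1 e2
    have h2 : a - r ∈ Ideal.span {(q : 𝓞 K)} * m := by
      rw [← neg_sub]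
      exact I.neg_mem h1
    have h3 : a - r ∈ Ideal.span {r} * m := by
      refine Ideal.mul_mono_left ?_ h2
      rw [Ideal.span_singleton_le_span_singleton]
      exact hrq
    obtain ⟨t, ht, ht'⟩ := Ideal.mem_span_singleton_mul.1 h3
    have h4 : r * ((u : 𝓞 K) - 1) = r * t := by
      rw [ht', hua]
      ring
    rw [mul_left_cancel₀ hr0 h4]
    exact ht
  refine ⟨u, mem_RU.2 ⟨hu1, ?_, ?_⟩, hua⟩
  · exact RingOfIntegers.coe_ne_zero_iff.2 (Units.ne_zero u)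
  · intro φ
    have h1 : (0 < φ (r : K)) = (0 < φ (a : K)) := congrFun e3 φ
    have h2 : φ (a : K) = φ ((u : 𝓞 K) : K) * φ (r : K) := by
      have h9 : ((((u : 𝓞 K) * r : 𝓞 K)) : K) = ((u : 𝓞 K) : K) * (r : K) := map_mul (algebraMap (𝓞 K) K) _ _
      rw [hua, h9, map_mul]
    have h3 : φ ((u : 𝓞 K) : K) ≠ 0 := by
      rw [Ne, map_eq_zero]
      exact RingOfIntegers.coe_ne_zero_iff.2 (Units.ne_zero u)
    have h4 : φ (r : K) ≠ 0 := by
      rw [Ne, map_eq_zero]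
      exact RingOfIntegers.coe_ne_zero_iff.2 hr0
    rcases lt_or_gt_of_ne h4 with h5 | h5
    · have h6 : ¬ 0 < φ (a : K) := by
        rw [← h1]
        exact not_lt.2 h5.le
      rw [h2] at h6
      by_contra h7
      have h8 : φ ((u : 𝓞 K) : K) < 0 := lt_of_le_of_ne (not_lt.1 h7) h3
      exact h6 (mul_pos_of_neg_of_neg h8 h5)
    · have h6 : 0 < φ (a : K) := by
        rw [← h1]
        exact h5
      rw [h2] at h6
      by_contra h7
      have h8 := mul_nonpos_of_nonpos_of_nonneg (not_lt.1 h7) h5.le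
      linarith


end CFTY
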