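import Mathlib
import Pool.Agent.Lib.CFT.Y06
import Pool.Agent.Lib.CFT.Y07

/-! # CFT module Y, chunk Y08: the ray units are cocompact -/

open NumberField

namespace CFTY

variable {K : Type} [Field K] [NumberField K]

/-- PROOF. `c` from `mink`. Given `x ≠ 0` take `a`; `nm a * nm x = nm (a x) ≤ house (a x) ^ d ≤ c nm x`, so `nm a ≤ c`. `fin_cls` (`B = c`): `a = u r`.
`u x = r⁻¹ (a x)`, so `house (u x) ^ d ≤ house r⁻¹ ^ d * c * nm x`. `C = 1 + sum over R of house r⁻¹ ^ d * c`. -/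
theorem cocomp (m : Ideal (𝓞 K)) (hm : m ≠ ⊥) : ∃ C : ℝ, 0 < C ∧ ∀ x : K, x ≠ 0 →
    ∃ u ∈ RU m, Rg C ((((u : (𝓞 K)ˣ) : 𝓞 K) : K) * x) := by
  classical
  obtain ⟨c, hc0, hc⟩ := mink K
  obtain ⟨R, hR0, hR⟩ := fin_cls m hm c
  have hterm : ∀ r ∈ R, 0 ≤ house ((r : K)⁻¹) ^ dg K * c := fun r _ =>
    mul_nonneg (pow_nonneg (house_nonneg _) _) hc0.le
  refine ⟨1 + ∑ r ∈ R, house ((r : K)⁻¹) ^ dg K * c, ?_, ?_⟩
  · have h1 := Finset.sum_nonneg hterm
    linarith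
  · intro x hx
    obtain ⟨a, ha0, ha⟩ := hc x hx
    have hn := nm_pos hx
    have h1 : nm (a : K) ≤ c := by
      have h2 := nm_le_house ((a : K) * x)
      rw [nm_mul] at h2
      exact le_of_mul_le_mul_right (h2.trans ha) hn
    obtain ⟨r, hr, u, hu, hau⟩ := hR a ha0 h1
    have hrK : (r : K) ≠ 0 := RingOfIntegers.coe_ne_zero_iff.2 (hR0 r hr)
    refine ⟨u, hu, mul_ne_zero (RingOfIntegers.coe_ne_zero_iff.2 (Units.ne_zero u)) hx, ?_⟩
    rw [nm_mul, nm_unit, one_mul]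
    have h2 : (a : K) = (((u : (𝓞 K)ˣ) : 𝓞 K) : K) * (r : K) := by
      rw [hau]
      exact map_mul (algebraMap (𝓞 K) K) _ _
    have h3 : (((u : (𝓞 K)ˣ) : 𝓞 K) : K) * x = (r : K)⁻¹ * ((a : K) * x) := by
      rw [h2]
      field_simp
    rw [h3]
    calc house ((r : K)⁻¹ * ((a : K) * x)) ^ dg K
        ≤ (house ((r : K)⁻¹) * house ((a : K) * x)) ^ dg K :=
          pow_le_pow_left₀ (house_nonneg _) (house_mul_le _ _) _
      _ = house ((r : K)⁻¹) ^ dg K * house ((a : K) * x) ^ dg K := mul_pow _ _ _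
      _ ≤ house ((r : K)⁻¹) ^ dg K * (c * nm x) := mul_le_mul_of_nonneg_left ha (pow_nonneg (house_nonneg _) _)
      _ = (house ((r : K)⁻¹) ^ dg K * c) * nm x := by ring
      _ ≤ (1 + ∑ r ∈ R, house ((r : K)⁻¹) ^ dg K * c) * nm x := by
          refine mul_le_mul_of_nonneg_right ?_ hn.le
          have h4 := Finset.single_le_sum hterm hr
          linarith


end CFTY
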