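import Mathlib
import Pool.Agent.Lib.CFT.Y02

/-! # CFT module Y, chunk Y05: the cut-off function -/

open NumberField

namespace CFTY

variable {K : Type} [Field K] [NumberField K]

/-- PROOF. Induction on `d` for the stronger bound `(1 + 4 δ) ^ d ≤ 1 + 2 δ (3 ^ d - 1)`; in the step the difference of the two sides is
at least `4 δ (3 ^ d - 1) (1 - 2 δ) ≥ 0`. -/
theorem y05_pow (d : ℕ) {δ : ℝ} (h0 : 0 ≤ δ) (h1 : δ ≤ 1 / 2) : (1 + 4 * δ) ^ d ≤ 1 + 2 * δ * 3 ^ d := by
  suffices h : (1 + 4 * δ) ^ d ≤ 1 + 2 * δ * (3 ^ d - 1) by linarith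
  induction d with
  | zero => simp
  | succ d ih =>
    have h3 : (1 : ℝ) ≤ 3 ^ d := one_le_pow₀ (by norm_num)
    have h4 : 0 ≤ 1 + 4 * δ := by linarith
    have h5 : 0 ≤ 4 * δ * (3 ^ d - 1) * (1 - 2 * δ) :=
      mul_nonneg (mul_nonneg (by linarith) (by linarith)) (by linarith)
    calc (1 + 4 * δ) ^ (d + 1) = (1 + 4 * δ) ^ d * (1 + 4 * δ) := pow_succ _ _
      _ ≤ (1 + 2 * δ * (3 ^ d - 1)) * (1 + 4 * δ) := by gcongr
      _ ≤ 1 + 2 * δ * (3 ^ (d + 1) - 1) := by
          rw [pow_succ]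
          nlinarith

/-- `r x = house x ^ d / nm x`. PROOF. `house y ≤ (1 + δ) house x`, `nm y ≥ (1 - δ)^d nm x`, `(1 + δ)/(1 - δ) ≤ 1 + 4 δ`. -/
theorem y05_upper {δ : ℝ} {x y : K} (h0 : 0 ≤ δ) (h1 : δ ≤ 1 / 2) (hx : x ≠ 0) (h : Cl δ x y) :
    house y ^ dg K / nm y ≤ (1 + 2 * δ * 3 ^ dg K) * (house x ^ dg K / nm x) := by
  have hy : y ≠ 0 := cl_ne h1 hx h
  have hnx := nm_pos hx
  have hny := nm_pos hy
  have hh := cl_house_upper h0 h
  have hn := cl_nm_lower h1 h
  have hd : 0 < 1 - δ := by linarith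
  have hhx : 0 < house x := house_pos hx
  have hhy : 0 < house y := house_pos hy
  have hq : (1 + δ) / (1 - δ) ≤ 1 + 4 * δ := by
    rw [div_le_iff₀ hd]
    nlinarith [mul_nonneg h0 (show (0 : ℝ) ≤ 1 - 2 * δ by linarith)]
  calc house y ^ dg K / nm y ≤ ((1 + δ) * house x) ^ dg K / ((1 - δ) ^ dg K * nm x) := by
        gcongr
    _ = ((1 + δ) / (1 - δ)) ^ dg K * (house x ^ dg K / nm x) := by
        rw [mul_pow, div_pow]
        field_simp
    _ ≤ (1 + 4 * δ) ^ dg K * (house x ^ dg K / nm x) := by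
        gcongr
    _ ≤ _ := by
        gcongr
        exact y05_pow _ h0 h1

theorem y05_lower {δ : ℝ} {x y : K} (h0 : 0 ≤ δ) (h1 : δ ≤ 1 / 2) (hx : x ≠ 0) (h : Cl δ x y) :
    house x ^ dg K / nm x ≤ (1 + 2 * δ * 3 ^ dg K) * (house y ^ dg K / nm y) := by
  have hy : y ≠ 0 := cl_ne h1 hx h
  have hnx := nm_pos hx
  have hny := nm_pos hy
  have hh := cl_house_lower h1 h
  have hn := cl_nm_upper h0 h
  have hd : 0 < 1 - δ := by linarith
  have hhx : 0 < house x := house_pos hx
  have hhy : 0 < house y := house_pos hy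
  have hq : (1 + δ) / (1 - δ) ≤ 1 + 4 * δ := by
    rw [div_le_iff₀ hd]
    nlinarith [mul_nonneg h0 (show (0 : ℝ) ≤ 1 - 2 * δ by linarith)]
  have hh' : house x ≤ house y / (1 - δ) := by
    rw [le_div_iff₀ hd]
    linarith
  have hn' : nm y / (1 + δ) ^ dg K ≤ nm x := by
    rw [div_le_iff₀ (by positivity)]
    linarith
  calc house x ^ dg K / nm x ≤ (house y / (1 - δ)) ^ dg K / (nm y / (1 + δ) ^ dg K) := by
        gcongr
    _ = ((1 + δ) / (1 - δ)) ^ dg K * (house y ^ dg K / nm y) := by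
        rw [div_pow, div_pow]
        field_simp
    _ ≤ (1 + 4 * δ) ^ dg K * (house y ^ dg K / nm y) := by
        gcongr
    _ ≤ _ := by
        gcongr
        exact y05_pow _ h0 h1

/-- PROOF. If both quotients are `≥ 2 C` both values are 0. Otherwise the smaller of the two quotients is `≤ 2 C`, and their difference is at
most `2 δ 3^d 2 C` by `y05_upper` / `y05_lower`; `t ↦ max 0 (2 C - t)` is 1-Lipschitz. `L = 4 C 3^d`. -/
theorem ph_LL (C : ℝ) (hC : 0 < C) : ∃ L : ℝ, 0 ≤ L ∧ ∀ (δ : ℝ) (x y : K), 0 ≤ δ → δ ≤ 1 / 2 → x ≠ 0 →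
    Cl δ x y → |ph C y - ph C x| ≤ L * δ := by
  refine ⟨4 * C * 3 ^ dg K, by positivity, fun δ x y h0 h1 hx h => ?_⟩
  have hy : y ≠ 0 := cl_ne h1 hx h
  have u := y05_upper h0 h1 hx h
  have l := y05_lower h0 h1 hx h
  have hax : 0 ≤ house x ^ dg K / nm x := by
    have := nm_pos hx
    have := house_pos hx
    positivity
  have hay : 0 ≤ house y ^ dg K / nm y := by
    have := nm_pos hy
    have := house_pos hy
    positivity
  unfold ph
  rw [if_neg hx, if_neg hy]
  set a := house x ^ dg K / nm x with ha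
  set b := house y ^ dg K / nm y with hb
  set t : ℝ := 3 ^ dg K with ht
  have ht0 : 0 < t := by positivity
  have hδt : 0 ≤ 2 * δ * t := by positivity
  rcases le_total (2 * C) a with h2 | h2
  · rcases le_total (2 * C) b with h3 | h3
    · rw [max_eq_left (by linarith), max_eq_left (by linarith), sub_self, abs_zero]
      positivity
    · rw [max_eq_left (b := 2 * C - a) (by linarith), max_eq_right (by linarith), sub_zero,
        abs_of_nonneg (by linarith)]
      have : 2 * δ * t * b ≤ 2 * δ * t * (2 * C) := by gcongr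
      nlinarith
  · have hm : |max 0 (2 * C - b) - max 0 (2 * C - a)| ≤ |(2 * C - b) - (2 * C - a)| := by
      rw [max_comm 0 (2 * C - b), max_comm 0 (2 * C - a)]
      exact abs_max_sub_max_le_abs _ _ _
    refine hm.trans ?_
    rw [abs_le]
    have h4 : 2 * δ * t * a ≤ 2 * δ * t * (2 * C) := by gcongr
    rcases le_total b a with h5 | h5
    · have h6 : 2 * δ * t * b ≤ 2 * δ * t * (2 * C) := by
        have := h5.trans h2
        gcongr
      constructor
      · nlinarith
      · nlinarith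
    · constructor
      · nlinarith
      · have : 0 ≤ 4 * C * t * δ := by positivity
        linarith

theorem ph_nonneg (C : ℝ) (x : K) : 0 ≤ ph C x := by
  unfold ph
  split_ifs
  · exact le_rfl
  · exact le_max_left _ _

theorem ph_le (C : ℝ) (hC : 0 ≤ C) (x : K) : ph C x ≤ 2 * C := by
  unfold ph
  split_ifs with h
  · linarith
  · have hx := nm_pos h
    have hh := house_pos h
    have : 0 ≤ house x ^ dg K / nm x := by positivity
    exact max_le (by linarith) (by linarith)

theorem ph_rg {C : ℝ} {x : K} (h : ph C x ≠ 0) : Rg (2 * C) x := by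
  unfold ph at h
  split_ifs at h with hx
  · exact absurd rfl h
  · have hn := nm_pos hx
    refine ⟨hx, ?_⟩
    by_contra hcon
    push Not at hcon
    apply h
    refine max_eq_left ?_
    have : 2 * C ≤ house x ^ dg K / nm x := by
      rw [le_div_iff₀ hn]
      exact hcon.le
    linarith

theorem ph_ge {C : ℝ} {x : K} (h : Rg C x) : C ≤ ph C x := by
  have hn := nm_pos h.1
  unfold ph
  rw [if_neg h.1]
  refine le_max_of_le_right ?_
  have : house x ^ dg K / nm x ≤ C := by
    rw [div_le_iff₀ hn]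
    exact h.2
  linarith

end CFTY
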