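import Mathlib
import Pool.Agent.Lib.CFT.Y01

/-! # CFT module Y, chunk Y09: finitely many units -/

open NumberField

namespace CFTY

variable {K : Type} [Field K] [NumberField K]

/-- PROOF. `NumberField.Embeddings.finite_of_norm_le`, `norm_embedding_le_house`. -/
theorem fin_units (A : ℝ) : {u : (𝓞 K)ˣ | house (((u : (𝓞 K)ˣ) : 𝓞 K) : K) ≤ A}.Finite := by
  have h1 := Embeddings.finite_of_norm_le K ℂ A
  refine Set.Finite.subset (h1.preimage (f := fun u : (𝓞 K)ˣ => (((u : (𝓞 K)ˣ) : 𝓞 K) : K)) ?_) ?_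
  · intro u _ v _ h
    exact Units.ext (RingOfIntegers.ext h)
  · intro u hu
    exact ⟨RingOfIntegers.isIntegral_coe _, fun φ => (norm_embedding_le_house _ φ).trans hu⟩


/-- PROOF. Let `M = max (house x) (house (u x))`. `‖σ u‖ = ‖σ (u x)‖ / ‖σ x‖`, `nm x ≤ ‖σ x‖ house x ^ (d - 1)` (`nm_le`), so
`‖σ u‖ nm x ≤ house (u x) house x ^ (d - 1) ≤ M ^ d ≤ max A B * nm x` (`nm (u x) = nm x`). -/
theorem house_unit {A B : ℝ} {x : K} (u : (𝓞 K)ˣ) (h1 : Rg A x)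
    (h2 : Rg B ((((u : (𝓞 K)ˣ) : 𝓞 K) : K) * x)) : house (((u : (𝓞 K)ˣ) : 𝓞 K) : K) ≤ max A B := by
  have hd : 1 ≤ dg K := dg_pos
  obtain ⟨hx, hA⟩ := h1
  obtain ⟨hux, hB⟩ := h2
  rw [nm_mul, nm_unit, one_mul] at hB
  have hn := nm_pos hx
  set M : ℝ := max (house x) (house ((((u : (𝓞 K)ˣ) : 𝓞 K) : K) * x)) with hM
  have hM0 : 0 ≤ M := (house_nonneg x).trans (le_max_left _ _)
  have hMd : M ^ dg K ≤ max A B * nm x := by
    rcases le_total (house x) (house ((((u : (𝓞 K)ˣ) : 𝓞 K) : K) * x)) with h | h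
    · rw [hM, max_eq_right h]
      exact hB.trans (mul_le_mul_of_nonneg_right (le_max_right _ _) hn.le)
    · rw [hM, max_eq_left h]
      exact hA.trans (mul_le_mul_of_nonneg_right (le_max_left _ _) hn.le)
  have key : ∀ σ : K →+* ℂ, ‖σ (((u : (𝓞 K)ˣ) : 𝓞 K) : K)‖ ≤ max A B := by
    intro σ
    have h3 := nm_le x σ
    have h4 := norm_embedding_le_house ((((u : (𝓞 K)ˣ) : 𝓞 K) : K) * x) σ
    rw [map_mul, norm_mul] at h4
    have h5 : ‖σ (((u : (𝓞 K)ˣ) : 𝓞 K) : K)‖ * nm x ≤ max A B * nm x := by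
      calc ‖σ (((u : (𝓞 K)ˣ) : 𝓞 K) : K)‖ * nm x
          ≤ ‖σ (((u : (𝓞 K)ˣ) : 𝓞 K) : K)‖ * (‖σ x‖ * house x ^ (dg K - 1)) :=
            mul_le_mul_of_nonneg_left h3 (norm_nonneg _)
        _ = (‖σ (((u : (𝓞 K)ˣ) : 𝓞 K) : K)‖ * ‖σ x‖) * house x ^ (dg K - 1) := by ring
        _ ≤ M * M ^ (dg K - 1) := by
            refine mul_le_mul (h4.trans (le_max_right _ _)) (pow_le_pow_left₀ (house_nonneg x) (le_max_left _ _) _)
              (pow_nonneg (house_nonneg x) _) hM0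
        _ = M ^ dg K := by
            rw [← pow_succ']
            congr 1
            omega
        _ ≤ max A B * nm x := hMd
    exact le_of_mul_le_mul_right h5 hn
  unfold house
  rw [pi_norm_le_iff_of_nonempty]
  exact key


end CFTY
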