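import Mathlib
import Pool.Agent.Lib.CFT.Y05
import Pool.Agent.Lib.CFT.Y09

/-! # CFT module Y, chunk Y10: the sum of the cut-off functions -/

open NumberField

namespace CFTY

variable {K : Type} [Field K] [NumberField K]

variable (E : Subgroup (𝓞 K)ˣ)

/-- PROOF. `ph C (u x) ≠ 0` gives `Rg (2 C) (u x)` (`ph_rg`), `Rg A x` for `A = house x ^ d / nm x`, so `house u ≤ max A (2 C)` (`house_unit`), finitely many
(`fin_units`). For `x = 0` all values are 0. -/
theorem wt_fin (C : ℝ) (x : K) :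
    (Function.support fun u : E => ph C ((((u : (𝓞 K)ˣ) : 𝓞 K) : K) * x)).Finite := by
  by_cases hx : x = 0
  · have h : (Function.support fun u : E => ph C ((((u : (𝓞 K)ˣ) : 𝓞 K) : K) * x)) = ∅ := by
      rw [Function.support_eq_empty_iff]
      funext u
      rw [hx, mul_zero]
      unfold ph
      rw [if_pos rfl]
      rfl
    rw [h]
    exact Set.finite_empty
  · have hn := nm_pos hx
    have hA : Rg (house x ^ dg K / nm x) x := ⟨hx, by rw [div_mul_cancel₀ _ hn.ne']⟩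
    refine Set.Finite.subset ((fin_units (K := K) (max (house x ^ dg K / nm x) (2 * C))).preimage
      (f := fun u : E => (u : (𝓞 K)ˣ)) Subtype.val_injective.injOn) ?_
    intro u hu
    exact house_unit (u : (𝓞 K)ˣ) hA (ph_rg hu)


/-- PROOF. Reindex by `u ↦ u v` (`Equiv.mulRight`). -/
theorem wt_inv (C : ℝ) (x : K) {v : (𝓞 K)ˣ} (hv : v ∈ E) : Wt C E ((((v : (𝓞 K)ˣ) : 𝓞 K) : K) * x) = Wt C E x := by
  unfold Wt
  rw [← (Equiv.mulRight (⟨v, hv⟩ : E)).tsum_eq (fun u : E => ph C ((((u : (𝓞 K)ˣ) : 𝓞 K) : K) * x))]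
  refine tsum_congr fun u => ?_
  congr 1
  simp only [Equiv.coe_mulRight, Subgroup.coe_mul, Units.val_mul, map_mul]
  ring


/-- PROOF. One of the terms is `≥ C` (`ph_ge`), all are `≥ 0`, the support is finite. -/
theorem wt_ge {C : ℝ} {x : K} (u : (𝓞 K)ˣ) (hu : u ∈ E) (h : Rg C ((((u : (𝓞 K)ˣ) : 𝓞 K) : K) * x)) :
    C ≤ Wt C E x := by
  have h1 : Summable fun u : E => ph C ((((u : (𝓞 K)ˣ) : 𝓞 K) : K) * x) := summable_of_hasFiniteSupport (wt_fin E C x)
  have h2 := h1.le_tsum (⟨u, hu⟩ : E) (fun j _ => ph_nonneg C _)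
  exact (ph_ge h).trans h2


/-- For `x` in `Rg A` the sum is over a fixed finite set of units. PROOF. `{u ∈ E : house u ≤ max A (2 C)}`, `house_unit`. -/
theorem wt_finset (C A : ℝ) : ∃ U : Finset E, ∀ x : K, Rg A x →
    Wt C E x = ∑ u ∈ U, ph C (((((u : E) : (𝓞 K)ˣ) : 𝓞 K) : K) * x) := by
  classical
  have hfin : {u : E | house ((((u : (𝓞 K)ˣ) : 𝓞 K) : K)) ≤ max A (2 * C)}.Finite :=
    (fin_units (K := K) (max A (2 * C))).preimage (f := fun u : E => (u : (𝓞 K)ˣ)) Subtype.val_injective.injOn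
  refine ⟨hfin.toFinset, fun x hx => ?_⟩
  unfold Wt
  refine tsum_eq_sum fun u hu => ?_
  by_contra h
  exact hu (hfin.mem_toFinset.2 (house_unit (u : (𝓞 K)ˣ) hx (ph_rg h)))


end CFTY
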