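import Mathlib
import Pool.Agent.Lib.CFT.Y10

/-! # CFT module Y, chunk Y11: the sum of the cut-off functions is Lipschitz -/

open NumberField

namespace CFTY

variable {K : Type} [Field K] [NumberField K]

variable (E : Subgroup (𝓞 K)ˣ)

/-- PROOF. If `Rg C x`, `Cl δ x y`, `δ ≤ 1/2` then `Rg (3^d C) y` (`cl_house_upper`, `cl_nm_lower`). -/
theorem rg_cl {C δ : ℝ} {x y : K} (hC : 0 ≤ C) (h0 : 0 ≤ δ) (h1 : δ ≤ 1 / 2) (h : Rg C x) (hc : Cl δ x y) :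
    Rg (3 ^ dg K * C) y := by
  obtain ⟨hx, hR⟩ := h
  refine ⟨cl_ne h1 hx hc, ?_⟩
  have h2 := cl_house_upper h0 hc
  have h3 := cl_nm_lower h1 hc
  have hn := nm_nonneg x
  have h4 : (1 + δ) ^ dg K ≤ 3 ^ dg K * (1 - δ) ^ dg K := by
    rw [← mul_pow]
    exact pow_le_pow_left₀ (by linarith) (by linarith) _
  calc house y ^ dg K ≤ ((1 + δ) * house x) ^ dg K := pow_le_pow_left₀ (house_nonneg y) h2 _
    _ = (1 + δ) ^ dg K * house x ^ dg K := mul_pow _ _ _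
    _ ≤ (1 + δ) ^ dg K * (C * nm x) := mul_le_mul_of_nonneg_left hR (pow_nonneg (by linarith) _)
    _ ≤ (3 ^ dg K * (1 - δ) ^ dg K) * (C * nm x) := mul_le_mul_of_nonneg_right h4 (mul_nonneg hC hn)
    _ = (3 ^ dg K * C) * ((1 - δ) ^ dg K * nm x) := by ring
    _ ≤ (3 ^ dg K * C) * nm y := mul_le_mul_of_nonneg_left h3 (mul_nonneg (by positivity) hC)


/-- PROOF. `U` from `wt_finset` with `A = 3^d C`. Let `u ∈ E` with `Rg C (u x)`; replace `x, y` by `u x, u y` (`wt_inv`, `cl_mul`). Then `x` and `y` are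
in `Rg A` (`rg_cl`; `C ≤ 3^d C`), so both values are sums over `U`; `ph_LL`. -/
theorem wt_LL {C : ℝ} (hC : 0 < C) (hE : ∀ x : K, x ≠ 0 → ∃ u ∈ E, Rg C ((((u : (𝓞 K)ˣ) : 𝓞 K) : K) * x)) :
    ∃ L : ℝ, 0 ≤ L ∧ ∀ (δ : ℝ) (x y : K), 0 ≤ δ → δ ≤ 1 / 2 → x ≠ 0 → Cl δ x y →
      |Wt C E y - Wt C E x| ≤ L * δ := by
  classical
  obtain ⟨U, hU⟩ := wt_finset E C (3 ^ dg K * C)
  obtain ⟨L, hL0, hL⟩ := ph_LL (K := K) C hC
  refine ⟨(U.card : ℝ) * L, mul_nonneg (Nat.cast_nonneg _) hL0, ?_⟩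
  intro δ x y h0 h1 hx hc
  obtain ⟨u, hu, hR⟩ := hE x hx
  rw [← wt_inv E C x hu, ← wt_inv E C y hu]
  have hc' := cl_mul hc (((u : (𝓞 K)ˣ) : 𝓞 K) : K)
  have hRy := rg_cl hC.le h0 h1 hR hc'
  have hRx : Rg (3 ^ dg K * C) ((((u : (𝓞 K)ˣ) : 𝓞 K) : K) * x) := by
    refine rg_cl hC.le le_rfl (by norm_num) hR ?_
    intro σ
    rw [sub_self, norm_zero, zero_mul]
  rw [hU _ hRy, hU _ hRx, ← Finset.sum_sub_distrib]
  refine (Finset.abs_sum_le_sum_abs _ _).trans ?_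
  have h2 : ∀ w ∈ U, |ph C (((((w : E) : (𝓞 K)ˣ) : 𝓞 K) : K) * ((((u : (𝓞 K)ˣ) : 𝓞 K) : K) * y)) -
      ph C (((((w : E) : (𝓞 K)ˣ) : 𝓞 K) : K) * ((((u : (𝓞 K)ˣ) : 𝓞 K) : K) * x))| ≤ L * δ := by
    intro w _
    refine hL δ _ _ h0 h1 ?_ (cl_mul hc' _)
    refine mul_ne_zero ?_ hR.1
    have h3 : ((w : (𝓞 K)ˣ) : 𝓞 K) ≠ 0 := Units.ne_zero _
    exact RingOfIntegers.coe_ne_zero_iff.2 h3
  refine (Finset.sum_le_sum h2).trans ?_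
  rw [Finset.sum_const, nsmul_eq_mul, mul_assoc]


end CFTY
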