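import Mathlib
import Pool.Agent.Lib.CFT.Y08
import Pool.Agent.Lib.CFT.Y11

/-! # CFT module Y, chunk Y12: partition of unity -/

open NumberField

namespace CFTY

variable {K : Type} [Field K] [NumberField K]

/-- difference of quotients -/
theorem y12_quot {p q P Q C Lp Lw δ : ℝ} (hC : 0 < C) (hP : C ≤ P) (hQ : C ≤ Q) (hp0 : 0 ≤ p) (hp : p ≤ 2 * C)
    (h1 : |q - p| ≤ Lp * δ) (h2 : |Q - P| ≤ Lw * δ) : |q / Q - p / P| ≤ (Lp / C + 2 * Lw / C) * δ := by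
  have hP0 : 0 < P := lt_of_lt_of_le hC hP
  have hQ0 : 0 < Q := lt_of_lt_of_le hC hQ
  have hLp : 0 ≤ Lp * δ := (abs_nonneg _).trans h1
  have hLw : 0 ≤ Lw * δ := (abs_nonneg _).trans h2
  have e : q / Q - p / P = (q - p) / Q - p * (Q - P) / (P * Q) := by
    field_simp
    ring
  rw [e]
  refine (abs_sub _ _).trans ?_
  rw [abs_div, abs_div, abs_mul, abs_of_pos hQ0, abs_of_pos (mul_pos hP0 hQ0), abs_of_nonneg hp0]
  have h3 : |q - p| / Q ≤ (Lp * δ) / C := div_le_div₀ hLp h1 hC hQ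
  have h4 : p * |Q - P| / (P * Q) ≤ (2 * C * (Lw * δ)) / (C * C) := by
    refine div_le_div₀ (by positivity) ?_ (by positivity) ?_
    · exact mul_le_mul hp h2 (abs_nonneg _) (by positivity)
    · exact mul_le_mul hP hQ hC.le hP0.le
  have h5 : (2 * C * (Lw * δ)) / (C * C) = 2 * Lw / C * δ := by
    field_simp
  have h6 : (Lp * δ) / C = Lp / C * δ := by ring
  rw [h5] at h4
  rw [h6] at h3
  linarith

/-- PROOF. `C` from `cocomp`, `E = RU m`, `w x = ph C x / Wt C E x` (0 at 0 because `ph C 0 = 0`), `A = 2 C`. For `x ≠ 0`: `Wt ≥ C` (`wt_ge`), so `w` is between 0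
and 2. LL: `|ph y / Wt y - ph x / Wt x| ≤ |ph y - ph x| / Wt y + ph x |Wt x - Wt y| / (Wt x Wt y)`, `ph_LL`, `wt_LL`, `ph_le`.
Sum: `w (u x) = ph C (u x) / Wt C E x` (`wt_inv`), finite support. -/
theorem part_unity (m : Ideal (𝓞 K)) (hm : m ≠ ⊥) : ∃ (w : K → ℝ) (A : ℝ), 0 < A ∧
    Bd (fun x => (w x : ℂ)) ∧ LL (fun x => (w x : ℂ)) ∧ (∀ x, w x ≠ 0 → Rg A x) ∧
    ∀ x : K, x ≠ 0 → HasSum (fun u : RU m => w ((((u : (𝓞 K)ˣ) : 𝓞 K) : K) * x)) 1 := by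
  obtain ⟨C, hC, hcc⟩ := cocomp m hm
  have hph0 : ph C (0 : K) = 0 := by
    by_contra h
    exact (ph_rg h).1 rfl
  have hWt : ∀ x : K, x ≠ 0 → C ≤ Wt C (RU m) x := by
    intro x hx
    obtain ⟨u, hu, hr⟩ := hcc x hx
    exact wt_ge (RU m) u hu hr
  refine ⟨fun x => ph C x / Wt C (RU m) x, 2 * C, by linarith, ?_, ?_, ?_, ?_⟩
  · refine ⟨2, by norm_num, ?_⟩
    intro x
    by_cases hx : x = 0
    · subst hx
      simp [hph0]
    · have h1 := hWt x hx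
      have h0 : 0 < Wt C (RU m) x := lt_of_lt_of_le hC h1
      have h2 := ph_nonneg C x
      have h3 := ph_le C hC.le x
      rw [Complex.norm_real, Real.norm_eq_abs, abs_of_nonneg (div_nonneg h2 h0.le), div_le_iff₀ h0]
      nlinarith
  · obtain ⟨Lp, hLp, hp⟩ := ph_LL (K := K) C hC
    obtain ⟨Lw, hLw, hw⟩ := wt_LL (RU m) hC hcc
    refine ⟨Lp / C + 2 * Lw / C, by positivity, ?_⟩
    intro δ x y h0 h1 hx hc
    have hy : y ≠ 0 := cl_ne h1 hx hc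
    have h2 := y12_quot hC (hWt x hx) (hWt y hy) (ph_nonneg C x) (ph_le C hC.le x) (hp δ x y h0 h1 hx hc)
      (hw δ x y h0 h1 hx hc)
    rw [← Complex.ofReal_sub, Complex.norm_real, Real.norm_eq_abs]
    exact h2
  · intro x hx
    have h1 : ph C x ≠ 0 := by
      intro h
      apply hx
      show ph C x / Wt C (RU m) x = 0
      rw [h, zero_div]
    exact ph_rg h1
  · intro x hx
    have h0 : Wt C (RU m) x ≠ 0 := (lt_of_lt_of_le hC (hWt x hx)).ne'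
    have e : (fun u : RU m => ph C ((((u : (𝓞 K)ˣ) : 𝓞 K) : K) * x) / Wt C (RU m) ((((u : (𝓞 K)ˣ) : 𝓞 K) : K) * x))
        = fun u : RU m => ph C ((((u : (𝓞 K)ˣ) : 𝓞 K) : K) * x) / Wt C (RU m) x := by
      funext u
      rw [wt_inv (RU m) C x u.2]
    show HasSum (fun u : RU m => ph C ((((u : (𝓞 K)ˣ) : 𝓞 K) : K) * x) / Wt C (RU m) ((((u : (𝓞 K)ˣ) : 𝓞 K) : K) * x)) 1
    rw [e]
    have hs : Summable (fun u : RU m => ph C ((((u : (𝓞 K)ˣ) : 𝓞 K) : K) * x)) :=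
      summable_of_finite_support (wt_fin (RU m) C x)
    have h1 := hs.hasSum.div_const (Wt C (RU m) x)
    have h2 : (∑' u : RU m, ph C ((((u : (𝓞 K)ˣ) : 𝓞 K) : K) * x)) / Wt C (RU m) x = 1 := by
      have : (∑' u : RU m, ph C ((((u : (𝓞 K)ˣ) : 𝓞 K) : K) * x)) = Wt C (RU m) x := rfl
      rw [this, div_self h0]
    rw [h2] at h1
    exact h1

end CFTY
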