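import Mathlib
import Pool.Agent.Lib.CFT.Y02

/-! # CFT module Y, chunk Y14: difference of two values of Fs -/

open NumberField

namespace CFTY

variable {K : Type} [Field K] [NumberField K]

/-- bounds for the logarithm -/
theorem y14_log (d : ℕ) {δ t : ℝ} (h0 : 0 ≤ δ) (h1 : δ ≤ 1 / 2) (ht1 : (1 - δ) ^ d ≤ t) (ht2 : t ≤ (1 + δ) ^ d) :
    0 < t ∧ |Real.log t| ≤ 2 * d * δ := by
  have hp : (0 : ℝ) < 1 - δ := by linarith
  have ht : 0 < t := lt_of_lt_of_le (pow_pos hp d) ht1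
  refine ⟨ht, ?_⟩
  have hl1 : d * Real.log (1 - δ) ≤ Real.log t := by
    rw [← Real.log_pow]
    exact Real.log_le_log (pow_pos hp d) ht1
  have hl2 : Real.log t ≤ d * Real.log (1 + δ) := by
    rw [← Real.log_pow]
    exact Real.log_le_log ht ht2
  have h3 : Real.log (1 + δ) ≤ δ := by
    have := Real.log_le_sub_one_of_pos (show (0 : ℝ) < 1 + δ by linarith)
    linarith
  have h4 : -(2 * δ) ≤ Real.log (1 - δ) := by
    have h5 := Real.one_sub_inv_le_log_of_pos hp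
    have h6 : (1 - δ)⁻¹ ≤ 1 + 2 * δ := by
      rw [inv_le_comm₀ hp (by linarith)]
      rw [inv_le_iff_one_le_mul₀ (by linarith)]
      nlinarith
    linarith
  have hd : (0 : ℝ) ≤ d := Nat.cast_nonneg d
  rw [abs_le]
  constructor
  · nlinarith
  · nlinarith

/-- PROOF. `t = e^u`, `|u| = |log t| ≤ 2 d δ` (`|log (1 ± δ)| ≤ 2 δ` for `δ ≤ 1/2`); `t ^ (-s) - 1 = exp (- s u) - 1`, `|exp z - 1| ≤ |z| e^|z|`
(`Complex.norm_exp_sub_one_le` or the power series), `|z| ≤ R 2 d δ ≤ R d`. -/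
theorem y14_pow (d : ℕ) {δ R t : ℝ} (h0 : 0 ≤ δ) (h1 : δ ≤ 1 / 2) (hR : 0 ≤ R) (ht1 : (1 - δ) ^ d ≤ t) (ht2 : t ≤ (1 + δ) ^ d)
    {s : ℂ} (hs : ‖s‖ ≤ R) : ‖(t : ℂ) ^ (-s) - 1‖ ≤ 2 * R * d * Real.exp (R * d) * δ := by
  obtain ⟨ht, hl⟩ := y14_log d h0 h1 ht1 ht2
  have htc : (t : ℂ) ≠ 0 := by exact_mod_cast ht.ne'
  rw [Complex.cpow_def_of_ne_zero htc, ← Complex.ofReal_log ht.le]
  set z : ℂ := (Real.log t : ℂ) * (-s) with hz
  have hzn : ‖z‖ ≤ 2 * R * d * δ := by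
    rw [hz, norm_mul, norm_neg, Complex.norm_real, Real.norm_eq_abs]
    calc |Real.log t| * ‖s‖ ≤ (2 * d * δ) * R := mul_le_mul hl hs (norm_nonneg _) (by positivity)
      _ = 2 * R * d * δ := by ring
  have hzn2 : ‖z‖ ≤ R * d := by
    refine hzn.trans ?_
    have : 0 ≤ R * d := by positivity
    nlinarith
  have hexp : ‖Complex.exp z - 1‖ ≤ ‖z‖ * Real.exp ‖z‖ := by
    have h2 := Complex.norm_exp_sub_sum_le_norm_mul_exp z 1
    simpa using h2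
  calc ‖Complex.exp z - 1‖ ≤ ‖z‖ * Real.exp ‖z‖ := hexp
    _ ≤ (2 * R * d * δ) * Real.exp (R * d) :=
        mul_le_mul hzn (Real.exp_le_exp.2 hzn2) (Real.exp_pos _).le (by positivity)
    _ = 2 * R * d * Real.exp (R * d) * δ := by ring

/-- PROOF. `‖t ^ (-s)‖ = t ^ (- re s)`, `t ≥ 2^(-d)`, `t ≤ 2^d`. -/
theorem y14_norm (d : ℕ) {δ R t : ℝ} (h0 : 0 ≤ δ) (h1 : δ ≤ 1 / 2) (hR : 0 ≤ R) (ht1 : (1 - δ) ^ d ≤ t) (ht2 : t ≤ (1 + δ) ^ d)
    {s : ℂ} (hs : ‖s‖ ≤ R) : ‖(t : ℂ) ^ (-s)‖ ≤ (2 : ℝ) ^ (R * d) := by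
  obtain ⟨ht, -⟩ := y14_log d h0 h1 ht1 ht2
  rw [Complex.norm_cpow_eq_rpow_re_of_pos ht]
  have hsr : |s.re| ≤ R := (Complex.abs_re_le_norm s).trans hs
  have hd : (0 : ℝ) ≤ d := Nat.cast_nonneg d
  have h2 : |Real.log t| ≤ d * Real.log 2 := by
    have hl2 : Real.log t ≤ d * Real.log 2 := by
      rw [← Real.log_pow]
      refine Real.log_le_log ht (ht2.trans ?_)
      exact pow_le_pow_left₀ (by linarith) (by linarith) d
    have hl1 : -(d * Real.log 2) ≤ Real.log t := by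
      have h3 : ((2 : ℝ) ^ d)⁻¹ ≤ t := by
        refine le_trans ?_ ht1
        rw [← inv_pow]
        exact pow_le_pow_left₀ (by norm_num) (by linarith) d
      have h4 := Real.log_le_log (by positivity) h3
      rw [Real.log_inv, Real.log_pow] at h4
      exact h4
    rw [abs_le]
    exact ⟨hl1, hl2⟩
  rw [Real.rpow_def_of_pos ht, Real.rpow_def_of_pos (by norm_num : (0 : ℝ) < 2)]
  refine Real.exp_le_exp.2 ?_
  have h5 : Real.log t * (-s).re ≤ |Real.log t| * |s.re| := by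
    rw [← abs_mul, Complex.neg_re, mul_neg]
    exact (neg_le_abs _)
  have h6 : |Real.log t| * |s.re| ≤ (d * Real.log 2) * R :=
    mul_le_mul h2 hsr (abs_nonneg _) (by positivity)
  calc Real.log t * (-s).re ≤ (d * Real.log 2) * R := h5.trans h6
    _ = Real.log 2 * (R * d) := by ring

/-- PROOF. `t = nm y / nm x` (`cl_nm_lower`, `cl_nm_upper`), `nm y ^ (-s) = nm x ^ (-s) t ^ (-s)`.
`Fs g s y - Fs g s x = nm x ^ (-s) ((g y - g x) t ^ (-s) + g x (t ^ (-s) - 1))`. -/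
theorem fs_cl {g : K → ℂ} {B L R δ : ℝ} (hB : ∀ x, ‖g x‖ ≤ B)
    (hL : ∀ (δ : ℝ) (x y : K), 0 ≤ δ → δ ≤ 1 / 2 → x ≠ 0 → Cl δ x y → ‖g y - g x‖ ≤ L * δ)
    (h0 : 0 ≤ δ) (h1 : δ ≤ 1 / 2) (hR : 0 ≤ R) {s : ℂ} (hs : ‖s‖ ≤ R) {x y : K} (hx : x ≠ 0) (hc : Cl δ x y) :
    ‖Fs g s y - Fs g s x‖ ≤
      (L * (2 : ℝ) ^ (R * dg K) + B * (2 * R * dg K * Real.exp (R * dg K))) * δ * nm x ^ (-s.re) := by
  have hnx : 0 < nm x := nm_pos hx
  have hB0 : 0 ≤ B := (norm_nonneg _).trans (hB x)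
  set t : ℝ := nm y / nm x with ht
  have ht1 : (1 - δ) ^ dg K ≤ t := by
    rw [ht, le_div_iff₀ hnx]
    exact cl_nm_lower h1 hc
  have ht2 : t ≤ (1 + δ) ^ dg K := by
    rw [ht, div_le_iff₀ hnx]
    exact cl_nm_upper h0 hc
  obtain ⟨htp, -⟩ := y14_log (dg K) h0 h1 ht1 ht2
  have hny : nm y = nm x * t := by
    rw [ht]
    field_simp
  have e1 : (nm y : ℂ) ^ (-s) = (nm x : ℂ) ^ (-s) * (t : ℂ) ^ (-s) := by
    rw [hny, Complex.ofReal_mul, Complex.mul_cpow_ofReal_nonneg hnx.le htp.le]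
  have e2 : Fs g s y - Fs g s x = (nm x : ℂ) ^ (-s) * ((g y - g x) * (t : ℂ) ^ (-s) + g x * ((t : ℂ) ^ (-s) - 1)) := by
    unfold Fs
    rw [e1]
    ring
  have e3 : ‖(nm x : ℂ) ^ (-s)‖ = nm x ^ (-s.re) := by
    rw [Complex.norm_cpow_eq_rpow_re_of_pos hnx, Complex.neg_re]
  rw [e2, norm_mul, e3, mul_comm]
  refine mul_le_mul_of_nonneg_right ?_ (Real.rpow_nonneg hnx.le _)
  calc ‖(g y - g x) * (t : ℂ) ^ (-s) + g x * ((t : ℂ) ^ (-s) - 1)‖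
      ≤ ‖g y - g x‖ * ‖(t : ℂ) ^ (-s)‖ + ‖g x‖ * ‖(t : ℂ) ^ (-s) - 1‖ := by
        refine (norm_add_le _ _).trans ?_
        rw [norm_mul, norm_mul]
    _ ≤ (L * δ) * (2 : ℝ) ^ (R * dg K) + B * (2 * R * dg K * Real.exp (R * dg K) * δ) := by
        have h3 := hL δ x y h0 h1 hx hc
        have hLδ : 0 ≤ L * δ := (norm_nonneg _).trans h3
        refine add_le_add ?_ ?_
        · exact mul_le_mul h3 (y14_norm (dg K) h0 h1 hR ht1 ht2 hs) (norm_nonneg _) hLδ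
        · exact mul_le_mul (hB x) (y14_pow (dg K) h0 h1 hR ht1 ht2 hs) (norm_nonneg _) hB0
    _ = (L * (2 : ℝ) ^ (R * dg K) + B * (2 * R * dg K * Real.exp (R * dg K))) * δ := by ring

end CFTY
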