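import Mathlib
import Pool.Agent.Lib.CFT.Y14

/-! # CFT module Y, chunk Y15: difference of Fs at x + h and at x -/

open NumberField

namespace CFTY

variable {K : Type} [Field K] [NumberField K]

/-- PROOF. For `x ∈ Rg A`, `A ≥ 1`, `1 ≤ house x`, `σ₀ ≤ re s ≤ R`: `nm x ≥ house x ^ d / A`, so `nm x ^ (- re s) ≤ A ^ R house x ^ (- d re s) ≤
A ^ R house x ^ (- d σ₀)`. -/
theorem nm_rpow {A R σ₀ : ℝ} {x : K} (hA : 1 ≤ A) (hx : Rg A x) (h1 : 1 ≤ house x) (h0 : 0 ≤ σ₀) {σ : ℝ} (h2 : σ₀ ≤ σ)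
    (h3 : σ ≤ R) : nm x ^ (-σ) ≤ A ^ R * house x ^ (-((dg K : ℝ) * σ₀)) := by
  have hh : 0 < house x := by linarith
  have hA0 : 0 < A := by linarith
  have h4 : house x ^ dg K / A ≤ nm x := by
    rw [div_le_iff₀ hA0, mul_comm]
    exact hx.2
  have h5 : 0 < house x ^ dg K / A := by positivity
  calc nm x ^ (-σ) ≤ (house x ^ dg K / A) ^ (-σ) := Real.rpow_le_rpow_of_nonpos h5 h4 (by linarith)
    _ = A ^ σ * house x ^ (-((dg K : ℝ) * σ)) := by
        rw [Real.div_rpow (by positivity) hA0.le, ← Real.rpow_natCast, ← Real.rpow_mul hh.le, Real.rpow_neg hA0.le, div_inv_eq_mul,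
          mul_comm, mul_neg]
    _ ≤ A ^ R * house x ^ (-((dg K : ℝ) * σ₀)) := by
        refine mul_le_mul (Real.rpow_le_rpow_of_exponent_le hA h3) (Real.rpow_le_rpow_of_exponent_le h1 ?_) (by positivity)
          (by positivity)
        have : (dg K : ℝ) * σ₀ ≤ (dg K : ℝ) * σ := mul_le_mul_of_nonneg_left h2 (Nat.cast_nonneg _)
        linarith

/-- PROOF. As before (easier): `0` at `x = 0`; for `x ≠ 0`, `g x ≠ 0`: `‖Fs g s x‖ = ‖g x‖ nm x ^ (- re s) ≤ B A ^ (re s) house x ^ (- d re s)`, `house x ≥ (1 + house x) / 2`. -/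
theorem fs_norm {g : K → ℂ} {A : ℝ} (hB : Bd g) (hA : ∀ x, g x ≠ 0 → Rg A x) (s : ℂ) (hs : 0 ≤ s.re) :
    ∃ C : ℝ, ∀ x : 𝓞 K, ‖Fs g s (x : K)‖ ≤ C * (1 + house (x : K)) ^ (-((dg K : ℝ) * s.re)) := by
  obtain ⟨B, hB0, hB⟩ := hB
  obtain ⟨A', hA1, hAA⟩ : ∃ A' : ℝ, 1 ≤ A' ∧ A ≤ A' := ⟨max A 1, le_max_right _ _, le_max_left _ _⟩
  have hA0 : 0 < A' := by linarith
  refine ⟨B * A' ^ s.re * 2 ^ ((dg K : ℝ) * s.re), fun x => ?_⟩
  have hh := house_nonneg (x : K)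
  by_cases hg : g (x : K) = 0
  · unfold Fs
    rw [hg, zero_mul, norm_zero]
    positivity
  · have hx := hA _ hg
    have hx' : Rg A' (x : K) := ⟨hx.1, hx.2.trans (mul_le_mul_of_nonneg_right hAA (nm_nonneg _))⟩
    have h1 : 1 ≤ house (x : K) := one_le_house_of_isIntegral x.isIntegral_coe hx.1
    have h2 := nm_rpow hA1 hx' h1 hs (le_refl s.re) (le_refl s.re)
    have h3 : house (x : K) ^ (-((dg K : ℝ) * s.re)) ≤
        2 ^ ((dg K : ℝ) * s.re) * (1 + house (x : K)) ^ (-((dg K : ℝ) * s.re)) := by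
      have e : (2 : ℝ) ^ ((dg K : ℝ) * s.re) * (1 + house (x : K)) ^ (-((dg K : ℝ) * s.re)) =
          ((1 + house (x : K)) / 2) ^ (-((dg K : ℝ) * s.re)) := by
        rw [Real.div_rpow (by linarith) (by norm_num), Real.rpow_neg (by norm_num : (0 : ℝ) ≤ 2), div_inv_eq_mul, mul_comm]
      rw [e]
      refine Real.rpow_le_rpow_of_nonpos (by linarith) (by linarith) ?_
      have : 0 ≤ (dg K : ℝ) * s.re := mul_nonneg (Nat.cast_nonneg _) hs
      linarith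
    unfold Fs
    rw [norm_mul, Complex.norm_cpow_eq_rpow_re_of_pos (nm_pos hx.1), Complex.neg_re]
    calc ‖g (x : K)‖ * nm (x : K) ^ (-s.re) ≤ B * (A' ^ s.re * (2 ^ ((dg K : ℝ) * s.re) *
          (1 + house (x : K)) ^ (-((dg K : ℝ) * s.re)))) := by
          refine mul_le_mul (hB _) (h2.trans (mul_le_mul_of_nonneg_left h3 (by positivity))) (Real.rpow_nonneg (nm_nonneg _) _) hB0
      _ = B * A' ^ s.re * 2 ^ ((dg K : ℝ) * s.re) * (1 + house (x : K)) ^ (-((dg K : ℝ) * s.re)) := by ring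

end CFTY
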