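import Mathlib
import Pool.Agent.Lib.CFT.Y15

/-! # CFT module Y, chunk Y15B: difference of Fs at x + h and at x -/

open NumberField

namespace CFTY

variable {K : Type} [Field K] [NumberField K]

theorem y15b_neg (x : K) : house (-x) = house x := by
  unfold house
  rw [map_neg, norm_neg]

theorem y15b_mono {A A' : ℝ} (h : A ≤ A') {x : K} (hx : Rg A x) : Rg A' x :=
  ⟨hx.1, hx.2.trans (mul_le_mul_of_nonneg_right h (nm_nonneg x))⟩

theorem y15b_one_le {x : 𝓞 K} (hx : (x : K) ≠ 0) : 1 ≤ house (x : K) :=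
  one_le_house_of_isIntegral x.isIntegral_coe hx

/-- the estimate near a point of the region -/
theorem y15b_near {g : K → ℂ} {A B L R σ₀ : ℝ} (hA1 : 1 ≤ A) (hB : ∀ x, ‖g x‖ ≤ B)
    (hL : ∀ (δ : ℝ) (x y : K), 0 ≤ δ → δ ≤ 1 / 2 → x ≠ 0 → Cl δ x y → ‖g y - g x‖ ≤ L * δ) (hL0 : 0 ≤ L) (hB0 : 0 ≤ B)
    (hR : 0 ≤ R) (h0 : 0 ≤ σ₀) {s : ℂ} (hs : ‖s‖ ≤ R) (hs' : σ₀ ≤ s.re) {z k : K} (hz : Rg A z) (hz1 : 1 ≤ house z)
    (hk : A * house k ≤ 1 / 2 * house z) :
    ‖Fs g s (z + k) - Fs g s z‖ ≤ (L * (2 : ℝ) ^ (R * dg K) + B * (2 * R * dg K * Real.exp (R * dg K))) *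
      (A * house k) * A ^ R * house z ^ (-((dg K : ℝ) * σ₀ + 1)) := by
  have hz0 : 0 < house z := by linarith
  have hδ0 : 0 ≤ A * house k / house z := by
    have := house_nonneg k
    positivity
  have hδ1 : A * house k / house z ≤ 1 / 2 := by
    rw [div_le_iff₀ hz0]
    exact hk
  have hc : Cl (A * house k / house z) z (z + k) := by
    refine cl_add (by linarith) hδ0 hz ?_
    rw [div_mul_cancel₀ _ hz0.ne']
  have h1 := fs_cl hB hL hδ0 hδ1 hR hs hz.1 hc
  have h2 : nm z ^ (-s.re) ≤ A ^ R * house z ^ (-((dg K : ℝ) * σ₀)) :=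
    nm_rpow hA1 hz hz1 h0 hs' ((Complex.re_le_norm s).trans hs)
  have hM : 0 ≤ L * (2 : ℝ) ^ (R * dg K) + B * (2 * R * dg K * Real.exp (R * dg K)) := by positivity
  refine h1.trans ?_
  calc (L * (2 : ℝ) ^ (R * dg K) + B * (2 * R * dg K * Real.exp (R * dg K))) * (A * house k / house z) * nm z ^ (-s.re)
      ≤ (L * (2 : ℝ) ^ (R * dg K) + B * (2 * R * dg K * Real.exp (R * dg K))) * (A * house k / house z) *
        (A ^ R * house z ^ (-((dg K : ℝ) * σ₀))) := mul_le_mul_of_nonneg_left h2 (mul_nonneg hM hδ0)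
    _ = (L * (2 : ℝ) ^ (R * dg K) + B * (2 * R * dg K * Real.exp (R * dg K))) *
      (A * house k) * A ^ R * house z ^ (-((dg K : ℝ) * σ₀ + 1)) := by
        have e : -((dg K : ℝ) * σ₀ + 1) = -((dg K : ℝ) * σ₀) - 1 := by ring
        rw [e, Real.rpow_sub_one hz0.ne']
        ring

/-- trivial bound at the integers -/
theorem y15b_triv {g : K → ℂ} {B : ℝ} (hB : ∀ x, ‖g x‖ ≤ B) (hg : g 0 = 0) {s : ℂ} (hs : 0 ≤ s.re)
    (x : 𝓞 K) : ‖Fs g s (x : K)‖ ≤ B := by
  unfold Fs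
  by_cases hx : x = 0
  · rw [hx]
    have e : ((0 : 𝓞 K) : K) = 0 := rfl
    rw [e, hg, zero_mul, norm_zero]
    exact (norm_nonneg _).trans (hB 0)
  · have h1 : 1 ≤ nm (x : K) := one_le_nm hx
    rw [norm_mul, Complex.norm_cpow_eq_rpow_re_of_pos (by linarith)]
    have h2 : nm (x : K) ^ (-s).re ≤ 1 := by
      rw [Complex.neg_re]
      exact Real.rpow_le_one_of_one_le_of_nonpos h1 (by linarith)
    calc ‖g (x : K)‖ * nm (x : K) ^ (-s).re ≤ B * 1 :=
          mul_le_mul (hB _) h2 (Real.rpow_nonneg (by linarith) _) ((norm_nonneg _).trans (hB 0))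
      _ = B := mul_one B

/-- comparison of powers -/
theorem y15b_cmp {a b c E : ℝ} (hb : 0 < b) (hE : 0 ≤ E) (ha : 0 < a) (hc : 0 < c) (h : b ≤ c * a) :
    a ^ (-E) ≤ c ^ E * b ^ (-E) := by
  have h1 : b ^ E ≤ (c * a) ^ E := Real.rpow_le_rpow hb.le h hE
  rw [Real.mul_rpow hc.le ha.le] at h1
  rw [Real.rpow_neg ha.le, Real.rpow_neg hb.le, ← div_eq_mul_inv, inv_le_comm₀ (by positivity) (by positivity), inv_div,
    div_le_iff₀ (by positivity), mul_comm]
  exact h1

/-- The main estimate. `g` is bounded, `LL`, and 0 outside `Rg A`. -/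
theorem fs_diff {g : K → ℂ} {A : ℝ} (hB : Bd g) (hL : LL g) (hA : ∀ x, g x ≠ 0 → Rg A x) (h : 𝓞 K) {R σ₀ : ℝ}
    (hR : 0 ≤ R) (h0 : 0 ≤ σ₀) : ∃ C : ℝ, ∀ s : ℂ, ‖s‖ ≤ R → σ₀ ≤ s.re → ∀ x : 𝓞 K,
      ‖Fs g s ((x : K) + (h : K)) - Fs g s (x : K)‖ ≤ C * (1 + house (x : K)) ^ (-((dg K : ℝ) * σ₀ + 1)) := by
  obtain ⟨B, hB0, hB⟩ := hB
  obtain ⟨L, hL0, hL⟩ := hL
  have hg : g 0 = 0 := by
    by_contra hne
    exact (hA 0 hne).1 rfl
  obtain ⟨A', hA1, hAA⟩ : ∃ A' : ℝ, 1 ≤ A' ∧ A ≤ A' := ⟨max A 1, le_max_right _ _, le_max_left _ _⟩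
  have hA' : ∀ x, g x ≠ 0 → Rg A' x := fun x hx => y15b_mono hAA (hA x hx)
  have hh : 0 ≤ house (h : K) := house_nonneg _
  set M : ℝ := L * (2 : ℝ) ^ (R * dg K) + B * (2 * R * dg K * Real.exp (R * dg K)) with hM
  have hM0 : 0 ≤ M := by positivity
  set E : ℝ := (dg K : ℝ) * σ₀ + 1 with hE
  have hE0 : 0 ≤ E := by positivity
  set T : ℝ := 4 * A' * (house (h : K) + 1) with hT
  have hT4 : 4 ≤ T := by nlinarith
  set C1 : ℝ := M * (A' * house (h : K)) * A' ^ R with hC1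
  have hC10 : 0 ≤ C1 := by positivity
  refine ⟨C1 * 4 ^ E + 2 * B * (1 + T) ^ E, fun s hs hs' x => ?_⟩
  have hx0 : 0 ≤ house (x : K) := house_nonneg _
  have hp : 0 < (1 + house (x : K)) ^ (-E) := by positivity
  by_cases hc : T ≤ house (x : K)
  · have hmain : ‖Fs g s ((x : K) + (h : K)) - Fs g s (x : K)‖ ≤ C1 * 4 ^ E * (1 + house (x : K)) ^ (-E) := by
      have hx1 : 1 ≤ house (x : K) := by linarith
      have hAh : A' * house (h : K) ≤ 1 / 4 * house (x : K) := by nlinarith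
      by_cases hgx : g (x : K) = 0
      · by_cases hgy : g ((x : K) + (h : K)) = 0
        · unfold Fs
          rw [hgx, hgy, zero_mul, zero_mul, sub_zero, norm_zero]
          positivity
        · have hhx : house (h : K) ≤ 1 / 4 * house (x : K) := by nlinarith
          have h3 : house (x : K) ≤ house ((x : K) + (h : K)) + house (h : K) := by
            have h4 := house_add_le ((x : K) + (h : K)) (-(h : K))
            rw [y15b_neg, add_neg_cancel_right] at h4
            exact h4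
          have h5 := y15b_near (z := (x : K) + (h : K)) (k := -(h : K)) hA1 hB hL hL0 hB0 hR h0 hs hs' (hA' _ hgy)
            (by linarith) (by rw [y15b_neg]; linarith)
          rw [y15b_neg, add_neg_cancel_right, norm_sub_rev] at h5
          refine h5.trans ?_
          have h6 : house ((x : K) + (h : K)) ^ (-E) ≤ 4 ^ E * (1 + house (x : K)) ^ (-E) :=
            y15b_cmp (by linarith) hE0 (by linarith) (by norm_num) (by linarith)
          calc M * (A' * house (h : K)) * A' ^ R * house ((x : K) + (h : K)) ^ (-E)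
              ≤ C1 * (4 ^ E * (1 + house (x : K)) ^ (-E)) := mul_le_mul_of_nonneg_left h6 hC10
            _ = C1 * 4 ^ E * (1 + house (x : K)) ^ (-E) := by ring
      · have h5 := y15b_near (z := (x : K)) (k := (h : K)) hA1 hB hL hL0 hB0 hR h0 hs hs' (hA' _ hgx) hx1 (by linarith)
        refine h5.trans ?_
        have h6 : house (x : K) ^ (-E) ≤ 4 ^ E * (1 + house (x : K)) ^ (-E) :=
          y15b_cmp (by linarith) hE0 (by linarith) (by norm_num) (by linarith)
        calc M * (A' * house (h : K)) * A' ^ R * house (x : K) ^ (-E)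
            ≤ C1 * (4 ^ E * (1 + house (x : K)) ^ (-E)) := mul_le_mul_of_nonneg_left h6 hC10
          _ = C1 * 4 ^ E * (1 + house (x : K)) ^ (-E) := by ring
    have h7 : 0 ≤ 2 * B * (1 + T) ^ E * (1 + house (x : K)) ^ (-E) := by positivity
    rw [add_mul]
    linarith
  · rw [not_le] at hc
    have h1 : ‖Fs g s ((x : K) + (h : K)) - Fs g s (x : K)‖ ≤ 2 * B := by
      have h2 := y15b_triv hB hg (h0.trans hs') x
      have h3 := y15b_triv hB hg (h0.trans hs') (x + h)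
      have e : ((x + h : 𝓞 K) : K) = (x : K) + (h : K) := rfl
      rw [e] at h3
      have h4 := norm_sub_le (Fs g s ((x : K) + (h : K))) (Fs g s (x : K))
      linarith
    have h2 : 1 ≤ (1 + T) ^ E * (1 + house (x : K)) ^ (-E) := by
      rw [Real.rpow_neg (by linarith), ← div_eq_mul_inv, one_le_div (by positivity)]
      exact Real.rpow_le_rpow (by linarith) (by linarith) hE0
    have h3 : 2 * B ≤ 2 * B * ((1 + T) ^ E * (1 + house (x : K)) ^ (-E)) := le_mul_of_one_le_right (by positivity) h2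
    have h4 : 0 ≤ C1 * 4 ^ E * (1 + house (x : K)) ^ (-E) := by positivity
    rw [add_mul]
    linarith

end CFTY
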