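import Mathlib
import Pool.Agent.Lib.CFT.Y01

/-! # CFT module Y, chunk Y13: summation over the ring of integers -/

open NumberField

namespace CFTY

variable {K : Type} [Field K] [NumberField K]

open scoped Classical in
theorem y13_norm_le (x : K) : ‖mixedEmbedding K x‖ ≤ house x := by
  rw [Prod.norm_def]
  refine max_le ?_ ?_
  · refine (pi_norm_le_iff_of_nonneg (house_nonneg x)).2 fun w => ?_
    rw [mixedEmbedding.mixedEmbedding_apply_isReal, InfinitePlace.norm_embedding_of_isReal]
    rw [← InfinitePlace.norm_embedding_eq]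
    exact norm_embedding_le_house x _
  · refine (pi_norm_le_iff_of_nonneg (house_nonneg x)).2 fun w => ?_
    rw [mixedEmbedding.mixedEmbedding_apply_isComplex]
    exact norm_embedding_le_house x _

/-- PROOF. `ZLattice.summable_norm_rpow` for the lattice `L` = image of `𝓞 K` in `(K →+* ℂ) → ℂ` under `canonicalEmbedding K` (discrete:
`canonicalEmbedding.integerLattice.inter_ball_finite`; its `ℤ`-rank is `dg K`: `L` is isomorphic to `𝓞 K`, `RingOfIntegers.rank`), composed with the bijection `𝓞 K ≃ L`:
`∑ house x ^ (-β) < ∞` (`house x = ‖canonicalEmbedding K x‖`), and `(1 + house x) ^ (-β) ≤ house x ^ (-β)` for `x ≠ 0`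
(at the one point `x = 0` the value does not matter). -/
theorem summ_house {β : ℝ} (hβ : (dg K : ℝ) < β) : Summable fun x : 𝓞 K => (1 + house (x : K)) ^ (-β) := by
  classical
  have hinj : Function.Injective (((mixedEmbedding K).comp (algebraMap (𝓞 K) K)).toIntAlgHom.toLinearMap) :=
    (mixedEmbedding_injective K).comp RingOfIntegers.coe_injective
  let e : 𝓞 K ≃ₗ[ℤ] mixedEmbedding.integerLattice K := LinearEquiv.ofInjective _ hinj
  have hr : Module.finrank ℤ (mixedEmbedding.integerLattice K) = dg K := by
    rw [← e.finrank_eq, RingOfIntegers.rank]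
    rfl
  have h := ZLattice.summable_norm_rpow (mixedEmbedding.integerLattice K) (-β) (by rw [hr]; linarith)
  have h2 : Summable fun x : 𝓞 K => ‖e x‖ ^ (-β) := e.toEquiv.summable_iff.2 h
  have h3 : Summable fun x : 𝓞 K => if x = 0 then (1 : ℝ) else 0 := by
    refine summable_of_ne_finset_zero (s := {0}) fun x hx => ?_
    rw [if_neg]
    rwa [Finset.mem_singleton] at hx
  have hβ0 : 0 < β := lt_of_le_of_lt (Nat.cast_nonneg _) hβ
  refine Summable.of_nonneg_of_le (fun x => Real.rpow_nonneg (by have := house_nonneg (x : K); linarith) _) (fun x => ?_) (h2.add h3)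
  have hh := house_nonneg (x : K)
  by_cases hx : x = 0
  · rw [if_pos hx]
    have h4 : (1 + house (x : K)) ^ (-β) ≤ 1 := Real.rpow_le_one_of_one_le_of_nonpos (by linarith) (by linarith)
    have h5 : 0 ≤ ‖e x‖ ^ (-β) := Real.rpow_nonneg (norm_nonneg _) _
    linarith
  · rw [if_neg hx, add_zero]
    have h6 : 0 < ‖e x‖ := norm_pos_iff.2 fun h0 => hx (e.map_eq_zero_iff.1 h0)
    refine Real.rpow_le_rpow_of_nonpos h6 ?_ (by linarith)
    have h7 : ‖e x‖ ≤ house (x : K) := y13_norm_le (x : K)
    linarith

end CFTY
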