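import Mathlib
import Pool.Agent.Lib.CFT.Y13
import Pool.Agent.Lib.CFT.Y15

/-! # CFT module Y, chunk Y16: sums over cosets -/

open NumberField

namespace CFTY

variable {K : Type} [Field K] [NumberField K]

/-- PROOF. `fs_norm`, `summ_house` with `β = d re s`. -/
theorem fs_summable {g : K → ℂ} {A : ℝ} (hB : Bd g) (hA : ∀ x, g x ≠ 0 → Rg A x) {s : ℂ} (hs : 1 < s.re) :
    Summable fun x : 𝓞 K => Fs g s (x : K) := by
  obtain ⟨C, hC⟩ := fs_norm hB hA s (by linarith)
  have hd : (1 : ℝ) ≤ dg K := by exact_mod_cast (dg_pos (K := K))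
  refine Summable.of_norm_bounded ((summ_house (K := K) (β := (dg K : ℝ) * s.re) ?_).mul_left C) hC
  nlinarith

/-- PROOF. Injective image in `𝓞 K` of a summable family. -/
theorem fs_summable_coset {g : K → ℂ} {A : ℝ} (hB : Bd g) (hA : ∀ x, g x ≠ 0 → Rg A x) {s : ℂ} (hs : 1 < s.re)
    (J : Ideal (𝓞 K)) (h : 𝓞 K) : Summable fun j : J => Fs g s (((j : 𝓞 K) : K) + (h : K)) := by
  have hi : Function.Injective fun j : J => (j : 𝓞 K) + h := fun a b hab => Subtype.ext (add_right_cancel hab)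
  have h2 : Summable fun j : J => Fs g s (((j : 𝓞 K) + h : 𝓞 K) : K) := (fs_summable hB hA hs).comp_injective hi
  refine h2.congr fun j => ?_
  have e : (((j : 𝓞 K) + h : 𝓞 K) : K) = ((j : 𝓞 K) : K) + (h : K) := rfl
  rw [e]

end CFTY
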