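import Mathlib
import Pool.Agent.Lib.CFT.Y16
import Pool.Agent.Lib.CFT.Y15B

/-! # CFT module Y, chunk Y17: translation of a coset -/

open NumberField

namespace CFTY

variable {K : Type} [Field K] [NumberField K]

/-- for fixed `x` the function `Fs g s x` is analytic in `s` (if `nm x ≠ 0`; for `x = 0` it is 0 because `g 0 = 0`) -/
theorem fs_diffble {g : K → ℂ} (hg : g 0 = 0) (x : K) : Differentiable ℂ fun s => Fs g s x := by
  unfold Fs
  by_cases hx : x = 0
  · have e : (fun s : ℂ => g x * (nm x : ℂ) ^ (-s)) = fun _ => 0 := by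
      funext s
      rw [hx, hg, zero_mul]
    rw [e]
    exact differentiable_const _
  · have h1 : (nm x : ℂ) ≠ 0 := by
      exact_mod_cast (nm_pos hx).ne'
    exact (differentiable_id.neg.const_cpow (Or.inl h1)).const_mul _

/-- PROOF. `HP K` is open, it is the union of the open sets `{s | σ₀ < re s, ‖s‖ < R}`, `σ₀ > 1 - 1/d`, `σ₀ ≥ 0`. There `differentiableOn_tsum_of_summable_norm` with
the bound of `fs_diff`, summable by `summ_house` (`β = d σ₀ + 1 > d`; restricted to `J`). -/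
theorem trans_diff {g : K → ℂ} {A : ℝ} (hB : Bd g) (hL : LL g) (hA : ∀ x, g x ≠ 0 → Rg A x) (J : Ideal (𝓞 K)) (h : 𝓞 K) :
    DifferentiableOn ℂ (fun s => ∑' j : J, (Fs g s (((j : 𝓞 K) : K) + (h : K)) - Fs g s ((j : 𝓞 K) : K))) (HP K) := by
  have hg : g 0 = 0 := by
    by_contra hne
    exact (hA 0 hne).1 rfl
  have hd : (1 : ℝ) ≤ dg K := by exact_mod_cast (dg_pos (K := K))
  have hd1 : 1 / (dg K : ℝ) ≤ 1 := (div_le_one (by linarith)).2 hd
  intro s₀ hs₀
  have hs1 : 1 - 1 / (dg K : ℝ) < s₀.re := hs₀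
  obtain ⟨σ, hσ1, hσ2⟩ := exists_between hs1
  have hσ0 : 0 ≤ σ := by linarith
  have hσd : (dg K : ℝ) < (dg K : ℝ) * σ + 1 := by
    have h3 : (dg K : ℝ) * (1 - 1 / (dg K : ℝ)) < (dg K : ℝ) * σ := mul_lt_mul_of_pos_left hσ1 (by linarith)
    have h4 : (dg K : ℝ) * (1 - 1 / (dg K : ℝ)) = (dg K : ℝ) - 1 := by
      have : (dg K : ℝ) ≠ 0 := by linarith
      field_simp
    linarith
  obtain ⟨C, hC⟩ := fs_diff hB hL hA h (R := ‖s₀‖ + 1) (σ₀ := σ) (by positivity) hσ0
  let U : Set ℂ := {s | σ < s.re ∧ ‖s‖ < ‖s₀‖ + 1}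
  have hU : IsOpen U := (isOpen_lt continuous_const Complex.continuous_re).inter (isOpen_lt continuous_norm continuous_const)
  have hsU : s₀ ∈ U := ⟨hσ2, by linarith⟩
  have hsum : Summable fun j : J => C * (1 + house (((j : 𝓞 K)) : K)) ^ (-((dg K : ℝ) * σ + 1)) :=
    ((summ_house (K := K) hσd).comp_injective (Subtype.val_injective (p := fun x => x ∈ J))).mul_left C
  have hdiff : DifferentiableOn ℂ (fun s => ∑' j : J, (Fs g s (((j : 𝓞 K) : K) + (h : K)) - Fs g s ((j : 𝓞 K) : K))) U := by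
    refine Complex.differentiableOn_tsum_of_summable_norm hsum (fun j => ?_) hU (fun j s hs => ?_)
    · exact ((fs_diffble hg _).sub (fs_diffble hg _)).differentiableOn
    · exact hC s hs.2.le hs.1.le j
  exact (hdiff.differentiableAt (hU.mem_nhds hsU)).differentiableWithinAt

end CFTY
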