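import Mathlib
import Pool.Agent.Lib.CFT.Y17

/-! # CFT module Y, chunk Y18: periodic weights with mean value zero -/

open NumberField

namespace CFTY

variable {K : Type} [Field K] [NumberField K]

/-- PROOF. `H s = ∑ q : 𝓞 K ⧸ J, a q * ∑' j : J, (Fs g s (j + r q) - Fs g s j)` where `r q` is a representative of `q` (`Quotient.out` or
`Ideal.Quotient.mk_surjective`). Analytic: `trans_diff`. For `re s > 1`: `𝓞 K` is the disjoint union of the cosets `r q + J` (`Equiv.sigmaFiberEquiv`,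
or the bijection `(𝓞 K ⧸ J) × J ≃ 𝓞 K`, `(q, j) ↦ j + r q`, e.g. `AddSubgroup.addGroupEquivQuotientProdAddSubgroup`), everything is summable
(`fs_summable`, `fs_summable_coset`): `∑' x, a x Fs x = ∑ q, a q ∑' j, Fs (j + r q)`, and `∑ q, a q * ∑' j, Fs j = 0`. -/
theorem periodic {g : K → ℂ} {A : ℝ} (hB : Bd g) (hL : LL g) (hA : ∀ x, g x ≠ 0 → Rg A x) (J : Ideal (𝓞 K)) (hJ : J ≠ ⊥)
    (a : 𝓞 K ⧸ J → ℂ) (ha : ∑ᶠ q, a q = 0) : ∃ H : ℂ → ℂ, DifferentiableOn ℂ H (HP K) ∧
      ∀ s : ℂ, 1 < s.re → H s = ∑' x : 𝓞 K, a (Ideal.Quotient.mk J x) * Fs g s (x : K) := by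
  classical
  haveI : Finite (𝓞 K ⧸ J) := Ideal.finiteQuotientOfFreeOfNeBot _ hJ
  haveI : Fintype (𝓞 K ⧸ J) := Fintype.ofFinite _
  rw [finsum_eq_sum_of_fintype] at ha
  obtain ⟨r, hr⟩ : ∃ r : 𝓞 K ⧸ J → 𝓞 K, ∀ q, Ideal.Quotient.mk J (r q) = q :=
    ⟨Function.surjInv Ideal.Quotient.mk_surjective, Function.surjInv_eq Ideal.Quotient.mk_surjective⟩
  refine ⟨fun s => ∑ q, a q * ∑' j : J, (Fs g s (((j : 𝓞 K) : K) + (r q : K)) - Fs g s ((j : 𝓞 K) : K)), ?_, ?_⟩
  · exact DifferentiableOn.fun_sum fun q _ => (trans_diff hB hL hA J (r q)).const_mul (a q)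
  · intro s hs
    have hS0 : Summable fun j : J => Fs g s ((j : 𝓞 K) : K) := by
      have h := fs_summable_coset hB hA hs J 0
      refine h.congr fun j => ?_
      have h0 : ((0 : 𝓞 K) : K) = 0 := map_zero (algebraMap (𝓞 K) K)
      rw [h0, add_zero]
    have hSq : ∀ q, Summable fun j : J => Fs g s (((j : 𝓞 K) : K) + (r q : K)) := fun q => fs_summable_coset hB hA hs J (r q)
    have h1 : ∀ q, ∑' j : J, (Fs g s (((j : 𝓞 K) : K) + (r q : K)) - Fs g s ((j : 𝓞 K) : K)) =
        (∑' j : J, Fs g s (((j : 𝓞 K) : K) + (r q : K))) - ∑' j : J, Fs g s ((j : 𝓞 K) : K) := fun q => (hSq q).tsum_sub hS0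
    have hF := fs_summable hB hA hs (K := K)
    have hsum : Summable fun x : 𝓞 K => a (Ideal.Quotient.mk J x) * Fs g s (x : K) := by
      refine Summable.of_norm_bounded (g := fun x : 𝓞 K => (∑ q, ‖a q‖) * ‖Fs g s (x : K)‖) (hF.norm.mul_left _) fun x => ?_
      rw [norm_mul]
      refine mul_le_mul_of_nonneg_right ?_ (norm_nonneg _)
      exact Finset.single_le_sum (f := fun q => ‖a q‖) (fun q _ => norm_nonneg _) (Finset.mem_univ _)
    let e : (𝓞 K ⧸ J) × J ≃ 𝓞 K :=
      { toFun := fun p => (p.2 : 𝓞 K) + r p.1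
        invFun := fun x => (Ideal.Quotient.mk J x, ⟨x - r (Ideal.Quotient.mk J x), by
          rw [← Ideal.Quotient.eq_zero_iff_mem, map_sub, hr, sub_self]⟩)
        left_inv := by
          rintro ⟨q, j⟩
          have h2 : Ideal.Quotient.mk J ((j : 𝓞 K) + r q) = q := by
            rw [map_add, hr, Ideal.Quotient.eq_zero_iff_mem.2 j.2, zero_add]
          refine Prod.ext h2 ?_
          apply Subtype.ext
          change (j : 𝓞 K) + r q - r (Ideal.Quotient.mk J ((j : 𝓞 K) + r q)) = j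
          rw [h2, add_sub_cancel_right]
        right_inv := by
          intro x
          change x - r (Ideal.Quotient.mk J x) + r (Ideal.Quotient.mk J x) = x
          rw [sub_add_cancel] }
    have he : ∀ q j, Ideal.Quotient.mk J (e (q, j)) = q := by
      intro q j
      change Ideal.Quotient.mk J ((j : 𝓞 K) + r q) = q
      rw [map_add, hr, Ideal.Quotient.eq_zero_iff_mem.2 j.2, zero_add]
    have h3 : ∑' x : 𝓞 K, a (Ideal.Quotient.mk J x) * Fs g s (x : K) = ∑ q, a q * ∑' j : J, Fs g s (((j : 𝓞 K) : K) + (r q : K)) := by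
      have h4 := ((e.summable_iff).2 hsum).tsum_prod
      rw [← e.tsum_eq]
      refine h4.trans ((tsum_fintype _).trans (Finset.sum_congr rfl fun q _ => ?_))
      rw [← tsum_mul_left]
      refine tsum_congr fun j => ?_
      change a (Ideal.Quotient.mk J (e (q, j))) * Fs g s (algebraMap (𝓞 K) K ((j : 𝓞 K) + r q)) = _
      rw [he, map_add]
    rw [h3]
    simp only [h1, mul_sub, Finset.sum_sub_distrib, ← Finset.sum_mul, ha, zero_mul, sub_zero]


end CFTY
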