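import Mathlib
import Pool.Agent.Lib.CFT.YDefs

/-! # CFT module Y, chunk Y19: counting residue classes -/

open NumberField

namespace CFTY

variable {K : Type} [Field K] [NumberField K]

/-- PROOF. The map `Ideal.Quotient.factor : 𝓞 K ⧸ J → 𝓞 K ⧸ h` is surjective, its fibres have the same number of elements (translates of the kernel;
`AddMonoidHom.card_fiber_eq_of_mem_range`), there are `absNorm h` fibres and `absNorm J` elements (`Ideal.absNorm_apply`, `Submodule.cardQuot_apply`). -/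
theorem card_fiber {J h : Ideal (𝓞 K)} (hJ : J ≠ ⊥) (hJh : J ≤ h) (z : 𝓞 K) :
    Nat.card {q : 𝓞 K ⧸ J // Ideal.Quotient.factor hJh q = Ideal.Quotient.mk h z} * Ideal.absNorm h = Ideal.absNorm J := by
  classical
  have hh : h ≠ ⊥ := fun e => hJ (le_bot_iff.1 (e ▸ hJh))
  haveI : Finite (𝓞 K ⧸ J) := Ideal.finiteQuotientOfFreeOfNeBot J hJ
  haveI : Finite (𝓞 K ⧸ h) := Ideal.finiteQuotientOfFreeOfNeBot h hh
  letI : Fintype (𝓞 K ⧸ J) := Fintype.ofFinite _
  letI : Fintype (𝓞 K ⧸ h) := Fintype.ofFinite _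
  have hsurj := Ideal.Quotient.factor_surjective hJh
  have hfib : ∀ y : 𝓞 K ⧸ h, Nat.card {q : 𝓞 K ⧸ J // Ideal.Quotient.factor hJh q = y}
      = Nat.card {q : 𝓞 K ⧸ J // Ideal.Quotient.factor hJh q = Ideal.Quotient.mk h z} := by
    intro y
    have h1 := AddMonoidHom.card_fiber_eq_of_mem_range (Ideal.Quotient.factor hJh).toAddMonoidHom
      (x := y) (y := Ideal.Quotient.mk h z) (hsurj y) (hsurj _)
    rw [Nat.card_eq_fintype_card, Nat.card_eq_fintype_card, Fintype.card_subtype, Fintype.card_subtype]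
    exact h1
  rw [Ideal.absNorm_apply, Ideal.absNorm_apply, Submodule.cardQuot_apply, Submodule.cardQuot_apply]
  have h2 : Nat.card (𝓞 K ⧸ J) = Nat.card (Σ y : 𝓞 K ⧸ h, {q : 𝓞 K ⧸ J // Ideal.Quotient.factor hJh q = y}) :=
    Nat.card_congr (Equiv.sigmaFiberEquiv (Ideal.Quotient.factor hJh)).symm
  rw [h2, Nat.card_sigma]
  rw [Finset.sum_congr rfl (fun y _ => hfib y), Finset.sum_const, smul_eq_mul, Finset.card_univ,
    Nat.card_eq_fintype_card (α := 𝓞 K ⧸ h), mul_comm]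

/-- PROOF. `b` and `c` are coprime to `m`, so is `b * c`; `z = 1 mod m`, `z ∈ b c`: `Ideal.IsCoprime` gives `1 = u + v`, `u ∈ m`, `v ∈ d`; `z = v`. Then
`x - 1 ∈ m ∧ x ∈ d ↔ x - z ∈ m ⊓ d = m * d`. -/
theorem coset_eq {m d : Ideal (𝓞 K)} (h : IsCoprime d m) : ∃ z : 𝓞 K, ∀ x : 𝓞 K, (x - 1 ∈ m ∧ x ∈ d) ↔ x - z ∈ m * d := by
  obtain ⟨v, hv, u, hu, huv⟩ := Ideal.isCoprime_iff_exists.1 h
  refine ⟨v, ?_⟩
  intro x
  rw [Ideal.mul_eq_inf_of_isCoprime h.symm, Ideal.mem_inf]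
  have e : x - v = (x - 1) + u := by
    rw [← huv]
    ring
  constructor
  · rintro ⟨h1, h2⟩
    refine ⟨?_, d.sub_mem h2 hv⟩
    rw [e]
    exact m.add_mem h1 hu
  · rintro ⟨h1, h2⟩
    constructor
    · have : x - 1 = (x - v) - u := by
        rw [e]
        ring
      rw [this]
      exact m.sub_mem h1 hu
    · have : x = (x - v) + v := by ring
      rw [this]
      exact d.add_mem h2 hv

open Classical in
/-- PROOF. `coset_eq`: the condition is `x - z ∈ m * d`, which contains `J`; so it defines a function on the quotient (`a q = 1` if `factor q = mk z`), and the number of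
`q` with value 1 is `absNorm J / absNorm (m * d)` (`card_fiber`). -/
theorem weight {m d J : Ideal (𝓞 K)} (hJ : J ≠ ⊥) (h : IsCoprime d m) (hJd : J ≤ m * d) : ∃ a : 𝓞 K ⧸ J → ℂ,
    (∀ x : 𝓞 K, a (Ideal.Quotient.mk J x) = if x - 1 ∈ m ∧ x ∈ d then 1 else 0) ∧
      (∑ᶠ q, a q) * (Ideal.absNorm (m * d) : ℂ) = Ideal.absNorm J := by
  obtain ⟨z, hz⟩ := coset_eq h
  haveI : Finite (𝓞 K ⧸ J) := Ideal.finiteQuotientOfFreeOfNeBot J hJ
  letI : Fintype (𝓞 K ⧸ J) := Fintype.ofFinite _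
  refine ⟨fun q => if Ideal.Quotient.factor hJd q = Ideal.Quotient.mk (m * d) z then 1 else 0, ?_, ?_⟩
  · intro x
    show (if Ideal.Quotient.factor hJd (Ideal.Quotient.mk J x) = Ideal.Quotient.mk (m * d) z then (1 : ℂ) else 0) = _
    rw [Ideal.Quotient.factor_mk, Ideal.Quotient.eq]
    simp only [hz x]
  · rw [finsum_eq_sum_of_fintype, Finset.sum_boole, ← card_fiber hJ hJd z, Nat.card_eq_fintype_card,
      Fintype.card_subtype]
    push_cast
    rfl

end CFTY
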