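import Mathlib
import Pool.Agent.Lib.CFT.Y18
import Pool.Agent.Lib.CFT.Y19

/-! # CFT module Y, chunk Y20: comparison of two ideals -/

open NumberField

namespace CFTY

variable {K : Type} [Field K] [NumberField K]

open Classical in
/-- PROOF. `J = m * (b * c)`; the weights `a₁`, `a₂` of `Y19.weight` for `d = b * c` and `d = c`; `a = N b a₁ - a₂` has sum 0 (`absNorm` is multiplicative and not 0).
`periodic`; the two sums over `𝓞 K` are summable (`fs_summable`, coefficients 0 or 1), so the sum of the differences is the difference of the sums. -/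
theorem compare {g : K → ℂ} {A : ℝ} (hB : Bd g) (hL : LL g) (hA : ∀ x, g x ≠ 0 → Rg A x) {m b c : Ideal (𝓞 K)}
    (hm : m ≠ ⊥) (hb : b ≠ ⊥) (hc : c ≠ ⊥) (hbm : IsCoprime b m) (hcm : IsCoprime c m) :
    ∃ H : ℂ → ℂ, DifferentiableOn ℂ H (HP K) ∧ ∀ s : ℂ, 1 < s.re → H s =
      (Ideal.absNorm b : ℂ) * (∑' x : 𝓞 K, if x - 1 ∈ m ∧ x ∈ b * c then Fs g s (x : K) else 0) -
        ∑' x : 𝓞 K, if x - 1 ∈ m ∧ x ∈ c then Fs g s (x : K) else 0 := by
  have hbc : IsCoprime (b * c) m := hbm.mul_left hcm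
  have hJ : m * (b * c) ≠ ⊥ := mul_ne_zero hm (mul_ne_zero hb hc)
  have hle2 : m * (b * c) ≤ m * c := Ideal.mul_mono_right Ideal.mul_le_right
  obtain ⟨a₁, h11, h12⟩ := weight hJ hbc le_rfl
  obtain ⟨a₂, h21, h22⟩ := weight hJ hcm hle2
  haveI : Finite (𝓞 K ⧸ m * (b * c)) := Ideal.finiteQuotientOfFreeOfNeBot _ hJ
  haveI : Fintype (𝓞 K ⧸ m * (b * c)) := Fintype.ofFinite _
  have hN : ∀ I : Ideal (𝓞 K), I ≠ ⊥ → (Ideal.absNorm I : ℂ) ≠ 0 := fun I hI => Nat.cast_ne_zero.2 (mt Ideal.absNorm_eq_zero_iff.1 hI)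
  have ha1 : ∑ᶠ q, a₁ q = 1 := mul_right_cancel₀ (hN _ hJ) (by rw [h12, one_mul])
  have ha2 : ∑ᶠ q, a₂ q = (Ideal.absNorm b : ℂ) := by
    have hmc : m * c ≠ ⊥ := mul_ne_zero hm hc
    refine mul_right_cancel₀ (hN _ hmc) ?_
    rw [h22, map_mul, map_mul, map_mul]
    push_cast
    ring
  have ha : ∑ᶠ q, ((Ideal.absNorm b : ℂ) * a₁ q - a₂ q) = 0 := by
    rw [finsum_eq_sum_of_fintype] at ha1 ha2 ⊢
    rw [Finset.sum_sub_distrib, ← Finset.mul_sum, ha1, ha2, mul_one, sub_self]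
  obtain ⟨H, hH1, hH2⟩ := periodic hB hL hA (m * (b * c)) hJ _ ha
  refine ⟨H, hH1, fun s hs => ?_⟩
  rw [hH2 s hs]
  have hF := fs_summable hB hA hs (K := K)
  have hS : ∀ d : Ideal (𝓞 K), Summable fun x : 𝓞 K => if x - 1 ∈ m ∧ x ∈ d then Fs g s (x : K) else 0 := by
    intro d
    refine Summable.of_norm_bounded (g := fun x : 𝓞 K => ‖Fs g s (x : K)‖) hF.norm fun x => ?_
    split_ifs
    · exact le_rfl
    · rw [norm_zero]
      exact norm_nonneg _
  rw [← tsum_mul_left, ← ((hS (b * c)).mul_left _).tsum_sub (hS c)]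
  refine tsum_congr fun x => ?_
  rw [h11, h21]
  split_ifs <;> ring


end CFTY
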