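import Mathlib
import Pool.Agent.Lib.CFT.Y01

/-! # CFT module Y, chunk Y21: unfolding: the sum over one fibre -/

open NumberField

namespace CFTY

variable {K : Type} [Field K] [NumberField K]

/-- PROOF. `span {x} = span {y}`: `x = u y` with a unit `u` (`Ideal.span_singleton_eq_span_singleton`); `(u - 1) y = (x - 1) - (y - 1) ∈ m` and `y` is prime to `m`
(`y - 1 ∈ m`): `u - 1 = (u - 1) y - (u - 1)(y - 1) ∈ m`. `u = x / y` is totally positive. -/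
theorem fibre {m : Ideal (𝓞 K)} {x y : 𝓞 K} (hx : x - 1 ∈ m) (hy : y - 1 ∈ m) (hx' : TP (x : K)) (hy' : TP (y : K))
    (h : Ideal.span {x} = Ideal.span {y}) : ∃ u ∈ RU m, x = ((u : (𝓞 K)ˣ) : 𝓞 K) * y := by
  have h1 : Associated y x := (Ideal.span_singleton_eq_span_singleton.1 h).symm
  obtain ⟨u, hu⟩ := h1
  have hux : x = (u : 𝓞 K) * y := by rw [← hu, mul_comm]
  have hy0 : ((y : 𝓞 K) : K) ≠ 0 := hy'.1
  refine ⟨u, ⟨?_, ?_⟩, hux⟩
  · have e : (u : 𝓞 K) - 1 = ((x - 1) - (y - 1)) - ((u : 𝓞 K) - 1) * (y - 1) := by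
      rw [hux]
      ring
    rw [e]
    exact m.sub_mem (m.sub_mem hx hy) (m.mul_mem_left _ hy)
  · have e : ((u : 𝓞 K) : K) = (x : K) * (y : K)⁻¹ := by
      rw [eq_mul_inv_iff_mul_eq₀ hy0, ← map_mul, ← hux]
    rw [e]
    exact hx'.mul hy'.inv


open Classical in
/-- `tm χ s (span {x}) = ψ x * nm x ^ (-s)` (`HCh.ray`, `absNorm_span`). PROOF of the theorem. Let `f x` be the term. If `f x ≠ 0` then `x - 1 ∈ m`, `x ∈ j`, `TP x`, so `PrI m I`, `I ≤ j`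
for `I = span {x}`: so both sides are 0 if not `PrI m I ∧ I ≤ j`. Otherwise `I = span {y}`, `y - 1 ∈ m`, `TP y`; the map `u ↦ u y` from `RU m` to the fibre is injective and its
image contains the support of `f` (`fibre`); `f (u y) = w (u y) * tm χ s I`; the sum of `w (u y)` is 1. (`Function.Injective.hasSum_iff`, `HasSum.mul_right`.) -/
theorem fibre_sum {m : Ideal (𝓞 K)} {ψ : K → ℂ} {χ : Ideal (𝓞 K) →*₀ ℂ} (hχ : HCh m ψ χ) {w : K → ℝ}
    (hw : ∀ x : K, x ≠ 0 → HasSum (fun u : RU m => w ((((u : (𝓞 K)ˣ) : 𝓞 K) : K) * x)) 1) (j I : Ideal (𝓞 K)) (s : ℂ) :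
    HasSum (fun x : {x : 𝓞 K // Ideal.span {x} = I} => if (x : 𝓞 K) - 1 ∈ m ∧ (x : 𝓞 K) ∈ j then
      Fs (fun z => (if TP z then 1 else 0) * (w z : ℂ) * ψ z) s ((x : 𝓞 K) : K) else 0)
      (if PrI m I ∧ I ≤ j then CFTZ.tm χ s I else 0) := by
  have hterm : ∀ x : {x : 𝓞 K // Ideal.span {x} = I}, (x : 𝓞 K) - 1 ∈ m → TP (((x : 𝓞 K)) : K) →
      Fs (fun z => (if TP z then 1 else 0) * (w z : ℂ) * ψ z) s ((x : 𝓞 K) : K) = (w ((x : 𝓞 K) : K) : ℂ) * CFTZ.tm χ s I := by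
    rintro ⟨x, hx⟩ h1 h2
    change Fs (fun z => (if TP z then 1 else 0) * (w z : ℂ) * ψ z) s (x : K) = (w (x : K) : ℂ) * CFTZ.tm χ s I
    have h3 : χ I = ψ x := by rw [← hx, hχ.ray x h1 h2]
    have h4 : ((Ideal.absNorm I : ℕ) : ℂ) = ((nm (x : K) : ℝ) : ℂ) := by
      rw [← absNorm_span x, hx]
      norm_cast
    unfold Fs CFTZ.tm
    change (if TP (x : K) then (1 : ℂ) else 0) * (w (x : K) : ℂ) * ψ (x : K) * _ = _
    rw [if_pos h2, h3, h4]
    ring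
  by_cases hP : PrI m I ∧ I ≤ j
  · rw [if_pos hP]
    obtain ⟨⟨y, hy1, hy2, hy3⟩, hIj⟩ := hP
    have hmem : ∀ u : RU m, Ideal.span {(((u : (𝓞 K)ˣ) : 𝓞 K) * y)} = I := by
      intro u
      rw [hy3, Ideal.span_singleton_eq_span_singleton]
      exact (associated_mul_unit_right y u.1 u.1.isUnit).symm.trans (Associated.refl _) |> fun h => by
        rw [mul_comm]
        exact h
    let φ : RU m → {x : 𝓞 K // Ideal.span {x} = I} := fun u => ⟨((u : (𝓞 K)ˣ) : 𝓞 K) * y, hmem u⟩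
    have hy0 : y ≠ 0 := by
      rintro rfl
      exact hy2.1 (map_zero _)
    have hφ : Function.Injective φ := by
      intro u v huv
      have h1 : ((u : (𝓞 K)ˣ) : 𝓞 K) * y = ((v : (𝓞 K)ˣ) : 𝓞 K) * y := congrArg Subtype.val huv
      exact Subtype.ext (Units.ext (mul_right_cancel₀ hy0 h1))
    rw [← hφ.hasSum_iff]
    · have h1 := (Complex.hasSum_ofReal.2 (hw (y : K) hy2.1)).mul_right (CFTZ.tm χ s I)
      rw [Complex.ofReal_one, one_mul] at h1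
      have hfun : ((fun x : {x : 𝓞 K // Ideal.span {x} = I} => if (x : 𝓞 K) - 1 ∈ m ∧ (x : 𝓞 K) ∈ j then
        Fs (fun z => (if TP z then 1 else 0) * (w z : ℂ) * ψ z) s ((x : 𝓞 K) : K) else 0) ∘ φ) =
          fun u : RU m => (w ((((u : (𝓞 K)ˣ) : 𝓞 K) : K) * (y : K)) : ℂ) * CFTZ.tm χ s I := ?_
      · rw [hfun]
        exact h1
      funext u
      have h2 : ((φ u : 𝓞 K)) - 1 ∈ m := by
        change ((u : (𝓞 K)ˣ) : 𝓞 K) * y - 1 ∈ m
        have e : ((u : (𝓞 K)ˣ) : 𝓞 K) * y - 1 = (((u : (𝓞 K)ˣ) : 𝓞 K) - 1) * y + (y - 1) := by ring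
        rw [e]
        exact m.add_mem (m.mul_mem_right _ u.2.1) hy1
      have h3 : (φ u : 𝓞 K) ∈ j := by
        apply hIj
        exact (φ u).2.le (Ideal.mem_span_singleton_self _)
      have h4 : TP (((φ u : 𝓞 K)) : K) := by
        change TP (algebraMap (𝓞 K) K (((u : (𝓞 K)ˣ) : 𝓞 K) * y))
        rw [map_mul]
        exact u.2.2.mul hy2
      change (if ((φ u : 𝓞 K)) - 1 ∈ m ∧ ((φ u : 𝓞 K)) ∈ j then
        Fs (fun z => (if TP z then 1 else 0) * (w z : ℂ) * ψ z) s (((φ u : 𝓞 K)) : K) else 0) = _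
      rw [if_pos ⟨h2, h3⟩, hterm (φ u) h2 h4]
      change (w (algebraMap (𝓞 K) K (((u : (𝓞 K)ˣ) : 𝓞 K) * y)) : ℂ) * _ = _
      rw [map_mul]
    · intro x hx
      by_cases h1 : (x : 𝓞 K) - 1 ∈ m ∧ (x : 𝓞 K) ∈ j
      · rw [if_pos h1]
        by_cases h2 : TP (((x : 𝓞 K)) : K)
        · exfalso
          apply hx
          obtain ⟨u, hu, hu2⟩ := fibre h1.1 hy1 h2 hy2 (by rw [x.2, hy3])
          exact ⟨⟨u, hu⟩, Subtype.ext hu2.symm⟩
        · unfold Fs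
          change (if TP ((x : 𝓞 K) : K) then (1 : ℂ) else 0) * (w ((x : 𝓞 K) : K) : ℂ) * ψ ((x : 𝓞 K) : K) * _ = _
          rw [if_neg h2, zero_mul, zero_mul, zero_mul]
      · rw [if_neg h1]
  · rw [if_neg hP]
    have h0 : (fun x : {x : 𝓞 K // Ideal.span {x} = I} => if (x : 𝓞 K) - 1 ∈ m ∧ (x : 𝓞 K) ∈ j then
        Fs (fun z => (if TP z then 1 else 0) * (w z : ℂ) * ψ z) s ((x : 𝓞 K) : K) else 0) = fun _ => 0 := by
      funext x
      by_cases h1 : (x : 𝓞 K) - 1 ∈ m ∧ (x : 𝓞 K) ∈ j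
      · rw [if_pos h1]
        by_cases h2 : TP (((x : 𝓞 K)) : K)
        · exfalso
          apply hP
          refine ⟨⟨x, h1.1, h2, x.2.symm⟩, ?_⟩
          rw [← x.2, Ideal.span_singleton_le_iff_mem]
          exact h1.2
        · unfold Fs
          change (if TP ((x : 𝓞 K) : K) then (1 : ℂ) else 0) * (w ((x : 𝓞 K) : K) : ℂ) * ψ ((x : 𝓞 K) : K) * _ = _
          rw [if_neg h2, zero_mul, zero_mul, zero_mul]
      · rw [if_neg h1]
    rw [h0]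
    exact hasSum_zero


end CFTY
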