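import Mathlib
import Pool.Agent.Lib.CFT.Y16
import Pool.Agent.Lib.CFT.Y21

/-! # CFT module Y, chunk Y22: unfolding: the whole sum -/

open NumberField

namespace CFTY

variable {K : Type} [Field K] [NumberField K]

open Classical in
/-- PROOF. The family over `𝓞 K` is summable (`fs_summable` and `Summable.of_norm_bounded`, or `Summable.indicator`); `HasSum.tsum_fiberwise` (or `HasSum.sigma` with
`Equiv.sigmaFiberEquiv`) for the map `x ↦ span {x}`, with `fibre_sum`. -/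
theorem unfold_sum {m : Ideal (𝓞 K)} {ψ : K → ℂ} {χ : Ideal (𝓞 K) →*₀ ℂ} (hχ : HCh m ψ χ) {w : K → ℝ} {A : ℝ}
    (hw : ∀ x : K, x ≠ 0 → HasSum (fun u : RU m => w ((((u : (𝓞 K)ˣ) : 𝓞 K) : K) * x)) 1)
    (hB : Bd fun z => (if TP z then 1 else 0) * (w z : ℂ) * ψ z) (hA : ∀ x, w x ≠ 0 → Rg A x) (j : Ideal (𝓞 K))
    {s : ℂ} (hs : 1 < s.re) :
    ∑' x : 𝓞 K, (if x - 1 ∈ m ∧ x ∈ j then Fs (fun z => (if TP z then 1 else 0) * (w z : ℂ) * ψ z) s (x : K) else 0) =
      ∑' I : Ideal (𝓞 K), if PrI m I ∧ I ≤ j then CFTZ.tm χ s I else 0 := by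
  have hA' : ∀ x, (fun z => (if TP z then 1 else 0) * (w z : ℂ) * ψ z) x ≠ 0 → Rg A x := by
    intro x hx
    apply hA
    rintro h0
    apply hx
    change (if TP x then 1 else 0) * (w x : ℂ) * ψ x = 0
    rw [h0, Complex.ofReal_zero, mul_zero, zero_mul]
  have hF := fs_summable hB hA' hs (K := K)
  have hS : Summable fun x : 𝓞 K => if x - 1 ∈ m ∧ x ∈ j then
      Fs (fun z => (if TP z then 1 else 0) * (w z : ℂ) * ψ z) s (x : K) else 0 := by
    refine Summable.of_norm_bounded (g := fun x : 𝓞 K => ‖Fs (fun z => (if TP z then 1 else 0) * (w z : ℂ) * ψ z) s (x : K)‖) hF.norm fun x => ?_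
    split_ifs
    · exact le_rfl
    · rw [norm_zero]
      exact norm_nonneg _
  have h1 := ((Equiv.sigmaFiberEquiv fun x : 𝓞 K => (Ideal.span {x} : Ideal (𝓞 K))).hasSum_iff).2 hS.hasSum
  have h2 := h1.sigma fun I => fibre_sum hχ hw j I s
  exact h2.tsum_eq.symm


end CFTY
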