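import Mathlib
import Pool.Agent.Lib.CFT.YDefs

/-! # CFT module Y, chunk Y23: sums over ideals -/

open NumberField

namespace CFTY

variable {K : Type} [Field K] [NumberField K]

theorem tm_mul (χ : Ideal (𝓞 K) →*₀ ℂ) (s : ℂ) (a b : Ideal (𝓞 K)) :
    CFTZ.tm χ s (a * b) = CFTZ.tm χ s a * CFTZ.tm χ s b := by
  exact map_mul (CFTZ.tmH χ s) a b


/-- PROOF. `‖tm χ s a‖ ≤ (absNorm a) ^ (- re s)` for `a ≠ ⊥` (and 0 for `a = ⊥`), `CFTZ.ideal_summable`. -/
theorem tm_summable {m : Ideal (𝓞 K)} {ψ : K → ℂ} {χ : Ideal (𝓞 K) →*₀ ℂ} (hχ : HCh m ψ χ) {s : ℂ} (hs : 1 < s.re) :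
    Summable (CFTZ.tm χ s) := by
  have h1 : ∀ a, ‖χ a‖ ≤ 1 := by
    intro a
    by_cases ha : a = ⊥
    · subst ha
      have h2 : χ ⊥ = 0 := map_zero χ
      rw [h2, norm_zero]
      exact zero_le_one
    · by_cases hc : IsCoprime a m
      · exact (hχ.norm a ha hc).le
      · rw [hχ.zero a hc, norm_zero]
        exact zero_le_one
  refine Summable.of_norm_bounded (CFTZ.ideal_summable (K := K) s.re hs) fun a => ?_
  unfold CFTZ.tm
  have h3 : (-s).re ≠ 0 := by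
    rw [Complex.neg_re]
    linarith
  rw [norm_mul, Complex.norm_natCast_cpow_of_re_ne_zero _ h3, Complex.neg_re]
  exact mul_le_of_le_one_left (Real.rpow_nonneg (Nat.cast_nonneg _) _) (h1 a)


open Classical in
/-- PROOF. The ideals `I ≤ j` are the `a * j`; `a ↦ a * j` is injective (`j ≠ ⊥`). -/
theorem sum_multiples {j : Ideal (𝓞 K)} (hj : j ≠ ⊥) (F : Ideal (𝓞 K) → ℂ) :
    ∑' I : Ideal (𝓞 K), (if I ≤ j then F I else 0) = ∑' a : Ideal (𝓞 K), F (a * j) := by
  have hinj : Function.Injective fun a : Ideal (𝓞 K) => a * j := fun a b h => mul_right_cancel₀ hj h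
  have h1 : ∀ a : Ideal (𝓞 K), F (a * j) = (fun I => if I ≤ j then F I else 0) (a * j) := by
    intro a
    change _ = if a * j ≤ j then F (a * j) else 0
    rw [if_pos Ideal.mul_le_right]
  rw [tsum_congr h1]
  refine (hinj.tsum_eq ?_).symm
  intro I hI
  rw [Function.mem_support] at hI
  have h2 : I ≤ j := by
    by_contra h
    exact hI (if_neg h)
  obtain ⟨c, hc⟩ := Ideal.dvd_iff_le.2 h2
  exact ⟨c, by
    change c * j = I
    rw [hc, mul_comm]⟩


open Classical in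
/-- PROOF. For `c ∈ T`: `∑' I, [PrI m I ∧ I ≤ b c] tm I = tm c * ∑' a, [PrI m (a c) ∧ a ≤ b] tm a` (`sum_multiples` with `j = c`: `I ≤ b c ≤ c`, `a c ≤ b c ↔ a ≤ b`; `tm_mul`),
and `tm c ≠ 0`. Sum over `T`: for every `a` with `tm a ≠ 0` exactly one `c ∈ T` has `PrI m (a c)` (`HCh.zero`, `Reps`). Then `sum_multiples` with `j = b`, `tm_mul`, `tsum_mul_left`. -/
theorem sum_reps {m : Ideal (𝓞 K)} {ψ : K → ℂ} {χ : Ideal (𝓞 K) →*₀ ℂ} (hχ : HCh m ψ χ) {T : Finset (Ideal (𝓞 K))}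
    (hT : Reps m T) {b : Ideal (𝓞 K)} (hb : b ≠ ⊥) {s : ℂ} (hs : 1 < s.re) :
    ∑ c ∈ T, (CFTZ.tm χ s c)⁻¹ * ∑' I : Ideal (𝓞 K), (if PrI m I ∧ I ≤ b * c then CFTZ.tm χ s I else 0) =
      CFTZ.tm χ s b * Lc χ s := by
  have hsumm := tm_summable hχ hs
  have hne : ∀ c ∈ T, CFTZ.tm χ s c ≠ 0 := by
    intro c hc
    obtain ⟨h1, h2⟩ := hT.1 c hc
    unfold CFTZ.tm
    refine mul_ne_zero ?_ ?_
    · intro h0
      have h3 := hχ.norm c h1 h2
      rw [h0, norm_zero] at h3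
      exact zero_ne_one h3
    · intro h0
      rw [Complex.cpow_eq_zero_iff] at h0
      exact h1 (Ideal.absNorm_eq_zero_iff.1 (Nat.cast_eq_zero.1 h0.1))
  have hstep : ∀ c ∈ T, (CFTZ.tm χ s c)⁻¹ * ∑' I : Ideal (𝓞 K), (if PrI m I ∧ I ≤ b * c then CFTZ.tm χ s I else 0) =
      ∑' a : Ideal (𝓞 K), if PrI m (a * c) ∧ a ≤ b then CFTZ.tm χ s a else 0 := by
    intro c hc
    obtain ⟨h1, h2⟩ := hT.1 c hc
    have h3 : ∑' I : Ideal (𝓞 K), (if PrI m I ∧ I ≤ b * c then CFTZ.tm χ s I else 0) =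
        ∑' I : Ideal (𝓞 K), if I ≤ c then (fun I => if PrI m I ∧ I ≤ b * c then CFTZ.tm χ s I else 0) I else 0 := by
      refine tsum_congr fun I => ?_
      by_cases h4 : I ≤ c
      · rw [if_pos h4]
      · rw [if_neg h4, if_neg]
        rintro ⟨_, h5⟩
        exact h4 (h5.trans Ideal.mul_le_right)
    rw [h3, sum_multiples h1, ← tsum_mul_left]
    refine tsum_congr fun a => ?_
    have h6 : a * c ≤ b * c ↔ a ≤ b := by
      rw [← Ideal.dvd_iff_le, ← Ideal.dvd_iff_le, mul_dvd_mul_iff_right h1]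
    by_cases h7 : PrI m (a * c) ∧ a ≤ b
    · rw [if_pos h7]
      change _ * (if PrI m (a * c) ∧ a * c ≤ b * c then CFTZ.tm χ s (a * c) else 0) = _
      rw [if_pos ⟨h7.1, h6.2 h7.2⟩, tm_mul, mul_comm (CFTZ.tm χ s a), inv_mul_cancel_left₀ (hne c hc)]
    · rw [if_neg h7]
      change _ * (if PrI m (a * c) ∧ a * c ≤ b * c then CFTZ.tm χ s (a * c) else 0) = _
      rw [if_neg (fun h => h7 ⟨h.1, h6.1 h.2⟩), mul_zero]
  rw [Finset.sum_congr rfl hstep]
  have hS : ∀ c ∈ T, Summable fun a : Ideal (𝓞 K) => if PrI m (a * c) ∧ a ≤ b then CFTZ.tm χ s a else 0 := by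
    intro c _
    refine Summable.of_norm_bounded hsumm.norm fun a => ?_
    split_ifs
    · exact le_rfl
    · rw [norm_zero]
      exact norm_nonneg _
  rw [← Summable.tsum_finsetSum hS]
  have h8 : ∀ a : Ideal (𝓞 K), ∑ c ∈ T, (if PrI m (a * c) ∧ a ≤ b then CFTZ.tm χ s a else 0) = if a ≤ b then CFTZ.tm χ s a else 0 := by
    intro a
    by_cases hab : a ≤ b
    · rw [if_pos hab]
      by_cases ha : a ≠ ⊥ ∧ IsCoprime a m
      · obtain ⟨c, ⟨hc1, hc2⟩, hc3⟩ := hT.2 a ha.1 ha.2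
        rw [Finset.sum_eq_single c]
        · rw [if_pos ⟨hc2, hab⟩]
        · intro c' hc' hne'
          rw [if_neg]
          rintro ⟨h9, _⟩
          exact hne' (hc3 c' ⟨hc', h9⟩)
        · intro h
          exact absurd hc1 h
      · have h0 : CFTZ.tm χ s a = 0 := by
          unfold CFTZ.tm
          by_cases h10 : a = ⊥
          · have h11 : χ a = 0 := by
              rw [h10]
              exact map_zero χ
            rw [h11, zero_mul]
          · have h12 : ¬ IsCoprime a m := fun h => ha ⟨h10, h⟩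
            rw [hχ.zero a h12, zero_mul]
        simp only [h0, ite_self, Finset.sum_const_zero]
    · rw [if_neg hab]
      refine Finset.sum_eq_zero fun c _ => ?_
      rw [if_neg (fun h => hab h.2)]
  rw [tsum_congr h8, sum_multiples hb]
  unfold Lc
  rw [← tsum_mul_left]
  refine tsum_congr fun a => ?_
  rw [tm_mul, mul_comm]


end CFTY
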