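import Mathlib
import Pool.Agent.Lib.CFT.Y04
import Pool.Agent.Lib.CFT.Y12
import Pool.Agent.Lib.CFT.Y20
import Pool.Agent.Lib.CFT.Y22
import Pool.Agent.Lib.CFT.Y23

/-! # CFT module Y, chunk Y24: the multiples theorem -/

open NumberField

namespace CFTY

variable {K : Type} [Field K] [NumberField K]

theorem y24_norm_ne {c : Ideal (𝓞 K)} (hc : c ≠ ⊥) : (Ideal.absNorm c : ℂ) ≠ 0 :=
  Nat.cast_ne_zero.2 fun h => hc (Ideal.absNorm_eq_zero_iff.1 h)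

theorem y24_inv (χ : Ideal (𝓞 K) →*₀ ℂ) (s : ℂ) (c : Ideal (𝓞 K)) :
    (CFTZ.tm χ s c)⁻¹ = (χ c)⁻¹ * (Ideal.absNorm c : ℂ) ^ s := by
  unfold CFTZ.tm
  rw [mul_inv, Complex.cpow_neg, inv_inv]

theorem y24_top (χ : Ideal (𝓞 K) →*₀ ℂ) (s : ℂ) : CFTZ.tm χ s (⊤ : Ideal (𝓞 K)) = 1 := by
  unfold CFTZ.tm
  rw [Ideal.absNorm_top, Nat.cast_one, Complex.one_cpow, mul_one, ← Ideal.one_eq_top, map_one]

/-- MAIN THEOREM (for a modulus with a system of representatives). -/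
theorem multiples_aux {m : Ideal (𝓞 K)} (hm : m ≠ ⊥) {ψ : K → ℂ} (hψ : LL ψ) (hψ' : Bd ψ) {χ : Ideal (𝓞 K) →*₀ ℂ}
    (hχ : HCh m ψ χ) {T : Finset (Ideal (𝓞 K))} (hT : Reps m T) {b : Ideal (𝓞 K)} (hb : b ≠ ⊥) (hbm : IsCoprime b m) :
    ∃ H : ℂ → ℂ, DifferentiableOn ℂ H (HP K) ∧ ∀ s : ℂ, 1 < s.re →
      H s = (χ b * (Ideal.absNorm b : ℂ) ^ (1 - s) - 1) * Lc χ s := by
  classical
  obtain ⟨w, A, hA0, wB, wL, wA, wS⟩ := part_unity (K := K) m hm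
  have gB : Bd (K := K) (fun z => (if TP z then 1 else 0) * (w z : ℂ) * ψ z) := (Bd_TP.mul wB).mul hψ'
  have gL : LL (K := K) (fun z => (if TP z then 1 else 0) * (w z : ℂ) * ψ z) :=
    (LL_TP.mul wL Bd_TP wB).mul hψ (Bd_TP.mul wB) hψ'
  have gA : ∀ x : K, (if TP x then 1 else 0) * (w x : ℂ) * ψ x ≠ 0 → Rg A x := by
    intro x hx
    refine wA x fun h0 => hx ?_
    rw [h0, Complex.ofReal_zero, mul_zero, zero_mul]
  have hex : ∀ c : Ideal (𝓞 K), ∃ H : ℂ → ℂ, DifferentiableOn ℂ H (HP K) ∧ (c ∈ T → ∀ s : ℂ, 1 < s.re → H s =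
      (Ideal.absNorm b : ℂ) * (∑' x : 𝓞 K, if x - 1 ∈ m ∧ x ∈ b * c then
        Fs (fun z => (if TP z then 1 else 0) * (w z : ℂ) * ψ z) s (x : K) else 0) -
        ∑' x : 𝓞 K, if x - 1 ∈ m ∧ x ∈ c then
          Fs (fun z => (if TP z then 1 else 0) * (w z : ℂ) * ψ z) s (x : K) else 0) := by
    intro c
    by_cases hc : c ∈ T
    · obtain ⟨H, h1, h2⟩ := compare gB gL gA hm hb (hT.1 c hc).1 hbm (hT.1 c hc).2
      exact ⟨H, h1, fun _ => h2⟩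
    · exact ⟨fun _ => 0, differentiableOn_const _, fun h => absurd h hc⟩
  choose Hc hH1 hH2 using hex
  refine ⟨fun s => ∑ c ∈ T, ((χ c)⁻¹ * (Ideal.absNorm c : ℂ) ^ s) * Hc c s, ?_, fun s hs => ?_⟩
  · refine DifferentiableOn.fun_sum fun c hc => ?_
    refine DifferentiableOn.mul ?_ (hH1 c)
    refine DifferentiableOn.const_mul ?_ _
    exact (differentiable_id.const_cpow (Or.inl (y24_norm_ne (hT.1 c hc).1))).differentiableOn
  · have e1 : ∀ c ∈ T, ((χ c)⁻¹ * (Ideal.absNorm c : ℂ) ^ s) * Hc c s =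
        (Ideal.absNorm b : ℂ) * ((CFTZ.tm χ s c)⁻¹ *
          ∑' I : Ideal (𝓞 K), (if PrI m I ∧ I ≤ b * c then CFTZ.tm χ s I else 0)) -
          (CFTZ.tm χ s c)⁻¹ * ∑' I : Ideal (𝓞 K), (if PrI m I ∧ I ≤ ⊤ * c then CFTZ.tm χ s I else 0) := by
      intro c hc
      rw [hH2 c hc s hs, ← y24_inv, Ideal.top_mul, unfold_sum hχ wS gB wA (b * c) hs, unfold_sum hχ wS gB wA c hs]
      ring
    show (∑ c ∈ T, ((χ c)⁻¹ * (Ideal.absNorm c : ℂ) ^ s) * Hc c s) = _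
    rw [Finset.sum_congr rfl e1, Finset.sum_sub_distrib, ← Finset.mul_sum, sum_reps hχ hT hb hs,
      sum_reps hχ hT (b := ⊤) top_ne_bot hs, y24_top]
    have e2 : (Ideal.absNorm b : ℂ) ^ (1 - s) = (Ideal.absNorm b : ℂ) * (Ideal.absNorm b : ℂ) ^ (-s) := by
      rw [sub_eq_add_neg, Complex.cpow_add _ _ (y24_norm_ne hb), Complex.cpow_one]
    rw [e2]
    unfold CFTZ.tm
    ring

end CFTY
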