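import Mathlib
import Pool.Agent.Lib.CFT.Y26

/-! # CFT module Y, chunk Y27: representatives of the ray classes -/

open NumberField IsDedekindDomain

namespace CFTY

open CFT

variable {K : Type} [Field K] [NumberField K]

/-- divisors which are nonnegative and vanish on S -/
def y27P (S : Finset (Pr K)) (D : Dv K) : Prop := (∀ v, 0 ≤ D v) ∧ ∀ v ∈ S, D v = 0

theorem y27P_add {S : Finset (Pr K)} {D E : Dv K} (hD : y27P S D) (hE : y27P S E) : y27P S (D + E) :=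
  ⟨fun v => by rw [Finsupp.add_apply]; exact add_nonneg (hD.1 v) (hE.1 v),
    fun v hv => by rw [Finsupp.add_apply, hD.2 v hv, hE.2 v hv, add_zero]⟩

theorem y27P_nsmul {S : Finset (Pr K)} {D : Dv K} (hD : y27P S D) (n : ℕ) : y27P S (n • D) :=
  ⟨fun v => by rw [Finsupp.smul_apply]; exact nsmul_nonneg (hD.1 v) n,
    fun v hv => by rw [Finsupp.smul_apply, hD.2 v hv, smul_zero]⟩

theorem exists_reps (S : Finset (Pr K)) (N : ℕ) (hf : (Pray S N).FiniteIndex) : ∃ T : Finset (Ideal (𝓞 K)), Reps (mI S N) T := by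
  classical
  haveI : Finite (Dv K ⧸ Pray S N) := AddSubgroup.finite_quotient_of_finiteIndex
  haveI : Fintype (Dv K ⧸ Pray S N) := Fintype.ofFinite _
  set n : ℕ := Nat.card (Dv K ⧸ Pray S N) with hn
  have hn1 : 1 ≤ n := Nat.card_pos
  have hnq : ∀ q : Dv K ⧸ Pray S N, n • q = 0 := fun q => card_nsmul_eq_zero'
  -- the representatives
  have hex : ∀ q : Dv K ⧸ Pray S N, ∃ D : Dv K, y27P S D ∧
      ((∃ D' : Dv K, y27P S D' ∧ (QuotientAddGroup.mk D' : Dv K ⧸ Pray S N) = q) →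
        (QuotientAddGroup.mk D : Dv K ⧸ Pray S N) = q) := by
    intro q
    by_cases h : ∃ D' : Dv K, y27P S D' ∧ (QuotientAddGroup.mk D' : Dv K ⧸ Pray S N) = q
    · obtain ⟨D', h1, h2⟩ := h
      exact ⟨D', h1, fun _ => h2⟩
    · exact ⟨0, ⟨fun v => le_rfl, fun v _ => rfl⟩, fun h' => absurd h' h⟩
  choose Dq hP hq using hex
  set Q : Finset (Dv K ⧸ Pray S N) := Finset.univ.filter fun q =>
    ∃ D' : Dv K, y27P S D' ∧ (QuotientAddGroup.mk D' : Dv K ⧸ Pray S N) = q with hQ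
  have hmem : ∀ q ∈ Q, (QuotientAddGroup.mk (Dq q) : Dv K ⧸ Pray S N) = q := fun q h =>
    hq q (Finset.mem_filter.1 h).2
  -- the key equivalence
  have key : ∀ D : Dv K, y27P S D → ∀ q ∈ Q, (PrI (mI S N) (idl D * idl ((n - 1) • Dq q)) ↔
      q = (QuotientAddGroup.mk D : Dv K ⧸ Pray S N)) := by
    intro D hD q hqQ
    have h2 := y27P_nsmul (hP q) (n - 1)
    have h3 := y27P_add hD h2
    rw [← idl_add hD.1 h2.1, prI_idl h3.1 h3.2, ← QuotientAddGroup.eq_zero_iff]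
    have e : (QuotientAddGroup.mk (D + (n - 1) • Dq q) : Dv K ⧸ Pray S N) =
        QuotientAddGroup.mk D + (n - 1) • q := by
      rw [QuotientAddGroup.mk_add, QuotientAddGroup.mk_nsmul, hmem q hqQ]
    have e2 : (n - 1) • q = -q := by
      have h4 : (n - 1) • q + q = 0 := by
        rw [← succ_nsmul, Nat.sub_add_cancel hn1, hnq]
      exact eq_neg_of_add_eq_zero_left h4
    have e3 : ((D + (n - 1) • Dq q : Dv K) : Dv K ⧸ Pray S N) = QuotientAddGroup.mk D - q := by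
      rw [sub_eq_add_neg, ← e2]
      exact e
    rw [e3, sub_eq_zero, eq_comm]
  refine ⟨Q.image fun q => idl ((n - 1) • Dq q), ?_, ?_⟩
  · intro c hc
    obtain ⟨q, -, rfl⟩ := Finset.mem_image.1 hc
    have h2 := y27P_nsmul (hP q) (n - 1)
    exact ⟨idl_ne_zero _, (cop_idl N h2.1).2 h2.2⟩
  · intro a ha hc
    obtain ⟨D, hD, rfl⟩ := exists_idl ha
    have hD2 : y27P S D := ⟨hD, (cop_idl N hD).1 hc⟩
    have hqQ : (QuotientAddGroup.mk D : Dv K ⧸ Pray S N) ∈ Q :=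
      Finset.mem_filter.2 ⟨Finset.mem_univ _, D, hD2, rfl⟩
    refine ⟨idl ((n - 1) • Dq (QuotientAddGroup.mk D)), ⟨Finset.mem_image.2 ⟨_, hqQ, rfl⟩, (key D hD2 _ hqQ).2 rfl⟩, ?_⟩
    rintro c ⟨hcT, hcP⟩
    obtain ⟨q, hq', rfl⟩ := Finset.mem_image.1 hcT
    rw [(key D hD2 q hq').1 hcP]

end CFTY
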