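import Mathlib
import Pool.Agent.Lib.CFT.Y26

/-! # CFT module Y, chunk Y27B: change of the modulus -/

open NumberField IsDedekindDomain

namespace CFTY

open CFT

variable {K : Type} [Field K] [NumberField K]

/-- PROOF. `S` = the primes containing `m` (finite), `N` large: `v^(N+1)` divides `m` at most.. i.e. `m ∣ mI S N`, `mI S N ≤ m`; both have the same prime divisors.
(`m = ∏ v^(count)`, `Ideal.finprod_heightOneSpectrum_factorization`, or `exists_idl` and `le_idl_iff`.) -/
theorem exists_mI {m : Ideal (𝓞 K)} (hm : m ≠ ⊥) : ∃ (S : Finset (Pr K)) (N : ℕ), mI S N ≤ m ∧ ∀ a : Ideal (𝓞 K),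
    IsCoprime a m ↔ IsCoprime a (mI S N) := by
  classical
  obtain ⟨D, hD, rfl⟩ := exists_idl (K := K) hm
  have hle : ∀ v ∈ D.support, (D v).toNat ≤ D.support.sup fun v => (D v).toNat := fun v hv =>
    Finset.le_sup (f := fun v => (D v).toNat) hv
  have hpos : ∀ v ∈ D.support, 0 < (D v).toNat := by
    intro v hv
    have h1 := Finsupp.mem_support_iff.1 hv
    have h2 := hD v
    omega
  refine ⟨D.support, D.support.sup fun v => (D v).toNat, ?_, fun a => ?_⟩
  · apply Ideal.le_of_dvd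
    unfold idl mI Finsupp.prod
    exact Finset.prod_dvd_prod_of_dvd _ _ fun v hv => pow_dvd_pow _ ((hle v hv).trans (Nat.le_succ _))
  · unfold idl mI Finsupp.prod
    rw [IsCoprime.prod_right_iff, IsCoprime.prod_right_iff]
    refine forall₂_congr fun v hv => ?_
    rw [IsCoprime.pow_right_iff (hpos v hv), IsCoprime.pow_right_iff (Nat.succ_pos _)]

/-- PROOF. Immediate. -/
theorem HCh.mono {m m' : Ideal (𝓞 K)} {ψ : K → ℂ} {χ : Ideal (𝓞 K) →*₀ ℂ} (h : HCh m ψ χ) (h1 : m' ≤ m)
    (h2 : ∀ a : Ideal (𝓞 K), IsCoprime a m ↔ IsCoprime a m') : HCh m' ψ χ := by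
  exact ⟨fun a ha => h.zero a fun hc => ha ((h2 a).1 hc), fun a ha hc => h.norm a ha ((h2 a).2 hc),
    fun x hx hp => h.ray x (h1 hx) hp⟩

end CFTY
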