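import Mathlib

/-! # CFT module Y, chunk Y29B: powers which are all 1 (pure complex analysis) -/

namespace CFTY

/-- PROOF. `|1 + M| ^ (re z) = 1` gives `re z = 0`. Then `exp (i t log (1 + k M)) = 1`, `t = im z`, so `t * log ((1 + (k + 1) M) / (1 + k M))` is in `2 π ℤ` for all `k`;
it tends to 0, so it is 0 for some `k`, and the logarithm is not 0: `t = 0`. -/
theorem cpow_eq_one {M : ℕ} (hM : 1 ≤ M) {z : ℂ} (h : ∀ k : ℕ, ((1 + k * M : ℕ) : ℂ) ^ z = 1) : z = 0 := by
  have hpos : ∀ k : ℕ, (0 : ℝ) < ((1 + k * M : ℕ) : ℝ) := fun k => by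
    have : 0 < 1 + k * M := by omega
    exact_mod_cast this
  have hne : ∀ k : ℕ, ((1 + k * M : ℕ) : ℂ) ≠ 0 := fun k => by
    have := (hpos k).ne'
    exact_mod_cast this
  -- real part
  have hre : z.re = 0 := by
    have h1 := congrArg norm (h 1)
    rw [Complex.norm_natCast_cpow_of_pos (by omega), norm_one] at h1
    have h2 : (1 : ℝ) < ((1 + 1 * M : ℕ) : ℝ) := by
      have : 1 < 1 + 1 * M := by omega
      exact_mod_cast this
    by_contra hz
    rcases lt_or_gt_of_ne hz with h3 | h3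
    · have := Real.rpow_lt_one_of_one_lt_of_neg h2 h3
      linarith
    · have := Real.one_lt_rpow h2 h3
      linarith
  -- logarithms
  have hlog : ∀ k : ℕ, ∃ n : ℤ, z.im * Real.log ((1 + k * M : ℕ) : ℝ) = n * (2 * Real.pi) := by
    intro k
    have h1 := h k
    rw [Complex.cpow_def_of_ne_zero (hne k), Complex.exp_eq_one_iff] at h1
    obtain ⟨n, hn⟩ := h1
    refine ⟨n, ?_⟩
    have h2 : Complex.log ((1 + k * M : ℕ) : ℂ) = ((Real.log ((1 + k * M : ℕ) : ℝ) : ℝ) : ℂ) := by
      rw [Complex.ofReal_log (hpos k).le, Complex.ofReal_natCast]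
    rw [h2] at hn
    have h3 := congrArg Complex.im hn
    simp only [Complex.mul_im, Complex.ofReal_re, Complex.ofReal_im, Complex.mul_re, Complex.intCast_re,
      Complex.intCast_im, Complex.I_re, Complex.I_im, Complex.re_ofNat, Complex.im_ofNat] at h3
    linarith
  have hdiff : ∀ k : ℕ, ∃ n : ℤ, z.im * (Real.log ((1 + (k + 1) * M : ℕ) : ℝ) - Real.log ((1 + k * M : ℕ) : ℝ))
      = n * (2 * Real.pi) := by
    intro k
    obtain ⟨n1, h1⟩ := hlog (k + 1)
    obtain ⟨n2, h2⟩ := hlog k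
    refine ⟨n1 - n2, ?_⟩
    push_cast at h1 h2 ⊢
    linarith
  have hsmall : ∀ k : ℕ, 0 < Real.log ((1 + (k + 1) * M : ℕ) : ℝ) - Real.log ((1 + k * M : ℕ) : ℝ) ∧
      Real.log ((1 + (k + 1) * M : ℕ) : ℝ) - Real.log ((1 + k * M : ℕ) : ℝ) ≤ M / ((1 + k * M : ℕ) : ℝ) := by
    intro k
    have hM0 : (0 : ℝ) < M := by exact_mod_cast hM
    constructor
    · have : ((1 + k * M : ℕ) : ℝ) < ((1 + (k + 1) * M : ℕ) : ℝ) := by
        push_cast
        nlinarith
      have := Real.log_lt_log (hpos k) this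
      linarith
    · rw [← Real.log_div (hpos (k + 1)).ne' (hpos k).ne']
      have h1 := Real.log_le_sub_one_of_pos (div_pos (hpos (k + 1)) (hpos k))
      refine h1.trans (le_of_eq ?_)
      have := (hpos k).ne'
      field_simp
      push_cast
      ring
  -- find k with |z.im| * M / (1 + k M) < 2 pi
  have him : z.im = 0 := by
    by_contra hz
    obtain ⟨k, hk⟩ := exists_nat_gt (|z.im|)
    have hM0 : (1 : ℝ) ≤ M := by exact_mod_cast hM
    obtain ⟨n, hn⟩ := hdiff k
    obtain ⟨h1, h2⟩ := hsmall k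
    have h3 : |z.im| * (Real.log ((1 + (k + 1) * M : ℕ) : ℝ) - Real.log ((1 + k * M : ℕ) : ℝ)) < 2 * Real.pi := by
      have h4 : |z.im| * (M / ((1 + k * M : ℕ) : ℝ)) ≤ 1 := by
        rw [← mul_div_assoc, div_le_one (hpos k)]
        push_cast
        have : |z.im| * M ≤ k * M := mul_le_mul_of_nonneg_right hk.le (by linarith)
        linarith
      have h5 := mul_le_mul_of_nonneg_left h2 (abs_nonneg z.im)
      have := Real.pi_gt_three
      linarith
    have h6 : |(n : ℝ)| * (2 * Real.pi) < 2 * Real.pi := by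
      have h7 : |(n : ℝ) * (2 * Real.pi)| = |(n : ℝ)| * (2 * Real.pi) := by
        rw [abs_mul, abs_of_pos (by positivity : (0 : ℝ) < 2 * Real.pi)]
      rw [← h7, ← hn, abs_mul, abs_of_pos h1]
      exact h3
    have h8 : |(n : ℝ)| < 1 := by
      have := Real.pi_pos
      by_contra hcon
      rw [not_lt] at hcon
      nlinarith
    have h9 : n = 0 := by
      have : |n| < 1 := by exact_mod_cast h8
      exact Int.abs_lt_one_iff.mp this
    rw [h9] at hn
    simp only [Int.cast_zero, zero_mul, mul_eq_zero] at hn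
    rcases hn with h10 | h10
    · exact hz h10
    · exact h1.ne' h10
  exact Complex.ext hre him

end CFTY
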