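import Mathlib
import Pool.Agent.Lib.CFT.Y24
import Pool.Agent.Lib.CFT.Y27
import Pool.Agent.Lib.CFT.Y27B
import Pool.Agent.Lib.CFT.Y29B

/-! # CFT module Y, chunk Y30: Hecke L-functions -/

open NumberField IsDedekindDomain

namespace CFTY

open CFT

variable {K : Type} [Field K] [NumberField K]

/-- multiples theorem for every modulus -/
theorem multiples (hf : ∀ (S : Finset (Pr K)) (N : ℕ), (Pray S N).FiniteIndex) {m : Ideal (𝓞 K)} (hm : m ≠ ⊥) {ψ : K → ℂ}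
    (hψ : LL ψ) (hψ' : Bd ψ) {χ : Ideal (𝓞 K) →*₀ ℂ} (hχ : HCh m ψ χ) {b : Ideal (𝓞 K)} (hb : b ≠ ⊥)
    (hbm : IsCoprime b m) : ∃ H : ℂ → ℂ, DifferentiableOn ℂ H (HP K) ∧ ∀ s : ℂ, 1 < s.re →
      H s = (χ b * (Ideal.absNorm b : ℂ) ^ (1 - s) - 1) * Lc χ s := by
  obtain ⟨S, N, h1, h2⟩ := exists_mI hm
  obtain ⟨T, hT⟩ := exists_reps S N (hf S N)
  exact multiples_aux (mI_ne S N) hψ hψ' (hχ.mono h1 h2) hT hb ((h2 b).1 hbm)

/-- the ideals generated by 1 + k M -/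
theorem y30_ideal {m : Ideal (𝓞 K)} {n : (K →+* ℂ) → ℤ} {χ : Ideal (𝓞 K) →*₀ ℂ} (hχ : HCh m (typ n) χ) (k : ℕ) :
    (Ideal.span {((1 + k * Ideal.absNorm m : ℕ) : 𝓞 K)}) ≠ ⊥ ∧
      IsCoprime (Ideal.span {((1 + k * Ideal.absNorm m : ℕ) : 𝓞 K)}) m ∧
      χ (Ideal.span {((1 + k * Ideal.absNorm m : ℕ) : 𝓞 K)}) = 1 ∧
      Ideal.absNorm (Ideal.span {((1 + k * Ideal.absNorm m : ℕ) : 𝓞 K)}) = (1 + k * Ideal.absNorm m) ^ dg K := by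
  have hM : ((Ideal.absNorm m : ℕ) : 𝓞 K) ∈ m := Ideal.absNorm_mem m
  have h1 : (((1 + k * Ideal.absNorm m : ℕ) : 𝓞 K)) - 1 ∈ m := by
    have e : (((1 + k * Ideal.absNorm m : ℕ) : 𝓞 K)) - 1 = (k : 𝓞 K) * ((Ideal.absNorm m : ℕ) : 𝓞 K) := by
      push_cast
      ring
    rw [e]
    exact m.mul_mem_left _ hM
  have hpos : 0 < 1 + k * Ideal.absNorm m := by omega
  have hcast : (((1 + k * Ideal.absNorm m : ℕ) : 𝓞 K) : K) = ((1 + k * Ideal.absNorm m : ℕ) : K) := map_natCast _ _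
  have hne : ((1 + k * Ideal.absNorm m : ℕ) : 𝓞 K) ≠ 0 := Nat.cast_ne_zero.2 hpos.ne'
  have hTP : TP ((((1 + k * Ideal.absNorm m : ℕ) : 𝓞 K)) : K) := by
    rw [hcast]
    refine ⟨Nat.cast_ne_zero.2 hpos.ne', fun φ => ?_⟩
    rw [map_natCast]
    exact Nat.cast_pos.2 hpos
  refine ⟨fun h => hne (Ideal.span_singleton_eq_bot.1 h), ?_, ?_, ?_⟩
  · rw [Ideal.isCoprime_iff_exists]
    refine ⟨((1 + k * Ideal.absNorm m : ℕ) : 𝓞 K), Ideal.mem_span_singleton_self _,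
      1 - ((1 + k * Ideal.absNorm m : ℕ) : 𝓞 K), ?_, by ring⟩
    have e : 1 - ((1 + k * Ideal.absNorm m : ℕ) : 𝓞 K) = -(((1 + k * Ideal.absNorm m : ℕ) : 𝓞 K) - 1) := by ring
    rw [e]
    exact m.neg_mem h1
  · rw [hχ.ray _ h1 hTP, hcast]
    exact typ_nat n _ hpos
  · rw [Ideal.absNorm_span_singleton, ← map_natCast (algebraMap ℤ (𝓞 K)), Algebra.norm_algebraMap, Int.natAbs_pow]
    unfold dg
    rw [RingOfIntegers.rank]
    rfl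

theorem y30_pow (x d : ℕ) (z : ℂ) : ((x ^ d : ℕ) : ℂ) ^ z = ((x : ℂ) ^ z) ^ d := by
  induction d with
  | zero => rw [pow_zero, pow_zero, Nat.cast_one, Complex.one_cpow]
  | succ d ih =>
    rw [pow_succ, pow_succ, Nat.cast_mul, Complex.natCast_mul_natCast_cpow, ih]

/-- the exceptional case -/
theorem excep {m : Ideal (𝓞 K)} (hm : m ≠ ⊥) {n : (K →+* ℂ) → ℤ} {χ : Ideal (𝓞 K) →*₀ ℂ} (hχ : HCh m (typ n) χ) {s : ℂ}
    (h : ∀ b : Ideal (𝓞 K), b ≠ ⊥ → IsCoprime b m → χ b * (Ideal.absNorm b : ℂ) ^ (1 - s) = 1) : s = 1 := by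
  have hM1 : 1 ≤ Ideal.absNorm m := Nat.one_le_iff_ne_zero.2 fun h0 => hm (Ideal.absNorm_eq_zero_iff.1 h0)
  have h1 : ∀ k : ℕ, ((1 + k * Ideal.absNorm m : ℕ) : ℂ) ^ ((dg K : ℂ) * (1 - s)) = 1 := by
    intro k
    obtain ⟨h2, h3, h4, h5⟩ := y30_ideal hχ k
    have h6 := h _ h2 h3
    rw [h4, one_mul, h5] at h6
    rw [Complex.cpow_nat_mul, ← y30_pow]
    exact h6
  have h2 := cpow_eq_one hM1 h1
  have h3 : (dg K : ℂ) ≠ 0 := Nat.cast_ne_zero.2 (by have := dg_pos (K := K); omega)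
  have h4 : 1 - s = 0 := by
    rcases mul_eq_zero.1 h2 with h | h
    · exact absurd h h3
    · exact h
  exact (sub_eq_zero.1 h4).symm

end CFTY
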