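import Mathlib

/-! # CFT module Y, chunk Y31: a quotient is bounded near 1 (pure) -/

namespace CFTY

/-- PROOF. `H` is continuous on the compact set `[1, 2]` of the half plane, so bounded; `D s = z * N ^ (1 - s) - 1` is continuous and has no zero on `[1, 2]`: `‖z‖ = 1` and `N > 1`
give `|z N^(1 - s)| < 1` for `s > 1`, and `z ≠ 1` for `s = 1`. So `|D|` is bounded below. -/
theorem y31_bdd {H L : ℂ → ℂ} {U : Set ℂ} (hH : DifferentiableOn ℂ H U) (hU : ∀ s : ℝ, 1 ≤ s → (s : ℂ) ∈ U) {z : ℂ} (hz : ‖z‖ = 1)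
    (hz1 : z ≠ 1) {N : ℕ} (hN : 1 < N) (h : ∀ s : ℝ, 1 < s → H s = (z * (N : ℂ) ^ (1 - (s : ℂ)) - 1) * L s) :
    ∃ C : ℝ, ∀ s ∈ Set.Ioc (1 : ℝ) 2, ‖L s‖ ≤ C := by
  have hN0 : (N : ℂ) ≠ 0 := by
    have : N ≠ 0 := by omega
    exact_mod_cast this
  -- continuity
  have hHc : ContinuousOn (fun s : ℝ => H s) (Set.Icc 1 2) := by
    refine hH.continuousOn.comp Complex.continuous_ofReal.continuousOn ?_
    intro s hs
    exact hU s hs.1
  have hDc : Continuous (fun s : ℝ => z * (N : ℂ) ^ (1 - (s : ℂ)) - 1) := by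
    refine (continuous_const.mul ?_).sub continuous_const
    refine Continuous.const_cpow ?_ (Or.inl hN0)
    exact continuous_const.sub Complex.continuous_ofReal
  have hDne : ∀ s ∈ Set.Icc (1 : ℝ) 2, z * (N : ℂ) ^ (1 - (s : ℂ)) - 1 ≠ 0 := by
    intro s hs h0
    rw [sub_eq_zero] at h0
    rcases eq_or_lt_of_le hs.1 with h1 | h1
    · rw [← h1] at h0
      simp at h0
      exact hz1 h0
    · have h2 := congrArg norm h0
      rw [norm_mul, hz, one_mul, norm_one, Complex.norm_natCast_cpow_of_pos (by omega)] at h2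
      have h3 : (1 - (s : ℂ)).re = 1 - s := by simp
      rw [h3] at h2
      have h4 : ((N : ℕ) : ℝ) ^ (1 - s) < 1 :=
        Real.rpow_lt_one_of_one_lt_of_neg (by exact_mod_cast hN) (by linarith)
      linarith
  have hq : ContinuousOn (fun s : ℝ => H s / (z * (N : ℂ) ^ (1 - (s : ℂ)) - 1)) (Set.Icc 1 2) :=
    hHc.div hDc.continuousOn hDne
  obtain ⟨C, hC⟩ := isCompact_Icc.exists_bound_of_continuousOn hq
  refine ⟨C, ?_⟩
  intro s hs
  have hs' : s ∈ Set.Icc (1 : ℝ) 2 := ⟨hs.1.le, hs.2⟩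
  have h1 := hC s hs'
  rw [h s hs.1, mul_comm, mul_div_assoc, div_self (hDne s hs'), mul_one] at h1
  exact h1

end CFTY
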