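import Mathlib
import Pool.Agent.Lib.CFT.Y28
import Pool.Agent.Lib.CFT.Y30
import Pool.Agent.Lib.CFT.Y31

/-! # CFT module Y, chunk Y32: bounded L-series of ray class characters (Z0) -/

open NumberField IsDedekindDomain

namespace CFTY

open CFT

variable {K : Type} [Field K] [NumberField K]

/-- Z0. PROOF. `hch_of` with `ψ = 1` (`hχ`, `dv_mem_Pray`), `multiples` with `b = v.asIdeal` for a prime `v ∉ S` with `cphi χ v ≠ 1` (it exists: otherwise
`χ = 0`, because `χ` vanishes on the divisors supported on `S` (`supp_mem_Pray`); `CFTZ.chi_ext`), `y31_bdd`; `Ls (chI S χ) s = Lc (chI S χ) s` by definition. -/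
theorem z0_bdd (hf : ∀ (S : Finset (Pr K)) (N : ℕ), (Pray S N).FiniteIndex) (S : Finset (Pr K)) (N : ℕ) (χ : Dv K →+ Additive ℂˣ) (hχ : ∀ D ∈ Pray S N, χ D = 0)
    (hn : ∀ v, ‖(CFTZ.cphi χ v : ℂ)‖ = 1) (h1 : χ ≠ 0) :
    ∃ C : ℝ, ∀ s ∈ Set.Ioc (1 : ℝ) 2, ‖CFTZ.Ls (CFTZ.chI S χ) s‖ ≤ C := by
  have hc : HCh (mI S N) (fun _ => (1 : ℂ)) (CFTZ.chI S χ) := hch_of χ hn fun x hx => by
    rw [hχ _ (dv_mem_Pray hx), toMul_zero, Units.val_one]
  obtain ⟨v, hv⟩ : ∃ v : Pr K, CFTZ.cphi χ v ≠ 1 := by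
    by_contra hcon
    push Not at hcon
    apply h1
    apply CFTZ.chi_ext
    intro v
    rw [hcon v]
    rfl
  have hvS : v ∉ S := by
    intro h
    apply hv
    have h2 : χ (Finsupp.single v 1) = 0 := by
      refine hχ _ (supp_mem_Pray N fun w hw => ?_)
      refine Finsupp.single_eq_of_ne ?_
      rintro rfl
      exact hw h
    unfold CFTZ.cphi
    rw [h2, toMul_zero]
  have hcop : IsCoprime v.asIdeal (mI S N) := by
    rw [cop_mI]
    intro w hw hle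
    have h3 := v.isMaximal.eq_of_le w.isPrime.ne_top hle
    have h4 : v = w := HeightOneSpectrum.ext h3
    rw [h4] at hvS
    exact hvS hw
  have hLL : LL (K := K) (fun _ => (1 : ℂ)) := by
    refine ⟨0, le_rfl, fun δ x y _ _ _ _ => ?_⟩
    simp
  have hBd : Bd (K := K) (fun _ => (1 : ℂ)) := ⟨1, zero_le_one, fun x => by simp⟩
  obtain ⟨H, hH, hHe⟩ := multiples hf (mI_ne S N) hLL hBd hc v.ne_bot hcop
  have hU : ∀ s : ℝ, 1 ≤ s → (s : ℂ) ∈ HP K := by
    intro s hs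
    show 1 - 1 / (dg K : ℝ) < ((s : ℂ)).re
    have h5 : 0 < (dg K : ℝ) := by
      have : 0 < Module.finrank ℚ K := Module.finrank_pos
      exact_mod_cast this
    have h6 : 0 < 1 / (dg K : ℝ) := by positivity
    rw [Complex.ofReal_re]
    linarith
  have hz1 : (CFTZ.cphi χ v : ℂ) ≠ 1 := fun h => hv (Units.ext h)
  have hN : 1 < Ideal.absNorm v.asIdeal := CFTZ.dd_two_le v
  obtain ⟨C, hC⟩ := y31_bdd (L := fun s => Lc (CFTZ.chI S χ) s) hH hU (hn v) hz1 hN fun s hs => by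
    have h7 := hHe (s : ℂ) (by rw [Complex.ofReal_re]; exact hs)
    rw [CFTZ.chI_prime S χ hvS] at h7
    exact h7
  exact ⟨C, fun s hs => hC s hs⟩

end CFTY
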