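import Mathlib
import Pool.Agent.Lib.CFT.ZD
import Pool.Agent.Lib.CFT.ZB

/-! # CFT, module Z, part C: the second inequality

Z0S K: the statement Z0 (the L-series of the nontrivial ray class characters are bounded near 1). second_ineq_of: for every Galois extension L/K, the
divisors in Pray S N + norms have index at most [L : K] (from Z0S K and the finiteness of the ray class group). -/

open NumberField IsDedekindDomain

namespace CFTZ

open H55R CFT

/-- The statement Z0. -/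
def Z0S (K : Type) [Field K] [NumberField K] : Prop :=
  ∀ (S : Finset (Pr K)) (N : ℕ) (χ : Dv K →+ Additive ℂˣ), (∀ D ∈ Pray S N, χ D = 0) →
    (∀ v, ‖(cphi χ v : ℂ)‖ = 1) → χ ≠ 0 → ∃ C : ℝ, ∀ s ∈ Set.Ioc (1 : ℝ) 2, ‖Ls (chI S χ) s‖ ≤ C

section one

variable {K : Type} [Field K] [NumberField K]

/-- The character of Dv K belonging to a character of a quotient. -/
noncomputable def chq (H : AddSubgroup (Dv K)) (ψ : AddChar (Dv K ⧸ H) ℂ) : Dv K →+ Additive ℂˣ where
  toFun D := Additive.ofMul (ψ.toMonoidHom.toHomUnits (Multiplicative.ofAdd (QuotientAddGroup.mk D)))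
  map_zero' := by
    rw [QuotientAddGroup.mk_zero, ofAdd_zero, map_one, ofMul_one]
  map_add' a b := by
    rw [QuotientAddGroup.mk_add, ofAdd_add, map_mul, ofMul_mul]

theorem chq_apply (H : AddSubgroup (Dv K)) (ψ : AddChar (Dv K ⧸ H) ℂ) (D : Dv K) :
    (((chq H ψ D).toMul : ℂˣ) : ℂ) = ψ (QuotientAddGroup.mk D) := rfl

theorem chq_cphi (H : AddSubgroup (Dv K)) (ψ : AddChar (Dv K ⧸ H) ℂ) (v : Pr K) :
    (cphi (chq H ψ) v : ℂ) = ψ (QuotientAddGroup.mk (Finsupp.single v 1)) := rfl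

theorem chq_ker (H : AddSubgroup (Dv K)) (ψ : AddChar (Dv K ⧸ H) ℂ) {D : Dv K} (hD : D ∈ H) : chq H ψ D = 0 := by
  apply Additive.toMul.injective
  apply Units.ext
  rw [chq_apply, (QuotientAddGroup.eq_zero_iff D).2 hD, AddChar.map_zero_eq_one, toMul_zero, Units.val_one]

theorem chq_ne (H : AddSubgroup (Dv K)) {ψ : AddChar (Dv K ⧸ H) ℂ} (h : ψ ≠ 0) : chq H ψ ≠ 0 := by
  intro h0
  apply h
  ext x
  obtain ⟨D, rfl⟩ := QuotientAddGroup.mk_surjective x
  rw [← chq_apply, h0, AddMonoidHom.zero_apply, toMul_zero, Units.val_one, AddChar.zero_apply]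

theorem chq_norm (H : AddSubgroup (Dv K)) [Finite (Dv K ⧸ H)] (ψ : AddChar (Dv K ⧸ H) ℂ) (v : Pr K) :
    ‖(cphi (chq H ψ) v : ℂ)‖ = 1 := by
  rw [chq_cphi]
  exact ψ.norm_apply _

/-- The sum over the primes is bounded below by the sum over a smaller set, up to finitely many primes. -/
theorem PS_le {A B : Set (Pl K)} (F : Finset (Pl K)) (h : ∀ v ∈ A, v ∉ F → v ∈ B) {s : ℝ} (hs : 1 < s) :
    PS A s ≤ PS B s + F.card := by
  classical
  have hA : Summable fun v : Pl K => A.indicator (fun v => (Ideal.absNorm v.asIdeal : ℝ) ^ (-s)) v :=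
    (dd_summable s hs).indicator _
  have hB : Summable fun v : Pl K => B.indicator (fun v => (Ideal.absNorm v.asIdeal : ℝ) ^ (-s)) v :=
    (dd_summable s hs).indicator _
  have hF : HasSum (fun v : Pl K => if v ∈ F then (1 : ℝ) else 0) F.card := by
    have h1 : HasSum (fun v : Pl K => if v ∈ F then (1 : ℝ) else 0) (∑ v ∈ F, if v ∈ F then (1 : ℝ) else 0) :=
      hasSum_sum_of_ne_finset_zero fun v hv => if_neg hv
    rw [Finset.sum_congr rfl (g := fun _ => (1 : ℝ)) (fun v hv => if_pos hv), Finset.sum_const, nsmul_eq_mul,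
      mul_one] at h1
    exact h1
  unfold PS
  rw [← hF.tsum_eq, ← hB.tsum_add hF.summable]
  refine hA.tsum_le_tsum (fun v => ?_) (hB.add hF.summable)
  have h0 : ∀ v : Pl K, 0 ≤ (Ideal.absNorm v.asIdeal : ℝ) ^ (-s) := fun v => by positivity
  have hB0 : 0 ≤ B.indicator (fun v : Pl K => (Ideal.absNorm v.asIdeal : ℝ) ^ (-s)) v :=
    Set.indicator_nonneg (fun v _ => h0 v) v
  by_cases hv : v ∈ A
  · rw [Set.indicator_of_mem hv]
    by_cases hF' : v ∈ F
    · rw [if_pos hF']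
      have h2 := dd_half v s hs.le
      linarith
    · rw [if_neg hF', Set.indicator_of_mem (h v hv hF'), add_zero]
  · rw [Set.indicator_of_notMem hv]
    split_ifs
    · linarith
    · linarith

open Classical in
theorem orth_point (S : Finset (Pr K)) (H : AddSubgroup (Dv K)) [Fintype (Dv K ⧸ H)] (v : Pl K) :
    ∑ ψ : AddChar (Dv K ⧸ H) ℂ, (chI S (chq H ψ) v.asIdeal).re =
      if v ∉ S ∧ (Finsupp.single v 1 : Dv K) ∈ H then (Nat.card (Dv K ⧸ H) : ℝ) else 0 := by
  by_cases hS : v ∈ S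
  · rw [if_neg fun h => h.1 hS]
    refine Finset.sum_eq_zero fun ψ _ => ?_
    rw [chI_prime_mem S _ hS, Complex.zero_re]
  · have h1 : ∀ ψ : AddChar (Dv K ⧸ H) ℂ, chI S (chq H ψ) v.asIdeal = ψ (QuotientAddGroup.mk (Finsupp.single v 1)) := by
      intro ψ
      rw [chI_prime S _ hS, chq_cphi]
    rw [← Complex.re_sum, Finset.sum_congr rfl fun ψ _ => h1 ψ, AddChar.sum_apply_eq_ite]
    by_cases h : (Finsupp.single v 1 : Dv K) ∈ H
    · rw [if_pos ((QuotientAddGroup.eq_zero_iff _).2 h), if_pos ⟨hS, h⟩, Nat.card_eq_fintype_card, Complex.natCast_re]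
    · rw [if_neg fun h' => h ((QuotientAddGroup.eq_zero_iff _).1 h'), if_neg fun h' => h h'.2, Complex.zero_re]

/-- Orthogonality. -/
theorem orth (S : Finset (Pr K)) (H : AddSubgroup (Dv K)) [Fintype (Dv K ⧸ H)] (s : ℝ) (hs : 1 < s) :
    (Nat.card (Dv K ⧸ H) : ℝ) * PS {v : Pl K | v ∉ S ∧ (Finsupp.single v 1 : Dv K) ∈ H} s =
      ∑ ψ : AddChar (Dv K ⧸ H) ℂ, ∑' v : Pl K, (chI S (chq H ψ) v.asIdeal).re *
        (Ideal.absNorm v.asIdeal : ℝ) ^ (-s) := by
  classical
  have hsum : ∀ ψ : AddChar (Dv K ⧸ H) ℂ, Summable fun v : Pl K => (chI S (chq H ψ) v.asIdeal).re *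
      (Ideal.absNorm v.asIdeal : ℝ) ^ (-s) := by
    intro ψ
    refine Summable.of_norm_bounded (dd_summable (K := K) s hs) fun v => ?_
    rw [norm_mul, Real.norm_eq_abs, Real.norm_eq_abs]
    have h1 : |(chI S (chq H ψ) v.asIdeal).re| ≤ 1 :=
      (Complex.abs_re_le_norm _).trans (dd_norm_tI _ _ (chq_norm H ψ) _)
    have h2 : |(Ideal.absNorm v.asIdeal : ℝ) ^ (-s)| = (Ideal.absNorm v.asIdeal : ℝ) ^ (-s) :=
      abs_of_nonneg (by positivity)
    rw [h2]
    exact mul_le_of_le_one_left (by positivity) h1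
  rw [← Summable.tsum_finsetSum fun ψ _ => hsum ψ]
  unfold PS
  rw [← tsum_mul_left]
  refine tsum_congr fun v => ?_
  rw [← Finset.sum_mul, orth_point S H v]
  by_cases h : v ∉ S ∧ (Finsupp.single v 1 : Dv K) ∈ H
  · rw [if_pos h, Set.indicator_of_mem (by exact h)]
  · rw [if_neg h, Set.indicator_of_notMem (by exact h), mul_zero, zero_mul]

/-- The primes in a subgroup of finite index containing a ray: upper bound. -/
theorem density_sub (hz : Z0S K) (S : Finset (Pr K)) (N : ℕ) (H : AddSubgroup (Dv K)) (hH : Pray S N ≤ H)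
    [H.FiniteIndex] : ∃ C : ℝ, ∀ s ∈ Set.Ioc (1 : ℝ) 2, PS {v : Pl K | v ∉ S ∧ (Finsupp.single v 1 : Dv K) ∈ H} s ≤
      (1 / H.index : ℝ) * Real.log (1 / (s - 1)) + C := by
  classical
  have := AddSubgroup.finite_quotient_of_finiteIndex (H := H)
  have := Fintype.ofFinite (Dv K ⧸ H)
  obtain ⟨C₂, hC₂⟩ := log_cmp K
  obtain ⟨C₃, hC₃⟩ := zeta_log K
  have hb : ∀ ψ : AddChar (Dv K ⧸ H) ℂ, ∃ B : ℝ, ∀ s ∈ Set.Ioc (1 : ℝ) 2,
      ∑' v : Pl K, (chI S (chq H ψ) v.asIdeal).re * (Ideal.absNorm v.asIdeal : ℝ) ^ (-s) ≤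
        (if ψ = 0 then Real.log (1 / (s - 1)) else 0) + B := by
    intro ψ
    have hn := chq_norm H ψ
    have hh : ∀ a, ‖chI S (chq H ψ) a‖ ≤ 1 := dd_norm_tI _ _ hn
    by_cases h1 : ψ = 0
    · subst h1
      refine ⟨C₂ + C₃, fun s hs => ?_⟩
      have e1 := (abs_le.1 (hC₂ (chI S (chq H 0)) hh s hs)).2
      obtain ⟨e2, e3⟩ := hC₃ s hs
      have e4 := (abs_le.1 e3).2
      have e5 := (euler (chI S (chq H 0)) hh s hs.1).1
      have e7 : chI S (chq H 0) = tI (SI S) (1 : Pl K → ℂˣ) := by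
        unfold chI
        congr 1
      have e8 : ‖Ls (chI S (chq H 0)) s‖ ≤ ∑' a : Ideal (𝓞 K), (Ideal.absNorm a : ℝ) ^ (-s) := by
        rw [e7]
        exact den_trivial (SI S) s hs.1
      have e6 := Real.log_le_log (norm_pos_iff.2 e5) e8
      rw [if_pos rfl]
      linarith
    · obtain ⟨B, hB⟩ := hz S N (chq H ψ) (fun D hD => chq_ker H ψ (hH hD)) hn (chq_ne H h1)
      refine ⟨C₂ + Real.log B, fun s hs => ?_⟩
      have e1 := (abs_le.1 (hC₂ (chI S (chq H ψ)) hh s hs)).2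
      have e5 := (euler (chI S (chq H ψ)) hh s hs.1).1
      have e6 := Real.log_le_log (norm_pos_iff.2 e5) (hB s hs)
      rw [if_neg h1]
      linarith
  choose B hB using hb
  refine ⟨(1 / Nat.card (Dv K ⧸ H) : ℝ) * ∑ ψ, B ψ, fun s hs => ?_⟩
  have hc : (0 : ℝ) < Nat.card (Dv K ⧸ H) := by exact_mod_cast Nat.card_pos
  have h1 := orth S H s hs.1
  have h2 : (Nat.card (Dv K ⧸ H) : ℝ) * PS {v : Pl K | v ∉ S ∧ (Finsupp.single v 1 : Dv K) ∈ H} s ≤
      Real.log (1 / (s - 1)) + ∑ ψ, B ψ := by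
    rw [h1]
    refine (Finset.sum_le_sum fun ψ _ => hB ψ s hs).trans (le_of_eq ?_)
    rw [Finset.sum_add_distrib, Finset.sum_ite_eq' Finset.univ (0 : AddChar (Dv K ⧸ H) ℂ)]
    simp
  have h3 : PS {v : Pl K | v ∉ S ∧ (Finsupp.single v 1 : Dv K) ∈ H} s =
      (1 / Nat.card (Dv K ⧸ H) : ℝ) *
        ((Nat.card (Dv K ⧸ H) : ℝ) * PS {v : Pl K | v ∉ S ∧ (Finsupp.single v 1 : Dv K) ∈ H} s) := by
    field_simp
  have h4 : H.index = Nat.card (Dv K ⧸ H) := rfl
  rw [h4, h3, ← mul_add]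
  exact mul_le_mul_of_nonneg_left h2 (by positivity)

end one

/-- Comparison of leading terms. -/
theorem lead_le {a b C : ℝ} (h : ∀ s ∈ Set.Ioc (1 : ℝ) 2, a * Real.log (1 / (s - 1)) ≤ b * Real.log (1 / (s - 1)) + C) :
    a ≤ b := by
  by_contra hab
  push Not at hab
  have hd : 0 < a - b := by linarith
  set M : ℝ := |C| / (a - b) + 1 with hM
  have hM0 : 0 < M := by positivity
  have h1 : Real.exp (-M) ≤ 1 := Real.exp_le_one_iff.2 (by linarith)
  have h2 := h (1 + Real.exp (-M)) ⟨by linarith [Real.exp_pos (-M)], by linarith⟩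
  have h3 : Real.log (1 / (1 + Real.exp (-M) - 1)) = M := by
    rw [add_sub_cancel_left, one_div, Real.log_inv, Real.log_exp, neg_neg]
  rw [h3] at h2
  have h4 : (a - b) * M = |C| + (a - b) := by
    rw [hM]
    field_simp
  have h5 : (a - b) * M ≤ C := by linarith
  rw [h4] at h5
  linarith [le_abs_self C]

section two

variable {K L : Type} [Field K] [NumberField K] [Field L] [NumberField L] [Algebra K L]

theorem Nd_single (w : Pr L) (n : ℤ) :
    Nd K L (Finsupp.single w n) = Finsupp.single (below K w) ((w.asIdeal.inertiaDeg (𝓞 K) : ℤ) * n) := by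
  unfold Nd
  rw [Finsupp.liftAddHom_apply_single]
  rfl

/-- Completely split primes are norms. -/
theorem split_norm [IsGalois K L] {v : Pl K} (h : Spl K L v) : (Finsupp.single v 1 : Dv K) ∈ (Nd K L).range := by
  obtain ⟨w, hw⟩ := under_exists (L := L) v
  refine ⟨Finsupp.single w 1, ?_⟩
  have hp := v.isPrime
  have hwp := w.isPrime
  have hl : w.asIdeal.LiesOver v.asIdeal := (BF2_mem v w hw).2
  have h1 : w.asIdeal.inertiaDeg (𝓞 K) = 1 := by
    rw [← Ideal.inertiaDegIn_eq_inertiaDeg v.asIdeal w.asIdeal Gal(L/K)]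
    exact h.2
  have h2 : below K w = v := HeightOneSpectrum.ext (congrArg HeightOneSpectrum.asIdeal hw)
  rw [Nd_single, h1, h2]
  simp

/-- The second inequality, for every Galois extension. -/
theorem second_ineq_of (hz : Z0S K) [IsGalois K L] (S : Finset (Pr K)) (N : ℕ) (hp : (Pray S N).FiniteIndex) :
    (Pray S N ⊔ (Nd K L).range).index ≤ Module.finrank K L := by
  have hle : Pray S N ≤ Pray S N ⊔ (Nd K L).range := le_sup_left
  have hfi : (Pray S N ⊔ (Nd K L).range).FiniteIndex := AddSubgroup.finiteIndex_of_le hle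
  obtain ⟨C₁, hC₁⟩ := density_sub hz S N _ hle
  obtain ⟨C₂, hC₂⟩ := density_split K L
  have hfr : (0 : ℝ) < Module.finrank K L := by exact_mod_cast Module.finrank_pos
  have hidx : (0 : ℝ) < (Pray S N ⊔ (Nd K L).range).index := by
    exact_mod_cast Nat.pos_of_ne_zero AddSubgroup.FiniteIndex.index_ne_zero
  have h1 : (1 / Module.finrank K L : ℝ) ≤ 1 / (Pray S N ⊔ (Nd K L).range).index := by
    refine lead_le (C := C₁ + C₂ + S.card) fun s hs => ?_
    have e1 := hC₁ s hs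
    have e2 := (abs_le.1 (hC₂ s hs)).1
    have e3 : PS {v : Pl K | Spl K L v} s ≤
        PS {v : Pl K | v ∉ S ∧ (Finsupp.single v 1 : Dv K) ∈ Pray S N ⊔ (Nd K L).range} s + S.card := by
      refine PS_le S (fun v hv hvS => ?_) hs.1
      refine ⟨hvS, ?_⟩
      exact (le_sup_right : (Nd K L).range ≤ Pray S N ⊔ (Nd K L).range) (split_norm hv)
    linarith
  have h2 := (one_div_le_one_div hfr hidx).1 h1
  exact_mod_cast h2

end two

end CFTZ
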