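import Mathlib
import Pool.Agent.Lib.CFT.ZC
import Pool.Agent.Lib.CFT.B17

/-! # CFT, module Z, part E: the prime zeta function (Z4) and the generation of the Galois group by Frobenius elements (Z3)

prime_zeta: the sum of Nv^(-s) over all primes is log (1/(s-1)) + O(1). frob_gen: for L/K abelian the Frobenius elements at the unramified primes outside a
finite set generate the Galois group. -/

open NumberField IsDedekindDomain

namespace CFTZ

open H55R CFT

/-- Z4. The sum over all primes. -/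
theorem prime_zeta (L : Type) [Field L] [NumberField L] : ∃ C : ℝ, ∀ s ∈ Set.Ioc (1 : ℝ) 2,
    |∑' W : Pl L, (Ideal.absNorm W.asIdeal : ℝ) ^ (-s) - Real.log (1 / (s - 1))| ≤ C := by
  obtain ⟨C₂, hC₂⟩ := log_cmp L
  obtain ⟨C₃, hC₃⟩ := zeta_log L
  refine ⟨C₂ + C₃, fun s hs => ?_⟩
  have hn : ∀ v : Pl L, ‖((1 : Pl L → ℂˣ) v : ℂ)‖ = 1 := fun v => by
    rw [Pi.one_apply, Units.val_one, norm_one]
  have hh := dd_norm_tI ⊤ (1 : Pl L → ℂˣ) hn
  have hval : ∀ a : Ideal (𝓞 L), a ≠ ⊥ → tI ⊤ (1 : Pl L → ℂˣ) a = 1 := by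
    intro a ha
    rw [tI_apply ⊤ 1 ha (by rw [← Ideal.one_eq_top]; exact isCoprime_one_right), pv_one_fun,
      Units.val_one]
  have e1 := hC₂ (tI ⊤ (1 : Pl L → ℂˣ)) hh s hs
  have e2 : ∑' v : Pl L, (tI ⊤ (1 : Pl L → ℂˣ) v.asIdeal).re *
      (Ideal.absNorm v.asIdeal : ℝ) ^ (-s) =
      ∑' W : Pl L, (Ideal.absNorm W.asIdeal : ℝ) ^ (-s) := by
    refine tsum_congr fun W => ?_
    rw [hval _ W.ne_bot, Complex.one_re, one_mul]
  have e3 : Ls (tI ⊤ (1 : Pl L → ℂˣ)) s =
      ((∑' a : Ideal (𝓞 L), (Ideal.absNorm a : ℝ) ^ (-s) : ℝ) : ℂ) := by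
    unfold Ls
    rw [Complex.ofReal_tsum]
    refine tsum_congr fun a => ?_
    unfold tm
    rw [Complex.ofReal_cpow (Nat.cast_nonneg _)]
    by_cases ha : a = ⊥
    · subst ha
      have : tI ⊤ (1 : Pl L → ℂˣ) ⊥ = 0 := map_zero _
      rw [this, zero_mul, Ideal.absNorm_bot]
      have hs0 : (-(s : ℂ)) ≠ 0 := by
        rw [neg_ne_zero, Complex.ofReal_ne_zero]
        linarith [hs.1]
      simp [Complex.zero_cpow hs0]
    · rw [hval a ha, one_mul]
      push_cast
      rfl
  obtain ⟨e4, e5⟩ := hC₃ s hs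
  rw [e2, e3, Complex.norm_real, Real.norm_of_nonneg e4.le] at e1
  rw [abs_le] at *
  obtain ⟨a1, a2⟩ := e1
  obtain ⟨b1, b2⟩ := e5
  constructor
  · linarith
  · linarith

theorem PS_univ (K : Type) [Field K] [NumberField K] (s : ℝ) :
    PS (Set.univ : Set (Pl K)) s = ∑' W : Pl K, (Ideal.absNorm W.asIdeal : ℝ) ^ (-s) := by
  unfold PS
  refine tsum_congr fun v => ?_
  rw [Set.indicator_of_mem (Set.mem_univ v)]

/-- A finite field in which x^q = x for all x has at most q elements. -/
theorem card_le_of_pow (k : Type) [Field k] [Fintype k] {q : ℕ} (hq : 2 ≤ q) (h : ∀ x : k, x ^ q = x) :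
    Fintype.card k ≤ q := by
  classical
  have h1 : (Polynomial.X ^ q - Polynomial.X : Polynomial k).natDegree = q :=
    FiniteField.X_pow_card_sub_X_natDegree_eq k (by omega)
  have h0 : (Polynomial.X ^ q - Polynomial.X : Polynomial k) ≠ 0 := FiniteField.X_pow_card_sub_X_ne_zero k (by omega)
  rw [← h1, ← Finset.card_univ]
  refine Polynomial.card_le_degree_of_subset_roots fun x _ => ?_
  rw [Polynomial.mem_roots h0, Polynomial.IsRoot.def]
  simp [h x]

section tower

variable {K : Type} [Field K] [NumberField K] {E : Type} [Field E] [NumberField E] {L : Type} [Field L] [NumberField L]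
  [Algebra K E] [Algebra K L] [Algebra E L] [IsScalarTower K E L]

/-- If the Frobenius element acts trivially on E then v has degree one primes in E. -/
theorem deg_one [IsGalois K E] {v : Pl K} {s : L ≃ₐ[K] L} (hs : IsFr K L v s)
    (hE : ∀ x : E, s (algebraMap E L x) = algebraMap E L x) : fs K E v = 1 := by
  obtain ⟨w, hw⟩ := under_exists (L := E) v
  obtain ⟨W, hW⟩ := under_exists (L := L) w
  have hWv : below K W = v := by
    apply HeightOneSpectrum.ext
    rw [← hw, ← hW]
    exact (Ideal.under_under W.asIdeal).symm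
  have hq : 2 ≤ Nm v := dd_two_le v
  have h1 : ∀ x : 𝓞 E, x ^ Nm v - x ∈ w.asIdeal := by
    intro x
    have h2 := hs W hWv (algebraMap (𝓞 E) (𝓞 L) x)
    have h3 : s • (algebraMap (𝓞 E) (𝓞 L) x) = algebraMap (𝓞 E) (𝓞 L) x := by
      apply RingOfIntegers.ext
      exact hE (x : E)
    rw [h3, ← map_pow, ← map_sub] at h2
    have h4 : w.asIdeal = W.asIdeal.under (𝓞 E) := (congrArg HeightOneSpectrum.asIdeal hW).symm
    rw [h4, Ideal.under_def, Ideal.mem_comap, ← neg_sub, map_neg]
    exact neg_mem h2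
  have hm := w.isMaximal
  let _ : Field (𝓞 E ⧸ w.asIdeal) := Ideal.Quotient.field w.asIdeal
  have hfin : Finite (𝓞 E ⧸ w.asIdeal) := Ideal.finiteQuotientOfFreeOfNeBot w.asIdeal w.ne_bot
  let _ : Fintype (𝓞 E ⧸ w.asIdeal) := Fintype.ofFinite _
  have h5 : Fintype.card (𝓞 E ⧸ w.asIdeal) ≤ Nm v := by
    refine card_le_of_pow _ hq fun x => ?_
    obtain ⟨y, rfl⟩ := Ideal.Quotient.mk_surjective x
    rw [← map_pow]
    exact Ideal.Quotient.eq.2 (h1 y)
  have h6 : Ideal.absNorm w.asIdeal ≤ Nm v := by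
    rw [Ideal.absNorm_apply, Submodule.cardQuot_apply, Nat.card_eq_fintype_card]
    exact h5
  rw [D5_norm v w hw] at h6
  have h7 := fs_pos (K := K) (L := E) v
  by_contra hne
  have h8 : 2 ≤ fs K E v := by omega
  have h9 : Nm v < Ideal.absNorm v.asIdeal ^ fs K E v := by
    calc Nm v = Nm v ^ 1 := (pow_one _).symm
      _ < Nm v ^ fs K E v := Nat.pow_lt_pow_right (by omega) (by omega)
  omega

end tower

/-- A Galois extension in which almost all primes split completely is trivial. -/
theorem triv_of_split {K E : Type} [Field K] [NumberField K] [Field E] [NumberField E] [Algebra K E] [IsGalois K E]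
    (F : Finset (Pl K)) (h : ∀ v ∉ F, Spl K E v) : Module.finrank K E = 1 := by
  obtain ⟨C₁, hC₁⟩ := density_split K E
  obtain ⟨C₂, hC₂⟩ := prime_zeta K
  have hfr : (0 : ℝ) < Module.finrank K E := by exact_mod_cast Module.finrank_pos
  have h1 : (1 : ℝ) ≤ 1 / Module.finrank K E := by
    refine lead_le (C := C₁ + C₂ + F.card) fun s hs => ?_
    have e1 := (abs_le.1 (hC₁ s hs)).2
    have e2 := (abs_le.1 (hC₂ s hs)).1
    have e3 : PS (Set.univ : Set (Pl K)) s ≤ PS {v : Pl K | Spl K E v} s + F.card :=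
      PS_le F (fun v _ hv => h v hv) hs.1
    rw [PS_univ] at e3
    linarith
  rw [le_div_iff₀ hfr, one_mul] at h1
  have h2 : Module.finrank K E ≤ 1 := by exact_mod_cast h1
  have h3 : 0 < Module.finrank K E := Module.finrank_pos
  omega

theorem unr_of_es {K L : Type} [Field K] [NumberField K] [Field L] [NumberField L] [Algebra K L] [IsGalois K L]
    {v : Pl K} (h : es K L v = 1) : Unr K L v := by
  intro w hw
  have hp := v.isPrime
  have hwp := w.isPrime
  have hl : w.asIdeal.LiesOver v.asIdeal := (BF2_mem v w hw).2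
  rw [← Ideal.ramificationIdxIn_eq_ramificationIdx v.asIdeal w.asIdeal Gal(L/K)]
  exact h

/-- Z3. The Frobenius elements outside a finite set generate the group (abelian extension). -/
theorem frob_gen (K : Type) [Field K] [NumberField K] (L : Type) [Field L] [NumberField L] [Algebra K L]
    [IsGalois K L] (hab : ∀ a b : L ≃ₐ[K] L, a * b = b * a) (S : Finset (Pr K)) :
    Subgroup.closure {s : L ≃ₐ[K] L | ∃ v : Pr K, v ∉ S ∧ Unr K L v ∧ frob K L v = s} = ⊤ := by
  classical
  set H := Subgroup.closure {s : L ≃ₐ[K] L | ∃ v : Pr K, v ∉ S ∧ Unr K L v ∧ frob K L v = s} with hH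
  let E : IntermediateField K L := IntermediateField.fixedField H
  have hN : H.Normal := ⟨fun a ha g => by
    rw [hab g a, mul_assoc, mul_inv_cancel, mul_one]
    exact ha⟩
  have hE : IsGalois K E := IsGalois.of_fixedField_normal_subgroup H
  have hnE : NumberField E := inferInstance
  have h1 : Module.finrank K E = 1 := by
    refine triv_of_split (S ∪ (ram_finite K L).toFinset ∪ (ram_finite K E).toFinset) fun v hv => ?_
    rw [Finset.mem_union, Finset.mem_union, not_or, not_or, Set.Finite.mem_toFinset, Set.Finite.mem_toFinset,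
      Set.mem_ofPred_eq, Set.mem_ofPred_eq, not_not, not_not] at hv
    obtain ⟨⟨hvS, h2⟩, h3⟩ := hv
    refine ⟨h3, ?_⟩
    have h4 := unr_of_es h2
    refine deg_one (L := L) (frob_spec hab h4) fun x => ?_
    have h5 : frob K L v ∈ H := Subgroup.subset_closure ⟨v, hvS, h4, rfl⟩
    exact x.2 ⟨_, h5⟩
  have h2 : E = ⊥ := IntermediateField.finrank_eq_one_iff.1 h1
  have h3 : IntermediateField.fixingSubgroup E = H := IntermediateField.fixingSubgroup_fixedField H
  rw [← h3, h2]
  exact IntermediateField.fixingSubgroup_bot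
end CFTZ
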