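import Mathlib
import Pool.Agent.Lib.CFT.D2
import Pool.Agent.Lib.CFT.B01
import Pool.Agent.Lib.CFT.B03
import Pool.Agent.Lib.CFT.B04

/-! # CFT, module Z, part F: the ray class group is finite (Z1) -/

open NumberField IsDedekindDomain nonZeroDivisors

namespace CFTZ

open CFT

variable {K : Type} [Field K] [NumberField K]

/-- A prime as a nonzero ideal. -/
noncomputable def pz (v : Pr K) : (Ideal (𝓞 K))⁰ := ⟨v.asIdeal, mem_nonZeroDivisors_of_ne_zero v.ne_bot⟩

/-- The class of a divisor. -/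
noncomputable def cl : Dv K →+ Additive (ClassGroup (𝓞 K)) :=
  Finsupp.liftAddHom fun v => zmultiplesHom _ (Additive.ofMul (ClassGroup.mk0 (pz v)))

theorem cl_idl {D : Dv K} (hD : ∀ v, 0 ≤ D v) :
    cl D = Additive.ofMul (ClassGroup.mk0 ⟨idl D, mem_nonZeroDivisors_of_ne_zero (idl_ne_zero D)⟩) := by
  have h1 : (⟨idl D, mem_nonZeroDivisors_of_ne_zero (idl_ne_zero D)⟩ : (Ideal (𝓞 K))⁰) =
      ∏ v ∈ D.support, pz v ^ (D v).toNat := by
    apply Subtype.ext
    rw [Submonoid.coe_finset_prod]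
    rfl
  rw [h1, map_prod, ofMul_prod]
  unfold cl
  rw [Finsupp.liftAddHom_apply]
  unfold Finsupp.sum
  refine Finset.sum_congr rfl fun v _ => ?_
  rw [map_pow, ofMul_pow]
  show D v • Additive.ofMul (ClassGroup.mk0 (pz v)) = _
  conv_lhs => rw [← Int.toNat_of_nonneg (hD v)]
  rw [natCast_zsmul]

/-- Divisors of class 0 are principal. -/
theorem cl_ker {D : Dv K} (h : cl D = 0) : ∃ x : K, x ≠ 0 ∧ D = dv x := by
  obtain ⟨P, hP⟩ : ∃ P : Dv K, P = D.mapRange (fun n => max n 0) (by simp) := ⟨_, rfl⟩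
  obtain ⟨M, hM⟩ : ∃ M : Dv K, M = D.mapRange (fun n => max (-n) 0) (by simp) := ⟨_, rfl⟩
  have hP0 : ∀ v, 0 ≤ P v := fun v => by
    rw [hP, Finsupp.mapRange_apply]
    exact le_max_right _ _
  have hM0 : ∀ v, 0 ≤ M v := fun v => by
    rw [hM, Finsupp.mapRange_apply]
    exact le_max_right _ _
  have hD : D + M = P := by
    ext v
    rw [Finsupp.add_apply, hP, hM, Finsupp.mapRange_apply, Finsupp.mapRange_apply]
    rcases le_total 0 (D v) with h1 | h1
    · rw [max_eq_left h1, max_eq_right (by omega), add_zero]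
    · rw [max_eq_right h1, max_eq_left (by omega)]
      ring
  have h1 : cl P = cl M := by
    rw [← hD, map_add, h, zero_add]
  rw [cl_idl hP0, cl_idl hM0] at h1
  have h2 := Additive.ofMul.injective h1
  rw [ClassGroup.mk0_eq_mk0_iff] at h2
  obtain ⟨x, y, hx, hy, h3⟩ := h2
  have hxK : (x : K) ≠ 0 := fun h => hx (RingOfIntegers.ext h)
  have hyK : (y : K) ≠ 0 := fun h => hy (RingOfIntegers.ext h)
  have hx0 : ∀ v, 0 ≤ dv (x : K) v := fun v => od_nonneg v x
  have hy0 : ∀ v, 0 ≤ dv (y : K) v := fun v => od_nonneg v y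
  have h4 : idl (dv (x : K) + P) = idl (dv (y : K) + M) := by
    rw [idl_add hx0 hP0, idl_add hy0 hM0, idl_dv hx, idl_dv hy]
    exact h3
  have h5 := idl_inj (fun v => add_nonneg (hx0 v) (hP0 v)) (fun v => add_nonneg (hy0 v) (hM0 v)) h4
  refine ⟨(y : K) * (x : K)⁻¹, mul_ne_zero hyK (inv_ne_zero hxK), ?_⟩
  rw [dv_mul hyK (inv_ne_zero hxK), dv_inv]
  rw [← hD] at h5
  have h6 : dv (x : K) + D + M = dv (y : K) + M := by rw [add_assoc]; exact h5
  have h7 := add_right_cancel h6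
  rw [← h7]
  abel

/-- A map to a finite type whose fibres lie in cosets. -/
theorem finiteIndex_of_map {G T : Type} [AddCommGroup G] [Finite T] (P : AddSubgroup G) (f : G → T)
    (h : ∀ a b, f a = f b → a - b ∈ P) : P.FiniteIndex := by
  have h1 : Function.Injective fun q : G ⧸ P => f q.out := by
    intro q q' hq
    have h2 := h _ _ hq
    rw [← QuotientAddGroup.out_eq' q, ← QuotientAddGroup.out_eq' q']
    rw [eq_comm, QuotientAddGroup.eq_iff_sub_mem]
    have h3 := neg_mem h2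
    rwa [neg_sub] at h3
  have h2 : Finite (G ⧸ P) := Finite.of_injective _ h1
  exact AddSubgroup.finiteIndex_of_finite_quotient

theorem finite_real : Finite (K →+* ℝ) := by
  refine Finite.of_injective (fun φ : K →+* ℝ => Complex.ofRealHom.comp φ) fun φ ψ h => ?_
  refine RingHom.ext fun x => ?_
  exact Complex.ofReal_injective (RingHom.congr_fun h x)

theorem val_unit (v : Pr K) {a : 𝓞 K} (h : a ∉ v.asIdeal) : v.valuation K (a : K) = 1 := by
  refine le_antisymm (v.valuation_le_one a) (not_lt.1 fun hlt => h ?_)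
  have h1 : v.valuation K (algebraMap (𝓞 K) K a) < 1 := hlt
  rw [HeightOneSpectrum.valuation_lt_one_iff_dvd] at h1
  exact Ideal.dvd_span_singleton.1 h1

theorem val_pow (v : Pr K) {a : 𝓞 K} {N : ℕ} (h : a ∈ v.asIdeal ^ (N + 1)) :
    v.valuation K (a : K) < WithZero.exp (-(N : ℤ)) := by
  have h1 : v.valuation K (algebraMap (𝓞 K) K a) ≤ WithZero.exp (-((N + 1 : ℕ) : ℤ)) := by
    rw [HeightOneSpectrum.valuation_of_algebraMap, v.intValuation_le_pow_iff_mem]
    exact h
  refine lt_of_le_of_lt h1 ?_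
  rw [WithZero.exp_lt_exp]
  push_cast
  omega

open Classical in
/-- Z1. The ray class group is finite. -/
theorem pray_fin (S : Finset (Pr K)) (N : ℕ) : (Pray S N).FiniteIndex := by
  have hfr : Finite (K →+* ℝ) := finite_real
  obtain ⟨m, hm⟩ : ∃ m : Ideal (𝓞 K), m = ∏ v ∈ S, v.asIdeal ^ (N + 1) := ⟨_, rfl⟩
  have hm0 : m ≠ ⊥ := by
    rw [hm]
    exact Finset.prod_ne_zero_iff.2 fun v _ => pow_ne_zero _ v.ne_bot
  have hmv : ∀ v ∈ S, m ≤ v.asIdeal ^ (N + 1) := fun v hv => by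
    rw [hm]
    exact Ideal.le_of_dvd (Finset.dvd_prod_of_mem (fun v : Pr K => v.asIdeal ^ (N + 1)) hv)
  have hfq : Finite (𝓞 K ⧸ m) := Ideal.finiteQuotientOfFreeOfNeBot m hm0
  have hfc : Finite (Additive (ClassGroup (𝓞 K))) := inferInstanceAs (Finite (ClassGroup (𝓞 K)))
  have ff : ∀ (D : Dv K) (v : Pr K), v ∈ S → (D.filter (· ∉ S)) v = 0 := fun D v hv =>
    Finsupp.filter_apply_neg (fun v => v ∉ S) D (not_not.2 hv)
  have ft : ∀ (D : Dv K) (v : Pr K), v ∉ S → (D.filter (· ∉ S)) v = D v := fun D v hv =>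
    Finsupp.filter_apply_pos (fun v => v ∉ S) D hv
  -- representatives of the classes
  obtain ⟨r, hr⟩ : ∃ r : Additive (ClassGroup (𝓞 K)) → Dv K, ∀ D : Dv K,
      cl ((r (cl (D.filter (· ∉ S)))).filter (· ∉ S)) = cl (D.filter (· ∉ S)) := by
    refine ⟨fun c => if h : ∃ D : Dv K, cl (D.filter (· ∉ S)) = c then h.choose else 0, fun D => ?_⟩
    have h : ∃ E : Dv K, cl (E.filter (· ∉ S)) = cl (D.filter (· ∉ S)) := ⟨D, rfl⟩
    simp only
    rw [dif_pos h]
    exact h.choose_spec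
  have key : ∀ D : Dv K, ∃ a b : 𝓞 K, a ≠ 0 ∧ b ≠ 0 ∧ (∀ v ∈ S, a ∉ v.asIdeal) ∧ (∀ v ∈ S, b ∉ v.asIdeal) ∧
      D.filter (· ∉ S) - (r (cl (D.filter (· ∉ S)))).filter (· ∉ S) = dv ((a : K) / (b : K)) := by
    intro D
    obtain ⟨x, hx, h1⟩ := cl_ker (D := D.filter (· ∉ S) - (r (cl (D.filter (· ∉ S)))).filter (· ∉ S))
      (by rw [map_sub, hr D, sub_self])
    have h2 : ∀ v ∈ S, od v x = 0 := by
      intro v hv
      rw [← dv_apply, ← h1, Finsupp.sub_apply, ff _ v hv, ff _ v hv, sub_zero]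
    obtain ⟨a, b, hb, hab, h3⟩ := frac_prime S fun v hv => (h2 v hv).ge
    have hbK : (b : K) ≠ 0 := fun h => hb (RingOfIntegers.ext h)
    have haK : (a : K) ≠ 0 := by
      intro h
      rw [h, zero_div] at hab
      exact hx hab
    have ha : a ≠ 0 := by
      rintro rfl
      exact haK rfl
    refine ⟨a, b, ha, hb, fun v hv hav => ?_, h3, by rw [h1, hab]⟩
    have h4 : 0 < od v (a : K) := (od_pos_iff v ha).2 hav
    have h5 : ¬ 0 < od v (b : K) := fun h => h3 v hv ((od_pos_iff v hb).1 h)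
    have h6 := od_nonneg v b
    have h7 : od v (a : K) = od v x + od v (b : K) := by
      rw [← od_mul v hx hbK, hab, div_mul_cancel₀ _ hbK]
    rw [h2 v hv] at h7
    omega
  choose a b ha hb hav hbv hab using key
  refine finiteIndex_of_map (T := Additive (ClassGroup (𝓞 K)) × (𝓞 K ⧸ m) × (𝓞 K ⧸ m) × ((K →+* ℝ) → Bool)) (Pray S N)
    (fun D => (cl (D.filter (· ∉ S)), Ideal.Quotient.mk m (a D), Ideal.Quotient.mk m (b D),
      fun φ => decide (0 < φ ((a D : K) / (b D : K))))) fun D E hDE => ?_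
  rw [Prod.mk.injEq, Prod.mk.injEq, Prod.mk.injEq] at hDE
  obtain ⟨e1, e2, e3, e4⟩ := hDE
  have e2' : a D - a E ∈ m := Ideal.Quotient.eq.1 e2
  have e3' : b D - b E ∈ m := Ideal.Quotient.eq.1 e3
  have nz : ∀ {z : 𝓞 K}, z ≠ 0 → (z : K) ≠ 0 := fun {z} hz h => hz (RingOfIntegers.ext h)
  have hx0 : ((a D : K) / (b D : K)) ≠ 0 := div_ne_zero (nz (ha D)) (nz (hb D))
  have hy0 : ((a E : K) / (b E : K)) ≠ 0 := div_ne_zero (nz (ha E)) (nz (hb E))
  refine ⟨((a D : K) / (b D : K)) * ((a E : K) / (b E : K))⁻¹, ⟨mul_ne_zero hx0 (inv_ne_zero hy0), fun v hv => ?_,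
    fun φ => ?_⟩, fun v hv => ?_⟩
  · have h1 : ((a D : K) / (b D : K)) * ((a E : K) / (b E : K))⁻¹ - 1 =
        ((a D * b E - a E * b D : 𝓞 K) : K) / (((b D * a E : 𝓞 K)) : K) := by
      have n1 := nz (ha D)
      have n2 := nz (hb D)
      have n3 := nz (ha E)
      have n4 := nz (hb E)
      push_cast
      field_simp
    rw [h1, map_div₀]
    have h2 : v.valuation K (((b D * a E : 𝓞 K)) : K) = 1 := by
      refine val_unit v fun h => ?_
      rcases v.isPrime.mem_or_mem h with h | h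
      · exact hbv D v hv h
      · exact hav E v hv h
    rw [h2, div_one]
    refine val_pow v (hmv v hv ?_)
    have h3 : a D * b E - a E * b D = (a D - a E) * b E - a E * (b D - b E) := by ring
    rw [h3]
    exact m.sub_mem (m.mul_mem_right _ e2') (m.mul_mem_left _ e3')
  · have h1 := congrFun e4 φ
    have h2 : φ ((a D : K) / (b D : K)) ≠ 0 := (map_ne_zero φ).2 hx0
    have h3 : φ ((a E : K) / (b E : K)) ≠ 0 := (map_ne_zero φ).2 hy0
    rw [map_mul, map_inv₀, ← div_eq_mul_inv]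
    have h4 := decide_eq_decide.1 h1
    rcases lt_or_gt_of_ne h2 with h5 | h5
    · have h6 : φ ((a E : K) / (b E : K)) < 0 := by
        refine lt_of_le_of_ne (not_lt.1 fun h => ?_) h3
        exact absurd (h4.2 h) (not_lt.2 h5.le)
      exact div_pos_of_neg_of_neg h5 h6
    · exact div_pos h5 (h4.1 h5)
  · have h1 := hab D
    have h2 := hab E
    rw [← e1] at h2
    have h3 := DFunLike.congr_fun h1 v
    have h4 := DFunLike.congr_fun h2 v
    rw [Finsupp.sub_apply, ft _ v hv, ft _ v hv, dv_apply] at h3 h4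
    rw [Finsupp.sub_apply, od_mul v hx0 (inv_ne_zero hy0), od_inv]
    linarith

end CFTZ
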