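import Mathlib
import Pool.Agent.Lib.CFT.D2
import Pool.Agent.Lib.CFT.ZF
import Pool.Agent.Lib.CFT.ZC
import Pool.Agent.Lib.CFT.ZE
import Pool.Agent.Lib.CFT.Y32
import Pool.Agent.Lib.CFT.B24
import Pool.Agent.Lib.H69H.F1

/-! # CFT: the theorems T0 - T4 (finiteness of the ray class group, the two inequalities, Frobenius elements generate, cyclotomic reciprocity)

The statements are those of Targets.lean (same names); files which are part of the proof or of a hand-in import Core1 (T0 - T4), Core2 (crossing) or Core
(everything), never Targets. -/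

open NumberField IsDedekindDomain

namespace CFT

variable (K : Type) [Field K] [NumberField K] (L : Type) [Field L] [NumberField L] [Algebra K L]

/-- Z1. The ray class group is finite. -/
theorem pray_fin (S : Finset (Pr K)) (N : ℕ) : (Pray S N).FiniteIndex := CFTZ.pray_fin S N

/-- T1 (Z2). The second inequality, for every Galois extension. -/
theorem second_ineq [IsGalois K L] (S : Finset (Pr K)) (N : ℕ) :
    (Pray S N ⊔ (Nd K L).range).index ≤ Module.finrank K L :=
  CFTZ.second_ineq_of (fun S N χ h1 h2 h3 => CFTY.z0_bdd (pray_fin K) S N χ h1 h2 h3) S N (pray_fin K S N)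

/-- T2 (Z3). The Frobenius elements outside a finite set generate the group (abelian extension). -/
theorem frob_gen [IsGalois K L] (hab : ∀ a b : L ≃ₐ[K] L, a * b = b * a) (S : Finset (Pr K)) :
    Subgroup.closure {s : L ≃ₐ[K] L | ∃ v : Pr K, v ∉ S ∧ Unr K L v ∧ frob K L v = s} = ⊤ := CFTZ.frob_gen K L hab S

/-- T3 (H). The first inequality, for cyclic extensions, modulus supported on any finite set containing the ramified primes. -/
theorem first_ineq [IsGalois K L] (hc : IsCyclic (L ≃ₐ[K] L)) (S : Finset (Pr K)) (hS : ∀ v : Pr K, ¬ Unr K L v → v ∈ S) :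
    ∃ N : ℕ, Module.finrank K L ≤ (Pray S N ⊔ (Nd K L).range).index := Pool.Agent.H69H.first_ineq hc S hS

/-- T4 (B). Reciprocity for cyclotomic extensions. -/
theorem cyc_rec (m : ℕ) [NeZero m] [IsCyclotomicExtension {m} K L] (S : Finset (Pr K))
    (hS : ∀ v : Pr K, (m : 𝓞 K) ∈ v.asIdeal → v ∈ S) :
    ∃ N : ℕ, ∀ (A : Type) [CommGroup A] (χ : (L ≃ₐ[K] L) →* A) (x : K), Ray S N x → art S χ (dv x) = 0 := cyc_rec' m S hS

end CFT
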