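import Mathlib

/-! # CFT X01 (S/M): a cyclic group has one subgroup of order l

PROOF. Take c₁ ≠ 1 in zpowers t₁ and zpowers a; its order divides l^r, so it is l^j with j >= 1; replace c₁ by c₁^(l^(j-1)): order exactly l. The same for
c₂ in zpowers t₂ and zpowers a. In the cyclic group zpowers a there are at most l elements x with x^l = 1 (IsCyclic.card_pow_eq_one_le), and zpowers c₁ consists of l
such elements; so c₂ is in zpowers c₁ (for instance: zpowers c₁ and zpowers c₂ are subgroups of zpowers a with the same number l of elements, so they are equal).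
So c₂ ≠ 1 is in zpowers t₁ and in zpowers t₂. -/

namespace CFT

theorem x1_ord {Γ : Type} [CommGroup Γ] [Finite Γ] {l r : ℕ} (hl : l.Prime) {a t : Γ} (h1 : t ^ l ^ r = 1)
    (n1 : ¬ Disjoint (Subgroup.zpowers t) (Subgroup.zpowers a)) :
    ∃ c : Γ, orderOf c = l ∧ c ∈ Subgroup.zpowers t ∧ c ∈ Subgroup.zpowers a := by
  rw [Subgroup.disjoint_def] at n1
  push Not at n1
  obtain ⟨c, hct, hca, hc1⟩ := n1
  have h2 : c ^ l ^ r = 1 := by
    obtain ⟨i, hi⟩ := Subgroup.mem_zpowers_iff.1 hct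
    rw [← hi, ← zpow_natCast, ← zpow_mul, mul_comm, zpow_mul, zpow_natCast, h1, one_zpow]
  obtain ⟨j, _, hj⟩ := (Nat.dvd_prime_pow hl).1 (orderOf_dvd_of_pow_eq_one h2)
  have hj0 : j ≠ 0 := by
    rintro rfl
    rw [pow_zero, orderOf_eq_one_iff] at hj
    exact hc1 hj
  obtain ⟨i, rfl⟩ := Nat.exists_eq_succ_of_ne_zero hj0
  refine ⟨c ^ l ^ i, ?_, Subgroup.pow_mem _ hct _, Subgroup.pow_mem _ hca _⟩
  rw [orderOf_pow_of_dvd (pow_ne_zero _ hl.ne_zero) (by rw [hj]; exact pow_dvd_pow _ (Nat.le_succ i)), hj,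
    Nat.pow_div (Nat.le_succ i) hl.pos, Nat.succ_sub (le_refl i), Nat.sub_self, pow_one]

theorem x_cyc {Γ : Type} [CommGroup Γ] [Finite Γ] {l r : ℕ} (hl : l.Prime) {a t₁ t₂ : Γ} (h1 : t₁ ^ l ^ r = 1) (h2 : t₂ ^ l ^ r = 1)
    (n1 : ¬ Disjoint (Subgroup.zpowers t₁) (Subgroup.zpowers a)) (n2 : ¬ Disjoint (Subgroup.zpowers t₂) (Subgroup.zpowers a)) :
    ¬ Disjoint (Subgroup.zpowers t₁) (Subgroup.zpowers t₂) := by
  obtain ⟨c₁, hc₁, m1, m1'⟩ := x1_ord hl h1 n1
  obtain ⟨c₂, hc₂, m2, m2'⟩ := x1_ord hl h2 n2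
  intro hd
  rw [Subgroup.disjoint_def] at hd
  have h3 : c₂ ∈ Subgroup.zpowers c₁ := by
    classical
    haveI : Fintype Γ := Fintype.ofFinite Γ
    have h4 : (Finset.univ.filter fun x : Subgroup.zpowers a => x ^ l = 1).card ≤ l :=
      IsCyclic.card_pow_eq_one_le hl.pos
    let f : Subgroup.zpowers c₁ → Subgroup.zpowers a := fun x =>
      ⟨x.1, (Subgroup.zpowers_le.2 m1') x.2⟩
    have h5 : (Finset.univ.image f).card = l := by
      rw [Finset.card_image_of_injective]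
      · rw [Finset.card_univ, ← Nat.card_eq_fintype_card, Nat.card_zpowers, hc₁]
      · intro x y hxy
        exact Subtype.ext (congrArg (fun z : Subgroup.zpowers a => (z : Γ)) hxy)
    have h6 : Finset.univ.image f ⊆ Finset.univ.filter fun x : Subgroup.zpowers a => x ^ l = 1 := by
      intro x hx
      obtain ⟨y, _, rfl⟩ := Finset.mem_image.1 hx
      rw [Finset.mem_filter]
      refine ⟨Finset.mem_univ _, Subtype.ext ?_⟩
      show (y : Γ) ^ l = 1
      obtain ⟨i, hi⟩ := Subgroup.mem_zpowers_iff.1 y.2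
      rw [← hi, ← zpow_natCast, ← zpow_mul, mul_comm, zpow_mul, zpow_natCast, ← hc₁, pow_orderOf_eq_one, one_zpow]
    have h7 := Finset.eq_of_subset_of_card_le h6 (by rw [h5]; exact h4)
    have h8 : (⟨c₂, m2'⟩ : Subgroup.zpowers a) ∈ Finset.univ.image f := by
      rw [h7, Finset.mem_filter]
      refine ⟨Finset.mem_univ _, Subtype.ext ?_⟩
      show c₂ ^ l = 1
      rw [← hc₂, pow_orderOf_eq_one]
    obtain ⟨y, _, hy⟩ := Finset.mem_image.1 h8
    have h9 : (y : Γ) = c₂ := congrArg (fun z : Subgroup.zpowers a => (z : Γ)) hy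
    rw [← h9]
    exact y.2
  have h4 := hd ((Subgroup.zpowers_le.2 m1) h3) m2
  rw [h4, orderOf_one] at hc₂
  exact hl.one_lt.ne hc₂

end CFT
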