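import Mathlib
import Pool.Agent.Lib.CFT.X01

/-! # CFT X02 (M): the element tau

PROOF. u₁, u₂ and u₁ u₂ have order l^r and the three groups zpowers u₁, zpowers u₂, zpowers (u₁ u₂) are pairwise disjoint: if (u₁ u₂)^j = u₁^i then
u₂^j = u₁^(i-j) is in both zpowers u₁, zpowers u₂, so u₂^j = 1, l^r divides j, u₁^j = 1 and (u₁ u₂)^j = 1; the same for u₂. ((u₁ u₂)^j = 1 gives u₂^j = u₁^(-j) = 1, so
l^r divides j: the order.) By x_cyc (X01) zpowers a is not disjoint from at most one of the three groups, the same for zpowers b; so one of the three elements is good. -/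

namespace CFT

theorem x_tau {Γ : Type} [CommGroup Γ] [Finite Γ] {l r : ℕ} (hl : l.Prime) {u₁ u₂ : Γ} (h1 : orderOf u₁ = l ^ r) (h2 : orderOf u₂ = l ^ r)
    (hd : Disjoint (Subgroup.zpowers u₁) (Subgroup.zpowers u₂)) (a b : Γ) :
    ∃ τ : Γ, orderOf τ = l ^ r ∧ Disjoint (Subgroup.zpowers τ) (Subgroup.zpowers a) ∧ Disjoint (Subgroup.zpowers τ) (Subgroup.zpowers b) := by
  have key : ∀ {s t : Γ}, orderOf s = l ^ r → orderOf t = l ^ r → Disjoint (Subgroup.zpowers s) (Subgroup.zpowers t) →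
      ∀ c : Γ, Disjoint (Subgroup.zpowers s) (Subgroup.zpowers c) ∨ Disjoint (Subgroup.zpowers t) (Subgroup.zpowers c) := by
    intro s t hs ht hst c
    by_contra hcon
    rw [not_or] at hcon
    exact x_cyc hl (by rw [← hs, pow_orderOf_eq_one]) (by rw [← ht, pow_orderOf_eq_one]) hcon.1 hcon.2 hst
  have h3 : ∀ i j : ℤ, (u₁ * u₂) ^ j = u₁ ^ i → u₂ ^ j = 1 ∧ u₁ ^ j = 1 := by
    intro i j hij
    have e1 : u₂ ^ j = u₁ ^ (i - j) := by
      rw [mul_zpow] at hij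
      rw [zpow_sub, ← hij, mul_comm (u₁ ^ j) (u₂ ^ j), mul_assoc, mul_inv_cancel, mul_one]
    rw [Subgroup.disjoint_def] at hd
    have e2 : u₂ ^ j = 1 := by
      apply hd
      · rw [e1]
        exact Subgroup.zpow_mem_zpowers _ _
      · exact Subgroup.zpow_mem_zpowers _ _
    refine ⟨e2, ?_⟩
    rw [← orderOf_dvd_iff_zpow_eq_one, h1, ← h2, orderOf_dvd_iff_zpow_eq_one]
    exact e2
  have h4 : ∀ i j : ℤ, (u₁ * u₂) ^ j = u₂ ^ i → u₂ ^ j = 1 ∧ u₁ ^ j = 1 := by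
    intro i j hij
    have e1 : u₁ ^ j = u₂ ^ (i - j) := by
      rw [mul_zpow] at hij
      rw [zpow_sub, ← hij]
      group
    rw [Subgroup.disjoint_def] at hd
    have e2 : u₁ ^ j = 1 := by
      apply hd
      · exact Subgroup.zpow_mem_zpowers _ _
      · rw [e1]
        exact Subgroup.zpow_mem_zpowers _ _
    refine ⟨?_, e2⟩
    rw [← orderOf_dvd_iff_zpow_eq_one, h2, ← h1, orderOf_dvd_iff_zpow_eq_one]
    exact e2
  have h5 : orderOf (u₁ * u₂) = l ^ r := by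
    apply Nat.dvd_antisymm
    · apply orderOf_dvd_of_pow_eq_one
      rw [mul_pow]
      nth_rewrite 1 [← h1]
      rw [← h2, pow_orderOf_eq_one, pow_orderOf_eq_one, mul_one]
    · have e1 : (u₁ * u₂) ^ (orderOf (u₁ * u₂) : ℤ) = u₁ ^ (0 : ℤ) := by
        rw [zpow_natCast, pow_orderOf_eq_one, zpow_zero]
      have e2 := (h3 _ _ e1).1
      rw [← h2]
      rw [zpow_natCast] at e2
      exact orderOf_dvd_of_pow_eq_one e2
  have d1 : Disjoint (Subgroup.zpowers u₁) (Subgroup.zpowers (u₁ * u₂)) := by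
    rw [Subgroup.disjoint_def]
    intro x hx1 hx2
    obtain ⟨i, hi⟩ := Subgroup.mem_zpowers_iff.1 hx1
    obtain ⟨j, hj⟩ := Subgroup.mem_zpowers_iff.1 hx2
    obtain ⟨e1, e2⟩ := h3 i j (hj.trans hi.symm)
    rw [← hj, mul_zpow, e1, e2, one_mul]
  have d2 : Disjoint (Subgroup.zpowers u₂) (Subgroup.zpowers (u₁ * u₂)) := by
    rw [Subgroup.disjoint_def]
    intro x hx1 hx2
    obtain ⟨i, hi⟩ := Subgroup.mem_zpowers_iff.1 hx1
    obtain ⟨j, hj⟩ := Subgroup.mem_zpowers_iff.1 hx2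
    obtain ⟨e1, e2⟩ := h4 i j (hj.trans hi.symm)
    rw [← hj, mul_zpow, e1, e2, one_mul]
  by_contra hcon
  push Not at hcon
  have g1 := hcon u₁ h1
  have g2 := hcon u₂ h2
  have g3 := hcon (u₁ * u₂) h5
  have k12a := key h1 h2 hd a
  have k12b := key h1 h2 hd b
  have k13a := key h1 h5 d1 a
  have k13b := key h1 h5 d1 b
  have k23a := key h2 h5 d2 a
  have k23b := key h2 h5 d2 b
  tauto

end CFT
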