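import Mathlib

/-! # CFT X03 (M): two independent units modulo q₁ q₂

PROOF. e : (ZMod (q₁ q₂))ˣ ≃* (ZMod q₁)ˣ × (ZMod q₂)ˣ (Units.mapEquiv of ZMod.chineseRemainder, MulEquiv.prodUnits). (ZMod q_i)ˣ is cyclic of order q_i - 1
(ZMod.isCyclic_units_prime, ZMod.card_units), so it has an element w_i of order l^r (orderOf_pow of a generator, exponent (q_i - 1) / l^r). u₁ = e.symm (w₁, 1), u₂ = e.symm (1, w₂). -/

namespace CFT

theorem x3_elt {q l r : ℕ} (h1 : q.Prime) (d1 : l ^ r ∣ q - 1) : ∃ w : (ZMod q)ˣ, orderOf w = l ^ r := by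
  haveI : Fact q.Prime := ⟨h1⟩
  obtain ⟨g, hg⟩ := IsCyclic.exists_generator (α := (ZMod q)ˣ)
  have h2 : orderOf g = q - 1 := by
    rw [orderOf_eq_card_of_forall_mem_zpowers hg, Nat.card_eq_fintype_card, ZMod.card_units]
  have hq1 : 0 < q - 1 := Nat.sub_pos_of_lt h1.one_lt
  refine ⟨g ^ ((q - 1) / l ^ r), ?_⟩
  have h3 : (q - 1) / l ^ r ∣ orderOf g := by
    rw [h2]
    exact Nat.div_dvd_of_dvd d1
  have h4 : (q - 1) / l ^ r ≠ 0 := (Nat.div_pos (Nat.le_of_dvd hq1 d1) (Nat.pos_of_dvd_of_pos d1 hq1)).ne'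
  rw [orderOf_pow_of_dvd h4 h3, h2, Nat.div_div_self d1 hq1.ne']

theorem x_units {q₁ q₂ l r : ℕ} (h1 : q₁.Prime) (h2 : q₂.Prime) (hne : q₁ ≠ q₂) (d1 : l ^ r ∣ q₁ - 1) (d2 : l ^ r ∣ q₂ - 1) :
    ∃ u₁ u₂ : (ZMod (q₁ * q₂))ˣ, orderOf u₁ = l ^ r ∧ orderOf u₂ = l ^ r ∧
      Disjoint (Subgroup.zpowers u₁) (Subgroup.zpowers u₂) := by
  haveI : Fact q₁.Prime := ⟨h1⟩
  haveI : Fact q₂.Prime := ⟨h2⟩
  have hc : Nat.Coprime q₁ q₂ := (Nat.coprime_primes h1 h2).2 hne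
  obtain ⟨w₁, hw₁⟩ := x3_elt h1 d1
  obtain ⟨w₂, hw₂⟩ := x3_elt h2 d2
  let e : (ZMod (q₁ * q₂))ˣ ≃* (ZMod q₁)ˣ × (ZMod q₂)ˣ :=
    (Units.mapEquiv (ZMod.chineseRemainder hc).toMulEquiv).trans MulEquiv.prodUnits
  refine ⟨e.symm (w₁, 1), e.symm (1, w₂), ?_, ?_, ?_⟩
  · rw [MulEquiv.orderOf_eq, Prod.orderOf_mk, orderOf_one, Nat.lcm_one_right, hw₁]
  · rw [MulEquiv.orderOf_eq, Prod.orderOf_mk, orderOf_one, Nat.lcm_one_left, hw₂]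
  · rw [Subgroup.disjoint_def]
    intro x hx1 hx2
    obtain ⟨i, hi⟩ := Subgroup.mem_zpowers_iff.1 hx1
    obtain ⟨j, hj⟩ := Subgroup.mem_zpowers_iff.1 hx2
    have e1 : e x = (w₁ ^ i, 1) := by
      rw [← hi, map_zpow, MulEquiv.apply_symm_apply]
      exact Prod.ext rfl (one_zpow i)
    have e2 : e x = (1, w₂ ^ j) := by
      rw [← hj, map_zpow, MulEquiv.apply_symm_apply]
      exact Prod.ext (one_zpow j) rfl
    have e3 : e x = 1 := by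
      refine Prod.ext ?_ ?_
      · rw [e2]
        rfl
      · rw [e1]
        rfl
    exact (MulEquiv.map_eq_one_iff e).1 e3

end CFT
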