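import Mathlib

/-! # CFT X04 (S): orders modulo q and modulo m -/

namespace CFT

/-- PROOF. The ring homomorphism ZMod.castHom hq (ZMod q) maps the unit a of ZMod m to a; so orderOf (a : ZMod q) divides orderOf (a : (ZMod m)ˣ) (orderOf_map_dvd; orderOf_units). -/
theorem x_order {m q a n : ℕ} (hq : q ∣ m) (ha : a.Coprime m) (h : n ∣ orderOf (a : ZMod q)) : n ∣ orderOf (ZMod.unitOfCoprime a ha) := by
  have h1 : orderOf (ZMod.unitsMap hq (ZMod.unitOfCoprime a ha)) ∣ orderOf (ZMod.unitOfCoprime a ha) :=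
    orderOf_map_dvd _ _
  have h2 : ((ZMod.unitsMap hq (ZMod.unitOfCoprime a ha) : (ZMod q)ˣ) : ZMod q) = (a : ZMod q) := by
    rw [ZMod.unitsMap_val, ZMod.coe_unitOfCoprime]
    exact ZMod.cast_natCast hq a
  rw [← h2, orderOf_units] at h
  exact h.trans h1

/-- PROOF. a^(q-1) = 1 in ZMod q (ZMod.pow_card_sub_one_eq_one), orderOf_dvd_of_pow_eq_one. -/
theorem x_pred {q a n : ℕ} (hq : q.Prime) (ha : ¬ q ∣ a) (h : n ∣ orderOf (a : ZMod q)) : n ∣ q - 1 := by
  haveI : Fact q.Prime := ⟨hq⟩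
  have h1 : (a : ZMod q) ≠ 0 := fun h0 => ha ((ZMod.natCast_eq_zero_iff a q).1 h0)
  exact h.trans (orderOf_dvd_of_pow_eq_one (ZMod.pow_card_sub_one_eq_one h1))

end CFT
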