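import Mathlib

/-! # CFT X05 (M): primes q with a of order exactly l^k modulo q

PROOF. Let A = a^(l^(k-1)) >= 2 and s = 1 + A + ... + A^(l-1) (sum over Finset.range l), so s (A - 1) = A^l - 1. CLAIM: s has a prime divisor q ≠ l. Otherwise s is a power of l
(s >= 2, Nat.eq_prime_pow_of_unique_prime_dvd), so l | s and A^l = 1 mod l, hence A = 1 mod l (Fermat: A^l = A mod l). Then l^2 does not divide s: for l odd write A = 1 + l t,
A^i = 1 + i l t mod l^2, s = l + l t l (l-1)/2 = l mod l^2; for l = 2 s = 1 + A and A = (a^(2^(k-2)))^2 is an odd square, so s = 2 mod 4 (here k >= 2 is used). So s = l; but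
s >= 1 + A > l for l = 2 (A >= 4), and for l >= 3 s >= 1 + A + A^2 + ... > l as A >= 2 (in general s >= 1 + A (l-1) > l). Contradiction.
Let q be a prime divisor of s, q ≠ l. Then A^l = 1 mod q. If A = 1 mod q, then s = l mod q, so q | l, q = l, contradiction. So a^(l^k) = 1 and a^(l^(k-1)) ≠ 1 in ZMod q:
orderOf_eq_prime_pow. -/

namespace CFT

theorem x_prime {a l k : ℕ} (ha : 2 ≤ a) (hl : l.Prime) (hk : 2 ≤ k) : ∃ q : ℕ, q.Prime ∧ orderOf (a : ZMod q) = l ^ k := by
  haveI : Fact l.Prime := ⟨hl⟩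
  obtain ⟨A, hA⟩ : ∃ A : ℕ, A = a ^ l ^ (k - 1) := ⟨_, rfl⟩
  have hA2 : 2 ≤ A := by
    rw [hA]
    calc 2 ≤ a := ha
      _ = a ^ 1 := (pow_one a).symm
      _ ≤ a ^ l ^ (k - 1) := Nat.pow_le_pow_right (by omega) (Nat.one_le_pow _ _ hl.pos)
  obtain ⟨s, hs⟩ : ∃ s : ℕ, s = ∑ i ∈ Finset.range l, A ^ i := ⟨_, rfl⟩
  have hsA : s * (A - 1) = A ^ l - 1 := by
    rw [hs]
    have h := Nat.geomSum_eq hA2 l
    rw [h]
    exact Nat.div_mul_cancel (by simpa using Nat.sub_dvd_pow_sub_pow A 1 l)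
  have hs0 : s ≠ 0 := by
    intro h0
    rw [h0, zero_mul] at hsA
    have h2 : 1 < A ^ l := Nat.one_lt_pow hl.ne_zero (by omega)
    omega
  have hsl : l < s := by
    have h1 : ∑ i ∈ Finset.range l, 1 < ∑ i ∈ Finset.range l, A ^ i := by
      apply Finset.sum_lt_sum
      · intro i _
        exact Nat.one_le_pow _ _ (by omega)
      · refine ⟨1, Finset.mem_range.2 hl.one_lt, ?_⟩
        rw [pow_one]
        omega
    rw [Finset.sum_const, Finset.card_range, smul_eq_mul, mul_one] at h1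
    rw [hs]
    exact h1
  obtain ⟨q, hq, hqs, hql⟩ : ∃ q : ℕ, q.Prime ∧ q ∣ s ∧ q ≠ l := by
    by_contra hcon
    push Not at hcon
    have e1 := Nat.eq_prime_pow_of_unique_prime_dvd hs0 (fun {d} hd hds => hcon d hd hds)
    obtain ⟨m, hm⟩ : ∃ m : ℕ, s = l ^ m := ⟨_, e1⟩
    have hm2 : 2 ≤ m := by
      by_contra h
      have h3 : m = 0 ∨ m = 1 := by omega
      rcases h3 with h3 | h3
      · rw [h3, pow_zero] at hm
        have := hl.pos
        omega
      · rw [h3, pow_one] at hm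
        omega
    have hll : l ^ 2 ∣ s := by
      rw [hm]
      exact pow_dvd_pow l hm2
    have hl1 : l ∣ s := (dvd_pow_self l (by norm_num)).trans hll
    have hAl : l ∣ A - 1 := by
      have h3 : l ∣ A ^ l - 1 := by
        rw [← hsA]
        exact hl1.mul_right _
      have h4 : ((A ^ l - 1 : ℕ) : ZMod l) = 0 := (ZMod.natCast_eq_zero_iff _ _).2 h3
      rw [Nat.cast_sub (Nat.one_le_pow _ _ (by omega)), Nat.cast_pow, ZMod.pow_card] at h4
      rw [← ZMod.natCast_eq_zero_iff, Nat.cast_sub (by omega)]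
      exact h4
    have hnA : ¬ l ∣ A := by
      intro h
      have h3 : l ∣ A - (A - 1) := Nat.dvd_sub h hAl
      have h4 : A - (A - 1) = 1 := by omega
      rw [h4] at h3
      exact hl.one_lt.ne' (Nat.dvd_one.1 h3)
    rcases hl.eq_two_or_odd' with h2 | hodd
    · subst h2
      have h3 : s = 1 + A := by
        rw [hs, Finset.sum_range_succ, Finset.sum_range_one, pow_zero, pow_one]
      obtain ⟨k', rfl⟩ := Nat.exists_eq_add_of_le hk
      have h4 : A = (a ^ 2 ^ k') ^ 2 := by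
        rw [hA, ← pow_mul]
        congr 1
        have h5 : 2 + k' - 1 = k' + 1 := by omega
        rw [h5, pow_succ]
      obtain ⟨b, hb⟩ : ∃ b : ℕ, b = a ^ 2 ^ k' := ⟨_, rfl⟩
      rw [← hb] at h4
      have h5 : b % 2 = 1 := by
        by_contra h6
        apply hnA
        have h7 : 2 ∣ b := by omega
        rw [h4]
        exact h7.trans (dvd_pow_self b (by norm_num))
      obtain ⟨c, hc⟩ : ∃ c, b = 2 * c + 1 := ⟨b / 2, by omega⟩
      rw [h3, h4, hc] at hll
      have h8 : 1 + (2 * c + 1) ^ 2 = 4 * (c ^ 2 + c) + 2 := by ring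
      rw [h8] at hll
      obtain ⟨d, hd⟩ := hll
      omega
    · have h3 := padicValNat.pow_sub_pow (p := l) (x := A) (y := 1) hodd (by omega) (by simpa using hAl) hnA hl.ne_zero
      rw [one_pow, padicValNat_self, ← hsA, padicValNat.mul hs0 (by omega)] at h3
      have h4 : padicValNat l s = 1 := by omega
      have h5 := (padicValNat_dvd_iff_le hs0).1 hll
      omega
  haveI : Fact q.Prime := ⟨hq⟩
  refine ⟨q, hq, ?_⟩
  have hz : ((s : ℕ) : ZMod q) = 0 := (ZMod.natCast_eq_zero_iff _ _).2 hqs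
  have hA1 : (A : ZMod q) ^ l = 1 := by
    have h3 : ((s * (A - 1) : ℕ) : ZMod q) = 0 := by rw [Nat.cast_mul, hz, zero_mul]
    rw [hsA, Nat.cast_sub (Nat.one_le_pow _ _ (by omega)), Nat.cast_pow, Nat.cast_one] at h3
    exact sub_eq_zero.1 h3
  have hne : (A : ZMod q) ≠ 1 := by
    intro h1
    rw [hs, Nat.cast_sum] at hz
    have h4 : ∑ i ∈ Finset.range l, ((A ^ i : ℕ) : ZMod q) = (l : ZMod q) := by
      have h5 : ∀ i ∈ Finset.range l, ((A ^ i : ℕ) : ZMod q) = 1 := by
        intro i _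
        rw [Nat.cast_pow, h1, one_pow]
      rw [Finset.sum_congr rfl h5, Finset.sum_const, Finset.card_range, nsmul_eq_mul, mul_one]
    rw [h4, ZMod.natCast_eq_zero_iff] at hz
    exact hql ((Nat.prime_dvd_prime_iff_eq hq hl).1 hz)
  obtain ⟨j, rfl⟩ : ∃ j, k = j + 1 := ⟨k - 1, by omega⟩
  rw [Nat.add_sub_cancel] at hA
  have hA' : (A : ZMod q) = (a : ZMod q) ^ l ^ j := by rw [hA, Nat.cast_pow]
  apply orderOf_eq_prime_pow
  · rw [← hA']
    exact hne
  · rw [pow_succ, pow_mul, ← hA']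
    exact hA1

end CFT
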