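import Mathlib
import Pool.Agent.Lib.CFT.X04
import Pool.Agent.Lib.CFT.X05

/-! # CFT X06 (S/M): such primes outside a finite set

PROOF. For k : ℕ let q k be the prime of x_prime (X05) for the exponent k + r + 2: orderOf (a : ZMod (q k)) = l^(k+r+2). q is injective (the orders are different), so some q k is outside the
finite set B (Set.infinite_range_of_injective). l^r divides l^(k+r+2). q ∤ a: otherwise (a : ZMod q) = 0, whose order is 0 (orderOf of 0 in a nontrivial ring: orderOf_eq_zero_iff', or 0^n ≠ 1 for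
n > 0). The last statement is x_pred (X04). -/

namespace CFT

theorem x_primes {a l : ℕ} (ha : 2 ≤ a) (hl : l.Prime) (r : ℕ) (B : Set ℕ) (hB : B.Finite) :
    ∃ q : ℕ, q.Prime ∧ q ∉ B ∧ ¬ q ∣ a ∧ l ^ r ∣ orderOf (a : ZMod q) ∧ l ^ r ∣ q - 1 := by
  choose q hq ho using fun k : ℕ => x_prime (a := a) (l := l) (k := k + r + 2) ha hl (by omega)
  have hinj : Function.Injective q := by
    intro i j hij
    have h1 := ho i
    rw [hij, ho j] at h1
    have h2 := Nat.pow_right_injective hl.two_le h1
    omega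
  obtain ⟨k, hk⟩ : ∃ k, q k ∉ B := by
    by_contra hcon
    push Not at hcon
    exact Set.infinite_range_of_injective hinj (hB.subset (by rintro _ ⟨i, rfl⟩; exact hcon i))
  have hd : l ^ r ∣ orderOf (a : ZMod (q k)) := by
    rw [ho k]
    exact pow_dvd_pow l (by omega)
  have hna : ¬ q k ∣ a := by
    intro h
    haveI : Fact (q k).Prime := ⟨hq k⟩
    have h1 : (a : ZMod (q k)) = 0 := (ZMod.natCast_eq_zero_iff _ _).2 h
    have h2 := pow_orderOf_eq_one (a : ZMod (q k))
    rw [h1] at h2
    have h3 : orderOf (0 : ZMod (q k)) ≠ 0 := by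
      rw [← h1, ho k]
      exact pow_ne_zero _ hl.ne_zero
    rw [zero_pow h3] at h2
    exact zero_ne_one h2
  exact ⟨q k, hq k, hk, hna, hd, x_pred (hq k) hna hd⟩

end CFT
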