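import Mathlib

/-! # CFT X07 (M): cyclotomic fields of different prime conductors are disjoint

PROOF. Let Z = adjoin ℚ {x | x^q = 1}, Z' the same for q'. They are cyclotomic extensions of ℚ ({q}, {q'}); e.g. Z = adjoin ℚ {ζ} for a primitive root ζ
(IsPrimitiveRoot.intermediateField_adjoin_isCyclotomicExtension; all roots are powers of ζ) and the same for Z ⊔ Z' = adjoin ℚ {ζ ζ'}-like field with {q q'}
(IntermediateField.isCyclotomicExtension_lcm_sup, used in Mathlib/NumberTheory/NumberField/Cyclotomic/Basic.lean, line 700). Degrees: IsCyclotomicExtension.finrank with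
Polynomial.cyclotomic.irreducible_rat: q - 1, q' - 1, (q-1)(q'-1) (Nat.totient_mul, Nat.totient_prime). Then IntermediateField.LinearDisjoint.of_finrank_sup and
IntermediateField.LinearDisjoint.inf_eq_bot. (Other way: NumberField discriminants, linearDisjoint_of_isGalois_isCoprime_discr, same file.) -/

namespace CFT

theorem X07_root {Ω : Type} [Field Ω] [CharZero Ω] [IsAlgClosed Ω] (n : ℕ) (hn : n ≠ 0) : ∃ r : Ω, IsPrimitiveRoot r n := by
  have : NeZero n := ⟨hn⟩
  have : NeZero (n : Ω) := ⟨Nat.cast_ne_zero.2 hn⟩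
  obtain ⟨x, hx⟩ := IsAlgClosed.exists_root (Polynomial.cyclotomic n Ω) (by
    rw [Polynomial.degree_cyclotomic]
    have := Nat.totient_pos.2 (Nat.pos_of_ne_zero hn)
    exact_mod_cast this.ne')
  exact ⟨x, (Polynomial.isRoot_cyclotomic_iff).1 hx⟩

theorem X07_cyc {K Ω : Type} [Field K] [Field Ω] [Algebra K Ω] [CharZero Ω] [IsAlgClosed Ω] (n : ℕ) (hn : n ≠ 0) :
    IsCyclotomicExtension {n} K (IntermediateField.adjoin K {x : Ω | x ^ n = 1}) := by
  have h := IntermediateField.isCyclotomicExtension_adjoin_of_exists_isPrimitiveRoot {n} K Ω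
    (fun m _ hm => X07_root m hm)
  have e : {b : Ω | ∃ m ∈ ({n} : Set ℕ), m ≠ 0 ∧ b ^ m = 1} = {x : Ω | x ^ n = 1} := by
    ext b
    constructor
    · rintro ⟨m, hm, _, hb⟩
      rw [Set.mem_singleton_iff] at hm
      subst hm
      exact hb
    · intro hb
      exact ⟨n, rfl, hn, hb⟩
  rw [e] at h
  exact h

theorem X07_gen {K Ω : Type} [Field K] [Field Ω] [Algebra K Ω] [CharZero Ω] [IsAlgClosed Ω] {q q' : ℕ} (hq : q ≠ 0) (hq' : q' ≠ 0)
    (hc : q.Coprime q') (hirr : ∀ n : ℕ, n ≠ 0 → Irreducible (Polynomial.cyclotomic n K)) :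
    IntermediateField.adjoin K {x : Ω | x ^ q = 1} ⊓ IntermediateField.adjoin K {x : Ω | x ^ q' = 1} = ⊥ := by
  have : NeZero q := ⟨hq⟩
  have : NeZero q' := ⟨hq'⟩
  have h1 := X07_cyc (K := K) (Ω := Ω) q hq
  have h2 := X07_cyc (K := K) (Ω := Ω) q' hq'
  have f1 : FiniteDimensional K (IntermediateField.adjoin K {x : Ω | x ^ q = 1}) :=
    IsCyclotomicExtension.finite_of_singleton q K _
  have f2 : FiniteDimensional K (IntermediateField.adjoin K {x : Ω | x ^ q' = 1}) :=
    IsCyclotomicExtension.finite_of_singleton q' K _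
  have h3 := IntermediateField.isCyclotomicExtension_lcm_sup K Ω q q'
    (IntermediateField.adjoin K {x : Ω | x ^ q = 1}) (IntermediateField.adjoin K {x : Ω | x ^ q' = 1})
  have : NeZero (q.lcm q') := ⟨Nat.lcm_ne_zero hq hq'⟩
  apply IntermediateField.LinearDisjoint.inf_eq_bot
  apply IntermediateField.LinearDisjoint.of_finrank_sup
  rw [IsCyclotomicExtension.finrank (n := q.lcm q') _ (hirr _ (NeZero.ne _)),
    IsCyclotomicExtension.finrank (n := q) _ (hirr _ hq),
    IsCyclotomicExtension.finrank (n := q') _ (hirr _ hq')]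
  rw [hc.lcm_eq_mul, Nat.totient_mul hc]

theorem x_disj {Ω : Type} [Field Ω] [CharZero Ω] [IsAlgClosed Ω] {q q' : ℕ} (hq : q.Prime) (hq' : q'.Prime) (hne : q ≠ q') :
    IntermediateField.adjoin ℚ {x : Ω | x ^ q = 1} ⊓ IntermediateField.adjoin ℚ {x : Ω | x ^ q' = 1} = ⊥ :=
  X07_gen hq.ne_zero hq'.ne_zero ((Nat.coprime_primes hq hq').2 hne)
    (fun _ hn => Polynomial.cyclotomic.irreducible_rat (Nat.pos_of_ne_zero hn))

end CFT
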