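import Mathlib

/-! # CFT X08 (M): a reducible cyclotomic polynomial gives a common element

PROOF. Ω = AlgebraicClosure L, ζ a primitive q-th root of unity in Ω, f = minpoly L ζ, Z = adjoin ℚ {x | x^q = 1}. Suppose that every c in L whose image is in Z is in ⊥ (rational). f divides cyclotomic q L,
so all roots of f in Ω are roots of unity, in Z; f.map = product of the (X - root), so its coefficients are in Z (Polynomial.Splits, coeff of a product of linear factors over the
subfield Z: e.g. lift the multiset of roots to Z). So all coefficients of f are rational: f = g.map (algebraMap ℚ L) with g in ℚ[X] monic, g(ζ) = 0, so cyclotomic q ℚ = minpoly ℚ ζ divides g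
(Polynomial.cyclotomic_eq_minpoly_rat), so q - 1 = natDegree (cyclotomic q L) <= natDegree f and f = cyclotomic q L, which is irreducible (minpoly.irreducible). Contradiction.
Other way: [Ω ⊇ L(ζ) : L] etc. by Galois theory of Z/ℚ. -/

namespace CFT

open Polynomial in
theorem X08_coeff {Ω : Type} [Field Ω] (Z : Subfield Ω) (f : Polynomial Ω) (hm : f.Monic) (hs : f.Splits)
    (hr : ∀ x : Ω, f.IsRoot x → x ∈ Z) (n : ℕ) : f.coeff n ∈ Z := by
  have h1 : f ∈ Polynomial.lifts (algebraMap Z Ω) := by
    rw [hs.eq_prod_roots_of_monic hm]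
    refine Subsemiring.multiset_prod_mem _ _ ?_
    intro p hp
    obtain ⟨a, ha, rfl⟩ := Multiset.mem_map.1 hp
    have ha' : a ∈ Z := hr a (Polynomial.isRoot_of_mem_roots ha)
    rw [Polynomial.mem_lifts]
    refine ⟨X - C ⟨a, ha'⟩, ?_⟩
    rw [Polynomial.map_sub, Polynomial.map_X, Polynomial.map_C]
    rfl
  rw [Polynomial.lifts_iff_coeff_lifts] at h1
  obtain ⟨z, hz⟩ := h1 n
  rw [← hz]
  exact z.2

theorem x_coef {L : Type} [Field L] [CharZero L] {q : ℕ} (hq : q.Prime) (h : ¬ Irreducible (Polynomial.cyclotomic q L)) :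
    ∃ c : L, algebraMap L (AlgebraicClosure L) c ∈ IntermediateField.adjoin ℚ {x : AlgebraicClosure L | x ^ q = 1} ∧
      c ∉ (⊥ : IntermediateField ℚ L) := by
  by_contra hcon
  push Not at hcon
  apply h
  have : NeZero q := ⟨hq.ne_zero⟩
  have : CharZero (AlgebraicClosure L) := charZero_of_injective_algebraMap (algebraMap L (AlgebraicClosure L)).injective
  have : NeZero (q : AlgebraicClosure L) := ⟨Nat.cast_ne_zero.2 hq.ne_zero⟩
  obtain ⟨ζ, hζ⟩ : ∃ ζ : AlgebraicClosure L, IsPrimitiveRoot ζ q := by
    obtain ⟨x, hx⟩ := IsAlgClosed.exists_root (Polynomial.cyclotomic q (AlgebraicClosure L)) (by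
      rw [Polynomial.degree_cyclotomic]
      have := Nat.totient_pos.2 hq.pos
      exact_mod_cast this.ne')
    exact ⟨x, (Polynomial.isRoot_cyclotomic_iff).1 hx⟩
  have hint : IsIntegral L ζ := Algebra.IsIntegral.isIntegral ζ
  set f := minpoly L ζ with hf
  have hroot : Polynomial.aeval ζ (Polynomial.cyclotomic q L) = 0 := by
    rw [Polynomial.aeval_def, Polynomial.eval₂_eq_eval_map, Polynomial.map_cyclotomic]
    exact (Polynomial.isRoot_cyclotomic_iff).2 hζ
  have hdvd : f ∣ Polynomial.cyclotomic q L := minpoly.dvd L ζ hroot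
  have hfm : f.Monic := minpoly.monic hint
  have hcoef : ∀ n, algebraMap L (AlgebraicClosure L) (f.coeff n) ∈
      IntermediateField.adjoin ℚ {x : AlgebraicClosure L | x ^ q = 1} := by
    intro n
    rw [← Polynomial.coeff_map]
    apply X08_coeff (IntermediateField.adjoin ℚ {x : AlgebraicClosure L | x ^ q = 1}).toSubfield
    · exact hfm.map _
    · exact IsAlgClosed.splits _
    · intro x hx
      apply IntermediateField.subset_adjoin
      show x ^ q = 1
      have h1 : f.map (algebraMap L (AlgebraicClosure L)) ∣ Polynomial.cyclotomic q (AlgebraicClosure L) := by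
        rw [← Polynomial.map_cyclotomic q (algebraMap L (AlgebraicClosure L))]
        exact Polynomial.map_dvd _ hdvd
      have h2 := hx.dvd h1
      exact ((Polynomial.isRoot_cyclotomic_iff).1 h2).pow_eq_one
  have hrat : ∀ n, f.coeff n ∈ Set.range (algebraMap ℚ L) := fun n =>
    IntermediateField.mem_bot.1 (hcon _ (hcoef n))
  have hlift : f ∈ Polynomial.lifts (algebraMap ℚ L) := by
    rw [Polynomial.lifts_iff_coeff_lifts]
    exact hrat
  obtain ⟨g, hg⟩ := (Polynomial.mem_lifts _).1 hlift
  have hgd : g.natDegree = f.natDegree := by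
    rw [← hg, Polynomial.natDegree_map]
  have hg0 : g ≠ 0 := by
    rintro rfl
    rw [Polynomial.map_zero] at hg
    exact hfm.ne_zero hg.symm
  have hgz : Polynomial.aeval ζ g = 0 := by
    have h1 : Polynomial.aeval ζ f = 0 := minpoly.aeval L ζ
    rw [← hg, Polynomial.aeval_map_algebraMap] at h1
    exact h1
  have hd2 : Polynomial.cyclotomic q ℚ ∣ g := by
    rw [Polynomial.cyclotomic_eq_minpoly_rat hζ hq.pos]
    exact minpoly.dvd ℚ ζ hgz
  have hle : (Polynomial.cyclotomic q L).natDegree ≤ f.natDegree := by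
    rw [← hgd, Polynomial.natDegree_cyclotomic, ← Polynomial.natDegree_cyclotomic q ℚ]
    exact Polynomial.natDegree_le_of_dvd hd2 hg0
  have heq : f = Polynomial.cyclotomic q L :=
    (Polynomial.eq_of_monic_of_dvd_of_natDegree_le hfm (Polynomial.cyclotomic.monic q L) hdvd hle).symm
  rw [← heq]
  exact minpoly.irreducible hint

end CFT
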