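import Mathlib
import Pool.Agent.Lib.CFT.X07
import Pool.Agent.Lib.CFT.X08

/-! # CFT X09 (M): only finitely many cyclotomic polynomials of prime conductor are reducible over a number field (no ramification theory)

PROOF. Ω = AlgebraicClosure L, j : L →ₐ[ℚ] Ω, Z q = adjoin ℚ {x | x^q = 1}, B q = (Z q).comap j : IntermediateField ℚ L. For a bad prime q, B q ≠ ⊥ (x_coef, X08). For two different bad primes
B q ≠ B q': an element c of B q = B q' has image in Z q ⊓ Z q' = ⊥ (x_disj, X07), so it is rational (j is injective and j (r) = r), so B q = ⊥, contradiction. IntermediateField ℚ L is finite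
(Field.exists_primitive_element_iff_finite_intermediateField, Field.exists_primitive_element; there may be an instance), so the set of bad primes is finite (Set.Finite.of_injOn or
Set.Finite.of_finite_image, with injectivity of B on the bad primes). -/

open NumberField

namespace CFT

theorem x_bad (L : Type) [Field L] [NumberField L] : {q : ℕ | q.Prime ∧ ¬ Irreducible (Polynomial.cyclotomic q L)}.Finite := by
  classical
  let j : L →ₐ[ℚ] AlgebraicClosure L := IsScalarTower.toAlgHom ℚ L (AlgebraicClosure L)
  let B : ℕ → IntermediateField ℚ L := fun q => (IntermediateField.adjoin ℚ {x : AlgebraicClosure L | x ^ q = 1}).comap j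
  haveI : Finite (IntermediateField ℚ L) := (Field.exists_primitive_element_iff_finite_intermediateField ℚ L).1
    ⟨inferInstance, Field.exists_primitive_element ℚ L⟩
  refine Set.Finite.of_finite_image (f := B) (Set.toFinite _) ?_
  rintro q ⟨hq, hqi⟩ q' ⟨hq', hqi'⟩ hBB
  by_contra hne
  obtain ⟨c, hc, hcb⟩ := x_coef hq hqi
  apply hcb
  have h1 : c ∈ B q := hc
  rw [show B q = B q' from hBB] at h1
  have h2 : algebraMap L (AlgebraicClosure L) c ∈ IntermediateField.adjoin ℚ {x : AlgebraicClosure L | x ^ q' = 1} := h1
  have h3 : algebraMap L (AlgebraicClosure L) c ∈ IntermediateField.adjoin ℚ {x : AlgebraicClosure L | x ^ q = 1} ⊓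
      IntermediateField.adjoin ℚ {x : AlgebraicClosure L | x ^ q' = 1} := ⟨hc, h2⟩
  have h4 := x_disj (Ω := AlgebraicClosure L) hq hq' hne
  rw [h4, IntermediateField.mem_bot] at h3
  obtain ⟨r, hr⟩ := h3
  rw [IntermediateField.mem_bot]
  refine ⟨r, (algebraMap L (AlgebraicClosure L)).injective ?_⟩
  rw [← hr, eq_ratCast, map_ratCast, eq_ratCast]


end CFT
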