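import Mathlib
import Pool.Agent.Lib.CFT.X09

/-! # CFT X10 (M): cyclotomic polynomials of conductor q₁ q₂

PROOF. B = the bad set of L (x_bad, X09). For a prime q₁ not in B let L₁ = CyclotomicField q₁ L (a number field) and B' = the bad set of L₁ together with q₁. Let q₂ be a prime not in B'. Let
M = CyclotomicField q₂ L₁ (or an algebraic closure of L₁). [L₁ : L] = q₁ - 1, [M : L₁] = q₂ - 1 (IsCyclotomicExtension.finrank), so [M : L] = (q₁ - 1)(q₂ - 1). M is generated over L by a primitive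
q₁ q₂-th root of unity ζ (ζ₁ ζ₂; it is a cyclotomic extension of L: IsCyclotomicExtension.trans gives {q₁} ∪ {q₂}; IsCyclotomicExtension of lcm), so minpoly L ζ has degree
(q₁-1)(q₂-1) = natDegree (cyclotomic (q₁ q₂) L), divides it and both are monic: equal; irreducible. -/

open NumberField

namespace CFT

/-- Towers of cyclotomic extensions. -/
theorem x10_tower {L L₁ M : Type} [Field L] [Field L₁] [Field M] [CharZero L] [Algebra L L₁] [Algebra L M] [Algebra L₁ M] [IsScalarTower L L₁ M]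
    {q₁ q₂ : ℕ} [NeZero q₁] [NeZero q₂] [IsCyclotomicExtension {q₁} L L₁] [IsCyclotomicExtension {q₂} L₁ M] (hc : q₁.Coprime q₂)
    (h1 : Irreducible (Polynomial.cyclotomic q₁ L)) (h2 : Irreducible (Polynomial.cyclotomic q₂ L₁)) :
    Irreducible (Polynomial.cyclotomic (q₁ * q₂) L) := by
  have hT : IsCyclotomicExtension ({q₁} ∪ {q₂}) L M := IsCyclotomicExtension.trans {q₁} {q₂} L L₁ M (algebraMap L₁ M).injective
  have hd1 : Module.finrank L L₁ = q₁.totient := IsCyclotomicExtension.finrank L₁ h1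
  have hd2 : Module.finrank L₁ M = q₂.totient := IsCyclotomicExtension.finrank M h2
  haveI : FiniteDimensional L L₁ := IsCyclotomicExtension.finiteDimensional {q₁} L L₁
  haveI : FiniteDimensional L₁ M := IsCyclotomicExtension.finiteDimensional {q₂} L₁ M
  haveI : FiniteDimensional L M := FiniteDimensional.trans L L₁ M
  have hd : Module.finrank L M = (q₁ * q₂).totient := by
    rw [← Module.finrank_mul_finrank L L₁ M, hd1, hd2, Nat.totient_mul hc]
  obtain ⟨z1, hz1⟩ := IsCyclotomicExtension.exists_isPrimitiveRoot (S := {q₁} ∪ {q₂}) (A := L) (B := M) (n := q₁) (Or.inl rfl) (NeZero.ne q₁)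
  obtain ⟨z2, hz2⟩ := IsCyclotomicExtension.exists_isPrimitiveRoot (S := {q₁} ∪ {q₂}) (A := L) (B := M) (n := q₂) (Or.inr rfl) (NeZero.ne q₂)
  have hord : orderOf (z1 * z2) = q₁ * q₂ := by
    have h3 : (orderOf z1).Coprime (orderOf z2) := by
      rw [← hz1.eq_orderOf, ← hz2.eq_orderOf]
      exact hc
    rw [(Commute.all z1 z2).orderOf_mul_eq_mul_orderOf_of_coprime h3, ← hz1.eq_orderOf, ← hz2.eq_orderOf]
  have hz : IsPrimitiveRoot (z1 * z2) (q₁ * q₂) := by
    rw [← hord]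
    exact IsPrimitiveRoot.orderOf _
  haveI : NeZero (q₁ * q₂) := ⟨mul_ne_zero (NeZero.ne q₁) (NeZero.ne q₂)⟩
  have hint : IsIntegral L (z1 * z2) := Algebra.IsIntegral.isIntegral _
  have htop : IntermediateField.adjoin L {z1 * z2} = ⊤ := by
    rw [eq_top_iff]
    intro x _
    have h3 : x ∈ Algebra.adjoin L {b : M | ∃ n : ℕ, n ∈ ({q₁} ∪ {q₂} : Set ℕ) ∧ n ≠ 0 ∧ b ^ n = 1} := hT.adjoin_roots x
    have h4 : Algebra.adjoin L {b : M | ∃ n : ℕ, n ∈ ({q₁} ∪ {q₂} : Set ℕ) ∧ n ≠ 0 ∧ b ^ n = 1} ≤ (IntermediateField.adjoin L {z1 * z2}).toSubalgebra := by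
      rw [Algebra.adjoin_le_iff]
      rintro b ⟨n, hn, _, hb⟩
      have h5 : b ^ (q₁ * q₂) = 1 := by
        rcases hn with hn | hn
        · rw [Set.mem_singleton_iff] at hn
          subst hn
          rw [pow_mul, hb, one_pow]
        · rw [Set.mem_singleton_iff] at hn
          subst hn
          rw [mul_comm, pow_mul, hb, one_pow]
      obtain ⟨i, _, hi⟩ := hz.eq_pow_of_pow_eq_one h5
      rw [← hi]
      exact pow_mem (IntermediateField.subset_adjoin L {z1 * z2} rfl) i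
    exact h4 h3
  have hdeg : (minpoly L (z1 * z2)).natDegree = (q₁ * q₂).totient := by
    rw [← IntermediateField.adjoin.finrank hint, htop, IntermediateField.finrank_top', hd]
  have hdvd : minpoly L (z1 * z2) ∣ Polynomial.cyclotomic (q₁ * q₂) L := by
    apply minpoly.dvd
    rw [← Polynomial.eval_map_algebraMap, Polynomial.map_cyclotomic]
    exact (hz.isRoot_cyclotomic (Nat.pos_of_ne_zero (NeZero.ne _)))
  have heq : Polynomial.cyclotomic (q₁ * q₂) L = minpoly L (z1 * z2) := by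
    refine Polynomial.eq_of_monic_of_dvd_of_natDegree_le (minpoly.monic hint) (Polynomial.cyclotomic.monic _ _) hdvd ?_
    rw [hdeg, Polynomial.natDegree_cyclotomic]
  rw [heq]
  exact minpoly.irreducible hint

theorem x_irr2 (L : Type) [Field L] [NumberField L] :
    ∃ B : Set ℕ, B.Finite ∧ ∀ q₁ : ℕ, q₁.Prime → q₁ ∉ B → ∃ B' : Set ℕ, B'.Finite ∧ q₁ ∈ B' ∧
      ∀ q₂ : ℕ, q₂.Prime → q₂ ∉ B' → Irreducible (Polynomial.cyclotomic (q₁ * q₂) L) := by
  refine ⟨{q : ℕ | q.Prime ∧ ¬ Irreducible (Polynomial.cyclotomic q L)}, x_bad L, fun q₁ hq₁ hb₁ => ?_⟩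
  haveI : NeZero q₁ := ⟨hq₁.ne_zero⟩
  have h1 : Irreducible (Polynomial.cyclotomic q₁ L) := by
    by_contra h
    exact hb₁ ⟨hq₁, h⟩
  refine ⟨{q : ℕ | q.Prime ∧ ¬ Irreducible (Polynomial.cyclotomic q (CyclotomicField q₁ L))} ∪ {q₁}, (x_bad _).union (Set.finite_singleton _), Or.inr rfl, ?_⟩
  intro q₂ hq₂ hb₂
  haveI : NeZero q₂ := ⟨hq₂.ne_zero⟩
  have h2 : Irreducible (Polynomial.cyclotomic q₂ (CyclotomicField q₁ L)) := by
    by_contra h
    exact hb₂ (Or.inl ⟨hq₂, h⟩)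
  have hne : q₁ ≠ q₂ := fun h => hb₂ (Or.inr h.symm)
  exact x10_tower (L₁ := CyclotomicField q₁ L) (M := CyclotomicField q₂ (CyclotomicField q₁ L)) ((Nat.coprime_primes hq₁ hq₂).2 hne) h1 h2


end CFT
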