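import Mathlib
import Pool.Agent.Lib.CFT.D2
import Pool.Agent.Lib.CFT.X06
import Pool.Agent.Lib.CFT.X10

/-! # CFT X11 (M): the choice of m = q₁ q₂

PROOF. Nm v >= 2 (Nm_pos, and absNorm = 1 iff the ideal is the whole ring). A prime number q with (q : O_K) in v divides Nm v (Ideal.absNorm_mem: Nm v in v; if q does not divide Nm v then
1 = q x + Nm v y is in v), and only one prime number is in v. So {q | q.Prime and (q : O_K) in v} is finite (a subset of the divisors of Nm v, or a subsingleton). Let B be from x_irr2 (X10), q₁ from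
x_primes (X06) with a = Nm v, avoiding B and the primes in v, v₀; B' from x_irr2, q₂ from x_primes with a = Nm v₀, avoiding B' and the primes in v, v₀. If (q₁ q₂ : O_K) is in v, then q₁ or q₂
is in v (prime ideal), a contradiction. -/

open NumberField IsDedekindDomain

namespace CFT

/-- Only one prime number is in a prime ideal. -/
theorem x11_fin (K : Type) [Field K] [NumberField K] (v : Pr K) : {q : ℕ | q.Prime ∧ (q : 𝓞 K) ∈ v.asIdeal}.Finite := by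
  refine Set.Subsingleton.finite ?_
  rintro q ⟨hq, hqv⟩ q' ⟨hq', hqv'⟩
  by_contra hne
  have h1 : IsCoprime (q : ℤ) (q' : ℤ) := Nat.isCoprime_iff_coprime.2 ((Nat.coprime_primes hq hq').2 hne)
  obtain ⟨a, b, hab⟩ := h1
  have h2 : (a : 𝓞 K) * (q : 𝓞 K) + (b : 𝓞 K) * (q' : 𝓞 K) = 1 := by exact_mod_cast hab
  apply v.isPrime.ne_top
  rw [Ideal.eq_top_iff_one, ← h2]
  exact v.asIdeal.add_mem (v.asIdeal.mul_mem_left _ hqv) (v.asIdeal.mul_mem_left _ hqv')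

theorem x11_two (K : Type) [Field K] [NumberField K] (v : Pr K) : 2 ≤ Nm v := by
  have h1 := Nm_pos v
  have h2 : Nm v ≠ 1 := by
    intro h
    unfold Nm at h
    exact v.isPrime.ne_top (Ideal.absNorm_eq_one_iff.1 h)
  omega

theorem x_choose (K : Type) [Field K] [NumberField K] (L : Type) [Field L] [NumberField L] {l : ℕ} (hl : l.Prime) (r : ℕ) (v v₀ : Pr K) :
    ∃ q₁ q₂ : ℕ, q₁.Prime ∧ q₂.Prime ∧ q₁ ≠ q₂ ∧ Irreducible (Polynomial.cyclotomic (q₁ * q₂) L) ∧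
      ((q₁ * q₂ : ℕ) : 𝓞 K) ∉ v.asIdeal ∧ ((q₁ * q₂ : ℕ) : 𝓞 K) ∉ v₀.asIdeal ∧
      l ^ r ∣ orderOf (Nm v : ZMod q₁) ∧ l ^ r ∣ orderOf (Nm v₀ : ZMod q₂) ∧ l ^ r ∣ q₁ - 1 ∧ l ^ r ∣ q₂ - 1 := by
  obtain ⟨B, hB, hB2⟩ := x_irr2 L
  obtain ⟨q₁, hq₁, hn₁, -, ho₁, hd₁⟩ := x_primes (x11_two K v) hl r (B ∪ ({q : ℕ | q.Prime ∧ (q : 𝓞 K) ∈ v.asIdeal} ∪ {q : ℕ | q.Prime ∧ (q : 𝓞 K) ∈ v₀.asIdeal}))
    (hB.union ((x11_fin K v).union (x11_fin K v₀)))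
  rw [Set.mem_union, Set.mem_union, not_or, not_or] at hn₁
  obtain ⟨hn1, hn2, hn3⟩ := hn₁
  obtain ⟨B', hB', hqB', hirr⟩ := hB2 q₁ hq₁ hn1
  obtain ⟨q₂, hq₂, hn₂, -, ho₂, hd₂⟩ := x_primes (x11_two K v₀) hl r (B' ∪ ({q : ℕ | q.Prime ∧ (q : 𝓞 K) ∈ v.asIdeal} ∪ {q : ℕ | q.Prime ∧ (q : 𝓞 K) ∈ v₀.asIdeal}))
    (hB'.union ((x11_fin K v).union (x11_fin K v₀)))
  rw [Set.mem_union, Set.mem_union, not_or, not_or] at hn₂
  obtain ⟨hm1, hm2, hm3⟩ := hn₂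
  refine ⟨q₁, q₂, hq₁, hq₂, ?_, hirr q₂ hq₂ hm1, ?_, ?_, ho₁, ho₂, hd₁, hd₂⟩
  · rintro rfl
    exact hm1 hqB'
  · intro h
    rw [Nat.cast_mul] at h
    rcases v.isPrime.mem_or_mem h with h | h
    · exact hn2 ⟨hq₁, h⟩
    · exact hm2 ⟨hq₂, h⟩
  · intro h
    rw [Nat.cast_mul] at h
    rcases v₀.isPrime.mem_or_mem h with h | h
    · exact hn3 ⟨hq₁, h⟩
    · exact hm3 ⟨hq₂, h⟩


end CFT
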