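import Mathlib
import Pool.Agent.Lib.CFT.D2

/-! # CFT X12 (M, 4 small): the Galois group of L(zeta_m)/K -/

open NumberField IsDedekindDomain

namespace CFT

section

variable (K : Type) [Field K] [NumberField K] (L : Type) [Field L] [NumberField L] [Algebra K L]
  (M : Type) [Field M] [NumberField M] [Algebra K M] [Algebra L M] [IsScalarTower K L M] (m : ℕ) [NeZero m] [IsCyclotomicExtension {m} L M]

include K in
theorem x12_ind (P : M → Prop) (hL : ∀ x : L, P (algebraMap L M x)) (hz : ∀ b : M, b ^ m = 1 → P b) (hadd : ∀ a b, P a → P b → P (a + b))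
    (hmul : ∀ a b, P a → P b → P (a * b)) (x : M) : P x := by
  have h := (inferInstance : IsCyclotomicExtension {m} L M).adjoin_roots x
  induction h using Algebra.adjoin_induction with
  | mem b hb =>
    obtain ⟨n, hn, _, hb⟩ := hb
    rw [Set.mem_singleton_iff] at hn
    subst hn
    exact hz b hb
  | algebraMap r => exact hL r
  | add a b _ _ ha hb => exact hadd a b ha hb
  | mul a b _ _ ha hb => exact hmul a b ha hb

include m in
/-- PROOF. Separable (characteristic 0). Normal: M is generated over K by the image of L (normal over K) and a primitive m-th root of unity zeta, K(zeta)/K is normal; IntermediateField.normal_sup. Or: M is the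
splitting field of f (X^m - 1), f in K[X] with splitting field L (IsGalois.of_separable_splitting_field). Or directly: an algebra homomorphism s : M -> algebraic closure over K maps L to L
and zeta to a power of zeta. -/
theorem x_gal [IsGalois K L] : IsGalois K M := by
  have hζ := IsCyclotomicExtension.zeta_spec m L M
  haveI : Normal K (IsScalarTower.toAlgHom K L M).fieldRange :=
    Normal.of_algEquiv (AlgEquiv.ofInjectiveField (IsScalarTower.toAlgHom K L M))
  haveI : IsCyclotomicExtension {m} K (IntermediateField.adjoin K {IsCyclotomicExtension.zeta m L M}) :=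
    hζ.intermediateField_adjoin_isCyclotomicExtension K
  haveI : IsGalois K (IntermediateField.adjoin K {IsCyclotomicExtension.zeta m L M}) := IsCyclotomicExtension.isGalois {m} K _
  haveI : Normal K (IntermediateField.adjoin K {IsCyclotomicExtension.zeta m L M}) := IsGalois.to_normal
  have htop : (IsScalarTower.toAlgHom K L M).fieldRange ⊔ IntermediateField.adjoin K {IsCyclotomicExtension.zeta m L M} = ⊤ := by
    rw [eq_top_iff]
    intro x _
    refine x12_ind K L M m (fun x => x ∈ (IsScalarTower.toAlgHom K L M).fieldRange ⊔ IntermediateField.adjoin K {IsCyclotomicExtension.zeta m L M}) ?_ ?_ ?_ ?_ x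
    · intro y
      exact (le_sup_left : (IsScalarTower.toAlgHom K L M).fieldRange ≤ _) ⟨y, rfl⟩
    · intro b hb
      obtain ⟨i, _, hi⟩ := hζ.eq_pow_of_pow_eq_one hb
      rw [← hi]
      exact pow_mem ((le_sup_right : IntermediateField.adjoin K {IsCyclotomicExtension.zeta m L M} ≤ _) (IntermediateField.subset_adjoin K _ rfl)) i
    · intro a b ha hb
      exact add_mem ha hb
    · intro a b ha hb
      exact mul_mem ha hb
  have hN : Normal K (⊤ : IntermediateField K M) := by
    rw [← htop]
    infer_instance
  haveI : Normal K M := Normal.of_algEquiv (IntermediateField.topEquiv (F := K) (E := M))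
  exact ⟨⟩


variable {K L M m} {ζ : M} (hζ : IsPrimitiveRoot ζ m)

/-- PROOF. s fixes L (AlgEquiv.restrictNormal_commutes) and zeta (IsPrimitiveRoot.autToPow_spec), and M = L(zeta) (IsCyclotomicExtension.adjoin_primitive_root_eq_top or algHom_ext for the power
basis IsPrimitiveRoot.powerBasis). -/
theorem x_inj [IsGalois K L] (s : M ≃ₐ[K] M) (h1 : AlgEquiv.restrictNormalHom L s = 1) (h2 : hζ.autToPow K s = 1) : s = 1 := by
  apply AlgEquiv.ext
  intro x
  refine x12_ind K L M m (fun x => s x = x) ?_ ?_ ?_ ?_ x
  · intro y
    have h3 := AlgEquiv.restrictNormal_commutes s L y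
    have h4 : s.restrictNormal L = 1 := h1
    rw [h4, AlgEquiv.one_apply] at h3
    exact h3.symm
  · intro b hb
    obtain ⟨i, _, hi⟩ := hζ.eq_pow_of_pow_eq_one hb
    have h5 : s ζ = ζ := by
      rw [← hζ.autToPow_spec K s, h2]
      by_cases hm1 : m = 1
      · subst hm1
        have h6 : ζ = 1 := by
          have := hζ.pow_eq_one
          rwa [pow_one] at this
        rw [h6, one_pow]
      · haveI : Fact (1 < m) := ⟨by
          have := NeZero.ne m
          omega⟩
        rw [Units.val_one, ZMod.val_one, pow_one]
    rw [← hi, map_pow, h5]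
  · intro a b ha hb
    rw [map_add, ha, hb]
  · intro a b ha hb
    rw [map_mul, ha, hb]


include hζ in
/-- PROOF. a b a^-1 b^-1 is trivial under both homomorphisms: x_inj. -/
theorem x_comm [IsGalois K L] (hab : ∀ a b : L ≃ₐ[K] L, a * b = b * a) (a b : M ≃ₐ[K] M) : a * b = b * a := by
  have h := x_inj hζ (a * b * a⁻¹ * b⁻¹) (by
    rw [map_mul, map_mul, map_mul, map_inv, map_inv, hab (AlgEquiv.restrictNormalHom L a), mul_inv_cancel_right, mul_inv_cancel]) (by
    rw [map_mul, map_mul, map_mul, map_inv, map_inv]
    rw [mul_comm (hζ.autToPow K a), mul_inv_cancel_right, mul_inv_cancel])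
  have h2 : a * b * a⁻¹ = b := by
    rw [mul_inv_eq_one] at h
    exact h
  rw [mul_inv_eq_iff_eq_mul] at h2
  exact h2


/-- PROOF. Let s₀ be a lift of g (AlgEquiv.restrictNormalHom_surjective, M/K normal by x_gal). By IsCyclotomicExtension.autEquivPow (with hirr) there is t in Gal(M/L) with autToPow t = u (autToPow s₀)^-1
(same zeta or compare two primitive roots: s zeta = zeta^k for one primitive root gives it for all); s = (t restricted to K) s₀; t restricts to 1 on L. -/
theorem x_surj [IsGalois K L] (hirr : Irreducible (Polynomial.cyclotomic m L)) (g : L ≃ₐ[K] L) (u : (ZMod m)ˣ) :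
    ∃ s : M ≃ₐ[K] M, AlgEquiv.restrictNormalHom L s = g ∧ hζ.autToPow K s = u := by
  haveI : IsGalois K M := x_gal K L M m
  have hz := IsCyclotomicExtension.zeta_spec m L M
  obtain ⟨s₀, hs₀⟩ := AlgEquiv.restrictNormalHom_surjective (F := K) (K₁ := L) M g
  obtain ⟨t, ht⟩ := (IsCyclotomicExtension.autEquivPow M hirr).surjective (u * (hζ.autToPow K s₀)⁻¹)
  have ht2 : hz.autToPow L t = u * (hζ.autToPow K s₀)⁻¹ := ht
  have ht3 : hζ.autToPow K (t.restrictScalars K) = u * (hζ.autToPow K s₀)⁻¹ := by
    rw [← ht2, IsPrimitiveRoot.autToPow_eq_modularCyclotomicCharacter, IsPrimitiveRoot.autToPow_eq_modularCyclotomicCharacter]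
    rfl
  refine ⟨t.restrictScalars K * s₀, ?_, ?_⟩
  · rw [map_mul, hs₀]
    have h1 : AlgEquiv.restrictNormalHom L (t.restrictScalars K) = (1 : L ≃ₐ[K] L) := by
      apply AlgEquiv.ext
      intro y
      apply (algebraMap L M).injective
      have h2 := AlgEquiv.restrictNormal_commutes (t.restrictScalars K) L y
      have h3 : (t.restrictScalars K) (algebraMap L M y) = algebraMap L M y := t.commutes y
      rw [h3] at h2
      exact h2
    rw [h1, one_mul]
  · rw [map_mul, ht3, inv_mul_cancel_right]


end

end CFT
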