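import Mathlib
import Pool.Agent.Lib.CFT.D2

/-! # CFT module X (Artin crossing): definitions. Tm K E S m: the primes of E above S or above m. -/

open NumberField IsDedekindDomain

namespace CFT

section

variable (K : Type) [Field K] [NumberField K] (E : Type) [Field E] [NumberField E] [Algebra K E]

theorem m_fin (m : ℕ) [NeZero m] : {w : Pr E | (m : 𝓞 E) ∈ w.asIdeal}.Finite := by
  have h := Ideal.finite_factors (I := Ideal.span {(m : 𝓞 E)})
    (fun h => (NeZero.ne m) (by exact_mod_cast (Ideal.span_singleton_eq_bot.1 h)))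
  refine h.subset fun v hv => ?_
  show v.asIdeal ∣ Ideal.span {(m : 𝓞 E)}
  rw [Ideal.dvd_span_singleton]
  exact hv

theorem Tm_fin (S : Finset (Pr K)) (m : ℕ) [NeZero m] : {w : Pr E | below K w ∈ S ∨ (m : 𝓞 E) ∈ w.asIdeal}.Finite :=
  (up_fin K E S).union (m_fin E m)

/-- The primes of E above S or above m. -/
noncomputable def Tm (S : Finset (Pr K)) (m : ℕ) [NeZero m] : Finset (Pr E) := (Tm_fin K E S m).toFinset

variable {K E}

theorem mem_Tm {S : Finset (Pr K)} {m : ℕ} [NeZero m] {w : Pr E} : w ∈ Tm K E S m ↔ below K w ∈ S ∨ (m : 𝓞 E) ∈ w.asIdeal := by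
  unfold Tm
  rw [Set.Finite.mem_toFinset]
  rfl

theorem up_subset_Tm (S : Finset (Pr K)) (m : ℕ) [NeZero m] : up E S ⊆ Tm K E S m := by
  intro w hw
  rw [mem_up] at hw
  exact mem_Tm.2 (Or.inl hw)

/-- m is in w if and only if it is in the prime below. -/
theorem m_mem_below (m : ℕ) (w : Pr E) : (m : 𝓞 K) ∈ (below K w).asIdeal ↔ (m : 𝓞 E) ∈ w.asIdeal := by
  show algebraMap (𝓞 K) (𝓞 E) (m : 𝓞 K) ∈ w.asIdeal ↔ _
  rw [map_natCast]

end

end CFT
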