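import Mathlib
import Pool.Agent.Lib.CFT.D2
import Pool.Agent.Lib.CFT.X00
import Pool.Agent.Lib.CFT.B08
import Pool.Agent.Lib.CFT.B17
import Pool.Agent.Lib.CFT.B22
import Pool.Agent.Lib.CFT.X12

/-! # CFT X13 (M, 3 small): primes outside S and m are unramified in L(zeta_m), and the Frobenius element on zeta -/

open NumberField IsDedekindDomain

namespace CFT

/-- PROOF. If a prime number p divides Nm v and m, then p is in v: Nm v = absNorm v is a power of the prime number below v (Ideal.absNorm_eq_pow_inertiaDeg' or: the prime number p₀ in v; O_K/v is a vector space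
over ZMod p₀, so its cardinality is a power of p₀), so p = p₀ is in v and m, a multiple of p, is in v. -/
theorem x_cop {K : Type} [Field K] [NumberField K] (m : ℕ) (v : Pr K) (hm : (m : 𝓞 K) ∉ v.asIdeal) : (Nm v).Coprime m := by
  rw [Nat.coprime_iff_gcd_eq_one]
  by_contra hne
  obtain ⟨p, hp, hpd⟩ := Nat.exists_prime_and_dvd hne
  have hp1 : p ∣ Nm v := hpd.trans (Nat.gcd_dvd_left _ _)
  have hp2 : p ∣ m := hpd.trans (Nat.gcd_dvd_right _ _)
  haveI : Fact p.Prime := ⟨hp⟩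
  haveI : Finite (𝓞 K ⧸ v.asIdeal) := Ideal.finiteQuotientOfFreeOfNeBot _ v.ne_bot
  have hcard : Nat.card (𝓞 K ⧸ v.asIdeal) = Nm v := by
    unfold Nm
    rw [Ideal.absNorm_apply, Submodule.cardQuot_apply]
  obtain ⟨x, hx⟩ := exists_prime_addOrderOf_dvd_card' (G := 𝓞 K ⧸ v.asIdeal) p (by rw [hcard]; exact hp1)
  have hx0 : x ≠ 0 := by
    rintro rfl
    rw [addOrderOf_zero] at hx
    exact hp.one_lt.ne hx
  have hpx : (p : 𝓞 K ⧸ v.asIdeal) * x = 0 := by
    rw [← nsmul_eq_mul, ← hx]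
    exact addOrderOf_nsmul_eq_zero x
  haveI : IsDomain (𝓞 K ⧸ v.asIdeal) := (Ideal.Quotient.isDomain_iff_prime v.asIdeal).2 v.isPrime
  have hp0 : (p : 𝓞 K ⧸ v.asIdeal) = 0 := by
    rcases mul_eq_zero.1 hpx with h | h
    · exact h
    · exact absurd h hx0
  have hpv : (p : 𝓞 K) ∈ v.asIdeal := by
    rw [← Ideal.Quotient.eq_zero_iff_mem, map_natCast]
    exact hp0
  obtain ⟨c, rfl⟩ := hp2
  apply hm
  rw [Nat.cast_mul]
  exact v.asIdeal.mul_mem_right _ hpv


section

variable {K : Type} [Field K] [NumberField K] {L : Type} [Field L] [NumberField L] [Algebra K L]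
  {M : Type} [Field M] [NumberField M] [Algebra K M] [Algebra L M] [IsScalarTower K L M] {m : ℕ} [NeZero m] [IsCyclotomicExtension {m} L M]

/-- PROOF. unr_of_tower (B08, with E = L) and unr_cyc (B22) for M/L; m_mem_below (X00). -/
theorem x_unr {v : Pr K} (hv : Unr K L v) (hm : (m : 𝓞 K) ∉ v.asIdeal) : Unr K M v := by
  refine unr_of_tower K L M hv fun w hw => ?_
  refine unr_cyc m w ?_
  rw [← m_mem_below (K := K), hw]
  exact hm


/-- PROOF. M/K is Galois (x_gal, X12) and abelian (x_comm), frob_spec (B17), fr_zeta (B22): frob zeta = zeta^(Nm v); IsPrimitiveRoot.autToPow_spec and IsPrimitiveRoot.pow_inj or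
(hζ.pow_eq_pow_iff_modEq): the exponents agree mod m. -/
theorem x_beta [IsGalois K L] (hab : ∀ a b : L ≃ₐ[K] L, a * b = b * a) {ζ : M} (hζ : IsPrimitiveRoot ζ m) {v : Pr K} (hv : Unr K L v)
    (hm : (m : 𝓞 K) ∉ v.asIdeal) : hζ.autToPow K (frob K M v) = ZMod.unitOfCoprime (Nm v) (x_cop m v hm) := by
  haveI : IsGalois K M := x_gal K L M m
  have h1 := frob_spec (K := K) (L := M) (x_comm hζ hab) (x_unr (m := m) hv hm)
  have h2 := fr_zeta m v hm h1 hζ.pow_eq_one
  have h3 := hζ.autToPow_spec K (frob K M v)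
  rw [h2] at h3
  apply Units.ext
  rw [ZMod.coe_unitOfCoprime]
  rw [pow_eq_pow_mod (Nm v) hζ.pow_eq_one] at h3
  have h4 := hζ.pow_inj (ZMod.val_lt _) (Nat.mod_lt _ (Nat.pos_of_ne_zero (NeZero.ne m))) h3
  rw [← ZMod.natCast_zmod_val ((hζ.autToPow K (frob K M v) : (ZMod m)ˣ) : ZMod m), h4, ZMod.natCast_mod]


end

end CFT
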