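import Mathlib
import Pool.Agent.Lib.CFT.D2
import Pool.Agent.Lib.CFT.Core1

/-! # CFT X20 (S/M): every element of the Galois group is the Artin symbol of a divisor outside T

PROOF. The set of all g for which such a D exists is a subgroup (sums and negatives of divisors) and contains frob E M w for w not in T (D = single w 1, art_single_of_notMem). frob_gen (Targets),
Subgroup.closure_induction. -/

open NumberField IsDedekindDomain

namespace CFT

theorem x_div {E : Type} [Field E] [NumberField E] {M : Type} [Field M] [NumberField M] [Algebra E M] [IsGalois E M]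
    (hab : ∀ a b : M ≃ₐ[E] M, a * b = b * a) (T : Finset (Pr E)) (g : M ≃ₐ[E] M) :
    ∃ D : Dv E, (∀ w ∈ T, D w = 0) ∧ ∀ (A : Type) [CommGroup A] (χ : (M ≃ₐ[E] M) →* A), art T χ D = Additive.ofMul (χ g) := by
  classical
  have hg : g ∈ (⊤ : Subgroup (M ≃ₐ[E] M)) := Subgroup.mem_top g
  rw [← frob_gen E M hab T] at hg
  induction hg using Subgroup.closure_induction with
  | mem x hx =>
    obtain ⟨w, hw, -, rfl⟩ := hx
    refine ⟨Finsupp.single w 1, fun u hu => ?_, fun A _ χ => ?_⟩
    · rw [Finsupp.single_apply, if_neg]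
      rintro rfl
      exact hw hu
    · rw [art_single_of_notMem _ hw, one_smul]
  | one => exact ⟨0, fun _ _ => rfl, fun A _ χ => by rw [map_zero, map_one, ofMul_one]⟩
  | mul x y _ _ hx hy =>
    obtain ⟨D, hD, hD'⟩ := hx
    obtain ⟨D', hE, hE'⟩ := hy
    refine ⟨D + D', fun w hw => by rw [Finsupp.add_apply, hD w hw, hE w hw, add_zero], fun A _ χ => ?_⟩
    rw [map_add, hD' A χ, hE' A χ, map_mul, ofMul_mul]
  | inv x _ hx =>
    obtain ⟨D, hD, hD'⟩ := hx
    refine ⟨-D, fun w hw => by rw [Finsupp.neg_apply, hD w hw, neg_zero], fun A _ χ => ?_⟩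
    rw [map_neg, hD' A χ, map_inv, ofMul_inv]

end CFT
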