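import Mathlib
import Pool.Agent.Lib.CFT.D2
import Pool.Agent.Lib.CFT.X00
import Pool.Agent.Lib.CFT.B08
import Pool.Agent.Lib.CFT.B09
import Pool.Agent.Lib.CFT.B21
import Pool.Agent.Lib.CFT.X12
import Pool.Agent.Lib.CFT.X13
import Pool.Agent.Lib.CFT.X20

/-! # CFT X23 (M): the auxiliary divisor, and its norm to a smaller field -/

open NumberField IsDedekindDomain

namespace CFT

section

variable {K : Type} [Field K] [NumberField K] {L : Type} [Field L] [NumberField L] [Algebra K L]
    {M : Type} [Field M] [NumberField M] [Algebra K M] [Algebra L M] [IsScalarTower K L M] {m : ℕ} [NeZero m] [IsCyclotomicExtension {m} L M]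

/-- PROOF. E₀ = fixedField H₀. M/K is Galois, abelian (x_gal, x_comm, X12), so M/E₀ too. x in H₀ is an E₀-automorphism x' of M (IntermediateField.mem_fixedField_iff; e.g. AlgEquiv.ofRingEquiv, or
IntermediateField.fixingSubgroupEquiv). T = Tm K E₀ S m. D from x_div (X20) for M/E₀, T, x'. art_base (B21) with (K, L, E₀, M): art S χ (Nd K E₀ D) = art T (χ ∘ resE) D = χ (resE x') = χ (x restricted to L).
(Primes w outside T are unramified in M/E₀: x_unr (X13) and unr_tower (B08).) -/
theorem x_aux [IsGalois K L] (hab : ∀ a b : L ≃ₐ[K] L, a * b = b * a) (H₀ : Subgroup (M ≃ₐ[K] M)) (x : M ≃ₐ[K] M) (hx : x ∈ H₀)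
    (S : Finset (Pr K)) (hS : ∀ v : Pr K, ¬ Unr K L v → v ∈ S) :
    ∃ D : Dv (IntermediateField.fixedField H₀), (∀ w ∈ Tm K (IntermediateField.fixedField H₀) S m, D w = 0) ∧
      ∀ (A : Type) [CommGroup A] (χ : (L ≃ₐ[K] L) →* A),
        art S χ (Nd K (IntermediateField.fixedField H₀) D) = Additive.ofMul (χ (AlgEquiv.restrictNormalHom L x)) := by
  haveI hgal : IsGalois K M := x_gal K L M m
  have hcomm : ∀ a b : M ≃ₐ[K] M, a * b = b * a := x_comm (IsCyclotomicExtension.zeta_spec m L M) hab
  have habM : ∀ a b : M ≃ₐ[IntermediateField.fixedField H₀] M, a * b = b * a := by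
    intro a b
    apply AlgEquiv.ext
    intro z
    exact DFunLike.congr_fun (hcomm (a.restrictScalars K) (b.restrictScalars K)) z
  obtain ⟨x', hx'⟩ : ∃ x' : M ≃ₐ[IntermediateField.fixedField H₀] M, x'.restrictScalars K = x := by
    refine ⟨AlgEquiv.ofRingEquiv (f := x.toRingEquiv) fun r => ?_, ?_⟩
    · exact (IntermediateField.mem_fixedField_iff H₀ r.1).1 r.2 x hx
    · apply AlgEquiv.ext
      intro z
      rfl
  obtain ⟨D, hD, hD2⟩ := x_div habM (Tm K (IntermediateField.fixedField H₀) S m) x'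
  refine ⟨D, hD, fun A _ χ => ?_⟩
  rw [art_base K L (IntermediateField.fixedField H₀) M hab habM S hS (Tm K (IntermediateField.fixedField H₀) S m) ?_ (up_subset_Tm S m) χ D hD,
    hD2]
  · show Additive.ofMul (χ (resE K L (IntermediateField.fixedField H₀) M x')) = _
    have h1 : resE K L (IntermediateField.fixedField H₀) M x' = AlgEquiv.restrictNormalHom L x := by
      show AlgEquiv.restrictNormalHom L (x'.restrictScalars K) = _
      rw [hx']
    rw [h1]
  · intro w hw
    by_contra hcon
    rw [mem_Tm, not_or] at hcon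
    have h1 : Unr K L (below K w) := by
      by_contra h
      exact hcon.1 (hS _ h)
    have h2 : (m : 𝓞 K) ∉ (below K w).asIdeal := fun h => hcon.2 ((m_mem_below m w).1 h)
    have h3 : Unr K M (below K w) := x_unr h1 h2
    exact hw ((unr_tower K (IntermediateField.fixedField H₀) M h3).2 w rfl)

end

section

variable {K : Type} [Field K] [NumberField K] {M : Type} [Field M] [NumberField M] [Algebra K M] {m : ℕ} [NeZero m]

/-- PROOF. E ≤ E₀: algebra structure from IntermediateField.inclusion, scalar tower K E E₀. D' = Nd E E₀ D; Nd_Nd (B08); D' is 0 on Tm: Nd_apply (B09), a prime of E₀ above a prime in Tm K E is in Tm K E₀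
(below_below (B08), m_mem_below (X00)). -/
theorem x_push (E E₀ : IntermediateField K M) (h : E ≤ E₀) (S : Finset (Pr K)) (D : Dv E₀) (hD : ∀ w ∈ Tm K E₀ S m, D w = 0) :
    ∃ D' : Dv E, (∀ w ∈ Tm K E S m, D' w = 0) ∧ Nd K E D' = Nd K E₀ D := by
  letI : Algebra E E₀ := (IntermediateField.inclusion h).toRingHom.toAlgebra
  haveI : IsScalarTower K E E₀ := IsScalarTower.of_algebraMap_eq fun r => rfl
  refine ⟨Nd E E₀ D, fun w hw => ?_, Nd_Nd K E E₀ D⟩
  rw [Nd_apply]
  refine Finset.sum_eq_zero fun u hu => ?_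
  rw [mem_abv] at hu
  have h1 : u ∈ Tm K E₀ S m := by
    rw [mem_Tm] at hw ⊢
    rcases hw with hw | hw
    · left
      rw [← below_below K E E₀ u, hu]
      exact hw
    · right
      rw [← hu] at hw
      exact (m_mem_below m u).1 hw
  rw [hD u h1, mul_zero]

end

end CFT
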