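import Mathlib

/-! # CFT X14 (S/M): the group theory of the crossing

PROOF. z = x^i y^j with integers i, j (the set of these products is a subgroup because of hab; or make A a CommGroup and use Subgroup.mem_closure_pair). β x^i = β y^(-j) is in both zpowers, so it is 1:
β x^i = 1 and β y^j = 1, so n divides i and j (orderOf_dvd_iff_zpow_eq_one), α x^i = 1, α y^j = 1. -/

namespace CFT

theorem x14_pair {A : Type} [Group A] (hab : ∀ a b : A, a * b = b * a) {x y z : A} (hz : z ∈ Subgroup.closure {x, y}) :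
    ∃ i j : ℤ, z = x ^ i * y ^ j := by
  refine Subgroup.closure_induction (p := fun z _ => ∃ i j : ℤ, z = x ^ i * y ^ j) ?_ ?_ ?_ ?_ hz
  · intro w hw
    rcases hw with rfl | hw
    · exact ⟨1, 0, by simp⟩
    · rw [Set.mem_singleton_iff] at hw
      subst hw
      exact ⟨0, 1, by simp⟩
  · exact ⟨0, 0, by simp⟩
  · rintro a b _ _ ⟨i, j, rfl⟩ ⟨k, l, rfl⟩
    refine ⟨i + k, j + l, ?_⟩
    rw [zpow_add, zpow_add, mul_assoc, mul_assoc, ← mul_assoc (y ^ j), hab (y ^ j) (x ^ k), mul_assoc]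
  · rintro a _ ⟨i, j, rfl⟩
    refine ⟨-i, -j, ?_⟩
    rw [mul_inv_rev, zpow_neg, zpow_neg]
    exact hab _ _

theorem x_core {A G Δ : Type} [Group A] [Group G] [Group Δ] (hab : ∀ a b : A, a * b = b * a) (α : A →* G) (β : A →* Δ) {n : ℕ}
    (hG : ∀ g : G, g ^ n = 1) {x y : A} (hx : n ∣ orderOf (β x)) (hy : n ∣ orderOf (β y))
    (hd : Disjoint (Subgroup.zpowers (β x)) (Subgroup.zpowers (β y))) {z : A} (hz : z ∈ Subgroup.closure {x, y}) (h1 : β z = 1) :
    α z = 1 := by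
  obtain ⟨i, j, rfl⟩ := x14_pair hab hz
  rw [map_mul, map_zpow, map_zpow] at h1
  have h2 : β x ^ i = (β y ^ j)⁻¹ := eq_inv_of_mul_eq_one_left h1
  have h3 : β x ^ i = 1 := by
    refine (Subgroup.disjoint_def.1 hd) (Subgroup.zpow_mem_zpowers _ _) ?_
    rw [h2]
    exact inv_mem (Subgroup.zpow_mem_zpowers _ _)
  have h4 : β y ^ j = 1 := by
    rw [h3] at h2
    exact inv_eq_one.1 h2.symm
  have hk : ∀ (g : G) (k : ℤ), (n : ℤ) ∣ k → g ^ k = 1 := by
    rintro g k ⟨l, rfl⟩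
    rw [zpow_mul, zpow_natCast, hG, one_zpow]
  have h5 : (n : ℤ) ∣ i := (Int.natCast_dvd_natCast.2 hx).trans (orderOf_dvd_iff_zpow_eq_one.2 h3)
  have h6 : (n : ℤ) ∣ j := (Int.natCast_dvd_natCast.2 hy).trans (orderOf_dvd_iff_zpow_eq_one.2 h4)
  rw [map_mul, map_zpow, map_zpow, hk _ _ h5, hk _ _ h6, one_mul]

end CFT
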