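import Mathlib
import Pool.Agent.Lib.CFT.D2
import Pool.Agent.Lib.CFT.B08
import Pool.Agent.Lib.CFT.B18
import Pool.Agent.Lib.CFT.B20

/-! # CFT X16 (S/M): places of degree one

PROOF. E/K is normal (all subgroups of the abelian group Gal(M/K) are normal: IsGalois.of_fixedField_normal_subgroup or IntermediateField.normal via fixingSubgroup normal). frob_res (B20):
restrictNormalHom E (frob K M v) = frob K E v, and it is 1 since frob K M v fixes E (AlgEquiv.restrictNormal_commutes). v is unramified in E (unr_tower, B08). order_frob (B18):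
the inertia degree is the order of 1. -/

open NumberField IsDedekindDomain

namespace CFT

theorem x_split {K : Type} [Field K] [NumberField K] {M : Type} [Field M] [NumberField M] [Algebra K M] [IsGalois K M]
    (hab : ∀ a b : M ≃ₐ[K] M, a * b = b * a) (E : IntermediateField K M) {v : Pr K} (hv : Unr K M v) (hy : ∀ x : E, frob K M v (x : M) = x)
    (w : Pr E) (hw : below K w = v) : w.asIdeal.inertiaDeg (𝓞 K) = 1 := by
  have hN : E.fixingSubgroup.Normal := ⟨fun a ha b => by rwa [hab b a, mul_assoc, mul_inv_cancel, mul_one]⟩
  have hEg : IsGalois K E := by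
    have h1 : IsGalois K (IntermediateField.fixedField E.fixingSubgroup) := IsGalois.of_fixedField_normal_subgroup E.fixingSubgroup
    rwa [IsGalois.fixedField_fixingSubgroup] at h1
  have hsur : Function.Surjective (AlgEquiv.restrictNormalHom E : (M ≃ₐ[K] M) →* (E ≃ₐ[K] E)) := AlgEquiv.restrictNormalHom_surjective M
  have habE : ∀ a b : E ≃ₐ[K] E, a * b = b * a := by
    intro a b
    obtain ⟨a', rfl⟩ := hsur a
    obtain ⟨b', rfl⟩ := hsur b
    rw [← map_mul, hab, map_mul]
  have h1 := frob_res K E M hab hv
  have h2 : AlgEquiv.restrictNormalHom E (frob K M v) = 1 := by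
    ext x
    have h3 : algebraMap E M (AlgEquiv.restrictNormalHom E (frob K M v) x) = frob K M v (algebraMap E M x) :=
      AlgEquiv.restrictNormal_commutes (frob K M v) E x
    exact h3.trans (hy x)
  have h3 := order_frob habE (unr_tower K E M hv).1 w hw
  rw [← h1, h2, orderOf_one] at h3
  exact h3.symm

end CFT
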