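import Mathlib

/-! # CFT X15 (M): M is cyclotomic over the fixed field of H

PROOF. E = fixedField H. Let Z = adjoin E {zeta} (IntermediateField E M). An element t of Gal(M/E) fixing zeta is, as a K-automorphism, in H (IntermediateField.fixingSubgroup_fixedField: H = fixingSubgroup (fixedField H), M/K
finite dimensional) and autToPow t = 1, so t = 1. So the fixing subgroup of Z is trivial and Z = ⊤ (Galois correspondence for M/E: IsGalois.fixedField_fixingSubgroup). Then M is a cyclotomic extension of E
(IsPrimitiveRoot.intermediateField_adjoin_isCyclotomicExtension, or the definition: primitive root exists, and Algebra.adjoin E {x | x^m = 1} = ⊤ from the integrality of zeta: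
IntermediateField.adjoin_simple_toSubalgebra_of_integral). -/

open NumberField

namespace CFT

theorem x_fix {K : Type} [Field K] [NumberField K] {M : Type} [Field M] [NumberField M] [Algebra K M] [IsGalois K M] {m : ℕ} [NeZero m] {ζ : M}
    (hζ : IsPrimitiveRoot ζ m) (H : Subgroup (M ≃ₐ[K] M)) (hH : ∀ z ∈ H, hζ.autToPow K z = 1 → z = 1) :
    IsCyclotomicExtension {m} (IntermediateField.fixedField H) M := by
  let E : IntermediateField K M := IntermediateField.fixedField H
  show IsCyclotomicExtension {m} E M
  have hEM : IsGalois E M := IsGalois.tower_top_of_isGalois K E M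
  have hfd : FiniteDimensional E M := inferInstance
  let Z : IntermediateField E M := IntermediateField.adjoin E {ζ}
  have h1 : Z.fixingSubgroup = ⊥ := by
    rw [Subgroup.eq_bot_iff_forall]
    intro t ht
    rw [IntermediateField.mem_fixingSubgroup_iff] at ht
    have h2 : t ζ = ζ := ht ζ (IntermediateField.mem_adjoin_simple_self E ζ)
    let t' : M ≃ₐ[K] M := t.restrictScalars K
    have h3 : t' ∈ H := by
      rw [← IntermediateField.fixingSubgroup_fixedField H, IntermediateField.mem_fixingSubgroup_iff]
      intro x hx
      exact t.commutes ⟨x, hx⟩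
    have h4 : hζ.autToPow K t' = 1 := by
      have h5 : ζ ^ (hζ.autToPow K t' : ZMod m).val = ζ ^ 1 := by
        rw [hζ.autToPow_spec K t', pow_one]
        exact h2
      rcases Nat.lt_or_ge 1 m with hm | hm
      · have h6 := hζ.pow_inj (ZMod.val_lt _) hm h5
        apply Units.ext
        rw [← ZMod.natCast_zmod_val (hζ.autToPow K t' : ZMod m), h6, Nat.cast_one]
        rfl
      · have hm1 : m = 1 := le_antisymm hm (Nat.one_le_iff_ne_zero.2 (NeZero.ne m))
        subst hm1
        apply Units.ext
        exact Subsingleton.elim _ _
    have h5 : t' = 1 := hH t' h3 h4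
    ext y
    exact DFunLike.congr_fun h5 y
  have h2 : Z = ⊤ := by
    rw [← IsGalois.fixedField_fixingSubgroup Z, h1, IntermediateField.fixedField_bot]
  have h3 : IsCyclotomicExtension {m} E Z := hζ.intermediateField_adjoin_isCyclotomicExtension E
  rw [h2] at h3
  exact IsCyclotomicExtension.equiv {m} E (⊤ : IntermediateField E M) IntermediateField.topEquiv

end CFT
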