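import Mathlib
import Pool.Agent.Lib.CFT.D2
import Pool.Agent.Lib.CFT.Core1
import Pool.Agent.Lib.CFT.B18
import Pool.Agent.Lib.CFT.B20
import Pool.Agent.Lib.CFT.B22
import Pool.Agent.Lib.CFT.B24

/-! # CFT X17 (M/L): kernel of the Artin symbol for a subextension of a cyclotomic extension

PROOF. M/E is abelian (cyc_comm, B22) and Galois, F/E is abelian (restriction is onto). N₀ from cyc_rec (Targets, or cyc_rec', B24) for M/E: art T χ' (dv x) = 0 for all χ' on Gal(M/E). With
χ' = χ ∘ restriction and art_res (B20; primes outside T are unramified in M: unr_cyc, B22) art T χ (dv x) = 0 for all χ on Gal(F/E) and Ray T N₀ x. Let N₁ = max N N₀,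
H = Pray T N₁ ⊔ (Nd E F).range. Make Gal(F/E) a CommGroup (as in Targets.artin_ker) and let φ = art T (MonoidHom.id _) : Dv E →+ Additive Gal(F/E), k = φ.ker. H ≤ k: for Pray use art_congr (D2) and
Ray.mono, for norms art_Nd (B18; ramified primes of F are in T: unr_tower, unr_cyc). φ is onto: frob_gen (Targets) and art_single_of_notMem (φ.range contains the generators; Subgroup.closure_le), so
k.index = card Gal(F/E) = finrank E F (AddSubgroup.index_ker, IsGalois.card_aut_eq_finrank). second_ineq: H.index ≤ finrank E F = k.index, H.index ≠ 0 (Pray T N₁ ≤ H has finite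
index: pray_fin, index_ne_zero), k.index ∣ H.index for H ≤ k (AddSubgroup.index_dvd_of_le), so H.index = k.index and H = k (AddSubgroup.relIndex_mul_index, relIndex = 1 means k ≤ H). D is in k = H and
Pray T N₁ ≤ Pray T N (Ray.mono). -/

open NumberField IsDedekindDomain

namespace CFT

theorem x_ker {E : Type} [Field E] [NumberField E] {F : Type} [Field F] [NumberField F] [Algebra E F] {M : Type} [Field M] [NumberField M] [Algebra E M]
    [Algebra F M] [IsScalarTower E F M] [IsGalois E F] {m : ℕ} [NeZero m] [IsCyclotomicExtension {m} E M] (T : Finset (Pr E))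
    (hT : ∀ w : Pr E, (m : 𝓞 E) ∈ w.asIdeal → w ∈ T) (N : ℕ) (D : Dv E)
    (h : ∀ (A : Type) [CommGroup A] (χ : (F ≃ₐ[E] F) →* A), art T χ D = 0) : D ∈ Pray T N ⊔ (Nd E F).range := by
  classical
  have hgal : IsGalois E M := IsCyclotomicExtension.isGalois {m} E M
  have habM : ∀ a b : M ≃ₐ[E] M, a * b = b * a := cyc_comm m
  have hsur : Function.Surjective (AlgEquiv.restrictNormalHom F : (M ≃ₐ[E] M) →* (F ≃ₐ[E] F)) := AlgEquiv.restrictNormalHom_surjective M
  have habF : ∀ a b : F ≃ₐ[E] F, a * b = b * a := by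
    intro a b
    obtain ⟨a', rfl⟩ := hsur a
    obtain ⟨b', rfl⟩ := hsur b
    rw [← map_mul, habM, map_mul]
  have hTM : ∀ w : Pr E, ¬ Unr E M w → w ∈ T := by
    intro w hw
    by_contra hwT
    exact hw (unr_cyc m w fun hm => hwT (hT w hm))
  have hTF : ∀ w : Pr E, ¬ Unr E F w → w ∈ T := by
    intro w hw
    by_contra hwT
    apply hw
    have h1 : Unr E M w := by
      by_contra h2
      exact hwT (hTM w h2)
    exact (unr_tower E F M h1).1
  obtain ⟨N₀, hN₀⟩ := cyc_rec E M m T hT
  have hray : ∀ (A : Type) [CommGroup A] (χ : (F ≃ₐ[E] F) →* A) (x : E), Ray T N₀ x → art T χ (dv x) = 0 := by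
    intro A _ χ x hx
    rw [← art_res E F M habM T hTM χ (dv x)]
    exact hN₀ A _ x hx
  set N₁ := max N N₀ with hN₁
  let cg : CommGroup (F ≃ₐ[E] F) := { (inferInstance : Group (F ≃ₐ[E] F)) with mul_comm := habF }
  set φ : Dv E →+ Additive (F ≃ₐ[E] F) := art T (MonoidHom.id (F ≃ₐ[E] F)) with hφ
  set H := Pray T N₁ ⊔ (Nd E F).range with hH
  have hle : H ≤ φ.ker := by
    rw [hH, sup_le_iff]
    constructor
    · rintro C ⟨x, hx, hC⟩
      rw [AddMonoidHom.mem_ker, hφ, art_congr T (MonoidHom.id (F ≃ₐ[E] F)) (E := dv x) hC]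
      exact hray _ _ x (hx.mono (Finset.Subset.refl T) (le_max_right _ _))
    · rintro _ ⟨C, rfl⟩
      rw [AddMonoidHom.mem_ker, hφ]
      exact art_Nd habF T hTF _ C
  have hsurj : Function.Surjective φ := by
    have h1 : ∀ s : F ≃ₐ[E] F, s ∈ Subgroup.closure {s : F ≃ₐ[E] F | ∃ v : Pr E, v ∉ T ∧ Unr E F v ∧ frob E F v = s} →
        ∃ C : Dv E, φ C = Additive.ofMul s := by
      intro s hs
      induction hs using Subgroup.closure_induction with
      | mem s hs =>
        obtain ⟨v, hv, -, rfl⟩ := hs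
        exact ⟨Finsupp.single v 1, by rw [hφ, art_single_of_notMem _ hv, one_smul]; rfl⟩
      | one => exact ⟨0, by rw [map_zero]; rfl⟩
      | mul s t _ _ h1 h2 =>
        obtain ⟨C, hC⟩ := h1
        obtain ⟨C', hC'⟩ := h2
        exact ⟨C + C', by rw [map_add, hC, hC']; rfl⟩
      | inv s _ h1 =>
        obtain ⟨C, hC⟩ := h1
        exact ⟨-C, by rw [map_neg, hC]; rfl⟩
    intro y
    obtain ⟨C, hC⟩ := h1 y.toMul (by rw [frob_gen E F habF T]; exact Subgroup.mem_top _)
    exact ⟨C, hC⟩
  have hk : φ.ker.index = Module.finrank E F := by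
    rw [AddSubgroup.index_ker, AddMonoidHom.range_eq_top.2 hsurj, ← IsGalois.card_aut_eq_finrank E F]
    calc Nat.card (⊤ : AddSubgroup (Additive (F ≃ₐ[E] F))) = Nat.card (Additive (F ≃ₐ[E] F)) := Nat.card_congr (AddSubgroup.topEquiv).toEquiv
      _ = Nat.card (F ≃ₐ[E] F) := Nat.card_congr Additive.toMul
  have hpos : 0 < Module.finrank E F := Module.finrank_pos
  have h0 : H.index ≠ 0 := by
    have h1 : (Pray T N₁).FiniteIndex := pray_fin E T N₁
    have h2 : (Pray T N₁).index ≠ 0 := h1.index_ne_zero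
    have h3 : H.index ∣ (Pray T N₁).index := AddSubgroup.index_dvd_of_le (by rw [hH]; exact le_sup_left)
    intro h4
    rw [h4, zero_dvd_iff] at h3
    exact h2 h3
  have h1 := AddSubgroup.relIndex_mul_index hle
  have h2 : H.index ≤ φ.ker.index := by
    rw [hk]
    exact second_ineq E F T N₁
  have h3 : H.relIndex φ.ker = 1 := by
    have h4 : H.relIndex φ.ker ≠ 0 := by
      intro h5
      rw [h5, zero_mul] at h1
      exact h0 h1.symm
    have h5 : H.relIndex φ.ker * φ.ker.index ≤ 1 * φ.ker.index := by rw [h1, one_mul]; exact h2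
    have h6 := Nat.le_of_mul_le_mul_right h5 (by rw [hk]; exact hpos)
    omega
  have h4 : φ.ker ≤ H := AddSubgroup.relIndex_eq_one.1 h3
  have h5 : D ∈ H := h4 (h _ (MonoidHom.id (F ≃ₐ[E] F)))
  have h6 : H ≤ Pray T N ⊔ (Nd E F).range := by
    rw [hH]
    refine sup_le_sup_right ?_ _
    rintro C ⟨x, hx, hC⟩
    exact ⟨x, hx.mono (Finset.Subset.refl T) (le_max_left _ _), hC⟩
  exact h6 h5

end CFT
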