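import Mathlib
import Pool.Agent.Lib.CFT.D2
import Pool.Agent.Lib.CFT.B09

/-! # CFT X18 (S/M): divisors which are zero on T

PROOF. D = P + Nd E F C₀, P in Pray T N: P w = od w x for w not in T, Ray T N x. C = C₀.filter (fun u => below E u ∉ T). For w not in T: (Nd E F C) w = (Nd E F C₀) w (Nd_apply, B09: the sum over the primes
above w) so D w = od w x + (Nd E F C) w. For w in T: D w = 0, od w x = 0 (Ray.od_eq), (Nd E F C) w = 0 (all C u = 0 for u above w). -/

open NumberField IsDedekindDomain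

namespace CFT

theorem x_zero {E : Type} [Field E] [NumberField E] {F : Type} [Field F] [NumberField F] [Algebra E F] (T : Finset (Pr E)) (N : ℕ) (D : Dv E)
    (hD : ∀ w ∈ T, D w = 0) (h : D ∈ Pray T N ⊔ (Nd E F).range) : ∃ (x : E) (C : Dv F), Ray T N x ∧ D = dv x + Nd E F C := by
  classical
  obtain ⟨P, hP, Q, ⟨C₀, hC⟩, hPQ⟩ := AddSubgroup.mem_sup.1 h
  obtain ⟨x, hx, hx'⟩ := hP
  refine ⟨x, C₀.filter (fun u => below E u ∉ T), hx, ?_⟩
  ext w
  rw [Finsupp.add_apply, dv_apply, Nd_apply]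
  by_cases hw : w ∈ T
  · rw [hD w hw, hx.od_eq hw, zero_add]
    symm
    refine Finset.sum_eq_zero fun u hu => ?_
    rw [mem_abv] at hu
    rw [Finsupp.filter_apply_neg _ _ (by rw [hu]; exact fun h => h hw), mul_zero]
  · rw [← hPQ, Finsupp.add_apply, hx' w hw, ← hC, Nd_apply]
    congr 1
    refine Finset.sum_congr rfl fun u hu => ?_
    rw [mem_abv] at hu
    rw [Finsupp.filter_apply_pos _ _ (by rw [hu]; exact hw)]

end CFT
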