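import Mathlib
import Pool.Agent.Lib.CFT.D2
import Pool.Agent.Lib.CFT.B07
import Pool.Agent.Lib.CFT.B08
import Pool.Agent.Lib.CFT.B13
import Pool.Agent.Lib.CFT.X18

/-! # CFT X19 (S/M): going down from E to K

PROOF. N' from ray_norm (B13) for K, E, S, N. h N' and x_zero (X18): D = dv x + Nd E F C with Ray T N' x, so Ray (up E S) N' x (Ray.mono) and Ray S N (norm x). Nd K E D = dv (norm x) + Nd K E (Nd E F C)
(Nd_dv, B07), and Nd K E (Nd E F C) = Nd K F C = Nd K L (Nd L F C) (Nd_Nd, B08, twice). dv_mem_Pray (D2). -/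

open NumberField IsDedekindDomain

namespace CFT

theorem x_down {K : Type} [Field K] [NumberField K] {L : Type} [Field L] [NumberField L] [Algebra K L] {E : Type} [Field E] [NumberField E] [Algebra K E]
    {F : Type} [Field F] [NumberField F] [Algebra K F] [Algebra L F] [Algebra E F] [IsScalarTower K L F] [IsScalarTower K E F]
    (S : Finset (Pr K)) (N : ℕ) (T : Finset (Pr E)) (hT : up E S ⊆ T) (D : Dv E) (hD : ∀ w ∈ T, D w = 0)
    (h : ∀ N' : ℕ, D ∈ Pray T N' ⊔ (Nd E F).range) : Nd K E D ∈ Pray S N ⊔ (Nd K L).range := by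
  obtain ⟨N', hN'⟩ := ray_norm (K := K) (L := E) S N
  obtain ⟨x, C, hx, rfl⟩ := x_zero T N' D hD (h N')
  rw [map_add, Nd_dv hx.ne, Nd_Nd, ← Nd_Nd K L F]
  refine AddSubgroup.add_mem_sup (dv_mem_Pray (hN' x (hx.mono hT le_rfl))) ⟨_, rfl⟩

end CFT
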