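import Mathlib
import Pool.Agent.Lib.CFT.D2
import Pool.Agent.Lib.CFT.X00
import Pool.Agent.Lib.CFT.B08
import Pool.Agent.Lib.CFT.B09
import Pool.Agent.Lib.CFT.B13
import Pool.Agent.Lib.CFT.B20
import Pool.Agent.Lib.CFT.B21
import Pool.Agent.Lib.CFT.B22
import Pool.Agent.Lib.CFT.X17
import Pool.Agent.Lib.CFT.X19

/-! # CFT X21 (M/L): the crossing step, fields as types

K - L - F - M and K - E - F - M, M cyclotomic over E, restriction Gal(F/E) → Gal(L/K) injective. D a divisor of E, zero above S and m, whose norm to K has trivial Artin symbol in L/K.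

PROOF. T = Tm K E S m (X00). Gal(F/E) is abelian (injective restriction, or quotient of Gal(M/E)). Primes outside T are unramified in F/E (unr_cyc (B22) for M/E and unr_tower (B08)). art_base (B21) with (K, L, E, F), T,
for every χ on Gal(L/K): art T (χ ∘ resE) D = art S χ (Nd K E D) = 0. Take χ = id into Gal(L/K) as a CommGroup (habL; instance as in Targets.artin_ker): art T resE D = 0. For an arbitrary χ' on Gal(F/E):
art T χ' D = 0 because with Gal(F/E) as a CommGroup G', art T id D =: g in G' is mapped to art T resE D = 0 by resE (art_comp, D2), so g = 0 by injectivity, and art T χ' D = χ' g = 0 (art_comp). Now x_ker (X17)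
for every N' and x_down (X19; up_subset_Tm). -/

open NumberField IsDedekindDomain

namespace CFT

theorem x_step {K : Type} [Field K] [NumberField K] {L : Type} [Field L] [NumberField L] [Algebra K L] {E : Type} [Field E] [NumberField E] [Algebra K E]
    {F : Type} [Field F] [NumberField F] [Algebra K F] [Algebra L F] [Algebra E F] [IsScalarTower K L F] [IsScalarTower K E F]
    {M : Type} [Field M] [NumberField M] [Algebra E M] [Algebra F M] [IsScalarTower E F M] {m : ℕ} [NeZero m] [IsCyclotomicExtension {m} E M]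
    [IsGalois K L] [IsGalois E F] (hab : ∀ a b : L ≃ₐ[K] L, a * b = b * a) (hinj : Function.Injective (resE K L E F))
    (S : Finset (Pr K)) (hS : ∀ v : Pr K, ¬ Unr K L v → v ∈ S) (N : ℕ) (D : Dv E) (hD : ∀ w ∈ Tm K E S m, D w = 0)
    (h : ∀ (A : Type) [CommGroup A] (χ : (L ≃ₐ[K] L) →* A), art S χ (Nd K E D) = 0) : Nd K E D ∈ Pray S N ⊔ (Nd K L).range := by
  classical
  have habF : ∀ a b : F ≃ₐ[E] F, a * b = b * a := by
    intro a b
    apply hinj
    rw [map_mul, map_mul, hab]
  set T := Tm K E S m with hTdef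
  have hmT : ∀ w : Pr E, (m : 𝓞 E) ∈ w.asIdeal → w ∈ T := fun w hw => mem_Tm.2 (Or.inr hw)
  have hTF : ∀ w : Pr E, ¬ Unr E F w → w ∈ T := by
    intro w hw
    by_contra hwT
    apply hw
    have h1 : Unr E M w := unr_cyc m w fun hm => hwT (hmT w hm)
    exact (unr_tower E F M h1).1
  have hzero : ∀ (A : Type) [CommGroup A] (χ : (F ≃ₐ[E] F) →* A), art T χ D = 0 := by
    intro A _ χ'
    let cL : CommGroup (L ≃ₐ[K] L) := { (inferInstance : Group (L ≃ₐ[K] L)) with mul_comm := hab }
    let cF : CommGroup (F ≃ₐ[E] F) := { (inferInstance : Group (F ≃ₐ[E] F)) with mul_comm := habF }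
    have h1 := h (L ≃ₐ[K] L) (MonoidHom.id (L ≃ₐ[K] L))
    rw [art_base K L E F hab habF S hS T hTF (up_subset_Tm S m) (MonoidHom.id (L ≃ₐ[K] L)) D hD, MonoidHom.id_comp] at h1
    have h2 := art_comp T (resE K L E F) (MonoidHom.id (F ≃ₐ[E] F)) D
    rw [MonoidHom.comp_id, h1] at h2
    have h3 : art T (MonoidHom.id (F ≃ₐ[E] F)) D = 0 := by
      have h4 : resE K L E F (art T (MonoidHom.id (F ≃ₐ[E] F)) D).toMul = 1 := Additive.ofMul.injective h2.symm
      have h5 : (art T (MonoidHom.id (F ≃ₐ[E] F)) D).toMul = 1 := hinj (by rw [h4, map_one])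
      exact Additive.toMul.injective h5
    have h4 := art_comp T χ' (MonoidHom.id (F ≃ₐ[E] F)) D
    rw [MonoidHom.comp_id, h3, map_zero] at h4
    exact h4
  refine x_down (L := L) (F := F) S N T (up_subset_Tm S m) D hD fun N' => ?_
  exact x_ker (M := M) (m := m) T hmT N' D hzero

end CFT
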