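import Mathlib
import Pool.Agent.Lib.CFT.D2
import Pool.Agent.Lib.CFT.X12
import Pool.Agent.Lib.CFT.X15
import Pool.Agent.Lib.CFT.X21

/-! # CFT X22 (M/L): the crossing step for the fixed field of H

PROOF. Instances only. E = fixedField H, J = H ⊓ (restrictNormalHom L).ker, F = fixedField J, E ≤ F. Algebra E F: (IntermediateField.inclusion h).toRingHom.toAlgebra; Algebra L F: the image of L in M is fixed by J, so
(algebraMap L M).codRestrict F.toSubring (or toSubfield), as a ring homomorphism, toAlgebra; scalar towers by IsScalarTower.of_algebraMap_eq (all maps are inclusions in M). M is cyclotomic over E (x_fix, X15: an element z of H with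
autToPow z = 1 has trivial restriction to L by hH, so z = 1 by x_inj, X12). F/E is Galois: J is normal in the abelian group (E ≤ F ≤ M: F/K is Galois since all subgroups are normal, and then
F/E is Galois: IsGalois.tower_top_of_isGalois K E F). resE K L E F is injective: let t in Gal(F/E) with trivial restriction to L; lift t to s in Gal(M/E) (AlgEquiv.liftNormal, M/E is normal); as an element of
Gal(M/K) s is in H (fixingSubgroup_fixedField), and its restriction to L is trivial (the images of L lie in F and t fixes them), so s is in J, so it fixes F and t = 1. Then x_step (X21). -/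

open NumberField IsDedekindDomain

namespace CFT

theorem x_stepH {K : Type} [Field K] [NumberField K] {L : Type} [Field L] [NumberField L] [Algebra K L]
    {M : Type} [Field M] [NumberField M] [Algebra K M] [Algebra L M] [IsScalarTower K L M] {m : ℕ} [NeZero m] [IsCyclotomicExtension {m} L M]
    [IsGalois K L] (hab : ∀ a b : L ≃ₐ[K] L, a * b = b * a) {ζ : M} (hζ : IsPrimitiveRoot ζ m)
    (H : Subgroup (M ≃ₐ[K] M)) (hH : ∀ z ∈ H, hζ.autToPow K z = 1 → AlgEquiv.restrictNormalHom L z = 1)
    (S : Finset (Pr K)) (hS : ∀ v : Pr K, ¬ Unr K L v → v ∈ S) (N : ℕ)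
    (D : Dv (IntermediateField.fixedField H)) (hD : ∀ w ∈ Tm K (IntermediateField.fixedField H) S m, D w = 0)
    (h : ∀ (A : Type) [CommGroup A] (χ : (L ≃ₐ[K] L) →* A), art S χ (Nd K (IntermediateField.fixedField H) D) = 0) :
    Nd K (IntermediateField.fixedField H) D ∈ Pray S N ⊔ (Nd K L).range := by
  classical
  have hMg : IsGalois K M := x_gal K L M m
  have habM : ∀ a b : M ≃ₐ[K] M, a * b = b * a := x_comm hζ hab
  let E : IntermediateField K M := IntermediateField.fixedField H
  let J : Subgroup (M ≃ₐ[K] M) := H ⊓ (AlgEquiv.restrictNormalHom L : (M ≃ₐ[K] M) →* (L ≃ₐ[K] L)).ker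
  let F : IntermediateField K M := IntermediateField.fixedField J
  have hJn : J.Normal := ⟨fun a ha b => by rwa [habM b a, mul_assoc, mul_inv_cancel, mul_one]⟩
  have hEF : E ≤ F := by
    intro x hx
    rw [IntermediateField.mem_fixedField_iff] at hx ⊢
    exact fun s hs => hx s hs.1
  have hLF : ∀ x : L, algebraMap L M x ∈ F := by
    intro x
    rw [IntermediateField.mem_fixedField_iff]
    intro s hs
    have h1 : AlgEquiv.restrictNormalHom L s = 1 := hs.2
    have h2 := AlgEquiv.restrictNormal_commutes s L x
    have h3 : AlgEquiv.restrictNormal s L = 1 := h1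
    rw [h3] at h2
    exact h2.symm
  letI aEF : Algebra E F := (IntermediateField.inclusion hEF).toRingHom.toAlgebra
  letI aLF : Algebra L F := ((algebraMap L M).codRestrict F hLF).toAlgebra
  haveI tKEF : IsScalarTower K E F := IsScalarTower.of_algebraMap_eq fun x => rfl
  haveI tEFM : IsScalarTower E F M := IsScalarTower.of_algebraMap_eq fun x => rfl
  haveI tLFM : IsScalarTower L F M := IsScalarTower.of_algebraMap_eq fun x => rfl
  haveI tKLF : IsScalarTower K L F := IsScalarTower.of_algebraMap_eq fun x => by
    apply (algebraMap F M).injective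
    show algebraMap F M (algebraMap K F x) = algebraMap L M (algebraMap K L x)
    rw [← IsScalarTower.algebraMap_apply K L M]
    rfl
  haveI hcyc : IsCyclotomicExtension {m} E M := x_fix hζ H fun z hz h1 => x_inj hζ z (hH z hz h1) h1
  haveI hFg : IsGalois K F := IsGalois.of_fixedField_normal_subgroup J
  haveI hEFg : IsGalois E F := IsGalois.tower_top_of_isGalois K E F
  haveI hEM : IsGalois E M := IsGalois.tower_top_of_isGalois K E M
  have hinj : Function.Injective (resE K L E F) := by
    rw [injective_iff_map_eq_one]
    intro t ht
    let s : M ≃ₐ[E] M := AlgEquiv.liftNormal t M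
    have hs : ∀ y : F, s (algebraMap F M y) = algebraMap F M (t y) := fun y => AlgEquiv.liftNormal_commutes t M y
    let s' : M ≃ₐ[K] M := s.restrictScalars K
    have h1 : s' ∈ H := by
      rw [← IntermediateField.fixingSubgroup_fixedField H, IntermediateField.mem_fixingSubgroup_iff]
      intro x hx
      exact s.commutes ⟨x, hx⟩
    have h2 : AlgEquiv.restrictNormalHom L s' = 1 := by
      ext x
      apply (algebraMap L M).injective
      have h3 : algebraMap L M (AlgEquiv.restrictNormalHom L s' x) = s' (algebraMap L M x) := AlgEquiv.restrictNormal_commutes s' L x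
      rw [h3]
      have h4 : s' (algebraMap L M x) = s (algebraMap F M (algebraMap L F x)) := rfl
      rw [h4, hs, ← resE_spec (K := K) t x, ht]
      rfl
    have h3 : s' ∈ J := ⟨h1, h2⟩
    ext y
    have h4 : s' (algebraMap F M y) = algebraMap F M y := by
      have h5 := y.2
      rw [IntermediateField.mem_fixedField_iff] at h5
      exact h5 s' h3
    have h5 : s' (algebraMap F M y) = algebraMap F M (t y) := hs y
    rw [h4] at h5
    exact congrArg _ ((algebraMap F M).injective h5.symm)
  exact x_step (K := K) (L := L) (E := E) (F := F) (M := M) (m := m) hab hinj S hS N D hD h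

end CFT
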