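import Mathlib
import Pool.Agent.Lib.CFT.D2
import Pool.Agent.Lib.CFT.X00
import Pool.Agent.Lib.CFT.B06
import Pool.Agent.Lib.CFT.X12
import Pool.Agent.Lib.CFT.X13
import Pool.Agent.Lib.CFT.X14
import Pool.Agent.Lib.CFT.X16
import Pool.Agent.Lib.CFT.X22
import Pool.Agent.Lib.CFT.X23

/-! # CFT X24 (M): the crossing for one prime

PROOF. y = frob K M v, H = Subgroup.closure {x, y}. For z in H with autToPow z = 1: restriction to L trivial, by x_core (X14) with n = l^r = finrank K L (hG: pow_card_eq_one'; card of the Galois group = finrank), β y = unit of Nm v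
(x_beta, X13). E = fixedField H ≤ E₀ = fixedField (zpowers x) (zpowers x ≤ H; IntermediateField.fixedField_le or antitone). D' from x_push (X23) for the given D₀. w a prime of E above v (below_surj, B06), inertia degree 1 (x_split,
X16; y fixes E as y is in H; v is unramified in M: x_unr). D = single w 1 - d • D'. D is 0 on Tm K E S m: w is not in Tm (below w = v is not in S, m is not in w by m_mem_below). Nd K E D = single v 1 - d • Nd K E₀ D₀
(Nd_single). art S χ (Nd K E D) = χ (frob K L v) - d χ (x restricted) = 0 (additively) by hd, hD₀. x_stepH (X22). -/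

open NumberField IsDedekindDomain

namespace CFT

theorem x_one {K : Type} [Field K] [NumberField K] {L : Type} [Field L] [NumberField L] [Algebra K L]
    {M : Type} [Field M] [NumberField M] [Algebra K M] [Algebra L M] [IsScalarTower K L M] {m : ℕ} [NeZero m] [IsCyclotomicExtension {m} L M]
    [IsGalois K L] (hab : ∀ a b : L ≃ₐ[K] L, a * b = b * a) {ζ : M} (hζ : IsPrimitiveRoot ζ m) (n : ℕ) (hn : Module.finrank K L = n)
    (S : Finset (Pr K)) (hS : ∀ v : Pr K, ¬ Unr K L v → v ∈ S) (N : ℕ) (x : M ≃ₐ[K] M) (hx : n ∣ orderOf (hζ.autToPow K x))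
    (D₀ : Dv (IntermediateField.fixedField (Subgroup.zpowers x))) (hD₀ : ∀ w ∈ Tm K (IntermediateField.fixedField (Subgroup.zpowers x)) S m, D₀ w = 0)
    (hart : ∀ (A : Type) [CommGroup A] (χ : (L ≃ₐ[K] L) →* A),
        art S χ (Nd K (IntermediateField.fixedField (Subgroup.zpowers x)) D₀) = Additive.ofMul (χ (AlgEquiv.restrictNormalHom L x)))
    (v : Pr K) (hv : v ∉ S) (hm : (m : 𝓞 K) ∉ v.asIdeal) (hnv : n ∣ orderOf (ZMod.unitOfCoprime (Nm v) (x_cop m v hm)))
    (hdis : Disjoint (Subgroup.zpowers (hζ.autToPow K x)) (Subgroup.zpowers (ZMod.unitOfCoprime (Nm v) (x_cop m v hm))))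
    (d : ℕ) (hd : frob K L v = AlgEquiv.restrictNormalHom L x ^ d) :
    (Finsupp.single v 1 - d • Nd K (IntermediateField.fixedField (Subgroup.zpowers x)) D₀ : Dv K) ∈ Pray S N ⊔ (Nd K L).range := by
  classical
  have hgal : IsGalois K M := x_gal K L M m
  have hcomm : ∀ a b : M ≃ₐ[K] M, a * b = b * a := x_comm hζ hab
  have hvL : Unr K L v := by
    by_contra h
    exact hv (hS v h)
  have hvM : Unr K M v := x_unr hvL hm
  have hβ := x_beta hab hζ hvL hm
  obtain ⟨y, hy⟩ : ∃ y, y = frob K M v := ⟨_, rfl⟩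
  rw [← hy] at hβ
  rw [← hβ] at hnv hdis
  obtain ⟨H, hHdef⟩ : ∃ H : Subgroup (M ≃ₐ[K] M), H = Subgroup.closure {x, y} := ⟨_, rfl⟩
  have hG : ∀ g : L ≃ₐ[K] L, g ^ n = 1 := by
    intro g
    rw [← hn, ← IsGalois.card_aut_eq_finrank K L]
    exact pow_card_eq_one'
  have hH : ∀ z ∈ H, hζ.autToPow K z = 1 → AlgEquiv.restrictNormalHom L z = 1 := by
    intro z hz h1
    rw [hHdef] at hz
    exact x_core hcomm (AlgEquiv.restrictNormalHom L) (hζ.autToPow K) hG hx hnv hdis hz h1
  have hxH : Subgroup.zpowers x ≤ H := by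
    rw [Subgroup.zpowers_le, hHdef]
    exact Subgroup.subset_closure (by simp)
  have hyH : y ∈ H := by
    rw [hHdef]
    exact Subgroup.subset_closure (by simp)
  have hE : IntermediateField.fixedField H ≤ IntermediateField.fixedField (Subgroup.zpowers x) := by
    intro z hz
    rw [IntermediateField.mem_fixedField_iff] at hz ⊢
    exact fun f hf => hz f (hxH hf)
  obtain ⟨D', hD', hN'⟩ := x_push (m := m) _ _ hE S D₀ hD₀
  obtain ⟨w, hw⟩ := below_surj (K := K) (L := IntermediateField.fixedField H) v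
  have hf := x_split hcomm (IntermediateField.fixedField H) hvM (fun z => by
    rw [← hy]
    exact (IntermediateField.mem_fixedField_iff H z.1).1 z.2 y hyH) w hw
  have hNd : Nd K (IntermediateField.fixedField H) (Finsupp.single w 1 - d • D') =
      Finsupp.single v 1 - d • Nd K (IntermediateField.fixedField (Subgroup.zpowers x)) D₀ := by
    rw [map_sub, map_nsmul, hN', Nd_single, hf, hw, Nat.cast_one, one_mul]
  rw [← hNd]
  refine x_stepH hab hζ H hH S hS N _ ?_ ?_
  · intro u hu
    rw [Finsupp.sub_apply, Finsupp.smul_apply, hD' u hu, smul_zero, sub_zero, Finsupp.single_apply, if_neg]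
    rintro rfl
    rw [mem_Tm, hw] at hu
    rcases hu with hu | hu
    · exact hv hu
    · refine hm ?_
      rw [← hw]
      exact (m_mem_below m w).2 hu
  · intro A _ χ
    rw [hNd, map_sub, map_nsmul, hart, art_single_of_notMem χ hv, one_zsmul, hd, map_pow, ofMul_pow, sub_self]

end CFT
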