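import Mathlib
import Pool.Agent.Lib.CFT.D2
import Pool.Agent.Lib.CFT.B09
import Pool.Agent.Lib.CFT.X02
import Pool.Agent.Lib.CFT.X03
import Pool.Agent.Lib.CFT.X04
import Pool.Agent.Lib.CFT.X11
import Pool.Agent.Lib.CFT.X12
import Pool.Agent.Lib.CFT.X13
import Pool.Agent.Lib.CFT.X23
import Pool.Agent.Lib.CFT.X24

/-! # CFT X25: the crossing (assembly) -/

open NumberField IsDedekindDomain

namespace CFT

theorem crossing' (K : Type) [Field K] [NumberField K] (L : Type) [Field L] [NumberField L] [Algebra K L] [IsGalois K L] (hc : IsCyclic (L ≃ₐ[K] L))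
    (l r : ℕ) (hl : l.Prime) (hn : Module.finrank K L = l ^ r)
    (S : Finset (Pr K)) (hS : ∀ v : Pr K, ¬ Unr K L v → v ∈ S) (N : ℕ) (v v₀ : Pr K) (hv : v ∉ S) (hv₀ : v₀ ∉ S)
    (hg : Subgroup.zpowers (frob K L v₀) = ⊤) (d : ℕ) (hd : frob K L v = frob K L v₀ ^ d) :
    (Finsupp.single v 1 - d • Finsupp.single v₀ 1 : Dv K) ∈ Pray S N ⊔ (Nd K L).range := by
  have hab : ∀ a b : L ≃ₐ[K] L, a * b = b * a := by
    letI : CommGroup (L ≃ₐ[K] L) := hc.commGroup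
    exact mul_comm
  obtain ⟨q₁, q₂, hq₁, hq₂, hne, hirr, hmv, hmv₀, o₁, o₂, d₁, d₂⟩ := x_choose K L hl r v v₀
  have hm0 : q₁ * q₂ ≠ 0 := mul_ne_zero hq₁.ne_zero hq₂.ne_zero
  haveI : NeZero (q₁ * q₂) := ⟨hm0⟩
  obtain ⟨u₁, u₂, hu₁, hu₂, hu⟩ := x_units hq₁ hq₂ hne d₁ d₂
  obtain ⟨τ, hτ, hτ₁, hτ₂⟩ := x_tau hl hu₁ hu₂ hu (ZMod.unitOfCoprime (Nm v) (x_cop (q₁ * q₂) v hmv))
    (ZMod.unitOfCoprime (Nm v₀) (x_cop (q₁ * q₂) v₀ hmv₀))
  let M := CyclotomicField (q₁ * q₂) L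
  haveI : NumberField M := IsCyclotomicExtension.numberField {q₁ * q₂} L M
  have hζ : IsPrimitiveRoot (IsCyclotomicExtension.zeta (q₁ * q₂) L M) (q₁ * q₂) := IsCyclotomicExtension.zeta_spec (q₁ * q₂) L M
  obtain ⟨x, hx1, hx2⟩ := x_surj (K := K) (L := L) (M := M) hζ hirr (frob K L v₀) τ
  obtain ⟨D₀, hD₀, hart⟩ := x_aux (K := K) (L := L) (M := M) (m := q₁ * q₂) hab (Subgroup.zpowers x) x (Subgroup.mem_zpowers x) S hS
  have hxn : l ^ r ∣ orderOf (hζ.autToPow K x) := by rw [hx2, hτ]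
  have h1 := x_one hab hζ (l ^ r) hn S hS N x hxn D₀ hD₀ hart v hv hmv (x_order (dvd_mul_right q₁ q₂) (x_cop (q₁ * q₂) v hmv) o₁)
    (by rw [hx2]; exact hτ₁) d (by rw [hx1]; exact hd)
  have h2 := x_one hab hζ (l ^ r) hn S hS N x hxn D₀ hD₀ hart v₀ hv₀ hmv₀ (x_order (dvd_mul_left q₂ q₁) (x_cop (q₁ * q₂) v₀ hmv₀) o₂)
    (by rw [hx2]; exact hτ₂) 1 (by rw [hx1, pow_one])
  have h3 := sub_mem h1 (nsmul_mem h2 d)
  have e : (Finsupp.single v 1 - d • Finsupp.single v₀ 1 : Dv K) =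
      (Finsupp.single v 1 - d • Nd K (IntermediateField.fixedField (Subgroup.zpowers x)) D₀) -
        d • (Finsupp.single v₀ 1 - 1 • Nd K (IntermediateField.fixedField (Subgroup.zpowers x)) D₀) := by
    rw [one_nsmul, smul_sub]
    abel
  rw [e]
  exact h3

end CFT
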