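import Mathlib
import Pool.Agent.Lib.CFT.Core1
import Pool.Agent.Lib.CFT.X25

/-! # CFT: T5, the crossing -/

open NumberField IsDedekindDomain

namespace CFT

variable (K : Type) [Field K] [NumberField K] (L : Type) [Field L] [NumberField L] [Algebra K L]

/-- T5 (X). The crossing. -/
theorem crossing [IsGalois K L] (hc : IsCyclic (L ≃ₐ[K] L)) (l r : ℕ) (hl : l.Prime) (hn : Module.finrank K L = l ^ r)
    (S : Finset (Pr K)) (hS : ∀ v : Pr K, ¬ Unr K L v → v ∈ S) (N : ℕ) (v v₀ : Pr K) (hv : v ∉ S) (hv₀ : v₀ ∉ S)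
    (hg : Subgroup.zpowers (frob K L v₀) = ⊤) (d : ℕ) (hd : frob K L v = frob K L v₀ ^ d) :
    (Finsupp.single v 1 - d • Finsupp.single v₀ 1 : Dv K) ∈ Pray S N ⊔ (Nd K L).range :=
  crossing' K L hc l r hl hn S hS N v v₀ hv hv₀ hg d hd

end CFT
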