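import Mathlib
import Pool.Agent.Lib.CFT.D2
import Pool.Agent.Lib.CFT.Core2
import Pool.Agent.Lib.CFT.B09
import Pool.Agent.Lib.CFT.B17
import Pool.Agent.Lib.CFT.B18
import Pool.Agent.Lib.CFT.B25

/-! # CFT module B, chunk B26: reciprocity for cyclic extensions of prime power degree -/

open NumberField IsDedekindDomain

namespace CFT

variable {K : Type} [Field K] [NumberField K] {L : Type} [Field L] [NumberField L] [Algebra K L]

/-- The kernel of the Artin symbol is contained in the norm group (from the crossing). -/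
theorem b26_ker [IsGalois K L] (hc : IsCyclic (L ≃ₐ[K] L)) (l r : ℕ) (hl : l.Prime) (hn : Module.finrank K L = l ^ r)
    (S : Finset (Pr K)) (hS : ∀ v : Pr K, ¬ Unr K L v → v ∈ S) (N : ℕ) (G : Type) [CommGroup G] (e : (L ≃ₐ[K] L) ≃* G)
    (v₀ : Pr K) (hv₀ : v₀ ∉ S) (hg : Subgroup.zpowers (frob K L v₀) = ⊤) (D : Dv K)
    (hD : art S (e : (L ≃ₐ[K] L) →* G) D = 0) : D ∈ Pray S N ⊔ (Nd K L).range := by
  classical
  set H := Pray S N ⊔ (Nd K L).range with hH
  have key : ∀ D : Dv K, ∃ k : ℤ, D - k • Finsupp.single v₀ 1 ∈ H ∧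
      art S (e : (L ≃ₐ[K] L) →* G) D = k • Additive.ofMul (e (frob K L v₀)) := by
    intro D
    induction D using Finsupp.induction_linear with
    | zero => exact ⟨0, by rw [zero_smul, sub_zero]; exact H.zero_mem, by rw [map_zero, zero_smul]⟩
    | add D E hD hE =>
      obtain ⟨k, h1, h2⟩ := hD
      obtain ⟨j, h3, h4⟩ := hE
      refine ⟨k + j, ?_, by rw [map_add, h2, h4, add_smul]⟩
      have h5 : D + E - (k + j) • (Finsupp.single v₀ 1 : Dv K) = (D - k • Finsupp.single v₀ 1) + (E - j • Finsupp.single v₀ 1) := by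
        rw [add_smul]
        abel
      rw [h5]
      exact H.add_mem h1 h3
    | single v n =>
      by_cases hv : v ∈ S
      · refine ⟨0, ?_, by rw [art_single_of_mem _ hv, zero_smul]⟩
        rw [zero_smul, sub_zero]
        refine AddSubgroup.mem_sup_left (supp_mem_Pray N fun w hw => ?_)
        rw [Finsupp.single_apply, if_neg]
        rintro rfl
        exact hw hv
      · have h0 : frob K L v ∈ Subgroup.zpowers (frob K L v₀) := by
          rw [hg]
          exact Subgroup.mem_top _
        rw [← mem_powers_iff_mem_zpowers] at h0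
        obtain ⟨d, hd⟩ := h0
        have hd' : frob K L v = frob K L v₀ ^ d := hd.symm
        have h1 := crossing K L hc l r hl hn S hS N v v₀ hv hv₀ hg d hd'
        refine ⟨n * d, ?_, ?_⟩
        · have h2 : (Finsupp.single v n : Dv K) - (n * (d : ℤ)) • Finsupp.single v₀ 1 =
              n • ((Finsupp.single v 1 : Dv K) - d • Finsupp.single v₀ 1) := by
            rw [smul_sub, ← natCast_zsmul (Finsupp.single v₀ (1 : ℤ)) d, smul_smul, Finsupp.smul_single n v 1, smul_eq_mul, mul_one]
          rw [h2]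
          exact H.zsmul_mem h1 n
        · rw [art_single_of_notMem _ hv, mul_smul, hd']
          congr 1
          rw [MonoidHom.coe_coe, map_pow, ofMul_pow, natCast_zsmul]
  obtain ⟨k, h1, h2⟩ := key D
  rw [hD] at h2
  have h3 : (Additive.ofMul (e (frob K L v₀) ^ k)) = 0 := by
    rw [ofMul_zpow]
    exact h2.symm
  have h4 : e (frob K L v₀ ^ k) = 1 := by
    rw [map_zpow]
    exact ofMul_eq_zero.1 h3
  have h5 : frob K L v₀ ^ k = 1 := e.injective (by rw [h4, map_one])
  have h6 : (orderOf (frob K L v₀) : ℤ) ∣ k := orderOf_dvd_iff_zpow_eq_one.2 h5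
  have h7 : orderOf (frob K L v₀) = Module.finrank K L := by
    rw [← IsGalois.card_aut_eq_finrank, ← Nat.card_zpowers, hg]
    exact Nat.card_congr (Subgroup.topEquiv (G := (L ≃ₐ[K] L))).toEquiv
  rw [h7] at h6
  obtain ⟨j, hj⟩ := h6
  have h8 : k • (Finsupp.single v₀ 1 : Dv K) ∈ H := by
    rw [hj, mul_smul, natCast_zsmul]
    exact AddSubgroup.mem_sup_right (n_mem_Nd (K := K) (L := L) _)
  have h9 : D = (D - k • Finsupp.single v₀ 1) + k • Finsupp.single v₀ 1 := by abel
  rw [h9]
  exact H.add_mem h1 h8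

/-- The norm group is the kernel of the Artin symbol. -/
theorem b26_eq [IsGalois K L] (hc : IsCyclic (L ≃ₐ[K] L)) (hab : ∀ a b : L ≃ₐ[K] L, a * b = b * a)
    (l r : ℕ) (hl : l.Prime) (hn : Module.finrank K L = l ^ r)
    (S : Finset (Pr K)) (hS : ∀ v : Pr K, ¬ Unr K L v → v ∈ S) (G : Type) [CommGroup G] (e : (L ≃ₐ[K] L) ≃* G) :
    ∃ N : ℕ, (art S (e : (L ≃ₐ[K] L) →* G)).ker = Pray S N ⊔ (Nd K L).range := by
  classical
  obtain ⟨N, hN⟩ := first_ineq K L hc S hS
  refine ⟨N, ?_⟩
  have hidx : (Pray S N ⊔ (Nd K L).range).index = Module.finrank K L := le_antisymm (second_ineq K L S N) hN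
  set a := art S (e : (L ≃ₐ[K] L) →* G) with ha
  have hpos : 0 < Module.finrank K L := Module.finrank_pos
  set T : Set (L ≃ₐ[K] L) := {s : L ≃ₐ[K] L | ∃ v : Pr K, v ∉ S ∧ Unr K L v ∧ frob K L v = s} with hT
  have hgen : Subgroup.closure T = ⊤ := frob_gen K L hab S
  have hcard : Nat.card (L ≃ₐ[K] L) = Module.finrank K L := IsGalois.card_aut_eq_finrank K L
  -- surjectivity
  have hsurj : Function.Surjective a := by
    have h1 : ∀ s : L ≃ₐ[K] L, s ∈ Subgroup.closure T → ∃ D : Dv K, a D = Additive.ofMul (e s) := by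
      intro s hs
      induction hs using Subgroup.closure_induction with
      | mem s hs =>
        obtain ⟨v, hv, -, rfl⟩ := hs
        exact ⟨Finsupp.single v 1, by rw [ha, art_single_of_notMem _ hv, one_smul]; rfl⟩
      | one => exact ⟨0, by rw [map_zero, map_one]; rfl⟩
      | mul s t _ _ h1 h2 =>
        obtain ⟨D, hD⟩ := h1
        obtain ⟨E, hE⟩ := h2
        exact ⟨D + E, by rw [map_add, hD, hE, map_mul]; rfl⟩
      | inv s _ h1 =>
        obtain ⟨D, hD⟩ := h1
        exact ⟨-D, by rw [map_neg, hD, map_inv]; rfl⟩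
    intro y
    obtain ⟨D, hD⟩ := h1 (e.symm y.toMul) (by rw [hgen]; exact Subgroup.mem_top _)
    exact ⟨D, by rw [hD, MulEquiv.apply_symm_apply]; rfl⟩
  have hkeridx : a.ker.index = Module.finrank K L := by
    rw [AddSubgroup.index_ker, AddMonoidHom.range_eq_top.2 hsurj, ← hcard]
    calc Nat.card (⊤ : AddSubgroup (Additive G)) = Nat.card (Additive G) := Nat.card_congr (AddSubgroup.topEquiv).toEquiv
      _ = Nat.card G := Nat.card_congr Additive.toMul
      _ = Nat.card (L ≃ₐ[K] L) := (Nat.card_congr e.toEquiv).symm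
  have hle : a.ker ≤ Pray S N ⊔ (Nd K L).range := by
    by_cases hTn : T.Nonempty
    · have hG : Nat.card (L ≃ₐ[K] L) = l ^ r := by rw [hcard, hn]
      obtain ⟨g, ⟨v₀, hv₀, -, rfl⟩, hg⟩ := gen_mem hc l r hl hG T hTn hgen
      intro D hD
      exact b26_ker hc l r hl hn S hS N G e v₀ hv₀ hg D hD
    · rw [Set.not_nonempty_iff_eq_empty.1 hTn, Subgroup.closure_empty] at hgen
      have h1 : Nat.card (L ≃ₐ[K] L) = 1 := by
        rw [← Nat.card_congr (Subgroup.topEquiv (G := (L ≃ₐ[K] L))).toEquiv, ← hgen, Subgroup.card_bot]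
      rw [hcard] at h1
      rw [h1, AddSubgroup.index_eq_one] at hidx
      rw [hidx]
      exact le_top
  refine le_antisymm hle ?_
  have h1 := AddSubgroup.relIndex_mul_index hle
  rw [hkeridx, hidx] at h1
  have h2 : a.ker.relIndex (Pray S N ⊔ (Nd K L).range) = 1 := by
    exact Nat.eq_of_mul_eq_mul_right hpos (by rw [h1, one_mul])
  exact AddSubgroup.relIndex_eq_one.1 h2

/-- PROOF. H = Pray S N + range Nd with N from CFT.first_ineq (Targets): index = n = [L:K] by first_ineq and second_ineq (Targets), it is finite. a = art S id (A = Gal(L/K) as a commutative group): range Nd is in ker a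
(art_Nd, B18). a is onto Gal: frob_gen (Targets). So ker a has index n (index of the kernel of a surjective homomorphism = card). CLAIM ker a is in H: v0 outside S with frob v0 a generator (gen_mem, B25, T = the
frob v, v outside S; nonempty because ... if T were empty the closure is trivial and G trivial: then n = 1, and H has index 1, everything is trivial: case r = 0 separately: H = top and we need ker a = top: G trivial).
For D in ker a: for every v outside S choose d(v) with frob v = frob v0^d(v) (d natural: the generator has finite order); CFT.crossing (Targets): single v 1 - d(v) single v0 1 in H. Divisors supported on S are in Pray S N (supp_mem_Pray, D2).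
So D = k single v0 1 mod H with k = sum of D v d(v) over v outside S, and 0 = a(D) = k ofMul (frob v0), so n = order of frob v0 divides k; n single v0 1 in range Nd (n_mem_Nd, B09). So D in H. Finally ker a <= H and both have the same
finite index n, so they are equal (Subgroup.eq_of_le_of_index..: AddSubgroup.relIndex_eq_one / index_eq_of..). For Ray S N x: dv x in Pray S N <= H = ker a. For general chi: art_comp (D2) with chi = chi o id. -/
theorem artin_pp [IsGalois K L] (hc : IsCyclic (L ≃ₐ[K] L)) (hab : ∀ a b : L ≃ₐ[K] L, a * b = b * a)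
    (l r : ℕ) (hl : l.Prime) (hn : Module.finrank K L = l ^ r)
    (S : Finset (Pr K)) (hS : ∀ v : Pr K, ¬ Unr K L v → v ∈ S) :
    ∃ N : ℕ, ∀ (A : Type) [CommGroup A] (χ : (L ≃ₐ[K] L) →* A) (x : K), Ray S N x → art S χ (dv x) = 0 := by
  letI cg : CommGroup (L ≃ₐ[K] L) := { (inferInstance : Group (L ≃ₐ[K] L)) with mul_comm := hab }
  obtain ⟨N, hN⟩ := b26_eq hc hab l r hl hn S hS (L ≃ₐ[K] L) (MulEquiv.refl (L ≃ₐ[K] L))
  refine ⟨N, fun A _ χ x hx => ?_⟩
  have h1 : dv x ∈ (art S ((MulEquiv.refl (L ≃ₐ[K] L) : (L ≃ₐ[K] L) ≃* (L ≃ₐ[K] L)) : (L ≃ₐ[K] L) →* (L ≃ₐ[K] L))).ker := by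
    rw [hN]
    exact AddSubgroup.mem_sup_left (dv_mem_Pray hx)
  rw [AddMonoidHom.mem_ker] at h1
  have h2 := art_comp S χ ((MulEquiv.refl (L ≃ₐ[K] L) : (L ≃ₐ[K] L) ≃* (L ≃ₐ[K] L)) : (L ≃ₐ[K] L) →* (L ≃ₐ[K] L)) (dv x)
  rw [h1, map_zero] at h2
  exact h2

end CFT
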