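import Mathlib
import Pool.Agent.Lib.CFT.D2
import Pool.Agent.Lib.CFT.B08
import Pool.Agent.Lib.CFT.B20
import Pool.Agent.Lib.CFT.B25
import Pool.Agent.Lib.CFT.B26

/-! # CFT module B, chunk B27: Artin reciprocity -/

open NumberField IsDedekindDomain

namespace CFT

variable {K : Type} [Field K] [NumberField K] {L : Type} [Field L] [NumberField L] [Algebra K L]

theorem b27_H [IsGalois K L] (hab : ∀ a b : L ≃ₐ[K] L, a * b = b * a) (S : Finset (Pr K)) (hS : ∀ v : Pr K, ¬ Unr K L v → v ∈ S)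
    (G : Type) [CommGroup G] (e : (L ≃ₐ[K] L) ≃* G) (H : Subgroup (L ≃ₐ[K] L)) [hN : H.Normal] (hc : IsCyclic ((L ≃ₐ[K] L) ⧸ H))
    (l r : ℕ) (hl : l.Prime) (hcard : Nat.card ((L ≃ₐ[K] L) ⧸ H) = l ^ r) :
    ∃ N : ℕ, ∀ x : K, Ray S N x → ∀ g : L ≃ₐ[K] L, art S (e : (L ≃ₐ[K] L) →* G) (dv x) = Additive.ofMul (e g) → g ∈ H := by
  classical
  let E : IntermediateField K L := IntermediateField.fixedField H
  have hEn : NumberField E := NumberField.of_module_finite K E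
  have hEg : IsGalois K E := IsGalois.of_fixedField_normal_subgroup H
  let q : (L ≃ₐ[K] L) ⧸ H ≃* (E ≃ₐ[K] E) := IsGalois.normalAutEquivQuotient H
  have hcE : IsCyclic (E ≃ₐ[K] E) := isCyclic_of_surjective q q.surjective
  have habE : ∀ a b : E ≃ₐ[K] E, a * b = b * a := by
    intro a b
    letI := hcE.commGroup
    exact mul_comm a b
  have hrank : Module.finrank K E = l ^ r := by
    rw [← IsGalois.card_aut_eq_finrank, ← hcard]
    exact (Nat.card_congr q.toEquiv).symm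
  have hSE : ∀ v : Pr K, ¬ Unr K E v → v ∈ S := by
    intro v hv
    by_contra hvS
    have h1 : Unr K L v := by
      by_contra h
      exact hvS (hS v h)
    exact hv (unr_tower K E L h1).1
  obtain ⟨N, hN⟩ := artin_pp (K := K) (L := E) hcE habE l r hl hrank S hSE
  refine ⟨N, fun x hx g hg => ?_⟩
  let cg : CommGroup (E ≃ₐ[K] E) := { (inferInstance : Group (E ≃ₐ[K] E)) with mul_comm := habE }
  have h1 := hN (E ≃ₐ[K] E) (MonoidHom.id (E ≃ₐ[K] E)) x hx
  have h2 := art_res K E L hab S hS (MonoidHom.id (E ≃ₐ[K] E)) (dv x)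
  rw [h1, MonoidHom.id_comp] at h2
  have h3 := art_comp S ((AlgEquiv.restrictNormalHom E : (L ≃ₐ[K] L) →* (E ≃ₐ[K] E)).comp (e.symm : G →* (L ≃ₐ[K] L)))
    (e : (L ≃ₐ[K] L) →* G) (dv x)
  have h4 : ((AlgEquiv.restrictNormalHom E : (L ≃ₐ[K] L) →* (E ≃ₐ[K] E)).comp (e.symm : G →* (L ≃ₐ[K] L))).comp (e : (L ≃ₐ[K] L) →* G) =
      (AlgEquiv.restrictNormalHom E : (L ≃ₐ[K] L) →* (E ≃ₐ[K] E)) := by
    ext s y
    simp
  rw [h4, h2, hg] at h3
  have h5 : (AlgEquiv.restrictNormalHom E : (L ≃ₐ[K] L) →* (E ≃ₐ[K] E)) g = 1 := by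
    have h6 := h3.symm
    have h7 : (AlgEquiv.restrictNormalHom E : (L ≃ₐ[K] L) →* (E ≃ₐ[K] E)) (e.symm (e g)) = 1 := Additive.ofMul.injective h6
    rwa [MulEquiv.symm_apply_apply] at h7
  have h8 : g ∈ (AlgEquiv.restrictNormalHom E : (L ≃ₐ[K] L) →* (E ≃ₐ[K] E)).ker := h5
  rw [IntermediateField.restrictNormalHom_ker, IntermediateField.fixingSubgroup_fixedField] at h8
  exact h8

/-- PROOF. For every H <= G = Gal(L/K) with G/H cyclic of prime power order let E_H = fixed field of H (IntermediateField K L, a number field, Galois over K with group G/H: IsGalois.normalAutEquivQuotient; cyclic of degree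
l^r) and N_H from artin_pp (B26), S contains the primes ramified in E_H (unr_tower, B08). N = the maximum over the finitely many H (Finite G: Finset.univ.sup of a choice function, 0 for the other H). Let Ray S N x, and
g in G with ofMul g = art S id (dv x) (A = G as a commutative group). If g <> 1: ker_pp (B25) gives H with g not in H; restriction to E_H: art S (restrictNormalHom E_H) (dv x) = ofMul (restrictNormalHom E_H g) (art_comp, D2) and it is 0 by art_res (B20)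
and artin_pp (Ray.mono, D2), so g fixes E_H, so g in H (IntermediateField.fixingSubgroup_fixedField): contradiction. So g = 1; general chi by art_comp. -/
theorem artin' [IsGalois K L] (hab : ∀ a b : L ≃ₐ[K] L, a * b = b * a) (S : Finset (Pr K)) (hS : ∀ v : Pr K, ¬ Unr K L v → v ∈ S) :
    ∃ N : ℕ, ∀ (A : Type) [CommGroup A] (χ : (L ≃ₐ[K] L) →* A) (x : K), Ray S N x → art S χ (dv x) = 0 := by
  classical
  let cg : CommGroup (L ≃ₐ[K] L) := { (inferInstance : Group (L ≃ₐ[K] L)) with mul_comm := hab }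
  let e : (L ≃ₐ[K] L) ≃* (L ≃ₐ[K] L) := MulEquiv.refl _
  have hex : ∀ H : Subgroup (L ≃ₐ[K] L), ∃ N : ℕ, (∃ _ : H.Normal, IsCyclic ((L ≃ₐ[K] L) ⧸ H) ∧
      ∃ l r : ℕ, l.Prime ∧ Nat.card ((L ≃ₐ[K] L) ⧸ H) = l ^ r) →
      ∀ x : K, Ray S N x → ∀ g : L ≃ₐ[K] L, art S (e : (L ≃ₐ[K] L) →* (L ≃ₐ[K] L)) (dv x) = Additive.ofMul (e g) → g ∈ H := by
    intro H
    by_cases h : ∃ _ : H.Normal, IsCyclic ((L ≃ₐ[K] L) ⧸ H) ∧ ∃ l r : ℕ, l.Prime ∧ Nat.card ((L ≃ₐ[K] L) ⧸ H) = l ^ r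
    · obtain ⟨hn, hc, l, r, hl, hcard⟩ := h
      obtain ⟨N, hN⟩ := b27_H hab S hS (L ≃ₐ[K] L) e H hc l r hl hcard
      exact ⟨N, fun _ => hN⟩
    · exact ⟨0, fun h' => absurd h' h⟩
  choose Nf hNf using hex
  have hfin : Finite (Subgroup (L ≃ₐ[K] L)) := inferInstance
  let ft : Fintype (Subgroup (L ≃ₐ[K] L)) := Fintype.ofFinite _
  refine ⟨Finset.univ.sup Nf, fun A _ χ x hx => ?_⟩
  set g : L ≃ₐ[K] L := (art S (e : (L ≃ₐ[K] L) →* (L ≃ₐ[K] L)) (dv x)).toMul with hg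
  have hg1 : g = 1 := by
    by_contra hne
    obtain ⟨H, hn, hgH, hc, l, r, hl, hcard⟩ := ker_pp hab g hne
    exact hgH (hNf H ⟨hn, hc, l, r, hl, hcard⟩ x (hx.mono (Finset.Subset.refl S) (Finset.le_sup (f := Nf) (Finset.mem_univ H))) g rfl)
  have h1 : art S (e : (L ≃ₐ[K] L) →* (L ≃ₐ[K] L)) (dv x) = 0 := by
    have h2 : art S (e : (L ≃ₐ[K] L) →* (L ≃ₐ[K] L)) (dv x) = Additive.ofMul g := rfl
    rw [h2, hg1]
    rfl
  have h3 := art_comp S χ (e : (L ≃ₐ[K] L) →* (L ≃ₐ[K] L)) (dv x)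
  rw [h1, map_zero] at h3
  exact h3

end CFT
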