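import Mathlib
import Pool.Agent.Lib.CFT.Core1
import Pool.Agent.Lib.CFT.Core2
import Pool.Agent.Lib.CFT.B26
import Pool.Agent.Lib.CFT.B27

/-! # CLASS FIELD THEORY: the core theorems with proofs

T0 pray_fin, T1 second_ineq, T2 frob_gen, T3 first_ineq, T4 cyc_rec (Core1), T5 crossing (Core2), T6 artin (Artin reciprocity for all finite abelian extensions
of number fields; modulus supported on the ramified primes), T6' artin_ker (the kernel of the Artin symbol, cyclic of prime power degree). -/

open NumberField IsDedekindDomain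

namespace CFT

variable (K : Type) [Field K] [NumberField K] (L : Type) [Field L] [NumberField L] [Algebra K L]

/-- T6. ARTIN RECIPROCITY for finite abelian extensions; the modulus is supported on any finite set containing the ramified primes
(and the infinite places). -/
theorem artin [IsGalois K L] (hab : ∀ a b : L ≃ₐ[K] L, a * b = b * a) (S : Finset (Pr K)) (hS : ∀ v : Pr K, ¬ Unr K L v → v ∈ S) :
    ∃ N : ℕ, ∀ (A : Type) [CommGroup A] (χ : (L ≃ₐ[K] L) →* A) (x : K), Ray S N x → art S χ (dv x) = 0 := artin' hab S hS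

/-- T6'. For cyclic extensions of prime power degree the kernel of the Artin symbol is the norm group. -/
theorem artin_ker [IsGalois K L] (hc : IsCyclic (L ≃ₐ[K] L)) (l r : ℕ) (hl : l.Prime) (hn : Module.finrank K L = l ^ r)
    (S : Finset (Pr K)) (hS : ∀ v : Pr K, ¬ Unr K L v → v ∈ S) (hab : ∀ a b : L ≃ₐ[K] L, a * b = b * a) :
    ∃ N : ℕ, letI : CommGroup (L ≃ₐ[K] L) := { (inferInstance : Group (L ≃ₐ[K] L)) with mul_comm := hab }
      (art S (MonoidHom.id (L ≃ₐ[K] L))).ker = Pray S N ⊔ (Nd K L).range := by
  letI : CommGroup (L ≃ₐ[K] L) := { (inferInstance : Group (L ≃ₐ[K] L)) with mul_comm := hab }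
  exact b26_eq hc hab l r hl hn S hS (L ≃ₐ[K] L) (MulEquiv.refl (L ≃ₐ[K] L))

end CFT
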