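import Mathlib
import Pool.Agent.Lib.CFT.D0

/-! # Definitions for MP_32ceeb (Sato-Tate in even degree)

Om: an algebraic closure of the rational numbers (a field of type Type with IsAlgClosure ℚ Om). Its Galois group Om ≃ₐ[ℚ] Om carries the Krull topology of
Mathlib. 𝓞 Om: the ring of all algebraic integers of Om. Inertia groups and Frobenius elements at the prime ideals of 𝓞 Om; the known properties
(Deligne) of the l-adic representations on the cohomology of a smooth projective variety over ℚ, twisted to weight 0. -/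

open NumberField Polynomial

namespace ST32

section general

variable {K : Type} [Field K] {Om : Type} [Field Om] [Algebra K Om]

/-- g is in the inertia group of the prime P of the ring of all algebraic integers: g x - x is in P for all x. -/
def Inert (P : Ideal (𝓞 Om)) (g : Om ≃ₐ[K] Om) : Prop := ∀ x : 𝓞 Om, g • x - x ∈ P

/-- g x = x ^ q modulo P for all x. -/
def FrobAt (q : ℕ) (P : Ideal (𝓞 Om)) (g : Om ≃ₐ[K] Om) : Prop := ∀ x : 𝓞 Om, g • x - x ^ q ∈ P

end general

section rationals

variable {Om : Type} [Field Om] [CharZero Om]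

/-- g is an (arithmetic) Frobenius element at the prime number p: at some prime ideal above p. -/
def IsFrob (p : ℕ) (g : Om ≃ₐ[ℚ] Om) : Prop := ∃ P : Ideal (𝓞 Om), P.IsPrime ∧ (p : 𝓞 Om) ∈ P ∧ FrobAt p P g

/-- The homomorphism f is trivial on all inertia groups above the prime number p. -/
def UnrAt {G : Type} [Monoid G] (f : (Om ≃ₐ[ℚ] Om) →* G) (p : ℕ) : Prop :=
  ∀ P : Ideal (𝓞 Om), P.IsPrime → (p : 𝓞 Om) ∈ P → ∀ g : Om ≃ₐ[ℚ] Om, Inert P g → f g = 1

/-- The known properties of the representation on the cohomology of a smooth projective variety over the rational numbers, in even degree i, twisted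
by i / 2: continuous, unramified outside the finite set S (which contains l); outside S the characteristic polynomial of a Frobenius element at p has rational
coefficients, its complex roots have absolute value 1, and p ^ M times a root is an algebraic integer. -/
structure Deligne (l : ℕ) [Fact l.Prime] (n : ℕ) (S : Finset ℕ) (rho : (Om ≃ₐ[ℚ] Om) →* GL (Fin n) ℚ_[l]) : Prop where
  mem : l ∈ S
  cont : Continuous fun g => (rho g : Matrix (Fin n) (Fin n) ℚ_[l])
  unr : ∀ p : ℕ, p.Prime → p ∉ S → UnrAt rho p
  rat : ∃ M : ℕ, ∀ p : ℕ, p.Prime → p ∉ S → ∀ g : Om ≃ₐ[ℚ] Om, IsFrob p g → ∃ f : ℚ[X],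
    (rho g : Matrix (Fin n) (Fin n) ℚ_[l]).charpoly = f.map (algebraMap ℚ ℚ_[l]) ∧
      ∀ z : ℂ, aeval z f = 0 → ‖z‖ = 1 ∧ IsIntegral ℤ ((p : ℂ) ^ M * z)

end rationals

section numberfield

variable {K : Type} [Field K] [NumberField K] {Om : Type} [Field Om] [Algebra K Om]

/-- The prime ideal P of the ring of all algebraic integers lies above the prime v of the number field K. -/
def Above (v : CFT.Pr K) (P : Ideal (𝓞 Om)) : Prop := P.IsPrime ∧ P.comap (algebraMap (𝓞 K) (𝓞 Om)) = v.asIdeal

/-- g is a Frobenius element at the prime v of K. -/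
def IsFrv (v : CFT.Pr K) (g : Om ≃ₐ[K] Om) : Prop := ∃ P : Ideal (𝓞 Om), Above v P ∧ FrobAt (CFT.Nm v) P g

/-- The homomorphism f is trivial on all inertia groups above the prime v of K. -/
def UnrV {G : Type} [Monoid G] (f : (Om ≃ₐ[K] Om) →* G) (v : CFT.Pr K) : Prop :=
  ∀ P : Ideal (𝓞 Om), Above v P → ∀ g : Om ≃ₐ[K] Om, Inert P g → f g = 1

end numberfield

end ST32
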