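import Mathlib
import Pool.Agent.Lib.CFT.Core1
import Pool.Agent.Lib.H69H.HN

/-! # CFT: the Hasse norm theorem for cyclic extensions (elements in a ray) -/

open NumberField IsDedekindDomain

namespace CFT

variable (K : Type) [Field K] [NumberField K] (L : Type) [Field L] [NumberField L] [Algebra K L]

/-- T8. HASSE NORM THEOREM for cyclic extensions, for elements in a ray (general elements: `hasse_gen`). -/
theorem hasse [IsGalois K L] (hc : IsCyclic (L ≃ₐ[K] L)) (S : Finset (Pr K)) (hS : ∀ v : Pr K, ¬ Unr K L v → v ∈ S) :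
    ∃ N : ℕ, ∀ x : K, Ray S N x → (∀ w : Pr L, below K w ∉ S → (w.asIdeal.inertiaDeg (𝓞 K) : ℤ) ∣ od (below K w) x) →
      ∃ y : L, y ≠ 0 ∧ Algebra.norm K y = x :=
  Pool.Agent.H69H.hasse_of hc S hS (fun N => second_ineq K L S N)

end CFT
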