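import Mathlib

/-! # CFT, module ZL, part 1: homogeneous smooth families

HF d m F: F s is smooth on the nonzero vectors, jointly in s, and homogeneous of degree -(d s + m). DF r F: the derivative in the direction r.
Bop R G x: G x minus the mean value of the G (x + r), r in R. Main estimate: bop_bound. -/

open scoped ContDiff

namespace CFTL

variable {V : Type} [NormedAddCommGroup V] [NormedSpace ℝ V]

/-- Homogeneous smooth families. -/
structure HF (d m : ℝ) (F : ℂ → V → ℂ) : Prop where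
  smooth : ContDiffOn ℝ ∞ (fun p : ℂ × V => F p.1 p.2) {p | p.2 ≠ 0}
  hom : ∀ (s : ℂ) (t : ℝ) (x : V), 0 < t → x ≠ 0 → F s (t • x) = (t : ℂ) ^ (-(d * s + m)) * F s x

/-- The derivative in the direction r. -/
noncomputable def DF (r : V) (F : ℂ → V → ℂ) (s : ℂ) (x : V) : ℂ := fderiv ℝ (F s) x r

theorem isOpen_nz : IsOpen {p : ℂ × V | p.2 ≠ 0} := (isOpen_ne (x := (0 : V))).preimage continuous_snd

theorem HF.diffAt {d m : ℝ} {F : ℂ → V → ℂ} (h : HF d m F) (s : ℂ) {x : V} (hx : x ≠ 0) :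
    HasFDerivAt (F s) ((fderiv ℝ (fun p : ℂ × V => F p.1 p.2) (s, x)).comp (ContinuousLinearMap.inr ℝ ℂ V)) x := by
  have h1 : DifferentiableAt ℝ (fun p : ℂ × V => F p.1 p.2) (s, x) :=
    (h.smooth.contDiffAt (isOpen_nz.mem_nhds hx)).differentiableAt (by simp)
  have h2 : HasFDerivAt (fun y : V => (s, y)) (ContinuousLinearMap.inr ℝ ℂ V) x := hasFDerivAt_prodMk_right s x
  exact h1.hasFDerivAt.comp x h2

theorem HF.differentiableAt {d m : ℝ} {F : ℂ → V → ℂ} (h : HF d m F) (s : ℂ) {x : V} (hx : x ≠ 0) :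
    DifferentiableAt ℝ (F s) x := (h.diffAt s hx).differentiableAt

theorem HF.deriv {d m : ℝ} {F : ℂ → V → ℂ} (h : HF d m F) (r : V) : HF d (m + 1) (DF r F) := by
  constructor
  · have h1 : ContDiffOn ℝ ∞ (fun p : ℂ × V => fderiv ℝ (fun p : ℂ × V => F p.1 p.2) p (0, r)) {p | p.2 ≠ 0} :=
      (h.smooth.fderiv_of_isOpen isOpen_nz (by simp)).clm_apply contDiffOn_const
    refine h1.congr fun p hp => ?_
    unfold DF
    rw [(h.diffAt p.1 hp).fderiv]
    simp
  · intro s t x ht hx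
    have htx : t • x ≠ 0 := smul_ne_zero ht.ne' hx
    have h1 : HasFDerivAt (fun y : V => F s (t • y)) ((fderiv ℝ (F s) (t • x)).comp (t • ContinuousLinearMap.id ℝ V)) x := by
      have h2 : HasFDerivAt (fun y : V => t • y) (t • ContinuousLinearMap.id ℝ V) x :=
        (hasFDerivAt_id x).const_smul t
      exact (h.differentiableAt s htx).hasFDerivAt.comp x h2
    have h3 : HasFDerivAt (fun y : V => (t : ℂ) ^ (-(d * s + m)) * F s y) ((t : ℂ) ^ (-(d * s + m)) • fderiv ℝ (F s) x) x :=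
      (h.differentiableAt s hx).hasFDerivAt.const_mul _
    have h4 : HasFDerivAt (fun y : V => F s (t • y)) ((t : ℂ) ^ (-(d * s + m)) • fderiv ℝ (F s) x) x := by
      refine h3.congr_of_eventuallyEq ?_
      filter_upwards [(isOpen_ne (x := (0 : V))).mem_nhds hx] with y hy
      exact h.hom s t y ht hy
    have h5 := congrArg (fun L => L r) (h1.unique h4)
    simp only [ContinuousLinearMap.comp_apply, ContinuousLinearMap.smul_apply, ContinuousLinearMap.id_apply, map_smul] at h5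
    unfold DF
    have ht0 : (t : ℂ) ≠ 0 := Complex.ofReal_ne_zero.2 ht.ne'
    have h6 : (t : ℂ) * fderiv ℝ (F s) (t • x) r = (t : ℂ) ^ (-(d * s + m)) * fderiv ℝ (F s) x r := by
      rw [← smul_eq_mul (a := (t : ℂ) ^ (-(d * s + m))), ← h5, Complex.real_smul]
    have h7 : (t : ℂ) ^ (-(d * s + ((m + 1 : ℝ) : ℂ))) = (t : ℂ) ^ (-(d * s + m)) * (t : ℂ)⁻¹ := by
      rw [← Complex.cpow_neg_one, ← Complex.cpow_add _ _ ht0]
      congr 1
      push_cast
      ring
    rw [h7]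
    field_simp
    rw [mul_comm, h6]

variable [ProperSpace V]

/-- The basic bound. -/
theorem HF.bound {d m : ℝ} {F : ℂ → V → ℂ} (h : HF d m F) (b : ℝ) : ∃ C : ℝ, 0 ≤ C ∧ ∀ s : ℂ, ‖s‖ ≤ b → ∀ x : V, x ≠ 0 →
    ‖F s x‖ ≤ C * ‖x‖ ^ (-(d * s.re + m)) := by
  have hK : IsCompact (Metric.closedBall (0 : ℂ) b ×ˢ Metric.sphere (0 : V) 1) :=
    (isCompact_closedBall _ _).prod (isCompact_sphere _ _)
  have hc : ContinuousOn (fun p : ℂ × V => F p.1 p.2) (Metric.closedBall (0 : ℂ) b ×ˢ Metric.sphere (0 : V) 1) := by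
    refine h.smooth.continuousOn.mono fun p hp => ?_
    have h1 : ‖p.2‖ = 1 := mem_sphere_zero_iff_norm.1 hp.2
    intro h2
    rw [h2, norm_zero] at h1
    exact zero_ne_one h1
  obtain ⟨C, hC⟩ := hK.exists_bound_of_continuousOn hc
  refine ⟨max C 0, le_max_right _ _, fun s hs x hx => ?_⟩
  have hx0 : 0 < ‖x‖ := norm_pos_iff.2 hx
  have h1 : x = ‖x‖ • (‖x‖⁻¹ • x) := by
    rw [smul_smul, mul_inv_cancel₀ hx0.ne', one_smul]
  have h2 : ‖(‖x‖⁻¹ • x)‖ = 1 := by
    rw [norm_smul, norm_inv, norm_norm, inv_mul_cancel₀ hx0.ne']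
  have h3 : (‖x‖⁻¹ • x) ≠ 0 := by
    intro h4
    rw [h4, norm_zero] at h2
    exact zero_ne_one h2
  have h4 := h.hom s ‖x‖ (‖x‖⁻¹ • x) hx0 h3
  rw [← h1] at h4
  rw [h4, norm_mul, Complex.norm_cpow_eq_rpow_re_of_pos hx0, mul_comm]
  have h5 : (-(d * s + m : ℂ)).re = -(d * s.re + m) := by simp
  rw [h5]
  refine mul_le_mul_of_nonneg_right ?_ (by positivity)
  exact (hC (s, ‖x‖⁻¹ • x) ⟨mem_closedBall_zero_iff.2 hs, mem_sphere_zero_iff_norm.2 h2⟩).trans (le_max_left _ _)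

omit [ProperSpace V]

/-- The operator B. -/
noncomputable def Bop (R : Finset V) (G : V → ℂ) (x : V) : ℂ := G x - (R.card : ℂ)⁻¹ * ∑ r ∈ R, G (x + r)

theorem Bop_eq (R : Finset V) (hR : R.Nonempty) (G : V → ℂ) (x : V) :
    Bop R G x = (R.card : ℂ)⁻¹ * ∑ r ∈ R, (G x - G (x + r)) := by
  have h : (R.card : ℂ) ≠ 0 := Nat.cast_ne_zero.2 (Finset.card_pos.2 hR).ne'
  unfold Bop
  rw [Finset.sum_sub_distrib, Finset.sum_const, nsmul_eq_mul, mul_sub, inv_mul_cancel_left₀ h]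

/-- Line derivatives of the iterates. -/
theorem bop_deriv {R : Finset V} {M : ℝ} (hM0 : 0 ≤ M) (hM : ∀ r ∈ R, ‖r‖ ≤ M) (k : ℕ) (v : V) {G G' : V → ℂ} {ρ : ℝ}
    (h : ∀ y : V, ρ < ‖y‖ → HasDerivAt (fun t : ℝ => G (y + t • v)) (G' y) 0) :
    ∀ y : V, ρ + k * M < ‖y‖ → HasDerivAt (fun t : ℝ => (Bop R)^[k] G (y + t • v)) ((Bop R)^[k] G' y) 0 := by
  induction k generalizing G G' ρ with
  | zero =>
    intro y hy
    have h1 : ρ < ‖y‖ := by simpa using hy
    exact h y h1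
  | succ k ih =>
    intro y hy
    rw [Function.iterate_succ_apply, Function.iterate_succ_apply]
    refine ih (G := Bop R G) (G' := Bop R G') (ρ := ρ + M) (fun z hz => ?_) y ?_
    · unfold Bop
      refine (h z (by linarith)).sub (HasDerivAt.const_mul _ ?_)
      have h1 : ∀ r ∈ R, HasDerivAt (fun t : ℝ => G (z + t • v + r)) (G' (z + r)) 0 := by
        intro r hr
        have h2 : ρ < ‖z + r‖ := by
          have h3 : ‖z‖ ≤ ‖z + r‖ + ‖r‖ := by
            have h4 := norm_sub_le (z + r) r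
            rwa [add_sub_cancel_right] at h4
          have h5 := hM r hr
          linarith
        refine (h (z + r) h2).congr_of_eventuallyEq (Filter.Eventually.of_forall fun t => ?_)
        show G (z + t • v + r) = G (z + r + t • v)
        rw [add_right_comm]
      exact HasDerivAt.fun_sum h1
    · push_cast at hy
      linarith

/-- Comparison of powers of comparable numbers. -/
theorem rpow_cmp {a b e E : ℝ} (ha : 0 < a) (hb : 0 < b) (h1 : a ≤ 2 * b) (h2 : b ≤ 2 * a) (he : |e| ≤ E) :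
    b ^ e ≤ 2 ^ E * a ^ e := by
  have h3 : 0 < b / a := div_pos hb ha
  have h4 : b ^ e = (b / a) ^ e * a ^ e := by
    rw [← Real.mul_rpow h3.le ha.le, div_mul_cancel₀ _ ha.ne']
  rw [h4]
  refine mul_le_mul_of_nonneg_right ?_ (by positivity)
  have h5 : b / a ≤ 2 := (div_le_iff₀ ha).2 h2
  have h6 : 1 / 2 ≤ b / a := (le_div_iff₀ ha).2 (by linarith)
  obtain ⟨he1, he2⟩ := abs_le.1 he
  rcases le_total 0 e with h0 | h0
  · calc (b / a) ^ e ≤ 2 ^ e := Real.rpow_le_rpow h3.le h5 h0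
      _ ≤ 2 ^ E := Real.rpow_le_rpow_of_exponent_le (by norm_num) he2
  · calc (b / a) ^ e ≤ (1 / 2) ^ e := Real.rpow_le_rpow_of_nonpos (by norm_num) h6 h0
      _ = 2 ^ (-e) := by
        rw [one_div, Real.inv_rpow (by norm_num), Real.rpow_neg (by norm_num)]
      _ ≤ 2 ^ E := Real.rpow_le_rpow_of_exponent_le (by norm_num) (by linarith)

/-- MAIN ESTIMATE. -/
theorem bop_bound [ProperSpace V] {d : ℝ} {R : Finset V} (hR : R.Nonempty) (k : ℕ) {m : ℝ} {F : ℂ → V → ℂ} (h : HF d m F)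
    (b : ℝ) : ∃ C ρ : ℝ, 0 ≤ C ∧ 0 < ρ ∧ ∀ s : ℂ, ‖s‖ ≤ b → ∀ x : V, ρ ≤ ‖x‖ →
      ‖(Bop R)^[k] (F s) x‖ ≤ C * ‖x‖ ^ (-(d * s.re + m) - k) := by
  induction k generalizing m F with
  | zero =>
    obtain ⟨C, hC, h1⟩ := h.bound b
    refine ⟨C, 1, hC, one_pos, fun s hs x hx => ?_⟩
    have h2 : x ≠ 0 := by
      rintro rfl
      rw [norm_zero] at hx
      linarith
    simpa using h1 s hs x h2
  | succ k ih =>
    obtain ⟨M, hM0, hM⟩ : ∃ M : ℝ, 0 ≤ M ∧ ∀ r ∈ R, ‖r‖ ≤ M := by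
      refine ⟨∑ r ∈ R, ‖r‖, Finset.sum_nonneg fun _ _ => norm_nonneg _, fun r hr => ?_⟩
      exact Finset.single_le_sum (f := fun r => ‖r‖) (fun _ _ => norm_nonneg _) hr
    have h1 : ∀ r ∈ R, ∃ C ρ : ℝ, 0 ≤ C ∧ 0 < ρ ∧ ∀ s : ℂ, ‖s‖ ≤ b → ∀ x : V, ρ ≤ ‖x‖ →
        ‖(Bop R)^[k] (DF r F s) x‖ ≤ C * ‖x‖ ^ (-(d * s.re + (m + 1)) - k) := fun r _ => ih (h.deriv r)
    choose! C ρ hC hρ hb using h1
    set ρ₀ : ℝ := ∑ r ∈ R, ρ r + (k + 3) * (M + 1) with hρ₀
    set E : ℝ := |d| * b + |m + 1| + k with hE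
    have hρsum : ∀ r ∈ R, ρ r ≤ ∑ r ∈ R, ρ r := fun r hr =>
      Finset.single_le_sum (f := ρ) (fun r hr => (hρ r hr).le) hr
    have hρpos : 0 ≤ ∑ r ∈ R, ρ r := Finset.sum_nonneg fun r hr => (hρ r hr).le
    refine ⟨∑ r ∈ R, 2 ^ E * C r, 2 * ρ₀, Finset.sum_nonneg fun r hr => mul_nonneg (by positivity) (hC r hr), by positivity,
      fun s hs x hx => ?_⟩
    have hx0 : 0 < ‖x‖ := by
      have : 0 < ρ₀ := by positivity
      linarith
    rw [Function.iterate_succ_apply', Bop_eq R hR, norm_mul]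
    have hcard : (1 : ℝ) ≤ R.card := by exact_mod_cast Finset.card_pos.2 hR
    have h2 : ‖(R.card : ℂ)⁻¹‖ ≤ 1 := by
      rw [norm_inv, Complex.norm_natCast]
      exact inv_le_one_of_one_le₀ hcard
    refine (mul_le_of_le_one_left (norm_nonneg _) h2).trans ((norm_sum_le _ _).trans ?_)
    rw [Finset.sum_mul]
    refine Finset.sum_le_sum fun r hr => ?_
    -- the segment
    have hseg : ∀ t ∈ Set.Icc (0 : ℝ) 1, ‖x‖ / 2 ≤ ‖x + t • r‖ ∧ ‖x + t • r‖ ≤ 2 * ‖x‖ := by
      intro t ht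
      have h3 : ‖t • r‖ ≤ M := by
        rw [norm_smul, Real.norm_of_nonneg ht.1]
        calc t * ‖r‖ ≤ 1 * M := mul_le_mul ht.2 (hM r hr) (norm_nonneg _) zero_le_one
          _ = M := one_mul M
      have h4 : M ≤ ‖x‖ / 2 := by
        have : M ≤ ρ₀ := by
          have h5 : (k + 3) * (M + 1) = M + (k * (M + 1) + 2 * M + 3) := by ring
          have h6 : (0 : ℝ) ≤ k * (M + 1) + 2 * M + 3 := by positivity
          linarith
        linarith
      have h5 := norm_add_le x (t • r)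
      have h6 : ‖x‖ ≤ ‖x + t • r‖ + ‖t • r‖ := by
        have h7 := norm_sub_le (x + t • r) (t • r)
        rwa [add_sub_cancel_right] at h7
      constructor <;> linarith
    have hder : ∀ t ∈ Set.Icc (0 : ℝ) 1, HasDerivAt (fun t : ℝ => (Bop R)^[k] (F s) (x + t • r))
        ((Bop R)^[k] (DF r F s) (x + t • r)) t := by
      intro t ht
      have h3 : ∀ y : V, 0 < ‖y‖ → HasDerivAt (fun t : ℝ => F s (y + t • r)) (DF r F s y) 0 := by
        intro y hy
        have h4 := (h.differentiableAt s (norm_pos_iff.1 hy)).hasFDerivAt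
        have h5 : HasDerivAt (fun t : ℝ => y + t • r) r 0 := by
          have h6 := ((hasDerivAt_id (0 : ℝ)).smul_const r).const_add y
          simpa using h6
        have h7 : HasFDerivAt (F s) (fderiv ℝ (F s) y) (y + (0 : ℝ) • r) := by simpa using h4
        exact h7.comp_hasDerivAt (0 : ℝ) h5
      have h4 : 0 + (k : ℝ) * M < ‖x + t • r‖ := by
        have h5 := (hseg t ht).1
        have h6 : (k : ℝ) * M < ρ₀ := by
          have h7 : (k + 3) * (M + 1) = k * M + (k + 3 * M + 3) := by ring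
          have h8 : (0 : ℝ) < k + 3 * M + 3 := by positivity
          linarith
        linarith
      have h5 := bop_deriv hM0 hM k r h3 (x + t • r) h4
      have h6 : HasDerivAt (fun u : ℝ => u - t) 1 t := (hasDerivAt_id t).sub_const t
      have h7 : HasDerivAt (fun u : ℝ => (Bop R)^[k] (F s) (x + t • r + u • r)) ((Bop R)^[k] (DF r F s) (x + t • r)) (t - t) := by
        rw [sub_self]
        exact h5
      have h8 := HasDerivAt.scomp (h := fun u : ℝ => u - t) t h7 h6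
      rw [one_smul] at h8
      refine h8.congr_of_eventuallyEq (Filter.Eventually.of_forall fun u => ?_)
      show (Bop R)^[k] (F s) (x + u • r) = (Bop R)^[k] (F s) (x + t • r + (u - t) • r)
      rw [add_assoc, ← add_smul, add_sub_cancel]
    have hbd : ∀ t ∈ Set.Icc (0 : ℝ) 1, ‖(Bop R)^[k] (DF r F s) (x + t • r)‖ ≤
        2 ^ E * C r * ‖x‖ ^ (-(d * s.re + m) - (k + 1 : ℕ)) := by
      intro t ht
      obtain ⟨g1, g2⟩ := hseg t ht
      have h3 : ρ r ≤ ‖x + t • r‖ := by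
        have h4 := hρsum r hr
        have h5 : 0 ≤ (k + 3) * (M + 1) := by positivity
        linarith
      have h4 := hb r hr s hs (x + t • r) h3
      refine h4.trans ?_
      have h5 : (-(d * s.re + (m + 1)) - k : ℝ) = -(d * s.re + m) - (k + 1 : ℕ) := by
        push_cast
        ring
      rw [h5, mul_comm (2 ^ E) (C r), mul_assoc]
      refine mul_le_mul_of_nonneg_left ?_ (hC r hr)
      refine rpow_cmp hx0 (by linarith) (by linarith) (by linarith) ?_
      rw [← h5]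
      have h6 : |d * s.re| ≤ |d| * b := by
        rw [abs_mul]
        exact mul_le_mul_of_nonneg_left ((Complex.abs_re_le_norm s).trans hs) (abs_nonneg _)
      have h7 : -(d * s.re + (m + 1)) - (k : ℝ) = -(d * s.re) + -(m + 1) + -(k : ℝ) := by ring
      rw [h7]
      refine (abs_add_three _ _ _).trans ?_
      rw [abs_neg, abs_neg, abs_neg, Nat.abs_cast]
      linarith
    have hmv := (convex_Icc (0 : ℝ) 1).norm_image_sub_le_of_norm_hasDerivWithin_le
      (f := fun t : ℝ => (Bop R)^[k] (F s) (x + t • r)) (fun t ht => (hder t ht).hasDerivWithinAt) hbd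
      (Set.left_mem_Icc.2 zero_le_one) (Set.right_mem_Icc.2 zero_le_one)
    simp only [one_smul, zero_smul, add_zero, sub_zero, norm_one, mul_one] at hmv
    rw [norm_sub_rev]
    exact hmv

end CFTL
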