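import Pool.Agent.Lib.CFT.D1

/-! # CFT, module ZL: statement of the density of the primes in a ray class (lower bound) -/

open NumberField IsDedekindDomain

namespace CFTL

open CFT

/-- The primes outside S in the class of D modulo Pray S N have positive density (in the sense of Dirichlet). -/
def ClassDens (K : Type) [Field K] [NumberField K] : Prop :=
  ∀ (S : Finset (Pr K)) (N : ℕ) (D : Dv K), ∃ δ C : ℝ, 0 < δ ∧ ∀ s ∈ Set.Ioc (1 : ℝ) 2,
    δ * Real.log (1 / (s - 1)) - C ≤ ∑' v : Pr K, Set.indicator {v : Pr K | v ∉ S ∧ Finsupp.single v 1 - D ∈ Pray S N}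
      (fun v => (Nm v : ℝ) ^ (-s)) v

end CFTL
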