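import Pool.Agent.Lib.CFT.L9
import Pool.Agent.Lib.CFT.LD
import Pool.Agent.Lib.CFTC.C3
import Pool.Agent.Lib.CFT.ZF

/-! # CFT, module ZL, L10: the primes in a class of a ray class group (Dirichlet density) -/

open NumberField IsDedekindDomain Filter Topology

namespace CFTL

open CFT CFTY CFTZ H55R

/-- A logarithm of an analytic function without zeros is bounded. -/
theorem log_bdd {Λ G : ℂ → ℂ} (hG : DifferentiableOn ℂ G {s | 0 < s.re}) (hΛ : ∀ s : ℂ, 1 < s.re → DifferentiableAt ℂ Λ s)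
    (he : ∀ s : ℂ, 1 < s.re → Complex.exp (Λ s) = G s) (h1 : G 1 ≠ 0) : ∃ B : ℝ, ∀ s ∈ Set.Ioc (1 : ℝ) 2, ‖Λ s‖ ≤ B := by
  have hopen : IsOpen {s : ℂ | 0 < s.re} := isOpen_lt continuous_const Complex.continuous_re
  have hne : ∀ x ∈ Set.Icc (1 : ℝ) 2, G (x : ℂ) ≠ 0 := by
    intro x hx
    rcases eq_or_lt_of_le hx.1 with h | h
    · rw [← h, Complex.ofReal_one]
      exact h1
    · rw [← he x (by rw [Complex.ofReal_re]; exact h)]
      exact Complex.exp_ne_zero _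
  have hmem : ∀ x ∈ Set.Icc (1 : ℝ) 2, (x : ℂ) ∈ {s : ℂ | 0 < s.re} := by
    intro x hx
    show 0 < (x : ℂ).re
    rw [Complex.ofReal_re]
    linarith [hx.1]
  have hc : ContinuousOn (fun x : ℝ => deriv G (x : ℂ) / G (x : ℂ)) (Set.Icc 1 2) := by
    refine ContinuousOn.div ?_ ?_ hne
    · exact (hG.deriv hopen).continuousOn.comp Complex.continuous_ofReal.continuousOn hmem
    · exact hG.continuousOn.comp Complex.continuous_ofReal.continuousOn hmem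
  obtain ⟨M, hM⟩ := isCompact_Icc.exists_bound_of_continuousOn hc
  have hd : ∀ x ∈ Set.Ioc (1 : ℝ) 2, HasDerivWithinAt (fun x : ℝ => Λ (x : ℂ)) (deriv G (x : ℂ) / G (x : ℂ)) (Set.Ioc 1 2) x := by
    intro x hx
    have hx1 : 1 < (x : ℂ).re := by
      rw [Complex.ofReal_re]
      exact hx.1
    have h2 := (hΛ x hx1).hasDerivAt
    have h3 := h2.cexp
    have h4 : (fun s => Complex.exp (Λ s)) =ᶠ[𝓝 (x : ℂ)] G := by
      filter_upwards [(isOpen_lt continuous_const Complex.continuous_re).mem_nhds hx1] with s hs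
      exact he s hs
    have h5 := h4.deriv_eq
    rw [h3.deriv, he x hx1] at h5
    have h6 : deriv Λ (x : ℂ) = deriv G (x : ℂ) / G (x : ℂ) := by
      rw [← h5]
      field_simp [hne x ⟨hx.1.le, hx.2⟩]
    rw [← h6]
    exact h2.comp_ofReal.hasDerivWithinAt
  refine ⟨M + ‖Λ ((2 : ℝ) : ℂ)‖, fun x hx => ?_⟩
  have h7 := Convex.norm_image_sub_le_of_norm_hasDerivWithin_le hd (fun y hy => hM y ⟨hy.1.le, hy.2⟩) (convex_Ioc 1 2)
    (x := 2) (y := x) ⟨by norm_num, le_rfl⟩ hx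
  have h8 : ‖x - 2‖ ≤ 1 := by
    rw [Real.norm_eq_abs, abs_le]
    constructor
    · linarith [hx.1]
    · linarith [hx.2]
  have hM0 : 0 ≤ M := (norm_nonneg _).trans (hM 1 ⟨le_rfl, by norm_num⟩)
  have h9 : ‖Λ x‖ ≤ ‖Λ x - Λ ((2 : ℝ) : ℂ)‖ + ‖Λ ((2 : ℝ) : ℂ)‖ := by
    have := norm_add_le (Λ x - Λ ((2 : ℝ) : ℂ)) (Λ ((2 : ℝ) : ℂ))
    rwa [sub_add_cancel] at this
  have h10 : M * ‖x - 2‖ ≤ M := mul_le_of_le_one_right hM0 h8
  linarith

variable {K : Type} [Field K] [NumberField K]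

theorem ps_bdd (hf : ∀ (S : Finset (Pr K)) (N : ℕ), (Pray S N).FiniteIndex) (S : Finset (Pr K)) (N : ℕ)
    (H : AddSubgroup (Dv K)) (hH : Pray S N ≤ H) [Fintype (Dv K ⧸ H)] (ψ : AddChar (Dv K ⧸ H) ℂ) (hψ : ψ ≠ 0) :
    ∃ B : ℝ, ∀ s ∈ Set.Ioc (1 : ℝ) 2, ‖CFTC.Ps (CFTC.pr (chI S (chq H ψ))) s‖ ≤ B := by
  have hh : ∀ a : Ideal (𝓞 K), ‖chI S (chq H ψ) a‖ ≤ 1 := dd_norm_tI _ _ (chq_norm H ψ)
  have hw : ∀ v : Pr K, ‖CFTC.pr (chI S (chq H ψ)) v‖ ≤ 1 := fun v => hh _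
  obtain ⟨G, hG1, hG2⟩ := cont_chi hf S N (chq H ψ) (fun D hD => chq_ker H ψ (hH hD)) (chq_norm H ψ) (chq_ne H hψ) (dg K)
  rw [hpk_dg] at hG1
  have h1 := nonvan_aux hf S N H hH ψ hψ G hG1 hG2
  have hE := CFTC.er_diff hw
  have hopen : IsOpen {s : ℂ | 1 / 2 < s.re} := isOpen_lt continuous_const Complex.continuous_re
  obtain ⟨B, hB⟩ := log_bdd (Λ := fun s => CFTC.Ps (CFTC.pr (chI S (chq H ψ))) s + CFTC.Er (CFTC.pr (chI S (chq H ψ))) s) hG1
    (fun s hs => by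
      refine (CFTC.ps_deriv hw hs).differentiableAt.add ?_
      exact hE.differentiableAt (hopen.mem_nhds (by
        show 1 / 2 < s.re
        linarith)))
    (fun s hs => by
      rw [hG2 s hs]
      exact CFTC.exp_eq _ hh hs) h1
  have hc : ContinuousOn (fun x : ℝ => CFTC.Er (CFTC.pr (chI S (chq H ψ))) (x : ℂ)) (Set.Icc 1 2) := by
    refine hE.continuousOn.comp Complex.continuous_ofReal.continuousOn fun x hx => ?_
    show 1 / 2 < (x : ℂ).re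
    rw [Complex.ofReal_re]
    linarith [hx.1]
  obtain ⟨M, hM⟩ := isCompact_Icc.exists_bound_of_continuousOn hc
  refine ⟨B + M, fun s hs => ?_⟩
  have h2 := hB s hs
  have h3 := hM s ⟨hs.1.le, hs.2⟩
  have h4 := norm_sub_le (CFTC.Ps (CFTC.pr (chI S (chq H ψ))) s + CFTC.Er (CFTC.pr (chI S (chq H ψ))) s) (CFTC.Er (CFTC.pr (chI S (chq H ψ))) s)
  rw [add_sub_cancel_right] at h4
  linarith

open Classical in
theorem orth_class (S : Finset (Pr K)) (H : AddSubgroup (Dv K)) [Fintype (Dv K ⧸ H)] (D : Dv K) (v : Pl K) :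
    ∑ ψ : AddChar (Dv K ⧸ H) ℂ, ψ (QuotientAddGroup.mk (-D)) * chI S (chq H ψ) v.asIdeal =
      if v ∉ S ∧ (Finsupp.single v 1 : Dv K) - D ∈ H then (Nat.card (Dv K ⧸ H) : ℂ) else 0 := by
  by_cases hS : v ∈ S
  · rw [if_neg fun h => h.1 hS]
    refine Finset.sum_eq_zero fun ψ _ => ?_
    rw [chI_prime_mem S _ hS, mul_zero]
  · have h1 : ∀ ψ : AddChar (Dv K ⧸ H) ℂ, ψ (QuotientAddGroup.mk (-D)) * chI S (chq H ψ) v.asIdeal =
        ψ (QuotientAddGroup.mk ((Finsupp.single v 1 : Dv K) - D)) := by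
      intro ψ
      rw [chI_prime S _ hS, chq_cphi, ← AddChar.map_add_eq_mul, ← QuotientAddGroup.mk_add, neg_add_eq_sub]
    rw [Finset.sum_congr rfl fun ψ _ => h1 ψ, AddChar.sum_apply_eq_ite]
    by_cases h : (Finsupp.single v 1 : Dv K) - D ∈ H
    · rw [if_pos ((QuotientAddGroup.eq_zero_iff _).2 h), if_pos ⟨hS, h⟩, Nat.card_eq_fintype_card]
    · rw [if_neg fun h' => h ((QuotientAddGroup.eq_zero_iff _).1 h'), if_neg fun h' => h h'.2]

theorem class_sum (hf : ∀ (S : Finset (Pr K)) (N : ℕ), (Pray S N).FiniteIndex) (S : Finset (Pr K)) (N : ℕ)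
    (H : AddSubgroup (Dv K)) (hH : Pray S N ≤ H) [H.FiniteIndex] (D : Dv K) :
    ∃ C : ℝ, ∀ s ∈ Set.Ioc (1 : ℝ) 2,
      |(∑' v : Pr K, Set.indicator {v : Pr K | v ∉ S ∧ Finsupp.single v 1 - D ∈ H} (fun v => (Nm v : ℝ) ^ (-s)) v) -
        1 / (H.index : ℝ) * Real.log (1 / (s - 1))| ≤ C := by
  classical
  have := AddSubgroup.finite_quotient_of_finiteIndex (H := H)
  have := Fintype.ofFinite (Dv K ⧸ H)
  have hex : ∀ ψ : AddChar (Dv K ⧸ H) ℂ, ∃ B : ℝ, ψ ≠ 0 → ∀ s ∈ Set.Ioc (1 : ℝ) 2,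
      ‖CFTC.Ps (CFTC.pr (chI S (chq H ψ))) s‖ ≤ B := by
    intro ψ
    by_cases hψ : ψ = 0
    · exact ⟨0, fun h => absurd hψ h⟩
    · obtain ⟨B, hB⟩ := ps_bdd hf S N H hH ψ hψ
      exact ⟨B, fun _ => hB⟩
  choose B hB using hex
  obtain ⟨C, hC⟩ := prime_zeta K
  set g : ℕ := Nat.card (Dv K ⧸ H) with hg
  have hg0 : (0 : ℝ) < g := by exact_mod_cast Nat.card_pos
  have hidx : H.index = g := rfl
  refine ⟨(1 / (g : ℝ)) * (C + S.card + ∑ ψ ∈ Finset.univ.erase (0 : AddChar (Dv K ⧸ H) ℂ), B ψ), fun s hs => ?_⟩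
  have hs1 : 1 < (s : ℂ).re := by
    rw [Complex.ofReal_re]
    exact hs.1
  set P : ℝ := ∑' v : Pr K, Set.indicator {v : Pr K | v ∉ S ∧ Finsupp.single v 1 - D ∈ H} (fun v => (Nm v : ℝ) ^ (-s)) v with hP
  have hcp : ∀ v : Pr K, (Nm v : ℂ) ^ (-(s : ℂ)) = (((Nm v : ℝ) ^ (-s) : ℝ) : ℂ) := by
    intro v
    rw [Complex.ofReal_cpow (Nat.cast_nonneg _)]
    push_cast
    rfl
  have hwb : ∀ (ψ : AddChar (Dv K ⧸ H) ℂ) (v : Pr K), ‖CFTC.pr (chI S (chq H ψ)) v‖ ≤ 1 := fun ψ v =>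
    dd_norm_tI _ _ (chq_norm H ψ) _
  have hsummand := fun ψ : AddChar (Dv K ⧸ H) ℂ => CFTC.summ_w (hwb ψ) hs1
  -- orthogonality
  have e1 : ((g : ℝ) * P : ℝ) = ∑ ψ : AddChar (Dv K ⧸ H) ℂ, ψ (QuotientAddGroup.mk (-D)) * CFTC.Ps (CFTC.pr (chI S (chq H ψ))) s := by
    have e2 : ∀ ψ : AddChar (Dv K ⧸ H) ℂ, ψ (QuotientAddGroup.mk (-D)) * CFTC.Ps (CFTC.pr (chI S (chq H ψ))) s =
        ∑' v : Pr K, ψ (QuotientAddGroup.mk (-D)) * (CFTC.pr (chI S (chq H ψ)) v * (Nm v : ℂ) ^ (-(s : ℂ))) := by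
      intro ψ
      rw [tsum_mul_left]
      rfl
    rw [Finset.sum_congr rfl fun ψ _ => e2 ψ, ← Summable.tsum_finsetSum fun ψ _ => (hsummand ψ).mul_left _]
    rw [hP, ← tsum_mul_left, Complex.ofReal_tsum]
    refine tsum_congr fun v => ?_
    have e3 : ∑ ψ : AddChar (Dv K ⧸ H) ℂ, ψ (QuotientAddGroup.mk (-D)) * (CFTC.pr (chI S (chq H ψ)) v * (Nm v : ℂ) ^ (-(s : ℂ))) =
        (if v ∉ S ∧ (Finsupp.single v 1 : Dv K) - D ∈ H then (Nat.card (Dv K ⧸ H) : ℂ) else 0) * (Nm v : ℂ) ^ (-(s : ℂ)) := by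
      rw [← orth_class S H D v, Finset.sum_mul]
      refine Finset.sum_congr rfl fun ψ _ => ?_
      rw [← mul_assoc]
      rfl
    rw [e3, hcp v]
    by_cases h : v ∉ S ∧ (Finsupp.single v 1 : Dv K) - D ∈ H
    · rw [if_pos h, Set.indicator_of_mem (by exact h), Complex.ofReal_mul, Complex.ofReal_natCast]
    · rw [if_neg h, Set.indicator_of_notMem (by exact h), mul_zero, zero_mul, Complex.ofReal_zero]
  -- the trivial character
  set T : ℝ := ∑' v : Pr K, (Nm v : ℝ) ^ (-s) with hT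
  have hTs : Summable fun v : Pr K => (Nm v : ℝ) ^ (-s) := dd_summable s hs.1
  have e4 : ‖CFTC.Ps (CFTC.pr (chI S (chq H 0))) s - (T : ℂ)‖ ≤ S.card := by
    have e5 : (T : ℂ) = ∑' v : Pr K, (Nm v : ℂ) ^ (-(s : ℂ)) := by
      rw [hT, Complex.ofReal_tsum]
      exact tsum_congr fun v => (hcp v).symm
    have e6 : Summable fun v : Pr K => (Nm v : ℂ) ^ (-(s : ℂ)) := by
      have := (Complex.ofRealCLM.summable hTs)
      refine this.congr fun v => ?_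
      exact (hcp v).symm
    rw [e5]
    unfold CFTC.Ps
    rw [← Summable.tsum_sub (hsummand 0) e6]
    have e7 : ∑' v : Pr K, (CFTC.pr (chI S (chq H 0)) v * (Nm v : ℂ) ^ (-(s : ℂ)) - (Nm v : ℂ) ^ (-(s : ℂ))) =
        ∑ v ∈ S, (CFTC.pr (chI S (chq H 0)) v * (Nm v : ℂ) ^ (-(s : ℂ)) - (Nm v : ℂ) ^ (-(s : ℂ))) := by
      refine tsum_eq_sum fun v hv => ?_
      have e8 : CFTC.pr (chI S (chq H 0)) v = 1 := by
        show chI S (chq H 0) v.asIdeal = 1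
        rw [chI_prime S _ hv, chq_cphi, AddChar.zero_apply]
      rw [e8, one_mul, sub_self]
    rw [e7]
    refine (norm_sum_le _ _).trans ?_
    have e9 : ∀ v ∈ S, ‖CFTC.pr (chI S (chq H 0)) v * (Nm v : ℂ) ^ (-(s : ℂ)) - (Nm v : ℂ) ^ (-(s : ℂ))‖ ≤ 1 := by
      intro v hv
      have e8 : CFTC.pr (chI S (chq H 0)) v = 0 := chI_prime_mem S _ hv
      rw [e8, zero_mul, zero_sub, norm_neg, hcp v, Complex.norm_real, Real.norm_of_nonneg (by positivity)]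
      exact (dd_half v s hs.1.le).trans (by norm_num)
    refine (Finset.sum_le_sum e9).trans ?_
    rw [Finset.sum_const, nsmul_eq_mul, mul_one]
  have e10 : ‖(((g : ℝ) * P - T : ℝ) : ℂ)‖ ≤ S.card + ∑ ψ ∈ Finset.univ.erase (0 : AddChar (Dv K ⧸ H) ℂ), B ψ := by
    rw [Complex.ofReal_sub, e1, ← Finset.add_sum_erase Finset.univ _ (Finset.mem_univ (0 : AddChar (Dv K ⧸ H) ℂ)),
      AddChar.zero_apply, one_mul, add_sub_right_comm]
    refine (norm_add_le _ _).trans (add_le_add e4 ?_)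
    refine (norm_sum_le _ _).trans (Finset.sum_le_sum fun ψ hψ => ?_)
    rw [norm_mul, ψ.norm_apply, one_mul]
    exact hB ψ (Finset.ne_of_mem_erase hψ) s hs
  rw [Complex.norm_real, Real.norm_eq_abs] at e10
  have e11 := hC s hs
  have e12 : ∑' W : Pl K, (Ideal.absNorm W.asIdeal : ℝ) ^ (-s) = T := rfl
  rw [e12] at e11
  have e13 : |(g : ℝ) * P - Real.log (1 / (s - 1))| ≤ C + S.card + ∑ ψ ∈ Finset.univ.erase (0 : AddChar (Dv K ⧸ H) ℂ), B ψ := by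
    have e14 : (g : ℝ) * P - Real.log (1 / (s - 1)) = ((g : ℝ) * P - T) + (T - Real.log (1 / (s - 1))) := by ring
    rw [e14]
    refine (abs_add_le _ _).trans ?_
    linarith
  have e15 : P - 1 / (H.index : ℝ) * Real.log (1 / (s - 1)) = 1 / (g : ℝ) * ((g : ℝ) * P - Real.log (1 / (s - 1))) := by
    rw [hidx]
    field_simp
  rw [e15, abs_mul, abs_of_pos (by positivity)]
  exact mul_le_mul_of_nonneg_left e13 (by positivity)

/-- The primes in a ray class have positive density. -/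
theorem class_dens (K : Type) [Field K] [NumberField K] : ClassDens K := by
  intro S N D
  have := pray_fin S N
  obtain ⟨C, hC⟩ := class_sum (fun S N => pray_fin S N) S N (Pray S N) le_rfl D
  have hi : (0 : ℝ) < (Pray S N).index := by
    have := AddSubgroup.FiniteIndex.index_ne_zero (H := Pray S N)
    exact_mod_cast Nat.pos_of_ne_zero this
  refine ⟨1 / ((Pray S N).index : ℝ), C, by positivity, fun s hs => ?_⟩
  have h1 := (abs_le.1 (hC s hs)).1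
  linarith

end CFTL
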