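import Mathlib

/-! # CFT module Y, chunk Y29: gluing of quotients of analytic functions (pure complex analysis) -/

namespace CFTY

/-- PROOF. `M z = H i z / D i z` for some `i` with `D i z ≠ 0` (choice; 0 if there is none). `H i * D j = H j * D i` on `V` (both are `D i D j L`), so on `U` by the identity theorem
(`DifferentiableOn.analyticOnNhd`, `AnalyticOnNhd.eqOn_of_preconnected_of_eventuallyEq`). So `M z = H j z / D j z` for EVERY `j` with `D j z ≠ 0`; near `z` this is one
differentiable function. -/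
theorem glue {ι : Type*} {U V : Set ℂ} (hU : IsOpen U) (hUc : IsPreconnected U) (hV : IsOpen V) (hVne : V.Nonempty)
    (hVU : V ⊆ U) (L : ℂ → ℂ) (D H : ι → ℂ → ℂ) (hD : ∀ i, DifferentiableOn ℂ (D i) U)
    (hH : ∀ i, DifferentiableOn ℂ (H i) U) (hDH : ∀ i, ∀ z ∈ V, H i z = D i z * L z)
    (hne : ∀ z ∈ U, ∃ i, D i z ≠ 0) :
    ∃ M : ℂ → ℂ, DifferentiableOn ℂ M U ∧ ∀ z ∈ V, M z = L z := by
  classical
  have key : ∀ i j, ∀ z ∈ U, H i z * D j z = H j z * D i z := by
    intro i j
    have h1 : AnalyticOnNhd ℂ (fun z => H i z * D j z) U := ((hH i).mul (hD j)).analyticOnNhd hU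
    have h2 : AnalyticOnNhd ℂ (fun z => H j z * D i z) U := ((hH j).mul (hD i)).analyticOnNhd hU
    obtain ⟨z0, hz0⟩ := hVne
    have h3 := h1.eqOn_of_preconnected_of_eventuallyEq h2 hUc (hVU hz0) (by
      filter_upwards [hV.mem_nhds hz0] with z hz
      rw [hDH i z hz, hDH j z hz]
      ring)
    intro z hz
    exact h3 hz
  let M : ℂ → ℂ := fun z => if h : ∃ i, D i z ≠ 0 then H h.choose z / D h.choose z else 0
  have hM : ∀ z ∈ U, ∀ j, D j z ≠ 0 → M z = H j z / D j z := by
    intro z hz j hj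
    have h : ∃ i, D i z ≠ 0 := ⟨j, hj⟩
    show (if h : ∃ i, D i z ≠ 0 then H h.choose z / D h.choose z else 0) = _
    rw [dif_pos h, div_eq_div_iff h.choose_spec hj]
    exact key _ _ z hz
  refine ⟨M, ?_, ?_⟩
  · intro z hz
    obtain ⟨j, hj⟩ := hne z hz
    have hc : ContinuousAt (D j) z := ((hD j).differentiableAt (hU.mem_nhds hz)).continuousAt
    have hev : ∀ᶠ w in nhds z, D j w ≠ 0 := hc.eventually_ne hj
    have h1 : DifferentiableAt ℂ (fun w => H j w / D j w) z :=
      ((hH j).differentiableAt (hU.mem_nhds hz)).div ((hD j).differentiableAt (hU.mem_nhds hz)) hj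
    have h2 : M =ᶠ[nhds z] fun w => H j w / D j w := by
      filter_upwards [hev, hU.mem_nhds hz] with w hw hwU
      exact hM w hwU j hw
    exact (h1.congr_of_eventuallyEq h2).differentiableWithinAt
  · intro z hz
    obtain ⟨j, hj⟩ := hne z (hVU hz)
    rw [hM z (hVU hz) j hj, hDH j z hz]
    field_simp

end CFTY
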