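import Mathlib
import Pool.Agent.Lib.CFT.Y30
import Pool.Agent.Lib.CFT.Y29

/-! # CFT module Y, chunk Y30B: Hecke L-functions, analytic continuation -/

open NumberField IsDedekindDomain

namespace CFTY

open CFT

variable {K : Type} [Field K] [NumberField K]

theorem y30b_open : IsOpen (HP K) := isOpen_lt continuous_const Complex.continuous_re

theorem y30b_conn : IsPreconnected (HP K) := (convex_halfSpace_re_gt _).isPreconnected

theorem y30b_sub : {s : ℂ | 1 < s.re} ⊆ HP K := by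
  intro s hs
  have h1 : (1 : ℝ) < s.re := hs
  have h2 : 0 < 1 / (dg K : ℝ) := by
    have : 1 ≤ dg K := dg_pos
    positivity
  show 1 - 1 / (dg K : ℝ) < s.re
  linarith

theorem y30b_ne : ({s : ℂ | 1 < s.re}).Nonempty := ⟨2, by
  show (1 : ℝ) < (2 : ℂ).re
  norm_num⟩

theorem y30b_cpow {b : Ideal (𝓞 K)} (hb : b ≠ ⊥) : Differentiable ℂ fun s : ℂ => (Ideal.absNorm b : ℂ) ^ (1 - s) :=
  ((differentiable_const _).sub differentiable_id).const_cpow (Or.inl (y24_norm_ne hb))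

/-- Hecke L-functions are analytic beyond the line re s = 1 -/
theorem hecke_entire (hf : ∀ (S : Finset (Pr K)) (N : ℕ), (Pray S N).FiniteIndex) {m : Ideal (𝓞 K)} (hm : m ≠ ⊥)
    {n : (K →+* ℂ) → ℤ} {χ : Ideal (𝓞 K) →*₀ ℂ} (hχ : HCh m (typ n) χ)
    (h1 : ∃ b : Ideal (𝓞 K), b ≠ ⊥ ∧ IsCoprime b m ∧ χ b ≠ 1) :
    ∃ H : ℂ → ℂ, DifferentiableOn ℂ H (HP K) ∧ ∀ s : ℂ, 1 < s.re → H s = Lc χ s := by
  have hex : ∀ b : {b : Ideal (𝓞 K) // b ≠ ⊥ ∧ IsCoprime b m}, ∃ H : ℂ → ℂ, DifferentiableOn ℂ H (HP K) ∧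
      ∀ s : ℂ, 1 < s.re → H s = (χ b.1 * (Ideal.absNorm b.1 : ℂ) ^ (1 - s) - 1) * Lc χ s := fun b =>
    multiples hf hm (LL_typ n) (Bd_typ n) hχ b.2.1 b.2.2
  choose H hH1 hH2 using hex
  refine glue y30b_open y30b_conn (isOpen_lt continuous_const Complex.continuous_re) y30b_ne y30b_sub (Lc χ)
    (fun b : {b : Ideal (𝓞 K) // b ≠ ⊥ ∧ IsCoprime b m} => fun s => χ b.1 * (Ideal.absNorm b.1 : ℂ) ^ (1 - s) - 1)
    H (fun b => ?_) hH1 hH2 (fun z _ => ?_)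
  · exact (((y30b_cpow b.2.1).const_mul _).sub_const _).differentiableOn
  · by_contra hcon
    have h2 : ∀ b : Ideal (𝓞 K), b ≠ ⊥ → IsCoprime b m → χ b * (Ideal.absNorm b : ℂ) ^ (1 - z) = 1 := by
      intro b hb hbm
      by_contra hne
      exact hcon ⟨⟨b, hb, hbm⟩, sub_ne_zero.2 hne⟩
    have h3 := excep hm hχ h2
    obtain ⟨b, hb, hbm, hb1⟩ := h1
    have h4 := h2 b hb hbm
    rw [h3, sub_self, Complex.cpow_zero, mul_one] at h4
    exact hb1 h4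

/-- the pole of the L-function of the trivial character -/
theorem hecke_pole (hf : ∀ (S : Finset (Pr K)) (N : ℕ), (Pray S N).FiniteIndex) {m : Ideal (𝓞 K)} (hm : m ≠ ⊥)
    {n : (K →+* ℂ) → ℤ} {χ : Ideal (𝓞 K) →*₀ ℂ} (hχ : HCh m (typ n) χ)
    (h1 : ∀ b : Ideal (𝓞 K), b ≠ ⊥ → IsCoprime b m → χ b = 1) :
    ∃ H : ℂ → ℂ, DifferentiableOn ℂ H (HP K) ∧ ∀ s : ℂ, 1 < s.re → H s = (s - 1) * Lc χ s := by
  have hex : ∀ b : {b : Ideal (𝓞 K) // b ≠ ⊥ ∧ IsCoprime b m}, ∃ H : ℂ → ℂ, DifferentiableOn ℂ H (HP K) ∧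
      ∀ s : ℂ, 1 < s.re → H s = (χ b.1 * (Ideal.absNorm b.1 : ℂ) ^ (1 - s) - 1) * Lc χ s := fun b =>
    multiples hf hm (LL_typ n) (Bd_typ n) hχ b.2.1 b.2.2
  choose H hH1 hH2 using hex
  have hds : ∀ (b : Ideal (𝓞 K)) (s : ℂ), (s - 1) * dslope (fun s : ℂ => (Ideal.absNorm b : ℂ) ^ (1 - s)) 1 s =
      (Ideal.absNorm b : ℂ) ^ (1 - s) - 1 := by
    intro b s
    have h := sub_smul_dslope (fun s : ℂ => (Ideal.absNorm b : ℂ) ^ (1 - s)) 1 s
    rw [smul_eq_mul] at h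
    rw [h, sub_self, Complex.cpow_zero]
  refine glue y30b_open y30b_conn (isOpen_lt continuous_const Complex.continuous_re) y30b_ne y30b_sub
    (fun s => (s - 1) * Lc χ s)
    (fun b : {b : Ideal (𝓞 K) // b ≠ ⊥ ∧ IsCoprime b m} => dslope (fun s : ℂ => (Ideal.absNorm b.1 : ℂ) ^ (1 - s)) 1)
    H (fun b => ?_) hH1 (fun b s hs => ?_) (fun z _ => ?_)
  · refine (Complex.differentiableOn_dslope ?_).2 (y30b_cpow b.2.1).differentiableOn
    refine y30b_open.mem_nhds ?_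
    have h2 : 0 < 1 / (dg K : ℝ) := by
      have : 1 ≤ dg K := dg_pos
      positivity
    show 1 - 1 / (dg K : ℝ) < (1 : ℂ).re
    rw [Complex.one_re]
    linarith
  · rw [hH2 b s hs, h1 b.1 b.2.1 b.2.2, one_mul, ← hds]
    ring
  · by_cases hz : z = 1
    · obtain ⟨h2, h3, -, h5⟩ := y30_ideal hχ 1
      refine ⟨⟨_, h2, h3⟩, ?_⟩
      rw [hz]
      show dslope (fun s : ℂ => (Ideal.absNorm (Ideal.span {((1 + 1 * Ideal.absNorm m : ℕ) : 𝓞 K)}) : ℂ) ^ (1 - s)) 1 1 ≠ 0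
      rw [dslope_same]
      have hd : HasDerivAt (fun s : ℂ => (Ideal.absNorm (Ideal.span {((1 + 1 * Ideal.absNorm m : ℕ) : 𝓞 K)}) : ℂ) ^ (1 - s))
          ((Ideal.absNorm (Ideal.span {((1 + 1 * Ideal.absNorm m : ℕ) : 𝓞 K)}) : ℂ) ^ ((1 : ℂ) - 1) *
            Complex.log (Ideal.absNorm (Ideal.span {((1 + 1 * Ideal.absNorm m : ℕ) : 𝓞 K)}) : ℂ) * (-1)) 1 :=
        ((hasDerivAt_id (1 : ℂ)).const_sub 1).const_cpow (Or.inl (y24_norm_ne h2))
      rw [hd.deriv, sub_self, Complex.cpow_zero, one_mul, h5, ← Complex.natCast_log]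
      have hM1 : 1 ≤ Ideal.absNorm m := Nat.one_le_iff_ne_zero.2 fun h0 => hm (Ideal.absNorm_eq_zero_iff.1 h0)
      have h6 : 1 < (1 + 1 * Ideal.absNorm m) ^ dg K :=
        Nat.one_lt_pow (by have := dg_pos (K := K); omega) (by omega)
      have h7 : 0 < Real.log (((1 + 1 * Ideal.absNorm m) ^ dg K : ℕ) : ℝ) := Real.log_pos (by exact_mod_cast h6)
      exact mul_ne_zero (Complex.ofReal_ne_zero.2 h7.ne') (neg_ne_zero.2 one_ne_zero)
    · by_contra hcon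
      apply hz
      refine excep hm hχ fun b hb hbm => ?_
      rw [h1 b hb hbm, one_mul]
      by_contra hne
      refine hcon ⟨⟨b, hb, hbm⟩, fun h0 => hne ?_⟩
      have h2 := hds b z
      have h3 : dslope (fun s : ℂ => (Ideal.absNorm b : ℂ) ^ (1 - s)) 1 z = 0 := h0
      rw [h3, mul_zero] at h2
      exact (sub_eq_zero.1 h2.symm)

end CFTY
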