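import Pool.Agent.Lib.CFT.L10
import Pool.Agent.Lib.CFTC.C9

/-! # CFT, module ZL, L11: the prime ideal theorem in ray classes (natural density) -/

open NumberField IsDedekindDomain Filter Topology

namespace CFTL

open CFT CFTY CFTZ H55R

variable {K : Type} [Field K] [NumberField K]

theorem ne_outside (S : Finset (Pr K)) (N : ℕ) (χ : Dv K →+ Additive ℂˣ) (hχ : ∀ D ∈ Pray S N, χ D = 0) (h1 : χ ≠ 0) :
    ∃ v ∉ S, CFTC.vl χ v ≠ 1 := by
  obtain ⟨v, hv⟩ : ∃ v : Pr K, cphi χ v ≠ 1 := by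
    by_contra hcon
    push Not at hcon
    apply h1
    apply chi_ext
    intro v
    rw [hcon v]
    rfl
  refine ⟨v, fun h => ?_, fun h => hv (Units.ext h)⟩
  apply hv
  have h2 : χ (Finsupp.single v 1) = 0 := by
    refine hχ _ (supp_mem_Pray N fun w hw => ?_)
    refine Finsupp.single_eq_of_ne ?_
    rintro rfl
    exact hw h
  unfold cphi
  rw [h2, toMul_zero]

theorem mean_chi (hf : ∀ (S : Finset (Pr K)) (N : ℕ), (Pray S N).FiniteIndex) (S : Finset (Pr K)) (N : ℕ)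
    (H : AddSubgroup (Dv K)) (hH : Pray S N ≤ H) [Fintype (Dv K ⧸ H)] (ψ : AddChar (Dv K ⧸ H) ℂ) :
    Tendsto (fun x : ℕ => (∑ᶠ v ∈ {v : Pr K | Nm v ≤ x}, CFTC.vl (chq H ψ) v) / (Nat.primeCounting x : ℂ)) atTop
      (𝓝 (if ψ = 0 then 1 else 0)) := by
  classical
  by_cases hψ : ψ = 0
  · rw [if_pos hψ]
    have h1 := CFTC.pit hf
    have h2 : Tendsto (fun x : ℕ => (((Set.ncard {v : Pr K | Nm v ≤ x} : ℝ) / (Nat.primeCounting x : ℝ) : ℝ) : ℂ)) atTop (𝓝 ((1 : ℝ) : ℂ)) :=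
      (Complex.continuous_ofReal.tendsto _).comp h1
    rw [Complex.ofReal_one] at h2
    refine h2.congr fun x => ?_
    rw [finsum_mem_eq_finite_toFinset_sum _ (CFTC.nm_fin x)]
    have h3 : ∀ v ∈ (CFTC.nm_fin (K := K) x).toFinset, CFTC.vl (chq H ψ) v = 1 := by
      intro v _
      rw [hψ]
      rfl
    rw [Finset.sum_congr rfl h3, Finset.sum_const, nsmul_eq_mul, mul_one, Set.ncard_eq_toFinset_card _ (CFTC.nm_fin x)]
    push_cast
    rfl
  · rw [if_neg hψ]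
    refine CFTC.hecke_c2 hf S N (chq H ψ) (chq_norm H ψ) (fun _ => 0) (fun x hx => ?_)
      (ne_outside S N _ (fun D hD => chq_ker H ψ (hH hD)) (chq_ne H hψ)) fun G hG1 hG2 => ?_
    · rw [chq_ker H ψ (hH (dv_mem_Pray hx)), toMul_zero, Units.val_one]
      simp
    · exact nonvan hf S N (chq H ψ) (fun D hD => chq_ker H ψ (hH hD)) (chq_ne H hψ) G hG1 hG2

/-- The prime ideal theorem in ray classes. -/
theorem nat_dens (hf : ∀ (S : Finset (Pr K)) (N : ℕ), (Pray S N).FiniteIndex) (S : Finset (Pr K)) (N : ℕ)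
    (H : AddSubgroup (Dv K)) (hH : Pray S N ≤ H) [H.FiniteIndex] (D : Dv K) :
    Tendsto (fun x : ℕ => (Set.ncard {v : Pr K | Nm v ≤ x ∧ v ∉ S ∧ Finsupp.single v 1 - D ∈ H} : ℝ) / (Nat.primeCounting x : ℝ))
      atTop (𝓝 (1 / (H.index : ℝ))) := by
  classical
  have := AddSubgroup.finite_quotient_of_finiteIndex (H := H)
  have := Fintype.ofFinite (Dv K ⧸ H)
  set g : ℕ := Nat.card (Dv K ⧸ H) with hg
  have hg0 : (0 : ℝ) < g := by exact_mod_cast Nat.card_pos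
  have hidx : H.index = g := rfl
  set F : ℕ → Finset (Pr K) := fun x => (CFTC.nm_fin (K := K) x).toFinset with hF
  -- the sum over all characters
  have h1 : Tendsto (fun x : ℕ => ∑ ψ : AddChar (Dv K ⧸ H) ℂ, ψ (QuotientAddGroup.mk (-D)) *
      ((∑ᶠ v ∈ {v : Pr K | Nm v ≤ x}, CFTC.vl (chq H ψ) v) / (Nat.primeCounting x : ℂ))) atTop
      (𝓝 (∑ ψ : AddChar (Dv K ⧸ H) ℂ, ψ (QuotientAddGroup.mk (-D)) * (if ψ = 0 then 1 else 0))) :=
    tendsto_finset_sum _ fun ψ _ => (mean_chi hf S N H hH ψ).const_mul _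
  have h2 : ∑ ψ : AddChar (Dv K ⧸ H) ℂ, ψ (QuotientAddGroup.mk (-D)) * (if ψ = 0 then 1 else 0) = 1 := by
    rw [Finset.sum_eq_single (0 : AddChar (Dv K ⧸ H) ℂ)]
    · rw [if_pos rfl, AddChar.zero_apply, one_mul]
    · intro ψ _ hψ
      rw [if_neg hψ, mul_zero]
    · intro h
      exact absurd (Finset.mem_univ _) h
  rw [h2] at h1
  have h3 : ∀ x : ℕ, ∑ ψ : AddChar (Dv K ⧸ H) ℂ, ψ (QuotientAddGroup.mk (-D)) *
      ((∑ᶠ v ∈ {v : Pr K | Nm v ≤ x}, CFTC.vl (chq H ψ) v) / (Nat.primeCounting x : ℂ)) =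
      (((g : ℝ) * ((((F x).filter fun v => (Finsupp.single v 1 : Dv K) - D ∈ H).card : ℝ) / (Nat.primeCounting x : ℝ)) : ℝ) : ℂ) := by
    intro x
    have e1 : ∀ ψ : AddChar (Dv K ⧸ H) ℂ, ψ (QuotientAddGroup.mk (-D)) *
        ((∑ᶠ v ∈ {v : Pr K | Nm v ≤ x}, CFTC.vl (chq H ψ) v) / (Nat.primeCounting x : ℂ)) =
        (∑ v ∈ F x, ψ (QuotientAddGroup.mk ((Finsupp.single v 1 : Dv K) - D))) / (Nat.primeCounting x : ℂ) := by
      intro ψ
      rw [finsum_mem_eq_finite_toFinset_sum _ (CFTC.nm_fin x), ← mul_div_assoc, Finset.mul_sum]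
      congr 1
      refine Finset.sum_congr rfl fun v _ => ?_
      have e2 : CFTC.vl (chq H ψ) v = ψ (QuotientAddGroup.mk (Finsupp.single v 1)) := rfl
      rw [e2, ← AddChar.map_add_eq_mul, ← QuotientAddGroup.mk_add, neg_add_eq_sub]
    rw [Finset.sum_congr rfl fun ψ _ => e1 ψ, ← Finset.sum_div, Finset.sum_comm]
    have e3 : ∀ v ∈ F x, ∑ ψ : AddChar (Dv K ⧸ H) ℂ, ψ (QuotientAddGroup.mk ((Finsupp.single v 1 : Dv K) - D)) =
        if (Finsupp.single v 1 : Dv K) - D ∈ H then (g : ℂ) else 0 := by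
      intro v _
      rw [AddChar.sum_apply_eq_ite]
      by_cases h : (Finsupp.single v 1 : Dv K) - D ∈ H
      · rw [if_pos ((QuotientAddGroup.eq_zero_iff _).2 h), if_pos h, hg, Nat.card_eq_fintype_card]
      · rw [if_neg fun h' => h ((QuotientAddGroup.eq_zero_iff _).1 h'), if_neg h]
    rw [Finset.sum_congr rfl e3, ← Finset.sum_filter, Finset.sum_const, nsmul_eq_mul]
    push_cast
    ring
  have h4 : Tendsto (fun x : ℕ => (g : ℝ) * ((((F x).filter fun v => (Finsupp.single v 1 : Dv K) - D ∈ H).card : ℝ) / (Nat.primeCounting x : ℝ)))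
      atTop (𝓝 1) := by
    have e1 := (Complex.continuous_re.tendsto _).comp h1
    rw [Complex.one_re] at e1
    refine e1.congr fun x => ?_
    show (∑ ψ : AddChar (Dv K ⧸ H) ℂ, ψ (QuotientAddGroup.mk (-D)) *
      ((∑ᶠ v ∈ {v : Pr K | Nm v ≤ x}, CFTC.vl (chq H ψ) v) / (Nat.primeCounting x : ℂ))).re = _
    rw [h3 x, Complex.ofReal_re]
  have h5 : Tendsto (fun x : ℕ => (((F x).filter fun v => (Finsupp.single v 1 : Dv K) - D ∈ H).card : ℝ) / (Nat.primeCounting x : ℝ))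
      atTop (𝓝 (1 / (g : ℝ))) := by
    have e1 := h4.const_mul (1 / (g : ℝ))
    rw [mul_one] at e1
    refine e1.congr fun x => ?_
    field_simp
  have hπ : Tendsto (fun x : ℕ => ((Nat.primeCounting x : ℝ))⁻¹) atTop (𝓝 0) :=
    tendsto_inv_atTop_zero.comp (tendsto_natCast_atTop_atTop.comp Nat.tendsto_primeCounting)
  have h6 : Tendsto (fun x : ℕ => (S.card : ℝ) * ((Nat.primeCounting x : ℝ))⁻¹) atTop (𝓝 0) := by
    have := hπ.const_mul (S.card : ℝ)
    rwa [mul_zero] at this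
  have h7 := h5.sub h6
  rw [sub_zero] at h7
  rw [hidx]
  refine tendsto_of_tendsto_of_tendsto_of_le_of_le h7 h5 (fun x => ?_) fun x => ?_
  · show (((F x).filter fun v => (Finsupp.single v 1 : Dv K) - D ∈ H).card : ℝ) / (Nat.primeCounting x : ℝ) -
      (S.card : ℝ) * ((Nat.primeCounting x : ℝ))⁻¹ ≤ _
    rw [← div_eq_mul_inv, ← sub_div]
    refine div_le_div_of_nonneg_right ?_ (Nat.cast_nonneg _)
    have e1 : {v : Pr K | Nm v ≤ x ∧ v ∉ S ∧ Finsupp.single v 1 - D ∈ H} =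
        (((F x).filter fun v => (Finsupp.single v 1 : Dv K) - D ∈ H) \ S : Finset (Pr K)) := by
      ext v
      simp only [Set.mem_setOf_eq, Finset.coe_sdiff, Finset.coe_filter, Set.mem_diff, Finset.mem_coe, hF, Set.Finite.mem_toFinset]
      tauto
    rw [e1, Set.ncard_coe_finset]
    have e3 : ((F x).filter fun v => (Finsupp.single v 1 : Dv K) - D ∈ H).card ≤
        (((F x).filter fun v => (Finsupp.single v 1 : Dv K) - D ∈ H) \ S).card + S.card :=
      tsub_le_iff_right.1 (Finset.le_card_sdiff S ((F x).filter fun v => (Finsupp.single v 1 : Dv K) - D ∈ H))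
    have e4 : (((F x).filter fun v => (Finsupp.single v 1 : Dv K) - D ∈ H).card : ℝ) ≤
        (((F x).filter fun v => (Finsupp.single v 1 : Dv K) - D ∈ H) \ S).card + S.card := by exact_mod_cast e3
    linarith
  · show (Set.ncard {v : Pr K | Nm v ≤ x ∧ v ∉ S ∧ Finsupp.single v 1 - D ∈ H} : ℝ) / (Nat.primeCounting x : ℝ) ≤ _
    refine div_le_div_of_nonneg_right ?_ (Nat.cast_nonneg _)
    rw [← Set.ncard_coe_finset ((F x).filter fun v => (Finsupp.single v 1 : Dv K) - D ∈ H)]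
    have e2 : Set.ncard {v : Pr K | Nm v ≤ x ∧ v ∉ S ∧ Finsupp.single v 1 - D ∈ H} ≤
        Set.ncard (((F x).filter fun v => (Finsupp.single v 1 : Dv K) - D ∈ H : Finset (Pr K)) : Set (Pr K)) := by
      refine Set.ncard_le_ncard (fun v hv => ?_) (Finset.finite_toSet _)
      rw [Finset.mem_coe, Finset.mem_filter, hF, Set.Finite.mem_toFinset]
      exact ⟨hv.1, hv.2.2⟩
    exact_mod_cast e2

/-- The prime ideal theorem in ray classes, without hypotheses. -/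
theorem nat_class (S : Finset (Pr K)) (N : ℕ) (D : Dv K) :
    Tendsto (fun x : ℕ => (Set.ncard {v : Pr K | Nm v ≤ x ∧ v ∉ S ∧ Finsupp.single v 1 - D ∈ Pray S N} : ℝ) / (Nat.primeCounting x : ℝ))
      atTop (𝓝 (1 / ((Pray S N).index : ℝ))) := by
  have := pray_fin S N
  exact nat_dens (fun S N => pray_fin S N) S N (Pray S N) le_rfl D

end CFTL
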