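import Mathlib
import Pool.Agent.Lib.CFT.L1

/-! # CFT, module ZL, part 2: sums of homogeneous families over a lattice with periodic coefficients of mean zero

A: the lattice (an abstract group), e : A → V its embedding, J a subgroup of finite index, R representatives of A/J in V. For periodic coefficients a with
sum 0, the sum of a(x) G(x) is the sum of a(x) (B^k G)(x); for a homogeneous family this is analytic for Re s > 1 - k/d (periodicK). -/

open scoped ContDiff

namespace CFTL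

variable {V : Type} [NormedAddCommGroup V] [NormedSpace ℝ V]

section sums

variable {A : Type} [AddCommGroup A] (e : A →+ V) (he : Function.Injective e) (J : AddSubgroup A)

/-- Representatives of A / J. -/
def IsRep (R : Finset A) : Prop := Function.Bijective fun r : R => (QuotientAddGroup.mk (r : A) : A ⧸ J)

theorem exists_rep [Finite (A ⧸ J)] : ∃ R : Finset A, IsRep J R := by
  classical
  have := Fintype.ofFinite (A ⧸ J)
  refine ⟨Finset.univ.image fun q : A ⧸ J => q.out, ?_⟩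
  constructor
  · rintro ⟨r, hr⟩ ⟨r', hr'⟩ h
    rw [Finset.mem_image] at hr hr'
    obtain ⟨q, -, rfl⟩ := hr
    obtain ⟨q', -, rfl⟩ := hr'
    have h1 : (QuotientAddGroup.mk q.out : A ⧸ J) = QuotientAddGroup.mk q'.out := h
    rw [QuotientAddGroup.out_eq', QuotientAddGroup.out_eq'] at h1
    subst h1
    rfl
  · intro q
    exact ⟨⟨q.out, Finset.mem_image_of_mem _ (Finset.mem_univ q)⟩, QuotientAddGroup.out_eq' q⟩

variable {J}

theorem rep_sum [Finite (A ⧸ J)] {R : Finset A} (hR : IsRep J R) {a : A ⧸ J → ℂ} (ha : ∑ᶠ q, a q = 0) (y : A) :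
    ∑ r ∈ R, a (QuotientAddGroup.mk (y - r)) = 0 := by
  classical
  have := Fintype.ofFinite (A ⧸ J)
  rw [finsum_eq_sum_of_fintype] at ha
  rw [← Finset.sum_coe_sort R (fun r => a (QuotientAddGroup.mk (y - r))), ← ha]
  let f : R ≃ A ⧸ J := Equiv.ofBijective _ hR
  refine Fintype.sum_equiv (f.trans (Equiv.subLeft (QuotientAddGroup.mk y))) _ _ fun r => ?_
  rfl

variable {e}

theorem sum_bop [Finite (A ⧸ J)] {R : Finset A} (hR : IsRep J R) {a : A ⧸ J → ℂ} (ha : ∑ᶠ q, a q = 0) {G : V → ℂ}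
    (hG : Summable fun x : A => G (e x)) :
    (Summable fun x : A => Bop (R.map ⟨e, he⟩) G (e x)) ∧
      ∑' x : A, a (QuotientAddGroup.mk x) * Bop (R.map ⟨e, he⟩) G (e x) = ∑' x : A, a (QuotientAddGroup.mk x) * G (e x) := by
  classical
  have := Fintype.ofFinite (A ⧸ J)
  have hbd : ∃ M : ℝ, ∀ q, ‖a q‖ ≤ M :=
    ⟨∑ q, ‖a q‖, fun q => Finset.single_le_sum (f := fun q => ‖a q‖) (fun _ _ => norm_nonneg _) (Finset.mem_univ q)⟩
  obtain ⟨M, hM⟩ := hbd
  have hmul : ∀ {g : A → ℂ} (f : A → A ⧸ J), Summable g → Summable fun x => a (f x) * g x := by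
    intro g f hg
    refine Summable.of_norm_bounded (hg.norm.mul_left M) fun x => ?_
    rw [norm_mul]
    exact mul_le_mul_of_nonneg_right (hM _) (norm_nonneg _)
  have hsh : ∀ r : A, Summable fun x : A => G (e (x + r)) := fun r =>
    (Equiv.addRight r).summable_iff.2 hG
  have e1 : ∀ x : A, Bop (R.map ⟨e, he⟩) G (e x) = G (e x) - (R.card : ℂ)⁻¹ * ∑ r ∈ R, G (e (x + r)) := by
    intro x
    unfold Bop
    rw [Finset.card_map, Finset.sum_map]
    congr 2
    refine Finset.sum_congr rfl fun r _ => ?_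
    show G (e x + e r) = G (e (x + r))
    rw [map_add]
  have hs2 : Summable fun x : A => (R.card : ℂ)⁻¹ * ∑ r ∈ R, G (e (x + r)) :=
    (summable_sum fun r _ => hsh r).mul_left _
  constructor
  · exact (hG.sub hs2).congr fun x => (e1 x).symm
  · have e2 : ∀ x : A, a (QuotientAddGroup.mk x) * Bop (R.map ⟨e, he⟩) G (e x) =
        a (QuotientAddGroup.mk x) * G (e x) - (R.card : ℂ)⁻¹ * ∑ r ∈ R, a (QuotientAddGroup.mk x) * G (e (x + r)) := by
      intro x
      rw [e1, mul_sub, ← Finset.mul_sum]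
      ring
    have hs3 : ∀ r ∈ R, Summable fun x : A => a (QuotientAddGroup.mk x) * G (e (x + r)) := fun r _ =>
      hmul (fun x => QuotientAddGroup.mk x) (hsh r)
    rw [tsum_congr e2, (hmul (fun x => QuotientAddGroup.mk x) hG).tsum_sub ((summable_sum hs3).mul_left _), tsum_mul_left,
      Summable.tsum_finsetSum hs3]
    have e3 : ∀ r ∈ R, ∑' x : A, a (QuotientAddGroup.mk x) * G (e (x + r)) =
        ∑' y : A, a (QuotientAddGroup.mk (y - r)) * G (e y) := by
      intro r _
      rw [← (Equiv.addRight r).tsum_eq (fun y : A => a (QuotientAddGroup.mk (y - r)) * G (e y))]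
      refine tsum_congr fun x => ?_
      simp
    have hs4 : ∀ r ∈ R, Summable fun y : A => a (QuotientAddGroup.mk (y - r)) * G (e y) := fun r _ =>
      hmul (fun y => QuotientAddGroup.mk (y - r)) hG
    rw [Finset.sum_congr rfl e3, ← Summable.tsum_finsetSum hs4]
    have e4 : ∀ y : A, ∑ r ∈ R, a (QuotientAddGroup.mk (y - r)) * G (e y) = 0 := by
      intro y
      rw [← Finset.sum_mul, rep_sum hR ha, zero_mul]
    rw [tsum_congr e4, tsum_zero, mul_zero, sub_zero]

theorem sum_bop_iter [Finite (A ⧸ J)] {R : Finset A} (hR : IsRep J R) {a : A ⧸ J → ℂ} (ha : ∑ᶠ q, a q = 0) (k : ℕ) {G : V → ℂ}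
    (hG : Summable fun x : A => G (e x)) :
    ∑' x : A, a (QuotientAddGroup.mk x) * (Bop (R.map ⟨e, he⟩))^[k] G (e x) = ∑' x : A, a (QuotientAddGroup.mk x) * G (e x) := by
  induction k generalizing G with
  | zero => rfl
  | succ k ih =>
    obtain ⟨h1, h2⟩ := sum_bop he hR ha hG
    rw [← h2, ← ih h1]
    rfl

end sums

theorem bop_diff (R : Finset V) (k : ℕ) {F : ℂ → V → ℂ} (h : ∀ y, Differentiable ℂ fun s => F s y) (y : V) :
    Differentiable ℂ fun s => (Bop R)^[k] (F s) y := by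
  induction k generalizing F y with
  | zero => exact h y
  | succ k ih =>
    have h1 : ∀ y, Differentiable ℂ fun s => Bop R (F s) y := by
      intro y
      unfold Bop
      exact (h y).sub ((Differentiable.fun_sum fun r _ => h (y + r)).const_mul _)
    exact ih h1 y

/-- MAIN LEMMA. -/
theorem periodicK [ProperSpace V] {A : Type} [AddCommGroup A] {e : A →+ V} (he : Function.Injective e) {J : AddSubgroup A}
    [Finite (A ⧸ J)] {d : ℝ} (hd : 0 < d) (hsum : ∀ β : ℝ, d < β → Summable fun x : A => ‖e x‖ ^ (-β))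
    (hfin : ∀ ρ : ℝ, {x : A | ‖e x‖ < ρ}.Finite) {F : ℂ → V → ℂ} (h : HF d 0 F) (h0 : ∀ s, F s 0 = 0)
    (hs : ∀ y, Differentiable ℂ fun s => F s y) {a : A ⧸ J → ℂ} (ha : ∑ᶠ q, a q = 0) (k : ℕ) :
    ∃ H : ℂ → ℂ, DifferentiableOn ℂ H {s | 1 - k / d < s.re} ∧
      ∀ s : ℂ, 1 < s.re → H s = ∑' x : A, a (QuotientAddGroup.mk x) * F s (e x) := by
  classical
  obtain ⟨R, hR⟩ := exists_rep J
  have hRne : (R.map ⟨e, he⟩).Nonempty := by
    obtain ⟨r, -⟩ := hR.2 (QuotientAddGroup.mk 0)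
    exact ⟨e r, Finset.mem_map_of_mem ⟨e, he⟩ r.2⟩
  have := Fintype.ofFinite (A ⧸ J)
  obtain ⟨M, hM0, hM⟩ : ∃ M : ℝ, 0 ≤ M ∧ ∀ q, ‖a q‖ ≤ M :=
    ⟨∑ q, ‖a q‖, Finset.sum_nonneg fun _ _ => norm_nonneg _, fun q =>
      Finset.single_le_sum (f := fun q => ‖a q‖) (fun _ _ => norm_nonneg _) (Finset.mem_univ q)⟩
  refine ⟨fun s => ∑' x : A, a (QuotientAddGroup.mk x) * (Bop (R.map ⟨e, he⟩))^[k] (F s) (e x), ?_, ?_⟩
  · intro s₀ hs₀
    have hs₀' : 1 - k / d < s₀.re := hs₀
    obtain ⟨σ, hσ1, hσ2⟩ := exists_between hs₀'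
    obtain ⟨C, ρ, hC, hρ, hb⟩ := bop_bound hRne k h (‖s₀‖ + 1)
    set U : Set ℂ := {s | ‖s‖ < ‖s₀‖ + 1} ∩ {s | σ < s.re} with hU
    have hUo : IsOpen U := (isOpen_lt continuous_norm continuous_const).inter (isOpen_lt continuous_const Complex.continuous_re)
    have hmem : s₀ ∈ U := ⟨by show ‖s₀‖ < ‖s₀‖ + 1; linarith, hσ2⟩
    have hdf : ∀ y : V, Differentiable ℂ fun s => (Bop (R.map ⟨e, he⟩))^[k] (F s) y := fun y => bop_diff _ k hs y
    -- bounds for the finitely many small x
    have hsmall : ∀ x : A, ∃ B : ℝ, ∀ s : ℂ, ‖s‖ ≤ ‖s₀‖ + 1 → ‖(Bop (R.map ⟨e, he⟩))^[k] (F s) (e x)‖ ≤ B := by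
      intro x
      obtain ⟨B, hB⟩ := (isCompact_closedBall (0 : ℂ) (‖s₀‖ + 1)).exists_bound_of_continuousOn
        (hdf (e x)).continuous.continuousOn
      exact ⟨B, fun s hs => hB s (mem_closedBall_zero_iff.2 hs)⟩
    choose B hB using hsmall
    have hβ : d < d * σ + k := by
      have h1 : (1 - k / d) * d < σ * d := mul_lt_mul_of_pos_right hσ1 hd
      have h2 : (1 - k / d) * d = d - k := by field_simp
      linarith
    set u : A → ℝ := fun x => M * C * ‖e x‖ ^ (-(d * σ + k)) + (if ‖e x‖ < max ρ 1 then M * |B x| else 0) with hu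
    have husum : Summable u := by
      refine ((hsum _ hβ).mul_left _).add (summable_of_hasFiniteSupport ((hfin (max ρ 1)).subset fun x hx => ?_))
      by_contra hne
      exact hx (if_neg hne)
    have hdo : DifferentiableOn ℂ (fun s => ∑' x : A, a (QuotientAddGroup.mk x) * (Bop (R.map ⟨e, he⟩))^[k] (F s) (e x)) U := by
      refine Complex.differentiableOn_tsum_of_summable_norm husum (fun x => ((hdf (e x)).const_mul _).differentiableOn) hUo ?_
      rintro x s ⟨hs1, hs2⟩
      have hs1' : ‖s‖ ≤ ‖s₀‖ + 1 := le_of_lt hs1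
      have hs2' : σ < s.re := hs2
      rw [norm_mul]
      have hnn : 0 ≤ M * C * ‖e x‖ ^ (-(d * σ + k)) := by positivity
      by_cases hx : ‖e x‖ < max ρ 1
      · rw [hu]
        simp only
        rw [if_pos hx]
        have h1 : ‖a (QuotientAddGroup.mk x)‖ * ‖(Bop (R.map ⟨e, he⟩))^[k] (F s) (e x)‖ ≤ M * |B x| :=
          mul_le_mul (hM _) ((hB x s hs1').trans (le_abs_self _)) (norm_nonneg _) hM0
        linarith
      · rw [hu]
        simp only
        rw [if_neg hx, add_zero, mul_assoc]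
        push Not at hx
        have h1 : ρ ≤ ‖e x‖ := (le_max_left _ _).trans hx
        have h2 : 1 ≤ ‖e x‖ := (le_max_right _ _).trans hx
        refine mul_le_mul (hM _) ((hb s hs1' (e x) h1).trans ?_) (norm_nonneg _) hM0
        refine mul_le_mul_of_nonneg_left (Real.rpow_le_rpow_of_exponent_le h2 ?_) hC
        have h3 : d * σ ≤ d * s.re := mul_le_mul_of_nonneg_left hs2'.le hd.le
        linarith
    exact (hdo.differentiableAt (hUo.mem_nhds hmem)).differentiableWithinAt
  · intro s hs1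
    refine sum_bop_iter he hR ha k ?_
    obtain ⟨C, hC, hb⟩ := h.bound ‖s‖
    refine Summable.of_norm_bounded ((hsum (d * s.re) (by nlinarith)).mul_left C) fun x => ?_
    by_cases hx : e x = 0
    · rw [hx, h0, norm_zero]
      positivity
    · have h1 := hb s le_rfl (e x) hx
      rwa [add_zero] at h1

end CFTL
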