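import Mathlib

/-! # CFT, module ZL, part 3: a smooth partition of unity for the action of a group of units

part_smooth: for a subgroup E of finite index in the units there is w : mixedSpace K → ℝ, smooth on the nonzero vectors, homogeneous of degree 0, with support
in a region ‖x‖^d ≤ A norm x, such that the sum of the w (u x), u in E, is 1 for all x with norm x ≠ 0. -/

open NumberField NumberField.InfinitePlace NumberField.mixedEmbedding
open scoped ContDiff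

namespace CFTL

open scoped Classical

variable {K : Type} [Field K] [NumberField K]

/-- The sum of the squares of the coordinates. -/
noncomputable def Qf (x : mixedSpace K) : ℝ := ∑ w : InfinitePlace K, normAtPlace w x ^ 2

/-- The square of the norm. -/
noncomputable def Pf (x : mixedSpace K) : ℝ := ∏ w : InfinitePlace K, (normAtPlace w x ^ 2) ^ w.mult

theorem Pf_eq (x : mixedSpace K) : Pf x = mixedEmbedding.norm x ^ 2 := by
  unfold Pf
  rw [mixedEmbedding.norm_apply, ← Finset.prod_pow]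
  refine Finset.prod_congr rfl fun w _ => ?_
  rw [← pow_mul, ← pow_mul, mul_comm]

theorem cd_sq (w : InfinitePlace K) : ContDiff ℝ ∞ fun x : mixedSpace K => normAtPlace w x ^ 2 := by
  rcases w.isReal_or_isComplex with h | h
  · have h1 : (fun x : mixedSpace K => normAtPlace w x ^ 2) = fun x => (x.1 ⟨w, h⟩) ^ 2 := by
      funext x
      rw [normAtPlace_apply_of_isReal h, Real.norm_eq_abs, sq_abs]
    rw [h1]
    exact ((contDiff_apply ℝ ℝ (⟨w, h⟩ : {w : InfinitePlace K // IsReal w})).comp contDiff_fst).pow 2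
  · have h1 : (fun x : mixedSpace K => normAtPlace w x ^ 2) = fun x => ‖x.2 ⟨w, h⟩‖ ^ 2 := by
      funext x
      rw [normAtPlace_apply_of_isComplex h]
    rw [h1]
    exact ((contDiff_apply ℝ ℂ (⟨w, h⟩ : {w : InfinitePlace K // IsComplex w})).comp contDiff_snd).norm_sq ℝ

theorem cd_Qf : ContDiff ℝ ∞ (Qf : mixedSpace K → ℝ) := by
  unfold Qf
  exact ContDiff.sum fun w _ => cd_sq w

theorem cd_Pf : ContDiff ℝ ∞ (Pf : mixedSpace K → ℝ) := by
  unfold Pf
  exact contDiff_prod fun w _ => (cd_sq w).pow _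

theorem place_le (x : mixedSpace K) (w : InfinitePlace K) : normAtPlace w x ≤ ‖x‖ := by
  rw [norm_eq_sup'_normAtPlace]
  exact Finset.le_sup' (fun w => normAtPlace w x) (Finset.mem_univ w)

theorem norm_sq_le (x : mixedSpace K) : ‖x‖ ^ 2 ≤ Qf x := by
  obtain ⟨w, -, hw⟩ := Finset.exists_mem_eq_sup' (Finset.univ_nonempty (α := InfinitePlace K)) (fun w => normAtPlace w x)
  rw [norm_eq_sup'_normAtPlace, hw]
  exact Finset.single_le_sum (f := fun w => normAtPlace w x ^ 2) (fun w _ => sq_nonneg _) (Finset.mem_univ w)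

theorem Qf_le (x : mixedSpace K) : Qf x ≤ Fintype.card (InfinitePlace K) * ‖x‖ ^ 2 := by
  unfold Qf
  calc ∑ w : InfinitePlace K, normAtPlace w x ^ 2 ≤ ∑ _w : InfinitePlace K, ‖x‖ ^ 2 :=
        Finset.sum_le_sum fun w _ => pow_le_pow_left₀ (normAtPlace_nonneg w x) (place_le x w) 2
    _ = Fintype.card (InfinitePlace K) * ‖x‖ ^ 2 := by
        rw [Finset.sum_const, Finset.card_univ, nsmul_eq_mul]

theorem Qf_pos {x : mixedSpace K} (hx : x ≠ 0) : 0 < Qf x :=
  lt_of_lt_of_le (by positivity) (norm_sq_le x)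

theorem Qf_smul (t : ℝ) (x : mixedSpace K) : Qf (t • x) = t ^ 2 * Qf x := by
  unfold Qf
  rw [Finset.mul_sum]
  refine Finset.sum_congr rfl fun w _ => ?_
  rw [normAtPlace_smul, mul_pow, sq_abs]

theorem Pf_smul (t : ℝ) (x : mixedSpace K) : Pf (t • x) = (t ^ 2) ^ Module.finrank ℚ K * Pf x := by
  rw [Pf_eq, Pf_eq, mixedEmbedding.norm_smul, mul_pow, ← pow_mul, ← pow_mul, mul_comm 2, pow_mul |t|, pow_mul t]
  congr 1
  rw [← pow_mul, ← pow_mul, mul_comm, pow_mul, pow_mul, sq_abs]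

/-- The ratio. -/
noncomputable def rat (x : mixedSpace K) : ℝ := Pf x / Qf x ^ Module.finrank ℚ K

/-- The cut-off function. -/
noncomputable def cut (δ : ℝ) (x : mixedSpace K) : ℝ := Real.smoothTransition (rat x / δ - 1)

theorem rat_smul {t : ℝ} (ht : t ≠ 0) (x : mixedSpace K) : rat (t • x) = rat x := by
  unfold rat
  rw [Pf_smul, Qf_smul, mul_pow]
  exact mul_div_mul_left _ _ (pow_ne_zero _ (pow_ne_zero _ ht))

theorem cd_rat : ContDiffOn ℝ ∞ (rat : mixedSpace K → ℝ) {0}ᶜ := by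
  unfold rat
  refine cd_Pf.contDiffOn.div (cd_Qf.contDiffOn.pow _) fun x hx => ?_
  exact pow_ne_zero _ (Qf_pos hx).ne'

theorem cd_cut (δ : ℝ) : ContDiffOn ℝ ∞ (cut δ : mixedSpace K → ℝ) {0}ᶜ := by
  unfold cut
  exact (Real.smoothTransition.contDiff (n := ⊤)).comp_contDiffOn ((cd_rat.div_const δ).sub contDiffOn_const)

theorem cut_nonneg (δ : ℝ) (x : mixedSpace K) : 0 ≤ cut δ x := Real.smoothTransition.nonneg _

theorem cut_zero {δ : ℝ} (hδ : 0 < δ) {x : mixedSpace K} (h : rat x ≤ δ) : cut δ x = 0 := by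
  unfold cut
  refine Real.smoothTransition.zero_of_nonpos ?_
  have h1 : rat x / δ ≤ 1 := (div_le_one hδ).2 h
  linarith

theorem cut_one {δ : ℝ} (hδ : 0 < δ) {x : mixedSpace K} (h : 2 * δ ≤ rat x) : cut δ x = 1 := by
  unfold cut
  refine Real.smoothTransition.one_of_one_le ?_
  have h1 : 2 ≤ rat x / δ := (le_div_iff₀ hδ).2 h
  linarith

/-- In the support of the cut-off function the coordinates are comparable. -/
theorem cut_supp {δ : ℝ} (hδ : 0 < δ) {x : mixedSpace K} (h : cut δ x ≠ 0) :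
    ‖x‖ ^ Module.finrank ℚ K ≤ (Real.sqrt δ)⁻¹ * mixedEmbedding.norm x := by
  have h1 : δ < rat x := by
    by_contra h2
    exact h (cut_zero hδ (not_lt.1 h2))
  have hx : x ≠ 0 := by
    rintro rfl
    have h3 : rat (0 : mixedSpace K) = 0 := by
      unfold rat
      rw [Pf_eq, map_zero]
      simp
    rw [h3] at h1
    linarith
  have h2 : δ * Qf x ^ Module.finrank ℚ K < Pf x := (lt_div_iff₀ (pow_pos (Qf_pos hx) _)).1 h1
  rw [Pf_eq] at h2
  have h3 : δ * (‖x‖ ^ Module.finrank ℚ K) ^ 2 ≤ mixedEmbedding.norm x ^ 2 := by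
    refine le_trans (mul_le_mul_of_nonneg_left ?_ hδ.le) h2.le
    rw [← pow_mul, mul_comm, pow_mul]
    exact pow_le_pow_left₀ (by positivity) (norm_sq_le x) _
  have h4 : (Real.sqrt δ * ‖x‖ ^ Module.finrank ℚ K) ^ 2 ≤ mixedEmbedding.norm x ^ 2 := by
    rw [mul_pow, Real.sq_sqrt hδ.le]
    exact h3
  have h5 := le_of_sq_le_sq h4 (mixedEmbedding.norm_nonneg x)
  have h6 : 0 < Real.sqrt δ := Real.sqrt_pos.2 hδ
  rw [inv_mul_eq_div, le_div_iff₀ h6, mul_comm]
  exact h5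

/-- Balanced vectors are in the support. -/
theorem cut_bal {C : ℝ} (hC : 0 < C) : ∃ δ : ℝ, 0 < δ ∧ ∀ x : mixedSpace K, mixedEmbedding.norm x ≠ 0 →
    ‖x‖ ^ Module.finrank ℚ K ≤ C * mixedEmbedding.norm x → cut δ x = 1 := by
  obtain ⟨r, hr⟩ : ∃ r : ℝ, r = (Fintype.card (InfinitePlace K) : ℝ) := ⟨_, rfl⟩
  have hr0 : 0 < r := by
    rw [hr]
    exact_mod_cast Fintype.card_pos
  refine ⟨(2 * (r ^ Module.finrank ℚ K * C ^ 2))⁻¹, by positivity, fun x hx h => cut_one (by positivity) ?_⟩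
  have hx0 : x ≠ 0 := by
    rintro rfl
    exact hx (map_zero _)
  have h1 : Qf x ^ Module.finrank ℚ K ≤ r ^ Module.finrank ℚ K * C ^ 2 * Pf x := by
    calc Qf x ^ Module.finrank ℚ K ≤ (r * ‖x‖ ^ 2) ^ Module.finrank ℚ K :=
          pow_le_pow_left₀ (Qf_pos hx0).le (by rw [hr]; exact Qf_le x) _
      _ = r ^ Module.finrank ℚ K * (‖x‖ ^ Module.finrank ℚ K) ^ 2 := by
        rw [mul_pow, ← pow_mul, ← pow_mul, mul_comm 2]
      _ ≤ r ^ Module.finrank ℚ K * (C * mixedEmbedding.norm x) ^ 2 := by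
        refine mul_le_mul_of_nonneg_left (pow_le_pow_left₀ (by positivity) h 2) (by positivity)
      _ = r ^ Module.finrank ℚ K * C ^ 2 * Pf x := by
        rw [Pf_eq, mul_pow]
        ring
  unfold rat
  rw [le_div_iff₀ (pow_pos (Qf_pos hx0) _)]
  have h2 : 2 * (2 * (r ^ Module.finrank ℚ K * C ^ 2))⁻¹ = (r ^ Module.finrank ℚ K * C ^ 2)⁻¹ := by
    rw [mul_inv]
    ring
  rw [h2, inv_mul_le_iff₀ (by positivity)]
  exact h1

theorem place_unit_smul (w : InfinitePlace K) (u : (𝓞 K)ˣ) (x : mixedSpace K) :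
    normAtPlace w (u • x) = w ((u : 𝓞 K) : K) * normAtPlace w x := by
  rw [unitSMul_smul, map_mul, normAtPlace_apply]

/-- Every vector can be balanced by a unit. -/
theorem cocomp_all (K : Type) [Field K] [NumberField K] : ∃ C : ℝ, 0 < C ∧ ∀ x : mixedSpace K, mixedEmbedding.norm x ≠ 0 →
    ∃ u : (𝓞 K)ˣ, ‖u • x‖ ^ Module.finrank ℚ K ≤ C * mixedEmbedding.norm x := by
  obtain ⟨B, hB⟩ := isBounded_iff_forall_norm_le.1 (fundamentalCone.isBounded_normLeOne (K := K))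
  have hd : (Module.finrank ℚ K : ℝ) ≠ 0 := by
    exact_mod_cast (Module.finrank_pos (R := ℚ) (M := K)).ne'
  refine ⟨(|B| + 1) ^ Module.finrank ℚ K, by positivity, fun x hx => ?_⟩
  obtain ⟨u, hu⟩ := fundamentalCone.exists_unit_smul_mem hx
  refine ⟨u, ?_⟩
  have hn : 0 < mixedEmbedding.norm x := lt_of_le_of_ne (mixedEmbedding.norm_nonneg x) (Ne.symm hx)
  set n := mixedEmbedding.norm x with hn'
  set c : ℝ := n ^ (-(1 / (Module.finrank ℚ K : ℝ))) with hc
  have hc0 : 0 < c := Real.rpow_pos_of_pos hn _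
  have hcd : c ^ Module.finrank ℚ K = n⁻¹ := by
    rw [hc, ← Real.rpow_natCast, ← Real.rpow_mul hn.le]
    rw [neg_mul, one_div, inv_mul_cancel₀ hd, Real.rpow_neg_one]
  have h1 : c • (u • x) ∈ fundamentalCone.normLeOne K := by
    refine ⟨fundamentalCone.smul_mem_of_mem hu hc0.ne', ?_⟩
    show mixedEmbedding.norm (c • (u • x)) ≤ 1
    rw [mixedEmbedding.norm_smul, mixedEmbedding.norm_unit_smul, abs_of_pos hc0, hcd, ← hn', inv_mul_cancel₀ hn.ne']
  have h2 := hB _ h1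
  rw [_root_.norm_smul, Real.norm_of_nonneg hc0.le] at h2
  have h3 : (c * ‖u • x‖) ^ Module.finrank ℚ K ≤ (|B| + 1) ^ Module.finrank ℚ K :=
    pow_le_pow_left₀ (by positivity) (h2.trans (by linarith [le_abs_self B])) _
  rw [mul_pow, hcd, inv_mul_le_iff₀ hn, mul_comm n] at h3
  exact h3

theorem cocomp_sub (E : Subgroup (𝓞 K)ˣ) [E.FiniteIndex] : ∃ C : ℝ, 0 < C ∧ ∀ x : mixedSpace K, mixedEmbedding.norm x ≠ 0 →
    ∃ u ∈ E, ‖u • x‖ ^ Module.finrank ℚ K ≤ C * mixedEmbedding.norm x := by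

  obtain ⟨C, hC, h⟩ := cocomp_all K
  have hfin : Finite ((𝓞 K)ˣ ⧸ E) := Subgroup.finite_quotient_of_finiteIndex
  have := Fintype.ofFinite ((𝓞 K)ˣ ⧸ E)
  set M : ℝ := ∑ q : (𝓞 K)ˣ ⧸ E, ‖mixedEmbedding K (((q.out⁻¹ : (𝓞 K)ˣ) : 𝓞 K) : K)‖ with hM
  have hM0 : 0 ≤ M := Finset.sum_nonneg fun _ _ => norm_nonneg _
  refine ⟨(M + 1) ^ Module.finrank ℚ K * C, by positivity, fun x hx => ?_⟩
  obtain ⟨u, hu⟩ := h x hx
  set q : (𝓞 K)ˣ ⧸ E := QuotientGroup.mk u with hq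
  have h1 : q.out⁻¹ * u ∈ E := by
    rw [← QuotientGroup.eq]
    exact QuotientGroup.out_eq' q
  refine ⟨q.out⁻¹ * u, h1, ?_⟩
  have h2 : ‖(q.out⁻¹ * u) • x‖ ≤ M * ‖u • x‖ := by
    rw [mul_smul]
    have h3 : ‖q.out⁻¹ • (u • x)‖ ≤ ‖mixedEmbedding K (((q.out⁻¹ : (𝓞 K)ˣ) : 𝓞 K) : K)‖ * ‖u • x‖ := by
      rw [norm_eq_sup'_normAtPlace]
      refine Finset.sup'_le _ _ fun w _ => ?_
      rw [place_unit_smul, ← normAtPlace_apply]
      exact mul_le_mul (place_le _ w) (place_le _ w) (normAtPlace_nonneg _ _) (norm_nonneg _)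
    refine h3.trans (mul_le_mul_of_nonneg_right ?_ (norm_nonneg _))
    exact Finset.single_le_sum (f := fun q : (𝓞 K)ˣ ⧸ E => ‖mixedEmbedding K (((q.out⁻¹ : (𝓞 K)ˣ) : 𝓞 K) : K)‖)
      (fun _ _ => norm_nonneg _) (Finset.mem_univ q)
  calc ‖(q.out⁻¹ * u) • x‖ ^ Module.finrank ℚ K ≤ ((M + 1) * ‖u • x‖) ^ Module.finrank ℚ K := by
        refine pow_le_pow_left₀ (norm_nonneg _) (h2.trans ?_) _
        exact mul_le_mul_of_nonneg_right (by linarith) (norm_nonneg _)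
    _ = (M + 1) ^ Module.finrank ℚ K * ‖u • x‖ ^ Module.finrank ℚ K := mul_pow _ _ _
    _ ≤ (M + 1) ^ Module.finrank ℚ K * (C * mixedEmbedding.norm x) := mul_le_mul_of_nonneg_left hu (by positivity)
    _ = (M + 1) ^ Module.finrank ℚ K * C * mixedEmbedding.norm x := by ring

/-- Units with bounded absolute values. -/
theorem units_fin (B : ℝ) : {u : (𝓞 K)ˣ | ∀ w : InfinitePlace K, w ((u : 𝓞 K) : K) ≤ B}.Finite := by
  have h1 := NumberField.Embeddings.finite_of_norm_le K ℂ B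
  refine Set.Finite.of_finite_image (f := fun u : (𝓞 K)ˣ => ((u : 𝓞 K) : K)) (h1.subset ?_) ?_
  · rintro _ ⟨u, hu, rfl⟩
    refine ⟨(u : 𝓞 K).isIntegral_coe, fun φ => ?_⟩
    have h2 := hu (InfinitePlace.mk φ)
    rwa [InfinitePlace.apply] at h2
  · intro u _ v _ h
    exact Units.ext (RingOfIntegers.ext h)

/-- Local finiteness. -/
theorem loc_fin {A : ℝ} {φ : mixedSpace K → ℝ} (hφ : ∀ x, φ x ≠ 0 → ‖x‖ ^ Module.finrank ℚ K ≤ A * mixedEmbedding.norm x)
    {x₀ : mixedSpace K} (hx₀ : mixedEmbedding.norm x₀ ≠ 0) : ∃ F : Finset (𝓞 K)ˣ, ∀ᶠ x in nhds x₀,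
      ∀ u : (𝓞 K)ˣ, u ∉ F → φ (u • x) = 0 := by
  have hp : ∀ w : InfinitePlace K, 0 < normAtPlace w x₀ := fun w =>
    lt_of_le_of_ne (normAtPlace_nonneg w x₀) (Ne.symm (mixedEmbedding.norm_ne_zero_iff.1 hx₀ w))
  obtain ⟨c, hc0, hc⟩ : ∃ c : ℝ, 0 < c ∧ ∀ w : InfinitePlace K, c < normAtPlace w x₀ := by
    obtain ⟨w₁, -, h1⟩ := Finset.exists_min_image Finset.univ (fun w : InfinitePlace K => normAtPlace w x₀) Finset.univ_nonempty
    exact ⟨normAtPlace w₁ x₀ / 2, by linarith [hp w₁], fun w => by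
      have := h1 w (Finset.mem_univ w)
      linarith [hp w₁]⟩
  set N₁ : ℝ := mixedEmbedding.norm x₀ + 1 with hN₁
  have hN : 0 ≤ mixedEmbedding.norm x₀ := mixedEmbedding.norm_nonneg x₀
  set B : ℝ := (|A| * N₁ + 1) / c with hB
  refine ⟨(units_fin (K := K) B).toFinset, ?_⟩
  have hev1 : ∀ᶠ x in nhds x₀, ∀ w : InfinitePlace K, c < normAtPlace w x := by
    rw [Filter.eventually_all]
    intro w
    exact (continuous_normAtPlace w).continuousAt.eventually_const_lt (hc w)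
  have hev2 : ∀ᶠ x in nhds x₀, mixedEmbedding.norm x < N₁ :=
    (mixedEmbedding.continuous_norm K).continuousAt.eventually_lt_const (by rw [hN₁]; linarith)
  filter_upwards [hev1, hev2] with x hx1 hx2 u hu
  by_contra hne
  apply hu
  rw [Set.Finite.mem_toFinset]
  intro w
  have h1 := hφ _ hne
  rw [mixedEmbedding.norm_unit_smul] at h1
  have h2 : A * mixedEmbedding.norm x ≤ |A| * N₁ :=
    mul_le_mul (le_abs_self A) hx2.le (mixedEmbedding.norm_nonneg x) (abs_nonneg A)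
  have h3 : ‖u • x‖ ≤ |A| * N₁ + 1 := by
    by_contra h4
    push Not at h4
    have h5 : 0 ≤ |A| * N₁ := by positivity
    have h6 : 1 ≤ ‖u • x‖ := by linarith
    have h7 : ‖u • x‖ ≤ ‖u • x‖ ^ Module.finrank ℚ K := le_self_pow₀ h6 (Module.finrank_pos (R := ℚ) (M := K)).ne'
    linarith
  have h4 : w ((u : 𝓞 K) : K) * normAtPlace w x ≤ |A| * N₁ + 1 := by
    rw [← place_unit_smul]
    exact (place_le _ w).trans h3
  rw [hB, le_div_iff₀ hc0]
  refine le_trans (mul_le_mul_of_nonneg_left (hx1 w).le (apply_nonneg w _)) h4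

/-- THE SMOOTH PARTITION OF UNITY. -/
theorem part_smooth (E : Subgroup (𝓞 K)ˣ) [E.FiniteIndex] : ∃ (w : mixedSpace K → ℝ) (A : ℝ), 0 < A ∧
    ContDiffOn ℝ ∞ w {0}ᶜ ∧ (∀ (t : ℝ) (x : mixedSpace K), 0 < t → w (t • x) = w x) ∧ (∀ x, 0 ≤ w x ∧ w x ≤ 1) ∧
    (∀ x, w x ≠ 0 → ‖x‖ ^ Module.finrank ℚ K ≤ A * mixedEmbedding.norm x) ∧
    (∀ x, x ≠ 0 → mixedEmbedding.norm x = 0 → ∀ᶠ y in nhds x, w y = 0) ∧ w 0 = 0 ∧
    ∀ x, mixedEmbedding.norm x ≠ 0 → HasSum (fun u : E => w ((u : (𝓞 K)ˣ) • x)) 1 := by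

  obtain ⟨C, hC, hcc⟩ := cocomp_sub E
  obtain ⟨δ, hδ, hbal⟩ := cut_bal (K := K) hC
  set W : mixedSpace K → ℝ := fun x => ∑' u : E, cut δ ((u : (𝓞 K)ˣ) • x) with hW
  have hlf : ∀ x₀ : mixedSpace K, mixedEmbedding.norm x₀ ≠ 0 → ∃ F : Finset E, ∀ᶠ x in nhds x₀,
      ∀ u : E, u ∉ F → cut δ ((u : (𝓞 K)ˣ) • x) = 0 := by
    intro x₀ hx₀
    obtain ⟨F, hF⟩ := loc_fin (φ := cut δ) (fun x hx => cut_supp hδ hx) hx₀
    refine ⟨F.subtype (· ∈ E), ?_⟩
    filter_upwards [hF] with x hx u hu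
    exact hx u fun h => hu (Finset.mem_subtype.2 h)
  have hsumm : ∀ x : mixedSpace K, mixedEmbedding.norm x ≠ 0 → Summable fun u : E => cut δ ((u : (𝓞 K)ˣ) • x) := by
    intro x hx
    obtain ⟨F, hF⟩ := hlf x hx
    exact summable_of_ne_finset_zero (s := F) fun u hu => hF.self_of_nhds u hu
  have hge : ∀ x : mixedSpace K, mixedEmbedding.norm x ≠ 0 → 1 ≤ W x := by
    intro x hx
    obtain ⟨u, hu, h1⟩ := hcc x hx
    have h2 : cut δ (u • x) = 1 := hbal (u • x) (by rwa [mixedEmbedding.norm_unit_smul])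
      (by rwa [mixedEmbedding.norm_unit_smul])
    have h3 := (hsumm x hx).le_tsum (⟨u, hu⟩ : E) fun v _ => cut_nonneg δ _
    rw [← h2]
    exact h3
  have hWinv : ∀ (v : (𝓞 K)ˣ) (_ : v ∈ E) (x : mixedSpace K), W (v • x) = W x := by
    intro v hv x
    rw [hW]
    simp only
    rw [← (Equiv.mulRight (⟨v, hv⟩ : E)).tsum_eq (fun u : E => cut δ ((u : (𝓞 K)ˣ) • x))]
    refine tsum_congr fun u => ?_
    simp [mul_smul]
  have hcW : ∀ x₀ : mixedSpace K, mixedEmbedding.norm x₀ ≠ 0 → ContDiffAt ℝ ∞ W x₀ := by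
    intro x₀ hx₀
    obtain ⟨F, hF⟩ := hlf x₀ hx₀
    have h1 : W =ᶠ[nhds x₀] fun x => ∑ u ∈ F, cut δ ((u : (𝓞 K)ˣ) • x) := by
      filter_upwards [hF] with x hx
      exact tsum_eq_sum fun u hu => hx u hu
    refine ContDiffAt.congr_of_eventuallyEq ?_ h1
    refine ContDiffAt.sum fun u _ => ?_
    have hx0 : ((u : (𝓞 K)ˣ) • x₀) ≠ 0 := by
      intro h
      have h2 := mixedEmbedding.norm_unit_smul (u : (𝓞 K)ˣ) x₀
      rw [h, map_zero] at h2
      exact hx₀ h2.symm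
    have h3 : ContDiffAt ℝ ∞ (cut δ : mixedSpace K → ℝ) ((u : (𝓞 K)ˣ) • x₀) :=
      (cd_cut δ).contDiffAt (isOpen_compl_singleton.mem_nhds hx0)
    have h4 : ContDiff ℝ ∞ fun x : mixedSpace K => (u : (𝓞 K)ˣ) • x := by
      exact (contDiff_const (c := mixedEmbedding K (((u : (𝓞 K)ˣ) : 𝓞 K) : K))).mul contDiff_id
    exact h3.comp x₀ h4.contDiffAt
  -- near a vector of norm 0
  have hzero : ∀ x : mixedSpace K, x ≠ 0 → mixedEmbedding.norm x = 0 → ∀ᶠ y in nhds x, cut δ y = 0 := by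
    intro x hx h0
    have h1 : rat x = 0 := by
      unfold rat
      rw [Pf_eq, h0]
      simp
    have h2 : ContinuousAt (rat : mixedSpace K → ℝ) x :=
      (cd_rat.contDiffAt (isOpen_compl_singleton.mem_nhds hx)).continuousAt
    have h3 : ∀ᶠ y in nhds x, rat y < δ := h2.eventually_lt_const (by rw [h1]; exact hδ)
    filter_upwards [h3] with y hy
    exact cut_zero hδ hy.le
  obtain ⟨w, hw⟩ : ∃ w : mixedSpace K → ℝ, w = fun x => if mixedEmbedding.norm x = 0 then 0 else cut δ x / W x := ⟨_, rfl⟩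
  have hw1 : ∀ x, mixedEmbedding.norm x ≠ 0 → w x = cut δ x / W x := fun x hx => by
    rw [hw]
    exact if_neg hx
  have hw0 : ∀ x, mixedEmbedding.norm x = 0 → w x = 0 := fun x hx => by
    rw [hw]
    exact if_pos hx
  have hcn : Continuous (mixedEmbedding.norm : mixedSpace K → ℝ) := mixedEmbedding.continuous_norm K
  have hwz : ∀ x : mixedSpace K, x ≠ 0 → mixedEmbedding.norm x = 0 → ∀ᶠ y in nhds x, w y = 0 := by
    intro x hx h0
    filter_upwards [hzero x hx h0] with y hy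
    by_cases h1 : mixedEmbedding.norm y = 0
    · exact hw0 y h1
    · rw [hw1 y h1, hy, zero_div]
  refine ⟨w, (Real.sqrt δ)⁻¹, inv_pos.2 (Real.sqrt_pos.2 hδ), ?_, ?_, ?_, ?_, hwz, ?_, ?_⟩
  · intro x hx
    refine ContDiffAt.contDiffWithinAt ?_
    by_cases h0 : mixedEmbedding.norm x = 0
    · exact (contDiffAt_const (c := (0 : ℝ))).congr_of_eventuallyEq (hwz x hx h0)
    · have h1 : w =ᶠ[nhds x] fun y => cut δ y / W y := by
        have h2 : ∀ᶠ y in nhds x, mixedEmbedding.norm y ≠ 0 := hcn.continuousAt.eventually_ne h0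
        filter_upwards [h2] with y hy
        exact hw1 y hy
      refine ContDiffAt.congr_of_eventuallyEq ?_ h1
      refine ((cd_cut δ).contDiffAt (isOpen_compl_singleton.mem_nhds hx)).div (hcW x h0) ?_
      linarith [hge x h0]
  · intro t x ht
    have hnt : mixedEmbedding.norm (t • x) = |t| ^ Module.finrank ℚ K * mixedEmbedding.norm x := mixedEmbedding.norm_smul t x
    by_cases h0 : mixedEmbedding.norm x = 0
    · rw [hw0 x h0, hw0 (t • x) (by rw [hnt, h0, mul_zero])]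
    · have h1 : mixedEmbedding.norm (t • x) ≠ 0 := by
        rw [hnt]
        exact mul_ne_zero (pow_ne_zero _ (abs_ne_zero.2 ht.ne')) h0
      have hcs : ∀ y : mixedSpace K, cut δ (t • y) = cut δ y := fun y => by
        unfold cut
        rw [rat_smul ht.ne']
      rw [hw1 x h0, hw1 _ h1, hcs]
      congr 1
      rw [hW]
      refine tsum_congr fun u => ?_
      have h2 : (u : (𝓞 K)ˣ) • (t • x) = t • ((u : (𝓞 K)ˣ) • x) := by
        show mixedEmbedding K (((u : (𝓞 K)ˣ) : 𝓞 K) : K) * (t • x) = t • (mixedEmbedding K (((u : (𝓞 K)ˣ) : 𝓞 K) : K) * x)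
        exact mul_smul_comm _ _ _
      rw [h2, hcs]
  · intro x
    by_cases h0 : mixedEmbedding.norm x = 0
    · rw [hw0 x h0]
      exact ⟨le_rfl, zero_le_one⟩
    · rw [hw1 x h0]
      have h1 := hge x h0
      have h2 : cut δ x ≤ 1 := Real.smoothTransition.le_one _
      exact ⟨div_nonneg (cut_nonneg _ _) (by linarith), (div_le_one (by linarith)).2 (by linarith)⟩
  · intro x hx
    have h0 : mixedEmbedding.norm x ≠ 0 := fun h => hx (hw0 x h)
    refine cut_supp hδ fun h => hx ?_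
    rw [hw1 x h0, h, zero_div]
  · exact hw0 0 (map_zero _)
  · intro x hx
    have h1 : ∀ u : E, w ((u : (𝓞 K)ˣ) • x) = cut δ ((u : (𝓞 K)ˣ) • x) / W x := by
      intro u
      rw [hw1 _ (by rwa [mixedEmbedding.norm_unit_smul]), hWinv _ u.2]
    have h2 := ((hsumm x hx).hasSum).div_const (W x)
    have h3 : W x ≠ 0 := by linarith [hge x hx]
    have h4 : (∑' u : E, cut δ ((u : (𝓞 K)ˣ) • x)) / W x = 1 := div_self h3
    rw [h4] at h2
    exact h2.congr_fun h1

end CFTL
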