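import Mathlib
import Pool.Agent.Lib.CFT.L2
import Pool.Agent.Lib.CFT.L3
import Pool.Agent.Lib.CFT.Y13
import Pool.Agent.Lib.CFT.Y16
import Pool.Agent.Lib.CFT.Y19

/-! # CFT, module ZL, part 4: the family over the lattice of integers

Fam w s x = [x totally positive] w(x) norm(x)^(-s). It is a homogeneous smooth family (fam_HF). gK w: its angular part as a function on K. periodic_k: sums with
periodic coefficients of mean 0 continue to Re s > 1 - k/d. -/

open NumberField NumberField.InfinitePlace NumberField.mixedEmbedding CFTY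
open scoped ContDiff

namespace CFTL

open scoped Classical

variable {K : Type} [Field K] [NumberField K]

/-- The totally positive vectors. -/
def TPs (K : Type) [Field K] : Set (mixedSpace K) := {x | ∀ w : {w : InfinitePlace K // IsReal w}, 0 < x.1 w}

theorem tp_iff {z : K} (hz : z ≠ 0) : TP z ↔ mixedEmbedding K z ∈ TPs K := by
  constructor
  · rintro ⟨-, h⟩ w
    rw [mixedEmbedding_apply_isReal]
    exact h _
  · intro h
    refine ⟨hz, fun φ => ?_⟩
    have hr : ComplexEmbedding.IsReal (Complex.ofRealHom.comp φ) := by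
      rw [ComplexEmbedding.isReal_iff]
      refine RingHom.ext fun x => ?_
      rw [ComplexEmbedding.conjugate_coe_eq]
      exact Complex.conj_ofReal _
    have h1 : IsReal (InfinitePlace.mk (Complex.ofRealHom.comp φ)) := ⟨_, hr, rfl⟩
    have h2 := h ⟨_, h1⟩
    rw [mixedEmbedding_apply_isReal] at h2
    have h3 : ((embedding_of_isReal h1 z : ℝ) : ℂ) = ((φ z : ℝ) : ℂ) := by
      rw [embedding_of_isReal_apply, embedding_mk_eq_of_isReal hr]
      rfl
    rw [Complex.ofReal_inj.1 h3] at h2
    exact h2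

/-- The family. -/
noncomputable def Fam (w : mixedSpace K → ℝ) (s : ℂ) (x : mixedSpace K) : ℂ :=
  (if x ∈ TPs K then (w x : ℂ) else 0) * (mixedEmbedding.norm x : ℂ) ^ (-s)

/-- The angular part on K. -/
noncomputable def gK (w : mixedSpace K → ℝ) (z : K) : ℂ :=
  (if TP z then 1 else 0) * (w (mixedEmbedding K z) : ℂ) * 1

theorem fs_eq (w : mixedSpace K → ℝ) (h0 : w 0 = 0) (s : ℂ) (z : K) : Fs (gK w) s z = Fam w s (mixedEmbedding K z) := by
  unfold Fs gK Fam
  have h1 : nm z = mixedEmbedding.norm (mixedEmbedding K z) := by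
    rw [mixedEmbedding.norm_eq_norm]
    unfold nm
    rw [Rat.cast_abs]
  rw [h1, mul_one]
  congr 1
  by_cases hz : z = 0
  · subst hz
    rw [map_zero, h0]
    simp
  · by_cases h2 : TP z
    · rw [if_pos h2, if_pos ((tp_iff hz).1 h2), one_mul]
    · rw [if_neg h2, if_neg fun h => h2 ((tp_iff hz).2 h), zero_mul]

theorem tps_loc {x : mixedSpace K} (hx : mixedEmbedding.norm x ≠ 0) :
    (∀ᶠ y in nhds x, y ∈ TPs K) ∨ (∀ᶠ y in nhds x, y ∉ TPs K) := by
  have hc : ∀ w : {w : InfinitePlace K // IsReal w}, Continuous fun y : mixedSpace K => y.1 w := fun w =>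
    (continuous_apply w).comp continuous_fst
  have hne : ∀ w : {w : InfinitePlace K // IsReal w}, x.1 w ≠ 0 := by
    intro w h
    have h1 := mixedEmbedding.norm_ne_zero_iff.1 hx w.1
    rw [normAtPlace_apply_of_isReal w.2] at h1
    exact h1 (by rw [show x.1 ⟨w.1, w.2⟩ = x.1 w from rfl, h, norm_zero])
  by_cases h : x ∈ TPs K
  · left
    rw [TPs]
    simp only [Set.mem_ofPred_eq]
    rw [Filter.eventually_all]
    exact fun w => (hc w).continuousAt.eventually_const_lt (h w)
  · right
    have h1 : ∃ w : {w : InfinitePlace K // IsReal w}, x.1 w < 0 := by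
      by_contra h2
      push Not at h2
      exact h fun w => lt_of_le_of_ne (h2 w) (Ne.symm (hne w))
    obtain ⟨w, hw⟩ := h1
    filter_upwards [(hc w).continuousAt.eventually_lt_const hw] with y hy h2
    exact lt_asymm hy (h2 w)

theorem fam_HF {w : mixedSpace K → ℝ} (h1 : ContDiffOn ℝ ∞ w {0}ᶜ) (h2 : ∀ (t : ℝ) (x : mixedSpace K), 0 < t → w (t • x) = w x)
    (h3 : ∀ x, x ≠ 0 → mixedEmbedding.norm x = 0 → ∀ᶠ y in nhds x, w y = 0) : HF (dg K) 0 (Fam w) := by
  constructor
  · rintro ⟨s, x⟩ hx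
    have hx' : x ≠ 0 := hx
    refine ContDiffAt.contDiffWithinAt ?_
    have hsnd : Filter.Tendsto (fun p : ℂ × mixedSpace K => p.2) (nhds (s, x)) (nhds x) := continuous_snd.continuousAt
    by_cases h0 : mixedEmbedding.norm x = 0
    · refine (contDiffAt_const (c := (0 : ℂ))).congr_of_eventuallyEq ?_
      filter_upwards [hsnd.eventually (h3 x hx' h0)] with p hp
      unfold Fam
      rw [hp]
      simp
    · -- the smooth formula
      have hP : Pf x ≠ 0 := by
        rw [Pf_eq]
        exact pow_ne_zero _ h0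
      have hlog : ContDiffAt ℝ ∞ (fun p : ℂ × mixedSpace K => Real.log (Pf p.2)) (s, x) := by
        have e1 : ContDiffAt ℝ ∞ (fun p : ℂ × mixedSpace K => Pf p.2) (s, x) := (cd_Pf.comp contDiff_snd).contDiffAt
        exact e1.log hP
      have hexp : ContDiffAt ℝ ∞ (fun p : ℂ × mixedSpace K => Complex.exp (-p.1 * ((1 / 2 : ℝ) * Real.log (Pf p.2) : ℝ))) (s, x) := by
        refine ContDiffAt.cexp ?_
        refine (contDiff_fst.neg.contDiffAt).mul ?_
        exact Complex.ofRealCLM.contDiff.contDiffAt.comp (s, x) (contDiffAt_const.mul hlog)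
      have hw : ContDiffAt ℝ ∞ (fun p : ℂ × mixedSpace K => ((w p.2 : ℝ) : ℂ)) (s, x) := by
        have e1 : ContDiffAt ℝ ∞ w x := h1.contDiffAt (isOpen_compl_singleton.mem_nhds hx')
        have e2 : ContDiffAt ℝ ∞ (fun p : ℂ × mixedSpace K => w p.2) (s, x) := e1.comp (s, x) contDiff_snd.contDiffAt
        exact Complex.ofRealCLM.contDiff.contDiffAt.comp (s, x) e2
      have hcn : Continuous (mixedEmbedding.norm : mixedSpace K → ℝ) := mixedEmbedding.continuous_norm K
      have hpow : ∀ᶠ p : ℂ × mixedSpace K in nhds (s, x), (mixedEmbedding.norm p.2 : ℂ) ^ (-p.1) =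
          Complex.exp (-p.1 * ((1 / 2 : ℝ) * Real.log (Pf p.2) : ℝ)) := by
        have e1 : ∀ᶠ y in nhds x, mixedEmbedding.norm y ≠ 0 := hcn.continuousAt.eventually_ne h0
        filter_upwards [hsnd.eventually e1] with p hp
        rw [Complex.cpow_def_of_ne_zero (Complex.ofReal_ne_zero.2 hp), Pf_eq, Real.log_pow,
          ← Complex.ofReal_log (mixedEmbedding.norm_nonneg _)]
        congr 1
        push_cast
        ring
      rcases tps_loc h0 with h4 | h4
      · refine (hw.mul hexp).congr_of_eventuallyEq ?_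
        filter_upwards [hsnd.eventually h4, hpow] with p hp1 hp2
        show Fam w p.1 p.2 = _
        unfold Fam
        rw [if_pos hp1, hp2]
      · refine (contDiffAt_const (c := (0 : ℂ))).congr_of_eventuallyEq ?_
        filter_upwards [hsnd.eventually h4] with p hp1
        unfold Fam
        rw [if_neg hp1, zero_mul]
  · intro s t x ht hx
    unfold Fam
    have e1 : t • x ∈ TPs K ↔ x ∈ TPs K := by
      constructor
      · intro h w
        have h5 := h w
        have h6 : (t • x).1 w = t * x.1 w := rfl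
        rw [h6] at h5
        exact (mul_pos_iff_of_pos_left ht).1 h5
      · intro h w
        exact mul_pos ht (h w)
    rw [h2 t x ht]
    simp only [e1]
    rw [mixedEmbedding.norm_smul, abs_of_pos ht]
    have e2 : ((t ^ Module.finrank ℚ K * mixedEmbedding.norm x : ℝ) : ℂ) ^ (-s) =
        (t : ℂ) ^ (-((dg K : ℝ) * s + (0 : ℝ))) * (mixedEmbedding.norm x : ℂ) ^ (-s) := by
      rw [Complex.ofReal_mul, Complex.mul_cpow_ofReal_nonneg (by positivity) (mixedEmbedding.norm_nonneg x)]
      congr 1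
      have htn : 0 < t ^ Module.finrank ℚ K := pow_pos ht _
      rw [Complex.cpow_def_of_ne_zero (Complex.ofReal_ne_zero.2 htn.ne'), Complex.cpow_def_of_ne_zero (Complex.ofReal_ne_zero.2 ht.ne'),
        ← Complex.ofReal_log htn.le, ← Complex.ofReal_log ht.le, Real.log_pow]
      congr 1
      unfold dg
      push_cast
      ring
    rw [e2]
    ring

/-- The embedding of the integers. -/
noncomputable def emb (K : Type) [Field K] [NumberField K] : 𝓞 K →+ mixedSpace K :=
  ((mixedEmbedding K).comp (algebraMap (𝓞 K) K)).toAddMonoidHom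

theorem emb_apply (x : 𝓞 K) : emb K x = mixedEmbedding K (x : K) := rfl

theorem emb_inj : Function.Injective (emb K) := (mixedEmbedding_injective K).comp RingOfIntegers.coe_injective

theorem emb_sum {β : ℝ} (hβ : (dg K : ℝ) < β) : Summable fun x : 𝓞 K => ‖emb K x‖ ^ (-β) := by
  have hinj : Function.Injective (((mixedEmbedding K).comp (algebraMap (𝓞 K) K)).toIntAlgHom.toLinearMap) :=
    (mixedEmbedding_injective K).comp RingOfIntegers.coe_injective
  let e : 𝓞 K ≃ₗ[ℤ] mixedEmbedding.integerLattice K := LinearEquiv.ofInjective _ hinj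
  have hr : Module.finrank ℤ (mixedEmbedding.integerLattice K) = dg K := by
    rw [← e.finrank_eq, RingOfIntegers.rank]
    rfl
  have h := ZLattice.summable_norm_rpow (mixedEmbedding.integerLattice K) (-β) (by rw [hr]; linarith)
  exact e.toEquiv.summable_iff.2 h

theorem emb_fin (ρ : ℝ) : {x : 𝓞 K | ‖emb K x‖ < ρ}.Finite := by
  have h1 := NumberField.Embeddings.finite_of_norm_le K ℂ ρ
  refine Set.Finite.of_finite_image (f := fun u : 𝓞 K => (u : K)) (h1.subset ?_) ?_
  · rintro _ ⟨u, hu, rfl⟩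
    refine ⟨u.isIntegral_coe, fun φ => ?_⟩
    have h2 := place_le (emb K u) (InfinitePlace.mk φ)
    rw [emb_apply, normAtPlace_apply, InfinitePlace.apply] at h2
    exact h2.trans (le_of_lt hu)
  · intro u _ v _ h
    exact RingOfIntegers.ext h

/-- Periodic coefficients of mean 0. -/
theorem periodic_k {w : mixedSpace K → ℝ} (h1 : ContDiffOn ℝ ∞ w {0}ᶜ) (h2 : ∀ (t : ℝ) (x : mixedSpace K), 0 < t → w (t • x) = w x)
    (h3 : ∀ x, x ≠ 0 → mixedEmbedding.norm x = 0 → ∀ᶠ y in nhds x, w y = 0) (h4 : w 0 = 0) (J : Ideal (𝓞 K)) (hJ : J ≠ ⊥)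
    (a : 𝓞 K ⧸ J → ℂ) (ha : ∑ᶠ q, a q = 0) (k : ℕ) : ∃ H : ℂ → ℂ, DifferentiableOn ℂ H {s | 1 - k / (dg K : ℝ) < s.re} ∧
      ∀ s : ℂ, 1 < s.re → H s = ∑' x : 𝓞 K, a (Ideal.Quotient.mk J x) * Fs (gK w) s (x : K) := by
  have hfin : Finite (𝓞 K ⧸ J) := Ideal.finiteQuotientOfFreeOfNeBot J hJ
  have hfin' : Finite (𝓞 K ⧸ J.toAddSubgroup) := hfin
  have hd : (0 : ℝ) < dg K := by exact_mod_cast dg_pos (K := K)
  have hF0 : ∀ s, Fam w s 0 = 0 := by
    intro s
    unfold Fam
    rw [h4]
    simp
  have hFd : ∀ y, Differentiable ℂ fun s => Fam w s y := by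
    intro y
    unfold Fam
    by_cases h0 : mixedEmbedding.norm y = 0
    · by_cases hy : y = 0
      · subst hy
        simp [h4]
      · have h5 : w y = 0 := (h3 y hy h0).self_of_nhds
        rw [h5]
        simp
    · exact (differentiable_id.neg.const_cpow (Or.inl (Complex.ofReal_ne_zero.2 h0))).const_mul _
  have hrep : ∀ x : 𝓞 K, (QuotientAddGroup.mk x : 𝓞 K ⧸ J.toAddSubgroup) = Ideal.Quotient.mk J x := fun x => rfl
  obtain ⟨H, hH1, hH2⟩ := periodicK (emb_inj (K := K)) (J := J.toAddSubgroup) hd (fun β hβ => emb_sum hβ) emb_fin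
    (fam_HF h1 h2 h3) hF0 hFd (a := a) ha k
  refine ⟨H, hH1, fun s hs => ?_⟩
  rw [hH2 s hs]
  refine tsum_congr fun x => ?_
  rw [fs_eq w h4]
  rfl

end CFTL
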