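import Mathlib
import Pool.Agent.Lib.CFT.L4
import Pool.Agent.Lib.CFT.Y24
import Pool.Agent.Lib.CFT.Y30B

/-! # CFT, module ZL, part 5: continuation of the L-series of ray class characters to Re s > 1 - k/d, for every k -/

open NumberField NumberField.InfinitePlace NumberField.mixedEmbedding IsDedekindDomain CFTY CFT
open scoped ContDiff

namespace CFTL

open scoped Classical

variable {K : Type} [Field K] [NumberField K]

/-- The half planes. -/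
def HPk (K : Type) [Field K] [NumberField K] (k : ℕ) : Set ℂ := {s | 1 - k / (dg K : ℝ) < s.re}

theorem finiteIndex_of_map {G T : Type} [Group G] [Finite T] (P : Subgroup G) (f : G → T)
    (h : ∀ a b, f a = f b → a⁻¹ * b ∈ P) : P.FiniteIndex := by
  have h1 : Function.Injective fun q : G ⧸ P => f q.out := by
    intro q q' hq
    have h2 := h _ _ hq
    rw [← QuotientGroup.out_eq' q, ← QuotientGroup.out_eq' q', QuotientGroup.eq]
    exact h2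
  have h2 : Finite (G ⧸ P) := Finite.of_injective _ h1
  exact Subgroup.finiteIndex_of_finite_quotient

theorem finite_real : Finite (K →+* ℝ) := by
  refine Finite.of_injective (fun φ : K →+* ℝ => Complex.ofRealHom.comp φ) fun φ ψ h => ?_
  refine RingHom.ext fun x => ?_
  exact Complex.ofReal_injective (RingHom.congr_fun h x)

theorem ru_fin {m : Ideal (𝓞 K)} (hm : m ≠ ⊥) : (RU m).FiniteIndex := by
  have hfr : Finite (K →+* ℝ) := finite_real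
  have hfq : Finite (𝓞 K ⧸ m) := Ideal.finiteQuotientOfFreeOfNeBot m hm
  refine finiteIndex_of_map (T := (𝓞 K ⧸ m) × ((K →+* ℝ) → Bool)) (RU m)
    (fun u => (Ideal.Quotient.mk m (u : 𝓞 K), fun φ => decide (0 < φ ((u : 𝓞 K) : K)))) fun u v h => ?_
  rw [Prod.mk.injEq] at h
  obtain ⟨h1, h2⟩ := h
  have h3 : (u : 𝓞 K) - v ∈ m := Ideal.Quotient.eq.1 h1
  have hu : ∀ u : (𝓞 K)ˣ, ((u : 𝓞 K) : K) ≠ 0 := fun u h => u.ne_zero (RingOfIntegers.ext h)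
  have e1 : (((u⁻¹ * v : (𝓞 K)ˣ) : 𝓞 K) : K) = ((u : 𝓞 K) : K)⁻¹ * ((v : 𝓞 K) : K) := by
    have e2 : ((u : 𝓞 K) : K) * (((u⁻¹ : (𝓞 K)ˣ) : 𝓞 K) : K) = 1 := congrArg (algebraMap (𝓞 K) K) (Units.mul_inv u)
    have e3 : (((u⁻¹ : (𝓞 K)ˣ) : 𝓞 K) : K) = ((u : 𝓞 K) : K)⁻¹ := (inv_eq_of_mul_eq_one_right e2).symm
    have e4 : (((u⁻¹ * v : (𝓞 K)ˣ) : 𝓞 K) : K) = (((u⁻¹ : (𝓞 K)ˣ) : 𝓞 K) : K) * ((v : 𝓞 K) : K) := rfl
    rw [e4, e3]
  refine ⟨?_, ?_, fun φ => ?_⟩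
  · have e : ((u⁻¹ * v : (𝓞 K)ˣ) : 𝓞 K) - 1 = -(((u⁻¹ : (𝓞 K)ˣ) : 𝓞 K) * ((u : 𝓞 K) - v)) := by
      have h : ((u⁻¹ : (𝓞 K)ˣ) : 𝓞 K) * (u : 𝓞 K) = 1 := Units.inv_mul u
      rw [Units.val_mul]
      linear_combination h
    rw [e]
    exact m.neg_mem (m.mul_mem_left _ h3)
  · exact hu _
  · rw [e1, map_mul, map_inv₀, ← div_eq_inv_mul]
    have h4 := decide_eq_decide.1 (congrFun h2 φ)
    have h5 : φ ((u : 𝓞 K) : K) ≠ 0 := (map_ne_zero φ).2 (hu u)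
    have h6 : φ ((v : 𝓞 K) : K) ≠ 0 := (map_ne_zero φ).2 (hu v)
    rcases lt_or_gt_of_ne h5 with h7 | h7
    · have h8 : φ ((v : 𝓞 K) : K) < 0 := lt_of_le_of_ne (not_lt.1 fun h => absurd (h4.2 h) (not_lt.2 h7.le)) h6
      exact div_pos_of_neg_of_neg h8 h7
    · exact div_pos (h4.1 h7) h7

/-- The smooth weight on K. -/
theorem part_K {m : Ideal (𝓞 K)} (hm : m ≠ ⊥) : ∃ (w : mixedSpace K → ℝ) (A : ℝ), 0 < A ∧ ContDiffOn ℝ ∞ w {0}ᶜ ∧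
    (∀ (t : ℝ) (x : mixedSpace K), 0 < t → w (t • x) = w x) ∧
    (∀ x, x ≠ 0 → mixedEmbedding.norm x = 0 → ∀ᶠ y in nhds x, w y = 0) ∧ w 0 = 0 ∧
    Bd (fun x : K => (w (mixedEmbedding K x) : ℂ)) ∧ (∀ x : K, w (mixedEmbedding K x) ≠ 0 → Rg A x) ∧
    ∀ x : K, x ≠ 0 → HasSum (fun u : RU m => w (mixedEmbedding K ((((u : (𝓞 K)ˣ) : 𝓞 K) : K) * x))) 1 := by
  have := ru_fin hm
  obtain ⟨w, A, hA, h1, h2, h3, h4, h5, h6, h7⟩ := part_smooth (RU m)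
  have hnm : ∀ z : K, nm z = mixedEmbedding.norm (mixedEmbedding K z) := fun z => by
    rw [mixedEmbedding.norm_eq_norm]
    unfold nm
    rw [Rat.cast_abs]
  refine ⟨w, A, hA, h1, h2, h5, h6, ⟨1, zero_le_one, fun x => ?_⟩, fun x hx => ⟨?_, ?_⟩, fun x hx => ?_⟩
  · rw [Complex.norm_real, Real.norm_of_nonneg (h3 _).1]
    exact (h3 _).2
  · rintro rfl
    rw [map_zero] at hx
    exact hx h6
  · rw [hnm]
    have h8 : house x ≤ ‖mixedEmbedding K x‖ := by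
      unfold house
      refine (pi_norm_le_iff_of_nonneg (norm_nonneg _)).2 fun φ => ?_
      have h9 := place_le (mixedEmbedding K x) (InfinitePlace.mk φ)
      rw [normAtPlace_apply, InfinitePlace.apply] at h9
      exact h9
    exact (pow_le_pow_left₀ (house_nonneg x) h8 _).trans (h4 _ hx)
  · have h8 : mixedEmbedding.norm (mixedEmbedding K x) ≠ 0 := by
      rw [← hnm]
      exact (nm_pos hx).ne'
    refine (h7 _ h8).congr_fun fun u => ?_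
    show w (mixedEmbedding K ((((u : (𝓞 K)ˣ) : 𝓞 K) : K) * x)) = w (mixedEmbedding K (((u : (𝓞 K)ˣ) : 𝓞 K) : K) * mixedEmbedding K x)
    rw [map_mul]

theorem compare_k {w : mixedSpace K → ℝ} {A : ℝ} (h1 : ContDiffOn ℝ ∞ w {0}ᶜ) (h2 : ∀ (t : ℝ) (x : mixedSpace K), 0 < t → w (t • x) = w x)
    (h3 : ∀ x, x ≠ 0 → mixedEmbedding.norm x = 0 → ∀ᶠ y in nhds x, w y = 0) (h4 : w 0 = 0) (hB : Bd (gK w))
    (hA : ∀ x, gK w x ≠ 0 → Rg A x) (k : ℕ) {m b c : Ideal (𝓞 K)}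
    (hm : m ≠ ⊥) (hb : b ≠ ⊥) (hc : c ≠ ⊥) (hbm : IsCoprime b m) (hcm : IsCoprime c m) :
    ∃ H : ℂ → ℂ, DifferentiableOn ℂ H (HPk K k) ∧ ∀ s : ℂ, 1 < s.re → H s =
      (Ideal.absNorm b : ℂ) * (∑' x : 𝓞 K, if x - 1 ∈ m ∧ x ∈ b * c then Fs (gK w) s (x : K) else 0) -
        ∑' x : 𝓞 K, if x - 1 ∈ m ∧ x ∈ c then Fs (gK w) s (x : K) else 0 := by
  have hbc : IsCoprime (b * c) m := hbm.mul_left hcm
  have hJ : m * (b * c) ≠ ⊥ := mul_ne_zero hm (mul_ne_zero hb hc)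
  have hle2 : m * (b * c) ≤ m * c := Ideal.mul_mono_right Ideal.mul_le_right
  obtain ⟨a₁, h11, h12⟩ := weight hJ hbc le_rfl
  obtain ⟨a₂, h21, h22⟩ := weight hJ hcm hle2
  haveI : Finite (𝓞 K ⧸ m * (b * c)) := Ideal.finiteQuotientOfFreeOfNeBot _ hJ
  haveI : Fintype (𝓞 K ⧸ m * (b * c)) := Fintype.ofFinite _
  have hN : ∀ I : Ideal (𝓞 K), I ≠ ⊥ → (Ideal.absNorm I : ℂ) ≠ 0 := fun I hI => Nat.cast_ne_zero.2 (mt Ideal.absNorm_eq_zero_iff.1 hI)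
  have ha1 : ∑ᶠ q, a₁ q = 1 := mul_right_cancel₀ (hN _ hJ) (by rw [h12, one_mul])
  have ha2 : ∑ᶠ q, a₂ q = (Ideal.absNorm b : ℂ) := by
    have hmc : m * c ≠ ⊥ := mul_ne_zero hm hc
    refine mul_right_cancel₀ (hN _ hmc) ?_
    rw [h22, map_mul, map_mul, map_mul]
    push_cast
    ring
  have ha : ∑ᶠ q, ((Ideal.absNorm b : ℂ) * a₁ q - a₂ q) = 0 := by
    rw [finsum_eq_sum_of_fintype] at ha1 ha2 ⊢
    rw [Finset.sum_sub_distrib, ← Finset.mul_sum, ha1, ha2, mul_one, sub_self]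
  obtain ⟨H, hH1, hH2⟩ := periodic_k h1 h2 h3 h4 (m * (b * c)) hJ _ ha k
  refine ⟨H, hH1, fun s hs => ?_⟩
  rw [hH2 s hs]
  have hF := fs_summable hB hA hs (K := K)
  have hS : ∀ d : Ideal (𝓞 K), Summable fun x : 𝓞 K => if x - 1 ∈ m ∧ x ∈ d then Fs (gK w) s (x : K) else 0 := by
    intro d
    refine Summable.of_norm_bounded (g := fun x : 𝓞 K => ‖Fs (gK w) s (x : K)‖) hF.norm fun x => ?_
    split_ifs
    · exact le_rfl
    · rw [norm_zero]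
      exact norm_nonneg _
  rw [← tsum_mul_left, ← ((hS (b * c)).mul_left _).tsum_sub (hS c)]
  refine tsum_congr fun x => ?_
  rw [h11, h21]
  split_ifs <;> ring

/-- The multiples theorem. -/
theorem multiples_aux_k (k : ℕ) {m : Ideal (𝓞 K)} (hm : m ≠ ⊥) {χ : Ideal (𝓞 K) →*₀ ℂ}
    (hχ : HCh m (fun _ => 1) χ) {T : Finset (Ideal (𝓞 K))} (hT : Reps m T) {b : Ideal (𝓞 K)} (hb : b ≠ ⊥) (hbm : IsCoprime b m) :
    ∃ H : ℂ → ℂ, DifferentiableOn ℂ H (HPk K k) ∧ ∀ s : ℂ, 1 < s.re →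
      H s = (χ b * (Ideal.absNorm b : ℂ) ^ (1 - s) - 1) * Lc χ s := by
  obtain ⟨w, A, hA0, w1, w2, w3, w4, wB, wA, wS⟩ := part_K (K := K) hm
  have gB : Bd (K := K) (gK w) := by
    have h1 : Bd (K := K) (fun _ => (1 : ℂ)) := ⟨1, zero_le_one, fun _ => by rw [norm_one]⟩
    exact (Bd_TP.mul wB).mul h1
  have gA : ∀ x : K, gK w x ≠ 0 → Rg A x := by
    intro x hx
    refine wA x fun h0 => hx ?_
    unfold gK
    rw [h0, Complex.ofReal_zero, mul_zero, zero_mul]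
  have hex : ∀ c : Ideal (𝓞 K), ∃ H : ℂ → ℂ, DifferentiableOn ℂ H (HPk K k) ∧ (c ∈ T → ∀ s : ℂ, 1 < s.re → H s =
      (Ideal.absNorm b : ℂ) * (∑' x : 𝓞 K, if x - 1 ∈ m ∧ x ∈ b * c then
        Fs (gK w) s (x : K) else 0) -
        ∑' x : 𝓞 K, if x - 1 ∈ m ∧ x ∈ c then
          Fs (gK w) s (x : K) else 0) := by
    intro c
    by_cases hc : c ∈ T
    · obtain ⟨H, h1, h2⟩ := compare_k w1 w2 w3 w4 gB gA k hm hb (hT.1 c hc).1 hbm (hT.1 c hc).2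
      exact ⟨H, h1, fun _ => h2⟩
    · exact ⟨fun _ => 0, differentiableOn_const _, fun h => absurd h hc⟩
  choose Hc hH1 hH2 using hex
  refine ⟨fun s => ∑ c ∈ T, ((χ c)⁻¹ * (Ideal.absNorm c : ℂ) ^ s) * Hc c s, ?_, fun s hs => ?_⟩
  · refine DifferentiableOn.fun_sum fun c hc => ?_
    refine DifferentiableOn.mul ?_ (hH1 c)
    refine DifferentiableOn.const_mul ?_ _
    exact (differentiable_id.const_cpow (Or.inl (y24_norm_ne (hT.1 c hc).1))).differentiableOn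
  · have e1 : ∀ c ∈ T, ((χ c)⁻¹ * (Ideal.absNorm c : ℂ) ^ s) * Hc c s =
        (Ideal.absNorm b : ℂ) * ((CFTZ.tm χ s c)⁻¹ *
          ∑' I : Ideal (𝓞 K), (if PrI m I ∧ I ≤ b * c then CFTZ.tm χ s I else 0)) -
          (CFTZ.tm χ s c)⁻¹ * ∑' I : Ideal (𝓞 K), (if PrI m I ∧ I ≤ ⊤ * c then CFTZ.tm χ s I else 0) := by
      intro c hc
      have u1 := unfold_sum (w := fun z => w (mixedEmbedding K z)) hχ wS gB wA (b * c) hs
      have u2 := unfold_sum (w := fun z => w (mixedEmbedding K z)) hχ wS gB wA c hs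
      rw [hH2 c hc s hs, ← y24_inv, Ideal.top_mul, ← u1, ← u2]
      unfold gK
      ring
    show (∑ c ∈ T, ((χ c)⁻¹ * (Ideal.absNorm c : ℂ) ^ s) * Hc c s) = _
    rw [Finset.sum_congr rfl e1, Finset.sum_sub_distrib, ← Finset.mul_sum, sum_reps hχ hT hb hs,
      sum_reps hχ hT (b := ⊤) top_ne_bot hs, y24_top]
    have e2 : (Ideal.absNorm b : ℂ) ^ (1 - s) = (Ideal.absNorm b : ℂ) * (Ideal.absNorm b : ℂ) ^ (-s) := by
      rw [sub_eq_add_neg, Complex.cpow_add _ _ (y24_norm_ne hb), Complex.cpow_one]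
    rw [e2]
    unfold CFTZ.tm
    ring

theorem multiples_k (hf : ∀ (S : Finset (Pr K)) (N : ℕ), (Pray S N).FiniteIndex) (k : ℕ) {m : Ideal (𝓞 K)} (hm : m ≠ ⊥)
    {χ : Ideal (𝓞 K) →*₀ ℂ} (hχ : HCh m (fun _ => 1) χ) {b : Ideal (𝓞 K)} (hb : b ≠ ⊥)
    (hbm : IsCoprime b m) : ∃ H : ℂ → ℂ, DifferentiableOn ℂ H (HPk K k) ∧ ∀ s : ℂ, 1 < s.re →
      H s = (χ b * (Ideal.absNorm b : ℂ) ^ (1 - s) - 1) * Lc χ s := by
  obtain ⟨S, N, h1, h2⟩ := exists_mI hm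
  obtain ⟨T, hT⟩ := exists_reps S N (hf S N)
  exact multiples_aux_k k (mI_ne S N) (hχ.mono h1 h2) hT hb ((h2 b).1 hbm)

theorem l5_open (k : ℕ) : IsOpen (HPk K k) := isOpen_lt continuous_const Complex.continuous_re

theorem l5_conn (k : ℕ) : IsPreconnected (HPk K k) := (convex_halfSpace_re_gt _).isPreconnected

theorem l5_sub (k : ℕ) : {s : ℂ | 1 < s.re} ⊆ HPk K k := by
  intro s hs
  have h1 : (1 : ℝ) < s.re := hs
  have h2 : 0 ≤ (k : ℝ) / (dg K : ℝ) := by positivity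
  show 1 - k / (dg K : ℝ) < s.re
  linarith

theorem typ_zero (x : K) : typ 0 x = 1 := by
  unfold typ
  simp

theorem l5_typ {m : Ideal (𝓞 K)} {χ : Ideal (𝓞 K) →*₀ ℂ} (hχ : HCh m (fun _ => 1) χ) : HCh m (typ 0) χ :=
  ⟨hχ.zero, hχ.norm, fun x h1 h2 => by rw [hχ.ray x h1 h2, typ_zero]⟩

/-- Hecke L-functions are analytic beyond the line re s = 1 -/
theorem cont_k (hf : ∀ (S : Finset (Pr K)) (N : ℕ), (Pray S N).FiniteIndex) (k : ℕ) {m : Ideal (𝓞 K)} (hm : m ≠ ⊥)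
    {χ : Ideal (𝓞 K) →*₀ ℂ} (hχ : HCh m (fun _ => 1) χ)
    (h1 : ∃ b : Ideal (𝓞 K), b ≠ ⊥ ∧ IsCoprime b m ∧ χ b ≠ 1) :
    ∃ H : ℂ → ℂ, DifferentiableOn ℂ H (HPk K k) ∧ ∀ s : ℂ, 1 < s.re → H s = Lc χ s := by
  have hex : ∀ b : {b : Ideal (𝓞 K) // b ≠ ⊥ ∧ IsCoprime b m}, ∃ H : ℂ → ℂ, DifferentiableOn ℂ H (HPk K k) ∧
      ∀ s : ℂ, 1 < s.re → H s = (χ b.1 * (Ideal.absNorm b.1 : ℂ) ^ (1 - s) - 1) * Lc χ s := fun b =>
    multiples_k hf k hm hχ b.2.1 b.2.2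
  choose H hH1 hH2 using hex
  refine glue (l5_open k) (l5_conn k) (isOpen_lt continuous_const Complex.continuous_re) y30b_ne (l5_sub k) (Lc χ)
    (fun b : {b : Ideal (𝓞 K) // b ≠ ⊥ ∧ IsCoprime b m} => fun s => χ b.1 * (Ideal.absNorm b.1 : ℂ) ^ (1 - s) - 1)
    H (fun b => ?_) hH1 hH2 (fun z _ => ?_)
  · exact (((y30b_cpow b.2.1).const_mul _).sub_const _).differentiableOn
  · by_contra hcon
    have h2 : ∀ b : Ideal (𝓞 K), b ≠ ⊥ → IsCoprime b m → χ b * (Ideal.absNorm b : ℂ) ^ (1 - z) = 1 := by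
      intro b hb hbm
      by_contra hne
      exact hcon ⟨⟨b, hb, hbm⟩, sub_ne_zero.2 hne⟩
    have h3 := excep hm (l5_typ hχ) h2
    obtain ⟨b, hb, hbm, hb1⟩ := h1
    have h4 := h2 b hb hbm
    rw [h3, sub_self, Complex.cpow_zero, mul_one] at h4
    exact hb1 h4

/-- the pole of the L-function of the trivial character -/
theorem pole_k (hf : ∀ (S : Finset (Pr K)) (N : ℕ), (Pray S N).FiniteIndex) {k : ℕ} (hk : 1 ≤ k) {m : Ideal (𝓞 K)} (hm : m ≠ ⊥)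
    {χ : Ideal (𝓞 K) →*₀ ℂ} (hχ : HCh m (fun _ => 1) χ)
    (h1 : ∀ b : Ideal (𝓞 K), b ≠ ⊥ → IsCoprime b m → χ b = 1) :
    ∃ H : ℂ → ℂ, DifferentiableOn ℂ H (HPk K k) ∧ ∀ s : ℂ, 1 < s.re → H s = (s - 1) * Lc χ s := by
  have hex : ∀ b : {b : Ideal (𝓞 K) // b ≠ ⊥ ∧ IsCoprime b m}, ∃ H : ℂ → ℂ, DifferentiableOn ℂ H (HPk K k) ∧
      ∀ s : ℂ, 1 < s.re → H s = (χ b.1 * (Ideal.absNorm b.1 : ℂ) ^ (1 - s) - 1) * Lc χ s := fun b =>
    multiples_k hf k hm hχ b.2.1 b.2.2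
  choose H hH1 hH2 using hex
  have hds : ∀ (b : Ideal (𝓞 K)) (s : ℂ), (s - 1) * dslope (fun s : ℂ => (Ideal.absNorm b : ℂ) ^ (1 - s)) 1 s =
      (Ideal.absNorm b : ℂ) ^ (1 - s) - 1 := by
    intro b s
    have h := sub_smul_dslope (fun s : ℂ => (Ideal.absNorm b : ℂ) ^ (1 - s)) 1 s
    rw [smul_eq_mul] at h
    rw [h, sub_self, Complex.cpow_zero]
  refine glue (l5_open k) (l5_conn k) (isOpen_lt continuous_const Complex.continuous_re) y30b_ne (l5_sub k)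
    (fun s => (s - 1) * Lc χ s)
    (fun b : {b : Ideal (𝓞 K) // b ≠ ⊥ ∧ IsCoprime b m} => dslope (fun s : ℂ => (Ideal.absNorm b.1 : ℂ) ^ (1 - s)) 1)
    H (fun b => ?_) hH1 (fun b s hs => ?_) (fun z _ => ?_)
  · refine (Complex.differentiableOn_dslope ?_).2 (y30b_cpow b.2.1).differentiableOn
    refine (l5_open k).mem_nhds ?_
    have h2 : 0 < (k : ℝ) / (dg K : ℝ) := by
      have : 1 ≤ dg K := dg_pos
      have : (0 : ℝ) < k := by exact_mod_cast hk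
      positivity
    show 1 - k / (dg K : ℝ) < (1 : ℂ).re
    rw [Complex.one_re]
    linarith
  · rw [hH2 b s hs, h1 b.1 b.2.1 b.2.2, one_mul, ← hds]
    ring
  · by_cases hz : z = 1
    · obtain ⟨h2, h3, -, h5⟩ := y30_ideal (l5_typ hχ) 1
      refine ⟨⟨_, h2, h3⟩, ?_⟩
      rw [hz]
      show dslope (fun s : ℂ => (Ideal.absNorm (Ideal.span {((1 + 1 * Ideal.absNorm m : ℕ) : 𝓞 K)}) : ℂ) ^ (1 - s)) 1 1 ≠ 0
      rw [dslope_same]
      have hd : HasDerivAt (fun s : ℂ => (Ideal.absNorm (Ideal.span {((1 + 1 * Ideal.absNorm m : ℕ) : 𝓞 K)}) : ℂ) ^ (1 - s))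
          ((Ideal.absNorm (Ideal.span {((1 + 1 * Ideal.absNorm m : ℕ) : 𝓞 K)}) : ℂ) ^ ((1 : ℂ) - 1) *
            Complex.log (Ideal.absNorm (Ideal.span {((1 + 1 * Ideal.absNorm m : ℕ) : 𝓞 K)}) : ℂ) * (-1)) 1 :=
        ((hasDerivAt_id (1 : ℂ)).const_sub 1).const_cpow (Or.inl (y24_norm_ne h2))
      rw [hd.deriv, sub_self, Complex.cpow_zero, one_mul, h5, ← Complex.natCast_log]
      have hM1 : 1 ≤ Ideal.absNorm m := Nat.one_le_iff_ne_zero.2 fun h0 => hm (Ideal.absNorm_eq_zero_iff.1 h0)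
      have h6 : 1 < (1 + 1 * Ideal.absNorm m) ^ dg K :=
        Nat.one_lt_pow (by have := dg_pos (K := K); omega) (by omega)
      have h7 : 0 < Real.log (((1 + 1 * Ideal.absNorm m) ^ dg K : ℕ) : ℝ) := Real.log_pos (by exact_mod_cast h6)
      exact mul_ne_zero (Complex.ofReal_ne_zero.2 h7.ne') (neg_ne_zero.2 one_ne_zero)
    · by_contra hcon
      apply hz
      refine excep hm (l5_typ hχ) fun b hb hbm => ?_
      rw [h1 b hb hbm, one_mul]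
      by_contra hne
      refine hcon ⟨⟨b, hb, hbm⟩, fun h0 => hne ?_⟩
      have h2 := hds b z
      have h3 : dslope (fun s : ℂ => (Ideal.absNorm b : ℂ) ^ (1 - s)) 1 z = 0 := h0
      rw [h3, mul_zero] at h2
      exact (sub_eq_zero.1 h2.symm)


end CFTL
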