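import Mathlib

/-! # CFT, module ZL, L6: Landau lemma (Dirichlet series with nonnegative coefficients) -/

open Filter Topology

namespace CFTL

noncomputable section

/-- The coefficient of the double series. -/
def lt {ι : Type*} (c l : ι → ℝ) (t : ℝ) (p : ι × ℕ) : ℝ :=
  c p.1 * Real.exp (-2 * l p.1) * ((t * l p.1) ^ p.2 / (p.2.factorial : ℝ))

theorem lt_hasSum {ι : Type*} (c l : ι → ℝ) (t : ℝ) (i : ι) :
    HasSum (fun n => lt c l t (i, n)) (c i * Real.exp (-(2 - t) * l i)) := by
  have h1 : HasSum (fun n : ℕ => (t * l i) ^ n / (n.factorial : ℝ)) (Real.exp (t * l i)) := by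
    have := NormedSpace.exp_series_hasSum_exp' (𝕂 := ℝ) (t * l i)
    rw [← Real.exp_eq_exp_ℝ] at this
    refine this.congr_fun ?_
    intro n
    rw [smul_eq_mul]
    ring
  have h2 := h1.mul_left (c i * Real.exp (-2 * l i))
  have h3 : c i * Real.exp (-(2 - t) * l i) = c i * Real.exp (-2 * l i) * Real.exp (t * l i) := by
    rw [mul_assoc, ← Real.exp_add]
    ring_nf
  rw [h3]
  exact h2

theorem lt_nonneg {ι : Type*} {c l : ι → ℝ} (hc : ∀ i, 0 ≤ c i) (hl : ∀ i, 0 ≤ l i) {t : ℝ} (ht : 0 ≤ t) (p : ι × ℕ) :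
    0 ≤ lt c l t p := by
  unfold lt
  have := hc p.1
  have := hl p.1
  positivity

theorem lt_sum_iff {ι : Type*} {c l : ι → ℝ} (hc : ∀ i, 0 ≤ c i) (hl : ∀ i, 0 ≤ l i) {t : ℝ} (ht : 0 ≤ t) :
    Summable (lt c l t) ↔ Summable fun i => c i * Real.exp (-(2 - t) * l i) := by
  rw [summable_prod_of_nonneg (fun p => lt_nonneg hc hl ht p)]
  have h1 : (fun i => ∑' n, lt c l t (i, n)) = fun i => c i * Real.exp (-(2 - t) * l i) :=
    funext fun i => (lt_hasSum c l t i).tsum_eq
  rw [h1]
  exact ⟨fun h => h.2, fun h => ⟨fun i => (lt_hasSum c l t i).summable, h⟩⟩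

/-- The Taylor coefficients. -/
def ta {ι : Type*} (c l : ι → ℝ) (n : ℕ) : ℝ := ∑' i, lt c l 1 (i, n)

theorem lt_scale {ι : Type*} (c l : ι → ℝ) (t : ℝ) (p : ι × ℕ) : lt c l t p = t ^ p.2 * lt c l 1 p := by
  unfold lt
  rw [mul_pow, mul_pow, one_pow]
  ring

theorem landau {ι : Type*} (c l : ι → ℝ) (hc : ∀ i, 0 ≤ c i) (hl : ∀ i, 0 ≤ l i)
    (hs : ∀ x : ℝ, 1 < x → Summable fun i => c i * Real.exp (-x * l i))
    (f : ℂ → ℂ) (hf : DifferentiableOn ℂ f {s | 0 < s.re})
    (hfe : ∀ x : ℝ, 1 < x → f x = ((∑' i, c i * Real.exp (-x * l i) : ℝ) : ℂ)) {y : ℝ} (hy : 0 < y) (hy2 : y < 2) :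
    Summable fun i => c i * Real.exp (-y * l i) := by
  have hsum : ∀ t : ℝ, 0 ≤ t → t < 1 → Summable (lt c l t) := by
    intro t h0 h1
    rw [lt_sum_iff hc hl h0]
    exact hs (2 - t) (by linarith)
  -- each coefficient is summable
  have hcoef : ∀ n, Summable fun i => lt c l 1 (i, n) := by
    intro n
    have h1 := (hsum (1 / 2) (by norm_num) (by norm_num)).prod_symm
    have h2 := h1.prod_factor n
    have h3 := h2.mul_left ((2 : ℝ) ^ n)
    refine h3.congr fun i => ?_
    show (2 : ℝ) ^ n * lt c l (1 / 2) (i, n) = lt c l 1 (i, n)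
    rw [lt_scale, ← mul_assoc, ← mul_pow]
    norm_num
  have hta0 : ∀ n, 0 ≤ ta c l n := fun n => tsum_nonneg fun i => lt_nonneg hc hl zero_le_one _
  -- the real power series
  have hreal : ∀ t : ℝ, 0 ≤ t → t < 1 → HasSum (fun n => ta c l n * t ^ n) (∑' i, c i * Real.exp (-(2 - t) * l i)) := by
    intro t h0 h1
    have h2 := hsum t h0 h1
    have h3 : HasSum (fun i => c i * Real.exp (-(2 - t) * l i)) (∑' p, lt c l t p) :=
      h2.hasSum.prod_fiberwise fun i => lt_hasSum c l t i
    rw [h3.tsum_eq]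
    have h4 := h2.prod_symm
    have h5 : HasSum (fun n => ta c l n * t ^ n) (∑' p : ℕ × ι, lt c l t p.swap) := by
      refine h4.hasSum.prod_fiberwise fun n => ?_
      have h6 := (hcoef n).hasSum.mul_right (t ^ n)
      refine h6.congr_fun fun i => ?_
      show lt c l t (i, n) = lt c l 1 (i, n) * t ^ n
      rw [lt_scale]
      ring
    have h7 : ∑' p : ℕ × ι, lt c l t p.swap = ∑' p, lt c l t p :=
      (Equiv.prodComm ℕ ι).tsum_eq (lt c l t)
    rwa [h7] at h5
  -- the complex function near zero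
  set p : FormalMultilinearSeries ℂ ℂ ℂ := FormalMultilinearSeries.ofScalars ℂ (fun n => (ta c l n : ℂ)) with hp
  have hpn : ∀ n, ‖p n‖ = ta c l n := by
    intro n
    rw [hp, FormalMultilinearSeries.ofScalars_norm, Complex.norm_real, Real.norm_of_nonneg (hta0 n)]
  have hrad : ((1 / 2 : NNReal) : ENNReal) ≤ p.radius := by
    refine p.le_radius_of_summable_norm ?_
    refine (hreal (1 / 2) (by norm_num) (by norm_num)).summable.congr fun n => ?_
    rw [hpn]
    norm_num
  have hG : HasFPowerSeriesOnBall p.sum p 0 p.radius := by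
    refine p.hasFPowerSeriesOnBall (lt_of_lt_of_le ?_ hrad)
    norm_num
  have hF : DifferentiableOn ℂ (fun z => f (2 - z)) (Metric.ball 0 2) := by
    intro z hz
    have hz' : ‖z‖ < 2 := by simpa using hz
    have h1 : 0 < (2 - z).re := by
      have := Complex.re_le_norm z
      rw [Complex.sub_re]
      norm_num
      linarith
    have h2 : DifferentiableAt ℂ f (2 - z) :=
      (hf _ h1).differentiableAt ((isOpen_lt continuous_const Complex.continuous_re).mem_nhds h1)
    exact (h2.comp z ((differentiableAt_const _).sub differentiableAt_id)).differentiableWithinAt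
  set R : NNReal := ⟨2 - y / 2, by linarith⟩ with hR
  have hR0 : 0 < R := by
    show (0 : ℝ) < 2 - y / 2
    linarith
  have hF2 := (hF.mono (s := Metric.closedBall 0 R) (Metric.closedBall_subset_ball (by
    show 2 - y / 2 < 2
    linarith))).hasFPowerSeriesOnBall hR0
  have hfreq : ∃ᶠ z in 𝓝[≠] (0 : ℂ), (fun z => f (2 - z)) z = p.sum z := by
    have h1 : Tendsto (fun t : ℝ => (t : ℂ)) (𝓝[>] 0) (𝓝[≠] 0) := by
      refine tendsto_nhdsWithin_iff.2 ⟨?_, ?_⟩
      · exact (Complex.continuous_ofReal.tendsto' 0 0 Complex.ofReal_zero).mono_left nhdsWithin_le_nhds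
      · filter_upwards [self_mem_nhdsWithin] with t ht
        exact Complex.ofReal_ne_zero.2 (ne_of_gt ht)
    refine h1.frequently (Eventually.frequently ?_)
    filter_upwards [Ioo_mem_nhdsGT (show (0 : ℝ) < 1 by norm_num)] with t ht
    have h2 := (hreal t ht.1.le ht.2)
    have h3 : p.sum (t : ℂ) = ∑' n, (ta c l n : ℂ) * (t : ℂ) ^ n := by
      rw [hp]
      show (∑' n, (FormalMultilinearSeries.ofScalars ℂ (fun n => (ta c l n : ℂ)) n) fun _ => (t : ℂ)) = _
      refine tsum_congr fun n => ?_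
      rw [FormalMultilinearSeries.ofScalars_apply_eq, smul_eq_mul]
    rw [h3]
    have h4 : f (2 - (t : ℂ)) = ((∑' i, c i * Real.exp (-(2 - t) * l i) : ℝ) : ℂ) := by
      rw [← hfe (2 - t) (by linarith [ht.2])]
      push_cast
      rfl
    show f (2 - (t : ℂ)) = _
    rw [h4, ← h2.tsum_eq, Complex.ofReal_tsum]
    push_cast
    rfl
  have hev := (AnalyticAt.frequently_eq_iff_eventually_eq hF2.analyticAt hG.analyticAt).1 hfreq
  have hpq := HasFPowerSeriesAt.eq_formalMultilinearSeries_of_eventually hF2.hasFPowerSeriesAt hG.hasFPowerSeriesAt hev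
  have hR2 : (R : ENNReal) ≤ p.radius := by
    rw [← hpq]
    exact hF2.r_le
  have ht0 : 0 ≤ 2 - y := by linarith
  have hfin : Summable fun n => ta c l n * (2 - y) ^ n := by
    set r : NNReal := ⟨2 - y, ht0⟩ with hr
    have h1 : (r : ENNReal) < p.radius := by
      refine lt_of_lt_of_le ?_ hR2
      rw [ENNReal.coe_lt_coe]
      show 2 - y < 2 - y / 2
      linarith
    refine (p.summable_norm_mul_pow h1).congr fun n => ?_
    rw [hpn]
    rfl
  have hdouble : Summable (lt c l (2 - y)) := by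
    have h1 : Summable fun q : ℕ × ι => lt c l (2 - y) q.swap := by
      rw [summable_prod_of_nonneg (fun q => lt_nonneg hc hl ht0 _)]
      have h2 : ∀ n, HasSum (fun i => lt c l (2 - y) (i, n)) (ta c l n * (2 - y) ^ n) := by
        intro n
        have h6 := (hcoef n).hasSum.mul_right ((2 - y) ^ n)
        refine h6.congr_fun fun i => ?_
        rw [lt_scale]
        ring
      refine ⟨fun n => (h2 n).summable, ?_⟩
      refine hfin.congr fun n => ?_
      exact (h2 n).tsum_eq.symm
    exact (Equiv.prodComm ℕ ι).summable_iff.1 h1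
  have h9 := (lt_sum_iff hc hl ht0).1 hdouble
  refine h9.congr fun i => ?_
  ring_nf

end

end CFTL
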