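import Pool.Agent.Lib.CFT.L6

/-! # CFT, module ZL, L7: Landau lemma for the exponential of a Dirichlet series -/

open Filter Topology

namespace CFTL

theorem pow_hasSum {J : Type*} {g : J → ℝ} (hg : ∀ j, 0 ≤ g j) {s : ℝ} (h : HasSum g s) (k : ℕ) :
    HasSum (fun i : Fin k → J => ∏ j, g (i j)) (s ^ k) := by
  induction k with
  | zero =>
    have h1 := hasSum_unique (fun i : Fin 0 → J => ∏ j, g (i j))
    simpa using h1
  | succ k ih =>
    rw [← (Fin.consEquiv fun _ : Fin (k + 1) => J).hasSum_iff]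
    have h0 : ∀ i : Fin k → J, 0 ≤ ∏ j, g (i j) := fun i => Finset.prod_nonneg fun j _ => hg _
    have h1 : Summable fun x : J × (Fin k → J) => g x.1 * ∏ j, g (x.2 j) :=
      h.summable.mul_of_nonneg ih.summable hg h0
    have h2 := h.mul ih h1
    rw [pow_succ']
    refine h2.congr_fun ?_
    rintro ⟨a, b⟩
    show ∏ j, g ((Fin.consEquiv fun _ : Fin (k + 1) => J) (a, b) j) = g a * ∏ j, g (b j)
    rw [Fin.prod_univ_succ]
    rfl

theorem exp_hasSum {J : Type*} {g : J → ℝ} (hg : ∀ j, 0 ≤ g j) {s : ℝ} (h : HasSum g s) :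
    HasSum (fun i : Σ k, (Fin k → J) => ((i.1.factorial : ℝ))⁻¹ * ∏ j, g (i.2 j)) (Real.exp s) := by
  have h0 : ∀ i : Σ k, (Fin k → J), 0 ≤ ((i.1.factorial : ℝ))⁻¹ * ∏ j, g (i.2 j) := fun i =>
    mul_nonneg (by positivity) (Finset.prod_nonneg fun j _ => hg _)
  have h1 : ∀ k, HasSum (fun i : Fin k → J => ((k.factorial : ℝ))⁻¹ * ∏ j, g (i j)) (((k.factorial : ℝ))⁻¹ * s ^ k) :=
    fun k => (pow_hasSum hg h k).mul_left _
  have h2 : HasSum (fun k : ℕ => ((k.factorial : ℝ))⁻¹ * s ^ k) (Real.exp s) := by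
    have := NormedSpace.exp_series_hasSum_exp' (𝕂 := ℝ) s
    rw [← Real.exp_eq_exp_ℝ] at this
    exact this
  have h3 : Summable fun i : Σ k, (Fin k → J) => ((i.1.factorial : ℝ))⁻¹ * ∏ j, g (i.2 j) := by
    rw [summable_sigma_of_nonneg h0]
    refine ⟨fun k => (h1 k).summable, ?_⟩
    refine h2.summable.congr fun k => ?_
    exact (h1 k).tsum_eq.symm
  have h4 := h3.hasSum.sigma h1
  have h5 := h3.hasSum
  rwa [h4.unique h2] at h5

theorem landau_exp {J : Type*} (c l : J → ℝ) (hc : ∀ i, 0 ≤ c i) (hl : ∀ i, 0 ≤ l i)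
    (hs : ∀ x : ℝ, 1 < x → Summable fun i => c i * Real.exp (-x * l i))
    (f : ℂ → ℂ) (hf : DifferentiableOn ℂ f {s | 0 < s.re})
    (hfe : ∀ x : ℝ, 1 < x → f x = ((Real.exp (∑' i, c i * Real.exp (-x * l i)) : ℝ) : ℂ)) {y : ℝ} (hy : 0 < y) (hy2 : y < 2) :
    Summable fun i => c i * Real.exp (-y * l i) := by
  have key : ∀ (x : ℝ) (i : Σ k, (Fin k → J)), (((i.1.factorial : ℝ))⁻¹ * ∏ j, c (i.2 j)) * Real.exp (-x * ∑ j, l (i.2 j)) =
      ((i.1.factorial : ℝ))⁻¹ * ∏ j, (c (i.2 j) * Real.exp (-x * l (i.2 j))) := by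
    intro x i
    rw [Finset.prod_mul_distrib, ← Real.exp_sum, ← Finset.mul_sum, mul_assoc]
  have hg : ∀ (x : ℝ) (j : J), 0 ≤ c j * Real.exp (-x * l j) := fun x j => mul_nonneg (hc j) (Real.exp_pos _).le
  have h1 := landau (fun i : Σ k, (Fin k → J) => ((i.1.factorial : ℝ))⁻¹ * ∏ j, c (i.2 j))
    (fun i => ∑ j, l (i.2 j)) (fun i => mul_nonneg (by positivity) (Finset.prod_nonneg fun j _ => hc _))
    (fun i => Finset.sum_nonneg fun j _ => hl _) (fun x hx => ?_) f hf (fun x hx => ?_) hy hy2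
  · have h2 := h1.comp_injective (i := fun j : J => (⟨1, fun _ => j⟩ : Σ k, (Fin k → J))) ?_
    · refine h2.congr fun j => ?_
      simp
    · intro a b hab
      have h3 := congrFun (eq_of_heq (Sigma.mk.inj hab).2) 0
      exact h3
  · have h2 := (exp_hasSum (hg x) (hs x hx).hasSum).summable
    exact h2.congr fun i => (key x i).symm
  · have h2 := exp_hasSum (hg x) (hs x hx).hasSum
    rw [hfe x hx, ← h2.tsum_eq]
    congr 1
    exact tsum_congr fun i => (key x i).symm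

end CFTL
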