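import Pool.Agent.Lib.CFT.L5
import Pool.Agent.Lib.CFT.L7
import Pool.Agent.Lib.CFT.ZE
import Pool.Agent.Lib.CFT.Y28

/-! # CFT, module ZL, L8: L(1, χ) ≠ 0 for every nontrivial character of a ray class group -/

open NumberField IsDedekindDomain Filter Topology

namespace CFTL

open CFT CFTY CFTZ H55R

variable {K : Type} [Field K] [NumberField K]

open Classical in
/-- The coefficients of the logarithm of the product of all L-series. -/
noncomputable def lc (S : Finset (Pr K)) (H : AddSubgroup (Dv K)) (p : Pr K × ℕ) : ℝ :=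
  if p.1 ∉ S ∧ (p.2 • (Finsupp.single p.1 1 : Dv K)) ∈ H then (Nat.card (Dv K ⧸ H) : ℝ) / (p.2 : ℝ) else 0

/-- The exponents. -/
noncomputable def ll (p : Pr K × ℕ) : ℝ := (p.2 : ℝ) * Real.log (Nm p.1)

theorem lc_nonneg (S : Finset (Pr K)) (H : AddSubgroup (Dv K)) (p : Pr K × ℕ) : 0 ≤ lc S H p := by
  unfold lc
  split_ifs
  · positivity
  · exact le_rfl

theorem ll_nonneg (p : Pr K × ℕ) : 0 ≤ ll p := by
  unfold ll
  have h1 : (1 : ℝ) ≤ (Nm p.1 : ℝ) := by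
    have : 2 ≤ Nm p.1 := dd_two_le p.1
    exact_mod_cast (by omega : 1 ≤ Nm p.1)
  have := Real.log_nonneg h1
  positivity

theorem lc_point (S : Finset (Pr K)) (H : AddSubgroup (Dv K)) [Fintype (Dv K ⧸ H)] (x : ℝ) (p : Pr K × ℕ) :
    ∑ ψ : AddChar (Dv K ⧸ H) ℂ, ((tm (chI S (chq H ψ)) x p.1.asIdeal) ^ p.2 / (p.2 : ℂ)).re =
      lc S H p * Real.exp (-x * ll p) := by
  classical
  obtain ⟨v, n⟩ := p
  show ∑ ψ : AddChar (Dv K ⧸ H) ℂ, ((tm (chI S (chq H ψ)) x v.asIdeal) ^ n / (n : ℂ)).re = _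
  by_cases hn : n = 0
  · subst hn
    unfold lc
    simp
  have hN : (0 : ℝ) < (Nm v : ℝ) := by
    have : 2 ≤ Nm v := dd_two_le v
    exact_mod_cast (by omega : 0 < Nm v)
  have h1 : ((Ideal.absNorm v.asIdeal : ℂ) ^ (-(x : ℂ))) = ((Real.exp (-x * Real.log (Nm v)) : ℝ) : ℂ) := by
    have h2 : ((Ideal.absNorm v.asIdeal : ℂ) ^ (-(x : ℂ))) = (((Nm v : ℝ) ^ (-x) : ℝ) : ℂ) := by
      rw [Complex.ofReal_cpow hN.le]
      push_cast
      rfl
    rw [h2, Real.rpow_def_of_pos hN]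
    congr 2
    ring
  have h3 : ∀ ψ : AddChar (Dv K ⧸ H) ℂ, ((tm (chI S (chq H ψ)) x v.asIdeal) ^ n / (n : ℂ)).re =
      ((chI S (chq H ψ) v.asIdeal) ^ n).re * (Real.exp (-x * ll (v, n)) / n) := by
    intro ψ
    unfold tm
    rw [h1, mul_pow, mul_div_assoc, ← Complex.ofReal_pow]
    have h4 : ((Real.exp (-x * Real.log (Nm v)) ^ n : ℝ) : ℂ) / (n : ℂ) =
        ((Real.exp (-x * ll (v, n)) / n : ℝ) : ℂ) := by
      rw [← Real.exp_nat_mul]
      unfold ll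
      push_cast
      congr 2
      ring
    rw [h4, Complex.re_mul_ofReal]
  rw [Finset.sum_congr rfl fun ψ _ => h3 ψ, ← Finset.sum_mul]
  by_cases hS : v ∈ S
  · have h5 : lc S H (v, n) = 0 := if_neg fun h => h.1 hS
    rw [h5, zero_mul]
    have h6 : ∀ ψ : AddChar (Dv K ⧸ H) ℂ, ((chI S (chq H ψ) v.asIdeal) ^ n).re = 0 := by
      intro ψ
      rw [chI_prime_mem S _ hS, zero_pow hn, Complex.zero_re]
    rw [Finset.sum_congr rfl fun ψ _ => h6 ψ, Finset.sum_const_zero, zero_mul]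
  · have h5 : ∀ ψ : AddChar (Dv K ⧸ H) ℂ, (chI S (chq H ψ) v.asIdeal) ^ n =
        ψ (QuotientAddGroup.mk (n • (Finsupp.single v 1 : Dv K))) := by
      intro ψ
      rw [chI_prime S _ hS, chq_cphi, ← AddChar.map_nsmul_eq_pow]
      rfl
    rw [← Complex.re_sum, Finset.sum_congr rfl fun ψ _ => h5 ψ, AddChar.sum_apply_eq_ite]
    unfold lc
    by_cases h : (n • (Finsupp.single v 1 : Dv K)) ∈ H
    · rw [if_pos ((QuotientAddGroup.eq_zero_iff _).2 h), if_pos ⟨hS, h⟩, Nat.card_eq_fintype_card, Complex.natCast_re]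
      ring
    · rw [if_neg fun h' => h ((QuotientAddGroup.eq_zero_iff _).1 h'), if_neg fun h' => h h'.2, Complex.zero_re]
      ring

theorem lc_hasSum (S : Finset (Pr K)) (H : AddSubgroup (Dv K)) [Fintype (Dv K ⧸ H)] {x : ℝ} (hx : 1 < x) :
    HasSum (fun p : Pr K × ℕ => lc S H p * Real.exp (-x * ll p))
      (∑ ψ : AddChar (Dv K ⧸ H) ℂ, Real.log ‖Ls (chI S (chq H ψ)) x‖) := by
  have hh : ∀ (ψ : AddChar (Dv K ⧸ H) ℂ) (a : Ideal (𝓞 K)), ‖chI S (chq H ψ) a‖ ≤ 1 := fun ψ =>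
    dd_norm_tI _ _ (chq_norm H ψ)
  have h1 : ∀ v : Pr K, HasSum (fun n : ℕ => lc S H (v, n) * Real.exp (-x * ll (v, n)))
      (∑ ψ : AddChar (Dv K ⧸ H) ℂ, -Real.log ‖1 - tm (chI S (chq H ψ)) x v.asIdeal‖) := by
    intro v
    have h2 : HasSum (fun n : ℕ => ∑ ψ : AddChar (Dv K ⧸ H) ℂ, ((tm (chI S (chq H ψ)) x v.asIdeal) ^ n / (n : ℂ)).re)
        (∑ ψ : AddChar (Dv K ⧸ H) ℂ, -Real.log ‖1 - tm (chI S (chq H ψ)) x v.asIdeal‖) := by
      refine hasSum_sum fun ψ _ => ?_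
      have h3 : ‖tm (chI S (chq H ψ)) x v.asIdeal‖ < 1 := lt_of_le_of_lt (RD1_le _ (hh ψ) x hx v) (by norm_num)
      have h4 := Complex.hasSum_re (Complex.hasSum_taylorSeries_neg_log h3)
      rw [Complex.neg_re, Complex.log_re] at h4
      exact h4
    refine h2.congr_fun fun n => ?_
    exact (lc_point S H x (v, n)).symm
  have h2 : HasSum (fun v : Pr K => ∑ ψ : AddChar (Dv K ⧸ H) ℂ, -Real.log ‖1 - tm (chI S (chq H ψ)) x v.asIdeal‖)
      (∑ ψ : AddChar (Dv K ⧸ H) ℂ, Real.log ‖Ls (chI S (chq H ψ)) x‖) :=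
    hasSum_sum fun ψ _ => (euler (chI S (chq H ψ)) (hh ψ) x hx).2
  have h3 : Summable fun p : Pr K × ℕ => lc S H p * Real.exp (-x * ll p) := by
    rw [summable_prod_of_nonneg fun p => mul_nonneg (lc_nonneg S H p) (Real.exp_pos _).le]
    refine ⟨fun v => (h1 v).summable, ?_⟩
    refine h2.summable.congr fun v => ?_
    exact (h1 v).tsum_eq.symm
  have h4 := h3.hasSum.prod_fiberwise h1
  have h5 := h3.hasSum
  rwa [h4.unique h2] at h5

theorem cont_chi (hf : ∀ (S : Finset (Pr K)) (N : ℕ), (Pray S N).FiniteIndex) (S : Finset (Pr K)) (N : ℕ)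
    (χ : Dv K →+ Additive ℂˣ) (hχ : ∀ D ∈ Pray S N, χ D = 0)
    (hn : ∀ v, ‖(cphi χ v : ℂ)‖ = 1) (h1 : χ ≠ 0) (k : ℕ) :
    ∃ H : ℂ → ℂ, DifferentiableOn ℂ H (HPk K k) ∧ ∀ s : ℂ, 1 < s.re → H s = Lc (chI S χ) s := by
  have hc : HCh (mI S N) (fun _ => (1 : ℂ)) (chI S χ) := hch_of χ hn fun x hx => by
    rw [hχ _ (dv_mem_Pray hx), toMul_zero, Units.val_one]
  obtain ⟨v, hv⟩ : ∃ v : Pr K, cphi χ v ≠ 1 := by
    by_contra hcon
    push Not at hcon
    apply h1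
    apply chi_ext
    intro v
    rw [hcon v]
    rfl
  have hvS : v ∉ S := by
    intro h
    apply hv
    have h2 : χ (Finsupp.single v 1) = 0 := by
      refine hχ _ (supp_mem_Pray N fun w hw => ?_)
      refine Finsupp.single_eq_of_ne ?_
      rintro rfl
      exact hw h
    unfold cphi
    rw [h2, toMul_zero]
  have hcop : IsCoprime v.asIdeal (mI S N) := by
    rw [cop_mI]
    intro w hw hle
    have h3 := v.isMaximal.eq_of_le w.isPrime.ne_top hle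
    have h4 : v = w := HeightOneSpectrum.ext h3
    rw [h4] at hvS
    exact hvS hw
  refine cont_k hf k (mI_ne S N) hc ⟨v.asIdeal, v.ne_bot, hcop, ?_⟩
  rw [chI_prime S χ hvS]
  exact fun h => hv (Units.ext h)

theorem pole_chi (hf : ∀ (S : Finset (Pr K)) (N : ℕ), (Pray S N).FiniteIndex) (S : Finset (Pr K)) {k : ℕ} (hk : 1 ≤ k) :
    ∃ H : ℂ → ℂ, DifferentiableOn ℂ H (HPk K k) ∧ ∀ s : ℂ, 1 < s.re → H s = (s - 1) * Lc (chI S (0 : Dv K →+ Additive ℂˣ)) s := by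
  have hn : ∀ v : Pr K, ‖(cphi (0 : Dv K →+ Additive ℂˣ) v : ℂ)‖ = 1 := by
    intro v
    have : cphi (0 : Dv K →+ Additive ℂˣ) v = 1 := rfl
    rw [this, Units.val_one, norm_one]
  have hc : HCh (mI S 0) (fun _ => (1 : ℂ)) (chI S (0 : Dv K →+ Additive ℂˣ)) := hch_of (0 : Dv K →+ Additive ℂˣ) hn fun x hx => by
    rw [AddMonoidHom.zero_apply, toMul_zero, Units.val_one]
  refine pole_k hf hk (mI_ne S 0) hc fun b hb hbm => ?_
  have h1 := hc.norm b hb hbm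
  have h2 : IsCoprime b (SI S) := by
    by_contra h
    have h3 : chI S (0 : Dv K →+ Additive ℂˣ) b = 0 := tI_zero (SI S) _ h
    rw [h3, norm_zero] at h1
    exact zero_ne_one h1
  have h3 : chI S (0 : Dv K →+ Additive ℂˣ) = tI (SI S) (1 : Pl K → ℂˣ) := rfl
  rw [h3, tI_apply _ _ hb h2, pv_one_fun, Units.val_one]

end CFTL
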