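import Pool.Agent.Lib.CFT.L8

/-! # CFT, module ZL, L9: nonvanishing of L(1, χ) -/

open NumberField IsDedekindDomain Filter Topology ComplexConjugate

namespace CFTL

open CFT CFTY CFTZ H55R

variable {K : Type} [Field K] [NumberField K]

theorem hpk_dg : HPk K (dg K) = {s : ℂ | 0 < s.re} := by
  have h1 : (dg K : ℝ) ≠ 0 := by
    have := dg_pos (K := K)
    exact_mod_cast (by omega : dg K ≠ 0)
  unfold HPk
  rw [div_self h1, sub_self]

/-- The series of the 1/Nv over the primes diverges. -/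
theorem prime_div (S : Finset (Pr K)) (h : Summable fun v : Pr K => Set.indicator {v : Pr K | v ∉ S} (fun v => (Nm v : ℝ)⁻¹) v) : False := by
  classical
  obtain ⟨C, hC⟩ := prime_zeta K
  have h1 : Summable fun v : Pr K => (Nm v : ℝ)⁻¹ := by
    have h2 : Summable fun v : Pr K => Set.indicator (S : Set (Pr K)) (fun v => (Nm v : ℝ)⁻¹) v :=
      summable_of_finite_support (S.finite_toSet.subset fun v hv => by
        by_contra hcon
        exact hv (Set.indicator_of_notMem hcon _))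
    refine (h.add h2).congr fun v => ?_
    by_cases hv : v ∈ S
    · rw [Set.indicator_of_notMem (by simpa using hv), Set.indicator_of_mem (by simpa using hv), zero_add]
    · rw [Set.indicator_of_mem (by simpa using hv), Set.indicator_of_notMem (by simpa using hv), add_zero]
  set M := ∑' v : Pr K, (Nm v : ℝ)⁻¹ with hM
  have h3 : ∀ s ∈ Set.Ioc (1 : ℝ) 2, Real.log (1 / (s - 1)) ≤ M + C := by
    intro s hs
    have h4 := (abs_le.1 (hC s hs)).1
    have h5 : ∑' W : Pl K, (Ideal.absNorm W.asIdeal : ℝ) ^ (-s) ≤ M := by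
      refine (dd_summable (K := K) s hs.1).tsum_le_tsum (fun v => ?_) h1
      rw [← Real.rpow_neg_one]
      refine Real.rpow_le_rpow_of_exponent_le ?_ (by linarith [hs.1])
      have : 2 ≤ Ideal.absNorm v.asIdeal := dd_two_le v
      exact_mod_cast (by omega : 1 ≤ Ideal.absNorm v.asIdeal)
    linarith
  have h6 : ∀ s ∈ Set.Ioc (1 : ℝ) 2, (1 : ℝ) * Real.log (1 / (s - 1)) ≤ 0 * Real.log (1 / (s - 1)) + (M + C) := by
    intro s hs
    have := h3 s hs
    linarith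
  have h7 := lead_le h6
  norm_num at h7

theorem nonvan_aux (hf : ∀ (S : Finset (Pr K)) (N : ℕ), (Pray S N).FiniteIndex) (S : Finset (Pr K)) (N : ℕ)
    (H : AddSubgroup (Dv K)) (hH : Pray S N ≤ H) [Fintype (Dv K ⧸ H)]
    (ψ₁ : AddChar (Dv K ⧸ H) ℂ) (h1 : ψ₁ ≠ 0) (H₁ : ℂ → ℂ) (hd : DifferentiableOn ℂ H₁ {s | 0 < s.re})
    (he : ∀ s : ℂ, 1 < s.re → H₁ s = Lc (chI S (chq H ψ₁)) s) : H₁ 1 ≠ 0 := by
  classical
  intro h0
  have hopen : IsOpen {s : ℂ | 0 < s.re} := isOpen_lt continuous_const Complex.continuous_re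
  -- the continuations
  have hex : ∀ ψ : AddChar (Dv K ⧸ H) ℂ, ∃ G : ℂ → ℂ, DifferentiableOn ℂ G {s | 0 < s.re} ∧
      (ψ ≠ 0 → ∀ s : ℂ, 1 < s.re → G s = Lc (chI S (chq H ψ)) s) := by
    intro ψ
    by_cases hψ : ψ = 0
    · exact ⟨fun _ => 0, differentiableOn_const _, fun h => absurd hψ h⟩
    · obtain ⟨G, hG1, hG2⟩ := cont_chi hf S N (chq H ψ) (fun D hD => chq_ker H ψ (hH hD)) (chq_norm H ψ) (chq_ne H hψ) (dg K)
      rw [hpk_dg] at hG1
      exact ⟨G, hG1, fun _ => hG2⟩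
  choose G hG1 hG2 using hex
  obtain ⟨G₀, hG₀1, hG₀2⟩ := pole_chi hf S (k := dg K) dg_pos
  rw [hpk_dg] at hG₀1
  set Z : ℂ → ℂ := fun s => G₀ s * dslope H₁ 1 s * ∏ ψ ∈ (Finset.univ.erase (0 : AddChar (Dv K ⧸ H) ℂ)).erase ψ₁, G ψ s with hZ
  have hZd : DifferentiableOn ℂ Z {s | 0 < s.re} := by
    refine (hG₀1.mul ?_).mul (DifferentiableOn.fun_finset_prod fun ψ _ => hG1 ψ)
    refine (Complex.differentiableOn_dslope (hopen.mem_nhds ?_)).2 hd
    show 0 < (1 : ℂ).re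
    rw [Complex.one_re]
    exact one_pos
  have hZe : ∀ s : ℂ, 1 < s.re → Z s = ∏ ψ : AddChar (Dv K ⧸ H) ℂ, Lc (chI S (chq H ψ)) s := by
    intro s hs
    have e1 : (s - 1) * dslope H₁ 1 s = Lc (chI S (chq H ψ₁)) s := by
      have h := sub_smul_dslope H₁ 1 s
      rw [smul_eq_mul] at h
      rw [h, h0, sub_zero, he s hs]
    have e2 : chq H (0 : AddChar (Dv K ⧸ H) ℂ) = 0 := by
      apply chi_ext
      intro v
      rfl
    rw [← Finset.mul_prod_erase Finset.univ _ (Finset.mem_univ (0 : AddChar (Dv K ⧸ H) ℂ)),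
      ← Finset.mul_prod_erase (Finset.univ.erase (0 : AddChar (Dv K ⧸ H) ℂ)) _ (Finset.mem_erase.2 ⟨h1, Finset.mem_univ ψ₁⟩)]
    rw [hZ]
    show G₀ s * dslope H₁ 1 s * ∏ ψ ∈ (Finset.univ.erase (0 : AddChar (Dv K ⧸ H) ℂ)).erase ψ₁, G ψ s = _
    have e3 : ∏ ψ ∈ (Finset.univ.erase (0 : AddChar (Dv K ⧸ H) ℂ)).erase ψ₁, G ψ s =
        ∏ ψ ∈ (Finset.univ.erase (0 : AddChar (Dv K ⧸ H) ℂ)).erase ψ₁, Lc (chI S (chq H ψ)) s := by
      refine Finset.prod_congr rfl fun ψ hψ => ?_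
      exact hG2 ψ (Finset.ne_of_mem_erase (Finset.mem_of_mem_erase hψ)) s hs
    rw [e3, hG₀2 s hs, ← e1, e2]
    ring
  -- the function f
  set f : ℂ → ℂ := fun s => Z s * conj (Z (conj s)) with hff
  have hfd : DifferentiableOn ℂ f {s | 0 < s.re} := by
    refine hZd.mul ?_
    intro s hs
    have h2 : conj s ∈ {s : ℂ | 0 < s.re} := by
      show 0 < (conj s).re
      rw [Complex.conj_re]
      exact hs
    have h3 : DifferentiableAt ℂ Z (conj s) := hZd.differentiableAt (hopen.mem_nhds h2)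
    have h4 := h3.conj_conj
    rw [Complex.conj_conj] at h4
    exact h4.differentiableWithinAt
  have hfe : ∀ x : ℝ, 1 < x → f x = ((Real.exp (∑' p : Pr K × ℕ, (2 * lc S H p) * Real.exp (-x * ll p)) : ℝ) : ℂ) := by
    intro x hx
    have e1 := (lc_hasSum S H hx).mul_left 2
    have e2 : ∑' p : Pr K × ℕ, (2 * lc S H p) * Real.exp (-x * ll p) =
        2 * ∑ ψ : AddChar (Dv K ⧸ H) ℂ, Real.log ‖Ls (chI S (chq H ψ)) x‖ := by
      rw [← e1.tsum_eq]
      exact tsum_congr fun p => by ring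
    have hh : ∀ (ψ : AddChar (Dv K ⧸ H) ℂ) (a : Ideal (𝓞 K)), ‖chI S (chq H ψ) a‖ ≤ 1 := fun ψ =>
      dd_norm_tI _ _ (chq_norm H ψ)
    have e3 : ∀ ψ : AddChar (Dv K ⧸ H) ℂ, 0 < ‖Ls (chI S (chq H ψ)) x‖ := fun ψ =>
      norm_pos_iff.2 (euler (chI S (chq H ψ)) (hh ψ) x hx).1
    have e4 : Real.exp (∑ ψ : AddChar (Dv K ⧸ H) ℂ, Real.log ‖Ls (chI S (chq H ψ)) x‖) = ‖Z x‖ := by
      rw [Real.exp_sum, hZe x (by rw [Complex.ofReal_re]; exact hx), norm_prod]
      refine Finset.prod_congr rfl fun ψ _ => ?_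
      rw [Real.exp_log (e3 ψ)]
      rfl
    rw [e2, two_mul, Real.exp_add, e4]
    show Z x * conj (Z (conj (x : ℂ))) = _
    rw [Complex.conj_ofReal, Complex.mul_conj, Complex.normSq_eq_norm_sq]
    push_cast
    ring
  -- the order of the group
  set g : ℕ := Nat.card (Dv K ⧸ H) with hg
  have hg1 : 1 ≤ g := Nat.card_pos
  have hgR : (1 : ℝ) ≤ g := by exact_mod_cast hg1
  have hs : ∀ x : ℝ, 1 < x → Summable fun p : Pr K × ℕ => (2 * lc S H p) * Real.exp (-x * ll p) := by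
    intro x hx
    refine ((lc_hasSum S H hx).summable.mul_left 2).congr fun p => ?_
    ring
  have hL := landau_exp (fun p : Pr K × ℕ => 2 * lc S H p) ll (fun p => mul_nonneg (by norm_num) (lc_nonneg S H p))
    ll_nonneg hs f hfd hfe (y := 1 / g) (by positivity)
    (lt_of_le_of_lt ((div_le_one (by linarith)).2 hgR) (by norm_num))
  have hL2 := (hL.comp_injective (i := fun v : Pr K => (v, g)) fun a b hab => (Prod.mk.inj hab).1).mul_left (1 / 2)
  apply prime_div S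
  refine hL2.congr fun v => ?_
  show 1 / 2 * ((2 * lc S H (v, g)) * Real.exp (-(1 / (g : ℝ)) * ll (v, g))) = _
  have hN : (0 : ℝ) < (Nm v : ℝ) := by
    have : 2 ≤ Nm v := dd_two_le v
    exact_mod_cast (by omega : 0 < Nm v)
  have e5 : Real.exp (-(1 / (g : ℝ)) * ll (v, g)) = (Nm v : ℝ)⁻¹ := by
    unfold ll
    have e6 : -(1 / (g : ℝ)) * ((g : ℝ) * Real.log (Nm v)) = -Real.log (Nm v) := by
      field_simp
    show Real.exp (-(1 / (g : ℝ)) * ((g : ℝ) * Real.log (Nm v))) = _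
    rw [e6, Real.exp_neg, Real.exp_log hN]
  rw [e5]
  by_cases hv : v ∈ S
  · have e7 : lc S H (v, g) = 0 := if_neg fun h => h.1 hv
    rw [Set.indicator_of_notMem (by simpa using hv), e7]
    ring
  · have e8 : (g • (Finsupp.single v 1 : Dv K)) ∈ H := by
      rw [← QuotientAddGroup.eq_zero_iff, QuotientAddGroup.mk_nsmul]
      exact card_nsmul_eq_zero'
    have e7 : lc S H (v, g) = (Nat.card (Dv K ⧸ H) : ℝ) / (g : ℝ) := if_pos ⟨hv, e8⟩
    rw [Set.indicator_of_mem (by simpa using hv), e7, ← hg, div_self (by linarith)]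
    ring

/-- The character of the quotient belonging to a character of Dv K. -/
noncomputable def qch (H : AddSubgroup (Dv K)) (χ : Dv K →+ Additive ℂˣ) (hχ : ∀ D ∈ H, χ D = 0) : AddChar (Dv K ⧸ H) ℂ where
  toFun q := (((QuotientAddGroup.lift H χ hχ q).toMul : ℂˣ) : ℂ)
  map_zero_eq_one' := by
    rw [map_zero, toMul_zero, Units.val_one]
  map_add_eq_mul' a b := by
    rw [map_add, toMul_add, Units.val_mul]

theorem chq_qch (H : AddSubgroup (Dv K)) (χ : Dv K →+ Additive ℂˣ) (hχ : ∀ D ∈ H, χ D = 0) : chq H (qch H χ hχ) = χ := by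
  apply chi_ext
  intro v
  apply Units.ext
  rfl

/-- L(1, χ) ≠ 0. -/
theorem nonvan (hf : ∀ (S : Finset (Pr K)) (N : ℕ), (Pray S N).FiniteIndex) (S : Finset (Pr K)) (N : ℕ)
    (χ : Dv K →+ Additive ℂˣ) (hχ : ∀ D ∈ Pray S N, χ D = 0) (h1 : χ ≠ 0)
    (G : ℂ → ℂ) (hG : DifferentiableOn ℂ G (HP K)) (hGe : ∀ s : ℂ, 1 < s.re → G s = Lc (chI S χ) s) : G 1 ≠ 0 := by
  classical
  have := hf S N
  have := AddSubgroup.finite_quotient_of_finiteIndex (H := Pray S N)
  have := Fintype.ofFinite (Dv K ⧸ Pray S N)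
  have hq := chq_qch (Pray S N) χ hχ
  set ψ := qch (Pray S N) χ hχ with hψ
  have hψ0 : ψ ≠ 0 := by
    intro h
    apply h1
    rw [← hq, h]
    apply chi_ext
    intro v
    rfl
  obtain ⟨H, hH1, hH2⟩ := cont_chi hf S N χ hχ (by rw [← hq]; exact chq_norm _ ψ) h1 (dg K)
  rw [hpk_dg] at hH1
  have h2 : H 1 ≠ 0 := nonvan_aux hf S N (Pray S N) le_rfl ψ hψ0 H hH1 (by rw [hq]; exact hH2)
  have h3 : HP K ⊆ {s : ℂ | 0 < s.re} := by
    intro s hs
    have h4 : 1 - 1 / (dg K : ℝ) < s.re := hs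
    have h5 : (1 : ℝ) ≤ dg K := by exact_mod_cast dg_pos (K := K)
    have h6 : 1 / (dg K : ℝ) ≤ 1 := (div_le_one (by linarith)).2 h5
    show 0 < s.re
    linarith
  have ho : IsOpen (HP K) := isOpen_lt continuous_const Complex.continuous_re
  have hc : IsPreconnected (HP K) := (convex_halfSpace_re_gt _).isPreconnected
  have h7 : (1 : ℂ) ∈ HP K := by
    show 1 - 1 / (dg K : ℝ) < (1 : ℂ).re
    have h5 : (1 : ℝ) ≤ dg K := by exact_mod_cast dg_pos (K := K)
    have : 0 < 1 / (dg K : ℝ) := by positivity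
    rw [Complex.one_re]
    linarith
  have h8 : (2 : ℂ) ∈ HP K := by
    show 1 - 1 / (dg K : ℝ) < (2 : ℂ).re
    have h5 : (1 : ℝ) ≤ dg K := by exact_mod_cast dg_pos (K := K)
    have h6 : 0 < 1 / (dg K : ℝ) := by positivity
    rw [Complex.re_ofNat]
    linarith
  have h9 : G =ᶠ[𝓝 (2 : ℂ)] H := by
    have h10 : {s : ℂ | 1 < s.re} ∈ 𝓝 (2 : ℂ) := (isOpen_lt continuous_const Complex.continuous_re).mem_nhds (by
      show (1 : ℝ) < (2 : ℂ).re
      norm_num)
    filter_upwards [h10] with s hs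
    rw [hGe s hs, hH2 s hs]
  have h10 := (hG.analyticOnNhd ho).eqOn_of_preconnected_of_eventuallyEq ((hH1.mono h3).analyticOnNhd ho) hc h8 h9
  rw [h10 h7]
  exact h2

end CFTL
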