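import Mathlib
import Pool.Agent.Lib.CFT.D1
import Pool.Agent.Lib.H84L.LA

/-! # CFT: LOCAL ALGEBRAICITY, final theorem of module LA (proof in Lib/H84L) -/

open NumberField IsDedekindDomain Polynomial

namespace CFT

/-- LOCAL ALGEBRAICITY. `D` is an `l`-adic character of the group of divisors, trivial on the primes in `S`, near 1 on the elements of deep rays
(`hlev`). The value `y` at a prime `v` outside `S` is algebraic of degree at most `B`, all its complex conjugates have absolute value 1, and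
`(Nm v) ^ m * y` is an algebraic integer. `hprime`: if `p` splits completely in a certain number field `E` and `v` divides `p`, then no root of unity `≠ 1` is a
quotient `σ y / y`, where `σ` fixes the roots of unity of order `N0`. Then `D (dv x) = ∏ τ x ^ n τ` on a ray. -/
theorem loc_alg {M : Type} [Field M] [NumberField M] {Ω : Type} [NormedField Ω] [IsUltrametricDist Ω] [CharZero Ω] [IsAlgClosed Ω]
    {l : ℕ} [Fact l.Prime] (hl : ‖(l : Ω)‖ = (l : ℝ)⁻¹) (S : Finset (Pr M)) (hSl : ∀ v : Pr M, (l : 𝓞 M) ∈ v.asIdeal → v ∈ S)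
    (D : Dv M →+ Additive Ωˣ) (h0 : ∀ v ∈ S, D (Finsupp.single v 1) = 0)
    (hnorm : ∀ v : Pr M, ‖((D (Finsupp.single v 1)).toMul : Ω)‖ = 1)
    (hlev : ∀ ε : ℝ, 0 < ε → ∃ N : ℕ, ∀ x : M, Ray S N x → ‖((D (dv x)).toMul : Ω) - 1‖ ≤ ε)
    (B m : ℕ) (hint : ∀ v ∉ S, IsIntegral ℤ ((Nm v : Ω) ^ m * ((D (Finsupp.single v 1)).toMul : Ω)))
    (hdeg : ∀ v ∉ S, (minpoly ℚ ((D (Finsupp.single v 1)).toMul : Ω)).natDegree ≤ B)
    (habs : ∀ v ∉ S, ∀ z : ℂ, aeval z (minpoly ℚ ((D (Finsupp.single v 1)).toMul : Ω)) = 0 → ‖z‖ = 1)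
    (hprime : ∃ N0 : ℕ, 0 < N0 ∧ ∃ (E : Type) (_ : Field E) (_ : NumberField E) (T : Finset ℕ), ∀ p : ℕ, p.Prime → p ∉ T →
      (∀ w : Pr E, (p : 𝓞 E) ∈ w.asIdeal → Nm w = p) → ∀ v : Pr M, (p : 𝓞 M) ∈ v.asIdeal → v ∉ S →
      ∀ σ : ↥(algebraicClosure ℚ Ω) →+* Ω, (∀ z : ↥(algebraicClosure ℚ Ω), z ^ N0 = 1 → σ z = z) →
      ∀ y : ↥(algebraicClosure ℚ Ω), (y : Ω) = ((D (Finsupp.single v 1)).toMul : Ω) →
      ∀ (ζ : Ω) (j : ℕ), 0 < j → ζ ^ j = 1 → σ y = ζ * y → ζ = 1) :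
    ∃ (N : ℕ) (n : (M →+* Ω) → ℤ), ∀ x : M, Ray S N x → ((D (dv x)).toMul : Ω) = ∏ τ : M →+* Ω, τ x ^ n τ :=
  Pool.Agent.Lib.H84L.loc_alg hl S hSl D h0 hnorm hlev B m hint hdeg habs hprime

end CFT
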