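import Mathlib
import Pool.Agent.Lib.CFT.D_32

/-! # CFT module N (levels), N01: the absolute Galois group acts on the ring of all algebraic integers -/

open NumberField IsDedekindDomain

namespace ST32

section

variable (K : Type) [Field K] (Om : Type) [Field Om] [Algebra K Om]

instance n01_smulcomm : SMulCommClass (Om ≃ₐ[K] Om) (𝓞 K) (𝓞 Om) where
  smul_comm g a x := by
    apply RingOfIntegers.ext
    show g ((a • x : 𝓞 Om) : Om) = ((a • (g • x) : 𝓞 Om) : Om)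
    rw [Algebra.smul_def, Algebra.smul_def]
    show g (algebraMap K Om (a : K) * (x : Om)) = algebraMap K Om (a : K) * g (x : Om)
    rw [map_mul, AlgEquiv.commutes]

instance n01_inv [IsGalois K Om] : Algebra.IsInvariant (𝓞 K) (𝓞 Om) (Om ≃ₐ[K] Om) where
  isInvariant x hx := by
    have h1 : (x : Om) ∈ Set.range (algebraMap K Om) := by
      rw [InfiniteGalois.mem_range_algebraMap_iff_fixed]
      intro g
      exact congrArg (fun y : 𝓞 Om => (y : Om)) (hx g)
    obtain ⟨a, ha⟩ := h1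
    have h2 : IsIntegral ℤ a := by
      have h3 : IsIntegral ℤ (algebraMap K Om a) := by
        rw [ha]
        exact RingOfIntegers.isIntegral_coe x
      exact (isIntegral_algebraMap_iff (algebraMap K Om).injective).1 h3
    exact ⟨⟨a, h2⟩, RingOfIntegers.ext ha⟩

theorem n01_cont [Algebra.IsIntegral K Om] [TopologicalSpace (𝓞 Om)] [DiscreteTopology (𝓞 Om)] :
    ContinuousSMul (Om ≃ₐ[K] Om) (𝓞 Om) := by
  rw [continuousSMul_iff_stabilizer_isOpen]
  intro x
  have h := stabilizer_isOpen_of_isIntegral (K := K) (L := Om) (x : Om)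
  have e : (MulAction.stabilizer (Om ≃ₐ[K] Om) x : Set (Om ≃ₐ[K] Om)) = (MulAction.stabilizer (Om ≃ₐ[K] Om) (x : Om) : Set (Om ≃ₐ[K] Om)) := by
    ext g
    simp only [SetLike.mem_coe, MulAction.mem_stabilizer_iff]
    constructor
    · intro h
      exact congrArg (fun y : 𝓞 Om => (y : Om)) h
    · intro h
      exact RingOfIntegers.ext h
  rw [e]
  exact h

/-- Transitivity on the primes above. -/
theorem exists_smul_eq [IsGalois K Om] (P Q : Ideal (𝓞 Om)) (hP : P.IsPrime) (hQ : Q.IsPrime)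
    (h : P.comap (algebraMap (𝓞 K) (𝓞 Om)) = Q.comap (algebraMap (𝓞 K) (𝓞 Om))) :
    ∃ g : Om ≃ₐ[K] Om, ∀ x : 𝓞 Om, x ∈ P ↔ g • x ∈ Q := by
  let _ : TopologicalSpace (𝓞 Om) := ⊥
  have : DiscreteTopology (𝓞 Om) := ⟨rfl⟩
  have := n01_cont K Om
  have := hP
  have := hQ
  obtain ⟨g, hg⟩ := Algebra.IsInvariant.exists_smul_of_under_eq_of_profinite (A := 𝓞 K) (G := Om ≃ₐ[K] Om) P Q h
  refine ⟨g, fun x => ?_⟩
  open scoped Pointwise in
  rw [hg, Ideal.smul_mem_pointwise_smul_iff]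

/-- Every automorphism of the residue ring over the residue field of K is induced by an element of the decomposition group. -/
theorem exists_smul_of_aut [IsGalois K Om] (P : Ideal (𝓞 Om)) (hP : P.IsPrime) (p : Ideal (𝓞 K)) (hp : P.comap (algebraMap (𝓞 K) (𝓞 Om)) = p)
    (f : (𝓞 Om ⧸ P) ≃+* (𝓞 Om ⧸ P))
    (hf : ∀ a : 𝓞 K, f (Ideal.Quotient.mk P (algebraMap (𝓞 K) (𝓞 Om) a)) = Ideal.Quotient.mk P (algebraMap (𝓞 K) (𝓞 Om) a)) :
    ∃ g : Om ≃ₐ[K] Om, ∀ x : 𝓞 Om, Ideal.Quotient.mk P (g • x) = f (Ideal.Quotient.mk P x) := by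
  let _ : TopologicalSpace (𝓞 Om) := ⊥
  have : DiscreteTopology (𝓞 Om) := ⟨rfl⟩
  have := n01_cont K Om
  have := hP
  have : P.LiesOver p := ⟨hp.symm⟩
  let f' : (𝓞 Om ⧸ P) ≃ₐ[𝓞 K ⧸ p] (𝓞 Om ⧸ P) := AlgEquiv.ofRingEquiv (f := f) (by
    intro a
    obtain ⟨a, rfl⟩ := Ideal.Quotient.mk_surjective a
    exact hf a)
  obtain ⟨g, hg⟩ := Ideal.Quotient.stabilizerHom_surjective_of_profinite (G := Om ≃ₐ[K] Om) p P f'
  refine ⟨g.1, fun x => ?_⟩
  have h1 := Ideal.Quotient.stabilizerHom_apply P p (Om ≃ₐ[K] Om) g x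
  rw [hg] at h1
  exact h1.symm

end

end ST32
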