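import Mathlib
import Pool.Agent.Lib.CFT.N01

/-! # CFT module N (levels), N02: primes above, Frobenius elements exist, inertia elements lift -/

open NumberField IsDedekindDomain

namespace ST32

section

variable {K : Type} [Field K] [NumberField K] {Om : Type} [Field Om] [Algebra K Om]

theorem n02_int [Algebra.IsIntegral K Om] : Algebra.IsIntegral (𝓞 K) (𝓞 Om) := by
  constructor
  intro x
  have h1 : IsIntegral ℤ (x : 𝓞 Om) := RingOfIntegers.isIntegral x
  exact h1.tower_top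

/-- There is a prime above v. -/
theorem exists_above [Algebra.IsIntegral K Om] (v : CFT.Pr K) : ∃ P : Ideal (𝓞 Om), Above v P := by
  have := n02_int (K := K) (Om := Om)
  have := v.isPrime
  have hinj : Function.Injective (algebraMap (𝓞 K) (𝓞 Om)) := RingOfIntegers.algebraMap.injective K Om
  obtain ⟨Q, h1, h2⟩ := Ideal.exists_ideal_over_prime_of_isIntegral_of_isDomain (S := 𝓞 Om) v.asIdeal (by
    rw [(RingHom.injective_iff_ker_eq_bot _).1 hinj]
    exact bot_le)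
  exact ⟨Q, h1, h2⟩

theorem Above.maximal [Algebra.IsIntegral K Om] {v : CFT.Pr K} {P : Ideal (𝓞 Om)} (h : Above v P) : P.IsMaximal := by
  have := n02_int (K := K) (Om := Om)
  have := h.1
  refine Ideal.isMaximal_of_isIntegral_of_isMaximal_comap (R := 𝓞 K) P ?_
  rw [h.2]
  exact v.isMaximal

/-- There is a Frobenius element at every prime above v. -/
theorem exists_frobAt [IsGalois K Om] (v : CFT.Pr K) (P : Ideal (𝓞 Om)) (hP : Above v P) :
    ∃ g : Om ≃ₐ[K] Om, FrobAt (CFT.Nm v) P g := by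
  have := n02_int (K := K) (Om := Om)
  have hPp := hP.1
  have hPm := hP.maximal
  have := v.isMaximal
  letI : Field (𝓞 K ⧸ v.asIdeal) := Ideal.Quotient.field v.asIdeal
  letI : Field (𝓞 Om ⧸ P) := Ideal.Quotient.field P
  have : Finite (𝓞 K ⧸ v.asIdeal) := Ideal.finiteQuotientOfFreeOfNeBot v.asIdeal v.ne_bot
  letI : Fintype (𝓞 K ⧸ v.asIdeal) := Fintype.ofFinite _
  haveI : P.LiesOver v.asIdeal := ⟨hP.2.symm⟩
  haveI : Algebra.IsAlgebraic (𝓞 K ⧸ v.asIdeal) (𝓞 Om ⧸ P) := Algebra.IsIntegral.isAlgebraic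
  let e := FiniteField.frobeniusAlgEquivOfAlgebraic (𝓞 K ⧸ v.asIdeal) (𝓞 Om ⧸ P)
  have hcard : Fintype.card (𝓞 K ⧸ v.asIdeal) = CFT.Nm v := by
    unfold CFT.Nm
    rw [Ideal.absNorm_apply, Submodule.cardQuot_apply, Nat.card_eq_fintype_card]
  obtain ⟨g, hg⟩ := exists_smul_of_aut K Om P hPp v.asIdeal hP.2 e.toRingEquiv (by
    intro a
    exact e.commutes (Ideal.Quotient.mk v.asIdeal a))
  refine ⟨g, fun x => ?_⟩
  rw [← Ideal.Quotient.eq_zero_iff_mem, map_sub, sub_eq_zero, hg, map_pow, ← hcard]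
  rfl

theorem exists_frv [IsGalois K Om] (v : CFT.Pr K) : ∃ g : Om ≃ₐ[K] Om, IsFrv v g := by
  obtain ⟨P, hP⟩ := exists_above (Om := Om) v
  obtain ⟨g, hg⟩ := exists_frobAt v P hP
  exact ⟨g, P, hP, hg⟩

end

section

variable {K : Type} [Field K] {Om : Type} [Field Om] [Algebra K Om]

/-- Inertia elements lift. -/
theorem exists_inert_lift [IsGalois K Om] (L : IntermediateField K Om) [Normal K L] (P : Ideal (𝓞 Om)) (hP : P.IsPrime)
    (s : L ≃ₐ[K] L) (hs : ∀ x : 𝓞 L, s • x - x ∈ P.comap (algebraMap (𝓞 L) (𝓞 Om))) :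
    ∃ g : Om ≃ₐ[K] Om, Inert P g ∧ AlgEquiv.restrictNormalHom L g = s := by
  obtain ⟨g0, hg0⟩ := AlgEquiv.restrictNormalHom_surjective (F := K) (K₁ := L) Om s
  have hres : ∀ x : 𝓞 L, g0 • (algebraMap (𝓞 L) (𝓞 Om) x) = algebraMap (𝓞 L) (𝓞 Om) (s • x) := by
    intro x
    apply RingOfIntegers.ext
    have h := AlgEquiv.restrictNormal_commutes g0 L (x : L)
    have h2 : AlgEquiv.restrictNormal g0 L = s := hg0
    rw [h2] at h
    exact h.symm
  -- g0 P and P have the same trace on L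
  let Q : Ideal (𝓞 Om) := P.comap (MulSemiringAction.toRingHom (Om ≃ₐ[K] Om) (𝓞 Om) g0)
  have hQmem : ∀ x : 𝓞 Om, x ∈ Q ↔ g0 • x ∈ P := fun x => Iff.rfl
  have hQ : Q.IsPrime := Ideal.IsPrime.comap _
  have htr : Q.comap (algebraMap (𝓞 L) (𝓞 Om)) = P.comap (algebraMap (𝓞 L) (𝓞 Om)) := by
    ext x
    rw [Ideal.mem_comap, hQmem, hres, ← Ideal.mem_comap]
    have h1 := hs x
    constructor
    · intro h
      have h2 := Ideal.sub_mem _ h h1
      rwa [sub_sub_cancel] at h2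
    · intro h
      have h2 := Ideal.add_mem _ h h1
      rwa [add_sub_cancel] at h2
  obtain ⟨n, hn⟩ := exists_smul_eq L Om P Q hP hQ htr.symm
  -- g1 = g0 n stabilises P
  let n' : Om ≃ₐ[K] Om := n.restrictScalars K
  have hn' : ∀ x : 𝓞 Om, n' • x = n • x := fun x => rfl
  have hstab : ∀ x : 𝓞 Om, x ∈ P ↔ (g0 * n') • x ∈ P := by
    intro x
    rw [hn x, hQmem, mul_smul, hn']
  let f : (𝓞 Om ⧸ P) ≃+* (𝓞 Om ⧸ P) := Ideal.quotientEquiv P P (MulSemiringAction.toRingEquiv (Om ≃ₐ[K] Om) (𝓞 Om) (g0 * n')) (by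
    ext x
    constructor
    · intro hx
      refine (Ideal.mem_map_of_equiv _ _).2 ⟨(g0 * n')⁻¹ • x, ?_, ?_⟩
      · rw [hstab, smul_inv_smul]
        exact hx
      · exact smul_inv_smul (g0 * n') x
    · intro hx
      obtain ⟨y, hy, rfl⟩ := (Ideal.mem_map_of_equiv _ _).1 hx
      exact (hstab y).1 hy)
  have hf : ∀ x : 𝓞 Om, f (Ideal.Quotient.mk P x) = Ideal.Quotient.mk P ((g0 * n') • x) := fun x => Ideal.quotientEquiv_mk _ _ _ _ x
  have hnL : ∀ x : 𝓞 L, n • (algebraMap (𝓞 L) (𝓞 Om) x) = algebraMap (𝓞 L) (𝓞 Om) x := by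
    intro x
    apply RingOfIntegers.ext
    exact n.commutes (x : L)
  obtain ⟨h, hh⟩ := exists_smul_of_aut L Om P hP _ rfl f (by
    intro a
    rw [hf, mul_smul, hn', hnL, hres, ← sub_eq_zero, ← map_sub, Ideal.Quotient.eq_zero_iff_mem, ← map_sub]
    exact hs a)
  let h' : Om ≃ₐ[K] Om := h.restrictScalars K
  have hh' : ∀ x : 𝓞 Om, h' • x = h • x := fun x => rfl
  refine ⟨(g0 * n') * h'⁻¹, ?_, ?_⟩
  · intro x
    have e1 := hh (h⁻¹ • x)
    rw [smul_inv_smul, hf] at e1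
    rw [← Ideal.Quotient.eq_zero_iff_mem, map_sub, sub_eq_zero, e1, mul_smul]
    rfl
  · have e1 : ∀ t : Om ≃ₐ[L] Om, AlgEquiv.restrictNormalHom L (t.restrictScalars K) = (1 : L ≃ₐ[K] L) := by
      intro t
      refine AlgEquiv.ext fun x => ?_
      have h := AlgEquiv.restrictNormal_commutes (t.restrictScalars K) L x
      apply (algebraMap L Om).injective
      refine h.trans ?_
      exact t.commutes x
    rw [map_mul, map_mul, map_inv, e1, e1, mul_one, inv_one, mul_one, hg0]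

end

end ST32
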