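import Mathlib
import Pool.Agent.Lib.CFT.N02
import Pool.Agent.Lib.CFT.D2
import Pool.Agent.Lib.CFT.B16
import Pool.Agent.Lib.CFT.B17

/-! # CFT module N (levels), N03: the finite abelian layer cut out by a character with open kernel -/

open NumberField IsDedekindDomain

namespace ST32

section

variable {K : Type} [Field K] {Om : Type} [Field Om] [Algebra K Om]

theorem layer [IsGalois K Om] {A : Type} [CommGroup A] (χ : (Om ≃ₐ[K] Om) →* A) (hχ : IsOpen (χ.ker : Set (Om ≃ₐ[K] Om))) :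
    ∃ (L : IntermediateField K Om) (_ : FiniteDimensional K L) (_ : IsGalois K L) (χL : (L ≃ₐ[K] L) →* A),
      Function.Injective χL ∧ ∀ g : Om ≃ₐ[K] Om, χL (AlgEquiv.restrictNormalHom L g) = χ g := by
  let H : ClosedSubgroup (Om ≃ₐ[K] Om) := ⟨χ.ker, Subgroup.isClosed_of_isOpen _ hχ⟩
  let L : IntermediateField K Om := IntermediateField.fixedField χ.ker
  have hfix : L.fixingSubgroup = χ.ker := InfiniteGalois.fixingSubgroup_fixedField H
  have h2 : IsOpen L.fixingSubgroup.carrier ∧ L.fixingSubgroup.Normal := by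
    rw [hfix]
    exact ⟨hχ, MonoidHom.normal_ker χ⟩
  obtain ⟨hfd, hgal⟩ := (InfiniteGalois.isOpen_and_normal_iff_finite_and_isGalois L).1 h2
  have hsurj : Function.Surjective (AlgEquiv.restrictNormalHom L : (Om ≃ₐ[K] Om) →* (L ≃ₐ[K] L)) :=
    AlgEquiv.restrictNormalHom_surjective Om
  have hker : (AlgEquiv.restrictNormalHom L : (Om ≃ₐ[K] Om) →* (L ≃ₐ[K] L)).ker = χ.ker := by
    rw [IntermediateField.restrictNormalHom_ker, hfix]
  let e := QuotientGroup.quotientKerEquivOfSurjective (AlgEquiv.restrictNormalHom L : (Om ≃ₐ[K] Om) →* (L ≃ₐ[K] L)) hsurj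
  let χL : (L ≃ₐ[K] L) →* A := (QuotientGroup.lift _ χ hker.le).comp e.symm.toMonoidHom
  have hcomp : ∀ g : Om ≃ₐ[K] Om, χL (AlgEquiv.restrictNormalHom L g) = χ g := by
    intro g
    have h3 : e.symm (AlgEquiv.restrictNormalHom L g) = (g : (Om ≃ₐ[K] Om) ⧸ _) := by
      rw [MulEquiv.symm_apply_eq]
      rfl
    show QuotientGroup.lift _ χ hker.le (e.symm (AlgEquiv.restrictNormalHom L g)) = χ g
    rw [h3]
    rfl
  refine ⟨L, hfd, hgal, χL, ?_, hcomp⟩
  rw [injective_iff_map_eq_one]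
  intro s hs
  obtain ⟨g, rfl⟩ := hsurj s
  rw [hcomp] at hs
  have h4 : g ∈ (AlgEquiv.restrictNormalHom L : (Om ≃ₐ[K] Om) →* (L ≃ₐ[K] L)).ker := by
    rw [hker]
    exact hs
  exact h4

end

section

variable {K : Type} [Field K] [NumberField K] {Om : Type} [Field Om] [Algebra K Om]

omit [NumberField K] in
/-- The prime of a layer below a prime of the ring of all algebraic integers. -/
theorem exists_mid (L : IntermediateField K Om) [NumberField L] {v : CFT.Pr K} {P : Ideal (𝓞 Om)} (hP : Above v P) :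
    ∃ w : CFT.Pr L, CFT.below K w = v ∧ w.asIdeal = P.comap (algebraMap (𝓞 L) (𝓞 Om)) := by
  have hPp := hP.1
  have htow : (algebraMap (𝓞 L) (𝓞 Om)).comp (algebraMap (𝓞 K) (𝓞 L)) = algebraMap (𝓞 K) (𝓞 Om) := rfl
  have hcm : (P.comap (algebraMap (𝓞 L) (𝓞 Om))).comap (algebraMap (𝓞 K) (𝓞 L)) = v.asIdeal := by
    rw [Ideal.comap_comap, htow, hP.2]
  refine ⟨⟨P.comap (algebraMap (𝓞 L) (𝓞 Om)), Ideal.IsPrime.comap _, ?_⟩, ?_, rfl⟩
  · intro h
    rw [h] at hcm
    apply v.ne_bot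
    rw [← hcm, ← RingHom.ker_eq_comap_bot]
    exact (RingHom.injective_iff_ker_eq_bot _).1 (RingOfIntegers.algebraMap.injective K L)
  · exact HeightOneSpectrum.ext hcm

theorem unr_layer [IsGalois K Om] (L : IntermediateField K Om) [NumberField L] [IsGalois K L] {A : Type} [CommGroup A]
    (χ : (Om ≃ₐ[K] Om) →* A) (χL : (L ≃ₐ[K] L) →* A) (hinj : Function.Injective χL)
    (hcomp : ∀ g : Om ≃ₐ[K] Om, χL (AlgEquiv.restrictNormalHom L g) = χ g) (v : CFT.Pr K) (hv : UnrV χ v) : CFT.Unr K L v := by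
  intro w hw
  apply CFT.unr_of_inertia w
  intro s hs
  obtain ⟨P, hP⟩ := exists_above (Om := Om) w
  have hPv : Above v P := by
    refine ⟨hP.1, ?_⟩
    have htow : (algebraMap (𝓞 L) (𝓞 Om)).comp (algebraMap (𝓞 K) (𝓞 L)) = algebraMap (𝓞 K) (𝓞 Om) := rfl
    rw [← htow, ← Ideal.comap_comap, hP.2, ← hw]
    rfl
  obtain ⟨g, hg1, hg2⟩ := exists_inert_lift L P hP.1 s (by
    intro x
    rw [hP.2]
    exact hs x)
  have h1 := hv P hPv g hg1
  rw [← hcomp, hg2] at h1
  exact hinj (h1.trans (map_one χL).symm)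

theorem frob_layer [IsGalois K Om] (L : IntermediateField K Om) [NumberField L] [IsGalois K L] (hab : ∀ a b : L ≃ₐ[K] L, a * b = b * a)
    {v : CFT.Pr K} (hv : CFT.Unr K L v) {g : Om ≃ₐ[K] Om} (hg : IsFrv v g) :
    CFT.frob K L v = AlgEquiv.restrictNormalHom L g := by
  obtain ⟨P, hP, hg⟩ := hg
  obtain ⟨w, hw, hwP⟩ := exists_mid L hP
  refine CFT.frob_eq_of_one hab hv w hw fun x => ?_
  rw [hwP, Ideal.mem_comap, map_sub, map_pow]
  have h1 := hg (algebraMap (𝓞 L) (𝓞 Om) x)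
  have h2 : g • (algebraMap (𝓞 L) (𝓞 Om) x) = algebraMap (𝓞 L) (𝓞 Om) ((AlgEquiv.restrictNormalHom L g) • x) := by
    apply RingOfIntegers.ext
    exact (AlgEquiv.restrictNormal_commutes g L (x : L)).symm
  rw [← h2]
  exact h1

end

end ST32
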