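import Mathlib
import Pool.Agent.Lib.CFT.N03
import Pool.Agent.Lib.CFT.Core

/-! # CFT module N (levels), N04: reciprocity for characters of the absolute Galois group, at every level -/

open NumberField IsDedekindDomain

namespace ST32

section

variable {K : Type} [Field K] [NumberField K] {Om : Type} [Field Om] [Algebra K Om]

/-- Reciprocity for a character with open kernel. -/
theorem rec_fin [IsGalois K Om] {A : Type} [CommGroup A] (χ : (Om ≃ₐ[K] Om) →* A) (hχ : IsOpen (χ.ker : Set (Om ≃ₐ[K] Om)))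
    (S : Finset (CFT.Pr K)) (hS : ∀ v ∉ S, UnrV χ v) (Fr : CFT.Pr K → (Om ≃ₐ[K] Om)) (hFr : ∀ v ∉ S, IsFrv v (Fr v))
    (D : CFT.Dv K →+ Additive A) (h1 : ∀ v ∉ S, D (Finsupp.single v 1) = Additive.ofMul (χ (Fr v)))
    (h0 : ∀ v ∈ S, D (Finsupp.single v 1) = 0) :
    ∃ N : ℕ, ∀ x : K, CFT.Ray S N x → D (CFT.dv x) = 0 := by
  obtain ⟨L, hfd, hgal, χL, hinj, hcomp⟩ := layer χ hχ
  have : NumberField L := NumberField.of_module_finite K L
  have hab : ∀ a b : L ≃ₐ[K] L, a * b = b * a := fun a b => hinj (by rw [map_mul, map_mul, mul_comm])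
  have hunr : ∀ v ∉ S, CFT.Unr K L v := fun v hv => unr_layer L χ χL hinj hcomp v (hS v hv)
  obtain ⟨N, hN⟩ := CFT.artin K L hab S (fun v hv => by
    by_contra h
    exact hv (hunr v h))
  refine ⟨N, fun x hx => ?_⟩
  have h2 : D = CFT.art S χL := by
    refine Finsupp.addHom_ext fun v n => ?_
    have e1 : (Finsupp.single v n : CFT.Dv K) = n • Finsupp.single v 1 := by
      rw [Finsupp.smul_single, smul_eq_mul, mul_one]
    rw [e1, map_zsmul, map_zsmul]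
    by_cases hv : v ∈ S
    · rw [h0 v hv, CFT.art_single_of_mem χL hv]
    · rw [h1 v hv, CFT.art_single_of_notMem χL hv, frob_layer L hab (hunr v hv) (hFr v hv), hcomp, one_smul]
  rw [h2]
  exact hN A χL x hx

/-- A nontrivial character with open kernel is nontrivial at a Frobenius element. -/
theorem exists_frob_ne [IsGalois K Om] {A : Type} [CommGroup A] (χ : (Om ≃ₐ[K] Om) →* A) (hχ : IsOpen (χ.ker : Set (Om ≃ₐ[K] Om)))
    (g : Om ≃ₐ[K] Om) (hg : χ g ≠ 1) (S : Finset (CFT.Pr K)) (hS : ∀ v ∉ S, UnrV χ v) (Fr : CFT.Pr K → (Om ≃ₐ[K] Om))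
    (hFr : ∀ v ∉ S, IsFrv v (Fr v)) : ∃ v ∉ S, χ (Fr v) ≠ 1 := by
  by_contra hcon
  obtain ⟨L, hfd, hgal, χL, hinj, hcomp⟩ := layer χ hχ
  have : NumberField L := NumberField.of_module_finite K L
  have hab : ∀ a b : L ≃ₐ[K] L, a * b = b * a := fun a b => hinj (by rw [map_mul, map_mul, mul_comm])
  have hunr : ∀ v ∉ S, CFT.Unr K L v := fun v hv => unr_layer L χ χL hinj hcomp v (hS v hv)
  have hgen := CFT.frob_gen K L hab S
  have h2 : ∀ v ∉ S, CFT.frob K L v = 1 := by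
    intro v hv
    apply hinj
    rw [frob_layer L hab (hunr v hv) (hFr v hv), hcomp, map_one]
    by_contra h3
    exact hcon ⟨v, hv, h3⟩
  have h3 : Subgroup.closure {s : L ≃ₐ[K] L | ∃ v : CFT.Pr K, v ∉ S ∧ CFT.Unr K L v ∧ CFT.frob K L v = s} ≤ ⊥ := by
    rw [Subgroup.closure_le]
    rintro s ⟨v, hv, -, rfl⟩
    rw [h2 v hv]
    exact Subgroup.mem_bot.2 rfl
  rw [hgen] at h3
  apply hg
  have h4 : AlgEquiv.restrictNormalHom L g = (1 : L ≃ₐ[K] L) := Subgroup.mem_bot.1 (h3 (Subgroup.mem_top _))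
  rw [← hcomp, h4, map_one]

end

section

variable {F : Type} [NormedField F] [IsUltrametricDist F]

/-- The subgroup of the units of F near 1. -/
def near (ε : ℝ) (h0 : 0 < ε) (h1 : ε < 1) : Subgroup Fˣ where
  carrier := {u | ‖(u : F) - 1‖ ≤ ε}
  one_mem' := by
    rw [Set.mem_ofPred_eq, Units.val_one, sub_self, norm_zero]
    exact h0.le
  mul_mem' := by
    intro a b ha hb
    rw [Set.mem_ofPred_eq] at ha hb ⊢
    have hb1 : ‖(b : F)‖ ≤ 1 := by
      have e : (b : F) = ((b : F) - 1) + 1 := by ring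
      rw [e]
      refine (IsUltrametricDist.norm_add_le_max _ _).trans (max_le (hb.trans h1.le) ?_)
      rw [norm_one]
    have e : ((a * b : Fˣ) : F) - 1 = ((a : F) - 1) * b + ((b : F) - 1) := by
      rw [Units.val_mul]
      ring
    rw [e]
    refine (IsUltrametricDist.norm_add_le_max _ _).trans (max_le ?_ hb)
    rw [norm_mul]
    exact (mul_le_of_le_one_right (norm_nonneg _) hb1).trans ha
  inv_mem' := by
    intro a ha
    rw [Set.mem_ofPred_eq] at ha ⊢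
    have ha1 : ‖(a : F)‖ = 1 := by
      have e : (a : F) = 1 + ((a : F) - 1) := by ring
      rw [e, IsUltrametricDist.norm_add_eq_max_of_norm_ne_norm, norm_one, max_eq_left (ha.trans h1.le)]
      rw [norm_one]
      exact (ha.trans_lt h1).ne'
    have e : ((a⁻¹ : Fˣ) : F) - 1 = -(((a : F) - 1) * ((a⁻¹ : Fˣ) : F)) := by
      have h2 : (a : F) * ((a⁻¹ : Fˣ) : F) = 1 := Units.mul_inv a
      linear_combination h2
    rw [e, norm_neg, norm_mul, Units.val_inv_eq_inv_val, norm_inv, ha1, inv_one, mul_one]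
    exact ha

theorem mem_near {ε : ℝ} {h0 : 0 < ε} {h1 : ε < 1} (u : Fˣ) : u ∈ (near ε h0 h1 : Subgroup Fˣ) ↔ ‖(u : F) - 1‖ ≤ ε := Iff.rfl

variable {K : Type} [Field K] {Om : Type} [Field Om] [Algebra K Om]

theorem open_near (ψ : (Om ≃ₐ[K] Om) →* Fˣ) (hc : Continuous fun g => (ψ g : F)) (ε : ℝ) (h0 : 0 < ε) (h1 : ε < 1) :
    IsOpen (((near ε h0 h1 : Subgroup Fˣ).comap ψ : Subgroup (Om ≃ₐ[K] Om)) : Set (Om ≃ₐ[K] Om)) := by
  apply Subgroup.isOpen_of_mem_nhds (g := 1)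
  have h2 : Filter.Tendsto (fun g : Om ≃ₐ[K] Om => (ψ g : F)) (nhds 1) (nhds 1) := by
    have h3 := hc.tendsto 1
    rwa [map_one, Units.val_one] at h3
  have h4 : ∀ᶠ g : Om ≃ₐ[K] Om in nhds 1, dist (ψ g : F) 1 < ε := h2.eventually (Metric.ball_mem_nhds _ h0)
  filter_upwards [h4] with g hg
  rw [SetLike.mem_coe, Subgroup.mem_comap, mem_near]
  rw [dist_eq_norm] at hg
  exact hg.le

end

section

variable {F : Type} [NormedField F] [IsUltrametricDist F] {K : Type} [Field K] [NumberField K] {Om : Type} [Field Om] [Algebra K Om]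

omit [NumberField K] in
theorem ker_quot {B : Type} [CommGroup B] (V : Subgroup B) (ψ : (Om ≃ₐ[K] Om) →* B) :
    ((QuotientGroup.mk' V).comp ψ).ker = V.comap ψ := by
  ext g
  rw [MonoidHom.mem_ker, MonoidHom.comp_apply, QuotientGroup.mk'_apply, QuotientGroup.eq_one_iff, Subgroup.mem_comap]

theorem unrV_comp {G H : Type} [Group G] [Group H] (f : (Om ≃ₐ[K] Om) →* G) (q : G →* H) {v : CFT.Pr K} (h : UnrV f v) : UnrV (q.comp f) v := by
  intro P hP g hg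
  rw [MonoidHom.comp_apply, h P hP g hg, map_one]

/-- Reciprocity modulo a subgroup. -/
theorem rec_sub [IsGalois K Om] {B : Type} [CommGroup B] (V : Subgroup B) (ψ : (Om ≃ₐ[K] Om) →* B)
    (hV : IsOpen ((V.comap ψ : Subgroup (Om ≃ₐ[K] Om)) : Set (Om ≃ₐ[K] Om)))
    (S : Finset (CFT.Pr K)) (hS : ∀ v ∉ S, UnrV ψ v) (Fr : CFT.Pr K → (Om ≃ₐ[K] Om)) (hFr : ∀ v ∉ S, IsFrv v (Fr v))
    (D : CFT.Dv K →+ Additive B) (h1 : ∀ v ∉ S, D (Finsupp.single v 1) = Additive.ofMul (ψ (Fr v)))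
    (h0 : ∀ v ∈ S, D (Finsupp.single v 1) = 0) :
    ∃ N : ℕ, ∀ x : K, CFT.Ray S N x → (D (CFT.dv x)).toMul ∈ V := by
  have hV' : IsOpen (((QuotientGroup.mk' V).comp ψ).ker : Set (Om ≃ₐ[K] Om)) := by
    rw [ker_quot]
    exact hV
  obtain ⟨N, hN⟩ := rec_fin ((QuotientGroup.mk' V).comp ψ) hV' S
    (fun v hv => unrV_comp ψ _ (hS v hv)) Fr hFr ((MonoidHom.toAdditive (QuotientGroup.mk' V)).comp D)
    (fun v hv => by
      rw [AddMonoidHom.comp_apply, h1 v hv]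
      rfl)
    (fun v hv => by rw [AddMonoidHom.comp_apply, h0 v hv, map_zero])
  refine ⟨N, fun x hx => ?_⟩
  have h2 := hN x hx
  rw [AddMonoidHom.comp_apply] at h2
  have h3 : (QuotientGroup.mk' V) (D (CFT.dv x)).toMul = 1 := h2
  rwa [QuotientGroup.mk'_apply, QuotientGroup.eq_one_iff] at h3

theorem exists_frob_sub [IsGalois K Om] {B : Type} [CommGroup B] (V : Subgroup B) (ψ : (Om ≃ₐ[K] Om) →* B)
    (hV : IsOpen ((V.comap ψ : Subgroup (Om ≃ₐ[K] Om)) : Set (Om ≃ₐ[K] Om))) (g : Om ≃ₐ[K] Om) (hg : ψ g ∉ V)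
    (S : Finset (CFT.Pr K)) (hS : ∀ v ∉ S, UnrV ψ v) (Fr : CFT.Pr K → (Om ≃ₐ[K] Om)) (hFr : ∀ v ∉ S, IsFrv v (Fr v)) :
    ∃ v ∉ S, ψ (Fr v) ∉ V := by
  have hV' : IsOpen (((QuotientGroup.mk' V).comp ψ).ker : Set (Om ≃ₐ[K] Om)) := by
    rw [ker_quot]
    exact hV
  obtain ⟨v, hv, h⟩ := exists_frob_ne ((QuotientGroup.mk' V).comp ψ) hV' g (by
      rw [MonoidHom.comp_apply, QuotientGroup.mk'_apply, Ne, QuotientGroup.eq_one_iff]
      exact hg) S (fun v hv => unrV_comp ψ _ (hS v hv)) Fr hFr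
  refine ⟨v, hv, fun h2 => h ?_⟩
  rw [MonoidHom.comp_apply, QuotientGroup.mk'_apply, QuotientGroup.eq_one_iff]
  exact h2

/-- I1. LEVELS: reciprocity for a continuous character with values in an ultrametric field. -/
theorem levels [IsGalois K Om] (ψ : (Om ≃ₐ[K] Om) →* Fˣ) (hc : Continuous fun g => (ψ g : F))
    (S : Finset (CFT.Pr K)) (hS : ∀ v ∉ S, UnrV ψ v) (Fr : CFT.Pr K → (Om ≃ₐ[K] Om)) (hFr : ∀ v ∉ S, IsFrv v (Fr v))
    (D : CFT.Dv K →+ Additive Fˣ) (h1 : ∀ v ∉ S, D (Finsupp.single v 1) = Additive.ofMul (ψ (Fr v)))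
    (h0 : ∀ v ∈ S, D (Finsupp.single v 1) = 0) (ε : ℝ) (hε : 0 < ε) :
    ∃ N : ℕ, ∀ x : K, CFT.Ray S N x → ‖((D (CFT.dv x)).toMul : F) - 1‖ ≤ ε := by
  have hδ0 : 0 < min ε (1 / 2) := lt_min hε (by norm_num)
  have hδ1 : min ε (1 / 2) < 1 := (min_le_right _ _).trans_lt (by norm_num)
  obtain ⟨N, hN⟩ := rec_sub (near _ hδ0 hδ1) ψ (open_near ψ hc _ hδ0 hδ1) S hS Fr hFr D h1 h0
  refine ⟨N, fun x hx => ?_⟩
  have h3 := hN x hx
  rw [mem_near] at h3
  exact h3.trans (min_le_left _ _)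

/-- A nontrivial continuous character is nontrivial at a Frobenius element. -/
theorem exists_frob_ne' [IsGalois K Om] (ψ : (Om ≃ₐ[K] Om) →* Fˣ) (hc : Continuous fun g => (ψ g : F)) (hne : ψ ≠ 1)
    (S : Finset (CFT.Pr K)) (hS : ∀ v ∉ S, UnrV ψ v) (Fr : CFT.Pr K → (Om ≃ₐ[K] Om)) (hFr : ∀ v ∉ S, IsFrv v (Fr v)) :
    ∃ v ∉ S, ψ (Fr v) ≠ 1 := by
  obtain ⟨g, hg⟩ : ∃ g, ψ g ≠ 1 := by
    by_contra h
    apply hne
    ext g
    by_contra h2
    exact h ⟨g, fun h3 => h2 (by rw [h3]; rfl)⟩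
  have hpos : 0 < ‖(ψ g : F) - 1‖ := by
    rw [norm_pos_iff, sub_ne_zero]
    exact fun h => hg (Units.ext h)
  have hδ0 : 0 < min (‖(ψ g : F) - 1‖ / 2) (1 / 2) := lt_min (half_pos hpos) (by norm_num)
  have hδ1 : min (‖(ψ g : F) - 1‖ / 2) (1 / 2) < 1 := (min_le_right _ _).trans_lt (by norm_num)
  obtain ⟨v, hv, h⟩ := exists_frob_sub (near _ hδ0 hδ1) ψ (open_near ψ hc _ hδ0 hδ1) g (by
      rw [mem_near]
      intro h
      have h2 := h.trans (min_le_left _ _)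
      linarith) S hS Fr hFr
  refine ⟨v, hv, fun h2 => h ?_⟩
  rw [h2]
  exact Subgroup.one_mem _

end

end ST32
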