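import Mathlib
import Pool.Agent.Lib.CFT.N04
import Pool.Agent.Lib.H25G.Defs

/-! # CFT module N, N05: good characters are continuous; passage from the fixing subgroup of M to the Galois group of Om over M -/

set_option autoImplicit false

open NumberField IsDedekindDomain H25G

namespace ST32

section cont

variable {l : ℕ} [Fact l.Prime] {n : ℕ}

theorem cont_mM (ρ : Gal(H25G.Om/ℚ) →* GL (Fin n) ℚ_[l]) (hc : Continuous ρ) (i j : Jx n) :
    Continuous fun g : Gal(H25G.Om/ℚ) => mM (Matrix.GeneralLinearGroup.map (algebraMap ℚ_[l] (PadicAlgCl l)) (ρ g)) i j := by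
  have h1 : Continuous fun g : Gal(H25G.Om/ℚ) => (ρ g : Matrix (Fin n) (Fin n) ℚ_[l]) := Units.continuous_val.comp hc
  have h2 : Continuous fun g : Gal(H25G.Om/ℚ) => (((ρ g)⁻¹ : GL (Fin n) ℚ_[l]) : Matrix (Fin n) (Fin n) ℚ_[l]) := by
    have h3 : Continuous fun g : Gal(H25G.Om/ℚ) => (ρ g⁻¹ : Matrix (Fin n) (Fin n) ℚ_[l]) := h1.comp continuous_inv
    simpa only [map_inv] using h3
  have ha : Continuous (algebraMap ℚ_[l] (PadicAlgCl l)) := continuous_algebraMap _ _
  rcases i with i | i | i <;> rcases j with j | j | j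
  · exact continuous_const
  · exact continuous_const
  · exact continuous_const
  · exact continuous_const
  · exact ha.comp (h1.matrix_elem i j)
  · exact continuous_const
  · exact continuous_const
  · exact continuous_const
  · have h4 := ha.comp (h2.matrix_elem j i)
    refine h4.congr fun g => ?_
    show algebraMap ℚ_[l] (PadicAlgCl l) ((((ρ g)⁻¹ : GL (Fin n) ℚ_[l]) : Matrix (Fin n) (Fin n) ℚ_[l]) j i) =
      (((Matrix.GeneralLinearGroup.map (algebraMap ℚ_[l] (PadicAlgCl l)) (ρ g))⁻¹ : GL (Fin n) (PadicAlgCl l)) : Matrix (Fin n) (Fin n) (PadicAlgCl l)) j i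
    have h5 := map_inv (Matrix.GeneralLinearGroup.map (n := Fin n) (algebraMap ℚ_[l] (PadicAlgCl l))) (ρ g)
    rw [← h5]
    rfl

theorem cont_Rl (ρ : Gal(H25G.Om/ℚ) →* GL (Fin n) ℚ_[l]) (hc : Continuous ρ) (a : ℕ) (v : (Fin a → Jx n) → PadicAlgCl l)
    (f : Module.Dual (PadicAlgCl l) ((Fin a → Jx n) → PadicAlgCl l)) : Continuous fun g : Gal(H25G.Om/ℚ) => f (Rl ρ a g v) := by
  classical
  have h1 : ∀ g, f (Rl ρ a g v) = ∑ I, (Rl ρ a g v) I * f (Pi.single I 1) := by
    intro g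
    conv_lhs => rw [← Finset.univ_sum_single (Rl ρ a g v), map_sum]
    refine Finset.sum_congr rfl fun I _ => ?_
    have h2 : (Pi.single I ((Rl ρ a g v) I) : (Fin a → Jx n) → PadicAlgCl l) = ((Rl ρ a g v) I) • Pi.single I 1 := by
      rw [← Pi.single_smul, smul_eq_mul, mul_one]
    rw [h2, map_smul, smul_eq_mul]
  simp only [h1]
  refine continuous_finsetSum _ fun I _ => Continuous.mul ?_ continuous_const
  have h3 : ∀ g, (Rl ρ a g v) I = ∑ J, (∏ t, mM (Matrix.GeneralLinearGroup.map (algebraMap ℚ_[l] (PadicAlgCl l)) (ρ g)) (I t) (J t)) * v J := by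
    intro g
    rfl
  simp only [h3]
  exact continuous_finsetSum _ fun J _ => Continuous.mul (continuous_finsetProd _ fun t _ => cont_mM ρ hc _ _) continuous_const

theorem good_cont {ρ : Gal(H25G.Om/ℚ) →* GL (Fin n) ℚ_[l]} (hc : Continuous ρ) {H : Subgroup Gal(H25G.Om/ℚ)} {ψ : H →* (PadicAlgCl l)ˣ}
    (hψ : GoodChar ρ H ψ) : Continuous fun h : H => (ψ h : PadicAlgCl l) := by
  obtain ⟨-, a, N, U, -, hU, hUH, η, v, f, -, hη, h1, -⟩ := hψ
  have h2 : (fun h : H => (ψ h : PadicAlgCl l)) = fun h : H => (η h : PadicAlgCl l) * f (Rl ρ a h v) := funext h1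
  rw [h2]
  refine Continuous.mul ?_ ((cont_Rl ρ hc a v f).comp continuous_subtype_val)
  rw [continuous_iff_continuousAt]
  intro h0
  have h3 : ∀ᶠ h : H in nhds h0, (h0⁻¹ * h : H) ∈ U.subgroupOf H := by
    have h4 : Continuous fun h : H => ((h0⁻¹ * h : H) : Gal(H25G.Om/ℚ)) := continuous_subtype_val.comp (continuous_const.mul continuous_id)
    have h5 := h4.tendsto h0
    rw [inv_mul_cancel] at h5
    exact h5.eventually (hU.mem_nhds U.one_mem)
  have h6 : (fun h : H => (η h : PadicAlgCl l)) =ᶠ[nhds h0] fun _ => (η h0 : PadicAlgCl l) := by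
    filter_upwards [h3] with h hh
    have h7 := hη _ (Subgroup.mem_subgroupOf.1 hh)
    rw [map_mul, map_inv, inv_mul_eq_one] at h7
    rw [h7]
  exact (continuousAt_const).congr h6.symm

end cont

section glue

theorem om_alg : @Algebra.IsAlgebraic ℚ H25G.Om _ _ DivisionRing.toRatAlgebra := by
  have h : (DivisionRing.toRatAlgebra : Algebra ℚ H25G.Om) = AlgebraicClosure.instAlgebra ℚ := Subsingleton.elim _ _
  rw [h]
  infer_instance

theorem om_cl : IsAlgClosure ℚ H25G.Om := ⟨inferInstance, om_alg⟩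

theorem om_gal : IsGalois ℚ H25G.Om := by
  have := om_cl
  infer_instance

theorem om_galM (M : IntermediateField ℚ H25G.Om) : IsGalois M H25G.Om := by
  have := om_gal
  exact IsGalois.tower_top_intermediateField M

variable (M : IntermediateField ℚ H25G.Om)

/-- The isomorphism of the fixing subgroup with the Galois group. -/
noncomputable abbrev eM : M.fixingSubgroup ≃* (H25G.Om ≃ₐ[M] H25G.Om) := M.fixingSubgroupEquiv

theorem eM_symm_apply (g : H25G.Om ≃ₐ[M] H25G.Om) (x : H25G.Om) : (((eM M).symm g : M.fixingSubgroup) : Gal(H25G.Om/ℚ)) x = g x := rfl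

theorem eM_symm_smul (g : H25G.Om ≃ₐ[M] H25G.Om) (x : 𝓞 H25G.Om) : (((eM M).symm g : M.fixingSubgroup) : Gal(H25G.Om/ℚ)) • x = g • x := rfl

theorem eM_smul (g : M.fixingSubgroup) (x : 𝓞 H25G.Om) : (eM M g) • x = (g : Gal(H25G.Om/ℚ)) • x := rfl

theorem isFrv_iff [NumberField M] (P : CFT.Pr M) (h : M.fixingSubgroup) : IsFrv P (eM M h) ↔ IsFrP M P h := by
  constructor
  · rintro ⟨Q, ⟨h1, h2⟩, h3⟩
    exact ⟨h.2, Q, h1, h2, h3⟩
  · rintro ⟨-, Q, h1, h2, h3⟩
    exact ⟨Q, ⟨h1, h2⟩, h3⟩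

theorem eM_symm_cont : Continuous fun g : H25G.Om ≃ₐ[M] H25G.Om => (eM M).symm g := by
  have hg := om_galM M
  let r : (H25G.Om ≃ₐ[M] H25G.Om) →* Gal(H25G.Om/ℚ) := M.fixingSubgroup.subtype.comp (eM M).symm.toMonoidHom
  have hr : ∀ g x, r g x = g x := fun g x => rfl
  have hcont : Continuous r := by
    apply continuous_of_continuousAt_one r
    rw [ContinuousAt, map_one]
    intro A hA
    obtain ⟨E, hE, hEA⟩ := (krullTopology_mem_nhds_one_iff ℚ H25G.Om A).1 hA
    have hE' := hE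
    let b := Module.finBasis ℚ E
    have hopen : IsOpen (⋂ i, (MulAction.stabilizer (H25G.Om ≃ₐ[M] H25G.Om) ((b i : E) : H25G.Om) : Set (H25G.Om ≃ₐ[M] H25G.Om))) :=
      isOpen_iInter_of_finite fun i => stabilizer_isOpen_of_isIntegral _
    have hmem : (1 : H25G.Om ≃ₐ[M] H25G.Om) ∈ (⋂ i, (MulAction.stabilizer (H25G.Om ≃ₐ[M] H25G.Om) ((b i : E) : H25G.Om) : Set (H25G.Om ≃ₐ[M] H25G.Om))) :=
      Set.mem_iInter.2 fun i => Subgroup.one_mem _
    refine Filter.mem_map.2 (Filter.mem_of_superset (hopen.mem_nhds hmem) ?_)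
    intro g hg'
    apply hEA
    rw [SetLike.mem_coe, IntermediateField.mem_fixingSubgroup_iff]
    intro x hx
    have h1 : ((r g : Gal(H25G.Om/ℚ)) : H25G.Om →ₗ[ℚ] H25G.Om) ∘ₗ (E.val : E →ₗ[ℚ] H25G.Om) = (E.val : E →ₗ[ℚ] H25G.Om) := by
      refine b.ext fun i => ?_
      exact MulAction.mem_stabilizer_iff.1 (Set.mem_iInter.1 hg' i)
    exact LinearMap.congr_fun h1 ⟨x, hx⟩
  exact Continuous.subtype_mk hcont _

end glue

end ST32
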