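import Mathlib

/-! # CFT module N, N06: algebraic numbers (pure): degrees of products, conjugates -/

set_option autoImplicit false

open Polynomial

namespace ST32

section

variable {Ω : Type*} [Field Ω] [CharZero Ω]

/-- y is algebraic of degree at most B. -/
def DegLe (B : ℕ) (y : Ω) : Prop := IsIntegral ℚ y ∧ (minpoly ℚ y).natDegree ≤ B

open IntermediateField in
theorem degLe_of_mem {y : Ω} {L : IntermediateField ℚ Ω} [FiniteDimensional ℚ L] {B : ℕ} (hB : Module.finrank ℚ L ≤ B) (hy : y ∈ L) :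
    DegLe B y := by
  have h1 : IsIntegral ℚ (⟨y, hy⟩ : L) := IsIntegral.of_finite ℚ _
  have h2 : IsIntegral ℚ y := h1.map L.val
  refine ⟨h2, ?_⟩
  have h3 : minpoly ℚ y = minpoly ℚ (⟨y, hy⟩ : L) := minpoly.algHom_eq L.val L.val.injective (⟨y, hy⟩ : L)
  rw [h3]
  exact (minpoly.natDegree_le _).trans hB

open IntermediateField in
theorem DegLe.mul {A B : ℕ} {x y : Ω} (hx : DegLe A x) (hy : DegLe B y) : DegLe (A * B) (x * y) := by
  have hfx := adjoin.finiteDimensional hx.1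
  have hfy := adjoin.finiteDimensional hy.1
  have h1 : Module.finrank ℚ ↥(ℚ⟮x⟯ ⊔ ℚ⟮y⟯) ≤ A * B := by
    refine (IntermediateField.finrank_sup_le ℚ⟮x⟯ ℚ⟮y⟯).trans ?_
    rw [adjoin.finrank hx.1, adjoin.finrank hy.1]
    exact Nat.mul_le_mul hx.2 hy.2
  have h2 : x ∈ ℚ⟮x⟯ ⊔ ℚ⟮y⟯ := (le_sup_left : ℚ⟮x⟯ ≤ ℚ⟮x⟯ ⊔ ℚ⟮y⟯) (mem_adjoin_simple_self ℚ x)
  have h3 : y ∈ ℚ⟮x⟯ ⊔ ℚ⟮y⟯ := (le_sup_right : ℚ⟮y⟯ ≤ ℚ⟮x⟯ ⊔ ℚ⟮y⟯) (mem_adjoin_simple_self ℚ y)
  exact degLe_of_mem h1 (mul_mem h2 h3)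

open IntermediateField in
theorem DegLe.pow {A : ℕ} {x : Ω} (hx : DegLe A x) (f : ℕ) : DegLe A (x ^ f) := by
  have hfx := adjoin.finiteDimensional hx.1
  refine degLe_of_mem (L := ℚ⟮x⟯) ?_ (pow_mem (mem_adjoin_simple_self ℚ x) f)
  rw [adjoin.finrank hx.1]
  exact hx.2

open IntermediateField in
theorem DegLe.inv {A : ℕ} {x : Ω} (hx : DegLe A x) : DegLe A x⁻¹ := by
  have hfx := adjoin.finiteDimensional hx.1
  refine degLe_of_mem (L := ℚ⟮x⟯) ?_ (inv_mem (mem_adjoin_simple_self ℚ x))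
  rw [adjoin.finrank hx.1]
  exact hx.2

theorem degLe_root {f : ℚ[X]} (hf : f ≠ 0) {x : Ω} (hx : aeval x f = 0) : DegLe f.natDegree x :=
  ⟨(show IsAlgebraic ℚ x from ⟨f, hf, hx⟩).isIntegral, natDegree_le_of_dvd (minpoly.dvd ℚ x hx) hf⟩

theorem DegLe.mono {A B : ℕ} (h : A ≤ B) {x : Ω} (hx : DegLe A x) : DegLe B x := ⟨hx.1, hx.2.trans h⟩

theorem degLe_one : DegLe 1 (1 : Ω) := by
  refine ⟨isIntegral_one, ?_⟩
  rw [minpoly.one, ← C_1, natDegree_X_sub_C]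

theorem DegLe.prod {ι : Type*} (s : Finset ι) {A : ℕ} (y : ι → Ω) (h : ∀ i ∈ s, DegLe A (y i)) : DegLe (A ^ s.card) (∏ i ∈ s, y i) := by
  classical
  induction s using Finset.induction_on with
  | empty =>
    rw [Finset.card_empty, pow_zero, Finset.prod_empty]
    exact degLe_one
  | insert i s hi ih =>
    rw [Finset.card_insert_of_notMem hi, Finset.prod_insert hi, pow_succ, mul_comm (A ^ _)]
    exact (h i (Finset.mem_insert_self i s)).mul (ih fun k hk => h k (Finset.mem_insert_of_mem hk))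

/-- Every complex root of the minimal polynomial is the image under an embedding of the field of all algebraic elements. -/
theorem exists_conj {y : Ω} (hy : IsIntegral ℚ y) {z : ℂ} (hz : aeval z (minpoly ℚ y) = 0) :
    ∃ σ : (algebraicClosure ℚ Ω) →+* ℂ, σ ⟨y, mem_algebraicClosure_iff.2 hy.isAlgebraic⟩ = z := by
  have halg : Algebra.IsAlgebraic ℚ (algebraicClosure ℚ Ω) := algebraicClosure.isAlgebraic ℚ Ω
  obtain ⟨φ, hφ⟩ := IntermediateField.exists_algHom_of_splits_of_aeval (F := ℚ) (E := algebraicClosure ℚ Ω) (K := ℂ)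
    (fun s => ⟨(halg.isAlgebraic s).isIntegral, IsAlgClosed.splits _⟩) (x := ⟨y, mem_algebraicClosure_iff.2 hy.isAlgebraic⟩) (y := z) (by
      have h3 : minpoly ℚ y = minpoly ℚ (⟨y, mem_algebraicClosure_iff.2 hy.isAlgebraic⟩ : algebraicClosure ℚ Ω) :=
        minpoly.algHom_eq (algebraicClosure ℚ Ω).val (algebraicClosure ℚ Ω).val.injective (⟨y, mem_algebraicClosure_iff.2 hy.isAlgebraic⟩ : algebraicClosure ℚ Ω)
      rw [← h3]
      exact hz)
  exact ⟨φ.toRingHom, hφ⟩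

end

end ST32
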