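import Mathlib
import Pool.Agent.Lib.CFT.N05
import Pool.Agent.Lib.CFT.N06
import Pool.Agent.Lib.H25G.GB2B
import Pool.Agent.Lib.H25G.GF1
import Pool.Agent.Lib.H59.PrimeIdealSums

/-! # CFT module N, N07: the Frobenius values of a good character are monomials in the roots of rational polynomials -/

set_option autoImplicit false

open NumberField IsDedekindDomain Polynomial H25G

namespace ST32

section

variable {l : ℕ} [Fact l.Prime] {n : ℕ}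

/-- The matrix of rho over the algebraic closure of Q_l. -/
noncomputable abbrev rhoB (ρ : Gal(H25G.Om/ℚ) →* GL (Fin n) ℚ_[l]) : Gal(H25G.Om/ℚ) →* GL (Fin n) (PadicAlgCl l) :=
  (Matrix.GeneralLinearGroup.map (algebraMap ℚ_[l] (PadicAlgCl l))).comp ρ

/-- The prime number below. -/
theorem exists_below (M : Type) [Field M] [NumberField M] (v : CFT.Pr M) :
    ∃ p f : ℕ, p.Prime ∧ 0 < f ∧ (p : 𝓞 M) ∈ v.asIdeal ∧ CFT.Nm v = p ^ f := by
  obtain ⟨f, hf, h⟩ := Pool.Agent.Lib.H59.absNorm_eq_below_pow v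
  refine ⟨Pool.Agent.Lib.H59.below v, f, Pool.Agent.Lib.H59.below_prime v, hf, ?_, h⟩
  have h1 : ((Ideal.absNorm v.asIdeal : ℕ) : 𝓞 M) ∈ v.asIdeal := Ideal.absNorm_mem v.asIdeal
  rw [h, Nat.cast_pow] at h1
  exact v.isPrime.mem_of_pow_mem f h1

/-- What is known about the value y of a good character at a Frobenius element. -/
structure Val (N a n m p f : ℕ) (ζ : PadicAlgCl l) (P0 : ℚ[X]) (y : PadicAlgCl l) : Prop where
  ne : P0 ≠ 0
  deg : P0.natDegree = n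
  root : ∀ z : ℂ, aeval z P0 = 0 → ‖z‖ = 1 ∧ IsIntegral ℤ ((p : ℂ) ^ m * z)
  zeta : ζ ^ N = 1
  mon : ∃ μ : Fin a → PadicAlgCl l, y = ζ * ∏ t, μ t ∧
    ∀ t, μ t = 1 ∨ ∃ d : PadicAlgCl l, aeval d P0 = 0 ∧ (μ t = d ^ f ∨ μ t = (d ^ f)⁻¹)

theorem data {ρ : Gal(H25G.Om/ℚ) →* GL (Fin n) ℚ_[l]} {S : Finset ℕ} {m : ℕ} (hρ : Geom ρ S m)
    (M : IntermediateField ℚ H25G.Om) [NumberField M] (ψ : M.fixingSubgroup →* (PadicAlgCl l)ˣ) (hψ : GoodChar ρ M.fixingSubgroup ψ) :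
    ∃ N a : ℕ, 0 < N ∧ ∀ v : CFT.Pr M, (∀ p ∈ S, p.Prime → (p : 𝓞 M) ∉ v.asIdeal) → ∀ h : M.fixingSubgroup, IsFrP M v h →
      ∃ (p f : ℕ) (ζ : PadicAlgCl l) (P0 : ℚ[X]), p.Prime ∧ p ∉ S ∧ (p : 𝓞 M) ∈ v.asIdeal ∧ 0 < f ∧ CFT.Nm v = p ^ f ∧
        Val N a n m p f ζ P0 (ψ h : PadicAlgCl l) ∧
        ∀ d : PadicAlgCl l, aeval d P0 = 0 → ((rhoB ρ h : GL (Fin n) (PadicAlgCl l)) : Matrix (Fin n) (Fin n) (PadicAlgCl l)).charpoly.IsRoot (d ^ f) := by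
  obtain ⟨-, a, N, U, hN, hU, hUH, η, w0, f0, hηN, hη, h1, h2⟩ := hψ
  refine ⟨N, a, hN, fun v hv h hh => ?_⟩
  obtain ⟨p, f, hp, hf, hpv, hNm⟩ := exists_below M v
  have hpS : p ∉ S := fun hc => hv p hc hp hpv
  obtain ⟨φ, hφ, hφf⟩ := gb2_pow hρ.unram M v hh hp hpS hNm
  obtain ⟨P0, hP0, hroot⟩ := hρ.frob p hp hpS φ hφ
  have hchB : ((rhoB ρ φ : GL (Fin n) (PadicAlgCl l)) : Matrix (Fin n) (Fin n) (PadicAlgCl l)).charpoly = P0.map (algebraMap ℚ (PadicAlgCl l)) := by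
    have e1 : ((rhoB ρ φ : GL (Fin n) (PadicAlgCl l)) : Matrix (Fin n) (Fin n) (PadicAlgCl l)) =
        (ρ φ : Matrix (Fin n) (Fin n) ℚ_[l]).map (algebraMap ℚ_[l] (PadicAlgCl l)) := rfl
    have e2 := Matrix.charpoly_map (ρ φ : Matrix (Fin n) (Fin n) ℚ_[l]) (algebraMap ℚ_[l] (PadicAlgCl l))
    have e3 : (algebraMap ℚ_[l] (PadicAlgCl l)).comp (algebraMap ℚ ℚ_[l]) = algebraMap ℚ (PadicAlgCl l) := Subsingleton.elim _ _
    rw [e1, e2, hP0, Polynomial.map_map, e3]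
  have hpow : ((rhoB ρ h : GL (Fin n) (PadicAlgCl l)) : Matrix (Fin n) (Fin n) (PadicAlgCl l)) =
      ((rhoB ρ φ : GL (Fin n) (PadicAlgCl l)) : Matrix (Fin n) (Fin n) (PadicAlgCl l)) ^ f := by
    have e1 : rhoB ρ h = rhoB ρ φ ^ f := by
      rw [MonoidHom.comp_apply, hφf, map_pow]
      rfl
    rw [e1]
    rfl
  have hdeg : P0.natDegree = n := by
    have e1 := congrArg Polynomial.natDegree hP0
    rw [Matrix.charpoly_natDegree_eq_dim, Fintype.card_fin, Polynomial.natDegree_map] at e1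
    exact e1.symm
  have hP0ne : P0 ≠ 0 := by
    rintro rfl
    rw [Polynomial.map_zero] at hP0
    exact (Matrix.charpoly_monic (ρ φ : Matrix (Fin n) (Fin n) ℚ_[l])).ne_zero hP0
  have hrt : ∀ d : PadicAlgCl l, ((rhoB ρ φ : GL (Fin n) (PadicAlgCl l)) : Matrix (Fin n) (Fin n) (PadicAlgCl l)).charpoly.IsRoot d ↔ aeval d P0 = 0 := by
    intro d
    rw [hchB, Polynomial.IsRoot.def, Polynomial.eval_map, Polynomial.aeval_def]
  refine ⟨p, f, (η h : PadicAlgCl l), P0, hp, hpS, hpv, hf, hNm, ⟨hP0ne, hdeg, hroot, ?_, ?_⟩, ?_⟩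
  · rw [← Units.val_pow_eq_pow_val, hηN, Units.val_one]
  · obtain ⟨w, hw, hRw⟩ := h2 h
    have e1 : (tT a (rhoB ρ h)).mulVec w = (((η h)⁻¹ * ψ h : (PadicAlgCl l)ˣ) : PadicAlgCl l) • w := hRw
    obtain ⟨μ, hμ, hμ2⟩ := gf1 a (rhoB ρ h) _ w hw e1
    refine ⟨μ, ?_, fun t => ?_⟩
    · rw [← hμ, Units.val_mul, Units.val_inv_eq_inv_val, ← mul_assoc, mul_inv_cancel₀ (Units.ne_zero _), one_mul]
    · rcases hμ2 t with h3 | h3 | h3
      · exact Or.inl h3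
      · right
        rw [hpow] at h3
        obtain ⟨d, hd, hd2⟩ := gf1_pow f _ _ h3
        exact ⟨d, (hrt d).1 hd, Or.inl hd2⟩
      · right
        rw [hpow] at h3
        obtain ⟨d, hd, hd2⟩ := gf1_pow f _ _ h3
        exact ⟨d, (hrt d).1 hd, Or.inr (by rw [← hd2, inv_inv])⟩
  · intro d hd
    have h3 := (hrt d).2 hd
    rw [hpow]
    rw [← Matrix.mem_spectrum_iff_isRoot_charpoly] at h3 ⊢
    exact spectrum.pow_mem_pow _ f h3

end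

end ST32
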