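import Mathlib
import Pool.Agent.Lib.CFT.N07

/-! # CFT module N, N08: degree, integrality and absolute values of the Frobenius values -/

set_option autoImplicit false

open NumberField IsDedekindDomain Polynomial H25G

namespace ST32

section pure

variable {Ω : Type*} [Field Ω] [CharZero Ω]

/-- The roots of a rational polynomial under an embedding. -/
theorem aeval_map_zero {R R' : Type*} [Field R] [CharZero R] [Field R'] [CharZero R'] (σ : R →+* R') (P : ℚ[X]) {d : R} (hd : aeval d P = 0) :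
    aeval (σ d) P = 0 := by
  have h1 : aeval (σ d) P = σ (aeval d P) := by
    rw [aeval_def, aeval_def, Polynomial.hom_eval₂]
    congr 1
    exact Subsingleton.elim _ _
  rw [h1, hd, map_zero]

/-- If the complex roots of P have absolute value 1, the inverse of a root is a root. -/
theorem aeval_inv_zero (P : ℚ[X]) (hP : P ≠ 0) (h : ∀ z : ℂ, aeval z P = 0 → ‖z‖ = 1) {d : Ω} (hd : aeval d P = 0) : aeval d⁻¹ P = 0 := by
  have hint : IsIntegral ℚ d := (show IsAlgebraic ℚ d from ⟨P, hP, hd⟩).isIntegral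
  have halg : Algebra.IsAlgebraic ℚ (algebraicClosure ℚ Ω) := algebraicClosure.isAlgebraic ℚ Ω
  let d' : algebraicClosure ℚ Ω := ⟨d, mem_algebraicClosure_iff.2 hint.isAlgebraic⟩
  let j : algebraicClosure ℚ Ω →+* ℂ := (IsAlgClosed.lift : algebraicClosure ℚ Ω →ₐ[ℚ] ℂ).toRingHom
  have hd' : aeval d' P = 0 := by
    apply (algebraicClosure ℚ Ω).val.injective
    rw [map_zero]
    have h2 : (algebraicClosure ℚ Ω).val (aeval d' P) = aeval d P := by
      rw [← Polynomial.aeval_algHom_apply]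
      rfl
    exact h2.trans hd
  have h3 : aeval (j d') P = 0 := aeval_map_zero j P hd'
  have h4 : aeval ((starRingEnd ℂ) (j d')) P = 0 := aeval_map_zero (starRingEnd ℂ) P h3
  have h5 : (starRingEnd ℂ) (j d') = j d'⁻¹ := by
    rw [map_inv₀]
    exact (Complex.inv_eq_conj (h _ h3)).symm
  rw [h5] at h4
  have h6 : j (aeval d'⁻¹ P) = 0 := by
    have h7 : aeval (j d'⁻¹) P = j (aeval d'⁻¹ P) := by
      rw [aeval_def, aeval_def, Polynomial.hom_eval₂]
      congr 1
      exact Subsingleton.elim _ _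
    rw [← h7, h4]
  have h8 : aeval d'⁻¹ P = 0 := j.injective (by rw [h6, map_zero])
  exact aeval_map_zero (algebraMap (algebraicClosure ℚ Ω) Ω) P h8

/-- Integrality can be tested at the complex roots. -/
theorem int_of_complex (P : ℚ[X]) (hP : P ≠ 0) (c : ℕ) (h : ∀ z : ℂ, aeval z P = 0 → IsIntegral ℤ ((c : ℂ) * z)) {d : Ω} (hd : aeval d P = 0) :
    IsIntegral ℤ ((c : Ω) * d) := by
  have hint : IsIntegral ℚ d := (show IsAlgebraic ℚ d from ⟨P, hP, hd⟩).isIntegral
  have halg : Algebra.IsAlgebraic ℚ (algebraicClosure ℚ Ω) := algebraicClosure.isAlgebraic ℚ Ω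
  let d' : algebraicClosure ℚ Ω := ⟨d, mem_algebraicClosure_iff.2 hint.isAlgebraic⟩
  let j : algebraicClosure ℚ Ω →+* ℂ := (IsAlgClosed.lift : algebraicClosure ℚ Ω →ₐ[ℚ] ℂ).toRingHom
  have hd' : aeval d' P = 0 := by
    apply (algebraicClosure ℚ Ω).val.injective
    rw [map_zero]
    have h2 : (algebraicClosure ℚ Ω).val (aeval d' P) = aeval d P := by
      rw [← Polynomial.aeval_algHom_apply]
      rfl
    exact h2.trans hd
  have h3 := h _ (aeval_map_zero j P hd')
  have h4 : (c : ℂ) * j d' = j.toIntAlgHom ((c : algebraicClosure ℚ Ω) * d') := by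
    show (c : ℂ) * j d' = j ((c : algebraicClosure ℚ Ω) * d')
    rw [map_mul, map_natCast]
  rw [h4, isIntegral_algHom_iff j.toIntAlgHom j.injective] at h3
  have h5 := h3.map (algebraMap (algebraicClosure ℚ Ω) Ω).toIntAlgHom
  have h6 : (algebraMap (algebraicClosure ℚ Ω) Ω).toIntAlgHom ((c : algebraicClosure ℚ Ω) * d') = (c : Ω) * d := by
    show (algebraMap (algebraicClosure ℚ Ω) Ω) ((c : algebraicClosure ℚ Ω) * d') = (c : Ω) * d
    rw [map_mul, map_natCast]
    rfl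
  rw [h6] at h5
  exact h5

theorem degLe_zeta {N : ℕ} (hN : 0 < N) {ζ : Ω} (hζ : ζ ^ N = 1) : DegLe N ζ := by
  have h1 : (X ^ N - 1 : ℚ[X]) ≠ 0 := (monic_X_pow_sub_C (1 : ℚ) hN.ne').ne_zero
  have h2 : (X ^ N - 1 : ℚ[X]).natDegree = N := natDegree_X_pow_sub_C
  have h3 := degLe_root h1 (x := ζ) (by rw [map_sub, map_pow, aeval_X, map_one, hζ, sub_self])
  rwa [h2] at h3

end pure

section

variable {l : ℕ} [Fact l.Prime] {N a n m p f : ℕ} {ζ : PadicAlgCl l} {P0 : ℚ[X]} {y : PadicAlgCl l}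

theorem Val.degLe (h : Val N a n m p f ζ P0 y) (hN : 0 < N) : DegLe (N * (max n 1) ^ a) y := by
  obtain ⟨μ, hy, hμ⟩ := h.mon
  rw [hy]
  refine (degLe_zeta hN h.zeta).mul ?_
  have h1 := DegLe.prod Finset.univ (A := max n 1) μ fun t _ => by
    rcases hμ t with h1 | ⟨d, hd, h1 | h1⟩
    · rw [h1]
      exact degLe_one.mono (le_max_right _ _)
    · rw [h1]
      have h2 := degLe_root h.ne hd
      rw [h.deg] at h2
      exact (h2.mono (le_max_left _ _)).pow f
    · rw [h1]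
      have h2 := degLe_root h.ne hd
      rw [h.deg] at h2
      exact ((h2.mono (le_max_left _ _)).pow f).inv
  rwa [Finset.card_univ, Fintype.card_fin] at h1

theorem Val.int (h : Val N a n m p f ζ P0 y) (hN : 0 < N) : IsIntegral ℤ (((p ^ f : ℕ) : PadicAlgCl l) ^ (m * a) * y) := by
  obtain ⟨μ, hy, hμ⟩ := h.mon
  have h1 : (((p ^ f : ℕ) : PadicAlgCl l) ^ (m * a) * y) = ζ * ∏ t, (((p ^ m : ℕ) : PadicAlgCl l) ^ f * μ t) := by
    rw [Finset.prod_mul_distrib, Finset.prod_const, Finset.card_univ, Fintype.card_fin, hy]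
    push_cast
    rw [← pow_mul, ← pow_mul, ← pow_mul]
    have e : m * (f * a) = f * (m * a) := by ring
    rw [e]
    ring
  rw [h1]
  have hζ : IsIntegral ℤ ζ := by
    refine ⟨X ^ N - 1, monic_X_pow_sub_C (1 : ℤ) hN.ne', ?_⟩
    rw [eval₂_sub, eval₂_X_pow, eval₂_one, h.zeta, sub_self]
  have key : ∀ d : PadicAlgCl l, aeval d P0 = 0 → IsIntegral ℤ (((p ^ m : ℕ) : PadicAlgCl l) ^ f * d ^ f) := by
    intro d hd
    rw [← mul_pow]
    refine IsIntegral.pow ?_ f
    refine int_of_complex P0 h.ne (p ^ m) (fun z hz => ?_) hd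
    have h2 := (h.root z hz).2
    push_cast
    exact h2
  refine hζ.mul (IsIntegral.prod _ fun t _ => ?_)
  rcases hμ t with h2 | ⟨d, hd, h2 | h2⟩
  · rw [h2, mul_one]
    refine IsIntegral.pow ?_ f
    have h3 := isIntegral_algebraMap (R := ℤ) (A := PadicAlgCl l) (x := ((p ^ m : ℕ) : ℤ))
    rwa [map_natCast] at h3
  · rw [h2]
    exact key d hd
  · rw [h2, ← inv_pow]
    exact key d⁻¹ (aeval_inv_zero P0 h.ne (fun z hz => (h.root z hz).1) hd)

theorem Val.abs (h : Val N a n m p f ζ P0 y) (hN : 0 < N) (σ : (algebraicClosure ℚ (PadicAlgCl l)) →+* ℂ)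
    (y' : algebraicClosure ℚ (PadicAlgCl l)) (hy' : (y' : PadicAlgCl l) = y) : ‖σ y'‖ = 1 := by
  obtain ⟨μ, hy, hμ⟩ := h.mon
  have hμalg : ∀ t, IsAlgebraic ℚ (μ t) := by
    intro t
    rcases hμ t with h2 | ⟨d, hd, h2 | h2⟩
    · rw [h2]
      exact isAlgebraic_one
    · rw [h2]
      exact (show IsAlgebraic ℚ d from ⟨P0, h.ne, hd⟩).pow f
    · rw [h2]
      exact ((show IsAlgebraic ℚ d from ⟨P0, h.ne, hd⟩).pow f).inv
  have hζalg : IsAlgebraic ℚ ζ := (degLe_zeta hN h.zeta).1.isAlgebraic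
  let ζ' : algebraicClosure ℚ (PadicAlgCl l) := ⟨ζ, mem_algebraicClosure_iff.2 hζalg⟩
  let μ' : Fin a → algebraicClosure ℚ (PadicAlgCl l) := fun t => ⟨μ t, mem_algebraicClosure_iff.2 (hμalg t)⟩
  have h1 : y' = ζ' * ∏ t, μ' t := by
    apply Subtype.ext
    rw [hy', hy]
    show ζ * ∏ t, μ t = (algebraicClosure ℚ (PadicAlgCl l)).val (ζ' * ∏ t, μ' t)
    rw [map_mul, map_prod]
    rfl
  rw [h1, map_mul, map_prod, norm_mul, norm_prod]
  have h2 : ‖σ ζ'‖ = 1 := by
    have h3 : ζ' ^ N = 1 := Subtype.ext h.zeta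
    have h4 : ‖σ ζ'‖ ^ N = 1 := by rw [← norm_pow, ← map_pow, h3, map_one, norm_one]
    exact (pow_eq_one_iff_of_nonneg (norm_nonneg _) hN.ne').1 h4
  have key : ∀ (d : PadicAlgCl l) (x : algebraicClosure ℚ (PadicAlgCl l)), aeval d P0 = 0 → (x : PadicAlgCl l) = d ^ f → ‖σ x‖ = 1 := by
    intro d x hd hx
    let d' : algebraicClosure ℚ (PadicAlgCl l) := ⟨d, mem_algebraicClosure_iff.2 ⟨P0, h.ne, hd⟩⟩
    have h3 : x = d' ^ f := Subtype.ext hx
    have h4 : aeval d' P0 = 0 := by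
      apply (algebraicClosure ℚ (PadicAlgCl l)).val.injective
      rw [map_zero]
      have h5 : (algebraicClosure ℚ (PadicAlgCl l)).val (aeval d' P0) = aeval d P0 := by
        rw [← Polynomial.aeval_algHom_apply]
        rfl
      exact h5.trans hd
    rw [h3, map_pow, norm_pow, (h.root _ (aeval_map_zero σ P0 h4)).1, one_pow]
  rw [h2, one_mul]
  refine Finset.prod_eq_one fun t _ => ?_
  rcases hμ t with h3 | ⟨d, hd, h3 | h3⟩
  · have h4 : μ' t = 1 := Subtype.ext h3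
    rw [h4, map_one, norm_one]
  · exact key d (μ' t) hd h3
  · have h4 := key d (μ' t)⁻¹ hd (by
      show (μ t)⁻¹ = d ^ f
      rw [h3, inv_inv])
    rwa [map_inv₀, norm_inv, inv_eq_one] at h4

theorem Val.conj (h : Val N a n m p f ζ P0 y) (hN : 0 < N) {z : ℂ} (hz : aeval z (minpoly ℚ y) = 0) : ‖z‖ = 1 := by
  obtain ⟨σ, hσ⟩ := exists_conj (h.degLe hN).1 hz
  rw [← hσ]
  exact h.abs hN σ _ rfl

end

end ST32
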