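import Mathlib
import Pool.Agent.Lib.CFT.N08
import Pool.Agent.Lib.H25G.GB4B

/-! # CFT module N, N09: primes which split in a certain number field have Frobenius values without roots of unity -/

set_option autoImplicit false

open NumberField IsDedekindDomain Polynomial H25G

namespace ST32

section pure

variable {F : Type} [NormedField F] [IsUltrametricDist F] {l : ℕ} [hlp : Fact l.Prime]

theorem norm_nat_le (k : ℕ) : ‖(k : F)‖ ≤ 1 := IsUltrametricDist.norm_natCast_le_one F k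

/-- The norm of a prime number. -/
theorem norm_prime_ge (hl : ‖(l : F)‖ = (l : ℝ)⁻¹) {q : ℕ} (hq : q.Prime) : (l : ℝ)⁻¹ ≤ ‖(q : F)‖ := by
  by_cases h : q = l
  · rw [h, hl]
  · have hcop : IsCoprime (q : ℤ) (l : ℤ) := by
      rw [Nat.isCoprime_iff_coprime]
      exact (Nat.coprime_primes hq hlp.out).2 h
    obtain ⟨a, b, hab⟩ := hcop
    have h1 : (a : F) * (q : F) + (b : F) * (l : F) = 1 := by exact_mod_cast congrArg (fun z : ℤ => (z : F)) hab
    have hint : ∀ z : ℤ, ‖(z : F)‖ ≤ 1 := fun z => IsUltrametricDist.norm_intCast_le_one F z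
    have hl1 : (l : ℝ)⁻¹ < 1 := inv_lt_one_of_one_lt₀ (by exact_mod_cast hlp.out.one_lt)
    have h2 : ‖(b : F) * (l : F)‖ < 1 := by
      rw [norm_mul, hl]
      exact (mul_le_of_le_one_left (by positivity) (hint b)).trans_lt hl1
    by_contra hcon
    rw [not_le] at hcon
    have h3 : ‖(a : F) * (q : F)‖ < 1 := by
      rw [norm_mul]
      exact ((mul_le_of_le_one_left (norm_nonneg _) (hint a)).trans_lt hcon).trans hl1
    have h4 := (IsUltrametricDist.norm_add_le_max ((a : F) * (q : F)) ((b : F) * (l : F))).trans_lt (max_lt h3 h2)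
    rw [h1, norm_one] at h4
    exact lt_irrefl _ h4

/-- A root of unity of prime order is not very near 1. -/
theorem prime_root (hl : ‖(l : F)‖ = (l : ℝ)⁻¹) {q : ℕ} (hq : q.Prime) {x : F} (hx : ‖x‖ < (l : ℝ)⁻¹) (h : (1 + x) ^ q = 1) : x = 0 := by
  by_contra hx0
  have hl1 : (l : ℝ)⁻¹ < 1 := inv_lt_one_of_one_lt₀ (by exact_mod_cast hlp.out.one_lt)
  have h1 : (q : F) = -(x * ∑ k ∈ Finset.range (q - 1), x ^ k * (q.choose (k + 2) : F)) := by
    have h2 : (1 + x) ^ q = ∑ k ∈ Finset.range (q + 1), x ^ k * (q.choose k : F) := by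
      rw [add_comm, add_pow]
      refine Finset.sum_congr rfl fun k _ => ?_
      rw [one_pow, mul_one]
    have hq2 : q + 1 = (q - 1) + 1 + 1 := by have := hq.two_le; omega
    rw [h2, hq2, Finset.sum_range_succ', Finset.sum_range_succ'] at h
    have h3 : x * ((q : F) + x * ∑ k ∈ Finset.range (q - 1), x ^ k * (q.choose (k + 2) : F)) = 0 := by
      have h4 : ∑ k ∈ Finset.range (q - 1), x ^ (k + 1 + 1) * (q.choose (k + 1 + 1) : F) =
          x ^ 2 * ∑ k ∈ Finset.range (q - 1), x ^ k * (q.choose (k + 2) : F) := by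
        rw [Finset.mul_sum]
        refine Finset.sum_congr rfl fun k _ => ?_
        ring
      rw [h4] at h
      simp only [zero_add, pow_one, Nat.choose_one_right, pow_zero, Nat.choose_zero_right, Nat.cast_one, mul_one] at h
      linear_combination h
    rcases mul_eq_zero.1 h3 with h4 | h4
    · exact absurd h4 hx0
    · exact eq_neg_of_add_eq_zero_left h4
  have h5 : ‖(q : F)‖ ≤ ‖x‖ := by
    rw [h1, norm_neg, norm_mul]
    refine mul_le_of_le_one_right (norm_nonneg _) ?_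
    refine IsUltrametricDist.norm_sum_le_of_forall_le_of_nonneg zero_le_one fun k _ => ?_
    rw [norm_mul, norm_pow]
    exact mul_le_one₀ (pow_le_one₀ (norm_nonneg _) (hx.trans hl1).le) (norm_nonneg _) (norm_nat_le _)
  exact absurd (h5.trans_lt hx) (not_lt.2 (norm_prime_ge hl hq))

/-- A root of unity very near 1 is 1. -/
theorem root_near (hl : ‖(l : F)‖ = (l : ℝ)⁻¹) {ε : ℝ} (h0 : 0 < ε) (h1 : ε < 1) (hε : ε < (l : ℝ)⁻¹) {u : Fˣ} (hu : u ∈ (near ε h0 h1 : Subgroup Fˣ)) {j : ℕ} (hj : 0 < j)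
    (h : u ^ j = 1) : u = 1 := by
  by_contra hne
  have hord : orderOf u ≠ 1 := fun h2 => hne (orderOf_eq_one_iff.1 h2)
  have hfin : 0 < orderOf u := orderOf_pos_iff.2 (isOfFinOrder_iff_pow_eq_one.2 ⟨j, hj, h⟩)
  obtain ⟨q, hq, hqd⟩ := Nat.exists_prime_and_dvd hord
  obtain ⟨r, hr⟩ := hqd
  have hur : (u ^ r) ^ q = 1 := by rw [← pow_mul, mul_comm, ← hr, pow_orderOf_eq_one]
  have hur1 : u ^ r ≠ 1 := by
    intro h2
    have h3 := orderOf_dvd_of_pow_eq_one h2
    have hr0 : 0 < r := by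
      rcases Nat.eq_zero_or_pos r with h4 | h4
      · rw [h4, mul_zero] at hr
        omega
      · exact h4
    have h4 := Nat.le_of_dvd hr0 h3
    rw [hr] at h4
    have h5 := hq.two_le
    nlinarith
  have hmem := (near ε h0 h1 : Subgroup Fˣ).pow_mem hu r
  rw [mem_near] at hmem
  have h2 := prime_root hl hq (x := ((u ^ r : Fˣ) : F) - 1) (hmem.trans_lt hε) (by
    rw [add_sub_cancel, ← Units.val_pow_eq_pow_val, hur, Units.val_one])
  exact hur1 (Units.ext (sub_eq_zero.1 h2))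

end pure

section

variable {l : ℕ} [hlp : Fact l.Prime] {n : ℕ}

theorem norm_l : ‖(l : PadicAlgCl l)‖ = (l : ℝ)⁻¹ := by
  have h := norm_algebraMap' (PadicAlgCl l) (l : ℚ_[l])
  rw [map_natCast] at h
  rw [h, Padic.norm_p]

/-- The eigenvalues of a matrix near 1 are near 1. -/
theorem eig_near {A : Matrix (Fin n) (Fin n) (PadicAlgCl l)} {ε : ℝ} (hε : 0 ≤ ε) (hA : ∀ i j, ‖(A - 1) i j‖ ≤ ε) {c : PadicAlgCl l}
    (hc : A.charpoly.IsRoot c) : ‖c - 1‖ ≤ ε := by
  classical
  rw [← Matrix.mem_spectrum_iff_isRoot_charpoly, ← Matrix.spectrum_toLin', ← Module.End.hasEigenvalue_iff_mem_spectrum] at hc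
  obtain ⟨w, hw⟩ := hc.exists_hasEigenvector
  have hw0 : w ≠ 0 := hw.2
  have hAw : A.mulVec w = c • w := hw.apply_eq_smul
  obtain ⟨i0, hi0⟩ := Function.ne_iff.1 hw0
  have hne : (Finset.univ : Finset (Fin n)).Nonempty := ⟨i0, Finset.mem_univ _⟩
  obtain ⟨i, -, hi⟩ := Finset.exists_max_image Finset.univ (fun i => ‖w i‖) hne
  have hwi : 0 < ‖w i‖ := (norm_pos_iff.2 hi0).trans_le (hi i0 (Finset.mem_univ _))
  have h1 : (c - 1) * w i = ∑ j, (A - 1) i j * w j := by
    have h2 : (A - 1).mulVec w = (c - 1) • w := by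
      rw [Matrix.sub_mulVec, hAw, Matrix.one_mulVec, sub_smul, one_smul]
    have h3 := congrFun h2 i
    rw [Pi.smul_apply, smul_eq_mul] at h3
    rw [← h3]
    rfl
  have h2 : ‖(c - 1) * w i‖ ≤ ε * ‖w i‖ := by
    rw [h1]
    refine IsUltrametricDist.norm_sum_le_of_forall_le_of_nonneg (by positivity) fun j _ => ?_
    rw [norm_mul]
    exact mul_le_mul (hA i j) (hi j (Finset.mem_univ _)) (norm_nonneg _) hε
  rw [norm_mul] at h2
  exact le_of_mul_le_mul_right h2 hwi

end

end ST32
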