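import Mathlib
import Pool.Agent.Lib.CFT.D2
import Pool.Agent.Lib.CFT.B01
import Pool.Agent.Lib.CFT.B07
import Pool.Agent.Lib.CFT.B11
import Pool.Agent.Lib.CFT.B14
import Pool.Agent.Lib.CFT.B18

set_option linter.unusedSectionVars false

/-! # CFT module N: local norms, the product formula, the Hasse norm theorem (helper69)

`LocN K L v x`: `x` is, up to factors arbitrarily near to 1 at `v`, a norm from `L` (so a local norm at `v`).
`LocR L φ x`: `x` is a local norm at the real place `φ`: positive, or some real embedding of `L` extends `φ`.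
`near`: an element which is a local norm at the places of `S` and at the real places is a global norm times an element of the ray. -/

open NumberField IsDedekindDomain

namespace CFT

variable {K : Type} [Field K] [NumberField K] {L : Type} [Field L] [NumberField L] [Algebra K L]

/-- `x` is a norm at `v`. -/
def LocN (K L : Type) [Field K] [NumberField K] [Field L] [NumberField L] [Algebra K L] (v : Pr K) (x : K) : Prop :=
  ∀ N : ℕ, ∃ y : L, y ≠ 0 ∧ v.valuation K (x / Algebra.norm K y - 1) < WithZero.exp (-(N : ℤ))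

/-- `x` is a norm at the real place `φ`. -/
def LocR (L : Type) [Field L] [NumberField L] [Algebra K L] (φ : K →+* ℝ) (x : K) : Prop :=
  0 < φ x ∨ ∃ ψ : L →+* ℝ, ψ.comp (algebraMap K L) = φ

/-! ## Signs of norms -/

theorem n1_sign {y : L} (hy : y ≠ 0) (φ : K →+* ℝ) {e : ℝ} (he : e ≠ 0)
    (h : ∀ (alg : Algebra K ℂ), (∀ r : K, algebraMap K ℂ r = ((φ r : ℝ) : ℂ)) →
      ∏ s : L →ₐ[K] ℂ, (open Classical in if ∀ z : L, (starRingEnd ℂ) (s z) = s z then (s y / (‖s y‖ : ℂ)) else 1) = (e : ℂ)) :
    0 < φ (Algebra.norm K y) * e := by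
  classical
  let alg : Algebra K ℂ := (Complex.ofRealHom.comp φ).toAlgebra
  have halg : ∀ r : K, algebraMap K ℂ r = ((φ r : ℝ) : ℂ) := fun r => rfl
  have hn := Algebra.norm_eq_prod_embeddings K ℂ y
  rw [halg] at hn
  let g : (L →ₐ[K] ℂ) → (L →ₐ[K] ℂ) := fun s =>
    { toRingHom := (starRingEnd ℂ).comp s.toRingHom
      commutes' := fun r => by
        show (starRingEnd ℂ) (s (algebraMap K L r)) = algebraMap K ℂ r
        rw [s.commutes, halg, Complex.conj_ofReal] }
  have hg : ∀ (s : L →ₐ[K] ℂ) (z : L), g s z = (starRingEnd ℂ) (s z) := fun s z => rfl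
  have hgg : ∀ s, g (g s) = s := fun s => by
    ext z
    rw [hg, hg, Complex.conj_conj]
  have hne : ∀ s : L →ₐ[K] ℂ, s y ≠ 0 := fun s h0 => hy (s.toRingHom.injective (by
    rw [map_zero]
    exact h0))
  have hne' : ∀ s : L →ₐ[K] ℂ, (‖s y‖ : ℂ) ≠ 0 := fun s => by
    rw [Complex.ofReal_ne_zero]
    exact norm_ne_zero_iff.2 (hne s)
  have hfix : ∀ s : L →ₐ[K] ℂ, g s = s ↔ ∀ z : L, (starRingEnd ℂ) (s z) = s z := by
    intro s
    constructor
    · intro hs z
      exact congrArg (fun t : L →ₐ[K] ℂ => t z) hs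
    · intro hs
      ext z
      exact hs z
  have hprod : ∏ s : L →ₐ[K] ℂ, ((s y / (‖s y‖ : ℂ)) /
      (if ∀ z : L, (starRingEnd ℂ) (s z) = s z then (s y / (‖s y‖ : ℂ)) else 1)) = 1 := by
    refine Finset.prod_involution (fun s _ => g s) ?_ ?_ (fun s _ => Finset.mem_univ _) (fun s _ => hgg s)
    · intro s _
      by_cases hs : ∀ z : L, (starRingEnd ℂ) (s z) = s z
      · have hs' : g s = s := (hfix s).2 hs
        rw [hs', if_pos hs, div_self (div_ne_zero (hne s) (hne' s)), one_mul]
      · have hs' : ¬ ∀ z : L, (starRingEnd ℂ) (g s z) = g s z := by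
          rw [← hfix, hgg]
          intro h1
          exact hs ((hfix s).1 h1.symm)
        rw [if_neg hs, if_neg hs', div_one, div_one, hg, RCLike.norm_conj, div_mul_div_comm]
        have h2 : s y * (starRingEnd ℂ) (s y) = (‖s y‖ : ℂ) * (‖s y‖ : ℂ) := by
          rw [Complex.mul_conj, Complex.normSq_eq_norm_sq]
          push_cast
          ring
        rw [h2]
        exact div_self (mul_ne_zero (hne' s) (hne' s))
    · intro s _ h1 h2
      apply h1
      rw [if_pos ((hfix s).1 h2)]
      exact div_self (div_ne_zero (hne s) (hne' s))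
  rw [Finset.prod_div_distrib] at hprod
  have hE := h alg halg
  rw [hE] at hprod
  have he' : (e : ℂ) ≠ 0 := Complex.ofReal_ne_zero.2 he
  rw [div_eq_one_iff_eq he', Finset.prod_div_distrib, div_eq_iff (Finset.prod_ne_zero_iff.2 fun s _ => hne' s), ← hn,
    ← Complex.ofReal_prod, ← Complex.ofReal_mul, Complex.ofReal_inj] at hprod
  rw [hprod]
  have h3 : 0 < ∏ s : L →ₐ[K] ℂ, ‖s y‖ := Finset.prod_pos fun s _ => norm_pos_iff.2 (hne s)
  have h4 : 0 < e * e := mul_self_pos.2 he
  nlinarith

theorem n1_real {φ : K →+* ℝ} (alg : Algebra K ℂ) (halg : ∀ r : K, algebraMap K ℂ r = ((φ r : ℝ) : ℂ)) (s : L →ₐ[K] ℂ)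
    (hs : ∀ z : L, (starRingEnd ℂ) (s z) = s z) : ∃ ψ : L →+* ℝ, ψ.comp (algebraMap K L) = φ ∧ ∀ z, s z = ((ψ z : ℝ) : ℂ) := by
  have hreal : NumberField.ComplexEmbedding.IsReal (s : L →+* ℂ) := by
    rw [NumberField.ComplexEmbedding.isReal_iff]
    ext z
    exact hs z
  have h1 : ∀ z, s z = ((hreal.embedding z : ℝ) : ℂ) := fun z =>
    (NumberField.ComplexEmbedding.IsReal.coe_embedding_apply hreal z).symm
  refine ⟨hreal.embedding, ?_, h1⟩
  ext r
  have h2 := h1 (algebraMap K L r)
  rw [s.commutes, halg, Complex.ofReal_inj] at h2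
  exact h2.symm

/-- The norm is positive at `φ` if all real embeddings above `φ` are positive. -/
theorem norm_pos' {y : L} (hy : y ≠ 0) (φ : K →+* ℝ) (hpos : ∀ ψ : L →+* ℝ, ψ.comp (algebraMap K L) = φ → 0 < ψ y) :
    0 < φ (Algebra.norm K y) := by
  classical
  have := n1_sign hy φ (e := 1) one_ne_zero (fun alg halg => by
    rw [Complex.ofReal_one]
    refine Finset.prod_eq_one fun s _ => ?_
    split_ifs with hs
    · obtain ⟨ψ, h1, h2⟩ := n1_real alg halg s hs
      have h3 := hpos ψ h1
      rw [h2, Complex.norm_real, Real.norm_of_nonneg h3.le]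
      exact div_self (Complex.ofReal_ne_zero.2 h3.ne')
    · rfl)
  rwa [mul_one] at this

/-- The norm is negative at `φ` if exactly one real embedding above `φ` is negative. -/
theorem norm_neg' {y : L} (hy : y ≠ 0) (φ : K →+* ℝ) (ψ₀ : L →+* ℝ) (h0 : ψ₀.comp (algebraMap K L) = φ) (hneg : ψ₀ y < 0)
    (hpos : ∀ ψ : L →+* ℝ, ψ.comp (algebraMap K L) = φ → ψ ≠ ψ₀ → 0 < ψ y) :
    φ (Algebra.norm K y) < 0 := by
  classical
  have := n1_sign hy φ (e := -1) (by norm_num) (fun alg halg => by
    have hc : ∀ r : K, Complex.ofRealHom.comp ψ₀ (algebraMap K L r) = algebraMap K ℂ r := fun r => by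
      rw [halg, ← h0]
      rfl
    let s₀ : L →ₐ[K] ℂ := { toRingHom := Complex.ofRealHom.comp ψ₀, commutes' := hc }
    have hs₀ : ∀ z, s₀ z = ((ψ₀ z : ℝ) : ℂ) := fun z => rfl
    rw [Finset.prod_eq_single s₀]
    · rw [if_pos (fun z => by rw [hs₀, Complex.conj_ofReal]), hs₀, Complex.norm_real, Real.norm_of_nonpos hneg.le]
      push_cast
      rw [div_neg]
      rw [div_self (Complex.ofReal_ne_zero.2 hneg.ne)]
    · intro s _ hne
      split_ifs with hs
      · obtain ⟨ψ, h1, h2⟩ := n1_real alg halg s hs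
        have hψ : ψ ≠ ψ₀ := by
          rintro rfl
          apply hne
          ext z
          rw [h2, hs₀]
        have h3 := hpos ψ h1 hψ
        rw [h2, Complex.norm_real, Real.norm_of_nonneg h3.le]
        exact div_self (Complex.ofReal_ne_zero.2 h3.ne')
      · rfl
    · intro h
      exact absurd (Finset.mem_univ _) h)
  nlinarith

/-! ## Approximation of local norms -/

theorem n1_div_cong (v : Pr K) (N : ℕ) {a b : K} (ha : v.valuation K (a - 1) < WithZero.exp (-(N : ℤ)))
    (hb : v.valuation K (b - 1) < WithZero.exp (-(N : ℤ))) : v.valuation K (a / b - 1) < WithZero.exp (-(N : ℤ)) := by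
  have h1 : v.valuation K b = 1 := by
    have e : b = 1 + (b - 1) := by ring
    rw [e]
    exact Valuation.map_one_add_of_lt _ (hb.trans_le (exp_le_one N))
  have hb0 : b ≠ 0 := by
    rintro rfl
    rw [map_zero] at h1
    exact zero_ne_one h1
  have e : a / b - 1 = ((a - 1) - (b - 1)) / b := by
    field_simp
    ring
  rw [e, map_div₀, h1, div_one]
  exact Valuation.map_sub_lt _ ha hb

/-- An element which is a local norm at the places of `S` and at the real places is a global norm times an element of the ray. -/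
theorem near (S : Finset (Pr K)) (N : ℕ) {x : K} (hx : x ≠ 0) (h1 : ∀ v ∈ S, LocN K L v x) (h2 : ∀ φ : K →+* ℝ, LocR L φ x) :
    ∃ y : L, y ≠ 0 ∧ Ray S N (x / Algebra.norm K y) := by
  classical
  have hY : ∀ v : Pr K, ∃ y : L, y ≠ 0 ∧ (v ∈ S → v.valuation K (x / Algebra.norm K y - 1) < WithZero.exp (-(N : ℤ))) := by
    intro v
    by_cases hv : v ∈ S
    · obtain ⟨y, hy, h⟩ := h1 v hv N
      exact ⟨y, hy, fun _ => h⟩
    · exact ⟨1, one_ne_zero, fun h => absurd h hv⟩
  choose Y hY0 hY1 using hY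
  choose M hM using fun v : Pr K => norm_cong (K := K) (L := L) {v} N
  choose ψ₀ hψ₀ using fun φ : {φ : K →+* ℝ // ∃ ψ : L →+* ℝ, ψ.comp (algebraMap K L) = φ} => φ.2
  obtain ⟨y, hy, hy1, hy2⟩ := approx (K := L) (up L S) (∑ v ∈ S, M v + ∑ w ∈ up L S, (od w (Y (below K w))).natAbs)
    (fun w => Y (below K w))
    (fun ψ => if ψ (algebraMap K L x) < 0 ∧ ψ = ψ₀ ⟨ψ.comp (algebraMap K L), ψ, rfl⟩ then (-1 : ℝ) else 1) (fun ψ => by
      split_ifs <;> norm_num)
  have hny : Algebra.norm K y ≠ 0 := Algebra.norm_ne_zero_iff.2 hy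
  refine ⟨y, hy, div_ne_zero hx hny, fun v hv => ?_, fun φ => ?_⟩
  · have hnY : Algebra.norm K (Y v) ≠ 0 := Algebra.norm_ne_zero_iff.2 (hY0 v)
    have h3 : v.valuation K (Algebra.norm K (y / Y v) - 1) < WithZero.exp (-(N : ℤ)) := by
      refine hM v (y / Y v) (div_ne_zero hy (hY0 v)) (fun w hw => ?_) v (Finset.mem_singleton_self v)
      rw [mem_up, Finset.mem_singleton] at hw
      have hwS : w ∈ up L S := (mem_up S w).2 (by rw [hw]; exact hv)
      have h4 := hy1 w hwS
      rw [hw] at h4
      have e : y / Y v - 1 = (y - Y v) / Y v := by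
        rw [sub_div, div_self (hY0 v)]
      rw [e, map_div₀, val_eq w (hY0 v), div_lt_iff₀ (WithZero.exp_pos), ← WithZero.exp_add]
      refine h4.trans_le ?_
      rw [WithZero.exp_le_exp]
      have h5 : (M v : ℤ) ≤ ∑ v ∈ S, M v := by
        exact_mod_cast Finset.single_le_sum (f := M) (fun _ _ => Nat.zero_le _) hv
      have h6 : ((od w (Y v)).natAbs : ℤ) ≤ ∑ w ∈ up L S, (od w (Y (below K w))).natAbs := by
        have := Finset.single_le_sum (f := fun w => (od w (Y (below K w))).natAbs) (fun _ _ => Nat.zero_le _) hwS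
        simp only [hw] at this
        exact_mod_cast this
      have h7 : od w (Y v) ≤ |od w (Y v)| := le_abs_self _
      push_cast at h5 h6 ⊢
      omega
    have h8 := n1_div_cong v N (hY1 v hv) h3
    have e : x / Algebra.norm K (Y v) / Algebra.norm K (y / Y v) = x / Algebra.norm K y := by
      have h9 : Algebra.norm K y = Algebra.norm K (Y v) * Algebra.norm K (y / Y v) := by
        rw [← map_mul, mul_div_cancel₀ _ (hY0 v)]
      rw [h9, div_div]
    rwa [e] at h8
  · rcases lt_trichotomy (φ x) 0 with hneg | h0 | hpos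
    · have hex : ∃ ψ : L →+* ℝ, ψ.comp (algebraMap K L) = φ := by
        rcases h2 φ with h | h
        · exact absurd h (not_lt.2 hneg.le)
        · exact h
      have hc : ∀ ψ : L →+* ℝ, ψ.comp (algebraMap K L) = φ → ψ (algebraMap K L x) = φ x := fun ψ h => by
        rw [← h]
        rfl
      have h3 : φ (Algebra.norm K y) < 0 := by
        refine norm_neg' hy φ (ψ₀ ⟨φ, hex⟩) (hψ₀ ⟨φ, hex⟩) ?_ ?_
        · have h4 := hy2 (ψ₀ ⟨φ, hex⟩)
          have h5 : ψ₀ ⟨(ψ₀ ⟨φ, hex⟩).comp (algebraMap K L), ψ₀ ⟨φ, hex⟩, rfl⟩ = ψ₀ ⟨φ, hex⟩ := by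
            congr 1
            exact Subtype.ext (hψ₀ ⟨φ, hex⟩)
          rw [if_pos ⟨by rw [hc _ (hψ₀ ⟨φ, hex⟩)]; exact hneg, h5.symm⟩] at h4
          linarith
        · intro ψ h4 h5
          have h6 := hy2 ψ
          rw [if_neg, mul_one] at h6
          · exact h6
          · rintro ⟨_, h7⟩
            apply h5
            rw [h7]
            congr 1
            exact Subtype.ext h4
      rw [map_div₀]
      exact div_pos_of_neg_of_neg hneg h3
    · exact absurd ((map_eq_zero φ).1 h0) hx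
    · have h3 : 0 < φ (Algebra.norm K y) := by
        refine norm_pos' hy φ fun ψ h4 => ?_
        have h6 := hy2 ψ
        rw [if_neg, mul_one] at h6
        · exact h6
        · rintro ⟨h7, _⟩
          have h8 : ψ (algebraMap K L x) = φ x := by
            rw [← h4]
            rfl
          rw [h8] at h7
          exact absurd h7 (not_lt.2 hpos.le)
      rw [map_div₀]
      exact div_pos hpos h3

end CFT
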