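import Mathlib
import Pool.Agent.Lib.CFT.N09

/-! # CFT module N, N10: the hypothesis hprime of local algebraicity for a good character -/

set_option autoImplicit false

open NumberField IsDedekindDomain Polynomial H25G

namespace ST32

section

variable {l : ℕ} [hlp : Fact l.Prime] {n : ℕ}

/-- A number field whose Galois group consists of elements near 1. -/
theorem exists_E {ρ : Gal(H25G.Om/ℚ) →* GL (Fin n) ℚ_[l]} (hc : Continuous ρ) {ε : ℝ} (hε : 0 < ε) :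
    ∃ (E : IntermediateField ℚ H25G.Om) (_ : NumberField E), ∀ g ∈ E.fixingSubgroup,
      ∀ i j, ‖(((rhoB ρ g : GL (Fin n) (PadicAlgCl l)) : Matrix (Fin n) (Fin n) (PadicAlgCl l)) - 1) i j‖ ≤ ε := by
  have h1 : Continuous fun g : Gal(H25G.Om/ℚ) => (ρ g : Matrix (Fin n) (Fin n) ℚ_[l]) := Units.continuous_val.comp hc
  have h2 : ∀ i j, ∀ᶠ g : Gal(H25G.Om/ℚ) in nhds 1, ‖((ρ g : Matrix (Fin n) (Fin n) ℚ_[l]) - 1) i j‖ < ε := by
    intro i j
    have h3 : Continuous fun g : Gal(H25G.Om/ℚ) => ((ρ g : Matrix (Fin n) (Fin n) ℚ_[l]) - 1) i j :=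
      (h1.sub continuous_const).matrix_elem i j
    have h4 := h3.norm.tendsto 1
    rw [map_one, Units.val_one, sub_self, Matrix.zero_apply, norm_zero] at h4
    exact h4.eventually (gt_mem_nhds hε)
  have h3 : ∀ᶠ g : Gal(H25G.Om/ℚ) in nhds 1, ∀ i j, ‖((ρ g : Matrix (Fin n) (Fin n) ℚ_[l]) - 1) i j‖ < ε :=
    Filter.eventually_all.2 fun i => Filter.eventually_all.2 fun j => h2 i j
  obtain ⟨E, hE, hEA⟩ := (krullTopology_mem_nhds_one_iff ℚ H25G.Om _).1 h3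
  refine ⟨E, ?_, fun g hg i j => ?_⟩
  · have := hE
    exact NumberField.of_module_finite ℚ E
  · have h4 := hEA hg i j
    have h5 : (((rhoB ρ g : GL (Fin n) (PadicAlgCl l)) : Matrix (Fin n) (Fin n) (PadicAlgCl l)) - 1) i j =
        algebraMap ℚ_[l] (PadicAlgCl l) (((ρ g : Matrix (Fin n) (Fin n) ℚ_[l]) - 1) i j) := by
      rw [Matrix.sub_apply, Matrix.sub_apply, map_sub]
      congr 1
      rw [Matrix.one_apply, Matrix.one_apply]
      split_ifs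
      · rw [map_one]
      · rw [map_zero]
    rw [h5, norm_algebraMap']
    exact h4.le

/-- The value at a Frobenius element near 1 has no roots of unity as quotients. -/
theorem Val.key {N a m p f : ℕ} {ζ0 : PadicAlgCl l} {P0 : ℚ[X]} {y : PadicAlgCl l} (h : Val N a n m p f ζ0 P0 y) (hN : 0 < N)
    {ε : ℝ} (h0 : 0 < ε) (h1 : ε < 1) (hε : ε < (l : ℝ)⁻¹) (hd : ∀ d : PadicAlgCl l, aeval d P0 = 0 → ‖d ^ f - 1‖ ≤ ε)
    (σ : (algebraicClosure ℚ (PadicAlgCl l)) →+* PadicAlgCl l) (hσ : ∀ z : algebraicClosure ℚ (PadicAlgCl l), z ^ N = 1 → σ z = z)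
    (y' : algebraicClosure ℚ (PadicAlgCl l)) (hy' : (y' : PadicAlgCl l) = y) (hy0 : y ≠ 0) (ζ : PadicAlgCl l) (j : ℕ) (hj : 0 < j) (hζ : ζ ^ j = 1)
    (he : σ y' = ζ * y') : ζ = 1 := by
  obtain ⟨μ, hy, hμ⟩ := h.mon
  have hμalg : ∀ t, IsAlgebraic ℚ (μ t) := by
    intro t
    rcases hμ t with h2 | ⟨d, hd, h2 | h2⟩
    · rw [h2]
      exact isAlgebraic_one
    · rw [h2]
      exact (show IsAlgebraic ℚ d from ⟨P0, h.ne, hd⟩).pow f
    · rw [h2]
      exact ((show IsAlgebraic ℚ d from ⟨P0, h.ne, hd⟩).pow f).inv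
  have hζalg : IsAlgebraic ℚ ζ0 := (degLe_zeta hN h.zeta).1.isAlgebraic
  let ζ' : algebraicClosure ℚ (PadicAlgCl l) := ⟨ζ0, mem_algebraicClosure_iff.2 hζalg⟩
  let μ' : Fin a → algebraicClosure ℚ (PadicAlgCl l) := fun t => ⟨μ t, mem_algebraicClosure_iff.2 (hμalg t)⟩
  have e1 : y' = ζ' * ∏ t, μ' t := by
    apply Subtype.ext
    rw [hy', hy]
    show ζ0 * ∏ t, μ t = (algebraicClosure ℚ (PadicAlgCl l)).val (ζ' * ∏ t, μ' t)
    rw [map_mul, map_prod]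
    rfl
  have e2 : σ ζ' = ζ0 := hσ ζ' (Subtype.ext h.zeta)
  -- the values near 1
  have hval : ∀ d : PadicAlgCl l, aeval d P0 = 0 → ∃ u : (PadicAlgCl l)ˣ, (u : PadicAlgCl l) = d ^ f ∧ u ∈ (near ε h0 h1 : Subgroup (PadicAlgCl l)ˣ) := by
    intro d hd0
    have h2 := hd d hd0
    have h3 : d ^ f ≠ 0 := by
      intro h4
      rw [h4, zero_sub, norm_neg, norm_one] at h2
      exact absurd (h2.trans_lt h1) (lt_irrefl _)
    exact ⟨Units.mk0 _ h3, rfl, h2⟩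
  have hq : ∀ t, ∃ u : (PadicAlgCl l)ˣ, (u : PadicAlgCl l) = μ t ∧ u ∈ (near ε h0 h1 : Subgroup (PadicAlgCl l)ˣ) := by
    intro t
    rcases hμ t with h2 | ⟨d, hd0, h2 | h2⟩
    · exact ⟨1, h2.symm, Subgroup.one_mem _⟩
    · obtain ⟨u, hu, hu2⟩ := hval d hd0
      exact ⟨u, hu.trans h2.symm, hu2⟩
    · obtain ⟨u, hu, hu2⟩ := hval d hd0
      exact ⟨u⁻¹, by rw [Units.val_inv_eq_inv_val, hu, h2], Subgroup.inv_mem _ hu2⟩
  have hs : ∀ t, ∃ u : (PadicAlgCl l)ˣ, (u : PadicAlgCl l) = σ (μ' t) ∧ u ∈ (near ε h0 h1 : Subgroup (PadicAlgCl l)ˣ) := by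
    have key : ∀ (d : PadicAlgCl l) (x : algebraicClosure ℚ (PadicAlgCl l)), aeval d P0 = 0 → (x : PadicAlgCl l) = d ^ f →
        ∃ u : (PadicAlgCl l)ˣ, (u : PadicAlgCl l) = σ x ∧ u ∈ (near ε h0 h1 : Subgroup (PadicAlgCl l)ˣ) := by
      intro d x hd0 hx
      let d' : algebraicClosure ℚ (PadicAlgCl l) := ⟨d, mem_algebraicClosure_iff.2 ⟨P0, h.ne, hd0⟩⟩
      have h3 : x = d' ^ f := Subtype.ext hx
      have h4 : aeval d' P0 = 0 := by
        apply (algebraicClosure ℚ (PadicAlgCl l)).val.injective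
        rw [map_zero]
        have h5 : (algebraicClosure ℚ (PadicAlgCl l)).val (aeval d' P0) = aeval d P0 := by
          rw [← Polynomial.aeval_algHom_apply]
          rfl
        exact h5.trans hd0
      obtain ⟨u, hu, hu2⟩ := hval _ (aeval_map_zero σ P0 h4)
      exact ⟨u, by rw [hu, h3, map_pow], hu2⟩
    intro t
    rcases hμ t with h3 | ⟨d, hd0, h3 | h3⟩
    · have h4 : μ' t = 1 := Subtype.ext h3
      exact ⟨1, by rw [h4, map_one, Units.val_one], Subgroup.one_mem _⟩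
    · exact key d (μ' t) hd0 h3
    · obtain ⟨u, hu, hu2⟩ := key d (μ' t)⁻¹ hd0 (by
        show (μ t)⁻¹ = d ^ f
        rw [h3, inv_inv])
      exact ⟨u⁻¹, by rw [Units.val_inv_eq_inv_val, hu, map_inv₀, inv_inv], Subgroup.inv_mem _ hu2⟩
  choose u hu hu2 using hq
  choose w hw hw2 using hs
  have h3 : ζ * ∏ t, μ t = ∏ t, σ (μ' t) := by
    have h4 : ζ0 ≠ 0 := by
      intro h5
      apply hy0
      rw [hy, h5, zero_mul]
    have h5 : σ y' = ζ0 * ∏ t, σ (μ' t) := by rw [e1, map_mul, map_prod, e2]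
    rw [h5, hy', hy] at he
    have h6 : ζ0 * (ζ * ∏ t, μ t) = ζ0 * ∏ t, σ (μ' t) := by
      rw [he]
      ring
    exact mul_left_cancel₀ h4 h6
  let Z : (PadicAlgCl l)ˣ := (∏ t, w t) * (∏ t, u t)⁻¹
  have hZ : (Z : PadicAlgCl l) = ζ := by
    have h4 : ((∏ t, w t : (PadicAlgCl l)ˣ) : PadicAlgCl l) = ∏ t, σ (μ' t) := by
      rw [Units.coe_prod]
      exact Finset.prod_congr rfl fun t _ => hw t
    have h5 : ((∏ t, u t : (PadicAlgCl l)ˣ) : PadicAlgCl l) = ∏ t, μ t := by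
      rw [Units.coe_prod]
      exact Finset.prod_congr rfl fun t _ => hu t
    show ((∏ t, w t : (PadicAlgCl l)ˣ) : PadicAlgCl l) * (((∏ t, u t)⁻¹ : (PadicAlgCl l)ˣ) : PadicAlgCl l) = ζ
    rw [h4, ← h3, ← h5]
    exact Units.mul_inv_cancel_right _ _
  have hZ2 : Z ∈ (near ε h0 h1 : Subgroup (PadicAlgCl l)ˣ) :=
    Subgroup.mul_mem _ (Subgroup.prod_mem _ fun t _ => hw2 t) (Subgroup.inv_mem _ (Subgroup.prod_mem _ fun t _ => hu2 t))
  have hZ3 : Z ^ j = 1 := Units.ext (by rw [Units.val_pow_eq_pow_val, hZ, hζ, Units.val_one])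
  have h6 := root_near norm_l h0 h1 hε hZ2 hj hZ3
  rw [← hZ, h6, Units.val_one]

end

end ST32
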