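import Mathlib
import Pool.Agent.Lib.CFT.N10
import Pool.Agent.Lib.CFT.LAT
import Pool.Agent.Lib.H25G.GB7

/-! # CFT module N, N11: a good character is algebraic on a ray -/

set_option autoImplicit false

open NumberField IsDedekindDomain Polynomial H25G

namespace ST32

section

variable {l : ℕ} [hlp : Fact l.Prime] {n : ℕ}

/-- The primes of M over a finite set of prime numbers. -/
theorem over_fin (M : Type) [Field M] [NumberField M] (S : Finset ℕ) : {v : CFT.Pr M | ∃ p ∈ S, p.Prime ∧ (p : 𝓞 M) ∈ v.asIdeal}.Finite := by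
  have h : {v : CFT.Pr M | ∃ p ∈ S, p.Prime ∧ (p : 𝓞 M) ∈ v.asIdeal} ⊆ ⋃ p ∈ S.filter Nat.Prime, {v : CFT.Pr M | v.asIdeal ∣ Ideal.span {(p : 𝓞 M)}} := by
    rintro v ⟨p, hp, hpp, hpv⟩
    refine Set.mem_biUnion (Finset.mem_coe.2 (Finset.mem_filter.2 ⟨hp, hpp⟩)) ?_
    rw [Set.mem_ofPred_eq, Ideal.dvd_span_singleton]
    exact hpv
  refine Set.Finite.subset (Set.Finite.biUnion (Finset.finite_toSet _) fun p hp => ?_) h
  refine Ideal.finite_factors fun h0 => ?_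
  rw [Ideal.zero_eq_bot, Ideal.span_singleton_eq_bot] at h0
  exact (Finset.mem_filter.1 hp).2.ne_zero (by exact_mod_cast h0)

/-- The values of a continuous character of a compact group have norm 1. -/
theorem norm_char {G : Type} [Group G] [TopologicalSpace G] [CompactSpace G] {F : Type} [NormedField F] (ψ : G →* Fˣ)
    (hc : Continuous fun g => (ψ g : F)) (g : G) : ‖(ψ g : F)‖ = 1 := by
  obtain ⟨C, hC⟩ := isCompact_univ.exists_bound_of_continuousOn (f := fun g : G => (ψ g : F)) hc.continuousOn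
  have h1 : ∀ g : G, ‖(ψ g : F)‖ ≤ 1 := by
    intro g
    by_contra hcon
    rw [not_le] at hcon
    obtain ⟨k, hk⟩ := ((tendsto_pow_atTop_atTop_of_one_lt hcon).eventually_gt_atTop C).exists
    have h2 := hC (g ^ k) (Set.mem_univ _)
    have h3 : ‖(ψ (g ^ k) : F)‖ = ‖(ψ g : F)‖ ^ k := by rw [map_pow, Units.val_pow_eq_pow_val, norm_pow]
    rw [h3] at h2
    exact absurd (hk.trans_le h2) (lt_irrefl _)
  refine le_antisymm (h1 g) ?_
  have h2 := h1 g⁻¹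
  rw [map_inv, Units.val_inv_eq_inv_val, norm_inv] at h2
  exact (inv_le_one₀ (norm_pos_iff.2 (Units.ne_zero _))).1 h2

/-- The data attached to a good character: the set S' of prime numbers, the finite set T of primes of M, Frobenius elements, the character D of the
divisors. -/
structure GD (M : IntermediateField ℚ H25G.Om) [NumberField M] (ψ : M.fixingSubgroup →* (PadicAlgCl l)ˣ) (S' : Finset ℕ)
    (T : Finset (CFT.Pr M)) (Fr : CFT.Pr M → M.fixingSubgroup) (D : CFT.Dv M →+ Additive (PadicAlgCl l)ˣ) : Prop where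
  inert : ∀ p : ℕ, p.Prime → p ∉ S' → ∀ Q : Ideal (𝓞 H25G.Om), Q.IsPrime → (p : 𝓞 H25G.Om) ∈ Q →
      ∀ s : M.fixingSubgroup, (∀ x : 𝓞 H25G.Om, (s : Gal(H25G.Om/ℚ)) • x - x ∈ Q) → ψ s = 1
  ovr : ∀ v : CFT.Pr M, ∀ p : ℕ, p.Prime → (p : 𝓞 M) ∈ v.asIdeal → p ∈ S' → v ∈ T
  fr : ∀ v, IsFrP M v (Fr v)
  off : ∀ v ∉ T, D (Finsupp.single v 1) = Additive.ofMul (ψ (Fr v))
  on : ∀ v ∈ T, D (Finsupp.single v 1) = 0

variable {M : IntermediateField ℚ H25G.Om} [NumberField M] {ψ : M.fixingSubgroup →* (PadicAlgCl l)ˣ} {S' : Finset ℕ}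
  {T : Finset (CFT.Pr M)} {Fr : CFT.Pr M → M.fixingSubgroup} {D : CFT.Dv M →+ Additive (PadicAlgCl l)ˣ}

/-- The character of the Galois group of Om over M. -/
noncomputable abbrev psiM (ψ : M.fixingSubgroup →* (PadicAlgCl l)ˣ) : (H25G.Om ≃ₐ[M] H25G.Om) →* (PadicAlgCl l)ˣ :=
  ψ.comp (eM M).symm.toMonoidHom

theorem GD.unr (h : GD M ψ S' T Fr D) : ∀ v ∉ T, UnrV (psiM ψ) v := by
  intro v hv P hP g hg
  obtain ⟨p, f, hp, hf, hpv, -⟩ := exists_below M v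
  have hpS : p ∉ S' := fun hc => hv (h.ovr v p hp hpv hc)
  have hpP : (p : 𝓞 H25G.Om) ∈ P := by
    have h1 := hpv
    rw [← hP.2, Ideal.mem_comap, map_natCast] at h1
    exact h1
  exact h.inert p hp hpS P hP.1 hpP ((eM M).symm g) hg

theorem psiM_cont {ρ : Gal(H25G.Om/ℚ) →* GL (Fin n) ℚ_[l]} (hc : Continuous ρ) (hψ : GoodChar ρ M.fixingSubgroup ψ) :
    Continuous fun g => (psiM ψ g : PadicAlgCl l) := (good_cont hc hψ).comp (eM_symm_cont M)

theorem psiM_eM (h : M.fixingSubgroup) : psiM ψ (eM M h) = ψ h := congrArg ψ ((eM M).symm_apply_apply h)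

theorem GD.lev {ρ : Gal(H25G.Om/ℚ) →* GL (Fin n) ℚ_[l]} (hc : Continuous ρ) (hψ : GoodChar ρ M.fixingSubgroup ψ) (h : GD M ψ S' T Fr D)
    (ε : ℝ) (hε : 0 < ε) : ∃ N : ℕ, ∀ x : M, CFT.Ray T N x → ‖((D (CFT.dv x)).toMul : PadicAlgCl l) - 1‖ ≤ ε := by
  have := om_galM M
  exact levels (psiM ψ) (psiM_cont hc hψ) T h.unr (fun v => eM M (Fr v)) (fun v _ => (isFrv_iff M v (Fr v)).2 (h.fr v)) D
    (fun v hv => by rw [h.off v hv, psiM_eM]) h.on ε hε

theorem GD.ne_one {ρ : Gal(H25G.Om/ℚ) →* GL (Fin n) ℚ_[l]} (hc : Continuous ρ) (hψ : GoodChar ρ M.fixingSubgroup ψ) (h : GD M ψ S' T Fr D)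
    (χ : M.fixingSubgroup →* (PadicAlgCl l)ˣ) (hχc : Continuous fun g => (χ g : PadicAlgCl l)) (hχu : ∀ v ∉ T, UnrV (psiM χ) v) (hne : χ ≠ 1) :
    ∃ v ∉ T, χ (Fr v) ≠ 1 := by
  have := om_galM M
  have hne' : psiM χ ≠ 1 := by
    intro h1
    apply hne
    ext g
    have h2 := DFunLike.congr_fun h1 (eM M g)
    rw [psiM_eM] at h2
    rw [h2]
    rfl
  obtain ⟨v, hv, h2⟩ := exists_frob_ne' (psiM χ) (hχc.comp (eM_symm_cont M)) hne' T hχu (fun v => eM M (Fr v))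
    (fun v _ => (isFrv_iff M v (Fr v)).2 (h.fr v))
  rw [psiM_eM] at h2
  exact ⟨v, hv, h2⟩

theorem GD.alg {ρ : Gal(H25G.Om/ℚ) →* GL (Fin n) ℚ_[l]} {S : Finset ℕ} {m : ℕ} (hρ : Geom ρ S m) (hψ : GoodChar ρ M.fixingSubgroup ψ) (h : GD M ψ S' T Fr D)
    (hSS' : S ⊆ S') (hl : l ∈ S') :
    ∃ (N : ℕ) (n : (M →+* PadicAlgCl l) → ℤ), ∀ x : M, CFT.Ray T N x → ((D (CFT.dv x)).toMul : PadicAlgCl l) = ∏ τ : M →+* PadicAlgCl l, τ x ^ n τ := by
  obtain ⟨N, a, hN, hdata⟩ := data hρ M ψ hψ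
  have hval : ∀ v ∉ T, ((D (Finsupp.single v 1)).toMul : PadicAlgCl l) = (ψ (Fr v) : PadicAlgCl l) := by
    intro v hv
    rw [h.off v hv]
    rfl
  have hSv : ∀ v ∉ T, ∀ p ∈ S, p.Prime → (p : 𝓞 M) ∉ v.asIdeal := fun v hv p hp hpp hpv => hv (h.ovr v p hpp hpv (hSS' hp))
  have hcompact : CompactSpace M.fixingSubgroup := by
    have := om_gal
    have h1 : IsClosed (M.fixingSubgroup : Set Gal(H25G.Om/ℚ)) := InfiniteGalois.fixingSubgroup_isClosed M
    exact isCompact_iff_compactSpace.1 h1.isCompact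
  refine CFT.loc_alg (l := l) norm_l T (fun v hv => h.ovr v l hlp.out hv hl) D h.on ?_ (h.lev hρ.cont hψ) (N * (max n 1) ^ a) (m * a) ?_ ?_ ?_ ?_
  · intro v
    by_cases hv : v ∈ T
    · rw [h.on v hv, toMul_zero, Units.val_one, norm_one]
    · rw [hval v hv]
      exact norm_char ψ (good_cont hρ.cont hψ) _
  · intro v hv
    obtain ⟨p, f, ζ, P0, hp, hpS, hpv, hf, hNm, hV, -⟩ := hdata v (hSv v hv) (Fr v) (h.fr v)
    rw [hval v hv, hNm]
    exact hV.int hN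
  · intro v hv
    obtain ⟨p, f, ζ, P0, hp, hpS, hpv, hf, hNm, hV, -⟩ := hdata v (hSv v hv) (Fr v) (h.fr v)
    rw [hval v hv]
    exact (hV.degLe hN).2
  · intro v hv z hz
    obtain ⟨p, f, ζ, P0, hp, hpS, hpv, hf, hNm, hV, -⟩ := hdata v (hSv v hv) (Fr v) (h.fr v)
    rw [hval v hv] at hz
    exact hV.conj hN hz
  · have hl0 : (0 : ℝ) < (l : ℝ)⁻¹ := inv_pos.2 (by exact_mod_cast hlp.out.pos)
    have hl1 : (l : ℝ)⁻¹ ≤ 1 := inv_le_one_of_one_le₀ (by exact_mod_cast hlp.out.one_le)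
    have h0 : 0 < (l : ℝ)⁻¹ / 2 := half_pos hl0
    have h1 : (l : ℝ)⁻¹ / 2 < (l : ℝ)⁻¹ := half_lt_self hl0
    obtain ⟨E, hE, hEn⟩ := exists_E hρ.cont h0
    obtain ⟨b, hb⟩ := gb4_sep E
    refine ⟨N, hN, E, inferInstance, hE, Finset.range (b + 1), ?_⟩
    intro p hp hpT hsplit v hpv hv σ hσ y hy ζ j hj hζ he
    obtain ⟨p', f, ζ0, P0, hp', hpS, hpv', hf, hNm, hV, hroot⟩ := hdata v (hSv v hv) (Fr v) (h.fr v)
    have hpp' : p' = p := by
      by_contra hne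
      have hcop : IsCoprime (p' : ℤ) (p : ℤ) := by
        rw [Nat.isCoprime_iff_coprime]
        exact (Nat.coprime_primes hp' hp).2 hne
      obtain ⟨c, d, hcd⟩ := hcop
      have e1 : (c : 𝓞 M) * (p' : 𝓞 M) + (d : 𝓞 M) * (p : 𝓞 M) = 1 := by exact_mod_cast congrArg (fun z : ℤ => (z : 𝓞 M)) hcd
      have e2 : (1 : 𝓞 M) ∈ v.asIdeal := by
        rw [← e1]
        exact Ideal.add_mem _ (Ideal.mul_mem_left _ _ hpv') (Ideal.mul_mem_left _ _ hpv)
      exact v.isPrime.ne_top ((Ideal.eq_top_iff_one _).2 e2)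
    subst hpp'
    -- the Frobenius element is trivial on E
    have hmem : (Fr v : Gal(H25G.Om/ℚ)) ∈ E.fixingSubgroup := by
      obtain ⟨-, Q, hQ, hQv, hQF⟩ := h.fr v
      have hpQ : (p' : 𝓞 H25G.Om) ∈ Q := by
        have e1 := hpv
        rw [← hQv, Ideal.mem_comap, map_natCast] at e1
        exact e1
      have hbp : b < p' := by
        rw [Finset.mem_range] at hpT
        omega
      have e2 := hb p' hbp hp' Q hQ hpQ (Fr v : Gal(H25G.Om/ℚ)) 1 ?_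
      · rwa [inv_one, one_mul] at e2
      intro x
      -- the prime of E
      have hpr : (Q.comap (algebraMap (𝓞 E) (𝓞 H25G.Om))).IsPrime := Ideal.IsPrime.comap _
      have hpE : (p' : 𝓞 E) ∈ Q.comap (algebraMap (𝓞 E) (𝓞 H25G.Om)) := by
        rw [Ideal.mem_comap, map_natCast]
        exact hpQ
      have hnb : Q.comap (algebraMap (𝓞 E) (𝓞 H25G.Om)) ≠ ⊥ := by
        intro e3
        rw [e3, Ideal.mem_bot] at hpE
        exact hp'.ne_zero (by exact_mod_cast hpE)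
      let w : CFT.Pr E := ⟨Q.comap (algebraMap (𝓞 E) (𝓞 H25G.Om)), hpr, hnb⟩
      have hNw : CFT.Nm w = p' := hsplit w hpE
      have hx1 : ∀ k : ℕ, x ^ p' ^ k - x ∈ w.asIdeal := by
        have hmax : w.asIdeal.IsMaximal := w.isMaximal
        let _ : Field (𝓞 E ⧸ w.asIdeal) := Ideal.Quotient.field w.asIdeal
        have hfin : Finite (𝓞 E ⧸ w.asIdeal) := Ideal.finiteQuotientOfFreeOfNeBot w.asIdeal w.ne_bot
        let _ : Fintype (𝓞 E ⧸ w.asIdeal) := Fintype.ofFinite _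
        have hcard : Fintype.card (𝓞 E ⧸ w.asIdeal) = p' := by
          rw [← hNw]
          unfold CFT.Nm
          rw [Ideal.absNorm_apply, Submodule.cardQuot_apply, Nat.card_eq_fintype_card]
        intro k
        rw [← Ideal.Quotient.eq_zero_iff_mem, map_sub, map_pow, sub_eq_zero, ← hcard]
        exact FiniteField.pow_card_pow k _
      have e3 := hQF (algebraMap (𝓞 E) (𝓞 H25G.Om) x)
      rw [hNm] at e3
      have e4 : algebraMap (𝓞 E) (𝓞 H25G.Om) (x ^ p' ^ f - x) ∈ Q := hx1 f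
      rw [map_sub, map_pow] at e4
      have e5 := Q.add_mem e3 e4
      rw [one_smul]
      have e6 : (Fr v : Gal(H25G.Om/ℚ)) • algebraMap (𝓞 E) (𝓞 H25G.Om) x - algebraMap (𝓞 E) (𝓞 H25G.Om) x =
          (Fr v : Gal(H25G.Om/ℚ)) • algebraMap (𝓞 E) (𝓞 H25G.Om) x - algebraMap (𝓞 E) (𝓞 H25G.Om) x ^ p' ^ f +
          (algebraMap (𝓞 E) (𝓞 H25G.Om) x ^ p' ^ f - algebraMap (𝓞 E) (𝓞 H25G.Om) x) := by ring
      rw [e6]
      exact e5
    refine hV.key hN h0 (h1.trans_le hl1) h1 (fun d hd => ?_) σ hσ y (hy.trans (hval v hv)) (Units.ne_zero _) ζ j hj hζ he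
    exact eig_near h0.le (hEn _ hmem) (hroot d hd)

end

end ST32
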