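import Mathlib
import Pool.Agent.Lib.CFT.N11
import Pool.Agent.Lib.CFTC.C10

/-! # CFT module N, N12: the prime number theorem for good characters -/

set_option autoImplicit false

open NumberField IsDedekindDomain H25G Filter Topology

namespace ST32

section

variable {l : ℕ} [hlp : Fact l.Prime] {n : ℕ}
variable {M : IntermediateField ℚ H25G.Om} [NumberField M] {ψ : M.fixingSubgroup →* (PadicAlgCl l)ˣ} {S' : Finset ℕ}
  {T : Finset (CFT.Pr M)} {Fr : CFT.Pr M → M.fixingSubgroup} {D : CFT.Dv M →+ Additive (PadicAlgCl l)ˣ}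

open Classical in
/-- The data exist. -/
theorem exists_GD {ρ : Gal(H25G.Om/ℚ) →* GL (Fin n) ℚ_[l]} {S : Finset ℕ} {m : ℕ} (hρ : Geom ρ S m) (hψ : GoodChar ρ M.fixingSubgroup ψ)
    (S0 : Finset ℕ) : ∃ (S' : Finset ℕ) (T : Finset (CFT.Pr M)) (Fr : CFT.Pr M → M.fixingSubgroup) (D : CFT.Dv M →+ Additive (PadicAlgCl l)ˣ),
      S ⊆ S' ∧ l ∈ S' ∧ S0 ⊆ S' ∧ GD M ψ S' T Fr D := by
  obtain ⟨S1, hS1, hin⟩ := gb7 hρ.unram M.fixingSubgroup ψ hψ
  have hgal := om_galM M
  have hFr : ∀ v : CFT.Pr M, ∃ h : M.fixingSubgroup, IsFrP M v h := by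
    intro v
    obtain ⟨g, hg⟩ := exists_frv (Om := H25G.Om) v
    refine ⟨(eM M).symm g, ?_⟩
    rw [← isFrv_iff, MulEquiv.apply_symm_apply]
    exact hg
  choose Fr hFr using hFr
  let S' : Finset ℕ := insert l (S1 ∪ S0)
  let T : Finset (CFT.Pr M) := (over_fin M S').toFinset
  have hT : ∀ v, v ∈ T ↔ ∃ p ∈ S', p.Prime ∧ (p : 𝓞 M) ∈ v.asIdeal := fun v => Set.Finite.mem_toFinset _
  let D : CFT.Dv M →+ Additive (PadicAlgCl l)ˣ :=
    Finsupp.liftAddHom fun v => zmultiplesHom (Additive (PadicAlgCl l)ˣ) (if v ∈ T then 0 else Additive.ofMul (ψ (Fr v)))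
  have hD : ∀ v, D (Finsupp.single v 1) = if v ∈ T then 0 else Additive.ofMul (ψ (Fr v)) := by
    intro v
    show Finsupp.liftAddHom _ (Finsupp.single v 1) = _
    rw [Finsupp.liftAddHom_apply_single, zmultiplesHom_apply, one_smul]
  refine ⟨S', T, Fr, D, ?_, Finset.mem_insert_self _ _, ?_, ⟨?_, ?_, hFr, ?_, ?_⟩⟩
  · exact hS1.trans (Finset.subset_union_left.trans (Finset.subset_insert _ _))
  · exact Finset.subset_union_right.trans (Finset.subset_insert _ _)
  · intro p hp hpS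
    refine hin p hp fun hc => hpS ?_
    exact Finset.mem_insert_of_mem (Finset.mem_union_left _ hc)
  · intro v p hp hpv hpS
    exact (hT v).2 ⟨p, hpS, hp, hpv⟩
  · intro v hv
    rw [hD, if_neg hv]
  · intro v hv
    rw [hD, if_pos hv]

/-- The complex character of the divisors. -/
noncomputable def cD (j : PadicAlgCl l →+* ℂ) (D : CFT.Dv M →+ Additive (PadicAlgCl l)ˣ) : CFT.Dv M →+ Additive ℂˣ :=
  (MonoidHom.toAdditive (Units.map (j : PadicAlgCl l →* ℂ))).comp D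

theorem cD_apply (j : PadicAlgCl l →+* ℂ) (E : CFT.Dv M) : (((cD j D E).toMul : ℂˣ) : ℂ) = j ((D E).toMul : PadicAlgCl l) := rfl

theorem zpow_sum {ι : Type*} {F : Type*} [Field F] {a : F} (ha : a ≠ 0) (s : Finset ι) (f : ι → ℤ) : a ^ (∑ i ∈ s, f i) = ∏ i ∈ s, a ^ f i := by
  classical
  induction s using Finset.induction_on with
  | empty => simp
  | insert i s hi ih => rw [Finset.sum_insert hi, Finset.prod_insert hi, zpow_add₀ ha, ih]

/-- Change of the embeddings. -/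
theorem emb_change (j : PadicAlgCl l →+* ℂ) (nn : (M →+* PadicAlgCl l) → ℤ) :
    ∃ n' : (M →+* ℂ) → ℤ, ∀ x : M, x ≠ 0 → j (∏ τ : M →+* PadicAlgCl l, τ x ^ nn τ) = ∏ σ : M →+* ℂ, σ x ^ n' σ := by
  classical
  refine ⟨fun σ => ∑ τ ∈ Finset.univ.filter (fun τ : M →+* PadicAlgCl l => j.comp τ = σ), nn τ, fun x hx => ?_⟩
  rw [map_prod, ← Finset.prod_fiberwise (s := Finset.univ) (g := fun τ : M →+* PadicAlgCl l => j.comp τ)]
  refine Finset.prod_congr rfl fun σ _ => ?_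
  have hσ : σ x ≠ 0 := (map_ne_zero σ).2 hx
  rw [zpow_sum hσ]
  refine Finset.prod_congr rfl fun τ hτ => ?_
  rw [map_zpow₀, ← (Finset.mem_filter.1 hτ).2]
  rfl

/-- A continuous character of order 2 cuts out a quadratic extension. -/
theorem real_case (h : GD M ψ S' T Fr D) (hc : Continuous fun g => (ψ g : PadicAlgCl l)) (hne : ψ ≠ 1) (hsq : ∀ g, ψ g ^ 2 = 1)
    (w : CFT.Pr M → ℂ) (h1 : ∀ v ∉ T, ψ (Fr v) = 1 → w v = 1) (h2 : ∀ v ∉ T, ψ (Fr v) ≠ 1 → w v = -1) :
    Tendsto (fun x : ℕ => (∑ᶠ v ∈ {v : CFT.Pr M | CFT.Nm v ≤ x}, w v) / (Nat.primeCounting x : ℂ)) atTop (𝓝 0) := by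
  have hgal := om_galM M
  have hpm : ∀ g, ψ g = 1 ∨ ψ g = -1 := by
    intro g
    have h3 := hsq g
    have h4 : ((ψ g : PadicAlgCl l) - 1) * ((ψ g : PadicAlgCl l) + 1) = 0 := by
      have h5 : (ψ g : PadicAlgCl l) ^ 2 = 1 := by rw [← Units.val_pow_eq_pow_val, h3, Units.val_one]
      linear_combination h5
    rcases mul_eq_zero.1 h4 with h5 | h5
    · left
      exact Units.ext (sub_eq_zero.1 h5)
    · right
      exact Units.ext (eq_neg_of_add_eq_zero_left h5)
  have h2n : 0 < ‖(2 : PadicAlgCl l)‖ := norm_pos_iff.2 two_ne_zero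
  have h0 : 0 < min (‖(2 : PadicAlgCl l)‖ / 2) (1 / 2) := lt_min (half_pos h2n) (by norm_num)
  have h1' : min (‖(2 : PadicAlgCl l)‖ / 2) (1 / 2) < 1 := (min_le_right _ _).trans_lt (by norm_num)
  have hker : ((psiM ψ).ker : Set (H25G.Om ≃ₐ[M] H25G.Om)) = ((near _ h0 h1').comap (psiM ψ) : Subgroup (H25G.Om ≃ₐ[M] H25G.Om)) := by
    ext g
    rw [SetLike.mem_coe, SetLike.mem_coe, MonoidHom.mem_ker, Subgroup.mem_comap, mem_near]
    constructor
    · intro h3
      rw [h3, Units.val_one, sub_self, norm_zero]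
      exact h0.le
    · intro h3
      rcases hpm ((eM M).symm g) with h4 | h4
      · exact h4
      · exfalso
        have h5 : (psiM ψ g : PadicAlgCl l) - 1 = -2 := by
          have h6 : psiM ψ g = -1 := h4
          rw [h6, Units.val_neg, Units.val_one]
          ring
        rw [h5, norm_neg] at h3
        have h6 := h3.trans (min_le_left _ _)
        linarith
  have hopen : IsOpen ((psiM ψ).ker : Set (H25G.Om ≃ₐ[M] H25G.Om)) := by
    rw [hker]
    exact open_near (psiM ψ) (hc.comp (eM_symm_cont M)) _ h0 h1'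
  obtain ⟨L, hfd, hLgal, χL, hinj, hcomp⟩ := layer (psiM ψ) hopen
  have : NumberField L := NumberField.of_module_finite M L
  have hab : ∀ a b : L ≃ₐ[M] L, a * b = b * a := fun a b => hinj (by rw [map_mul, map_mul, mul_comm])
  have hunr : ∀ v ∉ T, CFT.Unr M L v := fun v hv => unr_layer L (psiM ψ) χL hinj hcomp v (h.unr v hv)
  have hfrob : ∀ v ∉ T, χL (CFT.frob M L v) = ψ (Fr v) := by
    intro v hv
    rw [frob_layer L hab (hunr v hv) ((isFrv_iff M v (Fr v)).2 (h.fr v)), hcomp, psiM_eM]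
  have hsurj : Function.Surjective (AlgEquiv.restrictNormalHom L : (H25G.Om ≃ₐ[M] H25G.Om) →* (L ≃ₐ[M] L)) :=
    AlgEquiv.restrictNormalHom_surjective H25G.Om
  have hval : ∀ s : L ≃ₐ[M] L, χL s = 1 ∨ χL s = -1 := by
    intro s
    obtain ⟨g, rfl⟩ := hsurj s
    rw [hcomp]
    exact hpm _
  obtain ⟨g0, hg0⟩ : ∃ g, ψ g ≠ 1 := by
    by_contra hcon
    apply hne
    ext g
    by_contra h3
    exact hcon ⟨g, fun h4 => h3 (by rw [h4]; rfl)⟩
  have hcard : Nat.card (L ≃ₐ[M] L) = 2 := by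
    rw [Nat.card_eq_two_iff]
    refine ⟨1, AlgEquiv.restrictNormalHom L (eM M g0), ?_, ?_⟩
    · intro h3
      apply hg0
      rw [← psiM_eM (ψ := ψ), ← hcomp, ← h3, map_one]
    · ext s
      simp only [Set.mem_insert_iff, Set.mem_singleton_iff, Set.mem_univ, iff_true]
      rcases hval s with h3 | h3
      · left
        exact hinj (by rw [h3, map_one])
      · right
        apply hinj
        rw [hcomp, psiM_eM, h3]
        exact ((hpm g0).resolve_left hg0).symm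
  have hfr2 : Module.finrank M L = 2 := by rw [← IsGalois.card_aut_eq_finrank, hcard]
  refine CFTC.quad (L := L) hfr2 T (fun v hv => ?_) w (fun v hv h3 => h1 v hv ?_) (fun v hv h3 => h2 v hv ?_)
  · by_contra h3
    exact hv (hunr v h3)
  · rw [← hfrob v hv, h3, map_one]
  · intro h4
    rw [← hfrob v hv, ← map_one χL] at h4
    exact h3 (hinj h4)

open Classical in
/-- THE INTERFACE THEOREM. -/
theorem hecke_pnt {ρ : Gal(H25G.Om/ℚ) →* GL (Fin n) ℚ_[l]} {S : Finset ℕ} {m : ℕ} (hρ : Geom ρ S m) (j : PadicAlgCl l →+* ℂ)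
    (M : IntermediateField ℚ H25G.Om) [NumberField M] (ψ : M.fixingSubgroup →* (PadicAlgCl l)ˣ) (hψ : GoodChar ρ M.fixingSubgroup ψ)
    (f : CFT.Pr M → ℂ) (S0 : Finset ℕ) (hf : ∀ P : CFT.Pr M, (∀ p ∈ S0, p.Prime → (p : 𝓞 M) ∉ P.asIdeal) → ∀ h : M.fixingSubgroup, IsFrP M P h → f P = j (ψ h)) :
    Tendsto (fun x : ℕ => (∑ᶠ P ∈ {P : CFT.Pr M | CFT.Nm P ≤ x}, f P) / (Nat.primeCounting x : ℂ)) atTop (𝓝 (if ψ = 1 then 1 else 0)) := by
  obtain ⟨S', T, Fr, D, hSS', hlS', hS0, hGD⟩ := exists_GD hρ hψ S0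
  have hfT : ∀ v ∉ T, f v = j (ψ (Fr v)) := by
    intro v hv
    exact hf v (fun p hp hpp hpv => hv (hGD.ovr v p hpp hpv (hS0 hp))) (Fr v) (hGD.fr v)
  have hcont : Continuous fun g => (ψ g : PadicAlgCl l) := good_cont hρ.cont hψ
  by_cases hψ1 : ψ = 1
  · rw [if_pos hψ1]
    have h1 := CFTC.prime_ideal_thm M
    have h2 := (Complex.continuous_ofReal.tendsto 1).comp h1
    rw [Complex.ofReal_one] at h2
    have h3 : Tendsto (fun x : ℕ => (∑ᶠ v ∈ {v : CFT.Pr M | CFT.Nm v ≤ x}, (0 : ℂ)) / (Nat.primeCounting x : ℂ)) atTop (𝓝 0) := by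
      simp
    have h4 := CFTC.change_S T (w := fun _ => (0 : ℂ)) (w' := fun v => f v - 1) (fun v hv => by
      rw [hfT v hv, hψ1, MonoidHom.one_apply, Units.val_one, map_one, sub_self]) h3
    have h5 := h4.add h2
    rw [zero_add] at h5
    refine h5.congr fun x => ?_
    have hfin : {v : CFT.Pr M | CFT.Nm v ≤ x}.Finite := CFTC.nm_fin x
    have h6 : ∑ᶠ v ∈ {v : CFT.Pr M | CFT.Nm v ≤ x}, f v = ∑ᶠ v ∈ {v : CFT.Pr M | CFT.Nm v ≤ x}, (f v - 1) + ((Set.ncard {v : CFT.Pr M | CFT.Nm v ≤ x} : ℕ) : ℂ) := by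
      rw [finsum_mem_eq_finite_toFinset_sum _ hfin, finsum_mem_eq_finite_toFinset_sum _ hfin, Set.ncard_eq_toFinset_card _ hfin,
        Finset.sum_sub_distrib, Finset.sum_const, nsmul_eq_mul, mul_one, sub_add_cancel]
    rw [h6, add_div]
    congr 1
    show ((((Set.ncard {v : CFT.Pr M | CFT.Nm v ≤ x} : ℕ) : ℝ) / ((Nat.primeCounting x : ℕ) : ℝ) : ℝ) : ℂ) = _
    push_cast
    rfl
  · rw [if_neg hψ1]
    by_cases hsq : ∀ g, ψ g ^ 2 = 1
    · refine real_case hGD hcont hψ1 hsq f (fun v hv h1 => ?_) (fun v hv h1 => ?_)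
      · rw [hfT v hv, h1, Units.val_one, map_one]
      · have h2 : (ψ (Fr v) : PadicAlgCl l) = -1 := by
          have h3 := hsq (Fr v)
          have h4 : ((ψ (Fr v) : PadicAlgCl l) - 1) * ((ψ (Fr v) : PadicAlgCl l) + 1) = 0 := by
            have h5 : (ψ (Fr v) : PadicAlgCl l) ^ 2 = 1 := by rw [← Units.val_pow_eq_pow_val, h3, Units.val_one]
            linear_combination h5
          rcases mul_eq_zero.1 h4 with h5 | h5
          · exact absurd (Units.ext (sub_eq_zero.1 h5)) h1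
          · exact eq_neg_of_add_eq_zero_left h5
        rw [hfT v hv, h2, map_neg, map_one]
    · -- the main case
      obtain ⟨N, nn, hN⟩ := hGD.alg hρ hψ hSS' hlS'
      obtain ⟨n', hn'⟩ := emb_change j nn
      obtain ⟨N0, a, hN0, hdata⟩ := data hρ M ψ hψ
      have hSv : ∀ v ∉ T, ∀ p ∈ S, p.Prime → (p : 𝓞 M) ∉ v.asIdeal := fun v hv p hp hpp hpv => hv (hGD.ovr v p hpp hpv (hSS' hp))
      have hvl : ∀ v ∉ T, CFTC.vl (cD j D) v = j (ψ (Fr v)) := by
        intro v hv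
        show j ((D (Finsupp.single v 1)).toMul : PadicAlgCl l) = _
        rw [hGD.off v hv]
        rfl
      have hvlT : ∀ v ∈ T, CFTC.vl (cD j D) v = 1 := by
        intro v hv
        show j ((D (Finsupp.single v 1)).toMul : PadicAlgCl l) = _
        rw [hGD.on v hv, toMul_zero, Units.val_one, map_one]
      have h1 := CFTC.hecke_pnt T N (cD j D) (fun v => ?_) n' (fun x hx => ?_) ?_
      · refine CFTC.change_S T (fun v hv => ?_) h1
        rw [hvl v hv, hfT v hv]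
      · by_cases hv : v ∈ T
        · rw [hvlT v hv, norm_one]
        · rw [hvl v hv]
          obtain ⟨p, g, ζ, P0, hp, hpS, hpv, hg, hNm, hV, -⟩ := hdata v (hSv v hv) (Fr v) (hGD.fr v)
          have hint := (hV.degLe hN0).1
          exact hV.abs hN0 (j.comp (algebraMap (algebraicClosure ℚ (PadicAlgCl l)) (PadicAlgCl l)))
            ⟨(ψ (Fr v) : PadicAlgCl l), mem_algebraicClosure_iff.2 hint.isAlgebraic⟩ rfl
      · rw [cD_apply, hN x hx]
        exact hn' x hx.ne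
      · have hne2 : (ψ ^ 2 : M.fixingSubgroup →* (PadicAlgCl l)ˣ) ≠ 1 := by
          intro h2
          apply hsq
          intro g
          have h3 := DFunLike.congr_fun h2 g
          exact h3
        obtain ⟨v, hv, h2⟩ := hGD.ne_one hρ.cont hψ (ψ ^ 2) (by
          have h3 := hcont.pow 2
          exact h3.congr fun g => (Units.val_pow_eq_pow_val (ψ g) 2).symm) (fun v hv P hP g hg => by
            have h3 := hGD.unr v hv P hP g hg
            have h4 : psiM (ψ ^ 2) g = psiM ψ g ^ 2 := rfl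
            rw [h4, h3, one_pow]) hne2
        refine ⟨v, hv, fun h3 => h2 ?_⟩
        rw [hvl v hv, ← map_pow, ← Units.val_pow_eq_pow_val] at h3
        have h4 : ((ψ (Fr v) ^ 2 : (PadicAlgCl l)ˣ) : PadicAlgCl l) = 1 := j.injective (by rw [h3, map_one])
        exact Units.ext h4

end

end ST32
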