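import Mathlib
import Pool.Agent.Lib.CFT.N1
import Pool.Agent.Lib.CFT.B09
import Pool.Agent.Lib.CFT.Core
import Pool.Agent.Lib.CFT.Hasse

set_option linter.unusedSectionVars false

/-! # CFT module N: the product formula and the Hasse norm theorem -/

open NumberField IsDedekindDomain

namespace CFT

variable {K : Type} [Field K] [NumberField K] {L : Type} [Field L] [NumberField L] [Algebra K L]

/-- THE PRODUCT FORMULA: if `x` is a local norm at the primes of `S` (a finite set containing the ramified primes) and at the real places, then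
the product of the Frobenius elements outside `S` with exponents the orders of `x` is trivial. -/
theorem prod_formula [IsGalois K L] (hab : ∀ a b : L ≃ₐ[K] L, a * b = b * a) (S : Finset (Pr K))
    (hS : ∀ v : Pr K, ¬ Unr K L v → v ∈ S) {x : K} (hx : x ≠ 0) (h1 : ∀ v ∈ S, LocN K L v x)
    (h2 : ∀ φ : K →+* ℝ, LocR L φ x) {A : Type} [CommGroup A] (χ : (L ≃ₐ[K] L) →* A) : art S χ (dv x) = 0 := by
  obtain ⟨N, hN⟩ := artin K L hab S hS
  obtain ⟨y, hy, hr⟩ := near (L := L) S N hx h1 h2
  have hny : Algebra.norm K y ≠ 0 := Algebra.norm_ne_zero_iff.2 hy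
  have e : dv x = dv (x / Algebra.norm K y) + Nd K L (dv y) := by
    rw [Nd_dv hy, ← dv_mul (div_ne_zero hx hny) hny, div_mul_cancel₀ _ hny]
  rw [e, map_add, hN A χ _ hr, art_Nd hab S hS, add_zero]

theorem n2_f_eq [IsGalois K L] {w w' : Pr L} (h : below K w = below K w') :
    w.asIdeal.inertiaDeg (𝓞 K) = w'.asIdeal.inertiaDeg (𝓞 K) := by
  have hG : IsGaloisGroup (L ≃ₐ[K] L) (𝓞 K) (𝓞 L) := inferInstance
  have hp := w.isPrime
  have hp' := w'.isPrime
  have hv := (below K w).isMaximal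
  have hl : w.asIdeal.LiesOver (below K w).asIdeal := ⟨rfl⟩
  have hl' : w'.asIdeal.LiesOver (below K w).asIdeal := ⟨by rw [h]; rfl⟩
  exact Ideal.inertiaDeg_eq_of_isGaloisGroup (below K w).asIdeal w.asIdeal w'.asIdeal (L ≃ₐ[K] L)

/-- For a Galois extension the orders of norms are divisible by the residue degree. -/
theorem f_dvd_Nd [IsGalois K L] (D : Dv L) (w : Pr L) : (w.asIdeal.inertiaDeg (𝓞 K) : ℤ) ∣ Nd K L D (below K w) := by
  rw [Nd_apply]
  refine Finset.dvd_sum fun w' hw' => ?_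
  rw [n2_f_eq ((mem_abv (below K w) w').1 hw').symm]
  exact dvd_mul_right _ _

/-- THE HASSE NORM THEOREM for cyclic extensions: a nonzero `x` which is a local norm at all places (at the primes outside `S`, which are
unramified, this is a condition on the order) is a norm. -/
theorem hasse_gen [IsGalois K L] (hc : IsCyclic (L ≃ₐ[K] L)) (S : Finset (Pr K)) (hS : ∀ v : Pr K, ¬ Unr K L v → v ∈ S) {x : K}
    (hx : x ≠ 0) (h1 : ∀ v ∈ S, LocN K L v x) (h2 : ∀ φ : K →+* ℝ, LocR L φ x)
    (h3 : ∀ w : Pr L, below K w ∉ S → (w.asIdeal.inertiaDeg (𝓞 K) : ℤ) ∣ od (below K w) x) :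
    ∃ y : L, y ≠ 0 ∧ Algebra.norm K y = x := by
  obtain ⟨N, hN⟩ := hasse K L hc S hS
  obtain ⟨y, hy, hr⟩ := near (L := L) S N hx h1 h2
  have hny : Algebra.norm K y ≠ 0 := Algebra.norm_ne_zero_iff.2 hy
  obtain ⟨z, hz, hzx⟩ := hN _ hr (fun w hw => by
    have e : od (below K w) (x / Algebra.norm K y) = od (below K w) x - od (below K w) (Algebra.norm K y) := by
      rw [div_eq_mul_inv, od_mul _ hx (inv_ne_zero hny), od_inv, sub_eq_add_neg]
    rw [e]
    refine dvd_sub (h3 w hw) ?_
    rw [← dv_apply, ← Nd_dv hy]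
    exact f_dvd_Nd _ w)
  refine ⟨y * z, mul_ne_zero hy hz, ?_⟩
  rw [map_mul, hzx, mul_div_cancel₀ _ hny]

end CFT
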