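import Mathlib
import Pool.Agent.Lib.CFT.D1

/-! # CFT: the target statements of the modules (sorried here; NEVER import this file in a hand-in)

Clients import this file while the modules are being proved; at the end Lib/CFT/Core.lean will contain the same theorems (same names, namespace CFT)
with proofs. T1 pray_fin, T2 second_ineq, frob_gen: module Z (helpers 33, 16). T3 first_ineq: module H (helper69). T4 cyc_rec: module B (helper13).
T5 crossing: module X (helper60). T6 artin: final assembly (helper13). -/

open NumberField IsDedekindDomain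

namespace CFT

variable (K : Type) [Field K] [NumberField K] (L : Type) [Field L] [NumberField L] [Algebra K L]

/-- Z1. The ray class group is finite. -/
theorem pray_fin (S : Finset (Pr K)) (N : ℕ) : (Pray S N).FiniteIndex := sorry

/-- T1 (Z2). The second inequality, for every Galois extension. -/
theorem second_ineq [IsGalois K L] (S : Finset (Pr K)) (N : ℕ) :
    (Pray S N ⊔ (Nd K L).range).index ≤ Module.finrank K L := sorry

/-- T2 (Z3). The Frobenius elements outside a finite set generate the group (abelian extension). -/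
theorem frob_gen [IsGalois K L] (hab : ∀ a b : L ≃ₐ[K] L, a * b = b * a) (S : Finset (Pr K)) :
    Subgroup.closure {s : L ≃ₐ[K] L | ∃ v : Pr K, v ∉ S ∧ Unr K L v ∧ frob K L v = s} = ⊤ := sorry

/-- T3 (H). The first inequality, for cyclic extensions, modulus supported on any finite set containing the ramified primes. -/
theorem first_ineq [IsGalois K L] (hc : IsCyclic (L ≃ₐ[K] L)) (S : Finset (Pr K)) (hS : ∀ v : Pr K, ¬ Unr K L v → v ∈ S) :
    ∃ N : ℕ, Module.finrank K L ≤ (Pray S N ⊔ (Nd K L).range).index := sorry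

/-- T4 (B). Reciprocity for cyclotomic extensions. -/
theorem cyc_rec (m : ℕ) [NeZero m] [IsCyclotomicExtension {m} K L] (S : Finset (Pr K))
    (hS : ∀ v : Pr K, (m : 𝓞 K) ∈ v.asIdeal → v ∈ S) :
    ∃ N : ℕ, ∀ (A : Type) [CommGroup A] (χ : (L ≃ₐ[K] L) →* A) (x : K), Ray S N x → art S χ (dv x) = 0 := sorry

/-- T5 (X). The crossing. -/
theorem crossing [IsGalois K L] (hc : IsCyclic (L ≃ₐ[K] L)) (l r : ℕ) (hl : l.Prime) (hn : Module.finrank K L = l ^ r)
    (S : Finset (Pr K)) (hS : ∀ v : Pr K, ¬ Unr K L v → v ∈ S) (N : ℕ) (v v₀ : Pr K) (hv : v ∉ S) (hv₀ : v₀ ∉ S)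
    (hg : Subgroup.zpowers (frob K L v₀) = ⊤) (d : ℕ) (hd : frob K L v = frob K L v₀ ^ d) :
    (Finsupp.single v 1 - d • Finsupp.single v₀ 1 : Dv K) ∈ Pray S N ⊔ (Nd K L).range := sorry

/-- T8 (by-product of module H and T1). HASSE NORM THEOREM for cyclic extensions, for elements in a ray (general elements: divide by a norm which is close
to the element at the places of S). -/
theorem hasse [IsGalois K L] (hc : IsCyclic (L ≃ₐ[K] L)) (S : Finset (Pr K)) (hS : ∀ v : Pr K, ¬ Unr K L v → v ∈ S) :
    ∃ N : ℕ, ∀ x : K, Ray S N x → (∀ w : Pr L, below K w ∉ S → (w.asIdeal.inertiaDeg (𝓞 K) : ℤ) ∣ od (below K w) x) →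
      ∃ y : L, y ≠ 0 ∧ Algebra.norm K y = x := sorry

/-- T6. ARTIN RECIPROCITY for finite abelian extensions; the modulus is supported on any finite set containing the ramified primes
(and the infinite places). -/
theorem artin [IsGalois K L] (hab : ∀ a b : L ≃ₐ[K] L, a * b = b * a) (S : Finset (Pr K)) (hS : ∀ v : Pr K, ¬ Unr K L v → v ∈ S) :
    ∃ N : ℕ, ∀ (A : Type) [CommGroup A] (χ : (L ≃ₐ[K] L) →* A) (x : K), Ray S N x → art S χ (dv x) = 0 := sorry

/-- T6'. For cyclic extensions of prime power degree the kernel of the Artin symbol is the norm group (a complement of T6, same proof; for all abelian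
extensions it follows too, but no client needs it). -/
theorem artin_ker [IsGalois K L] (hc : IsCyclic (L ≃ₐ[K] L)) (l r : ℕ) (hl : l.Prime) (hn : Module.finrank K L = l ^ r)
    (S : Finset (Pr K)) (hS : ∀ v : Pr K, ¬ Unr K L v → v ∈ S) (hab : ∀ a b : L ≃ₐ[K] L, a * b = b * a) :
    ∃ N : ℕ, letI : CommGroup (L ≃ₐ[K] L) := { (inferInstance : Group (L ≃ₐ[K] L)) with mul_comm := hab }
      (art S (MonoidHom.id (L ≃ₐ[K] L))).ker = Pray S N ⊔ (Nd K L).range := sorry

end CFT
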