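import Mathlib
import Pool.Agent.Lib.CFT.ZD

/-! # CFT, module Z: the statement of Z0 (sorried here; proof by helper16; NEVER import this file in a hand-in) -/

open NumberField IsDedekindDomain

namespace CFTZ

open H55R CFT

variable {K : Type} [Field K] [NumberField K]

/-- Z0: the L-series of a nontrivial ray class character is bounded near s = 1. -/
theorem z0_bdd (S : Finset (Pr K)) (N : ℕ) (χ : Dv K →+ Additive ℂˣ) (hχ : ∀ D ∈ Pray S N, χ D = 0)
    (hn : ∀ v, ‖(cphi χ v : ℂ)‖ = 1) (h1 : χ ≠ 0) :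
    ∃ C : ℝ, ∀ s ∈ Set.Ioc (1 : ℝ) 2, ‖Ls (chI S χ) s‖ ≤ C := by
  sorry

end CFTZ
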